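import Pool.Agent.Helper779.SV.Chk

/-!
# Kernel-efficient checkers, part 2: fans (uniqueness and lower solutions) and test sets
-/

namespace SV.K

/-! ## Fans

Boundary points of the staircase `(X t, Y t)`, `t ≤ T`, digits of width 16 of `XD`, `YD` (unit `u`). -/

/-- one edge -/
def edge (N C XD YD t : Nat) : Bool :=
  fb (dg XD 16 t) (fun X => fb (dg XD 16 (Nat.succ t)) (fun X' => fb (dg YD 16 t) (fun Y => fb (dg YD 16 (Nat.succ t)) (fun Y' =>
  fb (Nat.div Y 2) (fun k => cond (Nat.beq Y (Nat.mul 2 k))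
    (cond (Nat.beq X X')
      (cond (Nat.beq Y' (Nat.add Y 2)) (cond (Nat.ble (Nat.succ k) N) (Nat.beq (dg C 16 k) X) false) false)
      (cond (Nat.beq Y Y') (cond (Nat.ble (Nat.succ X') X) (cond (Nat.ble 1 k) (cond (Nat.ble k N)
        (cond (Nat.ble X (dg C 16 (Nat.sub k 1))) (Nat.ble (dg C 16 k) X') false) false) false) false) false)) false)))))

/-- the fan -/
def fan (N C T XD YD : Nat) : Bool :=
  cond (Nat.beq (dg XD 16 0) (dg C 16 0)) (cond (Nat.beq (dg YD 16 0) 0)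
    (cond (Nat.beq (dg XD 16 T) 0) (cond (Nat.beq (dg YD 16 T) (Nat.mul 2 N))
      (allN (edge N C XD YD) T) false) false) false) false

/-- the staircase lies in the half ellipse with squared half axes `An`, `Hn` (unit `u²`) -/
def ellok (N C An Hn : Nat) : Bool :=
  cond (Nat.ble 1 Hn) (cond (Nat.ble Hn An)
    (allN (fun i => Nat.ble (Nat.add (Nat.mul (Nat.mul (dg C 16 i) (dg C 16 i)) Hn)
      (Nat.mul (Nat.mul 4 (Nat.mul (Nat.succ i) (Nat.succ i))) An)) (Nat.mul An Hn)) N) false) false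

/-- `3 ν / u³` of the triangle `t` -/
def nu3 (XD YD t : Nat) : Nat :=
  fc (dg XD 16 t) (fun X => fc (dg XD 16 (Nat.succ t)) (fun X' => fc (dg YD 16 t) (fun Y =>
    cond (Nat.beq X X') (Nat.mul (Nat.mul 2 X) (Nat.add Y (dg YD 16 (Nat.succ t))))
      (Nat.mul (Nat.mul 2 (Nat.sub X X')) (Nat.mul Y Y)))))

def mn (a b : Nat) : Nat := cond (Nat.ble a b) a b

/-- lower bound for `10^7 k`, at the point `(g/10^4) u (x,y)`, squared half axes `Ah/10^8`, `Hh/10^8`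
(unit `u²`), `R15 = 10^15 RS^2` -/
def kN (R15 Ah Hh g x y : Nat) : Nat :=
  fc (Nat.mul g g) (fun g2 => fc (Nat.mul g2 (Nat.mul x x)) (fun gx => fc (Nat.mul g2 (Nat.mul y y)) (fun gy =>
  fc (Nat.add gx gy) (fun s => fc (Nat.add Ah s) (fun CA => fc (Nat.add Hh s) (fun CH =>
  fc (Nat.div (Nat.mul R15 (Nat.add (Nat.mul CA CA) (Nat.mul 4 (Nat.mul Ah gx)))) (Nat.mul CA (Nat.mul CA CA))) (fun kA =>
  fc (Nat.div (Nat.mul R15 (Nat.add (Nat.mul 3 (Nat.mul CH CH)) (Nat.mul 4 (Nat.mul Hh gy))))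
    (Nat.mul 3 (Nat.mul CH (Nat.mul CH CH)))) (fun kH =>
  mn (mn (Nat.div R15 Ah) (Nat.div R15 s)) (mn kA kH)))))))))

/-- lower bound on the triangle `t` -/
def kT (R15 Ah Hh g XD YD t : Nat) : Nat :=
  fc (kN R15 Ah Hh g (dg XD 16 t) (dg YD 16 t)) (fun a =>
    fc (kN R15 Ah Hh g (dg XD 16 (Nat.succ t)) (dg YD 16 (Nat.succ t))) (fun b => mn a b))

/-- `Σ (Λ - k)_+ 3ν/u³` -/
def SF (R15 Ah Hh g T XD YD Lam : Nat) : Nat :=
  sumN (fun t => Nat.mul (Nat.sub Lam (kT R15 Ah Hh g XD YD t)) (nu3 XD YD t)) T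

/-- `3 Λ qn RS³ - 10^6 SF` -/
def DD (RS qn Ah Hh g T XD YD Lam : Nat) : Nat :=
  Nat.sub (Nat.mul (Nat.mul 3 Lam) (Nat.mul qn (Nat.mul RS (Nat.mul RS RS))))
    (Nat.mul 1000000 (SF (Nat.mul 1000000000000000 (Nat.mul RS RS)) Ah Hh g T XD YD Lam))

/-- one `σ`-cell `[g0,g1]/10^4` of the uniqueness proof -/
def ucell (RS qn An Hn T XD YD g0 g1 L L' : Nat) : Bool :=
  fb (Nat.mul 100000000 An) (fun Ah => fb (Nat.mul 100000000 Hn) (fun Hh =>
  fb (DD RS qn Ah Hh g1 T XD YD L) (fun D =>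
  fb (DD RS qn Ah Hh (Nat.succ (Nat.div 100000000 g0)) T XD YD L') (fun D' =>
  fb (Nat.mul qn (Nat.mul RS (Nat.mul RS RS))) (fun q => fb (Nat.mul g0 g0) (fun g02 => fb (Nat.mul g1 g1) (fun g12 =>
  cond (Nat.ble g0 g1) (cond (Nat.ble (Nat.succ (Nat.mul q 1000000000000000)) (Nat.mul g02 D))
    (Nat.ble (Nat.succ (Nat.add (Nat.mul (Nat.mul q 1000000000000000) (Nat.mul g02 g12))
        (Nat.mul (Nat.mul q 100000000000000000000000) g12)))
      (Nat.add (Nat.mul (Nat.mul g02 g02) (Nat.mul g12 D)) (Nat.mul 1000000000000000000000000 D'))) false) false)))))))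

/-- the cells `k0 ≤ k < k0 + n`; breakpoints `GD` (32 bits), parameters `LD`, `LD'` (32 bits) -/
def ucells (RS qn An Hn T XD YD GD LD LD' k0 n : Nat) : Bool :=
  allN (fun m => fb (Nat.add k0 m) (fun k => fb (dg GD 32 k) (fun g0 => fb (dg GD 32 (Nat.succ k)) (fun g1 =>
    fb (dg LD 32 k) (fun L => fb (dg LD' 32 k) (fun L' => ucell RS qn An Hn T XD YD g0 g1 L L')))))) n

/-- end of the `σ` range: `a h² (1/s + 1/s²) < q` at `s = g/10^4` -/
def uend (RS N C qn g : Nat) : Bool :=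
  Nat.ble (Nat.succ (Nat.mul (Nat.mul (dg C 16 0) (Nat.mul 4 (Nat.mul N N))) (Nat.mul 1000000
      (Nat.add (Nat.mul 10000 g) 100000000))))
    (Nat.mul (Nat.mul qn (Nat.mul RS (Nat.mul RS RS))) (Nat.mul g g))

/-! ## Lower solutions -/

/-- `Σ_m Σ_t (Λ - k(ρ_m))_+ (m³-(m-1)³) 3ν/u³`, `ρ_m = m/10` -/
def SK (R15 Ah Hh T XD YD Lam : Nat) : Nat :=
  sumN (fun m => fc (SF R15 Ah Hh (Nat.mul 1000 (Nat.succ m)) T XD YD Lam) (fun S =>
    Nat.mul S (Nat.succ (Nat.mul 3 (Nat.mul m (Nat.succ m)))))) 10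

/-- `q0 (t - Λ t³) - q1 (1 - Λ) > K` at `t = τ/10^4`, `K = SKv/(3·10^10·RS³)` -/
def lend (RS q0 q1 Lam SKv τ : Nat) : Bool :=
  fb (Nat.mul 3000 (Nat.mul RS (Nat.mul RS RS))) (fun R =>
    Nat.ble (Nat.succ (Nat.add (Nat.mul R (Nat.add (Nat.mul q0 (Nat.mul Lam (Nat.mul τ (Nat.mul τ τ))))
        (Nat.mul q1 10000000000000000000))) (Nat.mul SKv 1000000000000000000)))
      (Nat.mul R (Nat.add (Nat.mul (Nat.mul q0 τ) 1000000000000000) (Nat.mul (Nat.mul q1 Lam) 1000000000000))))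

/-- one `t`-cell `[τ0,τ1]/10^4`; the half ellipse has squared half axes `An/RS0²`, `Hn/RS0²` -/
def lcell (RS RS0 An Hn q0 qa qb T XD YD τ0 τ1 Lam : Nat) : Bool :=
  fb (Nat.succ (Nat.div (Nat.mul (Nat.mul An (Nat.mul τ1 τ1)) (Nat.mul RS RS)) (Nat.mul RS0 RS0))) (fun Ah =>
  fb (Nat.succ (Nat.div (Nat.mul (Nat.mul Hn (Nat.mul τ1 τ1)) (Nat.mul RS RS)) (Nat.mul RS0 RS0))) (fun Hh =>
  fb (SK (Nat.mul 1000000000000000 (Nat.mul RS RS)) Ah Hh T XD YD Lam) (fun S =>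
  cond (Nat.ble τ0 τ1) (cond (Nat.ble (Nat.mul Lam (Nat.mul τ1 τ1)) 1000000000000000)
    (cond (lend RS q0 qa Lam S τ0) (cond (lend RS q0 qb Lam S τ0)
      (cond (lend RS q0 qa Lam S τ1) (lend RS q0 qb Lam S τ1) false) false) false) false) false)))

/-- the cells `k < n`; breakpoints `TD`, parameters `LD` (32 bits) -/
def lcells (RS RS0 An Hn q0 qa qb T XD YD TD LD n : Nat) : Bool :=
  cond (Nat.beq (dg TD 32 0) 0) (cond (Nat.ble (Nat.mul 10000 qb) (Nat.mul q0 (dg TD 32 n)))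
    (allN (fun k => fb (dg TD 32 k) (fun τ0 => fb (dg TD 32 (Nat.succ k)) (fun τ1 => fb (dg LD 32 k) (fun Lam =>
      lcell RS RS0 An Hn q0 qa qb T XD YD τ0 τ1 Lam)))) n) false) false

/-! ## Test sets: rows `r < R`, height `2r+1`, `n_r = dg A 16 r` cells, all of the same parity -/

/-- multiplicity of the difference number `k < a+b-1` -/
def mult (a b k : Nat) : Nat := mn (mn a b) (mn (Nat.succ k) (Nat.sub (Nat.add a b) (Nat.succ k)))

/-- `|a+b-2-2k|²` -/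
def dx2 (a b k : Nat) : Nat := fc (ad (Nat.add a b) (Nat.mul 2 (Nat.succ k))) (fun d => Nat.mul d d)

/-- numerator `Π ((F²-4)² N²)^mult`, `F = dx²+f`, `N = dx²+g`; factors with `N = 0` omitted -/
def tnum (a b f g : Nat) : Nat :=
  prodN (fun k => fc (dx2 a b k) (fun d => fc (Nat.add d f) (fun F => fc (Nat.add d g) (fun M =>
    cond (Nat.beq M 0) 1 (Nat.pow (fc (Nat.sub (Nat.mul F F) 4) (fun x => Nat.mul (Nat.mul x x) (Nat.mul M M))) (mult a b k)))))) (Nat.sub (Nat.add a b) 1)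
/-- denominator `Π ((N²+4)² F²)^mult` -/
def tden (a b f g : Nat) : Nat :=
  prodN (fun k => fc (dx2 a b k) (fun d => fc (Nat.add d f) (fun F => fc (Nat.add d g) (fun M =>
    cond (Nat.beq M 0) 1 (Nat.pow (fc (Nat.add (Nat.mul M M) 4) (fun x => Nat.mul (Nat.mul x x) (Nat.mul F F))) (mult a b k)))))) (Nat.sub (Nat.add a b) 1)

/-- lower bound of `2^14 log₂` of the pair of rows `r ≥ s` (`0` if not applicable is not allowed) -/
def tpair (A r s : Nat) : Nat :=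
  fc (dg A 16 r) (fun a => fc (dg A 16 s) (fun b =>
  fc (Nat.mul 4 (Nat.mul (Nat.add r (Nat.succ s)) (Nat.add r (Nat.succ s)))) (fun f =>
  fc (Nat.mul 4 (Nat.mul (Nat.sub r s) (Nat.sub r s))) (fun g =>
  fc (tnum a b f g) (fun nu => fc (tden a b f g) (fun de => cond (Nat.ble de nu) (LL nu de) 0))))))

/-- self term of row `r`: `n_r` times lower bound of `2^14 log₂ (((2y)⁴-4)²/(2y)⁴)`, `y = 2r+1` -/
def tself (A r : Nat) : Nat :=
  fc (Nat.pow (Nat.add (Nat.mul 4 r) 2) 4) (fun z => Nat.mul (dg A 16 r) (LL (Nat.mul (Nat.sub z 4) (Nat.sub z 4)) z))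

/-- `Σ_{r,s} + Σ_r self`, units `2^-14 log 2 / 4`... -/
def tsum (A R : Nat) : Nat :=
  sumN (fun r => Nat.add (Nat.add (tself A r) (tpair A r r)) (Nat.mul 2 (sumN (fun s => tpair A r s) r))) R

def tcnt (A R : Nat) : Nat := sumN (fun r => dg A 16 r) R
def tP (A R : Nat) : Nat := sumN (fun r => Nat.mul (dg A 16 r) (Nat.succ (Nat.mul 2 r))) R

/-- same parity and `n_r ≥ 1` -/
def tpar (A R : Nat) : Bool :=
  cond (Nat.ble 1 R) (allN (fun r => cond (Nat.ble 1 (dg A 16 r)) (Nat.beq (Nat.mod (dg A 16 r) 2) (Nat.mod (dg A 16 0) 2)) false) R) false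

/-- `10^10 · 16384 · π E ≥ tE`: `π E ≥ Σ log + cnt/3` -/
def tE (A R : Nat) : Nat := Nat.add (Nat.mul (tsum A R) 6931471803) (Nat.mul (tcnt A R) 54613333333333)

end SV.K
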