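import Pool.Agent.Helper779.SV.DN80
import Pool.Agent.Helper779.SV.Chk2

/-! Fan of the staircase N80 and the uniqueness cells. -/

set_option maxRecDepth 100000

namespace SV.K.N80

def XD : Nat := 39965988115379449821315053456941843972979984863997556601327841388895741303090802523758271053153656108337112718252597612248364469448053608813065736970189990002940080119334159829766783599341518733683719700654029815215350128080914781032967704354765318883288177179207742059391557875532533824276190802555144956925948124308581510699271196281536924918017595331554852623755728257665709673752816847837677587219695726098209250614028558043616815313959646129835835700813955447749737471593434749018499135374677384102359427731603021082197931849196217888887607404365475888723252243557319305728052271220728658363606638005251404650142364261253086728741822451565355851463778582872195344541895146953949646485432780593119895502993018492890082253243278777213148464936611502406647697104979859061123479974355796238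
def YD : Nat := 83813728791337288472432732634038241197124923509862999457267298509684159954334945795151763148800509432587436572168524134853952262317101701647425132852197630138771835735184034130995747781006558474763329409287865160401043847815908263487976066787269090526780433705880720880866887968336502342981631618555568068201847504691054076827888632394293888423548841838811952248000248434945775277855603343341516105475721443904856987762317254296213327547124812346503562461836106739886666184963492941916630477267391455356784032347772792629565808535499031788305462643531108999331872319829175489445013383455399427244083409745367956820402172470203028851892005093118351866245671231295116432877696293901287979426288554928708070090946942681777873824543533305031155647360967822439203426799785676010961843196105466161790976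
def GD : Nat := 1148450274803981944352016210098250437706065565584217799961888287737527311391279645769057551992454814661897220766830700304
def LD : Nat := 9684187821773119816018823024499507178231117596514374711565931512564714673492952330968002259487736855753316398058
def LD' : Nat := 36345843191592061972965574946505471366071085240444235427935722861171739113058340507214928195083200248880937333738
theorem fan_ok : fan 80 C 165 XD YD = true := by decide +kernel
theorem ell_ok : ellok 80 C 72946 25636 = true := by decide +kernel
theorem g0_ok : dg GD 32 0 = 10000 := by decide +kernel
theorem cells_ok : ucells 170 705200 72946 25636 165 XD YD GD LD LD' 0 12 = true := by decide +kernel
theorem end_ok : uend 170 80 C 705200 (dg GD 32 12) = true := by decide +kernel

end SV.K.N80
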