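import Pool.Agent.Helper779.SV.T01

/-!
# T02: S_scale, S_trans, S_add, S_mono
-/

open MeasureTheory Set Filter Topology
open scoped Real Pointwise

namespace SV
namespace T02

theorem kk_scale {r : ℝ} (hr : r ≠ 0) (D z : ℝ) : kk (r ^ 2 * D) (r ^ 2 * z) = (r ^ 2)⁻¹ * kk D z := by
  have hr2 : r ^ 2 ≠ 0 := pow_ne_zero 2 hr
  unfold kk
  by_cases h : z = 0
  · subst h
    rw [mul_zero, if_pos rfl, if_pos rfl, one_div, one_div, mul_inv]
  · rw [if_neg (mul_ne_zero hr2 h), if_neg h, mul_div_mul_left _ _ hr2, div_mul_eq_div_div_swap,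
      div_eq_inv_mul]

theorem kap_scale {r : ℝ} (hr : r ≠ 0) (x y : ℝ × ℝ) :
    kap (r • x) (r • y) = (r ^ 2)⁻¹ * kap x y := by
  unfold kap
  have h1 : dsq (r • x) (r • y) = r ^ 2 * dsq x y := by
    simp only [dsq, Prod.smul_fst, Prod.smul_snd, smul_eq_mul]
    ring
  have h2 : 4 * (r • x).2 * (r • y).2 = r ^ 2 * (4 * x.2 * y.2) := by
    simp only [Prod.smul_snd, smul_eq_mul]
    ring
  rw [h1, h2, kk_scale hr]
  ring

theorem dil_eq {r : ℝ} (hr : r ≠ 0) (A : Set (ℝ × ℝ)) : dil r A = r • A := by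
  ext x
  rw [Set.mem_smul_set_iff_inv_smul_mem₀ hr]
  rfl

theorem finrank2 : Module.finrank ℝ (ℝ × ℝ) = 2 := by simp

theorem int_dil {r : ℝ} (hr : 0 < r) (A : Set (ℝ × ℝ)) (f : ℝ × ℝ → ℝ) :
    ∫ x in dil r A, f x = r ^ 2 * ∫ x in A, f (r • x) := by
  rw [dil_eq hr.ne', Measure.setIntegral_comp_smul_of_pos volume f A hr, finrank2, smul_eq_mul,
    ← mul_assoc, mul_inv_cancel₀ (by positivity), one_mul]

theorem intOn_dil {r : ℝ} (hr : 0 < r) {A : Set (ℝ × ℝ)} (hA : MeasurableSet A) (f : ℝ × ℝ → ℝ) :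
    IntegrableOn f (dil r A) ↔ IntegrableOn (fun x => f (r • x)) A := by
  have hm : MeasurableSet (dil r A) := by
    rw [dil_eq hr.ne']
    exact hA.const_smul₀ r
  rw [← integrable_indicator_iff hm, ← integrable_indicator_iff hA,
    ← integrable_comp_smul_iff volume _ hr.ne']
  have : (fun x => (dil r A).indicator f (r • x)) = A.indicator fun x => f (r • x) := by
    funext x
    have h1 : r • x ∈ dil r A ↔ x ∈ A := by
      rw [dil_eq hr.ne', Set.smul_mem_smul_set_iff₀ hr.ne']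
    by_cases h : x ∈ A
    · rw [indicator_of_mem h, indicator_of_mem (h1.2 h)]
    · rw [indicator_of_notMem h, indicator_of_notMem (fun h' => h (h1.1 h'))]
  rw [this]

theorem phi_dil {r : ℝ} (hr : 0 < r) (A : Set (ℝ × ℝ)) (x : ℝ × ℝ) :
    phi (dil r A) x = r * phi A (r⁻¹ • x) := by
  unfold phi
  rw [int_dil hr, ← integral_const_mul, ← integral_const_mul]
  congr 1
  funext y
  have h1 : x = r • (r⁻¹ • x) := by rw [smul_inv_smul₀ hr.ne']
  have h2 : kap x (r • y) = (r ^ 2)⁻¹ * kap (r⁻¹ • x) y := by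
    conv_lhs => rw [h1]
    exact kap_scale hr.ne' _ _
  rw [h2]
  simp only [Prod.smul_snd, smul_eq_mul]
  field_simp

end T02

theorem t_scale : S_scale := by
  intro A hA r hr
  have hphi : ∀ x : ℝ × ℝ, phi (dil r A) x = r * phi A (r⁻¹ * x.1, r⁻¹ * x.2) := fun x =>
    T02.phi_dil hr A x
  have hvol : volume (dil r A) = ENNReal.ofReal (r ^ 2) * volume A := by
    rw [T02.dil_eq hr.ne', Measure.addHaar_smul, T02.finrank2, abs_of_pos (by positivity)]
  refine ⟨⟨?_, ?_, ?_⟩, ?_, ?_, ?_, ?_, hphi⟩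
  · rw [T02.dil_eq hr.ne']
    exact hA.meas.const_smul₀ r
  · intro x hx
    have h1 : 0 < r⁻¹ * x.2 := hA.sub hx
    exact (mul_pos_iff_of_pos_left (inv_pos.2 hr)).1 h1
  · rw [T02.intOn_dil hr hA.meas]
    exact hA.int.const_mul r
  · unfold PP
    rw [T02.int_dil hr]
    simp only [Prod.smul_snd, smul_eq_mul]
    rw [integral_const_mul]
    ring
  · unfold EE cross
    rw [T02.int_dil hr]
    have h1 : ∀ x : ℝ × ℝ, phi (dil r A) (r • x) * (r • x).2 = r ^ 2 * (phi A x * x.2) := by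
      intro x
      rw [T02.phi_dil hr, inv_smul_smul₀ hr.ne']
      simp only [Prod.smul_snd, smul_eq_mul]
      ring
    simp only [h1]
    rw [integral_const_mul]
    ring
  · unfold ar
    rw [hvol, ENNReal.toReal_mul, ENNReal.toReal_ofReal (by positivity)]
  · rw [hvol]
    constructor
    · intro h
      by_contra hc
      exact (ENNReal.mul_lt_top ENNReal.ofReal_lt_top (lt_top_iff_ne_top.2 hc)).ne h
    · intro h
      rw [h]
      exact ENNReal.mul_top (by simpa using hr.ne')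

namespace T02

theorem kap_tra (τ : ℝ) (x y : ℝ × ℝ) : kap (x - (τ, 0)) (y - (τ, 0)) = kap x y := by
  unfold kap dsq
  simp

theorem mp_sub (v : ℝ × ℝ) : MeasurePreserving (fun x : ℝ × ℝ => x - v) volume volume :=
  measurePreserving_sub_right volume v

theorem emb_sub (v : ℝ × ℝ) : MeasurableEmbedding (fun x : ℝ × ℝ => x - v) :=
  (MeasurableEquiv.subRight v).measurableEmbedding

theorem tra_eq (τ : ℝ) (A : Set (ℝ × ℝ)) : tra τ A = (fun x : ℝ × ℝ => x - (τ, 0)) ⁻¹' A := by
  ext x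
  simp only [tra, mem_preimage]
  have : x - (τ, 0) = (x.1 - τ, x.2) := by
    ext <;> simp
  rw [this]
  rfl

theorem int_tra (τ : ℝ) (A : Set (ℝ × ℝ)) (f : ℝ × ℝ → ℝ) :
    ∫ x in tra τ A, f (x - (τ, 0)) = ∫ x in A, f x := by
  rw [tra_eq]
  exact (mp_sub _).setIntegral_preimage_emb (emb_sub _) f A

end T02

theorem t_trans : S_trans := by
  intro A hA τ
  have hm : MeasurableSet (tra τ A) := by
    rw [T02.tra_eq]
    exact (T02.emb_sub _).measurable hA.meas
  have h2 : ∀ x : ℝ × ℝ, (x - ((τ, 0) : ℝ × ℝ)).2 = x.2 := fun x => by simp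
  have h3 : ∀ x : ℝ × ℝ, x - ((τ, 0) : ℝ × ℝ) = (x.1 - τ, x.2) := fun x => by
    ext <;> simp
  have hphi : ∀ x : ℝ × ℝ, phi (tra τ A) x = phi A (x.1 - τ, x.2) := by
    intro x
    unfold phi
    rw [← T02.int_tra τ A (fun y => kap (x.1 - τ, x.2) y * y.2)]
    congr 1
    funext y
    rw [← h3, T02.kap_tra, h2]
  refine ⟨⟨hm, ?_, ?_⟩, ?_, ?_, ?_, hphi⟩
  · intro x hx
    have h4 : (x.1 - τ, x.2) ∈ A := hx
    have h5 := hA.sub h4
    exact h5
  · have h1 := ((T02.mp_sub (τ, 0)).integrableOn_comp_preimage (T02.emb_sub (τ, 0))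
      (f := fun y : ℝ × ℝ => y.2) (s := A)).2 hA.int
    rw [← T02.tra_eq] at h1
    refine h1.congr_fun (fun x _ => ?_) hm
    simp
  · unfold PP
    rw [← T02.int_tra τ A]
    simp only [h2]
  · unfold EE cross
    rw [← T02.int_tra τ A (fun x => phi A x * x.2)]
    simp only [hphi, h3]
  · rw [T02.tra_eq]
    exact (T02.mp_sub _).measure_preimage_emb (T02.emb_sub _) A

namespace T02

theorem dsq_comm (x y : ℝ × ℝ) : dsq x y = dsq y x := by
  unfold dsq
  ring

theorem kap_comm (x y : ℝ × ℝ) : kap x y = kap y x := by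
  unfold kap
  rw [dsq_comm x y, show 4 * x.2 * y.2 = 4 * y.2 * x.2 by ring]

/-- the kernel of the energy -/
noncomputable def KK2 (p : (ℝ × ℝ) × (ℝ × ℝ)) : ℝ := kap p.1 p.2 * p.2.2 * p.1.2

theorem KK2_meas : Measurable KK2 := by
  unfold KK2
  exact (T01.meas_kap.mul (by fun_prop)).mul (by fun_prop)

theorem phi_meas {A B : Set (ℝ × ℝ)} :
    AEStronglyMeasurable (fun x => phi A x) (volume.restrict B) := by
  have h : AEStronglyMeasurable (fun p : (ℝ × ℝ) × (ℝ × ℝ) => kap p.1 p.2 * p.2.2)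
      ((volume.restrict B).prod (volume.restrict A)) :=
    (T01.meas_kap.mul (by fun_prop)).aestronglyMeasurable
  exact h.integral_prod_right'

theorem phi_int {A B : Set (ℝ × ℝ)} (hA : Fi A) (hB : Fi B) :
    IntegrableOn (fun x => phi A x * x.2) B := by
  have h1 : IntegrableOn (fun x : ℝ × ℝ => (2 * 1 + PP A / (π * 1 ^ 2)) * x.2) B :=
    hB.int.const_mul _
  refine h1.mono' (phi_meas.mul (measurable_snd.aestronglyMeasurable)) ?_
  filter_upwards [ae_restrict_mem hB.meas] with x hx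
  have hx2 : 0 < x.2 := hB.sub hx
  obtain ⟨h2, h3, -⟩ := t_phibd A hA x hx2.le
  rw [Real.norm_of_nonneg (mul_nonneg h2 hx2.le)]
  exact mul_le_mul_of_nonneg_right (h3 1 one_pos) hx2.le

theorem KK2_int {A B : Set (ℝ × ℝ)} (hA : Fi A) (hB : Fi B) :
    Integrable KK2 ((volume.restrict B).prod (volume.restrict A)) := by
  rw [integrable_prod_iff KK2_meas.aestronglyMeasurable]
  constructor
  · filter_upwards [ae_restrict_mem hB.meas] with x hx
    exact (t_int A hA x (le_of_lt (hB.sub hx))).mul_const x.2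
  · refine (phi_int hA hB).congr ?_
    filter_upwards [ae_restrict_mem hB.meas] with x hx
    have hx2 : 0 < x.2 := hB.sub hx
    unfold phi KK2
    rw [← integral_mul_const]
    apply setIntegral_congr_fun hA.meas
    intro y hy
    have hy2 : 0 < y.2 := hA.sub hy
    beta_reduce
    rw [Real.norm_of_nonneg (mul_nonneg (mul_nonneg (T01.kap_nonneg hx2.le hy2.le) hy2.le) hx2.le)]

theorem cross_eq (A B : Set (ℝ × ℝ)) : cross A B = ∫ x in B, ∫ y in A, KK2 (x, y) := by
  unfold cross phi KK2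
  congr 1
  funext x
  rw [← integral_mul_const]

theorem cross_comm {A B : Set (ℝ × ℝ)} (hA : Fi A) (hB : Fi B) : cross A B = cross B A := by
  rw [cross_eq, cross_eq, integral_integral_swap (f := fun x y => KK2 (x, y)) (KK2_int hA hB)]
  congr 1
  funext y
  congr 1
  funext x
  simp only [KK2]
  rw [kap_comm x y]
  ring

theorem cross_nonneg {A B : Set (ℝ × ℝ)} (hA : Fi A) (hB : Fi B) : 0 ≤ cross A B := by
  apply setIntegral_nonneg hB.meas
  intro x hx
  have hx2 : 0 < x.2 := hB.sub hx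
  exact mul_nonneg (t_phibd A hA x hx2.le).1 hx2.le

theorem fi_union {A B : Set (ℝ × ℝ)} (hA : Fi A) (hB : Fi B) : Fi (A ∪ B) :=
  ⟨hA.meas.union hB.meas, union_subset hA.sub hB.sub, hA.int.union hB.int⟩

end T02

theorem t_add : S_add := by
  intro A B hA hB
  refine ⟨T02.cross_comm hA hB, T02.phi_int hA hB, T02.cross_nonneg hA hB, fun hd => ?_⟩
  have hphi : ∀ x : ℝ × ℝ, 0 ≤ x.2 → phi (A ∪ B) x = phi A x + phi B x := by
    intro x hx
    unfold phi
    exact setIntegral_union hd hB.meas (t_int A hA x hx) (t_int B hB x hx)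
  have hU := T02.fi_union hA hB
  refine ⟨hU, ?_, hphi, ?_⟩
  · unfold PP
    exact setIntegral_union hd hB.meas hA.int hB.int
  · have h1 : cross (A ∪ B) (A ∪ B) = (∫ x in A, phi (A ∪ B) x * x.2) +
        ∫ x in B, phi (A ∪ B) x * x.2 :=
      setIntegral_union hd hB.meas (T02.phi_int hU hA) (T02.phi_int hU hB)
    have h2 : ∫ x in A, phi (A ∪ B) x * x.2 = cross A A + cross B A := by
      have : ∫ x in A, phi (A ∪ B) x * x.2 = ∫ x in A, (phi A x * x.2 + phi B x * x.2) := by
        apply setIntegral_congr_fun hA.meas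
        intro x hx
        have hx2 : 0 < x.2 := hA.sub hx
        simp only [hphi x hx2.le]
        ring
      rw [this]
      exact integral_add (T02.phi_int hA hA) (T02.phi_int hB hA)
    have h3 : ∫ x in B, phi (A ∪ B) x * x.2 = cross A B + cross B B := by
      have : ∫ x in B, phi (A ∪ B) x * x.2 = ∫ x in B, (phi A x * x.2 + phi B x * x.2) := by
        apply setIntegral_congr_fun hB.meas
        intro x hx
        have hx2 : 0 < x.2 := hB.sub hx
        simp only [hphi x hx2.le]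
        ring
      rw [this]
      exact integral_add (T02.phi_int hA hB) (T02.phi_int hB hB)
    unfold EE
    rw [h1, h2, h3, T02.cross_comm hB hA]
    ring

theorem t_mono : S_mono := by
  intro A B hB hA hAB
  have hFA : Fi A := ⟨hA, hAB.trans hB.sub, hB.int.mono_set hAB⟩
  have hFD : Fi (B \ A) := ⟨hB.meas.diff hA, sdiff_subset.trans hB.sub, hB.int.mono_set sdiff_subset⟩
  obtain ⟨-, -, h1, h2⟩ := t_add A (B \ A) hFA hFD
  obtain ⟨-, h3, h4, h5⟩ := h2 disjoint_sdiff_right
  rw [union_sdiff_cancel hAB] at h3 h4 h5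
  refine ⟨hFA, ?_, ?_, ?_, ?_⟩
  · have h6 : 0 ≤ PP (B \ A) := setIntegral_nonneg hFD.meas fun x hx => le_of_lt (hFD.sub hx)
    linarith
  · intro x hx
    rw [h4 x hx]
    have := (t_phibd _ hFD x hx).1
    linarith
  · intro x hx
    rw [h4 x hx]
    unfold phi
    ring
  · have h6 : 0 ≤ EE (B \ A) := by
      have := (t_add _ _ hFD hFD).2.2.1
      unfold EE
      positivity
    linarith

end SV
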