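import Pool.Agent.Helper779.SV.T02

/-!
# T03: S_cont, S_tend, S_compact
-/

open MeasureTheory Set Filter Topology
open scoped Real

namespace SV
namespace T03

theorem kk_lip {m D z D' z' : ℝ} (hm : 0 < m) (hD : m ≤ D) (hD' : m ≤ D') (hz : 0 ≤ z)
    (hz' : 0 ≤ z') : |kk D z - kk D' z'| ≤ (|D - D'| + |z - z'|) / m ^ 2 := by
  have h1 := hm.trans_le hD
  have h2 := hm.trans_le hD'
  rw [T01.kk_eq h1 hz, T01.kk_eq h2 hz', ← intervalIntegral.integral_sub (T01.ii h1 hz)
    (T01.ii h2 hz'), ← Real.norm_eq_abs]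
  refine (intervalIntegral.norm_integral_le_of_norm_le_const (C := (|D - D'| + |z - z'|) / m ^ 2)
    fun s hs => ?_).trans (le_of_eq (by norm_num))
  rw [uIoc_of_le zero_le_one] at hs
  have h3 : m ≤ D + s * z := by nlinarith [mul_nonneg hs.1.le hz]
  have h4 : m ≤ D' + s * z' := by nlinarith [mul_nonneg hs.1.le hz']
  have h5 : 0 < D + s * z := hm.trans_le h3
  have h6 : 0 < D' + s * z' := hm.trans_le h4
  rw [div_sub_div _ _ h5.ne' h6.ne', Real.norm_eq_abs, abs_div, abs_of_pos (mul_pos h5 h6)]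
  apply div_le_div₀ (by positivity) _ (by positivity)
  · nlinarith [mul_le_mul h3 h4 hm.le h5.le]
  · have h7 : 1 * (D' + s * z') - (D + s * z) * 1 = -((D - D') + s * (z - z')) := by ring
    rw [h7, abs_neg]
    refine (abs_add_le _ _).trans ?_
    rw [abs_mul, abs_of_pos hs.1]
    have := mul_le_mul_of_nonneg_right hs.2 (abs_nonneg (z - z'))
    linarith

/-- truncated kernel -/
noncomputable def kapd (δ : ℝ) (x y : ℝ × ℝ) : ℝ :=
  (1 / π) * kk (max (dsq x y) (δ ^ 2)) (4 * x.2 * y.2)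

/-- truncated potential -/
noncomputable def phid (δ : ℝ) (A : Set (ℝ × ℝ)) (x : ℝ × ℝ) : ℝ := ∫ y in A, kapd δ x y * y.2

theorem kapd_meas (δ : ℝ) (x : ℝ × ℝ) : Measurable (fun y => kapd δ x y * y.2) := by
  unfold kapd
  refine (measurable_const.mul (T01.meas_kk.comp (f := fun y : ℝ × ℝ =>
    (max (dsq x y) (δ ^ 2), 4 * x.2 * y.2)) ?_)).mul measurable_snd
  have := T01.meas_dsq x
  fun_prop

theorem kapd_nonneg {δ : ℝ} (hδ : 0 < δ) {x y : ℝ × ℝ} (hx : 0 ≤ x.2) (hy : 0 ≤ y.2) :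
    0 ≤ kapd δ x y := by
  unfold kapd
  have h1 : 0 < max (dsq x y) (δ ^ 2) := lt_max_of_lt_right (by positivity)
  have := (T01.kk_pos h1 (show 0 ≤ 4 * x.2 * y.2 by positivity)).le
  positivity

theorem kapd_le {δ : ℝ} (hδ : 0 < δ) {x y : ℝ × ℝ} (hx : 0 ≤ x.2) (hy : 0 ≤ y.2) :
    kapd δ x y ≤ 1 / (π * δ ^ 2) := by
  unfold kapd
  have h1 : 0 < max (dsq x y) (δ ^ 2) := lt_max_of_lt_right (by positivity)
  have h2 := T01.kk_le h1 (show 0 ≤ 4 * x.2 * y.2 by positivity)
  have h3 : 1 / max (dsq x y) (δ ^ 2) ≤ 1 / δ ^ 2 :=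
    one_div_le_one_div_of_le (by positivity) (le_max_right _ _)
  rw [one_div, one_div, mul_inv, ← one_div (δ ^ 2)]
  exact mul_le_mul_of_nonneg_left (h2.trans h3) (by positivity)

theorem kapd_int {δ : ℝ} (hδ : 0 < δ) {A : Set (ℝ × ℝ)} (hA : Fi A) {x : ℝ × ℝ} (hx : 0 ≤ x.2) :
    IntegrableOn (fun y => kapd δ x y * y.2) A := by
  refine (hA.int.const_mul (1 / (π * δ ^ 2))).mono' (kapd_meas δ x).aestronglyMeasurable ?_
  filter_upwards [ae_restrict_mem hA.meas] with y hy
  have hy2 : 0 < y.2 := hA.sub hy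
  rw [Real.norm_of_nonneg (mul_nonneg (kapd_nonneg hδ hx hy2.le) hy2.le)]
  exact mul_le_mul_of_nonneg_right (kapd_le hδ hx hy2.le) hy2.le

theorem kap_sub_kapd {δ : ℝ} (hδ : 0 < δ) {x y : ℝ × ℝ} (hx : 0 ≤ x.2) (hy : 0 < y.2)
    (hxy : x ≠ y) : |kap x y * y.2 - kapd δ x y * y.2| ≤ T01.g1 x δ y := by
  have hD := T01.dsq_pos hxy
  by_cases h : dsq x y < δ ^ 2
  · have h1 : T01.g1 x δ y = 1 / (π * √(dsq x y)) :=
      indicator_of_mem (show y ∈ {y | dsq x y < δ ^ 2} from h) _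
    rw [h1]
    have h2 := t_near x y hx hy hxy
    have h3 : kapd δ x y ≤ kap x y := by
      unfold kapd kap
      apply mul_le_mul_of_nonneg_left _ (by positivity)
      exact T01.kk_mono hD (by positivity) (le_max_left _ _) le_rfl
    have h4 := mul_nonneg (kapd_nonneg hδ hx hy.le) hy.le
    have h5 := mul_le_mul_of_nonneg_right h3 hy.le
    rw [abs_of_nonneg (by linarith)]
    linarith
  · have h1 : kapd δ x y = kap x y := by
      unfold kapd kap
      rw [max_eq_left (not_lt.1 h)]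
    rw [h1, sub_self, abs_zero]
    exact T01.g1_nonneg x δ y

theorem phi_sub_phid {δ : ℝ} (hδ : 0 < δ) {A : Set (ℝ × ℝ)} (hA : Fi A) {x : ℝ × ℝ}
    (hx : 0 ≤ x.2) : |phi A x - phid δ A x| ≤ 2 * δ := by
  unfold phi phid
  rw [← integral_sub (t_int A hA x hx) (kapd_int hδ hA hx), ← Real.norm_eq_abs]
  refine (norm_integral_le_of_norm_le (T01.g1_int x hδ).integrableOn ?_).trans
    (T01.g1_setIntegral_le x hδ A)
  filter_upwards [ae_restrict_mem hA.meas,
    ae_restrict_of_ae ((Set.countable_singleton x).ae_notMem volume)] with y hy hxy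
  rw [Real.norm_eq_abs]
  exact kap_sub_kapd hδ hx (hA.sub hy) (fun h => hxy h.symm)

theorem kk_contOn {m : ℝ} (hm : 0 < m) :
    ContinuousOn (fun p : ℝ × ℝ => kk p.1 p.2) {p | m ≤ p.1 ∧ 0 ≤ p.2} := by
  have h : LipschitzOnWith (Real.toNNReal (2 / m ^ 2)) (fun p : ℝ × ℝ => kk p.1 p.2)
      {p | m ≤ p.1 ∧ 0 ≤ p.2} := by
    apply LipschitzOnWith.of_dist_le_mul
    intro p hp q hq
    rw [Real.coe_toNNReal _ (by positivity), Real.dist_eq]
    refine (kk_lip hm hp.1 hq.1 hp.2 hq.2).trans ?_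
    have h1 : |p.1 - q.1| ≤ dist p q := by
      rw [← Real.dist_eq]
      exact le_max_left _ _
    have h2 : |p.2 - q.2| ≤ dist p q := by
      rw [← Real.dist_eq]
      exact le_max_right _ _
    rw [div_mul_eq_mul_div]
    apply div_le_div_of_nonneg_right _ (by positivity)
    linarith
  exact h.continuousOn

theorem phid_cont {δ : ℝ} (hδ : 0 < δ) {A : Set (ℝ × ℝ)} (hA : Fi A) :
    ContinuousOn (phid δ A) {x : ℝ × ℝ | 0 ≤ x.2} := by
  unfold phid
  apply continuousOn_of_dominated (bound := fun y => 1 / (π * δ ^ 2) * y.2)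
  · exact fun x _ => (kapd_meas δ x).aestronglyMeasurable
  · intro x hx
    filter_upwards [ae_restrict_mem hA.meas] with y hy
    have hy2 : 0 < y.2 := hA.sub hy
    rw [Real.norm_of_nonneg (mul_nonneg (kapd_nonneg hδ hx hy2.le) hy2.le)]
    exact mul_le_mul_of_nonneg_right (kapd_le hδ hx hy2.le) hy2.le
  · exact hA.int.const_mul _
  · filter_upwards [ae_restrict_mem hA.meas] with y hy
    have hy2 : 0 < y.2 := hA.sub hy
    apply ContinuousOn.mul _ continuousOn_const
    unfold kapd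
    apply continuousOn_const.mul
    refine (kk_contOn (m := δ ^ 2) (by positivity)).comp (f := fun x : ℝ × ℝ =>
      (max (dsq x y) (δ ^ 2), 4 * x.2 * y.2)) ?_ ?_
    · unfold dsq
      fun_prop
    · intro x hx
      have hx' : (0:ℝ) ≤ x.2 := hx
      exact ⟨le_max_right _ _, by positivity⟩

end T03

theorem t_cont : S_cont := by
  intro A hA
  have h : TendstoUniformlyOn (fun δ : ℝ => T03.phid δ A) (phi A) (𝓝[>] 0) {x : ℝ × ℝ | 0 ≤ x.2} := by
    rw [Metric.tendstoUniformlyOn_iff]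
    intro ε hε
    filter_upwards [Ioo_mem_nhdsGT (show (0:ℝ) < ε / 2 by positivity)] with δ hδ x hx
    rw [Real.dist_eq]
    refine (T03.phi_sub_phid hδ.1 hA hx).trans_lt ?_
    linarith [hδ.2]
  refine h.continuousOn (Eventually.frequently ?_)
  filter_upwards [self_mem_nhdsWithin] with δ hδ
  exact T03.phid_cont hδ hA

theorem t_tend : S_tend := by
  intro A hA hV ε hε
  have hP : 0 ≤ PP A := setIntegral_nonneg hA.meas fun x hx => le_of_lt (hA.sub hx)
  set r := ε / 8 with hr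
  have hr0 : 0 < r := by positivity
  set R := 1 + 8 * PP A / (π * ε) with hR
  have hR1 : 1 ≤ R := by
    have : 0 ≤ 8 * PP A / (π * ε) := by positivity
    linarith
  have hR0 : 0 < R := by linarith
  have h1 : PP A / (π * R ^ 2) ≤ ε / 8 := by
    rw [div_le_iff₀ (by positivity)]
    have h2 : 8 * PP A / (π * ε) ≤ R ^ 2 := by nlinarith
    rw [div_le_iff₀ (by positivity)] at h2
    nlinarith
  set S : ℕ → Set (ℝ × ℝ) := fun n => A ∩ {y | (n : ℝ) ^ 2 ≤ y.1 ^ 2 + y.2 ^ 2} with hS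
  have hSm : ∀ n, MeasurableSet (S n) := fun n =>
    hA.meas.inter (measurableSet_le (by fun_prop) (by fun_prop))
  have hSa : Antitone S := by
    intro m n hmn x hx
    refine ⟨hx.1, ?_⟩
    have h3 : ((n : ℝ)) ^ 2 ≤ x.1 ^ 2 + x.2 ^ 2 := hx.2
    have h4 : (m : ℝ) ≤ n := by exact_mod_cast hmn
    have h5 : (m : ℝ) ^ 2 ≤ (n : ℝ) ^ 2 := pow_le_pow_left₀ (by positivity) h4 2
    exact h5.trans h3
  have hSi : ⋂ n, S n = ∅ := by
    rw [eq_empty_iff_forall_notMem]
    intro x hx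
    rw [mem_iInter] at hx
    obtain ⟨n, hn⟩ := exists_nat_gt (x.1 ^ 2 + x.2 ^ 2)
    have h3 : ((n + 1 : ℕ) : ℝ) ^ 2 ≤ x.1 ^ 2 + x.2 ^ 2 := (hx (n + 1)).2
    push_cast at h3
    have h4 : (0:ℝ) ≤ n := by positivity
    nlinarith
  have hlim := tendsto_measure_iInter_atTop (μ := volume) (fun n => (hSm n).nullMeasurableSet) hSa
    ⟨0, ((measure_mono inter_subset_left).trans_lt (lt_top_iff_ne_top.2 hV)).ne⟩
  rw [hSi, measure_empty] at hlim
  have hη : (0:ENNReal) < ENNReal.ofReal (ε / 8 * (π * r)) := ENNReal.ofReal_pos.2 (by positivity)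
  obtain ⟨n, hn⟩ := (hlim.eventually (gt_mem_nhds hη)).exists
  refine ⟨n + R, by positivity, fun x hx hxρ => ?_⟩
  refine ((t_phibd A hA x hx).2.2 r R hr0 hR0 hV).trans_lt ?_
  have h3 : A ∩ {y | dsq x y < R ^ 2} ⊆ S n := by
    rintro y ⟨hy1, hy2⟩
    refine ⟨hy1, ?_⟩
    by_contra hc
    rw [mem_ofPred_eq, not_le] at hc
    have hy3 : dsq x y < R ^ 2 := hy2
    unfold dsq at hy3
    have h4 : y.1 * (x.1 - y.1) + y.2 * (x.2 - y.2) ≤ n * R := by
      apply le_of_sq_le_sq _ (by positivity)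
      have h5 : (y.1 * (x.1 - y.1) + y.2 * (x.2 - y.2)) ^ 2 ≤
          (y.1 ^ 2 + y.2 ^ 2) * ((x.1 - y.1) ^ 2 + (x.2 - y.2) ^ 2) := by
        nlinarith [sq_nonneg (y.1 * (x.2 - y.2) - y.2 * (x.1 - y.1))]
      have h6 : (y.1 ^ 2 + y.2 ^ 2) * ((x.1 - y.1) ^ 2 + (x.2 - y.2) ^ 2) ≤ (n:ℝ) ^ 2 * R ^ 2 :=
        mul_le_mul hc.le hy3.le (by positivity) (by positivity)
      rw [mul_pow]
      exact h5.trans h6
    nlinarith
  have h4 : ar (A ∩ {y | dsq x y < R ^ 2}) < ε / 8 * (π * r) := by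
    unfold ar
    rw [← ENNReal.toReal_ofReal (show 0 ≤ ε / 8 * (π * r) by positivity)]
    exact ENNReal.toReal_strict_mono ENNReal.ofReal_ne_top ((measure_mono h3).trans_lt hn)
  have h5 : ar (A ∩ {y | dsq x y < R ^ 2}) / (π * r) < ε / 8 := by
    rw [div_lt_iff₀ (by positivity)]
    exact h4
  have h6 : 2 * r = ε / 4 := by
    rw [hr]
    ring
  linarith

namespace T03

theorem box_fi (L : ℝ) : Fi (box L) := by
  have hm : MeasurableSet (box L) := by
    have h : box L = {x : ℝ × ℝ | |x.1| < L} ∩ ({x : ℝ × ℝ | 0 < x.2} ∩ {x : ℝ × ℝ | x.2 < L}) := rfl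
    rw [h]
    exact (measurableSet_lt (by fun_prop) (by fun_prop)).inter
      ((measurableSet_lt (by fun_prop) (by fun_prop)).inter
        (measurableSet_lt (by fun_prop) (by fun_prop)))
  have hsub : box L ⊆ Icc ((-L, 0) : ℝ × ℝ) (L, L) := by
    rintro x ⟨h1, h2, h3⟩
    rw [abs_lt] at h1
    exact ⟨⟨h1.1.le, h2.le⟩, ⟨h1.2.le, h3.le⟩⟩
  refine ⟨hm, fun x hx => hx.2.1, ?_⟩
  exact (continuous_snd.continuousOn.integrableOn_compact isCompact_Icc).mono_set hsub

/-- The closed box. -/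
def cb (L : ℝ) : Set (ℝ × ℝ) := Icc ((-L, 0) : ℝ × ℝ) (L, L)

theorem equi {L : ℝ} (hL : 0 < L) {A : Set (ℝ × ℝ)} (hAm : MeasurableSet A) (hA : A ⊆ box L)
    {δ : ℝ} (hδ : 0 < δ) {x x' : ℝ × ℝ} (hx : x ∈ cb L) (hx' : x' ∈ cb L) :
    |phi A x - phi A x'| ≤ 4 * δ + 12 * L * PP (box L) / (π * δ ^ 4) * dist x x' := by
  obtain ⟨hFA, hPP, -⟩ := t_mono A (box L) (box_fi L) hAm hA
  obtain ⟨⟨hx1, hx2⟩, ⟨hx3, hx4⟩⟩ := hx
  obtain ⟨⟨hx1', hx2'⟩, ⟨hx3', hx4'⟩⟩ := hx'
  simp only at hx1 hx2 hx3 hx4 hx1' hx2' hx3' hx4'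
  have e1 := phi_sub_phid hδ hFA hx2
  have e2 := phi_sub_phid hδ hFA hx2'
  have d1 : |x.1 - x'.1| ≤ dist x x' := by
    rw [← Real.dist_eq]
    exact le_max_left _ _
  have d2 : |x.2 - x'.2| ≤ dist x x' := by
    rw [← Real.dist_eq]
    exact le_max_right _ _
  have e3 : |phid δ A x - phid δ A x'| ≤ 12 * L * PP (box L) / (π * δ ^ 4) * dist x x' := by
    unfold phid
    rw [← integral_sub (kapd_int hδ hFA hx2) (kapd_int hδ hFA hx2'), ← Real.norm_eq_abs]
    have hpt : ∀ y ∈ A, ‖kapd δ x y * y.2 - kapd δ x' y * y.2‖ ≤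
        12 * L / (π * δ ^ 4) * dist x x' * y.2 := by
      intro y hy
      obtain ⟨h1, h2, h3⟩ := hA hy
      rw [abs_lt] at h1
      rw [← sub_mul, norm_mul, Real.norm_of_nonneg h2.le]
      apply mul_le_mul_of_nonneg_right _ h2.le
      unfold kapd
      rw [← mul_sub, norm_mul, Real.norm_of_nonneg (show 0 ≤ 1 / π by positivity),
        Real.norm_eq_abs]
      have h4 := kk_lip (m := δ ^ 2) (by positivity) (le_max_right (dsq x y) (δ ^ 2))
        (le_max_right (dsq x' y) (δ ^ 2)) (show 0 ≤ 4 * x.2 * y.2 by positivity)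
        (show 0 ≤ 4 * x'.2 * y.2 by positivity)
      have h5 : |max (dsq x y) (δ ^ 2) - max (dsq x' y) (δ ^ 2)| ≤ 8 * L * dist x x' := by
        refine (abs_max_sub_max_le_abs _ _ _).trans ?_
        have h6 : dsq x y - dsq x' y = (x.1 - x'.1) * (x.1 + x'.1 - 2 * y.1) +
            (x.2 - x'.2) * (x.2 + x'.2 - 2 * y.2) := by
          unfold dsq
          ring
        rw [h6]
        refine (abs_add_le _ _).trans ?_
        rw [abs_mul, abs_mul]
        have h7 : |x.1 + x'.1 - 2 * y.1| ≤ 4 * L := by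
          rw [abs_le]
          constructor <;> linarith
        have h8 : |x.2 + x'.2 - 2 * y.2| ≤ 4 * L := by
          rw [abs_le]
          constructor <;> linarith
        have h9 := mul_le_mul d1 h7 (abs_nonneg _) dist_nonneg
        have h10 := mul_le_mul d2 h8 (abs_nonneg _) dist_nonneg
        linarith
      have h6 : |4 * x.2 * y.2 - 4 * x'.2 * y.2| ≤ 4 * L * dist x x' := by
        have h7 : 4 * x.2 * y.2 - 4 * x'.2 * y.2 = 4 * y.2 * (x.2 - x'.2) := by ring
        rw [h7, abs_mul, abs_of_nonneg (show 0 ≤ 4 * y.2 by positivity)]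
        have h8 : 4 * y.2 ≤ 4 * L := by linarith
        exact mul_le_mul h8 d2 (abs_nonneg _) (by positivity)
      have h11 : 12 * L / (π * δ ^ 4) * dist x x' =
          1 / π * ((8 * L * dist x x' + 4 * L * dist x x') / (δ ^ 2) ^ 2) := by
        field_simp
        ring
      rw [h11]
      apply mul_le_mul_of_nonneg_left _ (by positivity)
      refine h4.trans ?_
      apply div_le_div_of_nonneg_right _ (by positivity)
      linarith
    refine (norm_integral_le_of_norm_le (g := fun y => 12 * L / (π * δ ^ 4) * dist x x' * y.2)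
      (hFA.int.const_mul _) ?_).trans ?_
    · filter_upwards [ae_restrict_mem hAm] with y hy
      exact hpt y hy
    · rw [integral_const_mul]
      have h12 : 12 * L * PP (box L) / (π * δ ^ 4) * dist x x' =
          12 * L / (π * δ ^ 4) * dist x x' * PP (box L) := by ring
      rw [h12]
      exact mul_le_mul_of_nonneg_left hPP (by positivity)
  have h := abs_sub_le (phi A x) (phid δ A x) (phi A x')
  have h' := abs_sub_le (phid δ A x) (phid δ A x') (phi A x')
  rw [abs_sub_comm (phid δ A x') (phi A x')] at h'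
  linarith

end T03

theorem t_compact : S_compact := by
  intro L hL A hA
  have hFi : ∀ n, Fi (A n) ∧ PP (A n) ≤ PP (box L) := fun n => by
    obtain ⟨h1, h2, -⟩ := t_mono (A n) (box L) (T03.box_fi L) (hA n).1 (hA n).2
    exact ⟨h1, h2⟩
  have hcb : IsCompact (T03.cb L) := isCompact_Icc
  have : CompactSpace (T03.cb L) := isCompact_iff_compactSpace.1 hcb
  have hup : ∀ x ∈ T03.cb L, 0 ≤ x.2 := fun x hx => hx.1.2
  set F : ℕ → BoundedContinuousFunction (T03.cb L) ℝ := fun n =>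
    BoundedContinuousFunction.mkOfCompact
      ⟨fun x => phi (A n) x.1, ((t_cont (A n) (hFi n).1).mono hup).domRestrict⟩ with hF
  have hFa : ∀ n (x : T03.cb L), F n x = phi (A n) x.1 := fun n x => rfl
  set M : ℝ := 2 * 1 + PP (box L) / (π * 1 ^ 2) with hM
  have hcomp : IsCompact (closure (range F)) := by
    refine BoundedContinuousFunction.arzela_ascoli (Icc 0 M) isCompact_Icc (range F) ?_ ?_
    · rintro f x ⟨n, rfl⟩
      rw [hFa]
      obtain ⟨h1, h2, -⟩ := t_phibd (A n) (hFi n).1 x.1 (hup _ x.2)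
      refine ⟨h1, (h2 1 one_pos).trans ?_⟩
      have := div_le_div_of_nonneg_right (hFi n).2 (show 0 ≤ π * 1 ^ 2 by positivity)
      linarith
    · apply UniformEquicontinuous.equicontinuous
      rw [Metric.uniformEquicontinuous_iff]
      intro ε hε
      have hP : 0 ≤ PP (box L) :=
        setIntegral_nonneg (T03.box_fi L).meas fun x hx => le_of_lt hx.2.1
      set C : ℝ := 12 * L * PP (box L) / (π * (ε / 16) ^ 4) with hC
      have hC0 : 0 ≤ C := by positivity
      refine ⟨ε / (4 * (C + 1)), by positivity, ?_⟩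
      rintro x x' hxx ⟨f, n, rfl⟩
      rw [Real.dist_eq]
      show |phi (A n) x.1 - phi (A n) x'.1| < ε
      have h1 := T03.equi hL (hA n).1 (hA n).2 (show 0 < ε / 16 by positivity) x.2 x'.2
      rw [← hC] at h1
      have h2 : C * dist x.1 x'.1 ≤ ε / 4 := by
        have h3 : dist x.1 x'.1 ≤ ε / (4 * (C + 1)) := le_of_lt hxx
        calc C * dist x.1 x'.1 ≤ (C + 1) * (ε / (4 * (C + 1))) := by
              apply mul_le_mul (by linarith) h3 dist_nonneg (by positivity)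
          _ = ε / 4 := by field_simp
      linarith
  obtain ⟨g, -, σ, hσ, hlim⟩ := hcomp.tendsto_subseq (x := F) fun n => subset_closure ⟨n, rfl⟩
  rw [BoundedContinuousFunction.tendsto_iff_tendstoUniformly] at hlim
  have hproj : ∀ x : ℝ × ℝ, (max (-L) (min L x.1), max 0 (min L x.2)) ∈ T03.cb L := by
    intro x
    refine ⟨⟨le_max_left _ _, le_max_left _ _⟩, ⟨?_, ?_⟩⟩
    · exact max_le (by simpa using (by linarith : -L ≤ L)) (min_le_left _ _)
    · exact max_le hL.le (min_le_left _ _)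
  refine ⟨σ, hσ, fun x => g ⟨_, hproj x⟩, ?_, ?_⟩
  · refine g.continuous.comp ?_
    exact Continuous.subtype_mk (by fun_prop) _
  · rw [Metric.tendstoUniformlyOn_iff]
    rw [Metric.tendstoUniformly_iff] at hlim
    intro ε hε
    filter_upwards [hlim ε hε] with n hn x hx
    have hx' : x = (max (-L) (min L x.1), max 0 (min L x.2)) := by
      obtain ⟨h1, h2, h3⟩ := hx
      rw [abs_lt] at h1
      rw [min_eq_right h1.2.le, min_eq_right h3.le, max_eq_right h1.1.le, max_eq_right h2.le]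
    have h1 := hn ⟨_, hproj x⟩
    have h2 : (F ∘ σ) n ⟨_, hproj x⟩ = phi (A (σ n)) x := by
      show phi (A (σ n)) (max (-L) (min L x.1), max 0 (min L x.2)) = phi (A (σ n)) x
      rw [← hx']
    rw [h2] at h1
    exact h1

end SV
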