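import Pool.Agent.Helper779.SV.Stmts

/-!
# T13: touching (`S_touch`) and the two-sided touching inequality (`S_sum`)
-/

open MeasureTheory Set Filter Topology
open scoped Real

namespace SV

namespace T13

theorem fi_of {U : Set (ℝ × ℝ)} (ho : IsOpen U) (hs : U ⊆ UH) (hb : Bornology.IsBounded U) :
    Fi U := by
  refine ⟨ho.measurableSet, hs, ?_⟩
  obtain ⟨R, hR⟩ := hb.exists_norm_le
  have hvol : volume U < ⊤ := hb.measure_lt_top
  refine Measure.integrableOn_of_bounded (M := R) hvol.ne ?_ ?_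
  · exact measurable_snd.aestronglyMeasurable
  · filter_upwards [ae_restrict_mem ho.measurableSet] with x hx
    exact (norm_snd_le x).trans (hR x hx)

theorem sol_fi {w : ℝ} {U : Set (ℝ × ℝ)} (h : Sol w U) : Fi U := fi_of h.opn h.sub h.bdd

theorem dil_eq (r : ℝ) (A : Set (ℝ × ℝ)) : dil r A = (fun x : ℝ × ℝ => r⁻¹ • x) ⁻¹' A := rfl

theorem dil_dil (r s : ℝ) (A : Set (ℝ × ℝ)) : dil r (dil s A) = dil (r * s) A := by
  ext x
  simp only [dil, mem_ofPred_eq, mul_inv]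
  rw [← mul_assoc, ← mul_assoc, mul_comm s⁻¹ r⁻¹]

theorem dil_one (A : Set (ℝ × ℝ)) : dil 1 A = A := by
  ext x
  simp [dil]

theorem dil_mono {r : ℝ} {A B : Set (ℝ × ℝ)} (h : A ⊆ B) : dil r A ⊆ dil r B := fun _ hx => h hx

theorem closure_dil {r : ℝ} (hr : 0 < r) (A : Set (ℝ × ℝ)) (q : ℝ × ℝ) :
    q ∈ closure (dil r A) ↔ (r⁻¹ * q.1, r⁻¹ * q.2) ∈ closure A := by
  have h := (Homeomorph.smulOfNeZero r⁻¹ (inv_ne_zero hr.ne') : (ℝ × ℝ) ≃ₜ (ℝ × ℝ)).preimage_closure A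
  constructor
  · intro hq
    have : q ∈ closure ((Homeomorph.smulOfNeZero r⁻¹ (inv_ne_zero hr.ne') :
        (ℝ × ℝ) ≃ₜ (ℝ × ℝ)) ⁻¹' A) := hq
    rw [← h] at this
    exact this
  · intro hq
    have : q ∈ (Homeomorph.smulOfNeZero r⁻¹ (inv_ne_zero hr.ne') :
        (ℝ × ℝ) ≃ₜ (ℝ × ℝ)) ⁻¹' closure A := hq
    rw [h] at this
    exact this

theorem low_sym {U : Set (ℝ × ℝ)} (h : Low U) (hs : U ⊆ UH) {x : ℝ × ℝ} (hx : x ∈ U) :
    (-x.1, x.2) ∈ U :=
  h x hx (-x.1, x.2) (by simp) (show 0 < x.2 from hs hx) (le_refl _)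

theorem closed_low {w : ℝ} {U : Set (ℝ × ℝ)} (h : Sol w U) (hc : S_cont) {q : ℝ × ℝ}
    (hq : q ∈ closure U) : 0 ≤ q.2 ∧ w ≤ phi U q := by
  have hcl : closure U ⊆ {x : ℝ × ℝ | 0 ≤ x.2} := by
    refine closure_minimal (fun x hx => (show 0 < x.2 from h.sub hx).le) ?_
    exact isClosed_le continuous_const continuous_snd
  refine ⟨hcl hq, ?_⟩
  have hcont := hc U (sol_fi h)
  obtain ⟨u, hu, hlim⟩ := mem_closure_iff_seq_limit.mp hq
  have h1 : Tendsto (fun n => phi U (u n)) atTop (𝓝 (phi U q)) := by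
    refine (hcont q (hcl hq)).tendsto.comp ?_
    exact tendsto_nhdsWithin_of_tendsto_nhds_of_eventually_within _ hlim
      (Eventually.of_forall fun n => (show 0 < (u n).2 from h.sub (hu n)).le)
  refine ge_of_tendsto' h1 fun n => ?_
  exact ((h.lev (u n) (h.sub (hu n))).mp (hu n)).le

/-- an open nonempty lower set contains a box -/
theorem box_in {w : ℝ} {V : Set (ℝ × ℝ)} (h : Sol w V) : ∃ a : ℝ, 0 < a ∧
    ∀ x : ℝ × ℝ, |x.1| ≤ a → 0 < x.2 → x.2 ≤ a → x ∈ V := by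
  obtain ⟨x₀, hx₀⟩ := h.ne
  have hopn := h.opn.mem_nhds hx₀
  have hc : Continuous (fun e : ℝ => (x₀.1 + e, x₀.2)) := by fun_prop
  have ht : Tendsto (fun e : ℝ => (x₀.1 + e, x₀.2)) (𝓝 0) (𝓝 x₀) := by
    have := hc.tendsto 0
    simpa using this
  have hev := ht.eventually hopn
  obtain ⟨δ, hδ, hball⟩ := Metric.eventually_nhds_iff.mp hev
  -- a point with nonzero first coordinate
  obtain ⟨e, he, hne⟩ : ∃ e : ℝ, dist e 0 < δ ∧ x₀.1 + e ≠ 0 := by
    by_cases h0 : x₀.1 + δ / 2 = 0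
    · refine ⟨δ / 3, ?_, ?_⟩
      · rw [Real.dist_eq, sub_zero, abs_of_pos (by positivity)]; linarith
      · intro h1; linarith
    · refine ⟨δ / 2, ?_, h0⟩
      rw [Real.dist_eq, sub_zero, abs_of_pos (by positivity)]; linarith
  have hmem : (x₀.1 + e, x₀.2) ∈ V := hball he
  refine ⟨min |x₀.1 + e| x₀.2, lt_min (abs_pos.mpr hne) (h.sub hx₀), ?_⟩
  intro x h1 h2 h3
  exact h.low _ hmem x (h1.trans (min_le_left _ _)) h2 (h3.trans (min_le_right _ _))

end T13

open T13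

theorem t_touch (hc : S_cont) (hsc : S_scale) : S_touch := by
  intro wU U wV V hU hV
  obtain ⟨RU, hRU⟩ := hU.bdd.exists_norm_le
  obtain ⟨RV, hRV⟩ := hV.bdd.exists_norm_le
  obtain ⟨x₀, hx₀⟩ := hU.ne
  have hx₀2 : 0 < x₀.2 := hU.sub hx₀
  have hRU0 : 0 < RU := by
    have h1 := (norm_snd_le x₀).trans (hRU x₀ hx₀)
    rw [Real.norm_eq_abs, abs_of_pos hx₀2] at h1
    linarith
  obtain ⟨a, ha, hbox⟩ := box_in hV
  set T : Set ℝ := {t | 0 < t ∧ dil t U ⊆ V} with hT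
  have hTne : a / RU ∈ T := by
    refine ⟨by positivity, ?_⟩
    intro x hx
    have hx' : ((a / RU)⁻¹ * x.1, (a / RU)⁻¹ * x.2) ∈ U := hx
    have hn := hRU _ hx'
    have hpos : 0 < (a / RU)⁻¹ := by positivity
    have h1 : |(a / RU)⁻¹ * x.1| ≤ RU := (norm_fst_le _).trans hn
    have h2 : |(a / RU)⁻¹ * x.2| ≤ RU := (norm_snd_le _).trans hn
    have h3 : 0 < (a / RU)⁻¹ * x.2 := hU.sub hx'
    rw [abs_mul, abs_of_pos hpos, inv_mul_le_iff₀ (by positivity)] at h1 h2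
    have e : a / RU * RU = a := by field_simp
    rw [e] at h1 h2
    exact hbox x h1 ((mul_pos_iff_of_pos_left hpos).mp h3) ((le_abs_self _).trans h2)
  have hTbd : BddAbove T := by
    refine ⟨RV / x₀.2, ?_⟩
    rintro t ⟨ht, hsub⟩
    have hmem : (t * x₀.1, t * x₀.2) ∈ V := by
      apply hsub
      change (t⁻¹ * (t * x₀.1), t⁻¹ * (t * x₀.2)) ∈ U
      rw [inv_mul_cancel_left₀ ht.ne', inv_mul_cancel_left₀ ht.ne']
      exact hx₀
    have h2 := (norm_snd_le _).trans (hRV _ hmem)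
    rw [Real.norm_eq_abs, abs_of_pos (by positivity)] at h2
    rw [le_div_iff₀ hx₀2]
    exact h2
  set t := sSup T with ht
  have ht0 : 0 < t := lt_of_lt_of_le (by positivity) (le_csSup hTbd hTne)
  have hsub : dil t U ⊆ V := by
    intro x hx
    have hx' : (t⁻¹ * x.1, t⁻¹ * x.2) ∈ U := hx
    have hcont : ContinuousAt (fun r : ℝ => (r⁻¹ * x.1, r⁻¹ * x.2)) t := by
      have : ContinuousAt (fun r : ℝ => r⁻¹) t := continuousAt_inv₀ ht0.ne'
      exact (this.mul continuousAt_const).prodMk (this.mul continuousAt_const)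
    have hev : ∀ᶠ r in 𝓝 t, (r⁻¹ * x.1, r⁻¹ * x.2) ∈ U := hcont.eventually (hU.opn.mem_nhds hx')
    obtain ⟨δ, hδ, hball⟩ := Metric.eventually_nhds_iff.mp hev
    obtain ⟨r, hrT, hr⟩ := exists_lt_of_lt_csSup ⟨_, hTne⟩ (show t - δ < sSup T by linarith)
    have hr2 : r ≤ t := le_csSup hTbd hrT
    have hd : dist r t < δ := by
      rw [Real.dist_eq, abs_sub_lt_iff]
      constructor <;> linarith
    exact hrT.2 (hball hd)
  have hmax : ∀ t' : ℝ, t < t' → ¬ dil t' U ⊆ V := by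
    intro t' h1 h2
    have : t' ≤ t := le_csSup hTbd ⟨by linarith, h2⟩
    linarith
  refine ⟨t, ht0, hsub, hmax, ?_⟩
  -- points outside `V`
  have hex : ∀ n : ℕ, ∃ x : ℝ × ℝ, x ∈ dil (t + 1 / ((n : ℝ) + 1)) U ∧ x ∉ V := by
    intro n
    have := hmax (t + 1 / ((n : ℝ) + 1)) (by
      have : (0 : ℝ) < 1 / ((n : ℝ) + 1) := by positivity
      linarith)
    rw [not_subset] at this
    exact this
  choose x hxU hxV using hex
  have hrn : ∀ n : ℕ, 0 < t + 1 / ((n : ℝ) + 1) := fun n => by positivity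
  have hxn2 : ∀ n, 0 < (x n).2 := by
    intro n
    have h1 : 0 < (t + 1 / ((n : ℝ) + 1))⁻¹ * (x n).2 := hU.sub (hxU n)
    have h2 : 0 < (t + 1 / ((n : ℝ) + 1))⁻¹ := inv_pos.mpr (hrn n)
    exact (mul_pos_iff_of_pos_left h2).mp h1
  have hxbd : ∀ n, x n ∈ Metric.closedBall (0 : ℝ × ℝ) ((t + 1) * RU) := by
    intro n
    rw [mem_closedBall_zero_iff]
    have h1 := hRU _ (hxU n)
    have h2 : ‖(t + 1 / ((n : ℝ) + 1))⁻¹ • x n‖ ≤ RU := h1
    rw [norm_smul, Real.norm_eq_abs, abs_of_pos (inv_pos.mpr (hrn n)),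
      inv_mul_le_iff₀ (hrn n)] at h2
    refine h2.trans ?_
    have h3 : 1 / ((n : ℝ) + 1) ≤ 1 := by
      rw [div_le_one (by positivity)]
      have : (0 : ℝ) ≤ n := Nat.cast_nonneg n
      linarith
    exact mul_le_mul_of_nonneg_right (by linarith) hRU0.le
  obtain ⟨q, -, σ, hσ, hlim⟩ :=
    (isCompact_closedBall (0 : ℝ × ℝ) ((t + 1) * RU)).tendsto_subseq hxbd
  have hq2 : 0 ≤ q.2 := by
    have := (continuous_snd.tendsto q).comp hlim
    exact ge_of_tendsto' this fun n => (hxn2 _).le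
  have hrlim : Tendsto (fun n => t + 1 / (((σ n : ℕ) : ℝ) + 1)) atTop (𝓝 t) := by
    have h1 : Tendsto (fun n : ℕ => (1 : ℝ) / ((n : ℝ) + 1)) atTop (𝓝 0) :=
      tendsto_one_div_add_atTop_nhds_zero_nat
    have h2 := (h1.comp hσ.tendsto_atTop).const_add t
    simpa using h2
  have hqU : (t⁻¹ * q.1, t⁻¹ * q.2) ∈ closure U := by
    have h1 : Tendsto (fun n => (t + 1 / (((σ n : ℕ) : ℝ) + 1))⁻¹ • x (σ n)) atTop
        (𝓝 (t⁻¹ • q)) := (hrlim.inv₀ ht0.ne').smul hlim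
    exact mem_closure_of_tendsto h1 (Eventually.of_forall fun n => hxU (σ n))
  have hqD : q ∈ closure (dil t U) := (closure_dil ht0 U q).mpr hqU
  have hqV : q ∈ closure V := closure_mono hsub hqD
  refine ⟨q, hqD, hqV, hq2, ?_, ?_⟩
  · have h1 : phi V q ≤ wV := by
      have hcont := hc V (sol_fi hV)
      have h2 : Tendsto (fun n => phi V (x (σ n))) atTop (𝓝 (phi V q)) := by
        refine (hcont q hq2).tendsto.comp ?_
        exact tendsto_nhdsWithin_of_tendsto_nhds_of_eventually_within _ hlim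
          (Eventually.of_forall fun n => (hxn2 _).le)
      refine le_of_tendsto' h2 fun n => ?_
      by_contra hcon
      push Not at hcon
      exact hxV (σ n) ((hV.lev _ (hxn2 _)).mpr hcon)
    have h2 : t * wU ≤ phi (dil t U) q := by
      rw [(hsc U (sol_fi hU) t ht0).2.2.2.2.2 q]
      exact mul_le_mul_of_nonneg_left (closed_low hU hc hqU).2 ht0.le
    linarith
  · intro y hy
    by_contra hcon
    push Not at hcon
    have h1 : ∀ᶠ n in atTop, |(x (σ n)).1| < |y.1| := by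
      have := ((continuous_abs.comp continuous_fst).tendsto q).comp hlim
      exact this.eventually (gt_mem_nhds hcon.1)
    have h2 : ∀ᶠ n in atTop, (x (σ n)).2 < y.2 := by
      have := (continuous_snd.tendsto q).comp hlim
      exact this.eventually (gt_mem_nhds hcon.2)
    obtain ⟨n, h3, h4⟩ := (h1.and h2).exists
    exact hxV (σ n) (hV.low y hy _ h3.le (hxn2 _) h4.le)

/-! ### The two-sided inequality -/

namespace T13

theorem kap_meas (q : ℝ × ℝ) : Measurable (fun y : ℝ × ℝ => kap q y) := by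
  unfold kap kk dsq
  refine Measurable.const_mul ?_ _
  refine Measurable.ite ?_ ?_ ?_
  · exact measurableSet_eq_fun (by fun_prop) (by fun_prop)
  · fun_prop
  · fun_prop

/-- the reflection in the vertical axis preserves the area -/
theorem refl_mp : MeasurePreserving (fun y : ℝ × ℝ => (-y.1, y.2)) volume volume := by
  have h : MeasurePreserving (fun y : ℝ × ℝ => (-y.1, y.2)) ((volume : Measure ℝ).prod volume)
      ((volume : Measure ℝ).prod volume) :=
    (Measure.measurePreserving_neg (volume : Measure ℝ)).prod (MeasurePreserving.id volume)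
  exact h

theorem refl_emb : MeasurableEmbedding (fun y : ℝ × ℝ => (-y.1, y.2)) := by
  have e : ℝ × ℝ ≃ᵐ ℝ × ℝ := (MeasurableEquiv.neg ℝ).prodCongr (MeasurableEquiv.refl ℝ)
  exact ((MeasurableEquiv.neg ℝ).prodCongr (MeasurableEquiv.refl ℝ)).measurableEmbedding

/-- a set symmetric in the first coordinate -/
def Sy (A : Set (ℝ × ℝ)) : Prop := (fun y : ℝ × ℝ => (-y.1, y.2)) ⁻¹' A = A

theorem Sy.diff {A B : Set (ℝ × ℝ)} (hA : Sy A) (hB : Sy B) : Sy (A \ B) := by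
  unfold Sy at *
  rw [preimage_sdiff, hA, hB]

theorem Sy.of_low {U : Set (ℝ × ℝ)} (h : Low U) (hs : U ⊆ UH) : Sy U := by
  ext x
  constructor
  · intro hx
    have h2 := low_sym h hs hx
    simpa using h2
  · intro hx
    exact low_sym h hs hx

theorem Sy.dil {U : Set (ℝ × ℝ)} (h : Sy U) (r : ℝ) : Sy (SV.dil r U) := by
  unfold Sy at *
  ext x
  change (r⁻¹ * -x.1, r⁻¹ * x.2) ∈ U ↔ (r⁻¹ * x.1, r⁻¹ * x.2) ∈ U
  have : (r⁻¹ * -x.1, r⁻¹ * x.2) = (-(r⁻¹ * x.1), r⁻¹ * x.2) := by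
    rw [mul_neg]
  rw [this]
  have h2 := Set.ext_iff.mp h (r⁻¹ * x.1, r⁻¹ * x.2)
  exact h2

/-- on symmetric sets `κ` may be replaced by `κ_s` -/
theorem symm_int (hi : S_int) {A : Set (ℝ × ℝ)} (hA : Fi A) (hs : Sy A) {q : ℝ × ℝ}
    (hq : 0 ≤ q.2) : IntegrableOn (fun y => kaps q y * y.2) A ∧
      ∫ y in A, kaps q y * y.2 = ∫ y in A, kap q y * y.2 := by
  have h1 : IntegrableOn (fun y => kap q y * y.2) A := hi A hA q hq
  have hr : Measure.restrict volume A = Measure.restrict volume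
      ((fun y : ℝ × ℝ => (-y.1, y.2)) ⁻¹' A) := by rw [hs]
  have h2 : IntegrableOn (fun y : ℝ × ℝ => kap q (-y.1, y.2) * y.2) A := by
    have h := (refl_mp.integrableOn_comp_preimage refl_emb
      (f := fun y : ℝ × ℝ => kap q y * y.2) (s := A)).mpr h1
    rw [hs] at h
    exact h
  have h3 : ∫ y in A, kap q (-y.1, y.2) * y.2 = ∫ y in A, kap q y * y.2 := by
    have h := refl_mp.setIntegral_preimage_emb refl_emb (fun y : ℝ × ℝ => kap q y * y.2) A
    rw [hs] at h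
    exact h
  have e : (fun y : ℝ × ℝ => kaps q y * y.2) =
      fun y => (kap q y * y.2 + kap q (-y.1, y.2) * y.2) / 2 := by
    funext y
    unfold kaps
    ring
  rw [e]
  refine ⟨(h1.add h2).div_const 2, ?_⟩
  rw [integral_div, integral_add h1 h2, h3]
  ring

/-- the sum of two one-sided touching inequalities -/
theorem core (hi : S_int) (hm : S_mono) {A V B : Set (ℝ × ℝ)} (hB : Fi B)
    (hV : MeasurableSet V) (hA : MeasurableSet A) (hAV : A ⊆ V) (hVB : V ⊆ B) (sA : Sy A)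
    (sV : Sy V) (sB : Sy B) {q q' : ℝ × ℝ} (hq : 0 ≤ q.2) (hq' : 0 ≤ q'.2) {α β : ℝ}
    (h1 : phi B q - phi V q ≤ α) (h2 : phi V q' - phi A q' ≤ β) :
    ∫ y in B \ A, (min (kaps q y) (kaps q' y)) * y.2 ≤ α + β := by
  have fV : Fi V := (hm V B hB hV hVB).1
  have fBV : Fi (B \ V) := (hm _ B hB (hB.meas.diff hV) sdiff_subset).1
  have fVA : Fi (V \ A) := (hm _ V fV (hV.diff hA) sdiff_subset).1
  have fBA : Fi (B \ A) := (hm _ B hB (hB.meas.diff hA) sdiff_subset).1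
  rw [(hm V B hB hV hVB).2.2.2.1 q hq] at h1
  rw [(hm A V fV hA hAV).2.2.2.1 q' hq'] at h2
  have i1 := symm_int hi fBV (sB.diff sV) hq
  have i2 := symm_int hi fVA (sV.diff sA) hq'
  have j1 := symm_int hi fBA (sB.diff sA) hq
  have j2 := symm_int hi fBA (sB.diff sA) hq'
  rw [← i1.2] at h1
  rw [← i2.2] at h2
  have hmin : IntegrableOn (fun y => (min (kaps q y) (kaps q' y)) * y.2) (B \ A) := by
    have h : IntegrableOn (fun y => min (kaps q y * y.2) (kaps q' y * y.2)) (B \ A) :=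
      Integrable.inf j1.1 j2.1
    refine h.congr_fun ?_ fBA.meas
    intro y hy
    have hy2 : 0 ≤ y.2 := (show 0 < y.2 from fBA.sub hy).le
    exact (min_mul_of_nonneg _ _ hy2).symm
  have hun : B \ A = (B \ V) ∪ (V \ A) := by
    ext x
    constructor
    · rintro ⟨hx1, hx2⟩
      by_cases h : x ∈ V
      · exact Or.inr ⟨h, hx2⟩
      · exact Or.inl ⟨hx1, h⟩
    · rintro (⟨hx1, hx2⟩ | ⟨hx1, hx2⟩)
      · exact ⟨hx1, fun h => hx2 (hAV h)⟩
      · exact ⟨hVB hx1, hx2⟩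
  have hdis : Disjoint (B \ V) (V \ A) := by
    rw [Set.disjoint_left]
    rintro x ⟨_, h3⟩ ⟨h4, _⟩
    exact h3 h4
  have k1 : IntegrableOn (fun y => (min (kaps q y) (kaps q' y)) * y.2) (B \ V) :=
    hmin.mono_set (by rw [hun]; exact subset_union_left)
  have k2 : IntegrableOn (fun y => (min (kaps q y) (kaps q' y)) * y.2) (V \ A) :=
    hmin.mono_set (by rw [hun]; exact subset_union_right)
  rw [hun, setIntegral_union hdis (hV.diff hA) k1 k2]
  have l1 : ∫ y in B \ V, (min (kaps q y) (kaps q' y)) * y.2 ≤ ∫ y in B \ V, kaps q y * y.2 := by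
    refine setIntegral_mono_on k1 i1.1 fBV.meas ?_
    intro y hy
    have hy2 : 0 ≤ y.2 := (show 0 < y.2 from fBV.sub hy).le
    exact mul_le_mul_of_nonneg_right (min_le_left _ _) hy2
  have l2 : ∫ y in V \ A, (min (kaps q y) (kaps q' y)) * y.2 ≤ ∫ y in V \ A, kaps q' y * y.2 := by
    refine setIntegral_mono_on k2 i2.1 fVA.meas ?_
    intro y hy
    have hy2 : 0 ≤ y.2 := (show 0 < y.2 from fVA.sub hy).le
    exact mul_le_mul_of_nonneg_right (min_le_right _ _) hy2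
  linarith

end T13

open T13

theorem t_sum (hi : S_int) (hm : S_mono) (hsc : S_scale) (ht : S_touch) : S_sum := by
  intro wU U wV V hU hV
  obtain ⟨t, ht0, hsub, -, q₁, hq1D, hq1V, hq12, hq1e, hq1q⟩ := ht wU U wV V hU hV
  obtain ⟨r, hr0, hsubr, -, q₂, hq2D, hq2U, hq22, hq2e, hq2q⟩ := ht wV V wU U hV hU
  have fU := sol_fi hU
  have fV := sol_fi hV
  have sU := Sy.of_low hU.low hU.sub
  have sV := Sy.of_low hV.low hV.sub
  set s := 1 / r with hs
  have hs0 : 0 < s := by positivity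
  have hrs : r = 1 / s := by rw [hs]; field_simp
  have hVs : V ⊆ dil s U := by
    have h : dil s (dil r V) ⊆ dil s U := dil_mono hsubr
    rw [dil_dil, show s * r = 1 by rw [hs]; field_simp, dil_one] at h
    exact h
  have hUt : U ⊆ dil (1 / t) V := by
    have h : dil (1 / t) (dil t U) ⊆ dil (1 / t) V := dil_mono hsub
    rw [dil_dil, show 1 / t * t = 1 by field_simp, dil_one] at h
    exact h
  -- `t ≤ s`
  have hts : t ≤ s := by
    by_contra hcon
    push Not at hcon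
    obtain ⟨x₀, hx₀⟩ := hU.ne
    obtain ⟨R, hR⟩ := hU.bdd.exists_norm_le
    set H := sSup ((fun x : ℝ × ℝ => x.2) '' U) with hH
    have hbd : BddAbove ((fun x : ℝ × ℝ => x.2) '' U) := by
      refine ⟨R, ?_⟩
      rintro _ ⟨x, hx, rfl⟩
      exact (le_abs_self _).trans ((norm_snd_le x).trans (hR x hx))
    have hH0 : 0 < H := lt_of_lt_of_le (show 0 < x₀.2 from hU.sub hx₀)
      (le_csSup hbd ⟨x₀, hx₀, rfl⟩)
    have h1 : ∀ x ∈ U, x.2 ≤ s / t * H := by
      intro x hx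
      have hmem : (t * x.1, t * x.2) ∈ dil t U := by
        change (t⁻¹ * (t * x.1), t⁻¹ * (t * x.2)) ∈ U
        rw [inv_mul_cancel_left₀ ht0.ne', inv_mul_cancel_left₀ ht0.ne']
        exact hx
      have h2 : (s⁻¹ * (t * x.1), s⁻¹ * (t * x.2)) ∈ U := hVs (hsub hmem)
      have h3 : s⁻¹ * (t * x.2) ≤ H := le_csSup hbd ⟨_, h2, rfl⟩
      rw [inv_mul_le_iff₀ hs0] at h3
      rw [div_mul_eq_mul_div, le_div_iff₀ ht0]
      linarith
    have h2 : H ≤ s / t * H := by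
      refine csSup_le ⟨_, x₀, hx₀, rfl⟩ ?_
      rintro _ ⟨x, hx, rfl⟩
      exact h1 x hx
    have h3 : s / t < 1 := by rw [div_lt_one ht0]; exact hcon
    nlinarith
  have hcore2 : phi (dil s U) (s * q₂.1, s * q₂.2) - phi V (s * q₂.1, s * q₂.2) ≤
      s * wU - wV := by
    have e1 := (hsc U fU s hs0).2.2.2.2.2 (s * q₂.1, s * q₂.2)
    have e2 := (hsc V fV r hr0).2.2.2.2.2 q₂
    simp only at e1
    rw [inv_mul_cancel_left₀ hs0.ne', inv_mul_cancel_left₀ hs0.ne'] at e1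
    have e3 : (r⁻¹ * q₂.1, r⁻¹ * q₂.2) = (s * q₂.1, s * q₂.2) := by
      rw [hs, one_div]
    rw [e3] at e2
    rw [e2] at hq2e
    rw [e1]
    change s * phi U q₂ - _ ≤ _
    have h5 : s * (phi U q₂ - r * phi V (s * q₂.1, s * q₂.2)) ≤ s * (wU - r * wV) :=
      mul_le_mul_of_nonneg_left hq2e hs0.le
    have h6 : s * r = 1 := by rw [hs]; field_simp
    calc s * phi U q₂ - phi V (s * q₂.1, s * q₂.2)
        = s * (phi U q₂ - r * phi V (s * q₂.1, s * q₂.2)) := by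
          rw [mul_sub, ← mul_assoc, h6, one_mul]
      _ ≤ s * (wU - r * wV) := h5
      _ = s * wU - wV := by rw [mul_sub, ← mul_assoc, h6, one_mul]
  have hcore1 : phi (dil (1 / t) V) (t⁻¹ * q₁.1, t⁻¹ * q₁.2) -
      phi U (t⁻¹ * q₁.1, t⁻¹ * q₁.2) ≤ 1 / t * wV - wU := by
    have e1 := (hsc V fV (1 / t) (by positivity)).2.2.2.2.2 (t⁻¹ * q₁.1, t⁻¹ * q₁.2)
    have e2 := (hsc U fU t ht0).2.2.2.2.2 q₁
    simp only at e1
    have e3 : ((1 / t)⁻¹ * (t⁻¹ * q₁.1), (1 / t)⁻¹ * (t⁻¹ * q₁.2)) = q₁ := by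
      rw [one_div, inv_inv, mul_inv_cancel_left₀ ht0.ne', mul_inv_cancel_left₀ ht0.ne']
    rw [e3] at e1
    rw [e2] at hq1e
    rw [e1]
    have h5 : 1 / t * (phi V q₁ - t * phi U (t⁻¹ * q₁.1, t⁻¹ * q₁.2)) ≤
        1 / t * (wV - t * wU) :=
      mul_le_mul_of_nonneg_left hq1e (by positivity)
    have h6 : 1 / t * t = 1 := by field_simp
    calc 1 / t * phi V q₁ - phi U (t⁻¹ * q₁.1, t⁻¹ * q₁.2)
        = 1 / t * (phi V q₁ - t * phi U (t⁻¹ * q₁.1, t⁻¹ * q₁.2)) := by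
          rw [mul_sub, ← mul_assoc (1 / t) t, h6, one_mul]
      _ ≤ 1 / t * (wV - t * wU) := h5
      _ = 1 / t * wV - wU := by rw [mul_sub, ← mul_assoc (1 / t) t, h6, one_mul]
  refine ⟨s, t, ht0, hts, ?_, ?_⟩
  · refine ⟨hsub, hVs, (s * q₂.1, s * q₂.2), q₁, ?_, hq1V, ?_, hq12, ?_, ?_⟩
    · have h := (closure_dil hr0 V q₂).mp hq2D
      have e3 : (r⁻¹ * q₂.1, r⁻¹ * q₂.2) = (s * q₂.1, s * q₂.2) := by
        rw [hs, one_div]
      rwa [e3] at h
    · exact mul_nonneg hs0.le hq22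
    · intro y hy
      have e1 : |s * q₂.1| / s = |q₂.1| := by
        rw [abs_mul, abs_of_pos hs0]; field_simp
      have e2 : s * q₂.2 / s = q₂.2 := by field_simp
      simp only
      rw [e1, e2]
      exact hq2q y hy
    · have h := core hi hm (hsc U fU s hs0).1 fV.meas (hsc U fU t ht0).1.meas hsub hVs
        (sU.dil t) sV (sU.dil s) (q := (s * q₂.1, s * q₂.2)) (q' := q₁)
        (mul_nonneg hs0.le hq22) hq12 hcore2 hq1e
      refine h.trans (le_of_eq ?_)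
      ring
  · refine ⟨?_, hUt, (t⁻¹ * q₁.1, t⁻¹ * q₁.2), q₂, (closure_dil ht0 U q₁).mp hq1D, hq2U,
      mul_nonneg (inv_nonneg.mpr ht0.le) hq12, hq22, ?_, ?_⟩
    · rw [← hrs]; exact hsubr
    · intro y hy
      have e1 : |t⁻¹ * q₁.1| / (1 / t) = |q₁.1| := by
        rw [abs_mul, abs_of_pos (inv_pos.mpr ht0)]; field_simp
      have e2 : t⁻¹ * q₁.2 / (1 / t) = q₁.2 := by field_simp
      simp only
      rw [e1, e2]
      exact hq1q y hy
    · have hsubr' : dil (1 / s) V ⊆ U := by rw [← hrs]; exact hsubr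
      have hq2e' : phi U q₂ - phi (dil (1 / s) V) q₂ ≤ wU - 1 / s * wV := by
        rw [← hrs]; exact hq2e
      have h := core hi hm (hsc V fV (1 / t) (by positivity)).1 fU.meas
        (hsc V fV (1 / s) (by positivity)).1.meas hsubr' hUt
        (sV.dil (1 / s)) sU (sV.dil (1 / t)) (q := (t⁻¹ * q₁.1, t⁻¹ * q₁.2)) (q' := q₂)
        (mul_nonneg (inv_nonneg.mpr ht0.le) hq12) hq22 hcore1 hq2e'
      refine h.trans (le_of_eq ?_)
      ring

end SV
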