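import Pool.Agent.Helper779.SV.Stmts

/-!
# T14: lower bound for the symmetrised kernel (`S_J2`, `S_J2v`, `S_J2r`)
-/

open MeasureTheory Set Filter Topology
open scoped Real

namespace SV

namespace T14

/-- `½ log((1+t)/(1-t)) - t - t³/3` -/
noncomputable def ff (t : ℝ) : ℝ := (Real.log (1 + t) - Real.log (1 - t)) / 2 - t - t ^ 3 / 3

theorem ff_deriv {t : ℝ} (h1 : -1 < t) (h2 : t < 1) :
    HasDerivAt ff ((1 / (1 + t) - (-1) / (1 - t)) / 2 - 1 - t ^ 2) t := by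
  have a1 : HasDerivAt (fun t : ℝ => 1 + t) 1 t := by
    simpa using (hasDerivAt_id t).const_add 1
  have a2 : HasDerivAt (fun t : ℝ => 1 - t) (-1) t := by
    simpa using (hasDerivAt_id t).const_sub 1
  have b1 := a1.log (by linarith)
  have b2 := a2.log (by linarith)
  have c1 : HasDerivAt (fun t : ℝ => t ^ 3 / 3) (t ^ 2) t := by
    have h := (hasDerivAt_pow 3 t).div_const (3 : ℝ)
    have e : ((3 : ℕ) : ℝ) * t ^ (3 - 1) / 3 = t ^ 2 := by norm_num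
    rwa [e] at h
  exact (((b1.sub b2).div_const 2).sub (hasDerivAt_id t)).sub c1

theorem ff_mono : MonotoneOn ff (Ioo (-1) 1) := by
  refine monotoneOn_of_deriv_nonneg (convex_Ioo _ _) ?_ ?_ ?_
  · intro t ht
    exact (ff_deriv ht.1 ht.2).continuousAt.continuousWithinAt
  · intro t ht
    rw [interior_Ioo] at ht
    exact (ff_deriv ht.1 ht.2).differentiableAt.differentiableWithinAt
  · intro t ht
    rw [interior_Ioo] at ht
    rw [(ff_deriv ht.1 ht.2).deriv]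
    have h1 : 0 < 1 + t := by linarith [ht.1]
    have h2 : 0 < 1 - t := by linarith [ht.2]
    have : (1 / (1 + t) - (-1) / (1 - t)) / 2 - 1 - t ^ 2 = t ^ 4 / ((1 + t) * (1 - t)) := by
      field_simp
      ring
    rw [this]
    positivity

theorem ff_neg (t : ℝ) : ff (-t) = -ff t := by
  unfold ff
  have : (1 : ℝ) - -t = 1 + t := by ring
  rw [this, ← sub_eq_add_neg]
  ring

/-- the pair inequality, `z > 0` -/
theorem pair {C z p : ℝ} (hC : 0 < C) (hz : 0 < z) (h1 : 0 < C - z / 2 - p)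
    (h2 : 0 < C - z / 2 + p) :
    1 / C + (p ^ 2 + z ^ 2 / 12) / C ^ 3 ≤
      (Real.log (1 + z / (C - z / 2 - p)) / z + Real.log (1 + z / (C - z / 2 + p)) / z) / 2 := by
  set x := (z / 2 + p) / C with hx
  set y := (z / 2 - p) / C with hy
  have hx1 : x < 1 := by rw [hx, div_lt_one hC]; linarith
  have hx0 : -1 < x := by rw [hx, lt_div_iff₀ hC]; linarith
  have hy1 : y < 1 := by rw [hy, div_lt_one hC]; linarith
  have hy0 : -1 < y := by rw [hy, lt_div_iff₀ hC]; linarith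
  have hxy : -y ≤ x := by
    rw [hx, hy, ← neg_div]
    gcongr
    linarith
  have hm := ff_mono (a := -y) (b := x) ⟨by linarith, by linarith⟩ ⟨hx0, hx1⟩ hxy
  rw [ff_neg] at hm
  have e1 : 1 + z / (C - z / 2 - p) = (C + z / 2 - p) / (C - z / 2 - p) := by
    rw [eq_div_iff h1.ne', add_mul, one_mul, div_mul_cancel₀ _ h1.ne']; ring
  have e2 : 1 + z / (C - z / 2 + p) = (C + z / 2 + p) / (C - z / 2 + p) := by
    rw [eq_div_iff h2.ne', add_mul, one_mul, div_mul_cancel₀ _ h2.ne']; ring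
  have g1 : 0 < C + z / 2 - p := by linarith
  have g2 : 0 < C + z / 2 + p := by linarith
  have l1 : Real.log (1 + x) = Real.log (C + z / 2 + p) - Real.log C := by
    rw [← Real.log_div g2.ne' hC.ne', hx]
    congr 1; field_simp; ring
  have l2 : Real.log (1 - x) = Real.log (C - z / 2 - p) - Real.log C := by
    rw [← Real.log_div h1.ne' hC.ne', hx]
    congr 1; field_simp; ring
  have l3 : Real.log (1 + y) = Real.log (C + z / 2 - p) - Real.log C := by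
    rw [← Real.log_div g1.ne' hC.ne', hy]
    congr 1; field_simp; ring
  have l4 : Real.log (1 - y) = Real.log (C - z / 2 + p) - Real.log C := by
    rw [← Real.log_div h2.ne' hC.ne', hy]
    congr 1; field_simp; ring
  rw [e1, e2, Real.log_div g1.ne' h1.ne', Real.log_div g2.ne' h2.ne']
  unfold ff at hm
  rw [l1, l2, l3, l4] at hm
  have e3 : x + x ^ 3 / 3 + (y + y ^ 3 / 3) = z * (1 / C + (p ^ 2 + z ^ 2 / 12) / C ^ 3) := by
    rw [hx, hy]; field_simp; ring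
  have e4 : ((Real.log (C + z / 2 - p) - Real.log (C - z / 2 - p)) / z +
      (Real.log (C + z / 2 + p) - Real.log (C - z / 2 + p)) / z) / 2 =
      ((Real.log (C + z / 2 - p) - Real.log (C - z / 2 - p)) +
      (Real.log (C + z / 2 + p) - Real.log (C - z / 2 + p))) / 2 / z := by
    field_simp
  rw [e4, le_div_iff₀ hz, mul_comm, ← e3]
  linarith

theorem pair0 {C p : ℝ} (hC : 0 < C) (h1 : 0 < C - p) (h2 : 0 < C + p) :
    1 / C + p ^ 2 / C ^ 3 ≤ (1 / (C - p) + 1 / (C + p)) / 2 := by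
  have : (1 / (C - p) + 1 / (C + p)) / 2 - (1 / C + p ^ 2 / C ^ 3) =
      p ^ 4 / (C ^ 3 * ((C - p) * (C + p))) := by
    field_simp
    ring
  have h : 0 ≤ p ^ 4 / (C ^ 3 * ((C - p) * (C + p))) := by positivity
  linarith

/-- quasi-concavity of `1/c + N/c³` along segments, in polynomial form -/
theorem seg {m c₀ c₁ N₀ N₁ t : ℝ} (h0 : 0 < c₀) (h1 : 0 < c₁) (n0 : 0 ≤ N₀) (n1 : 0 ≤ N₁)
    (t0 : 0 ≤ t) (t1 : t ≤ 1) (g0 : m * c₀ ^ 3 ≤ c₀ ^ 2 + N₀) (g1 : m * c₁ ^ 3 ≤ c₁ ^ 2 + N₁) :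
    m * ((1 - t) * c₀ + t * c₁) ^ 3 ≤
      ((1 - t) * c₀ + t * c₁) ^ 2 + ((1 - t) * N₀ + t * N₁) := by
  set c := (1 - t) * c₀ + t * c₁ with hc
  have hc0 : 0 < c := by
    rcases eq_or_lt_of_le t1 with h | h
    · rw [hc, h]; linarith
    · have : 0 < (1 - t) * c₀ := mul_pos (by linarith) h0
      have : 0 ≤ t * c₁ := mul_nonneg t0 h1.le
      rw [hc]; linarith
  have hN : 0 ≤ (1 - t) * N₀ + t * N₁ :=
    add_nonneg (mul_nonneg (by linarith) n0) (mul_nonneg t0 n1)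
  by_cases hm : 1 ≤ m * (c₀ + c₁ + c)
  · have key : c ^ 2 + ((1 - t) * N₀ + t * N₁) - m * c ^ 3 =
        (1 - t) * (c₀ ^ 2 + N₀ - m * c₀ ^ 3) + t * (c₁ ^ 2 + N₁ - m * c₁ ^ 3) +
          t * (1 - t) * (c₁ - c₀) ^ 2 * (m * (c₀ + c₁ + c) - 1) := by
      rw [hc]; ring
    have e1 : 0 ≤ (1 - t) * (c₀ ^ 2 + N₀ - m * c₀ ^ 3) :=
      mul_nonneg (by linarith) (by linarith)
    have e2 : 0 ≤ t * (c₁ ^ 2 + N₁ - m * c₁ ^ 3) := mul_nonneg t0 (by linarith)
    have e3 : 0 ≤ t * (1 - t) * (c₁ - c₀) ^ 2 * (m * (c₀ + c₁ + c) - 1) :=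
      mul_nonneg (mul_nonneg (mul_nonneg t0 (by linarith)) (sq_nonneg _)) (by linarith)
    linarith
  · push Not at hm
    have hmc : m * c ≤ 1 := by
      rcases le_or_gt m 0 with h | h
      · nlinarith
      · nlinarith
    have : c ^ 2 - m * c ^ 3 = c ^ 2 * (1 - m * c) := by ring
    have h3 : 0 ≤ c ^ 2 * (1 - m * c) := mul_nonneg (sq_nonneg _) (by linarith)
    linarith

/-- `f = 1/c + N/c³ ≥ m` in polynomial form -/
theorem f_iff {m c N : ℝ} (hc : 0 < c) : m ≤ 1 / c + N / c ^ 3 ↔ m * c ^ 3 ≤ c ^ 2 + N := by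
  have : 1 / c + N / c ^ 3 = (c ^ 2 + N) / c ^ 3 := by field_simp
  rw [this, le_div_iff₀ (by positivity)]

end T14

theorem t_J2 : S_J2 := by
  intro q y hq hy h1 h2
  set C := q.1 ^ 2 + q.2 ^ 2 + y.1 ^ 2 + y.2 ^ 2 with hC
  set z := 4 * q.2 * y.2 with hz
  set p := 2 * q.1 * y.1 with hp
  have hC0 : 0 < C := by rw [hC]; positivity
  have hz0 : 0 ≤ z := by rw [hz]; positivity
  have d1 : dsq q y = C - z / 2 - p := by rw [hC, hz, hp, dsq]; ring
  have d2 : dsq q (-y.1, y.2) = C - z / 2 + p := by rw [hC, hz, hp, dsq]; ring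
  have p1 : 0 < dsq q y := by
    have h0 : 0 ≤ dsq q y := by unfold dsq; positivity
    rcases eq_or_lt_of_le h0 with h | h
    · exfalso
      apply h1
      unfold dsq at h
      have a1 : (q.1 - y.1) ^ 2 = 0 := by nlinarith [sq_nonneg (q.1 - y.1), sq_nonneg (q.2 - y.2)]
      have a2 : (q.2 - y.2) ^ 2 = 0 := by nlinarith [sq_nonneg (q.1 - y.1), sq_nonneg (q.2 - y.2)]
      have b1 := pow_eq_zero_iff (two_ne_zero) |>.mp a1
      have b2 := pow_eq_zero_iff (two_ne_zero) |>.mp a2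
      exact Prod.ext (by linarith) (by linarith)
    · exact h
  have p2 : 0 < dsq q (-y.1, y.2) := by
    have h0 : 0 ≤ dsq q (-y.1, y.2) := by unfold dsq; positivity
    rcases eq_or_lt_of_le h0 with h | h
    · exfalso
      apply h2
      unfold dsq at h
      simp only at h
      have a1 : (q.1 - -y.1) ^ 2 = 0 := by
        nlinarith [sq_nonneg (q.1 - -y.1), sq_nonneg (q.2 - y.2)]
      have a2 : (q.2 - y.2) ^ 2 = 0 := by
        nlinarith [sq_nonneg (q.1 - -y.1), sq_nonneg (q.2 - y.2)]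
      have b1 := pow_eq_zero_iff (two_ne_zero) |>.mp a1
      have b2 := pow_eq_zero_iff (two_ne_zero) |>.mp a2
      exact Prod.ext (by simp only; linarith) (by simp only; linarith)
    · exact h
  have hk : π * kaps q y = (kk (C - z / 2 - p) z + kk (C - z / 2 + p) z) / 2 := by
    unfold kaps kap
    rw [d1, d2, ← hz]
    have hpi : (π : ℝ) ≠ 0 := Real.pi_ne_zero
    field_simp
  have hJ : J2 q y = 1 / C + (p ^ 2 + z ^ 2 / 12) / C ^ 3 := by
    unfold J2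
    rw [← hC]
    congr 2
    rw [hp, hz]
    ring
  rw [hk, hJ]
  rw [d1] at p1
  rw [d2] at p2
  rcases eq_or_lt_of_le hz0 with h | h
  · have hz' : z = 0 := h.symm
    rw [hz'] at p1 p2 ⊢
    unfold kk
    rw [if_pos rfl, if_pos rfl]
    have := T14.pair0 (C := C) (p := p) hC0 (by linarith) (by linarith)
    calc 1 / C + (p ^ 2 + 0 ^ 2 / 12) / C ^ 3 = 1 / C + p ^ 2 / C ^ 3 := by ring
      _ ≤ (1 / (C - p) + 1 / (C + p)) / 2 := this
      _ = _ := by ring_nf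
  · unfold kk
    rw [if_neg h.ne', if_neg h.ne']
    exact T14.pair hC0 h p1 p2

theorem t_J2v : S_J2v := by
  intro a h ha hh q y hq hy
  set m := min (1 / (y.1 ^ 2 + y.2 ^ 2)) (min (J2 (a, 0) y) (J2 (0, h) y)) with hm
  have m1 : m ≤ 1 / (y.1 ^ 2 + y.2 ^ 2) := min_le_left _ _
  have m2 : m ≤ J2 (a, 0) y := (min_le_right _ _).trans (min_le_left _ _)
  have m3 : m ≤ J2 (0, h) y := (min_le_right _ _).trans (min_le_right _ _)
  set Y := y.1 ^ 2 + y.2 ^ 2 with hY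
  have hY0 : 0 < Y := by rw [hY]; positivity
  -- polynomial forms at the vertices
  have v1 : m * Y ^ 3 ≤ Y ^ 2 + 0 := by
    rw [← T14.f_iff hY0]
    simpa using m1
  have hca : 0 < Y + a ^ 2 := by positivity
  have hch : 0 < Y + h ^ 2 := by positivity
  have v2 : m * (Y + a ^ 2) ^ 3 ≤ (Y + a ^ 2) ^ 2 + 4 * a ^ 2 * y.1 ^ 2 := by
    rw [← T14.f_iff hca]
    have e : J2 (a, 0) y = 1 / (Y + a ^ 2) + 4 * a ^ 2 * y.1 ^ 2 / (Y + a ^ 2) ^ 3 := by
      unfold J2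
      simp only
      have : a ^ 2 + 0 ^ 2 + y.1 ^ 2 + y.2 ^ 2 = Y + a ^ 2 := by rw [hY]; ring
      rw [this]
      congr 2
      ring
    rw [← e]; exact m2
  have v3 : m * (Y + h ^ 2) ^ 3 ≤ (Y + h ^ 2) ^ 2 + 4 / 3 * (h ^ 2 * y.2 ^ 2) := by
    rw [← T14.f_iff hch]
    have e : J2 (0, h) y = 1 / (Y + h ^ 2) + 4 / 3 * (h ^ 2 * y.2 ^ 2) / (Y + h ^ 2) ^ 3 := by
      unfold J2
      simp only
      have : (0 : ℝ) ^ 2 + h ^ 2 + y.1 ^ 2 + y.2 ^ 2 = Y + h ^ 2 := by rw [hY]; ring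
      rw [this]
      congr 2
      ring
    rw [← e]; exact m3
  set α := q.1 ^ 2 / a ^ 2 with hα
  set β := q.2 ^ 2 / h ^ 2 with hβ
  have α0 : 0 ≤ α := by rw [hα]; positivity
  have β0 : 0 ≤ β := by rw [hβ]; positivity
  have q1 : q.1 ^ 2 = α * a ^ 2 := by rw [hα]; field_simp
  have q2 : q.2 ^ 2 = β * h ^ 2 := by rw [hβ]; field_simp
  have hcq : 0 < q.1 ^ 2 + q.2 ^ 2 + y.1 ^ 2 + y.2 ^ 2 := by positivity
  change m ≤ J2 q y
  unfold J2
  rw [T14.f_iff hcq]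
  rcases eq_or_lt_of_le (add_nonneg α0 β0) with hs | hs
  · have a0 : α = 0 := by linarith
    have b0 : β = 0 := by linarith
    have e1 : q.1 ^ 2 = 0 := by rw [q1, a0, zero_mul]
    have e2 : q.2 ^ 2 = 0 := by rw [q2, b0, zero_mul]
    have e3 : q.1 ^ 2 + q.2 ^ 2 + y.1 ^ 2 + y.2 ^ 2 = Y := by rw [e1, e2, hY]; ring
    rw [e3, e1, e2]
    linarith
  · -- the point on the far edge
    set s := α + β with hs'
    have E := T14.seg (m := m) (t := β / s) hca hch (by positivity) (by positivity)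
      (by positivity) (by rw [div_le_one hs]; linarith) v2 v3
    set c₁ := (1 - β / s) * (Y + a ^ 2) + β / s * (Y + h ^ 2) with hc₁
    set N₁ := (1 - β / s) * (4 * a ^ 2 * y.1 ^ 2) + β / s * (4 / 3 * (h ^ 2 * y.2 ^ 2)) with hN₁
    have hb1 : β / s ≤ 1 := by rw [div_le_one hs]; linarith
    have hb0 : 0 ≤ β / s := by positivity
    have hc1 : 0 < c₁ := by
      rw [hc₁]
      have : (1 - β / s) * (Y + a ^ 2) + β / s * (Y + h ^ 2) =
        Y + ((1 - β / s) * a ^ 2 + β / s * h ^ 2) := by ring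
      rw [this]
      have h1 : 0 ≤ (1 - β / s) * a ^ 2 := mul_nonneg (by linarith) (by positivity)
      have h2 : 0 ≤ β / s * h ^ 2 := by positivity
      linarith
    have hn1 : 0 ≤ N₁ := by
      rw [hN₁]
      have h1 : 0 ≤ (1 - β / s) * (4 * a ^ 2 * y.1 ^ 2) := mul_nonneg (by linarith) (by positivity)
      have h2 : 0 ≤ β / s * (4 / 3 * (h ^ 2 * y.2 ^ 2)) := by positivity
      linarith
    have F := T14.seg (m := m) (t := s) hY0 hc1 (le_refl 0) hn1 hs.le hq v1 E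
    have hsne : s ≠ 0 := hs.ne'
    have e1 : s * (β / s) = β := by field_simp
    have e2 : (1 - s) * Y + s * c₁ = q.1 ^ 2 + q.2 ^ 2 + y.1 ^ 2 + y.2 ^ 2 := by
      rw [hc₁, q1, q2]
      have : (1 - s) * Y + s * ((1 - β / s) * (Y + a ^ 2) + β / s * (Y + h ^ 2)) =
        Y + s * a ^ 2 - (s * (β / s)) * a ^ 2 + (s * (β / s)) * h ^ 2 := by ring
      rw [this, e1, hs', hY]
      ring
    have e3 : (1 - s) * 0 + s * N₁ = 4 * q.1 ^ 2 * y.1 ^ 2 + 4 / 3 * (q.2 ^ 2 * y.2 ^ 2) := by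
      rw [hN₁, q1, q2]
      have : (1 - s) * 0 + s * ((1 - β / s) * (4 * a ^ 2 * y.1 ^ 2) +
          β / s * (4 / 3 * (h ^ 2 * y.2 ^ 2))) =
        s * (4 * a ^ 2 * y.1 ^ 2) - (s * (β / s)) * (4 * a ^ 2 * y.1 ^ 2) +
          (s * (β / s)) * (4 / 3 * (h ^ 2 * y.2 ^ 2)) := by ring
      rw [this, e1, hs']
      ring
    rw [e2, e3] at F
    exact F

theorem t_J2r : S_J2r := by
  intro q y hq hy ρ h0 h1
  set m := min (1 / (q.1 ^ 2 + q.2 ^ 2)) (J2 q y) with hm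
  have m1 : m ≤ 1 / (q.1 ^ 2 + q.2 ^ 2) := min_le_left _ _
  have m2 : m ≤ J2 q y := min_le_right _ _
  set Q := q.1 ^ 2 + q.2 ^ 2 with hQ
  have hc : 0 < q.1 ^ 2 + q.2 ^ 2 + y.1 ^ 2 + y.2 ^ 2 := by positivity
  have v1 : m * Q ^ 3 ≤ Q ^ 2 + 0 := by
    rw [← T14.f_iff hq]
    simpa using m1
  unfold J2 at m2
  rw [T14.f_iff hc] at m2
  have F := T14.seg (m := m) (t := ρ ^ 2) hq hc (le_refl 0) (by positivity) (by positivity)
    (by nlinarith) v1 m2
  change m ≤ J2 q (ρ * y.1, ρ * y.2)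
  unfold J2
  simp only
  have hc' : 0 < q.1 ^ 2 + q.2 ^ 2 + (ρ * y.1) ^ 2 + (ρ * y.2) ^ 2 := by positivity
  rw [T14.f_iff hc']
  have e1 : (1 - ρ ^ 2) * Q + ρ ^ 2 * (q.1 ^ 2 + q.2 ^ 2 + y.1 ^ 2 + y.2 ^ 2) =
      q.1 ^ 2 + q.2 ^ 2 + (ρ * y.1) ^ 2 + (ρ * y.2) ^ 2 := by rw [hQ]; ring
  have e2 : (1 - ρ ^ 2) * 0 + ρ ^ 2 * (4 * q.1 ^ 2 * y.1 ^ 2 + 4 / 3 * (q.2 ^ 2 * y.2 ^ 2)) =
      4 * q.1 ^ 2 * (ρ * y.1) ^ 2 + 4 / 3 * (q.2 ^ 2 * (ρ * y.2) ^ 2) := by ring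
  rw [e1, e2] at F
  exact F

end SV
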