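import Pool.Agent.Helper779.SV.Stmts2
import Pool.Agent.Helper779.SV.T13

/-!
# T15: touching at a vertex (`S_vtouch`) and the confinement theorem (`S_N1`)
-/

open MeasureTheory Set Filter Topology
open scoped Real

namespace SV

namespace T15

open T13

theorem dil_low {r : ℝ} (hr : 0 < r) {U : Set (ℝ × ℝ)} (h : Low U) : Low (dil r U) := by
  intro x hx y h1 h2 h3
  have hr' : 0 < r⁻¹ := inv_pos.mpr hr
  refine h _ hx (r⁻¹ * y.1, r⁻¹ * y.2) ?_ (mul_pos hr' h2) (mul_le_mul_of_nonneg_left h3 hr'.le)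
  simp only [abs_mul, abs_of_pos hr']
  exact mul_le_mul_of_nonneg_left h1 hr'.le

theorem dil_open {r : ℝ} {U : Set (ℝ × ℝ)} (h : IsOpen U) : IsOpen (dil r U) := by
  have hc : Continuous (fun x : ℝ × ℝ => r⁻¹ • x) := by fun_prop
  exact h.preimage hc

/-- points below a point of the closure of a lower set belong to the closure -/
theorem closure_low {A : Set (ℝ × ℝ)} (hA : Low A) (hs : A ⊆ UH) {p q : ℝ × ℝ}
    (hq : q ∈ closure A) (h1 : |p.1| ≤ |q.1|) (h2 : 0 ≤ p.2) (h3 : p.2 ≤ q.2) :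
    p ∈ closure A := by
  obtain ⟨a, ha, hlim⟩ := mem_closure_iff_seq_limit.mp hq
  have l1 : Tendsto (fun n => |(a n).1|) atTop (𝓝 |q.1|) :=
    ((continuous_abs.comp continuous_fst).tendsto q).comp hlim
  have l2 : Tendsto (fun n => (a n).2) atTop (𝓝 q.2) := (continuous_snd.tendsto q).comp hlim
  have l3 : Tendsto (fun n : ℕ => (1 : ℝ) / ((n : ℝ) + 1)) atTop (𝓝 0) :=
    tendsto_one_div_add_atTop_nhds_zero_nat
  let b : ℕ → ℝ × ℝ := fun n =>
    (max (-|(a n).1|) (min p.1 |(a n).1|), min (a n).2 (p.2 + 1 / ((n : ℝ) + 1)))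
  have hb : ∀ n, b n ∈ A := by
    intro n
    have hp : (0 : ℝ) < 1 / ((n : ℝ) + 1) := by positivity
    have ha2 : 0 < (a n).2 := hs (ha n)
    refine hA (a n) (ha n) (b n) ?_ (lt_min ha2 (by linarith)) (min_le_left _ _)
    rw [abs_le]
    refine ⟨le_max_left _ _, max_le ?_ (min_le_right _ _)⟩
    have := abs_nonneg (a n).1
    linarith
  have hbl : Tendsto b atTop (𝓝 p) := by
    have e1 : max (-|q.1|) (min p.1 |q.1|) = p.1 := by
      have h4 := abs_le.mp h1
      rw [min_eq_left h4.2, max_eq_right h4.1]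
    have e2 : min q.2 (p.2 + 0) = p.2 := by rw [add_zero, min_eq_right h3]
    have t1 : Tendsto (fun n => max (-|(a n).1|) (min p.1 |(a n).1|)) atTop (𝓝 p.1) := by
      have := l1.neg.max (tendsto_const_nhds (x := p.1) |>.min l1)
      rwa [e1] at this
    have t2 : Tendsto (fun n : ℕ => min (a n).2 (p.2 + 1 / ((n : ℝ) + 1))) atTop (𝓝 p.2) := by
      have := l2.min (l3.const_add p.2)
      rwa [e2] at this
    exact t1.prodMk_nhds t2
  exact mem_closure_of_tendsto hbl (Eventually.of_forall hb)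

theorem rect_sub {A : Set (ℝ × ℝ)} (hA : Low A) {p : ℝ × ℝ} (hp : p ∈ closure A) :
    {x : ℝ × ℝ | |x.1| < |p.1| ∧ 0 < x.2 ∧ x.2 < p.2} ⊆ A := by
  rintro x ⟨h1, h2, h3⟩
  obtain ⟨a, ha, hlim⟩ := mem_closure_iff_seq_limit.mp hp
  have l1 : Tendsto (fun n => |(a n).1|) atTop (𝓝 |p.1|) :=
    ((continuous_abs.comp continuous_fst).tendsto p).comp hlim
  have l2 : Tendsto (fun n => (a n).2) atTop (𝓝 p.2) := (continuous_snd.tendsto p).comp hlim
  obtain ⟨n, h4, h5⟩ := ((l1.eventually (lt_mem_nhds h1)).and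
    (l2.eventually (lt_mem_nhds h3))).exists
  exact hA (a n) (ha n) x (le_of_lt h4) h2 (le_of_lt h5)

theorem rect_PP {a b : ℝ} (ha : 0 ≤ a) (hb : 0 ≤ b) :
    PP {x : ℝ × ℝ | |x.1| < a ∧ 0 < x.2 ∧ x.2 < b} = a * b ^ 2 := by
  have hset : {x : ℝ × ℝ | |x.1| < a ∧ 0 < x.2 ∧ x.2 < b} = Ioo (-a) a ×ˢ Ioo 0 b := by
    ext x
    constructor
    · rintro ⟨h1, h2, h3⟩
      exact ⟨abs_lt.mp h1, h2, h3⟩
    · rintro ⟨h1, h2, h3⟩
      exact ⟨abs_lt.mpr h1, h2, h3⟩
  unfold PP
  rw [hset]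
  have h := setIntegral_prod_mul (μ := (volume : Measure ℝ)) (ν := (volume : Measure ℝ))
    (fun _ : ℝ => (1 : ℝ)) (fun y : ℝ => y) (Ioo (-a) a) (Ioo 0 b)
  have h1 : ∫ x in Ioo (-a) a, (1 : ℝ) = 2 * a := by
    rw [setIntegral_const]
    simp only [smul_eq_mul, mul_one]
    rw [Measure.real, Real.volume_Ioo, ENNReal.toReal_ofReal (by linarith)]
    ring
  have h2 : ∫ y in Ioo 0 b, y = b ^ 2 / 2 := by
    rw [← integral_Ioc_eq_integral_Ioo, ← intervalIntegral.integral_of_le hb, integral_id]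
    ring
  rw [h1, h2] at h
  simp only [one_mul] at h
  have h3 : (volume : Measure (ℝ × ℝ)) = (volume : Measure ℝ).prod volume := rfl
  rw [h3, h]
  ring

/-- the staircase is a lower set -/
theorem stair_low (u : ℝ) (N : ℕ) (c : ℕ → ℕ) : Low (stair u N c) := by
  rintro x ⟨_, i, hi, h1, h2⟩ y h3 h4 h5
  exact ⟨h4, i, hi, h5.trans h1, h3.trans h2⟩

end T15

open T13 T15

theorem t_vtouch (hc : S_cont) (hsc : S_scale) : S_vtouch := by
  intro u N c hu hN hanti hc1 w U hU hnot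
  obtain ⟨RU, hRU⟩ := hU.bdd.exists_norm_le
  obtain ⟨x₀, hx₀⟩ := hU.ne
  have hx₀2 : 0 < x₀.2 := hU.sub hx₀
  have hRU0 : 0 < RU := by
    have h1 := (norm_snd_le x₀).trans (hRU x₀ hx₀)
    rw [Real.norm_eq_abs, abs_of_pos hx₀2] at h1
    linarith
  set T : Set ℝ := {t | 0 < t ∧ dil t U ⊆ stair u N c} with hT
  have hTne : u / RU ∈ T := by
    refine ⟨by positivity, ?_⟩
    intro x hx
    have hx' : ((u / RU)⁻¹ * x.1, (u / RU)⁻¹ * x.2) ∈ U := hx
    have hn := hRU _ hx'
    have hpos : 0 < (u / RU)⁻¹ := by positivity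
    have h1 : |(u / RU)⁻¹ * x.1| ≤ RU := (norm_fst_le _).trans hn
    have h2 : |(u / RU)⁻¹ * x.2| ≤ RU := (norm_snd_le _).trans hn
    have h3 : 0 < (u / RU)⁻¹ * x.2 := hU.sub hx'
    rw [abs_mul, abs_of_pos hpos, inv_mul_le_iff₀ (by positivity)] at h1 h2
    have e : u / RU * RU = u := by field_simp
    rw [e] at h1 h2
    have hc0 : (1 : ℝ) ≤ (c 0 : ℝ) := by exact_mod_cast hc1 0 (by omega)
    refine ⟨(mul_pos_iff_of_pos_left hpos).mp h3, 0, by omega, ?_, ?_⟩
    · have := (le_abs_self _).trans h2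
      push_cast
      linarith
    · refine h1.trans ?_
      nlinarith
  have hT1 : ∀ t ∈ T, t ≤ 1 := by
    rintro t ⟨ht, hsub⟩
    by_contra hcon
    push Not at hcon
    apply hnot
    intro x hx
    have hmem : (t * x.1, t * x.2) ∈ dil t U := by
      change (t⁻¹ * (t * x.1), t⁻¹ * (t * x.2)) ∈ U
      rw [inv_mul_cancel_left₀ ht.ne', inv_mul_cancel_left₀ ht.ne']
      exact hx
    have hx2 : 0 < x.2 := hU.sub hx
    refine stair_low u N c _ (hsub hmem) x ?_ hx2 ?_
    · simp only [abs_mul, abs_of_pos ht]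
      nlinarith [abs_nonneg x.1]
    · simp only
      nlinarith
  have hTbd : BddAbove T := ⟨1, hT1⟩
  set t := sSup T with ht
  have ht0 : 0 < t := lt_of_lt_of_le (by positivity) (le_csSup hTbd hTne)
  have ht1 : t ≤ 1 := csSup_le ⟨_, hTne⟩ hT1
  have hsub : dil t U ⊆ stair u N c := by
    intro x hx
    have hx' : (t⁻¹ * x.1, t⁻¹ * x.2) ∈ U := hx
    have hcont : ContinuousAt (fun r : ℝ => (r⁻¹ * x.1, r⁻¹ * x.2)) t := by
      have : ContinuousAt (fun r : ℝ => r⁻¹) t := continuousAt_inv₀ ht0.ne'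
      exact (this.mul continuousAt_const).prodMk (this.mul continuousAt_const)
    have hev : ∀ᶠ r in 𝓝 t, (r⁻¹ * x.1, r⁻¹ * x.2) ∈ U := hcont.eventually (hU.opn.mem_nhds hx')
    obtain ⟨δ, hδ, hball⟩ := Metric.eventually_nhds_iff.mp hev
    obtain ⟨r, hrT, hr⟩ := exists_lt_of_lt_csSup ⟨_, hTne⟩ (show t - δ < sSup T by linarith)
    have hr2 : r ≤ t := le_csSup hTbd hrT
    have hd : dist r t < δ := by
      rw [Real.dist_eq, abs_sub_lt_iff]
      constructor <;> linarith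
    exact hrT.2 (hball hd)
  have hmax : ∀ t' : ℝ, t < t' → ¬ dil t' U ⊆ stair u N c := by
    intro t' h1 h2
    have : t' ≤ t := le_csSup hTbd ⟨by linarith, h2⟩
    linarith
  -- points outside the staircase
  have hex : ∀ n : ℕ, ∃ x : ℝ × ℝ, x ∈ dil (t + 1 / ((n : ℝ) + 1)) U ∧ x ∉ stair u N c := by
    intro n
    have := hmax (t + 1 / ((n : ℝ) + 1)) (by
      have : (0 : ℝ) < 1 / ((n : ℝ) + 1) := by positivity
      linarith)
    rw [not_subset] at this
    exact this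
  choose x hxU hxV using hex
  have hrn : ∀ n : ℕ, 0 < t + 1 / ((n : ℝ) + 1) := fun n => by positivity
  have hxn2 : ∀ n, 0 < (x n).2 := by
    intro n
    have h1 : 0 < (t + 1 / ((n : ℝ) + 1))⁻¹ * (x n).2 := hU.sub (hxU n)
    have h2 : 0 < (t + 1 / ((n : ℝ) + 1))⁻¹ := inv_pos.mpr (hrn n)
    exact (mul_pos_iff_of_pos_left h2).mp h1
  have hxbd : ∀ n, x n ∈ Metric.closedBall (0 : ℝ × ℝ) ((t + 1) * RU) := by
    intro n
    rw [mem_closedBall_zero_iff]
    have h1 := hRU _ (hxU n)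
    have h2 : ‖(t + 1 / ((n : ℝ) + 1))⁻¹ • x n‖ ≤ RU := h1
    rw [norm_smul, Real.norm_eq_abs, abs_of_pos (inv_pos.mpr (hrn n)),
      inv_mul_le_iff₀ (hrn n)] at h2
    refine h2.trans ?_
    have h3 : 1 / ((n : ℝ) + 1) ≤ 1 := by
      rw [div_le_one (by positivity)]
      have : (0 : ℝ) ≤ n := Nat.cast_nonneg n
      linarith
    exact mul_le_mul_of_nonneg_right (by linarith) hRU0.le
  obtain ⟨q, -, σ, hσ, hlim⟩ :=
    (isCompact_closedBall (0 : ℝ × ℝ) ((t + 1) * RU)).tendsto_subseq hxbd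
  have hq2 : 0 ≤ q.2 := by
    have := (continuous_snd.tendsto q).comp hlim
    exact ge_of_tendsto' this fun n => (hxn2 _).le
  have hrlim : Tendsto (fun n => t + 1 / (((σ n : ℕ) : ℝ) + 1)) atTop (𝓝 t) := by
    have h1 : Tendsto (fun n : ℕ => (1 : ℝ) / ((n : ℝ) + 1)) atTop (𝓝 0) :=
      tendsto_one_div_add_atTop_nhds_zero_nat
    have h2 := (h1.comp hσ.tendsto_atTop).const_add t
    simpa using h2
  have hqU : (t⁻¹ * q.1, t⁻¹ * q.2) ∈ closure U := by
    have h1 : Tendsto (fun n => (t + 1 / (((σ n : ℕ) : ℝ) + 1))⁻¹ • x (σ n)) atTop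
        (𝓝 (t⁻¹ • q)) := (hrlim.inv₀ ht0.ne').smul hlim
    exact mem_closure_of_tendsto h1 (Eventually.of_forall fun n => hxU (σ n))
  have hqD : q ∈ closure (dil t U) := (closure_dil ht0 U q).mpr hqU
  have hDlow : Low (dil t U) := dil_low ht0 hU.low
  have hDsub : dil t U ⊆ UH := (hsc U (sol_fi hU) t ht0).1.sub
  -- the alternatives pass to the limit
  have halt : ∀ i < N, 2 * u * ((i : ℝ) + 1) ≤ q.2 ∨ u * (c i : ℝ) ≤ |q.1| := by
    intro i hi
    by_contra hcon
    push Not at hcon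
    have l1 : ∀ᶠ n in atTop, |(x (σ n)).1| < u * (c i : ℝ) := by
      have := ((continuous_abs.comp continuous_fst).tendsto q).comp hlim
      exact this.eventually (gt_mem_nhds hcon.2)
    have l2 : ∀ᶠ n in atTop, (x (σ n)).2 < 2 * u * ((i : ℝ) + 1) := by
      have := (continuous_snd.tendsto q).comp hlim
      exact this.eventually (gt_mem_nhds hcon.1)
    obtain ⟨n, h3, h4⟩ := (l1.and l2).exists
    exact hxV (σ n) ⟨hxn2 _, i, hi, h4.le, h3.le⟩
  -- the vertex
  have hvert : ∃ j ≤ N, 2 * u * (j : ℝ) ≤ q.2 ∧ (j < N → u * (c j : ℝ) ≤ |q.1|) := by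
    by_contra hcon
    push Not at hcon
    have key : ∀ j ≤ N, 2 * u * (j : ℝ) ≤ q.2 := by
      intro j
      induction j with
      | zero => intro _; simpa using hq2
      | succ j ih =>
        intro hj
        have h1 := ih (by omega)
        obtain ⟨h2, h3⟩ := hcon j (by omega) h1
        rcases halt j (by omega) with h | h
        · push_cast; linarith
        · exact absurd h (not_le.mpr h3)
    obtain ⟨h1, _⟩ := hcon N le_rfl (key N le_rfl)
    exact lt_irrefl _ h1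
  obtain ⟨j, hjN, hj2, hj1⟩ := hvert
  have hvtx : vtx u N c j ∈ closure (dil t U) := by
    refine closure_low hDlow hDsub hqD ?_ ?_ ?_
    · unfold vtx
      split_ifs with h
      · simp only
        rw [abs_of_nonneg (by positivity)]
        exact hj1 h
      · simp
    · unfold vtx
      split_ifs with h <;> simp only <;> positivity
    · unfold vtx
      split_ifs with h
      · exact hj2
      · have : j = N := by omega
        subst this
        exact hj2
  refine ⟨t, ht0, ht1, hsub, j, hjN, hvtx, ?_⟩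
  rw [(hsc U (sol_fi hU) t ht0).2.2.2.2.2 (vtx u N c j)]
  exact mul_le_mul_of_nonneg_left (closed_low hU hc ((closure_dil ht0 U _).mp hvtx)).2 ht0.le

theorem t_N1 (hsc : S_scale) (hm : S_mono) (hv : S_vtouch) : S_N1 := by
  intro u N c hu hN hanti hc1 w B free hw hB hvx hyp w' U hU hww harea
  by_contra hnot
  obtain ⟨θ, hθ0, hθ1, hsub, j, hj, hcl, hphi⟩ := hv u N c hu hN hanti hc1 w' U hU hnot
  have hw' : 0 < w' := hU.wpos
  have fU := sol_fi hU
  obtain ⟨fA, hPP, -, har, -, -⟩ := hsc U fU θ hθ0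
  rw [hU.mass] at hPP
  have hlow : Low (dil θ U) := dil_low hθ0 hU.low
  have hopn : IsOpen (dil θ U) := dil_open hU.opn
  have hp1 : 0 ≤ (vtx u N c j).1 := by
    unfold vtx; split_ifs <;> simp only <;> positivity
  have hp2 : 0 ≤ (vtx u N c j).2 := by
    unfold vtx; split_ifs <;> simp only <;> positivity
  -- the rectangle below the vertex
  have hrect : (vtx u N c j).1 * (vtx u N c j).2 ^ 2 ≤ PP (dil θ U) := by
    have h1 := rect_sub hlow hcl
    rw [abs_of_nonneg hp1] at h1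
    have hmeas : MeasurableSet {x : ℝ × ℝ | |x.1| < (vtx u N c j).1 ∧ 0 < x.2 ∧
        x.2 < (vtx u N c j).2} := by
      exact ((isOpen_lt continuous_fst.abs continuous_const).inter
        ((isOpen_lt continuous_const continuous_snd).inter
          (isOpen_lt continuous_snd continuous_const))).measurableSet
    have h2 := (hm _ _ fA hmeas h1).2.1
    rw [rect_PP hp1 hp2] at h2
    exact h2
  -- cube root
  set κ : ℝ := (w' / w) ^ ((1 : ℝ) / 3) with hκ
  have hκ3 : κ ^ 3 = w' / w := by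
    rw [hκ, ← Real.rpow_natCast, ← Real.rpow_mul (by positivity)]
    norm_num
  have hκ1 : 1 ≤ κ := by
    rw [hκ]
    refine Real.one_le_rpow ?_ (by norm_num)
    rw [le_div_iff₀ hw]; linarith
  have hκ0 : 0 < κ := by linarith
  have hκw : κ ^ 3 * w = w' := by rw [hκ3]; field_simp
  have hθκ : (θ * κ) ^ 3 * w = θ ^ 3 * w' := by rw [← hκw]; ring
  have harA : free ∨ ar (dil θ U) ≤ B * (θ * κ) ^ 2 := by
    rcases harea with h | h
    · exact Or.inl h
    · right
      have h1 : ar U ^ 3 ≤ (B * κ ^ 2) ^ 3 := by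
        have h2 : ar U ^ 3 * w ^ 2 ≤ (B * κ ^ 2) ^ 3 * w ^ 2 := by
          calc ar U ^ 3 * w ^ 2 ≤ B ^ 3 * w' ^ 2 := h
            _ = (B * κ ^ 2) ^ 3 * w ^ 2 := by rw [← hκw]; ring
        exact le_of_mul_le_mul_right h2 (by positivity)
      have h2 : ar U ≤ B * κ ^ 2 := le_of_pow_le_pow_left₀ (by norm_num) (by positivity) h1
      rw [har]
      calc θ ^ 2 * ar U ≤ θ ^ 2 * (B * κ ^ 2) := mul_le_mul_of_nonneg_left h2 (by positivity)
        _ = B * (θ * κ) ^ 2 := by ring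
  have hA0 : 0 ≤ ar (dil θ U) := ENNReal.toReal_nonneg
  have hpi := Real.pi_pos
  rcases le_or_gt (θ * κ) 1 with hle | hgt
  · obtain ⟨lam, η, S, hlam, hη, hS, hfree, hub, hlt⟩ := hyp j hj (θ * κ) (by positivity) hle (by
      calc _ ≤ PP (dil θ U) := hrect
        _ = (θ * κ) ^ 3 * (π * w) := by rw [hPP]; linear_combination π * (-hθκ))
    have h1 := hub _ hopn fA.sub hlow hsub hcl
    have h2 : π * η * ar (dil θ U) ≤ π * η * (B * (θ * κ) ^ 2) := by
      rcases harA with h | h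
      · rw [hfree h]; simp
      · exact mul_le_mul_of_nonneg_left h (by positivity)
    have h3 : PP (dil θ U) = (θ * κ) ^ 3 * (π * w) := by
      rw [hPP]; linear_combination π * (-hθκ)
    rw [h3] at h1
    have h4 : π * (θ * w') ≤ π * phi (dil θ U) (vtx u N c j) :=
      mul_le_mul_of_nonneg_left hphi hpi.le
    have h5 : π * (θ * κ * w) ≤ π * (θ * w') := by
      refine mul_le_mul_of_nonneg_left ?_ hpi.le
      rw [← hκw]
      have : κ * w ≤ κ ^ 3 * w := by
        refine mul_le_mul_of_nonneg_right ?_ hw.le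
        nlinarith [sq_nonneg (κ - 1), mul_pos hκ0 hκ0]
      nlinarith
    linarith
  · obtain ⟨lam, η, S, hlam, hη, hS, hfree, hub, hlt⟩ := hyp j hj 1 one_pos le_rfl (by
      simpa using hvx j hj)
    have h1 := hub _ hopn fA.sub hlow hsub hcl
    set ρ := (θ * κ) ^ 3 with hρ
    have hρ1 : 1 ≤ ρ := by rw [hρ]; exact one_le_pow₀ hgt.le
    have hρ2 : (θ * κ) ^ 2 ≤ ρ := by
      rw [hρ]
      have : (θ * κ) ^ 3 = (θ * κ) ^ 2 * (θ * κ) := by ring
      rw [this]
      nlinarith [sq_nonneg (θ * κ)]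
    have h2 : π * η * ar (dil θ U) ≤ π * η * (B * ρ) := by
      rcases harA with h | h
      · rw [hfree h]; simp
      · refine mul_le_mul_of_nonneg_left (h.trans ?_) (by positivity)
        exact mul_le_mul_of_nonneg_left hρ2 hB
    have h3 : PP (dil θ U) = ρ * (π * w) := by
      rw [hPP, hρ]; linear_combination π * (-hθκ)
    rw [h3] at h1
    have h4 : π * (θ * w') ≤ π * phi (dil θ U) (vtx u N c j) :=
      mul_le_mul_of_nonneg_left hphi hpi.le
    have h5 : π * (ρ * w) ≤ π * (θ * w') := by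
      refine mul_le_mul_of_nonneg_left ?_ hpi.le
      rw [hρ, hθκ]
      refine mul_le_mul_of_nonneg_right ?_ hw'.le
      calc θ ^ 3 = θ * θ ^ 2 := by ring
        _ ≤ θ * 1 := mul_le_mul_of_nonneg_left (pow_le_one₀ hθ0.le hθ1) hθ0.le
        _ = θ := mul_one _
    have h6 : ρ * (S + lam * (1 ^ 3 * (π * w)) + π * η * (B * 1 ^ 2)) < ρ * (π * (1 * w)) :=
      mul_lt_mul_of_pos_left hlt (by linarith)
    have h7 : S ≤ ρ * S := by nlinarith
    nlinarith

end SV
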