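import Pool.Agent.Helper779.SV.Stmts2
import Pool.Agent.Helper779.SV.T15

/-!
# T16: bound by rows (`S_rows`)
-/

open MeasureTheory Set Filter Topology
open scoped Real

namespace SV

namespace T16

open T13 T15

/-- half length of the section of `A` at height `y` (and `M` below the axis) -/
noncomputable def hl (A : Set (ℝ × ℝ)) (M : ℝ) (y : ℝ) : ℝ :=
  if 0 < y then sSup ({0} ∪ {x : ℝ | (x, y) ∈ A}) else M

theorem hl_bdd {A : Set (ℝ × ℝ)} {M : ℝ} (hM : ∀ z ∈ A, |z.1| ≤ M) (hM0 : 0 ≤ M) (y : ℝ) :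
    BddAbove ({0} ∪ {x : ℝ | (x, y) ∈ A}) := by
  refine ⟨M, ?_⟩
  rintro x (hx | hx)
  · rw [mem_singleton_iff.mp hx]; exact hM0
  · exact (le_abs_self x).trans (hM _ hx)

theorem hl_nonneg {A : Set (ℝ × ℝ)} {M : ℝ} (hM : ∀ z ∈ A, |z.1| ≤ M) (hM0 : 0 ≤ M) (y : ℝ) :
    0 ≤ hl A M y := by
  unfold hl
  split_ifs
  · exact le_csSup (hl_bdd hM hM0 y) (Or.inl rfl)
  · exact hM0

theorem hl_anti {A : Set (ℝ × ℝ)} {M : ℝ} (hA : Low A) (hM : ∀ z ∈ A, |z.1| ≤ M) (hM0 : 0 ≤ M) :
    Antitone (hl A M) := by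
  intro y y' hyy
  unfold hl
  split_ifs with h1 h2 h2
  · refine csSup_le_csSup (hl_bdd hM hM0 y) ⟨0, Or.inl rfl⟩ ?_
    rintro x (hx | hx)
    · exact Or.inl hx
    · exact Or.inr (hA _ hx (x, y) (le_refl _) h2 hyy)
  · refine csSup_le ⟨0, Or.inl rfl⟩ ?_
    rintro x (hx | hx)
    · rw [mem_singleton_iff.mp hx]; exact hM0
    · exact (le_abs_self x).trans (hM _ hx)
  · exact absurd (lt_of_lt_of_le h2 hyy) h1
  · exact le_refl _

theorem hl_mem {A : Set (ℝ × ℝ)} {M : ℝ} (hA : Low A) (hs : A ⊆ UH) (ho : IsOpen A)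
    (hM : ∀ z ∈ A, |z.1| ≤ M) (hM0 : 0 ≤ M) {x y : ℝ} (hy : 0 < y) :
    (x, y) ∈ A ↔ x ∈ Ioo (-(hl A M y)) (hl A M y) := by
  have he : hl A M y = sSup ({0} ∪ {x : ℝ | (x, y) ∈ A}) := by
    unfold hl; rw [if_pos hy]
  constructor
  · intro hx
    have h1 : (|x|, y) ∈ A := hA _ hx (|x|, y) (by simp) hy (le_refl _)
    have hc : Continuous (fun e : ℝ => (|x| + e, y)) := by fun_prop
    have ht : Tendsto (fun e : ℝ => (|x| + e, y)) (𝓝 0) (𝓝 (|x|, y)) := by
      have := hc.tendsto 0
      simpa using this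
    obtain ⟨δ, hδ, hball⟩ := Metric.eventually_nhds_iff.mp (ht.eventually (ho.mem_nhds h1))
    have h2 : (|x| + δ / 2, y) ∈ A := hball (by
      rw [Real.dist_eq, sub_zero, abs_of_pos (by positivity)]; linarith)
    have h3 : |x| + δ / 2 ≤ hl A M y := by
      rw [he]; exact le_csSup (hl_bdd hM hM0 y) (Or.inr h2)
    have h4 : |x| < hl A M y := by linarith
    exact abs_lt.mp h4
  · intro hx
    have h4 : |x| < hl A M y := abs_lt.mpr hx
    rw [he] at h4
    have hne : ({0} ∪ {x : ℝ | (x, y) ∈ A}).Nonempty := ⟨0, Or.inl rfl⟩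
    obtain ⟨x', hx', h5⟩ := exists_lt_of_lt_csSup hne h4
    rcases hx' with h | h
    · rw [mem_singleton_iff.mp h] at h5
      exact absurd h5 (not_lt.mpr (abs_nonneg x))
    · exact hA _ h (x, y) (h5.le.trans (le_abs_self _)) hy (le_refl _)

end T16

open T13 T15 T16

theorem t_rows (hi : S_int) : S_rows := by
  intro u N c hu hN hanti hc1 j hj lam η hlam hη r hr A hAo hAs hAl hAst hcl
  set p := vtx u N c j with hp
  set M : ℝ := u * (c 0 : ℝ) with hMdef
  have hM0 : 0 ≤ M := by positivity
  have hM : ∀ z ∈ A, |z.1| ≤ M := by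
    intro z hz
    obtain ⟨_, i, hi', _, h2⟩ := hAst hz
    refine h2.trans ?_
    have : (c i : ℝ) ≤ (c 0 : ℝ) := by exact_mod_cast hanti 0 i (Nat.zero_le _)
    exact mul_le_mul_of_nonneg_left this hu.le
  have hH : ∀ z ∈ A, 0 < z.2 ∧ z.2 ≤ 2 * u * (N : ℝ) := by
    intro z hz
    obtain ⟨h1, i, hi', h2, _⟩ := hAst hz
    refine ⟨h1, h2.trans ?_⟩
    have : ((i : ℝ) + 1) ≤ (N : ℝ) := by exact_mod_cast hi'
    exact mul_le_mul_of_nonneg_left this (by positivity)
  have hbdd : Bornology.IsBounded A := by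
    refine (Metric.isBounded_closedBall (x := (0 : ℝ × ℝ)) (r := max M (2 * u * N))).subset ?_
    intro z hz
    rw [mem_closedBall_zero_iff, Prod.norm_def]
    refine max_le_max ?_ ?_
    · exact hM z hz
    · rw [Real.norm_eq_abs, abs_of_pos (hH z hz).1]; exact (hH z hz).2
  have fA : Fi A := fi_of hAo hAs hbdd
  have hvol : volume A ≠ ⊤ := hbdd.measure_lt_top.ne
  have hp2 : 0 ≤ p.2 := by
    rw [hp]; unfold vtx; split_ifs <;> simp only <;> positivity
  set F : ℝ × ℝ → ℝ := fun z => π * kap p z * z.2 - lam * z.2 - π * η with hF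
  have i1 : IntegrableOn (fun z : ℝ × ℝ => π * (kap p z * z.2)) A := (hi A fA p hp2).const_mul π
  have i2 : IntegrableOn (fun z : ℝ × ℝ => lam * z.2) A := fA.int.const_mul lam
  have i3 : IntegrableOn (fun _ : ℝ × ℝ => π * η) A := integrableOn_const hvol
  have hFe : F = fun z => π * (kap p z * z.2) - lam * z.2 - π * η := by
    funext z; simp only [hF]; ring
  have iF : IntegrableOn F A := by
    rw [hFe]; exact (i1.sub i2).sub i3
  have hval : ∫ z in A, F z = π * phi A p - lam * PP A - π * η * ar A := by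
    rw [hFe]
    have e1 : ∫ z in A, (π * (kap p z * z.2) - lam * z.2 - π * η) =
        (∫ z in A, (π * (kap p z * z.2) - lam * z.2)) - ∫ _z in A, π * η :=
      integral_sub (i1.sub i2) i3
    have e2 : ∫ z in A, (π * (kap p z * z.2) - lam * z.2) =
        (∫ z in A, π * (kap p z * z.2)) - ∫ z in A, lam * z.2 := integral_sub i1 i2
    rw [e1, e2, integral_const_mul, integral_const_mul, setIntegral_const]
    unfold phi PP ar
    simp only [smul_eq_mul, Measure.real]
    ring
  -- Fubini
  have iI : Integrable (A.indicator F) := (integrable_indicator_iff hAo.measurableSet).mpr iF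
  have iI' : Integrable (A.indicator F) ((volume : Measure ℝ).prod (volume : Measure ℝ)) := iI
  set G : ℝ → ℝ := fun y => ∫ x : ℝ, (A.indicator F) (x, y) with hG
  have hfub : ∫ z in A, F z = ∫ y : ℝ, G y := by
    rw [← integral_indicator hAo.measurableSet]
    exact integral_prod_symm _ iI'
  have iG : Integrable G := iI'.integral_prod_right
  have hGpos : ∀ y, 0 < y → G y = ∫ x in Ioo (-(hl A M y)) (hl A M y), F (x, y) := by
    intro y hy
    rw [← integral_indicator measurableSet_Ioo]
    refine integral_congr_ae (Eventually.of_forall fun x => ?_)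
    simp only [indicator]
    by_cases h : (x, y) ∈ A
    · rw [if_pos h, if_pos ((hl_mem hAl hAs hAo hM hM0 hy).mp h)]
    · rw [if_neg h, if_neg (fun h' => h ((hl_mem hAl hAs hAo hM hM0 hy).mpr h'))]
  have hGout : ∀ y, y ∉ Ioc 0 (2 * u * (N : ℝ)) → G y = 0 := by
    intro y hy
    have : ∀ x : ℝ, (A.indicator F) (x, y) = 0 := by
      intro x
      refine indicator_of_notMem ?_ _
      intro h
      exact hy ⟨(hH _ h).1, (hH _ h).2⟩
    simp only [hG, this, integral_zero]
  have hsplit : ∫ y : ℝ, G y = ∑ i ∈ Finset.range N,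
      ∫ y in (2 * u * (i : ℝ))..(2 * u * ((i + 1 : ℕ) : ℝ)), G y := by
    have h1 : ∫ y : ℝ, G y = ∫ y in Ioc 0 (2 * u * (N : ℝ)), G y := by
      rw [← integral_indicator measurableSet_Ioc]
      refine integral_congr_ae (Eventually.of_forall fun y => ?_)
      simp only [indicator]
      split_ifs with h
      · rfl
      · exact hGout y h
    rw [h1, ← intervalIntegral.integral_of_le (by positivity)]
    have h2 := intervalIntegral.sum_integral_adjacent_intervals (f := G) (μ := volume)
      (a := fun i : ℕ => 2 * u * (i : ℝ)) (n := N)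
      (fun k _ => iG.intervalIntegrable)
    rw [h2]
    simp
  have hrow : ∀ i ∈ Finset.range N,
      ∫ y in (2 * u * (i : ℝ))..(2 * u * ((i + 1 : ℕ) : ℝ)), G y ≤ r i := by
    intro i hi'
    have hiN : i < N := Finset.mem_range.mp hi'
    have hle : 2 * u * (i : ℝ) ≤ 2 * u * ((i + 1 : ℕ) : ℝ) := by
      push_cast
      nlinarith
    have hi0 : 0 ≤ 2 * u * (i : ℝ) := by positivity
    have h1 := hr i hiN (hl A M) (hl_anti hAl hM hM0).measurable ?_
    · refine le_trans (le_of_eq ?_) h1
      rw [intervalIntegral.integral_of_le hle, integral_Ioc_eq_integral_Ioo]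
      unfold rowint
      have e : ((i + 1 : ℕ) : ℝ) = (i : ℝ) + 1 := by push_cast; ring
      rw [e]
      refine setIntegral_congr_fun measurableSet_Ioo ?_
      intro y hy
      exact hGpos y (lt_of_le_of_lt hi0 hy.1)
    · intro y hy1 hy2
      have hy0 : 0 < y := lt_of_le_of_lt hi0 hy1
      refine ⟨hl_nonneg hM hM0 y, ?_, ?_⟩
      · unfold hl
        rw [if_pos hy0]
        refine csSup_le ⟨0, Or.inl rfl⟩ ?_
        rintro x (hx | hx)
        · rw [mem_singleton_iff.mp hx]; positivity
        · obtain ⟨_, i', hi'N, h2, h3⟩ := hAst hx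
          have h4 : i ≤ i' := by
            by_contra hcon
            push Not at hcon
            have h5 : ((i' : ℝ) + 1) ≤ (i : ℝ) := by exact_mod_cast hcon
            have h6 : 2 * u * ((i' : ℝ) + 1) ≤ 2 * u * (i : ℝ) :=
              mul_le_mul_of_nonneg_left h5 (by positivity)
            simp only at h2
            linarith
          have h5 : (c i' : ℝ) ≤ (c i : ℝ) := by exact_mod_cast hanti i i' h4
          exact (le_abs_self x).trans (h3.trans (mul_le_mul_of_nonneg_left h5 hu.le))
      · intro hij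
        by_cases hjN : j < N
        · have hpv : p = (u * (c j : ℝ), 2 * u * (j : ℝ)) := by
            rw [hp]; unfold vtx; rw [if_pos hjN]
          have hrs := rect_sub hAl hcl
          have hp1 : 0 ≤ p.1 := by rw [hpv]; simp only; positivity
          rw [abs_of_nonneg hp1] at hrs
          have hyp2 : y < p.2 := by
            rw [hpv]
            simp only
            have h5 : ((i : ℝ) + 1) ≤ (j : ℝ) := by exact_mod_cast hij
            have h6 : 2 * u * ((i : ℝ) + 1) ≤ 2 * u * (j : ℝ) :=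
              mul_le_mul_of_nonneg_left h5 (by positivity)
            linarith
          by_contra hcon
          push Not at hcon
          have hmem : ((hl A M y + p.1) / 2, y) ∈ A := by
            apply hrs
            refine ⟨?_, hy0, hyp2⟩
            simp only
            rw [abs_of_nonneg (by have := hl_nonneg hM hM0 y; linarith)]
            linarith
          have h7 := (hl_mem hAl hAs hAo hM hM0 hy0).mp hmem
          have h8 := h7.2
          linarith
        · have hpv : p.1 = 0 := by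
            rw [hp]; unfold vtx; rw [if_neg hjN]
          rw [hpv]
          exact hl_nonneg hM hM0 y
  have hfin : ∫ z in A, F z ≤ ∑ i ∈ Finset.range N, r i := by
    rw [hfub, hsplit]
    exact Finset.sum_le_sum hrow
  rw [hval] at hfin
  linarith

end SV
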