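import Pool.Agent.Helper779.SV.Stmts2

/-!
# T17: the row lemma (`S_row`, `S_row0`) and the mean kernel (`S_mk`)
-/

open MeasureTheory Set Filter Topology
open scoped Real

namespace SV

namespace T17

/-- general mean monotonicity lemma -/
theorem mean_mono (g g' Psi : ℝ → ℝ) (hg : ∀ x, HasDerivAt g (g' x) x) (p : ℝ)
    (hanti : ∀ a b, 0 ≤ a → a ≤ b → b ≤ p → Psi b ≤ Psi a)
    (hpos : ∀ l, 0 < l → l < p → 0 ≤ Psi l → 0 ≤ g' (p + l) - g' (p - l))
    (hneg : ∀ l, 0 < l → l < p → Psi l ≤ 0 → g' (p + l) - g' (p - l) ≤ 0)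
    (hend : ∫ d in (0:ℝ)..(2 * p), g d ≤ p * (g (2 * p) + g 0)) :
    ∀ l l' : ℝ, 0 < l → l ≤ l' → l' ≤ p →
      (1 / l) * ∫ d in (p - l)..(p + l), g d ≤ (1 / l') * ∫ d in (p - l')..(p + l'), g d := by
  have hgc : Continuous g := continuous_iff_continuousAt.2 fun x => (hg x).continuousAt
  set G : ℝ → ℝ := fun t => ∫ d in (0:ℝ)..t, g d with hG
  have hGd : ∀ t, HasDerivAt G (g t) t := fun t =>
    intervalIntegral.integral_hasDerivAt_right (hgc.intervalIntegrable _ _)
      (hgc.stronglyMeasurableAtFilter _ _) hgc.continuousAt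
  have hI : ∀ l, ∫ d in (p - l)..(p + l), g d = G (p + l) - G (p - l) := fun l =>
    (intervalIntegral.integral_interval_sub_left (hgc.intervalIntegrable _ _)
      (hgc.intervalIntegrable _ _)).symm
  set I : ℝ → ℝ := fun l => G (p + l) - G (p - l) with hIdef
  have hId : ∀ l, HasDerivAt I (g (p + l) + g (p - l)) l := by
    intro l
    have h1 : HasDerivAt (fun l => G (p + l)) (g (p + l)) l := by
      exact HasDerivAt.congr_deriv ((hGd (p + l)).comp l ((hasDerivAt_id l).const_add p)) (by ring)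
    have h2 : HasDerivAt (fun l => G (p - l)) (-g (p - l)) l := by
      exact HasDerivAt.congr_deriv ((hGd (p - l)).comp l ((hasDerivAt_id l).const_sub p)) (by ring)
    exact HasDerivAt.congr_deriv (h1.sub h2) (by ring)
  set Gt : ℝ → ℝ := fun l => l * (g (p + l) + g (p - l)) - I l with hGt
  have hGtd : ∀ l, HasDerivAt Gt (l * (g' (p + l) - g' (p - l))) l := by
    intro l
    have h1 : HasDerivAt (fun l => g (p + l)) (g' (p + l)) l := by
      exact HasDerivAt.congr_deriv ((hg (p + l)).comp l ((hasDerivAt_id l).const_add p)) (by ring)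
    have h2 : HasDerivAt (fun l => g (p - l)) (-g' (p - l)) l := by
      exact HasDerivAt.congr_deriv ((hg (p - l)).comp l ((hasDerivAt_id l).const_sub p)) (by ring)
    refine HasDerivAt.congr_deriv (((hasDerivAt_id l).mul (h1.add h2)).sub (hId l)) ?_
    simp only [id, Pi.add_apply]
    ring
  have hGtc : Continuous Gt := continuous_iff_continuousAt.2 fun x => (hGtd x).continuousAt
  have hGt0 : Gt 0 = 0 := by simp [hGt, hIdef]
  have hGtp : 0 ≤ Gt p := by
    have : Gt p = p * (g (2 * p) + g 0) - ∫ d in (0:ℝ)..(2 * p), g d := by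
      simp only [hGt, hIdef, hG]
      rw [show p + p = 2 * p by ring, show p - p = 0 by ring]
      simp
    rw [this]
    linarith
  have hGtnn : ∀ x, 0 < x → x ≤ p → 0 ≤ Gt x := by
    intro x hx hxp
    by_cases hc : 0 ≤ Psi x
    · have hm : MonotoneOn Gt (Icc 0 x) := by
        apply monotoneOn_of_deriv_nonneg (convex_Icc _ _) hGtc.continuousOn
          (fun y _ => (hGtd y).differentiableAt.differentiableWithinAt)
        intro y hy
        rw [interior_Icc] at hy
        rw [(hGtd y).deriv]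
        apply mul_nonneg hy.1.le
        apply hpos y hy.1 (lt_of_lt_of_le hy.2 hxp)
        exact le_trans hc (hanti y x hy.1.le hy.2.le hxp)
      have := hm (left_mem_Icc.2 hx.le) (right_mem_Icc.2 hx.le) hx.le
      rw [hGt0] at this
      exact this
    · have hm : AntitoneOn Gt (Icc x p) := by
        apply antitoneOn_of_deriv_nonpos (convex_Icc _ _) hGtc.continuousOn
          (fun y _ => (hGtd y).differentiableAt.differentiableWithinAt)
        intro y hy
        rw [interior_Icc] at hy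
        rw [(hGtd y).deriv]
        apply mul_nonpos_of_nonneg_of_nonpos (hx.le.trans hy.1.le)
        apply hneg y (hx.trans hy.1) hy.2
        exact le_trans (hanti x y hx.le hy.1.le hy.2.le) (not_le.1 hc).le
      exact le_trans hGtp (hm (left_mem_Icc.2 hxp) (right_mem_Icc.2 hxp) hxp)
  intro l l' hl hll hlp
  rw [hI, hI]
  have hmono : MonotoneOn (fun x => (1 / x) * I x) (Icc l l') := by
    have hd : ∀ x, 0 < x → HasDerivAt (fun x => (1 / x) * I x) (Gt x / x ^ 2) x := by
      intro x hx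
      have h1 : HasDerivAt (fun x : ℝ => 1 / x) (-(1 / x ^ 2)) x := by
        have := hasDerivAt_inv hx.ne'
        simpa [one_div] using this
      refine HasDerivAt.congr_deriv (h1.mul (hId x)) ?_
      simp only [hGt]
      field_simp
      ring
    apply monotoneOn_of_deriv_nonneg (convex_Icc _ _)
    · intro x hx
      exact (hd x (lt_of_lt_of_le hl hx.1)).continuousAt.continuousWithinAt
    · intro x hx
      rw [interior_Icc] at hx
      exact (hd x (hl.trans hx.1)).differentiableAt.differentiableWithinAt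
    · intro x hx
      rw [interior_Icc] at hx
      rw [(hd x (hl.trans hx.1)).deriv]
      exact div_nonneg (hGtnn x (hl.trans hx.1) (hx.2.le.trans hlp)) (sq_nonneg x)
  exact hmono (left_mem_Icc.2 hll) (right_mem_Icc.2 hll) hll

/-! ### elementary numerics -/

theorem arctan_lo {x : ℝ} (hx : 0 ≤ x) : x - x ^ 3 / 3 ≤ Real.arctan x := by
  have hm : MonotoneOn (fun x : ℝ => Real.arctan x - (x - x ^ 3 / 3)) (Ici 0) := by
    have hd : ∀ x : ℝ, HasDerivAt (fun x : ℝ => Real.arctan x - (x - x ^ 3 / 3))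
        (1 / (1 + x ^ 2) - (1 - x ^ 2)) x := by
      intro x
      have h1 := Real.hasDerivAt_arctan x
      have h2 : HasDerivAt (fun x : ℝ => x - x ^ 3 / 3) (1 - x ^ 2) x := by
        refine HasDerivAt.congr_deriv ((hasDerivAt_id x).sub ((hasDerivAt_pow 3 x).div_const 3)) ?_
        norm_num
      exact h1.sub h2
    apply monotoneOn_of_deriv_nonneg (convex_Ici _)
    · exact fun x _ => (hd x).continuousAt.continuousWithinAt
    · exact fun x _ => (hd x).differentiableAt.differentiableWithinAt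
    · intro x _
      rw [(hd x).deriv]
      have : 1 / (1 + x ^ 2) - (1 - x ^ 2) = x ^ 4 / (1 + x ^ 2) := by field_simp; ring
      rw [this]; positivity
  have := hm (mem_Ici.2 le_rfl) (mem_Ici.2 hx) hx
  simp at this
  linarith

theorem arctan_hi {x : ℝ} (hx : 0 ≤ x) : Real.arctan x ≤ x - x ^ 3 / 3 + x ^ 5 / 5 := by
  have hm : MonotoneOn (fun x : ℝ => (x - x ^ 3 / 3 + x ^ 5 / 5) - Real.arctan x) (Ici 0) := by
    have hd : ∀ x : ℝ, HasDerivAt (fun x : ℝ => (x - x ^ 3 / 3 + x ^ 5 / 5) - Real.arctan x)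
        ((1 - x ^ 2 + x ^ 4) - 1 / (1 + x ^ 2)) x := by
      intro x
      have h1 := Real.hasDerivAt_arctan x
      have h2 : HasDerivAt (fun x : ℝ => x - x ^ 3 / 3 + x ^ 5 / 5) (1 - x ^ 2 + x ^ 4) x := by
        refine HasDerivAt.congr_deriv (((hasDerivAt_id x).sub ((hasDerivAt_pow 3 x).div_const 3)).add
          ((hasDerivAt_pow 5 x).div_const 5)) ?_
        norm_num
      exact h2.sub h1
    apply monotoneOn_of_deriv_nonneg (convex_Ici _)
    · exact fun x _ => (hd x).continuousAt.continuousWithinAt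
    · exact fun x _ => (hd x).differentiableAt.differentiableWithinAt
    · intro x _
      rw [(hd x).deriv]
      have : (1 - x ^ 2 + x ^ 4) - 1 / (1 + x ^ 2) = x ^ 6 / (1 + x ^ 2) := by field_simp; ring
      rw [this]; positivity
  have := hm (mem_Ici.2 le_rfl) (mem_Ici.2 hx) hx
  simp at this
  linarith

/-- `k(z) = z + z/(1+z²) - 2 arctan z` -/
noncomputable def kf (z : ℝ) : ℝ := z + z / (1 + z ^ 2) - 2 * Real.arctan z

theorem kf_deriv (z : ℝ) : HasDerivAt kf (z ^ 2 * (z ^ 2 - 1) / (1 + z ^ 2) ^ 2) z := by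
  have h1 : HasDerivAt (fun z : ℝ => z / (1 + z ^ 2)) ((1 - z ^ 2) / (1 + z ^ 2) ^ 2) z := by
    have hz : (1 + z ^ 2) ≠ 0 := by positivity
    refine HasDerivAt.congr_deriv ((hasDerivAt_id z).div (((hasDerivAt_pow 2 z).const_add 1)) hz) ?_
    simp only [id]
    norm_num
    ring
  refine HasDerivAt.congr_deriv (((hasDerivAt_id z).add h1).sub ((Real.hasDerivAt_arctan z).const_mul 2)) ?_
  field_simp
  ring

theorem kf_anti : AntitoneOn kf (Icc 0 1) := by
  apply antitoneOn_of_deriv_nonpos (convex_Icc _ _)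
  · exact fun x _ => (kf_deriv x).continuousAt.continuousWithinAt
  · exact fun x _ => (kf_deriv x).differentiableAt.differentiableWithinAt
  · intro x hx
    rw [interior_Icc] at hx
    rw [(kf_deriv x).deriv]
    apply div_nonpos_of_nonpos_of_nonneg _ (by positivity)
    apply mul_nonpos_of_nonneg_of_nonpos (sq_nonneg x)
    nlinarith [hx.1, hx.2]

theorem kf_mono : MonotoneOn kf (Ici 1) := by
  apply monotoneOn_of_deriv_nonneg (convex_Ici _)
  · exact fun x _ => (kf_deriv x).continuousAt.continuousWithinAt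
  · exact fun x _ => (kf_deriv x).differentiableAt.differentiableWithinAt
  · intro x hx
    rw [interior_Ici] at hx
    rw [(kf_deriv x).deriv]
    apply div_nonneg _ (by positivity)
    apply mul_nonneg (sq_nonneg x)
    nlinarith [mem_Ioi.1 hx]

theorem kf_zero : kf 0 = 0 := by simp [kf]

theorem kf_two : 0 ≤ kf 2 := by
  have h1 : Real.arctan 2 = π / 2 - Real.arctan (1 / 2) := by
    have := Real.arctan_inv_of_pos (x := (1/2 : ℝ)) (by norm_num)
    norm_num at this
    rw [this]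
  have h2 := arctan_lo (x := (1/2 : ℝ)) (by norm_num)
  have h3 := Real.pi_lt_d2
  simp only [kf]
  rw [h1]
  norm_num at h2 ⊢
  linarith

theorem kf_nonneg {z : ℝ} (hz : 2 ≤ z) : 0 ≤ kf z :=
  le_trans kf_two (kf_mono (mem_Ici.2 (by norm_num)) (mem_Ici.2 (by linarith)) hz)

/-- `h(z) = log(1+z²) + (4/z) arctan z` -/
noncomputable def hf (z : ℝ) : ℝ := Real.log (1 + z ^ 2) + 4 / z * Real.arctan z

theorem hf_deriv {z : ℝ} (hz : 0 < z) : HasDerivAt hf (2 / z ^ 2 * kf z) z := by
  have h1 : HasDerivAt (fun z : ℝ => Real.log (1 + z ^ 2)) ((2 * z) / (1 + z ^ 2)) z := by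
    have h0 : HasDerivAt (fun z : ℝ => 1 + z ^ 2) (2 * z) z := by
      simpa using (hasDerivAt_pow 2 z).const_add 1
    exact h0.log (by positivity)
  have h2 : HasDerivAt (fun z : ℝ => 4 / z) (-(4 / z ^ 2)) z := by
    refine HasDerivAt.congr_deriv ((hasDerivAt_inv hz.ne').const_mul 4) ?_
    field_simp
  refine HasDerivAt.congr_deriv (h1.add (h2.mul (Real.hasDerivAt_arctan z))) ?_
  simp only [kf]
  field_simp
  ring

theorem hf_mono {a : ℝ} (ha : 0 < a) (h : ∀ z, a ≤ z → 0 ≤ kf z) : MonotoneOn hf (Ici a) := by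
  apply monotoneOn_of_deriv_nonneg (convex_Ici _)
  · exact fun x hx => (hf_deriv (lt_of_lt_of_le ha hx)).continuousAt.continuousWithinAt
  · intro x hx
    rw [interior_Ici] at hx
    exact (hf_deriv (ha.trans hx)).differentiableAt.differentiableWithinAt
  · intro x hx
    rw [interior_Ici] at hx
    rw [(hf_deriv (ha.trans hx)).deriv]
    exact mul_nonneg (by positivity) (h x (le_of_lt hx))

theorem hf_anti {b : ℝ} (h : ∀ z, 0 < z → z ≤ b → kf z ≤ 0) : AntitoneOn hf (Ioc 0 b) := by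
  apply antitoneOn_of_deriv_nonpos (convex_Ioc _ _)
  · exact fun x hx => (hf_deriv hx.1).continuousAt.continuousWithinAt
  · intro x hx
    rw [interior_Ioc] at hx
    exact (hf_deriv hx.1).differentiableAt.differentiableWithinAt
  · intro x hx
    rw [interior_Ioc] at hx
    rw [(hf_deriv hx.1).deriv]
    exact mul_nonpos_of_nonneg_of_nonpos (by positivity) (h x hx.1 hx.2.le)

theorem arctan_pos_inv {x : ℝ} (hx : 0 < x) : Real.arctan x = π / 2 - Real.arctan (1 / x) := by
  have := Real.arctan_inv_of_pos hx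
  rw [one_div, this]
  ring

theorem hf_num1 : 4 ≤ hf (32 / 10) := by
  simp only [hf]
  have h1 : Real.arctan (32 / 10) = π / 2 - Real.arctan (10 / 32) := by
    rw [arctan_pos_inv (by norm_num)]; norm_num
  have h2 := arctan_hi (x := (10 / 32 : ℝ)) (by norm_num)
  have h3 := Real.pi_gt_d6
  have h4 : Real.log (1 + (32 / 10) ^ 2) = 3 * Real.log 2 + Real.log (1 + 405 / 1000) := by
    have : (1 + (32 / 10) ^ 2 : ℝ) = 2 ^ 3 * (1 + 405 / 1000) := by norm_num
    rw [this, Real.log_mul (by norm_num) (by norm_num), Real.log_pow]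
    norm_num
  have h5 := Real.le_log_one_add_of_nonneg (x := (405 / 1000 : ℝ)) (by norm_num)
  have h6 := Real.log_two_gt_d9
  rw [h1, h4]
  norm_num at h2 h5 ⊢
  linarith

theorem hf_num2 : hf 1 ≤ hf 3 := by
  simp only [hf]
  have h1 : Real.arctan 3 = π / 2 - Real.arctan (1 / 3) := by
    rw [arctan_pos_inv (by norm_num)]
  have h2 := arctan_hi (x := (1 / 3 : ℝ)) (by norm_num)
  have h3 := Real.pi_lt_d2
  have h4 : Real.log (1 + 3 ^ 2) = Real.log 2 + (2 * Real.log 2 + Real.log (1 + 1 / 4)) := by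
    have : (1 + 3 ^ 2 : ℝ) = 2 * (2 ^ 2 * (1 + 1 / 4)) := by norm_num
    rw [this, Real.log_mul (by norm_num) (by norm_num), Real.log_mul (by norm_num) (by norm_num),
      Real.log_pow]
    norm_num
  have h5 := Real.le_log_one_add_of_nonneg (x := (1 / 4 : ℝ)) (by norm_num)
  have h6 := Real.log_two_gt_d9
  rw [h1, h4, Real.arctan_one]
  norm_num at h2 h5 ⊢
  linarith

theorem kf_le_zero_of {z2 : ℝ} (h : kf z2 < 0) : ∀ z, 0 < z → z ≤ z2 → kf z ≤ 0 := by
  intro z hz0 hzz
  rcases le_total z 1 with h1 | h1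
  · have := kf_anti (left_mem_Icc.2 zero_le_one) ⟨hz0.le, h1⟩ hz0.le
    rw [kf_zero] at this
    exact this
  · have := kf_mono (mem_Ici.2 h1) (mem_Ici.2 (h1.trans hzz)) hzz
    linarith

/-- the key comparison -/
theorem hf_comp {z1 z2 : ℝ} (h2 : 0 < z2) (h21 : z2 ≤ z1)
    (hc : 32 / 10 ≤ z1 ∨ (3 ≤ z1 ∧ 1 ≤ z2)) : hf z2 ≤ hf z1 := by
  by_cases hk : 0 ≤ kf z2
  · -- `kf ≥ 0` on `[z2, ∞)`
    by_cases h1 : 1 ≤ z2
    · have : ∀ z, z2 ≤ z → 0 ≤ kf z := fun z hz =>
        hk.trans (kf_mono (mem_Ici.2 h1) (mem_Ici.2 (h1.trans hz)) hz)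
      exact hf_mono h2 this (mem_Ici.2 le_rfl) (mem_Ici.2 h21) h21
    · -- then `kf` vanishes on `[0, z2]`, impossible; but monotonicity suffices
      push Not at h1
      -- strict antitonicity
      have hs : StrictAntiOn kf (Icc 0 1) := by
        apply strictAntiOn_of_deriv_neg (convex_Icc _ _)
        · exact fun x _ => (kf_deriv x).continuousAt.continuousWithinAt
        · intro x hx
          rw [interior_Icc] at hx
          rw [(kf_deriv x).deriv]
          apply div_neg_of_neg_of_pos _ (by positivity)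
          apply mul_neg_of_pos_of_neg (by have := hx.1; positivity)
          nlinarith [hx.1, hx.2]
      have := hs (left_mem_Icc.2 zero_le_one) ⟨h2.le, h1.le⟩ h2
      rw [kf_zero] at this
      linarith
  · push Not at hk
    have hle := kf_le_zero_of hk
    have hanti := hf_anti hle
    rcases hc with hc | ⟨hc, hc2⟩
    · have h4 : hf z2 ≤ 4 := by
        apply le_of_forall_pos_le_add
        intro ε hε
        -- take `z = min z2 (sqrt ε)`
        set z := min z2 (√ε) with hz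
        have hz0 : 0 < z := lt_min h2 (Real.sqrt_pos.2 hε)
        have hzz : z ≤ z2 := min_le_left _ _
        have hze : z ^ 2 ≤ ε := by
          have : z ≤ √ε := min_le_right _ _
          calc z ^ 2 ≤ (√ε) ^ 2 := by gcongr
            _ = ε := Real.sq_sqrt hε.le
        have e1 := hanti ⟨hz0, hzz⟩ ⟨h2, le_rfl⟩ hzz
        have e2 : hf z ≤ z ^ 2 + 4 := by
          simp only [hf]
          have a1 : Real.log (1 + z ^ 2) ≤ z ^ 2 := by
            have := Real.log_le_sub_one_of_pos (x := 1 + z ^ 2) (by positivity)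
            linarith
          have a2 : Real.arctan z ≤ z := by
            have h := arctan_hi hz0.le
            have hm : MonotoneOn (fun x : ℝ => x - Real.arctan x) (Ici 0) := by
              have hd : ∀ x : ℝ, HasDerivAt (fun x : ℝ => x - Real.arctan x)
                  (1 - 1 / (1 + x ^ 2)) x := fun x => (hasDerivAt_id x).sub (Real.hasDerivAt_arctan x)
              apply monotoneOn_of_deriv_nonneg (convex_Ici _)
              · exact fun x _ => (hd x).continuousAt.continuousWithinAt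
              · exact fun x _ => (hd x).differentiableAt.differentiableWithinAt
              · intro x _
                rw [(hd x).deriv]
                have : 1 - 1 / (1 + x ^ 2) = x ^ 2 / (1 + x ^ 2) := by field_simp; ring
                rw [this]; positivity
            have := hm (mem_Ici.2 le_rfl) (mem_Ici.2 hz0.le) hz0.le
            simp at this
            exact this
          have a3 : 4 / z * Real.arctan z ≤ 4 := by
            calc 4 / z * Real.arctan z ≤ 4 / z * z := by gcongr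
              _ = 4 := by field_simp
          linarith
        linarith
      have hnn : ∀ z, (2:ℝ) ≤ z → 0 ≤ kf z := fun z hz => kf_nonneg hz
      have h5 := hf_mono (by norm_num) hnn (mem_Ici.2 (by norm_num : (2:ℝ) ≤ 32 / 10))
        (mem_Ici.2 (by linarith)) hc
      linarith [hf_num1]
    · have e1 := hanti ⟨one_pos, hc2⟩ ⟨h2, le_rfl⟩ hc2
      have hnn : ∀ z, (2:ℝ) ≤ z → 0 ≤ kf z := fun z hz => kf_nonneg hz
      have h5 := hf_mono (by norm_num) hnn (mem_Ici.2 (by norm_num : (2:ℝ) ≤ 3))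
        (mem_Ici.2 (by linarith)) hc
      linarith [hf_num2]

/-- `∫_0^a log (x²+M²) = a log (a²+M²) - 2a + 2M arctan (a/M)` -/
theorem hf_comp' {z1 z2 : ℝ} (h2 : 17 / 10 ≤ z2) (h21 : z2 ≤ z1) : hf z2 ≤ hf z1 := by
  have k17 : 0 ≤ kf (17 / 10) := by
    have h1 := arctan_pos_inv (x := 17 / 10) (by norm_num)
    have h2 := arctan_lo (x := 1 / (17 / 10)) (by norm_num)
    have h3 : π < 3.1416 := Real.pi_lt_d4
    simp only [kf]
    rw [h1]
    norm_num at h2 ⊢
    linarith
  have : ∀ z, 17 / 10 ≤ z → 0 ≤ kf z := fun z hz =>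
    k17.trans (kf_mono (mem_Ici.2 (by norm_num)) (mem_Ici.2 (by linarith)) hz)
  exact hf_mono (by norm_num) this (mem_Ici.2 h2) (mem_Ici.2 (h2.trans h21)) h21

theorem int_log (a M : ℝ) (hM : 0 < M) :
    ∫ x in (0:ℝ)..a, Real.log (x ^ 2 + M ^ 2) =
      a * Real.log (a ^ 2 + M ^ 2) - 2 * a + 2 * M * Real.arctan (a / M) := by
  have hd : ∀ x : ℝ, HasDerivAt (fun x : ℝ => x * Real.log (x ^ 2 + M ^ 2) - 2 * x +
      2 * M * Real.arctan (x / M)) (Real.log (x ^ 2 + M ^ 2)) x := by
    intro x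
    have h0 : HasDerivAt (fun x : ℝ => x ^ 2 + M ^ 2) (2 * x) x := by
      simpa using (hasDerivAt_pow 2 x).add_const (M ^ 2)
    have h1 : HasDerivAt (fun x : ℝ => Real.log (x ^ 2 + M ^ 2)) (2 * x / (x ^ 2 + M ^ 2)) x :=
      h0.log (by positivity)
    have h2 := (hasDerivAt_id x).mul h1
    have h3 : HasDerivAt (fun x : ℝ => Real.arctan (x / M)) (1 / (1 + (x / M) ^ 2) * (1 / M)) x := by
      exact (Real.hasDerivAt_arctan (x / M)).comp x ((hasDerivAt_id x).div_const M)
    refine HasDerivAt.congr_deriv ((h2.sub ((hasDerivAt_id x).const_mul 2)).add (h3.const_mul (2 * M))) ?_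
    simp only [id]
    field_simp
    ring
  have hc : Continuous (fun x : ℝ => Real.log (x ^ 2 + M ^ 2)) := by
    apply Continuous.log (by fun_prop)
    intro x; positivity
  rw [intervalIntegral.integral_eq_sub_of_hasDerivAt (fun x _ => hd x) (hc.intervalIntegrable _ _)]
  simp

theorem g_deriv {m M : ℝ} (hm : 0 < m) (hM : 0 < M) (x : ℝ) :
    HasDerivAt (fun d : ℝ => Real.log ((d ^ 2 + M ^ 2) / (d ^ 2 + m ^ 2)))
      (2 * x / (x ^ 2 + M ^ 2) - 2 * x / (x ^ 2 + m ^ 2)) x := by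
  have e : (fun d : ℝ => Real.log ((d ^ 2 + M ^ 2) / (d ^ 2 + m ^ 2))) =
      fun d : ℝ => Real.log (d ^ 2 + M ^ 2) - Real.log (d ^ 2 + m ^ 2) := by
    funext d
    rw [Real.log_div (by positivity) (by positivity)]
  rw [e]
  have h0 : ∀ M : ℝ, 0 < M → HasDerivAt (fun x : ℝ => Real.log (x ^ 2 + M ^ 2))
      (2 * x / (x ^ 2 + M ^ 2)) x := by
    intro M hM
    have h0 : HasDerivAt (fun x : ℝ => x ^ 2 + M ^ 2) (2 * x) x := by
      simpa using (hasDerivAt_pow 2 x).add_const (M ^ 2)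
    exact h0.log (by positivity)
  exact (h0 M hM).sub (h0 m hm)

theorem diff_formula {m M : ℝ} (hm : 0 < m) (hM : 0 < M) (p l : ℝ) :
    (2 * (p + l) / ((p + l) ^ 2 + M ^ 2) - 2 * (p + l) / ((p + l) ^ 2 + m ^ 2)) -
    (2 * (p - l) / ((p - l) ^ 2 + M ^ 2) - 2 * (p - l) / ((p - l) ^ 2 + m ^ 2)) =
    (4 * l * (M ^ 2 - m ^ 2) / (((p + l) ^ 2 + M ^ 2) * ((p + l) ^ 2 + m ^ 2) *
      ((p - l) ^ 2 + M ^ 2) * ((p - l) ^ 2 + m ^ 2))) *
      ((p ^ 2 - l ^ 2) * (3 * p ^ 2 + l ^ 2 + m ^ 2 + M ^ 2) - m ^ 2 * M ^ 2) := by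
  have h1 : ((p + l) ^ 2 + M ^ 2) ≠ 0 := by positivity
  have h2 : ((p + l) ^ 2 + m ^ 2) ≠ 0 := by positivity
  have h3 : ((p - l) ^ 2 + M ^ 2) ≠ 0 := by positivity
  have h4 : ((p - l) ^ 2 + m ^ 2) ≠ 0 := by positivity
  field_simp
  ring

theorem diff_formula0 {m : ℝ} (hm : 0 < m) (p l : ℝ) :
    (-(2 * (p + l)) / ((p + l) ^ 2 + m ^ 2) ^ 2) -
    (-(2 * (p - l)) / ((p - l) ^ 2 + m ^ 2) ^ 2) =
    (4 * l / (((p + l) ^ 2 + m ^ 2) ^ 2 * ((p - l) ^ 2 + m ^ 2) ^ 2)) *
      ((p ^ 2 - l ^ 2) * (3 * p ^ 2 + l ^ 2 + m ^ 2 + m ^ 2) - m ^ 2 * m ^ 2) := by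
  have h2 : ((p + l) ^ 2 + m ^ 2) ≠ 0 := by positivity
  have h4 : ((p - l) ^ 2 + m ^ 2) ≠ 0 := by positivity
  field_simp
  ring

theorem psi_anti (p m M : ℝ) : ∀ a b, 0 ≤ a → a ≤ b → b ≤ p →
    (p ^ 2 - b ^ 2) * (3 * p ^ 2 + b ^ 2 + m ^ 2 + M ^ 2) - m ^ 2 * M ^ 2 ≤
    (p ^ 2 - a ^ 2) * (3 * p ^ 2 + a ^ 2 + m ^ 2 + M ^ 2) - m ^ 2 * M ^ 2 := by
  intro a b ha hab hbp
  have h1 : a ^ 2 ≤ b ^ 2 := by gcongr
  have h2 : b ^ 2 ≤ p ^ 2 := by have := ha.trans hab; gcongr
  -- difference = (b²-a²)(3p²+m²+M²+... )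
  have : ((p ^ 2 - a ^ 2) * (3 * p ^ 2 + a ^ 2 + m ^ 2 + M ^ 2)) -
      ((p ^ 2 - b ^ 2) * (3 * p ^ 2 + b ^ 2 + m ^ 2 + M ^ 2)) =
      (b ^ 2 - a ^ 2) * (2 * p ^ 2 + a ^ 2 + b ^ 2 + m ^ 2 + M ^ 2) := by ring
  have h3 : 0 ≤ (b ^ 2 - a ^ 2) * (2 * p ^ 2 + a ^ 2 + b ^ 2 + m ^ 2 + M ^ 2) :=
    mul_nonneg (by linarith) (by positivity)
  linarith

end T17

open T17

theorem t_row : S_row := by
  intro p m M hm hmM hRC hp
  have hM : 0 < M := hm.trans hmM
  have hMm : 0 < M ^ 2 - m ^ 2 := by nlinarith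
  apply mean_mono (fun d : ℝ => Real.log ((d ^ 2 + M ^ 2) / (d ^ 2 + m ^ 2)))
    (fun x => 2 * x / (x ^ 2 + M ^ 2) - 2 * x / (x ^ 2 + m ^ 2))
    (fun l => (p ^ 2 - l ^ 2) * (3 * p ^ 2 + l ^ 2 + m ^ 2 + M ^ 2) - m ^ 2 * M ^ 2)
    (g_deriv hm hM) p (psi_anti p m M)
  · intro l hl _ hpsi
    rw [diff_formula hm hM]
    exact mul_nonneg (by positivity) hpsi
  · intro l hl _ hpsi
    rw [diff_formula hm hM]
    exact mul_nonpos_of_nonneg_of_nonpos (by positivity) hpsi
  · -- the end point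
    have e : (fun d : ℝ => Real.log ((d ^ 2 + M ^ 2) / (d ^ 2 + m ^ 2))) =
        fun d : ℝ => Real.log (d ^ 2 + M ^ 2) - Real.log (d ^ 2 + m ^ 2) := by
      funext d
      rw [Real.log_div (by positivity) (by positivity)]
    have hc : ∀ M : ℝ, 0 < M → Continuous (fun x : ℝ => Real.log (x ^ 2 + M ^ 2)) := by
      intro M hM
      apply Continuous.log (by fun_prop)
      intro x; positivity
    have hint : ∫ d in (0:ℝ)..(2 * p), Real.log ((d ^ 2 + M ^ 2) / (d ^ 2 + m ^ 2)) =
        ((2 * p) * Real.log ((2 * p) ^ 2 + M ^ 2) - 2 * (2 * p) + 2 * M * Real.arctan ((2 * p) / M)) -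
        ((2 * p) * Real.log ((2 * p) ^ 2 + m ^ 2) - 2 * (2 * p) + 2 * m * Real.arctan ((2 * p) / m)) := by
      rw [e, intervalIntegral.integral_sub ((hc M hM).intervalIntegrable _ _)
        ((hc m hm).intervalIntegrable _ _), int_log _ _ hM, int_log _ _ hm]
    rw [hint]
    have hcomp : hf (2 * p / M) ≤ hf (2 * p / m) := by
      rcases hRC with h | ⟨h, h'⟩ | ⟨_, h'⟩
      · apply hf_comp (by positivity)
        · gcongr
        · left; rw [le_div_iff₀ hm]; linarith
      · apply hf_comp (by positivity)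
        · gcongr
        · right
          constructor
          · rw [le_div_iff₀ hm]; linarith
          · rw [le_div_iff₀ hM]; linarith
      · apply hf_comp'
        · rw [le_div_iff₀ hM]; linarith
        · gcongr
    have hform : ∀ M : ℝ, 0 < M → p * hf (2 * p / M) = p * Real.log ((2 * p) ^ 2 + M ^ 2) -
        p * Real.log (M ^ 2) + 2 * M * Real.arctan (2 * p / M) := by
      intro M hM
      simp only [hf]
      have : (1 + (2 * p / M) ^ 2) = ((2 * p) ^ 2 + M ^ 2) / M ^ 2 := by field_simp; ring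
      rw [this, Real.log_div (by positivity) (by positivity)]
      field_simp
      ring
    have hfin := mul_le_mul_of_nonneg_left hcomp hp.le
    rw [hform M hM, hform m hm] at hfin
    rw [Real.log_div (by positivity) (by positivity), Real.log_div (by positivity) (by positivity)]
    rw [show (0 : ℝ) ^ 2 + M ^ 2 = M ^ 2 by ring, show (0 : ℝ) ^ 2 + m ^ 2 = m ^ 2 by ring]
    linarith

theorem t_row0 : S_row0 := by
  intro p m hm hmp
  have hp : 0 < p := lt_of_lt_of_le hm hmp
  have hgd : ∀ x : ℝ, HasDerivAt (fun d : ℝ => 1 / (d ^ 2 + m ^ 2)) (-(2 * x) / (x ^ 2 + m ^ 2) ^ 2) x := by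
    intro x
    have h0 : HasDerivAt (fun x : ℝ => x ^ 2 + m ^ 2) (2 * x) x := by
      simpa using (hasDerivAt_pow 2 x).add_const (m ^ 2)
    have h1 : HasDerivAt (fun x : ℝ => (x ^ 2 + m ^ 2)⁻¹) (-(2 * x) / (x ^ 2 + m ^ 2) ^ 2) x :=
      h0.inv (by positivity : x ^ 2 + m ^ 2 ≠ 0)
    simpa only [one_div] using h1
  apply mean_mono (fun d : ℝ => 1 / (d ^ 2 + m ^ 2))
    (fun x => -(2 * x) / (x ^ 2 + m ^ 2) ^ 2)
    (fun l => (p ^ 2 - l ^ 2) * (3 * p ^ 2 + l ^ 2 + m ^ 2 + m ^ 2) - m ^ 2 * m ^ 2)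
    hgd p (psi_anti p m m)
  · intro l hl _ hpsi
    rw [diff_formula0 hm]
    exact mul_nonneg (by positivity) hpsi
  · intro l hl _ hpsi
    rw [diff_formula0 hm]
    exact mul_nonpos_of_nonneg_of_nonpos (by positivity) hpsi
  · have hd : ∀ x : ℝ, HasDerivAt (fun x : ℝ => (1 / m) * Real.arctan (x / m)) (1 / (x ^ 2 + m ^ 2)) x := by
      intro x
      have h3 : HasDerivAt (fun x : ℝ => Real.arctan (x / m)) (1 / (1 + (x / m) ^ 2) * (1 / m)) x := by
        exact (Real.hasDerivAt_arctan (x / m)).comp x ((hasDerivAt_id x).div_const m)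
      refine HasDerivAt.congr_deriv (h3.const_mul (1 / m)) ?_
      field_simp
      ring
    have hc : Continuous (fun x : ℝ => 1 / (x ^ 2 + m ^ 2)) := by
      apply Continuous.div continuous_const (by fun_prop)
      intro x; positivity
    rw [intervalIntegral.integral_eq_sub_of_hasDerivAt (fun x _ => hd x)
      (hc.intervalIntegrable _ _)]
    have hk := kf_nonneg (z := 2 * p / m) (by rw [le_div_iff₀ hm]; linarith)
    simp only [kf] at hk
    simp only [zero_div, Real.arctan_zero, mul_zero, sub_zero]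
    have hk2 : Real.arctan (2 * p / m) ≤ (2 * p / m + 2 * p / m / (1 + (2 * p / m) ^ 2)) / 2 := by
      linarith
    calc 1 / m * Real.arctan (2 * p / m) ≤
        1 / m * ((2 * p / m + 2 * p / m / (1 + (2 * p / m) ^ 2)) / 2) := by gcongr
      _ = p * (1 / ((2 * p) ^ 2 + m ^ 2) + 1 / (0 ^ 2 + m ^ 2)) := by
        field_simp
        ring


namespace T17

theorem pi_kap (x y : ℝ × ℝ) : π * kap x y = kk (dsq x y) (4 * x.2 * y.2) := by
  simp only [kap]
  field_simp

theorem kk_cont {z : ℝ} (hz : 0 ≤ z) (D : ℝ → ℝ) (hD : Continuous D) (hpos : ∀ x, 0 < D x) :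
    Continuous fun x => kk (D x) z := by
  by_cases h : z = 0
  · simp only [kk, h, if_true]
    exact continuous_const.div hD fun x => (hpos x).ne'
  · simp only [kk, h, if_false]
    apply Continuous.div_const
    apply Continuous.log
    · exact continuous_const.add (continuous_const.div hD fun x => (hpos x).ne')
    · intro x
      have : 0 ≤ z / D x := div_nonneg hz (hpos x).le
      linarith

theorem kap_cont {p : ℝ × ℝ} {y : ℝ} (hp : 0 ≤ p.2) (hy : 0 < y) (hne : p.2 ≠ y) :
    Continuous fun x : ℝ => π * kap p (x, y) := by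
  have : (fun x : ℝ => π * kap p (x, y)) = fun x : ℝ => kk (dsq p (x, y)) (4 * p.2 * y) := by
    funext x; rw [pi_kap]
  rw [this]
  apply kk_cont (by positivity)
  · simp only [dsq]; fun_prop
  · intro x
    have : 0 < (p.2 - y) ^ 2 := by
      have : p.2 - y ≠ 0 := sub_ne_zero.2 hne
      positivity
    simp only [dsq]
    positivity

theorem int_Ioo_eq (f : ℝ → ℝ) {L : ℝ} (hL : 0 ≤ L) :
    ∫ x in Ioo (-L) L, f x = ∫ x in (-L)..L, f x := by
  rw [intervalIntegral.integral_of_le (by linarith), integral_Ioc_eq_integral_Ioo]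

/-- the mean kernel as an integral in `d = p₁ - x` -/
theorem mk_eq (p : ℝ × ℝ) {L : ℝ} (hL : 0 ≤ L) (y : ℝ) (F : ℝ → ℝ)
    (hF : ∀ x, π * kap p (x, y) = F (p.1 - x)) :
    mk p L y = (1 / (2 * L)) * ∫ d in (p.1 - L)..(p.1 + L), F d := by
  simp only [mk]
  rw [int_Ioo_eq _ hL]
  simp only [hF]
  rw [intervalIntegral.integral_comp_sub_left]
  rw [sub_neg_eq_add]

end T17

theorem t_mk (hkk : S_kk) : S_mk := by
  intro p₁ p₂ L L' y y' hp₂ hpy hyy hL' hLL hLp hRC
  have hL : 0 < L := lt_of_lt_of_le hL' hLL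
  have hp₁ : 0 < p₁ := lt_of_lt_of_le hL hLp
  have hy : 0 < y := lt_of_le_of_lt hp₂ hpy
  -- monotone in `y`
  have step1 : mk (p₁, p₂) L' y' ≤ mk (p₁, p₂) L' y := by
    simp only [mk]
    apply mul_le_mul_of_nonneg_left _ (by positivity)
    rw [int_Ioo_eq _ hL'.le, int_Ioo_eq _ hL'.le]
    apply intervalIntegral.integral_mono_on (by linarith)
    · exact (kap_cont (p := (p₁, p₂)) hp₂ (by linarith) (by simp only; linarith)).intervalIntegrable _ _
    · exact (kap_cont (p := (p₁, p₂)) hp₂ hy (by simp only; linarith)).intervalIntegrable _ _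
    · intro x _
      rw [pi_kap, pi_kap]
      have hD : 0 < dsq (p₁, p₂) (x, y) := by
        simp only [dsq]
        have : 0 < (p₂ - y) ^ 2 := by
          have : p₂ - y ≠ 0 := by linarith
          positivity
        positivity
      apply ((hkk _ (4 * p₂ * y) hD (by positivity)).2.2.2.2.2.2 _ _ _ _).1
      · simp only [dsq]
        have : (p₂ - y) ^ 2 ≤ (p₂ - y') ^ 2 := by nlinarith
        linarith
      · simp only
        have : p₂ * y ≤ p₂ * y' := by gcongr
        linarith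
  refine step1.trans ?_
  rcases hp₂.lt_or_eq with hp | hp
  · -- `p₂ > 0`
    have hRC' : RC p₁ (y - p₂) (y + p₂) := by
      rcases hRC with h | ⟨h, _⟩
      · exact h
      · simp only at h; exact absurd h hp.ne'
    have hF : ∀ x, π * kap (p₁, p₂) (x, y) = (1 / (4 * p₂ * y)) *
        Real.log (((p₁ - x) ^ 2 + (y + p₂) ^ 2) / ((p₁ - x) ^ 2 + (y - p₂) ^ 2)) := by
      intro x
      rw [pi_kap]
      have hz : (4 * p₂ * y) ≠ 0 := by positivity
      simp only [kk, hz, if_false, dsq]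
      have hm : 0 < (y - p₂) ^ 2 := by
        have : y - p₂ ≠ 0 := by linarith
        positivity
      have e : 1 + 4 * p₂ * y / ((p₁ - x) ^ 2 + (p₂ - y) ^ 2) =
          ((p₁ - x) ^ 2 + (y + p₂) ^ 2) / ((p₁ - x) ^ 2 + (y - p₂) ^ 2) := by
        have e1 : (p₂ - y) ^ 2 = (y - p₂) ^ 2 := by ring
        rw [e1]
        have : (p₁ - x) ^ 2 + (y - p₂) ^ 2 ≠ 0 := by positivity
        field_simp
        ring
      rw [e]
      ring
    have key := t_row p₁ (y - p₂) (y + p₂) (by linarith) (by linarith) hRC' hp₁ L' L hL' hLL hLp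
    rw [mk_eq (p₁, p₂) hL'.le y (fun d => (1 / (4 * p₂ * y)) *
        Real.log ((d ^ 2 + (y + p₂) ^ 2) / (d ^ 2 + (y - p₂) ^ 2))) hF,
      mk_eq (p₁, p₂) hL.le y (fun d => (1 / (4 * p₂ * y)) *
        Real.log ((d ^ 2 + (y + p₂) ^ 2) / (d ^ 2 + (y - p₂) ^ 2))) hF]
    rw [intervalIntegral.integral_const_mul, intervalIntegral.integral_const_mul]
    have hc : 0 ≤ 1 / 2 * (1 / (4 * p₂ * y)) := by positivity
    have := mul_le_mul_of_nonneg_left key hc
    convert this using 1 <;> ring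
  · -- `p₂ = 0`
    subst hp
    have hyp : y ≤ p₁ := by
      rcases hRC with h | ⟨_, h⟩
      · simp only [RC, sub_zero, add_zero] at h
        rcases h with h | h | h
        · linarith
        · linarith [h.1]
        · exact absurd h.1 (lt_irrefl _)
      · exact h
    have hF : ∀ x, π * kap (p₁, 0) (x, y) = 1 / ((p₁ - x) ^ 2 + y ^ 2) := by
      intro x
      rw [pi_kap]
      simp [kk, dsq]
    have key := t_row0 p₁ y hy hyp L' L hL' hLL hLp
    rw [mk_eq (p₁, 0) hL'.le y (fun d => 1 / (d ^ 2 + y ^ 2)) hF,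
      mk_eq (p₁, 0) hL.le y (fun d => 1 / (d ^ 2 + y ^ 2)) hF]
    have := mul_le_mul_of_nonneg_left key (by norm_num : (0:ℝ) ≤ 1 / 2)
    convert this using 1 <;> ring

end SV
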