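import Pool.Agent.Helper779.SV.T17

/-!
# T18: rows above and below the vertex (`S_above`, `S_below`)
-/

open MeasureTheory Set Filter Topology
open scoped Real

namespace SV

namespace T18

open T17

theorem fi_box {L T0 T1 : ℝ} (hT0 : 0 ≤ T0) : Fi (Ioo (-L) L ×ˢ Ioo T0 T1) := by
  refine ⟨measurableSet_Ioo.prod measurableSet_Ioo, ?_, ?_⟩
  · intro z hz
    exact lt_of_le_of_lt hT0 hz.2.1
  · have hc : ContinuousOn (fun y : ℝ × ℝ => y.2) (Icc (-L) L ×ˢ Icc T0 T1) :=
      continuous_snd.continuousOn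
    exact (hc.integrableOn_compact (isCompact_Icc.prod isCompact_Icc)).mono_set
      (prod_mono Ioo_subset_Icc_self Ioo_subset_Icc_self)

theorem int_box (hint : S_int) {p : ℝ × ℝ} (hp : 0 ≤ p.2) {L T0 T1 : ℝ} (hT0 : 0 ≤ T0) :
    Integrable (fun z : ℝ × ℝ => π * kap p z * z.2)
      ((volume.restrict (Ioo (-L) L)).prod (volume.restrict (Ioo T0 T1))) := by
  rw [Measure.prod_restrict, ← Measure.volume_eq_prod]
  have := (hint _ (fi_box (L := L) (T1 := T1) hT0) p hp).const_mul π
  simpa only [mul_assoc] using this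

theorem int_box2 {L T0 T1 : ℝ} (a b : ℝ) :
    Integrable (fun z : ℝ × ℝ => a * z.2 + b)
      ((volume.restrict (Ioo (-L) L)).prod (volume.restrict (Ioo T0 T1))) := by
  rw [Measure.prod_restrict, ← Measure.volume_eq_prod]
  have hc : ContinuousOn (fun y : ℝ × ℝ => a * y.2 + b) (Icc (-L) L ×ˢ Icc T0 T1) := by
    fun_prop
  exact (hc.integrableOn_compact (isCompact_Icc.prod isCompact_Icc)).mono_set
    (prod_mono Ioo_subset_Icc_self Ioo_subset_Icc_self)

theorem intF (hint : S_int) {p : ℝ × ℝ} (hp : 0 ≤ p.2) {L T0 T1 : ℝ} (hT0 : 0 ≤ T0)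
    (lam η : ℝ) :
    Integrable (fun z : ℝ × ℝ => π * kap p z * z.2 - lam * z.2 - π * η)
      ((volume.restrict (Ioo (-L) L)).prod (volume.restrict (Ioo T0 T1))) := by
  have h1 := int_box hint hp (L := L) (T1 := T1) hT0
  have h2 := int_box2 (L := L) (T0 := T0) (T1 := T1) (-lam) (-(π * η))
  have := h1.add h2
  refine this.congr ?_
  filter_upwards with z
  simp only [Pi.add_apply]
  ring

theorem int_pot (hint : S_int) {p : ℝ × ℝ} (hp : 0 ≤ p.2) {L T0 T1 : ℝ} (hT0 : 0 ≤ T0) :
    IntegrableOn (fun y : ℝ => ∫ x in Ioo (-L) L, π * kap p (x, y) * y) (Ioo T0 T1) :=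
  (int_box hint hp hT0).integral_prod_right

theorem int_id {T0 T1 : ℝ} (hT : T0 ≤ T1) (a b : ℝ) :
    IntegrableOn (fun y : ℝ => a * y + b) (Ioo T0 T1) ∧
    ∫ y in Ioo T0 T1, (a * y + b) = a * (T1 ^ 2 - T0 ^ 2) / 2 + b * (T1 - T0) := by
  have hc : Continuous (fun y : ℝ => a * y + b) := by fun_prop
  constructor
  · exact (hc.continuousOn.integrableOn_compact isCompact_Icc).mono_set Ioo_subset_Icc_self
  · rw [← integral_Ioc_eq_integral_Ioo, ← intervalIntegral.integral_of_le hT]
    rw [intervalIntegral.integral_add (by apply Continuous.intervalIntegrable; fun_prop)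
      (by apply Continuous.intervalIntegrable; fun_prop)]
    rw [intervalIntegral.integral_const_mul, integral_id]
    simp
    ring

theorem inner_eq {p : ℝ × ℝ} (hp : 0 ≤ p.2) {y : ℝ} (hy : 0 < y) (hne : p.2 ≠ y) {l : ℝ}
    (hl : 0 ≤ l) (lam η : ℝ) :
    ∫ x in Ioo (-l) l, (π * kap p (x, y) * y - lam * y - π * η) =
      (∫ x in Ioo (-l) l, π * kap p (x, y)) * y - 2 * l * (lam * y + π * η) := by
  have hc := kap_cont hp hy hne
  rw [int_Ioo_eq _ hl, int_Ioo_eq _ hl]
  have e : (fun x => π * kap p (x, y) * y - lam * y - π * η) =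
      fun x => π * kap p (x, y) * y - (lam * y + π * η) := by funext x; ring
  have hi : IntervalIntegrable (fun x => π * kap p (x, y) * y) volume (-l) l :=
    (hc.mul continuous_const).intervalIntegrable _ _
  rw [e, intervalIntegral.integral_sub hi (continuous_const.intervalIntegrable _ _),
    intervalIntegral.integral_mul_const]
  simp
  ring

theorem mk_spec {p : ℝ × ℝ} {l : ℝ} (hl : 0 < l) (y : ℝ) :
    ∫ x in Ioo (-l) l, π * kap p (x, y) = 2 * l * mk p l y := by
  simp only [mk]
  field_simp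

theorem RC2_mono {p : ℝ × ℝ} {y y' : ℝ} (h : RC2 p y') (hyy : y ≤ y') : RC2 p y := by
  rcases h with h | ⟨h, h'⟩
  · left
    rcases h with h | ⟨h, h'⟩ | ⟨h, h'⟩
    · left; linarith
    · right; left; constructor <;> linarith
    · right; right; constructor <;> linarith
  · right; exact ⟨h, hyy.trans h'⟩

/-- integral comparison without integrability of the smaller function -/
theorem int_le {f g : ℝ → ℝ} {T0 T1 : ℝ} (hg : IntegrableOn g (Ioo T0 T1))
    (h0 : ∀ y, T0 < y → y < T1 → 0 ≤ g y) (h : ∀ y, T0 < y → y < T1 → f y ≤ g y) :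
    ∫ y in Ioo T0 T1, f y ≤ ∫ y in Ioo T0 T1, g y := by
  by_cases hf : IntegrableOn f (Ioo T0 T1)
  · exact setIntegral_mono_on hf hg measurableSet_Ioo (fun y hy => h y hy.1 hy.2)
  · rw [integral_undef hf]
    exact setIntegral_nonneg measurableSet_Ioo (fun y hy => h0 y hy.1 hy.2)

end T18

open T17 T18

theorem t_above (hint : S_int) (hmk : S_mk) : S_above := by
  intro p₁ p₂ L T0 T1 lam η r hp₂ hpT hT hL hLp hlam hη hRC hcase l hl hlb
  have hT0 : 0 ≤ T0 := hp₂.trans hpT
  -- pointwise bound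
  have hpt : ∀ y, T0 < y → y < T1 →
      ∫ x in Ioo (-(l y)) (l y), (π * kap (p₁, p₂) (x, y) * y - lam * y - π * η) ≤
        2 * L * max 0 ((mk (p₁, p₂) L y - lam) * y - π * η) := by
    intro y hy0 hy1
    have hy : 0 < y := lt_of_le_of_lt hT0 hy0
    have hne : p₂ ≠ y := by intro h; linarith
    obtain ⟨h0, h1⟩ := hlb y hy0 hy1
    rcases h0.lt_or_eq with h0 | h0
    · rw [inner_eq (p := (p₁, p₂)) hp₂ hy hne h0.le, mk_spec h0]
      have hm := hmk p₁ p₂ L (l y) y y hp₂ (by linarith) le_rfl h0 h1 hLp (RC2_mono hRC hy1.le)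
      have e : 2 * l y * mk (p₁, p₂) (l y) y * y - 2 * l y * (lam * y + π * η) =
          2 * l y * ((mk (p₁, p₂) (l y) y - lam) * y - π * η) := by ring
      rw [e]
      have h2 : (mk (p₁, p₂) (l y) y - lam) * y - π * η ≤
          max 0 ((mk (p₁, p₂) L y - lam) * y - π * η) := by
        refine le_trans ?_ (le_max_right _ _)
        have := mul_le_mul_of_nonneg_right hm hy.le
        linarith
      have h3 : 0 ≤ max 0 ((mk (p₁, p₂) L y - lam) * y - π * η) := le_max_left _ _
      calc 2 * l y * ((mk (p₁, p₂) (l y) y - lam) * y - π * η)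
          ≤ 2 * l y * max 0 ((mk (p₁, p₂) L y - lam) * y - π * η) := by
            apply mul_le_mul_of_nonneg_left h2 (by positivity)
        _ ≤ 2 * L * max 0 ((mk (p₁, p₂) L y - lam) * y - π * η) := by
            apply mul_le_mul_of_nonneg_right _ h3
            linarith
    · rw [← h0]
      simp only [neg_zero, Ioo_self, Measure.restrict_empty, integral_zero_measure]
      exact mul_nonneg (by positivity) (le_max_left _ _)
  rcases hcase with ⟨E1, E0, hE1, hE0, hX, hr⟩ | ⟨gh, hgh, hX, hr⟩
  · refine le_trans ?_ hr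
    set g : ℝ → ℝ := fun y => (∫ x in Ioo (-L) L, π * kap (p₁, p₂) (x, y) * y) +
      ((2 * L * (E1 - lam)) * y + 2 * L * (E0 - π * η)) with hg
    have hgi1 := int_pot hint (p := (p₁, p₂)) hp₂ (L := L) (T1 := T1) hT0
    have hgi2 := int_id hT.le (2 * L * (E1 - lam)) (2 * L * (E0 - π * η))
    have hgi : IntegrableOn g (Ioo T0 T1) := hgi1.add hgi2.1
    have hgv : ∫ y in Ioo T0 T1, g y = rpot (p₁, p₂) L T0 T1 - lam * (L * (T1 ^ 2 - T0 ^ 2)) -
        2 * π * η * L * (T1 - T0) + L * (E1 * (T1 ^ 2 - T0 ^ 2) + 2 * E0 * (T1 - T0)) := by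
      rw [hg, integral_add hgi1 hgi2.1, hgi2.2, rpot]
      ring
    rw [← hgv]
    have hge : ∀ y, T0 < y → y < T1 → g y = 2 * L * (((mk (p₁, p₂) L y - lam) * y - π * η) +
        (E1 * y + E0)) := by
      intro y hy0 hy1
      simp only [hg]
      rw [integral_mul_const, mk_spec hL]
      ring
    apply int_le hgi
    · intro y hy0 hy1
      rw [hge y hy0 hy1]
      have := hX y hy0 hy1
      apply mul_nonneg (by positivity)
      linarith
    · intro y hy0 hy1
      refine (hpt y hy0 hy1).trans ?_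
      rw [hge y hy0 hy1]
      apply mul_le_mul_of_nonneg_left _ (by positivity)
      have hy : 0 < y := lt_of_le_of_lt hT0 hy0
      have h1 := hX y hy0 hy1
      have h2 : 0 ≤ E1 * y := by positivity
      apply max_le <;> linarith
  · refine le_trans ?_ hr
    have hgi2 := int_id hT.le (2 * L * gh) 0
    have hgv : ∫ y in Ioo T0 T1, (2 * L * gh * y + 0) = gh * (L * (T1 ^ 2 - T0 ^ 2)) := by
      rw [hgi2.2]; ring
    rw [← hgv]
    apply int_le hgi2.1
    · intro y hy0 hy1
      have hy : 0 < y := lt_of_le_of_lt hT0 hy0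
      positivity
    · intro y hy0 hy1
      have hy : 0 < y := lt_of_le_of_lt hT0 hy0
      refine (hpt y hy0 hy1).trans ?_
      have e : 2 * L * gh * y + 0 = 2 * L * (gh * y) := by ring
      rw [e]
      apply mul_le_mul_of_nonneg_left _ (by positivity)
      apply max_le (by positivity)
      have := mul_le_mul_of_nonneg_right (hX y hy0 hy1) hy.le
      have e2 : (mk (p₁, p₂) L y - lam - π * η / y) * y =
          (mk (p₁, p₂) L y - lam) * y - π * η := by field_simp
      rw [e2] at this
      exact this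

namespace T18

theorem inner_int (hint : S_int) {p : ℝ × ℝ} (hp : 0 ≤ p.2) {L T0 T1 : ℝ} (hT0 : 0 ≤ T0)
    (lam η : ℝ) {l : ℝ → ℝ} (hl : Measurable l)
    (hlb : ∀ y, T0 < y → y < T1 → l y ≤ L) :
    IntegrableOn (fun y : ℝ => ∫ x in Ioo (-(l y)) (l y), (π * kap p (x, y) * y - lam * y - π * η))
      (Ioo T0 T1) := by
  set R : Set (ℝ × ℝ) := {z | -(l z.2) < z.1 ∧ z.1 < l z.2} with hR
  have hRm : MeasurableSet R := by
    apply MeasurableSet.inter
    · exact measurableSet_lt (hl.comp measurable_snd).neg measurable_fst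
    · exact measurableSet_lt measurable_fst (hl.comp measurable_snd)
  have h1 := (intF hint hp (L := L) (T1 := T1) hT0 lam η).indicator hRm
  have h2 := h1.integral_prod_right
  refine h2.congr ?_
  filter_upwards [ae_restrict_mem measurableSet_Ioo] with y hy
  have hly := hlb y hy.1 hy.2
  have e : (fun x => R.indicator (fun z : ℝ × ℝ => π * kap p z * z.2 - lam * z.2 - π * η) (x, y)) =
      (Ioo (-(l y)) (l y)).indicator (fun x => π * kap p (x, y) * y - lam * y - π * η) := by
    funext x
    by_cases hx : x ∈ Ioo (-(l y)) (l y)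
    · rw [indicator_of_mem hx, indicator_of_mem (show (x, y) ∈ R from hx)]
    · rw [indicator_of_notMem hx, indicator_of_notMem (show (x, y) ∉ R from hx)]
  rw [e, setIntegral_indicator measurableSet_Ioo]
  congr 2
  apply inter_eq_right.2
  intro x hx
  exact ⟨by linarith [hx.1], by linarith [hx.2]⟩

theorem kaps_anti (hkk : S_kk) {p : ℝ × ℝ} (hp1 : 0 ≤ p.1) (hp : 0 ≤ p.2) {y : ℝ} (hy : 0 < y)
    (hne : p.2 ≠ y) {x x' : ℝ} (hx : p.1 ≤ x) (hxx : x ≤ x') :
    π * kaps p (x', y) ≤ π * kaps p (x, y) := by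
  have hpos : ∀ x : ℝ, 0 < dsq p (x, y) := by
    intro x
    simp only [dsq]
    have : 0 < (p.2 - y) ^ 2 := by
      have : p.2 - y ≠ 0 := sub_ne_zero.2 hne
      positivity
    positivity
  have h1 : π * kap p (x', y) ≤ π * kap p (x, y) := by
    rw [pi_kap, pi_kap]
    apply ((hkk _ (4 * p.2 * y) (hpos x) (by positivity)).2.2.2.2.2.2 _ _ _ le_rfl).1
    simp only [dsq]
    nlinarith
  have h2 : π * kap p (-x', y) ≤ π * kap p (-x, y) := by
    rw [pi_kap, pi_kap]
    apply ((hkk _ (4 * p.2 * y) (hpos (-x)) (by positivity)).2.2.2.2.2.2 _ _ _ le_rfl).1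
    simp only [dsq]
    nlinarith
  simp only [kaps]
  linarith

/-- folding to the half line -/
theorem fold {p : ℝ × ℝ} (hp : 0 ≤ p.2) {y : ℝ} (hy : 0 < y) (hne : p.2 ≠ y) {l : ℝ} (hl : 0 ≤ l)
    (lam η : ℝ) :
    ∫ x in Ioo (-l) l, (π * kap p (x, y) * y - lam * y - π * η) =
      2 * ∫ x in (0:ℝ)..l, (π * kaps p (x, y) * y - lam * y - π * η) := by
  have hc := kap_cont hp hy hne
  have hc' : Continuous fun x : ℝ => π * kap p (-x, y) := hc.comp continuous_neg
  set F : ℝ → ℝ := fun x => π * kap p (x, y) * y - lam * y - π * η with hF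
  have hFc : Continuous F := ((hc.mul continuous_const).sub continuous_const).sub continuous_const
  have hFc' : Continuous (fun x => F (-x)) := hFc.comp continuous_neg
  rw [int_Ioo_eq _ hl]
  have h1 : ∫ x in (-l)..l, F x = (∫ x in (-l)..0, F x) + ∫ x in (0:ℝ)..l, F x :=
    (intervalIntegral.integral_add_adjacent_intervals (hFc.intervalIntegrable _ _)
      (hFc.intervalIntegrable _ _)).symm
  have h2 : ∫ x in (-l)..0, F x = ∫ x in (0:ℝ)..l, F (-x) := by
    rw [intervalIntegral.integral_comp_neg]; simp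
  rw [h1, h2, ← intervalIntegral.integral_add (hFc'.intervalIntegrable _ _)
    (hFc.intervalIntegrable _ _), ← intervalIntegral.integral_const_mul]
  congr 1
  funext x
  simp only [hF, kaps]
  ring

theorem kaps_cont {p : ℝ × ℝ} (hp : 0 ≤ p.2) {y : ℝ} (hy : 0 < y) (hne : p.2 ≠ y) :
    Continuous fun x : ℝ => π * kaps p (x, y) := by
  have hc := kap_cont hp hy hne
  have hc' : Continuous fun x : ℝ => π * kap p (-x, y) := hc.comp continuous_neg
  have := (hc.add hc').div_const 2
  convert this using 1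
  funext x
  simp only [kaps, Pi.add_apply]
  ring

end T18

theorem t_below (hint : S_int) (hkk : S_kk) : S_below := by
  intro p₁ p₂ L L' lb T0 T1 lam η kl E1 E0 r hp₁ hT0 hT hTp hL' hpL hLL hplb hlbL hlam hη
    h1 h2 h3 h4 hE1 hE0 hr l hl hlb
  have hp₂ : 0 ≤ p₂ := by linarith
  refine le_trans ?_ hr
  set g : ℝ → ℝ := fun y => (∫ x in Ioo (-L') L', π * kap (p₁, p₂) (x, y) * y) +
      ((-(2 * L' * lam) + 2 * (L' - lb) * E1) * y + (-(2 * L' * π * η) + 2 * (L' - lb) * E0)) with hg
  have hgi1 := int_pot hint (p := (p₁, p₂)) hp₂ (L := L') (T1 := T1) hT0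
  have hgi2 := int_id hT.le (-(2 * L' * lam) + 2 * (L' - lb) * E1)
    (-(2 * L' * π * η) + 2 * (L' - lb) * E0)
  have hgi : IntegrableOn g (Ioo T0 T1) := hgi1.add hgi2.1
  have hgv : ∫ y in Ioo T0 T1, g y = rpot (p₁, p₂) L' T0 T1 - lam * (L' * (T1 ^ 2 - T0 ^ 2)) -
      2 * π * η * L' * (T1 - T0) + (L' - lb) * (E1 * (T1 ^ 2 - T0 ^ 2) + 2 * E0 * (T1 - T0)) := by
    rw [hg, integral_add hgi1 hgi2.1, hgi2.2, rpot]
    ring
  rw [← hgv]
  apply setIntegral_mono_on (inner_int hint (p := (p₁, p₂)) hp₂ hT0 lam η hl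
    (fun y hy0 hy1 => (hlb y hy0 hy1).2)) hgi measurableSet_Ioo
  intro y hy
  obtain ⟨hy0, hy1⟩ := hy
  obtain ⟨hl0, hl1⟩ := hlb y hy0 hy1
  have hy : 0 < y := lt_of_le_of_lt hT0 hy0
  have hne : p₂ ≠ y := by intro h; linarith
  have hln : 0 ≤ l y := hp₁.trans hl0
  set ψ : ℝ → ℝ := fun x => π * kaps (p₁, p₂) (x, y) * y - lam * y - π * η with hψ
  have hψc : Continuous ψ :=
    (((kaps_cont (p := (p₁, p₂)) hp₂ hy hne).mul continuous_const).sub continuous_const).sub
      continuous_const
  have hψi : ∀ a b, IntervalIntegrable ψ volume a b := fun a b => hψc.intervalIntegrable a b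
  -- the value of `g`
  have hgy : g y = 2 * (∫ x in (0:ℝ)..L', ψ x) + 2 * (L' - lb) * (E1 * y + E0) := by
    have hf := fold (p := (p₁, p₂)) hp₂ hy hne hL'.le lam η
    have hi := inner_eq (p := (p₁, p₂)) hp₂ hy hne hL'.le lam η
    rw [← hf, hi]
    simp only [hg]
    rw [integral_mul_const]
    ring
  rw [hgy, fold (p := (p₁, p₂)) hp₂ hy hne hln lam η]
  have hEn : 0 ≤ E1 * y + E0 := by positivity
  rcases le_total L' (l y) with hc | hc
  · have e : (∫ x in (0:ℝ)..(l y), ψ x) = (∫ x in (0:ℝ)..L', ψ x) + ∫ x in L'..(l y), ψ x :=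
      (intervalIntegral.integral_add_adjacent_intervals (hψi _ _) (hψi _ _)).symm
    have hneg : ∫ x in L'..(l y), ψ x ≤ 0 := by
      have : ∫ x in L'..(l y), ψ x ≤ ∫ x in L'..(l y), (0:ℝ) := by
        apply intervalIntegral.integral_mono_on_of_le_Ioo hc (hψi _ _)
          (continuous_const.intervalIntegrable _ _)
        intro x hx
        have := mul_le_mul_of_nonneg_right (h1 x y hx.1 (lt_of_lt_of_le hx.2 hl1) hy0 hy1) hy.le
        have e2 : (lam + π * η / y) * y = lam * y + π * η := by field_simp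
        rw [e2] at this
        simp only [hψ]
        linarith
      simpa using this
    have h5 : 0 ≤ (L' - lb) * (E1 * y + E0) := mul_nonneg (by linarith) hEn
    rw [e]
    linarith
  · have e : (∫ x in (0:ℝ)..(l y), ψ x) = (∫ x in (0:ℝ)..L', ψ x) - ∫ x in (l y)..L', ψ x := by
      rw [← intervalIntegral.integral_add_adjacent_intervals (hψi 0 (l y)) (hψi (l y) L')]
      ring
    set c := max (l y) lb with hcdef
    have hlc : l y ≤ c := le_max_left _ _
    have hcL : c ≤ L' := max_le hc hlbL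
    have hlbc : lb ≤ c := le_max_right _ _
    have e2 : (∫ x in (l y)..L', ψ x) = (∫ x in (l y)..c, ψ x) + ∫ x in c..L', ψ x :=
      (intervalIntegral.integral_add_adjacent_intervals (hψi _ _) (hψi _ _)).symm
    have hfirst : 0 ≤ ∫ x in (l y)..c, ψ x := by
      rcases le_total lb (l y) with h | h
      · have : c = l y := max_eq_left h
        rw [this]; simp
      · have hcl : c = lb := max_eq_right h
        rcases h.lt_or_eq with hlt | heq
        · rw [hcl]
          have hlbne : lb ≠ p₁ := by intro h'; linarith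
          have h3' := (h3.resolve_left hlbne) y hy0 hy1
          have : ∫ x in (l y)..lb, (0:ℝ) ≤ ∫ x in (l y)..lb, ψ x := by
            apply intervalIntegral.integral_mono_on h (continuous_const.intervalIntegrable _ _)
              (hψi _ _)
            intro x hx
            have h6 := kaps_anti hkk (p := (p₁, p₂)) hp₁ hp₂ hy hne (hl0.trans hx.1) hx.2
            have := mul_le_mul_of_nonneg_right (h3'.trans h6) hy.le
            have e2 : (lam + π * η / y) * y = lam * y + π * η := by field_simp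
            rw [e2] at this
            simp only [hψ]
            linarith
          simpa using this
        · rw [hcl, ← heq]; simp
    have hsecond : -((L' - lb) * (E1 * y + E0)) ≤ ∫ x in c..L', ψ x := by
      rcases hcL.lt_or_eq with hlt | heq
      · have hlbL' : lb < L' := lt_of_le_of_lt hlbc hlt
        have hkl := h2 y hy0 hy1 hlbL'
        have h4' := h4 y hy0 hy1
        have : ∫ x in c..L', (-(E1 * y + E0)) ≤ ∫ x in c..L', ψ x := by
          apply intervalIntegral.integral_mono_on hcL (continuous_const.intervalIntegrable _ _)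
            (hψi _ _)
          intro x hx
          have h6 := kaps_anti hkk (p := (p₁, p₂)) hp₁ hp₂ hy hne ((hl0.trans hlc).trans hx.1) hx.2
          have := mul_le_mul_of_nonneg_right (hkl.trans h6) hy.le
          have e2 : (lam + π * η / y - kl) * y = lam * y + π * η - kl * y := by field_simp
          rw [e2] at h4'
          simp only [hψ]
          linarith
        rw [intervalIntegral.integral_const, smul_eq_mul] at this
        have h7 : (L' - c) * (E1 * y + E0) ≤ (L' - lb) * (E1 * y + E0) :=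
          mul_le_mul_of_nonneg_right (by linarith) hEn
        linarith
      · rw [heq]
        simp only [intervalIntegral.integral_same]
        have h5 : 0 ≤ (L' - lb) * (E1 * y + E0) := mul_nonneg (by linarith) hEn
        linarith
    rw [e, e2]
    linarith

end SV
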