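import Pool.Agent.Helper779.SV.T18

/-!
# T19: pixel potentials (`S_cell`, `S_rpot`, `S_rpot0`)
-/

open MeasureTheory Set Filter Topology
open scoped Real

namespace SV

namespace T19

open T17 T18

/-- the unit square -/
def Q : Set (ℝ × ℝ) := Icc (-1) 1 ×ˢ Icc (-1) 1

/-- the cell with centre `(X,Y)` -/
def Ce (X Y : ℝ) : Set (ℝ × ℝ) := Icc (X - 1) (X + 1) ×ˢ Icc (Y - 1) (Y + 1)

/-- rotation by a right angle -/
def rot : (ℝ × ℝ) ≃ᵐ (ℝ × ℝ) where
  toFun z := (-z.2, z.1)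
  invFun z := (z.2, -z.1)
  left_inv z := by simp
  right_inv z := by simp
  measurable_toFun := by
    show Measurable (fun z : ℝ × ℝ => (-z.2, z.1))
    fun_prop
  measurable_invFun := by
    show Measurable (fun z : ℝ × ℝ => (z.2, -z.1))
    fun_prop

theorem rot_apply (z : ℝ × ℝ) : rot z = (-z.2, z.1) := rfl

theorem rot_mp : MeasurePreserving rot (volume : Measure (ℝ × ℝ)) volume := by
  have h1 : MeasurePreserving (Prod.swap : ℝ × ℝ → ℝ × ℝ) volume volume :=
    Measure.measurePreserving_swap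
  have h2 : MeasurePreserving (Prod.map (fun x : ℝ => -x) (id : ℝ → ℝ)) (volume : Measure (ℝ × ℝ))
      volume :=
    (Measure.measurePreserving_neg (volume : Measure ℝ)).prod (MeasurePreserving.id _)
  exact h2.comp h1

theorem rot_Q : rot ⁻¹' Q = Q := by
  ext z
  simp only [Q, mem_preimage, rot_apply, mem_prod, mem_Icc]
  constructor
  · rintro ⟨⟨a, b⟩, c, d⟩; exact ⟨⟨c, d⟩, by linarith, by linarith⟩
  · rintro ⟨⟨a, b⟩, c, d⟩; exact ⟨⟨by linarith, by linarith⟩, a, b⟩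

theorem int_rot (f : ℝ × ℝ → ℝ) : ∫ z in Q, f (rot z) = ∫ z in Q, f z := by
  have := rot_mp.setIntegral_preimage_emb rot.measurableEmbedding f Q
  rwa [rot_Q] at this

theorem integrable_rot {f : ℝ × ℝ → ℝ} (hf : IntegrableOn f Q) :
    IntegrableOn (fun z => f (rot z)) Q := by
  have := (rot_mp.integrableOn_comp_preimage rot.measurableEmbedding (f := f) (s := Q)).2 hf
  rwa [rot_Q] at this

theorem vol_Q : (volume : Measure (ℝ × ℝ)).real Q = 4 := by
  rw [Q, Measure.volume_eq_prod, measureReal_prod_prod]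
  simp
  norm_num

theorem vol_Q_ne : (volume : Measure (ℝ × ℝ)) Q ≠ ⊤ := by
  have : IsCompact Q := isCompact_Icc.prod isCompact_Icc
  exact this.measure_lt_top.ne

theorem meas_Q : MeasurableSet Q := measurableSet_Icc.prod measurableSet_Icc

/-- averaging over the four rotations -/
theorem avg {f : ℝ × ℝ → ℝ} (hf : IntegrableOn f Q) (lo hi : ℝ)
    (h : ∀ z ∈ Q, lo ≤ f z + f (rot z) + f (rot (rot z)) + f (rot (rot (rot z))) ∧
      f z + f (rot z) + f (rot (rot z)) + f (rot (rot (rot z))) ≤ hi) :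
    lo ≤ ∫ z in Q, f z ∧ ∫ z in Q, f z ≤ hi := by
  have h1 := integrable_rot hf
  have h2 := integrable_rot h1
  have h3 := integrable_rot h2
  have hs : ∫ z in Q, (f z + f (rot z) + f (rot (rot z)) + f (rot (rot (rot z)))) =
      4 * ∫ z in Q, f z := by
    have i1 : IntegrableOn (fun z => f z + f (rot z)) Q := hf.add h1
    have i2 : IntegrableOn (fun z => f z + f (rot z) + f (rot (rot z))) Q := i1.add h2
    rw [integral_add i2 h3, integral_add i1 h2, integral_add hf h1]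
    rw [int_rot (fun z => f (rot (rot z))), int_rot (fun z => f (rot z)), int_rot f]
    ring
  have hI : IntegrableOn (fun z => f z + f (rot z) + f (rot (rot z)) + f (rot (rot (rot z)))) Q :=
    ((hf.add h1).add h2).add h3
  have hc : ∀ c : ℝ, ∫ _z in Q, c = 4 * c := by
    intro c
    rw [setIntegral_const, vol_Q, smul_eq_mul]
  have hci : ∀ c : ℝ, IntegrableOn (fun _ : ℝ × ℝ => c) Q := fun c =>
    integrableOn_const vol_Q_ne
  constructor
  · have := setIntegral_mono_on (hci lo) hI meas_Q (fun z hz => (h z hz).1)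
    rw [hc, hs] at this
    linarith
  · have := setIntegral_mono_on hI (hci hi) meas_Q (fun z hz => (h z hz).2)
    rw [hc, hs] at this
    linarith

theorem trans_Q (X Y : ℝ) (g : ℝ × ℝ → ℝ) :
    ∫ z in Ce X Y, g z = ∫ z in Q, g (X + z.1, Y + z.2) ∧
    (IntegrableOn (fun z : ℝ × ℝ => g (X + z.1, Y + z.2)) Q → IntegrableOn g (Ce X Y)) := by
  have hmp := measurePreserving_add_left (volume : Measure (ℝ × ℝ)) ((X, Y) : ℝ × ℝ)
  have hemb := (MeasurableEquiv.addLeft ((X, Y) : ℝ × ℝ)).measurableEmbedding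
  have hpre : (fun z : ℝ × ℝ => (X, Y) + z) ⁻¹' Ce X Y = Q := by
    ext z
    simp only [Ce, Q, mem_preimage, mem_prod, mem_Icc, Prod.fst_add, Prod.snd_add]
    constructor
    · rintro ⟨⟨a, b⟩, c, d⟩; exact ⟨⟨by linarith, by linarith⟩, by linarith, by linarith⟩
    · rintro ⟨⟨a, b⟩, c, d⟩; exact ⟨⟨by linarith, by linarith⟩, by linarith, by linarith⟩
  constructor
  · have := hmp.setIntegral_preimage_emb hemb g (Ce X Y)
    rw [hpre] at this
    exact this.symm
  · intro h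
    apply (hmp.integrableOn_comp_preimage hemb (f := g) (s := Ce X Y)).1
    rw [hpre]
    exact h

/-! ### integrability of the logarithm -/

theorem log_bound (x y : ℝ) :
    |Real.log (x ^ 2 + y ^ 2)| ≤ (x ^ 2 + y ^ 2) + 2 * |Real.log x| + 2 * |Real.log y| := by
  have hx := abs_nonneg (Real.log x)
  have hy := abs_nonneg (Real.log y)
  have ht : 0 ≤ x ^ 2 + y ^ 2 := by positivity
  rcases ht.lt_or_eq with ht0 | ht0
  · rcases le_total 1 (x ^ 2 + y ^ 2) with h1 | h1
    · rw [abs_of_nonneg (Real.log_nonneg h1)]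
      have := Real.log_le_sub_one_of_pos ht0
      linarith
    · rw [abs_of_nonpos (Real.log_nonpos ht h1)]
      by_cases hx0 : x = 0
      · subst hx0
        have : Real.log (0 ^ 2 + y ^ 2) = 2 * Real.log y := by
          rw [show (0:ℝ) ^ 2 + y ^ 2 = y ^ 2 by ring, Real.log_pow]; norm_num
        rw [this]
        have h2 := neg_abs_le (Real.log y)
        linarith
      · have h3 : Real.log (x ^ 2) ≤ Real.log (x ^ 2 + y ^ 2) := by
          apply Real.log_le_log (by positivity)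
          nlinarith [sq_nonneg y]
        rw [Real.log_pow] at h3
        have h2 := neg_abs_le (Real.log x)
        norm_num at h3
        linarith
  · rw [← ht0]
    simp
    positivity

theorem log_int (a b c d : ℝ) :
    IntegrableOn (fun z : ℝ × ℝ => Real.log (z.1 ^ 2 + z.2 ^ 2)) (Icc a b ×ˢ Icc c d) := by
  have hlog : ∀ a b : ℝ, IntegrableOn (fun x : ℝ => 2 * |Real.log x|) (Icc a b) := by
    intro a b
    rcases le_or_gt a b with hab | hab
    · have h1 : IntervalIntegrable Real.log volume a b := intervalIntegral.intervalIntegrable_log'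
      rw [intervalIntegrable_iff_integrableOn_Icc_of_le hab] at h1
      exact h1.abs.const_mul 2
    · rw [Icc_eq_empty (not_le.2 hab)]
      exact integrableOn_empty
  have hm : AEStronglyMeasurable (fun z : ℝ × ℝ => Real.log (z.1 ^ 2 + z.2 ^ 2))
      (volume.restrict (Icc a b ×ˢ Icc c d)) := by
    apply Measurable.aestronglyMeasurable
    fun_prop
  have hd : IntegrableOn (fun z : ℝ × ℝ => (z.1 ^ 2 + z.2 ^ 2) + 2 * |Real.log z.1| +
      2 * |Real.log z.2|) (Icc a b ×ˢ Icc c d) := by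
    apply Integrable.add
    · apply Integrable.add
      · have hc : Continuous (fun z : ℝ × ℝ => z.1 ^ 2 + z.2 ^ 2) := by fun_prop
        exact hc.continuousOn.integrableOn_compact (isCompact_Icc.prod isCompact_Icc)
      · rw [Measure.volume_eq_prod, ← Measure.prod_restrict]
        exact (hlog a b).comp_fst (ν := volume.restrict (Icc c d))
    · rw [Measure.volume_eq_prod, ← Measure.prod_restrict]
      exact (hlog c d).comp_snd (μ := volume.restrict (Icc a b))
  refine Integrable.mono' hd hm ?_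
  filter_upwards with z
  rw [Real.norm_eq_abs]
  exact log_bound z.1 z.2

/-! ### closed form in a rectangle with corner at the origin -/

theorem corner {a b : ℝ} (ha : 0 < a) (hb : 0 < b) :
    ∫ z in Icc 0 a ×ˢ Icc 0 b, Real.log (z.1 ^ 2 + z.2 ^ 2) =
      a * b * Real.log (a ^ 2 + b ^ 2) - 3 * a * b + b ^ 2 * Real.arctan (a / b) +
        a ^ 2 * (π / 2 - Real.arctan (a / b)) := by
  have hI := log_int 0 a 0 b
  rw [Measure.volume_eq_prod] at hI ⊢
  rw [setIntegral_prod _ hI]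
  simp only
  have h1 : ∀ x : ℝ, 0 < x → ∫ y in Icc 0 b, Real.log (x ^ 2 + y ^ 2) =
      b * Real.log (x ^ 2 + b ^ 2) - 2 * b + 2 * x * (π / 2 - Real.arctan (x / b)) := by
    intro x hx
    rw [integral_Icc_eq_integral_Ioc, ← intervalIntegral.integral_of_le hb.le]
    have := int_log b x hx
    have e : (fun y : ℝ => Real.log (x ^ 2 + y ^ 2)) = fun y : ℝ => Real.log (y ^ 2 + x ^ 2) := by
      funext y; rw [add_comm]
    rw [e, this, arctan_pos_inv (div_pos hb hx), one_div_div, add_comm (b ^ 2)]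
  rw [integral_Icc_eq_integral_Ioc]
  rw [setIntegral_congr_fun measurableSet_Ioc (fun x hx => h1 x hx.1)]
  rw [← intervalIntegral.integral_of_le ha.le]
  have hd : ∀ x : ℝ, HasDerivAt (fun x : ℝ => b * (x * Real.log (x ^ 2 + b ^ 2) - 2 * x +
      2 * b * Real.arctan (x / b)) - 2 * b * x + x ^ 2 * (π / 2 - Real.arctan (x / b)) + b * x -
      b ^ 2 * Real.arctan (x / b))
      (b * Real.log (x ^ 2 + b ^ 2) - 2 * b + 2 * x * (π / 2 - Real.arctan (x / b))) x := by
    intro x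
    have h0 : HasDerivAt (fun x : ℝ => x ^ 2 + b ^ 2) (2 * x) x := by
      simpa using (hasDerivAt_pow 2 x).add_const (b ^ 2)
    have h1 : HasDerivAt (fun x : ℝ => Real.log (x ^ 2 + b ^ 2)) (2 * x / (x ^ 2 + b ^ 2)) x :=
      h0.log (by positivity)
    have h2 : HasDerivAt (fun x : ℝ => x * Real.log (x ^ 2 + b ^ 2))
        (1 * Real.log (x ^ 2 + b ^ 2) + x * (2 * x / (x ^ 2 + b ^ 2))) x := (hasDerivAt_id x).mul h1
    have h3 : HasDerivAt (fun x : ℝ => Real.arctan (x / b)) (1 / (1 + (x / b) ^ 2) * (1 / b)) x := by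
      exact (Real.hasDerivAt_arctan (x / b)).comp x ((hasDerivAt_id x).div_const b)
    have h4 : HasDerivAt (fun x : ℝ => x ^ 2 * (π / 2 - Real.arctan (x / b)))
        (2 * x * (π / 2 - Real.arctan (x / b)) + x ^ 2 * (-(1 / (1 + (x / b) ^ 2) * (1 / b)))) x := by
      have h5 : HasDerivAt (fun x : ℝ => x ^ 2) (2 * x) x := by simpa using hasDerivAt_pow 2 x
      exact h5.mul (h3.const_sub (π / 2))
    have h6 := (((((h2.sub ((hasDerivAt_id x).const_mul 2)).add (h3.const_mul (2 * b))).const_mul b).sub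
      ((hasDerivAt_id x).const_mul (2 * b))).add h4).add ((hasDerivAt_id x).const_mul b)
    refine HasDerivAt.congr_deriv (h6.sub (h3.const_mul (b ^ 2))) ?_
    field_simp
    ring
  have hc : Continuous (fun x : ℝ => b * Real.log (x ^ 2 + b ^ 2) - 2 * b +
      2 * x * (π / 2 - Real.arctan (x / b))) := by
    apply Continuous.add
    · apply Continuous.sub _ continuous_const
      apply continuous_const.mul
      apply Continuous.log (by fun_prop)
      intro x; positivity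
    · apply Continuous.mul (by fun_prop)
      apply continuous_const.sub
      exact Real.continuous_arctan.comp (by fun_prop)
  rw [intervalIntegral.integral_eq_sub_of_hasDerivAt (fun x _ => hd x) (hc.intervalIntegrable _ _)]
  simp
  ring

/-! ### cells away from the origin -/

theorem sq_le_two {z : ℝ × ℝ} (hz : z ∈ Q) : z.1 ^ 2 + z.2 ^ 2 ≤ 2 := by
  obtain ⟨⟨a, b⟩, c, d⟩ := hz
  have h1 : z.1 ^ 2 ≤ 1 := by nlinarith
  have h2 : z.2 ^ 2 ≤ 1 := by nlinarith
  linarith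

theorem cell_big (X Y : ℝ) (h : 4 ≤ X ^ 2 + Y ^ 2) :
    2 * Real.log ((X ^ 2 + Y ^ 2) ^ 2 - 4) ≤ ∫ z in Ce X Y, Real.log (z.1 ^ 2 + z.2 ^ 2) ∧
    ∫ z in Ce X Y, Real.log (z.1 ^ 2 + z.2 ^ 2) ≤ 2 * Real.log ((X ^ 2 + Y ^ 2) ^ 2 + 4) := by
  rw [(trans_Q X Y _).1]
  set f : ℝ × ℝ → ℝ := fun z => Real.log ((X + z.1) ^ 2 + (Y + z.2) ^ 2) with hf
  set d := X ^ 2 + Y ^ 2 with hd
  have hpos : ∀ z ∈ Q, 0 < (X + z.1) ^ 2 + (Y + z.2) ^ 2 ∧ 0 < (X - z.1) ^ 2 + (Y - z.2) ^ 2 := by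
    intro z hz
    have he := sq_le_two hz
    set e := z.1 ^ 2 + z.2 ^ 2
    have hprod : ((X + z.1) ^ 2 + (Y + z.2) ^ 2) * ((X - z.1) ^ 2 + (Y - z.2) ^ 2) =
        (d - e) ^ 2 + 4 * (Y * z.1 - X * z.2) ^ 2 := by ring
    have h1 : 0 < (d - e) ^ 2 := by
      have : d - e ≠ 0 := by linarith
      positivity
    have h2 : 0 < ((X + z.1) ^ 2 + (Y + z.2) ^ 2) * ((X - z.1) ^ 2 + (Y - z.2) ^ 2) := by
      rw [hprod]; positivity
    have h3 : 0 ≤ (X + z.1) ^ 2 + (Y + z.2) ^ 2 := by positivity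
    have h4 : 0 ≤ (X - z.1) ^ 2 + (Y - z.2) ^ 2 := by positivity
    exact ⟨pos_of_mul_pos_left h2 h4, pos_of_mul_pos_right h2 h3⟩
  have hfi : IntegrableOn f Q := by
    apply ContinuousOn.integrableOn_compact (isCompact_Icc.prod isCompact_Icc)
    apply ContinuousOn.log (by fun_prop)
    intro z hz
    exact (hpos z hz).1.ne'
  apply avg hfi
  intro z hz
  have he := sq_le_two hz
  have he0 : 0 ≤ z.1 ^ 2 + z.2 ^ 2 := by positivity
  have hz2 : rot z ∈ Q := by rw [← rot_Q] at hz; exact hz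
  have p0 := (hpos z hz).1
  have p2 := (hpos z hz).2
  have p1 := (hpos _ hz2).1
  have p3 := (hpos _ hz2).2
  simp only [rot_apply] at p1 p3
  have e1 : f (rot z) = Real.log ((X + -z.2) ^ 2 + (Y + z.1) ^ 2) := rfl
  have e2 : f (rot (rot z)) = Real.log ((X - z.1) ^ 2 + (Y - z.2) ^ 2) := by
    simp only [hf, rot_apply]
    rw [sub_eq_add_neg, sub_eq_add_neg]
  have e3 : f (rot (rot (rot z))) = Real.log ((X - -z.2) ^ 2 + (Y - z.1) ^ 2) := by
    simp only [hf, rot_apply]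
    rw [sub_eq_add_neg, sub_eq_add_neg]
  have e0 : f z = Real.log ((X + z.1) ^ 2 + (Y + z.2) ^ 2) := rfl
  rw [e0, e1, e2, e3, ← Real.log_mul p0.ne' p1.ne', ← Real.log_mul (by positivity) p2.ne',
    ← Real.log_mul (by positivity) p3.ne']
  have hprod : ((X + z.1) ^ 2 + (Y + z.2) ^ 2) * ((X + -z.2) ^ 2 + (Y + z.1) ^ 2) *
      ((X - z.1) ^ 2 + (Y - z.2) ^ 2) * ((X - -z.2) ^ 2 + (Y - z.1) ^ 2) =
      (d ^ 2 - (z.1 ^ 2 + z.2 ^ 2) ^ 2) ^ 2 +
        16 * ((X * z.1 + Y * z.2) * (Y * z.1 - X * z.2)) ^ 2 := by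
    simp only [hd]; ring
  have hst : (X * z.1 + Y * z.2) ^ 2 + (Y * z.1 - X * z.2) ^ 2 = d * (z.1 ^ 2 + z.2 ^ 2) := by
    simp only [hd]; ring
  have hd16 : 16 ≤ d ^ 2 := by nlinarith
  have hee : (z.1 ^ 2 + z.2 ^ 2) ^ 2 ≤ 4 := by nlinarith
  have hlo : (d ^ 2 - 4) ^ 2 ≤ ((X + z.1) ^ 2 + (Y + z.2) ^ 2) * ((X + -z.2) ^ 2 + (Y + z.1) ^ 2) *
      ((X - z.1) ^ 2 + (Y - z.2) ^ 2) * ((X - -z.2) ^ 2 + (Y - z.1) ^ 2) := by
    rw [hprod]
    have : (d ^ 2 - 4) ^ 2 ≤ (d ^ 2 - (z.1 ^ 2 + z.2 ^ 2) ^ 2) ^ 2 := by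
      apply pow_le_pow_left₀ (by linarith) (by linarith)
    have h2 : 0 ≤ 16 * ((X * z.1 + Y * z.2) * (Y * z.1 - X * z.2)) ^ 2 := by positivity
    linarith
  have hhi : ((X + z.1) ^ 2 + (Y + z.2) ^ 2) * ((X + -z.2) ^ 2 + (Y + z.1) ^ 2) *
      ((X - z.1) ^ 2 + (Y - z.2) ^ 2) * ((X - -z.2) ^ 2 + (Y - z.1) ^ 2) ≤ (d ^ 2 + 4) ^ 2 := by
    rw [hprod]
    set s := X * z.1 + Y * z.2
    set t := Y * z.1 - X * z.2
    set e := z.1 ^ 2 + z.2 ^ 2
    have h1 : 4 * (s * t) ^ 2 ≤ (d * e) ^ 2 := by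
      rw [← hst]
      nlinarith [sq_nonneg (s ^ 2 - t ^ 2)]
    have h2 : (d ^ 2 + e ^ 2) ^ 2 ≤ (d ^ 2 + 4) ^ 2 := by
      apply pow_le_pow_left₀ (by positivity) (by linarith)
    nlinarith
  have hlog2 : ∀ x : ℝ, 2 * Real.log x = Real.log (x ^ 2) := by
    intro x; rw [Real.log_pow]; norm_num
  rw [hlog2, hlog2]
  constructor
  · exact Real.log_le_log (by have : 0 < d ^ 2 - 4 := by linarith
                              positivity) hlo
  · exact Real.log_le_log (by positivity) hhi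

/-! ### cells at the origin -/

theorem cell_rot (X Y : ℝ) :
    ∫ z in Ce X Y, Real.log (z.1 ^ 2 + z.2 ^ 2) = ∫ z in Ce Y (-X), Real.log (z.1 ^ 2 + z.2 ^ 2) := by
  have := rot_mp.setIntegral_preimage_emb rot.measurableEmbedding
    (fun z : ℝ × ℝ => Real.log (z.1 ^ 2 + z.2 ^ 2)) (Ce X Y)
  rw [← this]
  have e1 : rot ⁻¹' Ce X Y = Ce Y (-X) := by
    ext z
    simp only [Ce, mem_preimage, rot_apply, mem_prod, mem_Icc]
    constructor
    · rintro ⟨⟨a, b⟩, c, d⟩; exact ⟨⟨c, d⟩, by linarith, by linarith⟩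
    · rintro ⟨⟨a, b⟩, c, d⟩; exact ⟨⟨by linarith, by linarith⟩, a, b⟩
  rw [e1]
  congr 1
  funext z
  simp only [rot_apply]
  congr 1
  ring

theorem cell_10 : ∫ z in Ce 1 0, Real.log (z.1 ^ 2 + z.2 ^ 2) =
    2 * ∫ z in Icc 0 2 ×ˢ Icc 0 1, Real.log (z.1 ^ 2 + z.2 ^ 2) := by
  have e1 : Ce 1 0 = Icc 0 2 ×ˢ Icc (-1) 1 := by
    simp only [Ce]; norm_num
  rw [e1]
  have hI1 := log_int 0 2 (-1) 1
  have hI2 := log_int 0 2 0 1
  rw [Measure.volume_eq_prod] at hI1 hI2 ⊢
  rw [setIntegral_prod _ hI1, setIntegral_prod _ hI2]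
  rw [← integral_const_mul]
  rw [integral_Icc_eq_integral_Ioc, integral_Icc_eq_integral_Ioc]
  apply setIntegral_congr_fun measurableSet_Ioc
  intro x hx
  have hx0 : 0 < x := hx.1
  simp only
  have hc : Continuous (fun y : ℝ => Real.log (x ^ 2 + y ^ 2)) := by
    apply Continuous.log (by fun_prop)
    intro y; positivity
  rw [integral_Icc_eq_integral_Ioc, ← intervalIntegral.integral_of_le (by norm_num),
    integral_Icc_eq_integral_Ioc, ← intervalIntegral.integral_of_le (by norm_num)]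
  rw [← intervalIntegral.integral_add_adjacent_intervals (a := (-1 : ℝ)) (b := 0) (c := 1)
    (hc.intervalIntegrable _ _) (hc.intervalIntegrable _ _)]
  have h2 : ∫ y in (-1:ℝ)..0, Real.log (x ^ 2 + y ^ 2) = ∫ y in (0:ℝ)..1, Real.log (x ^ 2 + y ^ 2) := by
    have := intervalIntegral.integral_comp_neg (a := (0:ℝ)) (b := 1)
      (fun y : ℝ => Real.log (x ^ 2 + y ^ 2))
    simp only [neg_zero] at this
    rw [← this]
    congr 1
    funext y
    congr 1
    ring
  rw [h2]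
  ring

theorem log5 : 1608516 / 1000000 ≤ Real.log 5 ∧ Real.log 5 ≤ 1611295 / 1000000 := by
  have e : Real.log 5 = 2 * Real.log 2 + Real.log (1 + 1 / 4) := by
    have : (5 : ℝ) = 2 ^ 2 * (1 + 1 / 4) := by norm_num
    rw [this, Real.log_mul (by norm_num) (by norm_num), Real.log_pow]
    norm_num
  have h1 := Real.le_log_one_add_of_nonneg (x := (1 / 4 : ℝ)) (by norm_num)
  have h2 : Real.log (1 + 1 / 4) ≤ 225 / 1000 := by
    rw [Real.log_le_iff_le_exp (by norm_num)]
    have := Real.quadratic_le_exp_of_nonneg (x := (225 / 1000 : ℝ)) (by norm_num)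
    norm_num at this ⊢
    linarith
  have h3 := Real.log_two_gt_d9
  have h4 := Real.log_two_lt_d9
  rw [e]
  norm_num at h1 h3 h4 ⊢
  constructor <;> linarith

theorem cell_10_bd : 2 * Real.log (117 / 100) ≤ ∫ z in Ce 1 0, Real.log (z.1 ^ 2 + z.2 ^ 2) ∧
    ∫ z in Ce 1 0, Real.log (z.1 ^ 2 + z.2 ^ 2) ≤ 2 * Real.log (123 / 100) := by
  rw [cell_10, corner (by norm_num) (by norm_num)]
  have h1 : Real.arctan (2 / 1) = π / 2 - Real.arctan (1 / 2) := by
    rw [arctan_pos_inv (by norm_num)]; norm_num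
  rw [h1]
  have h2 := arctan_lo (x := (1/2 : ℝ)) (by norm_num)
  have h3 := arctan_hi (x := (1/2 : ℝ)) (by norm_num)
  have h4 := Real.pi_gt_d6
  have h5 := Real.pi_lt_d6
  have e5 : Real.log (2 ^ 2 + 1 ^ 2) = Real.log 5 := by norm_num
  rw [e5]
  obtain ⟨l1, l2⟩ := log5
  have h6 : Real.log (117 / 100) ≤ 16 / 100 := by
    rw [Real.log_le_iff_le_exp (by norm_num)]
    have := Real.quadratic_le_exp_of_nonneg (x := (16 / 100 : ℝ)) (by norm_num)
    norm_num at this ⊢
    linarith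
  have h7 : 206 / 1000 ≤ Real.log (123 / 100) := by
    have := Real.le_log_one_add_of_nonneg (x := (23 / 100 : ℝ)) (by norm_num)
    norm_num at this ⊢
    linarith
  norm_num at h2 h3 ⊢
  constructor <;> linarith

theorem cell_11_bd : 2 * Real.log (362 / 100) ≤ ∫ z in Ce 1 1, Real.log (z.1 ^ 2 + z.2 ^ 2) ∧
    ∫ z in Ce 1 1, Real.log (z.1 ^ 2 + z.2 ^ 2) ≤ 2 * Real.log (371 / 100) := by
  have e1 : Ce 1 1 = Icc 0 2 ×ˢ Icc 0 2 := by
    simp only [Ce]; norm_num
  rw [e1, corner (by norm_num) (by norm_num)]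
  have h1 : Real.arctan (2 / 2) = π / 4 := by norm_num
  rw [h1]
  have h4 := Real.pi_gt_d6
  have h5 := Real.pi_lt_d6
  have e5 : Real.log (2 ^ 2 + 2 ^ 2) = 3 * Real.log 2 := by
    have : (2 ^ 2 + 2 ^ 2 : ℝ) = 2 ^ 3 := by norm_num
    rw [this, Real.log_pow]; norm_num
  rw [e5]
  have e6 : Real.log (362 / 100) = 2 * Real.log 2 + Real.log (905 / 1000) := by
    have : (362 / 100 : ℝ) = 2 ^ 2 * (905 / 1000) := by norm_num
    rw [this, Real.log_mul (by norm_num) (by norm_num), Real.log_pow]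
    norm_num
  have e7 : Real.log (371 / 100) = 2 * Real.log 2 + Real.log (9275 / 10000) := by
    have : (371 / 100 : ℝ) = 2 ^ 2 * (9275 / 10000) := by norm_num
    rw [this, Real.log_mul (by norm_num) (by norm_num), Real.log_pow]
    norm_num
  have h6 := Real.log_le_sub_one_of_pos (x := (905 / 1000 : ℝ)) (by norm_num)
  have h7 := Real.one_sub_inv_le_log_of_pos (x := (9275 / 10000 : ℝ)) (by norm_num)
  have h8 := Real.log_two_gt_d9
  have h9 := Real.log_two_lt_d9
  rw [e6, e7]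
  norm_num at h6 h7 h8 h9 ⊢
  constructor <;> linarith

end T19

open T19

theorem t_cell : S_cell := by
  intro X Y hXY
  refine ⟨log_int _ _ _ _, ?_⟩
  show 2 * Real.log (cellLo X Y) ≤ ∫ z in Ce (X : ℝ) (Y : ℝ), Real.log (z.1 ^ 2 + z.2 ^ 2) ∧
    ∫ z in Ce (X : ℝ) (Y : ℝ), Real.log (z.1 ^ 2 + z.2 ^ 2) ≤ 2 * Real.log (cellHi X Y)
  simp only [cellLo, cellHi]
  by_cases h4 : 4 ≤ X ^ 2 + Y ^ 2
  · rw [if_pos h4, if_pos h4]
    have h4' : (4 : ℝ) ≤ (X : ℝ) ^ 2 + (Y : ℝ) ^ 2 := by exact_mod_cast h4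
    have := cell_big (X : ℝ) (Y : ℝ) h4'
    push_cast
    exact this
  · rw [if_neg h4, if_neg h4]
    push Not at h4
    have hX : -1 ≤ X ∧ X ≤ 1 := by constructor <;> nlinarith
    have hY : -1 ≤ Y ∧ Y ≤ 1 := by constructor <;> nlinarith
    obtain ⟨hX1, hX2⟩ := hX
    obtain ⟨hY1, hY2⟩ := hY
    have r1 := cell_rot 1 0
    have r2 := cell_rot 0 (-1)
    have r3 := cell_rot (-1) 0
    have s1 := cell_rot 1 1
    have s2 := cell_rot 1 (-1)
    have s3 := cell_rot (-1) (-1)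
    simp only [neg_zero, neg_neg] at r1 r2 r3 s1 s2 s3
    have b0 := cell_10_bd
    have b1 := cell_11_bd
    norm_num at b1
    interval_cases X <;> interval_cases Y
    · norm_num [← s2, ← s1]; simpa using b1
    · norm_num [← r2, ← r1]; simpa using b0
    · norm_num [← s3, ← s2, ← s1]; simpa using b1
    · norm_num [← r1]; simpa using b0
    · exact absurd rfl hXY
    · norm_num [← r3, ← r2, ← r1]; simpa using b0
    · norm_num [← s1]; simpa using b1
    · norm_num; simpa using b0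
    · norm_num; simpa using b1

end SV
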