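import Pool.Agent.Helper779.SV.T19

/-!
# T19, second part: `S_rpot`, `S_rpot0`
-/

open MeasureTheory Set Filter Topology
open scoped Real

namespace SV

namespace T19

open T17 T18

/-- Fubini on a cell, first coordinate inside -/
theorem cell_iter {f : ℝ × ℝ → ℝ} {X Y : ℝ} (hf : IntegrableOn f (Ce X Y)) :
    IntervalIntegrable (fun b => ∫ a in (X - 1)..(X + 1), f (a, b)) volume (Y - 1) (Y + 1) ∧
    ∫ b in (Y - 1)..(Y + 1), ∫ a in (X - 1)..(X + 1), f (a, b) = ∫ z in Ce X Y, f z := by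
  have e : ∀ b : ℝ, ∫ a in (X - 1)..(X + 1), f (a, b) = ∫ a in Icc (X - 1) (X + 1), f (a, b) := by
    intro b
    rw [intervalIntegral.integral_of_le (by linarith), integral_Icc_eq_integral_Ioc]
  have hf' : Integrable f ((volume.restrict (Icc (X - 1) (X + 1))).prod
      (volume.restrict (Icc (Y - 1) (Y + 1)))) := by
    rw [Measure.prod_restrict, ← Measure.volume_eq_prod]
    exact hf
  constructor
  · rw [intervalIntegrable_iff_integrableOn_Icc_of_le (by linarith)]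
    simp only [e]
    exact hf'.integral_prod_right
  · rw [intervalIntegral.integral_of_le (by linarith), ← integral_Icc_eq_integral_Ioc]
    simp only [e]
    rw [Ce, Measure.volume_eq_prod, ← Measure.prod_restrict, integral_prod_symm _ hf']

theorem scale (K : ℝ → ℝ → ℝ) {u L T0 T1 : ℝ} (hu : 0 < u) (hL : 0 ≤ L) (hT : T0 ≤ T1) :
    ∫ y in Ioo (u * T0) (u * T1), ∫ x in Ioo (-(u * L)) (u * L), K x y =
      u ^ 2 * ∫ y in T0..T1, ∫ x in (-L)..L, K (u * x) (u * y) := by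
  rw [← integral_Ioc_eq_integral_Ioo, ← intervalIntegral.integral_of_le
    (mul_le_mul_of_nonneg_left hT hu.le)]
  have e : ∀ y, ∫ x in Ioo (-(u * L)) (u * L), K x y = u * ∫ x in (-L)..L, K (u * x) y := by
    intro y
    rw [int_Ioo_eq _ (by positivity)]
    have := intervalIntegral.mul_integral_comp_mul_left (a := -L) (b := L) (f := fun x => K x y) u
    rw [mul_neg] at this
    exact this.symm
  simp only [e]
  rw [intervalIntegral.integral_const_mul]
  have := intervalIntegral.mul_integral_comp_mul_left (a := T0) (b := T1)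
    (f := fun y => ∫ x in (-L)..L, K (u * x) y) u
  rw [← this]
  ring

/-- splitting of a centred interval into cells, seen from `c` -/
theorem split (F : ℝ → ℝ) (hF : Continuous F) (n : ℕ) (c : ℝ) :
    ∫ a in (-(n : ℝ))..(n : ℝ), F (a - c) =
      ∑ m ∈ Finset.range n, ∫ a in ((-(n : ℝ) + 1 + 2 * (m : ℝ) - c) - 1)..((-(n : ℝ) + 1 + 2 * (m : ℝ) - c) + 1), F a := by
  have hF' : Continuous (fun a => F (a - c)) := by fun_prop
  have h := intervalIntegral.sum_integral_adjacent_intervals (f := fun a => F (a - c))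
    (μ := volume) (a := fun k : ℕ => -(n : ℝ) + 2 * (k : ℝ)) (n := n)
    (fun k _ => hF'.intervalIntegrable _ _)
  have e1 : (-(n : ℝ) + 2 * ((0 : ℕ) : ℝ)) = -(n : ℝ) := by simp
  have e2 : (-(n : ℝ) + 2 * ((n : ℕ) : ℝ)) = (n : ℝ) := by ring
  simp only [e1, e2] at h
  rw [← h]
  apply Finset.sum_congr rfl
  intro m _
  rw [intervalIntegral.integral_comp_sub_right]
  congr 1
  · ring
  · push_cast; ring

theorem kap_scaled {u : ℝ} (hu : 0 < u) {j : ℕ} (hj : 1 ≤ j) (cj a : ℝ) {b : ℝ} (hb : 0 < b)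
    (hne : b ≠ 2 * (j : ℝ)) :
    π * kap (u * cj, 2 * u * (j : ℝ)) (u * a, u * b) * (u * b) =
      (1 / (8 * u * (j : ℝ))) * (Real.log ((a - cj) ^ 2 + (b + 2 * j) ^ 2) -
        Real.log ((a - cj) ^ 2 + (b - 2 * j) ^ 2)) := by
  have hj' : (0 : ℝ) < (j : ℝ) := by exact_mod_cast hj
  rw [pi_kap]
  have hz : 4 * (2 * u * (j : ℝ)) * (u * b) ≠ 0 := by positivity
  simp only [kk, hz, if_false, dsq]
  have hb2 : 0 < (b - 2 * j) ^ 2 := by
    have : b - 2 * (j : ℝ) ≠ 0 := sub_ne_zero.2 hne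
    positivity
  have hD : 0 < (a - cj) ^ 2 + (b - 2 * j) ^ 2 := by positivity
  have hN : 0 < (a - cj) ^ 2 + (b + 2 * j) ^ 2 := by positivity
  have e : 1 + 4 * (2 * u * (j : ℝ)) * (u * b) / ((u * cj - u * a) ^ 2 + (2 * u * (j : ℝ) - u * b) ^ 2) =
      ((a - cj) ^ 2 + (b + 2 * j) ^ 2) / ((a - cj) ^ 2 + (b - 2 * j) ^ 2) := by
    have e1 : (u * cj - u * a) ^ 2 + (2 * u * (j : ℝ) - u * b) ^ 2 =
        u ^ 2 * ((a - cj) ^ 2 + (b - 2 * j) ^ 2) := by ring
    rw [e1, eq_div_iff hD.ne']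
    field_simp
    ring
  rw [e, Real.log_div hN.ne' hD.ne']
  field_simp
  ring

theorem odd_ne (X : ℤ) (i j : ℕ) : (X, (2 * (i : ℤ) + 1 + 2 * (j : ℤ))) ≠ (0, 0) ∧
    (X, (2 * (i : ℤ) + 1 - 2 * (j : ℤ))) ≠ (0, 0) := by
  constructor
  · intro h
    have := congrArg Prod.snd h
    simp only at this
    omega
  · intro h
    have := congrArg Prod.snd h
    simp only at this
    omega

/-- log cell integral, iterated and shifted in the second variable -/
theorem log_iter (X Y s : ℝ) :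
    IntervalIntegrable (fun b => ∫ a in (X - 1)..(X + 1), Real.log (a ^ 2 + (b + s) ^ 2)) volume
      (Y - s - 1) (Y - s + 1) ∧
    ∫ b in (Y - s - 1)..(Y - s + 1), ∫ a in (X - 1)..(X + 1), Real.log (a ^ 2 + (b + s) ^ 2) =
      ∫ z in Ce X Y, Real.log (z.1 ^ 2 + z.2 ^ 2) := by
  obtain ⟨h1, h2⟩ := cell_iter (f := fun z : ℝ × ℝ => Real.log (z.1 ^ 2 + z.2 ^ 2)) (X := X) (Y := Y)
    (log_int _ _ _ _)
  constructor
  · have := h1.comp_add_right s
    have e1 : Y - 1 - s = Y - s - 1 := by ring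
    have e2 : Y + 1 - s = Y - s + 1 := by ring
    rw [e1, e2] at this
    exact this
  · rw [← h2]
    have := intervalIntegral.integral_comp_add_right (a := Y - s - 1) (b := Y - s + 1)
      (fun b => ∫ a in (X - 1)..(X + 1), Real.log (a ^ 2 + b ^ 2)) s
    rw [this]
    congr 1 <;> ring

end T19

open T17 T18 T19

theorem t_rpot : S_rpot := by
  intro u cj j i n hu hj hn
  have hj' : (0 : ℝ) < (j : ℝ) := by exact_mod_cast hj
  set Xm : ℕ → ℝ := fun m => -(n : ℝ) + 1 + 2 * (m : ℝ) - (cj : ℝ) with hXm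
  set Yp : ℝ := 2 * (i : ℝ) + 1 + 2 * (j : ℝ) with hYp
  set Ym : ℝ := 2 * (i : ℝ) + 1 - 2 * (j : ℝ) with hYm
  have key : rpot (u * (cj : ℝ), 2 * u * (j : ℝ)) (u * (n : ℝ)) (2 * u * (i : ℝ))
      (2 * u * ((i : ℝ) + 1)) = (u / (8 * (j : ℝ))) * ∑ m ∈ Finset.range n,
        ((∫ z in Ce (Xm m) Yp, Real.log (z.1 ^ 2 + z.2 ^ 2)) -
          ∫ z in Ce (Xm m) Ym, Real.log (z.1 ^ 2 + z.2 ^ 2)) := by
    have e1 : 2 * u * (i : ℝ) = u * (2 * (i : ℝ)) := by ring
    have e2 : 2 * u * ((i : ℝ) + 1) = u * (2 * (i : ℝ) + 2) := by ring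
    rw [rpot, e1, e2, scale (fun x y => π * kap (u * (cj : ℝ), 2 * u * (j : ℝ)) (x, y) * y) hu
      (Nat.cast_nonneg n) (by linarith)]
    have hinner : ∀ b ∈ Ioo (2 * (i : ℝ)) (2 * (i : ℝ) + 2),
        (∫ a in (-(n : ℝ))..(n : ℝ), π * kap (u * (cj : ℝ), 2 * u * (j : ℝ)) (u * a, u * b) * (u * b)) =
        (1 / (8 * u * (j : ℝ))) * ∑ m ∈ Finset.range n,
          ((∫ a in (Xm m - 1)..(Xm m + 1), Real.log (a ^ 2 + (b + 2 * (j : ℝ)) ^ 2)) -
          ∫ a in (Xm m - 1)..(Xm m + 1), Real.log (a ^ 2 + (b + -(2 * (j : ℝ))) ^ 2)) := by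
      intro b hb
      have hb0 : 0 < b := lt_of_le_of_lt (by positivity) hb.1
      have hne : b ≠ 2 * (j : ℝ) := by
        intro h
        have h1 := hb.1
        have h2 := hb.2
        rw [h] at h1 h2
        have h3 : (i : ℝ) < (j : ℝ) := by linarith
        have h4 : (j : ℝ) < (i : ℝ) + 1 := by linarith
        have h3' : i < j := by exact_mod_cast h3
        have h4' : j < i + 1 := by exact_mod_cast h4
        omega
      have hpt : ∀ a : ℝ, π * kap (u * (cj : ℝ), 2 * u * (j : ℝ)) (u * a, u * b) * (u * b) =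
          (1 / (8 * u * (j : ℝ))) * (Real.log ((a - cj) ^ 2 + (b + 2 * j) ^ 2) -
        Real.log ((a - cj) ^ 2 + (b + -(2 * j)) ^ 2)) := by
        intro a
        rw [kap_scaled hu hj _ a hb0 hne, sub_eq_add_neg b]
      simp only [hpt]
      rw [intervalIntegral.integral_const_mul]
      congr 1
      have hc : ∀ s : ℝ, b + s ≠ 0 → Continuous (fun a : ℝ => Real.log (a ^ 2 + (b + s) ^ 2)) := by
        intro s hs
        apply Continuous.log (by fun_prop)
        intro a; positivity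
      have hs1 : b + 2 * (j : ℝ) ≠ 0 := by positivity
      have hs2 : b + -(2 * (j : ℝ)) ≠ 0 := by
        rw [← sub_eq_add_neg]; exact sub_ne_zero.2 hne
      have c1 := hc _ hs1
      have c2 := hc _ hs2
      have c3 : Continuous (fun a : ℝ => Real.log (a ^ 2 + (b + 2 * (j : ℝ)) ^ 2) -
          Real.log (a ^ 2 + (b + -(2 * (j : ℝ))) ^ 2)) := c1.sub c2
      rw [split (fun a : ℝ => Real.log (a ^ 2 + (b + 2 * (j : ℝ)) ^ 2) -
          Real.log (a ^ 2 + (b + -(2 * (j : ℝ))) ^ 2)) c3 n cj]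
      apply Finset.sum_congr rfl
      intro m _
      rw [intervalIntegral.integral_sub (c1.intervalIntegrable _ _) (c2.intervalIntegrable _ _)]
    have hle : 2 * (i : ℝ) ≤ 2 * (i : ℝ) + 2 := by linarith
    rw [intervalIntegral.integral_of_le hle, integral_Ioc_eq_integral_Ioo,
      setIntegral_congr_fun measurableSet_Ioo hinner, ← integral_Ioc_eq_integral_Ioo,
      ← intervalIntegral.integral_of_le hle, intervalIntegral.integral_const_mul]
    have hp : ∀ m : ℕ, IntervalIntegrable (fun b => ∫ a in (Xm m - 1)..(Xm m + 1),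
        Real.log (a ^ 2 + (b + 2 * (j : ℝ)) ^ 2)) volume (2 * (i : ℝ)) (2 * (i : ℝ) + 2) ∧
        ∫ b in (2 * (i : ℝ))..(2 * (i : ℝ) + 2), ∫ a in (Xm m - 1)..(Xm m + 1),
          Real.log (a ^ 2 + (b + 2 * (j : ℝ)) ^ 2) =
        ∫ z in Ce (Xm m) Yp, Real.log (z.1 ^ 2 + z.2 ^ 2) := by
      intro m
      have := log_iter (Xm m) Yp (2 * (j : ℝ))
      have a1 : Yp - 2 * (j : ℝ) - 1 = 2 * (i : ℝ) := by simp only [hYp]; ring
      have a2 : Yp - 2 * (j : ℝ) + 1 = 2 * (i : ℝ) + 2 := by simp only [hYp]; ring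
      rw [a1, a2] at this
      exact this
    have hq : ∀ m : ℕ, IntervalIntegrable (fun b => ∫ a in (Xm m - 1)..(Xm m + 1),
        Real.log (a ^ 2 + (b + -(2 * (j : ℝ))) ^ 2)) volume (2 * (i : ℝ)) (2 * (i : ℝ) + 2) ∧
        ∫ b in (2 * (i : ℝ))..(2 * (i : ℝ) + 2), ∫ a in (Xm m - 1)..(Xm m + 1),
          Real.log (a ^ 2 + (b + -(2 * (j : ℝ))) ^ 2) =
        ∫ z in Ce (Xm m) Ym, Real.log (z.1 ^ 2 + z.2 ^ 2) := by
      intro m
      have := log_iter (Xm m) Ym (-(2 * (j : ℝ)))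
      have a1 : Ym - -(2 * (j : ℝ)) - 1 = 2 * (i : ℝ) := by simp only [hYm]; ring
      have a2 : Ym - -(2 * (j : ℝ)) + 1 = 2 * (i : ℝ) + 2 := by simp only [hYm]; ring
      rw [a1, a2] at this
      exact this
    rw [intervalIntegral.integral_finsetSum (fun m _ => (hp m).1.sub (hq m).1)]
    have hsum : ∀ m : ℕ, ∫ b in (2 * (i : ℝ))..(2 * (i : ℝ) + 2),
        ((∫ a in (Xm m - 1)..(Xm m + 1), Real.log (a ^ 2 + (b + 2 * (j : ℝ)) ^ 2)) -
          ∫ a in (Xm m - 1)..(Xm m + 1), Real.log (a ^ 2 + (b + -(2 * (j : ℝ))) ^ 2)) =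
        (∫ z in Ce (Xm m) Yp, Real.log (z.1 ^ 2 + z.2 ^ 2)) -
          ∫ z in Ce (Xm m) Ym, Real.log (z.1 ^ 2 + z.2 ^ 2) := by
      intro m
      rw [intervalIntegral.integral_sub (hp m).1 (hq m).1, (hp m).2, (hq m).2]
    simp only [hsum]
    rw [← mul_assoc]
    congr 1
    field_simp
  rw [key]
  have hcell : ∀ m : ℕ, ∀ ε : ℤ,
      (-(n : ℤ) + 1 + 2 * (m : ℤ) - (cj : ℤ), ε) ≠ (0, 0) →
      2 * Real.log (cellLo (-(n : ℤ) + 1 + 2 * m - cj) ε) ≤
        ∫ z in Ce (Xm m) (ε : ℝ), Real.log (z.1 ^ 2 + z.2 ^ 2) ∧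
      ∫ z in Ce (Xm m) (ε : ℝ), Real.log (z.1 ^ 2 + z.2 ^ 2) ≤
        2 * Real.log (cellHi (-(n : ℤ) + 1 + 2 * m - cj) ε) := by
    intro m ε hne
    have := (t_cell (-(n : ℤ) + 1 + 2 * (m : ℤ) - (cj : ℤ)) ε hne).2
    have e : (((-(n : ℤ) + 1 + 2 * (m : ℤ) - (cj : ℤ) : ℤ)) : ℝ) = Xm m := by
      simp only [hXm]; push_cast; ring
    rw [e] at this
    exact this
  have e4 : ∀ S : ℝ, u / (4 * (j : ℝ)) * S = u / (8 * (j : ℝ)) * (2 * S) := by
    intro S; field_simp; ring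
  rw [e4, e4]
  have hcoef : 0 ≤ u / (8 * (j : ℝ)) := by positivity
  have hYp' : ((2 * (i : ℤ) + 1 + 2 * (j : ℤ) : ℤ) : ℝ) = Yp := by
    simp only [hYp]; push_cast; ring
  have hYm' : ((2 * (i : ℤ) + 1 - 2 * (j : ℤ) : ℤ) : ℝ) = Ym := by
    simp only [hYm]; push_cast; ring
  constructor
  · apply mul_le_mul_of_nonneg_left _ hcoef
    rw [Finset.mul_sum]
    apply Finset.sum_le_sum
    intro m _
    have h1 := (hcell m _ (odd_ne _ i j).1).2
    have h2 := (hcell m _ (odd_ne _ i j).2).1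
    rw [hYp'] at h1
    rw [hYm'] at h2
    linarith
  · apply mul_le_mul_of_nonneg_left _ hcoef
    rw [Finset.mul_sum]
    apply Finset.sum_le_sum
    intro m _
    have h1 := (hcell m _ (odd_ne _ i j).1).1
    have h2 := (hcell m _ (odd_ne _ i j).2).2
    rw [hYp'] at h1
    rw [hYm'] at h2
    linarith

end SV
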