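import Pool.Agent.Helper779.SV.T19b

/-!
# T19, third part: `S_rpot0`
-/

open MeasureTheory Set Filter Topology
open scoped Real

namespace SV

namespace T19

open T17 T18

/-- the kernel on the axis -/
noncomputable def ker0 (z : ℝ × ℝ) : ℝ := z.2 / (z.1 ^ 2 + z.2 ^ 2)

theorem ker0_eq (z : ℝ × ℝ) : ker0 z = -((((z.1 : ℂ) + (z.2 : ℂ) * Complex.I))⁻¹).im := by
  rw [Complex.inv_im]
  simp only [ker0, Complex.add_im, Complex.ofReal_im, Complex.mul_im, Complex.ofReal_re,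
    Complex.I_im, Complex.I_re, Complex.normSq_apply, Complex.add_re, Complex.mul_re]
  ring

theorem ker0_big (X Y : ℝ) (h : 5 ≤ X ^ 2 + Y ^ 2) :
    IntegrableOn ker0 (Ce X Y) ∧
    4 * (Y / (X ^ 2 + Y ^ 2) - 9 / 5 / ((X ^ 2 + Y ^ 2) ^ 2 - 4)) ≤ ∫ z in Ce X Y, ker0 z ∧
    ∫ z in Ce X Y, ker0 z ≤ 4 * (Y / (X ^ 2 + Y ^ 2) + 9 / 5 / ((X ^ 2 + Y ^ 2) ^ 2 - 4)) := by
  set d := X ^ 2 + Y ^ 2 with hd
  set f : ℝ × ℝ → ℝ := fun z => ker0 (X + z.1, Y + z.2) with hf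
  have hpos : ∀ z ∈ Q, 0 < (X + z.1) ^ 2 + (Y + z.2) ^ 2 := by
    intro z hz
    have he := sq_le_two hz
    have hprod : ((X + z.1) ^ 2 + (Y + z.2) ^ 2) * ((X - z.1) ^ 2 + (Y - z.2) ^ 2) =
        (d - (z.1 ^ 2 + z.2 ^ 2)) ^ 2 + 4 * (Y * z.1 - X * z.2) ^ 2 := by simp only [hd]; ring
    have h1 : 0 < (d - (z.1 ^ 2 + z.2 ^ 2)) ^ 2 := by
      have : d - (z.1 ^ 2 + z.2 ^ 2) ≠ 0 := by linarith
      positivity
    have h2 : 0 < ((X + z.1) ^ 2 + (Y + z.2) ^ 2) * ((X - z.1) ^ 2 + (Y - z.2) ^ 2) := by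
      rw [hprod]; positivity
    have h4 : 0 ≤ (X - z.1) ^ 2 + (Y - z.2) ^ 2 := by positivity
    exact pos_of_mul_pos_left h2 h4
  have hfi : IntegrableOn f Q := by
    apply ContinuousOn.integrableOn_compact (isCompact_Icc.prod isCompact_Icc)
    apply ContinuousOn.div (by fun_prop) (by fun_prop)
    intro z hz
    exact (hpos z hz).ne'
  refine ⟨(trans_Q X Y _).2 hfi, ?_⟩
  rw [(trans_Q X Y _).1]
  apply avg hfi
  intro z hz
  have he := sq_le_two hz
  have he0 : 0 ≤ z.1 ^ 2 + z.2 ^ 2 := by positivity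
  -- complex form
  set Z : ℂ := (X : ℂ) + (Y : ℂ) * Complex.I with hZ
  set ζ : ℂ := (z.1 : ℂ) + (z.2 : ℂ) * Complex.I with hζ
  have hI2 : Complex.I ^ 2 = -1 := Complex.I_sq
  have f0 : f z = -((Z + ζ)⁻¹).im := by
    simp only [hf]
    rw [ker0_eq]
    congr 3
    simp only [hZ, hζ]; push_cast; ring
  have f1 : f (rot z) = -((Z + Complex.I * ζ)⁻¹).im := by
    simp only [hf, rot_apply]
    rw [ker0_eq]
    congr 3
    simp only [hZ, hζ]; push_cast
    linear_combination (-(z.2 : ℂ)) * hI2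
  have f2 : f (rot (rot z)) = -((Z - ζ)⁻¹).im := by
    simp only [hf, rot_apply]
    rw [ker0_eq]
    congr 3
    simp only [hZ, hζ]; push_cast; ring
  have f3 : f (rot (rot (rot z))) = -((Z - Complex.I * ζ)⁻¹).im := by
    simp only [hf, rot_apply]
    rw [ker0_eq]
    congr 3
    simp only [hZ, hζ]; push_cast
    linear_combination ((z.2 : ℂ)) * hI2
  have nZ : ‖Z‖ ^ 2 = d := by
    rw [← Complex.normSq_eq_norm_sq, hZ, Complex.normSq_add_mul_I]
  have nζ : ‖ζ‖ ^ 2 = z.1 ^ 2 + z.2 ^ 2 := by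
    rw [← Complex.normSq_eq_norm_sq, hζ, Complex.normSq_add_mul_I]
  have nZ4 : ‖Z ^ 4‖ = d ^ 2 := by
    rw [norm_pow, ← nZ]; ring
  have nζ4 : ‖ζ ^ 4‖ ≤ 4 := by
    rw [norm_pow, show ‖ζ‖ ^ 4 = (‖ζ‖ ^ 2) ^ 2 by ring, nζ]
    nlinarith
  have hd2 : 25 ≤ d ^ 2 := by nlinarith
  have nsub : d ^ 2 - 4 ≤ ‖Z ^ 4 - ζ ^ 4‖ := by
    have := norm_sub_norm_le (Z ^ 4) (ζ ^ 4)
    rw [nZ4] at this
    linarith
  have hne4 : Z ^ 4 - ζ ^ 4 ≠ 0 := by
    intro h0
    rw [h0, norm_zero] at nsub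
    linarith
  have hfac : Z ^ 4 - ζ ^ 4 = (Z + ζ) * (Z - ζ) * ((Z + Complex.I * ζ) * (Z - Complex.I * ζ)) := by
    linear_combination ((Z ^ 2 - ζ ^ 2) * ζ ^ 2) * hI2
  have g0 : Z + ζ ≠ 0 := by intro h0; apply hne4; rw [hfac, h0]; ring
  have g2 : Z - ζ ≠ 0 := by intro h0; apply hne4; rw [hfac, h0]; ring
  have g1 : Z + Complex.I * ζ ≠ 0 := by intro h0; apply hne4; rw [hfac, h0]; ring
  have g3 : Z - Complex.I * ζ ≠ 0 := by intro h0; apply hne4; rw [hfac, h0]; ring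
  have hZ0 : Z ≠ 0 := by
    intro h0
    rw [h0, norm_zero] at nZ
    norm_num at nZ
    linarith
  have hsum : (Z + ζ)⁻¹ + (Z + Complex.I * ζ)⁻¹ + (Z - ζ)⁻¹ + (Z - Complex.I * ζ)⁻¹ =
      4 * Z⁻¹ + 4 * ζ ^ 4 / (Z * (Z ^ 4 - ζ ^ 4)) := by
    have h1 : (Z + ζ)⁻¹ + (Z - ζ)⁻¹ = 2 * Z / (Z ^ 2 - ζ ^ 2) := by
      have : Z ^ 2 - ζ ^ 2 ≠ 0 := by
        have e : Z ^ 2 - ζ ^ 2 = (Z + ζ) * (Z - ζ) := by ring
        rw [e]; exact mul_ne_zero g0 g2
      field_simp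
      ring
    have h2 : (Z + Complex.I * ζ)⁻¹ + (Z - Complex.I * ζ)⁻¹ = 2 * Z / (Z ^ 2 + ζ ^ 2) := by
      have e : Z ^ 2 + ζ ^ 2 = (Z + Complex.I * ζ) * (Z - Complex.I * ζ) := by
        linear_combination (ζ ^ 2) * hI2
      rw [e]
      field_simp
      ring
    have hA : Z ^ 2 - ζ ^ 2 ≠ 0 := by
      have e : Z ^ 2 - ζ ^ 2 = (Z + ζ) * (Z - ζ) := by ring
      rw [e]; exact mul_ne_zero g0 g2
    have hB : Z ^ 2 + ζ ^ 2 ≠ 0 := by
      have e : Z ^ 2 + ζ ^ 2 = (Z + Complex.I * ζ) * (Z - Complex.I * ζ) := by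
        linear_combination (ζ ^ 2) * hI2
      rw [e]; exact mul_ne_zero g1 g3
    have hC : Z ^ 4 - ζ ^ 4 = (Z ^ 2 - ζ ^ 2) * (Z ^ 2 + ζ ^ 2) := by ring
    calc (Z + ζ)⁻¹ + (Z + Complex.I * ζ)⁻¹ + (Z - ζ)⁻¹ + (Z - Complex.I * ζ)⁻¹
        = ((Z + ζ)⁻¹ + (Z - ζ)⁻¹) + ((Z + Complex.I * ζ)⁻¹ + (Z - Complex.I * ζ)⁻¹) := by ring
      _ = 2 * Z / (Z ^ 2 - ζ ^ 2) + 2 * Z / (Z ^ 2 + ζ ^ 2) := by rw [h1, h2]
      _ = 4 * Z⁻¹ + 4 * ζ ^ 4 / (Z * (Z ^ 4 - ζ ^ 4)) := by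
        rw [hC]
        field_simp
        ring
  have hS : f z + f (rot z) + f (rot (rot z)) + f (rot (rot (rot z))) =
      4 * (Y / d) - (4 * ζ ^ 4 / (Z * (Z ^ 4 - ζ ^ 4))).im := by
    have e1 : f z + f (rot z) + f (rot (rot z)) + f (rot (rot (rot z))) =
        -((Z + ζ)⁻¹ + (Z + Complex.I * ζ)⁻¹ + (Z - ζ)⁻¹ + (Z - Complex.I * ζ)⁻¹).im := by
      rw [f0, f1, f2, f3]
      simp only [Complex.add_im]
      ring
    rw [e1, hsum, Complex.add_im]
    have e2 : (4 * Z⁻¹).im = -(4 * (Y / d)) := by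
      have := ker0_eq (X, Y)
      simp only [ker0] at this
      rw [← hZ, ← hd] at this
      have h3 : (4 * Z⁻¹).im = 4 * (Z⁻¹).im := by
        simp [Complex.mul_im]
      rw [h3, this]
      ring
    rw [e2]
    ring
  have hbd : |(4 * ζ ^ 4 / (Z * (Z ^ 4 - ζ ^ 4))).im| ≤ 4 * (9 / 5 / (d ^ 2 - 4)) := by
    refine (Complex.abs_im_le_norm _).trans ?_
    rw [norm_div, norm_mul, norm_mul]
    have hn4 : ‖(4 : ℂ)‖ = 4 := by simp
    rw [hn4]
    have hZn : 20 / 9 ≤ ‖Z‖ := by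
      by_contra hcon
      push Not at hcon
      have : ‖Z‖ ^ 2 < (20 / 9) ^ 2 := by
        apply pow_lt_pow_left₀ hcon (norm_nonneg _) (by norm_num)
      rw [nZ] at this
      norm_num at this
      linarith
    have hp1 : 0 < d ^ 2 - 4 := by linarith
    have e4 : 4 * (9 / 5 / (d ^ 2 - 4)) = 16 / (20 / 9 * (d ^ 2 - 4)) := by
      field_simp
      norm_num
    rw [e4]
    apply div_le_div₀ (by norm_num) (by linarith) (by positivity)
    exact mul_le_mul hZn nsub hp1.le (norm_nonneg _)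
  rw [hS]
  have h3 := abs_le.1 hbd
  constructor <;> linarith [h3.1, h3.2]

/-- inner integral -/
theorem inner0 (X : ℝ) {b : ℝ} (hb : 0 < b) :
    ∫ a in (X - 1)..(X + 1), ker0 (a, b) = Real.arctan ((X + 1) / b) - Real.arctan ((X - 1) / b) := by
  have hd : ∀ x : ℝ, HasDerivAt (fun x : ℝ => Real.arctan (x / b)) (ker0 (x, b)) x := by
    intro x
    have h3 : HasDerivAt (fun x : ℝ => Real.arctan (x / b)) (1 / (1 + (x / b) ^ 2) * (1 / b)) x := by
      exact (Real.hasDerivAt_arctan (x / b)).comp x ((hasDerivAt_id x).div_const b)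
    refine HasDerivAt.congr_deriv h3 ?_
    simp only [ker0]
    field_simp
    ring
  have hc : Continuous (fun x : ℝ => ker0 (x, b)) := by
    simp only [ker0]
    apply Continuous.div continuous_const (by fun_prop)
    intro x; positivity
  rw [intervalIntegral.integral_eq_sub_of_hasDerivAt (fun x _ => hd x) (hc.intervalIntegrable _ _)]

theorem inner0_int (X : ℝ) {T0 T1 : ℝ} (hT0 : 0 ≤ T0) (hT : T0 ≤ T1) :
    IntervalIntegrable (fun b => ∫ a in (X - 1)..(X + 1), ker0 (a, b)) volume T0 T1 := by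
  rw [intervalIntegrable_iff_integrableOn_Ioc_of_le hT]
  have h1 : IntegrableOn (fun b : ℝ => Real.arctan ((X + 1) / b) - Real.arctan ((X - 1) / b))
      (Ioc T0 T1) := by
    apply Measure.integrableOn_of_bounded (M := π) (measure_Ioc_lt_top.ne)
    · apply Measurable.aestronglyMeasurable
      fun_prop
    · filter_upwards with b
      rw [Real.norm_eq_abs, abs_le]
      have a1 := Real.arctan_lt_pi_div_two ((X + 1) / b)
      have a2 := Real.neg_pi_div_two_lt_arctan ((X + 1) / b)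
      have a3 := Real.arctan_lt_pi_div_two ((X - 1) / b)
      have a4 := Real.neg_pi_div_two_lt_arctan ((X - 1) / b)
      constructor <;> linarith
  refine h1.congr_fun ?_ measurableSet_Ioc
  intro b hb
  exact (inner0 X (lt_of_le_of_lt hT0 hb.1)).symm

theorem corner0 : ∫ b in (0:ℝ)..2, ∫ a in ((-1:ℝ) - 1)..((-1) + 1), ker0 (a, b) =
    Real.log 2 + π / 2 := by
  rw [intervalIntegral.integral_of_le (by norm_num)]
  have h1 : ∀ b ∈ Ioc (0:ℝ) 2, ∫ a in ((-1:ℝ) - 1)..((-1) + 1), ker0 (a, b) =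
      π / 2 - Real.arctan (b / 2) := by
    intro b hb
    rw [inner0 _ hb.1]
    norm_num
    have e : (-2 : ℝ) / b = -(2 / b) := by ring
    rw [e, Real.arctan_neg, neg_neg, arctan_pos_inv (div_pos two_pos hb.1), one_div_div]
  rw [setIntegral_congr_fun measurableSet_Ioc h1, ← intervalIntegral.integral_of_le (by norm_num)]
  have hd : ∀ x : ℝ, HasDerivAt (fun x : ℝ => π / 2 * x - (x * Real.arctan (x / 2) -
      Real.log (x ^ 2 + 4))) (π / 2 - Real.arctan (x / 2)) x := by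
    intro x
    have h0 : HasDerivAt (fun x : ℝ => x ^ 2 + 4) (2 * x) x := by
      simpa using (hasDerivAt_pow 2 x).add_const (4 : ℝ)
    have h1 : HasDerivAt (fun x : ℝ => Real.log (x ^ 2 + 4)) (2 * x / (x ^ 2 + 4)) x :=
      h0.log (by positivity)
    have h3 : HasDerivAt (fun x : ℝ => Real.arctan (x / 2)) (1 / (1 + (x / 2) ^ 2) * (1 / 2)) x := by
      exact (Real.hasDerivAt_arctan (x / 2)).comp x ((hasDerivAt_id x).div_const 2)
    have h2 : HasDerivAt (fun x : ℝ => x * Real.arctan (x / 2))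
        (1 * Real.arctan (x / 2) + x * (1 / (1 + (x / 2) ^ 2) * (1 / 2))) x := (hasDerivAt_id x).mul h3
    refine HasDerivAt.congr_deriv (((hasDerivAt_id x).const_mul (π / 2)).sub (h2.sub h1)) ?_
    field_simp
    ring
  have hc : Continuous (fun x : ℝ => π / 2 - Real.arctan (x / 2)) := by
    apply continuous_const.sub
    exact Real.continuous_arctan.comp (by fun_prop)
  rw [intervalIntegral.integral_eq_sub_of_hasDerivAt (fun x _ => hd x) (hc.intervalIntegrable _ _)]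
  have e8 : Real.log (2 ^ 2 + 4) = Real.log 2 + Real.log 4 := by
    rw [← Real.log_mul (by norm_num) (by norm_num)]; norm_num
  rw [e8]
  norm_num
  ring

end T19

open T17 T18 T19

theorem t_rpot0 : S_rpot0 := by
  intro u cj i n hu hn hncj
  set Xm : ℕ → ℝ := fun m => -(n : ℝ) + 1 + 2 * (m : ℝ) - (cj : ℝ) with hXm
  have key : rpot (u * (cj : ℝ), 0) (u * (n : ℝ)) (2 * u * (i : ℝ))
      (2 * u * ((i : ℝ) + 1)) = u * ∑ m ∈ Finset.range n,
        ∫ b in (2 * (i : ℝ))..(2 * (i : ℝ) + 2), ∫ a in (Xm m - 1)..(Xm m + 1), ker0 (a, b) := by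
    have e1 : 2 * u * (i : ℝ) = u * (2 * (i : ℝ)) := by ring
    have e2 : 2 * u * ((i : ℝ) + 1) = u * (2 * (i : ℝ) + 2) := by ring
    rw [rpot, e1, e2, scale (fun x y => π * kap (u * (cj : ℝ), 0) (x, y) * y) hu
      (Nat.cast_nonneg n) (by linarith)]
    have hinner : ∀ b ∈ Ioo (2 * (i : ℝ)) (2 * (i : ℝ) + 2),
        (∫ a in (-(n : ℝ))..(n : ℝ), π * kap (u * (cj : ℝ), 0) (u * a, u * b) * (u * b)) =
        (1 / u) * ∑ m ∈ Finset.range n, ∫ a in (Xm m - 1)..(Xm m + 1), ker0 (a, b) := by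
      intro b hb
      have hb0 : 0 < b := lt_of_le_of_lt (by positivity) hb.1
      have hpt : ∀ a : ℝ, π * kap (u * (cj : ℝ), 0) (u * a, u * b) * (u * b) =
          (1 / u) * ker0 (a - cj, b) := by
        intro a
        rw [pi_kap]
        simp only [kk, dsq, ker0, mul_zero, zero_mul, if_true]
        have hD : 0 < (a - cj) ^ 2 + b ^ 2 := by positivity
        have e1 : (u * (cj : ℝ) - u * a) ^ 2 + (0 - u * b) ^ 2 = u ^ 2 * ((a - cj) ^ 2 + b ^ 2) := by
          ring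
        rw [e1]
        field_simp
      simp only [hpt]
      rw [intervalIntegral.integral_const_mul]
      congr 1
      have hc : Continuous (fun a : ℝ => ker0 (a, b)) := by
        simp only [ker0]
        apply Continuous.div continuous_const (by fun_prop)
        intro x; positivity
      exact split (fun a : ℝ => ker0 (a, b)) hc n cj
    have hle : 2 * (i : ℝ) ≤ 2 * (i : ℝ) + 2 := by linarith
    rw [intervalIntegral.integral_of_le hle, integral_Ioc_eq_integral_Ioo,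
      setIntegral_congr_fun measurableSet_Ioo hinner, ← integral_Ioc_eq_integral_Ioo,
      ← intervalIntegral.integral_of_le hle, intervalIntegral.integral_const_mul]
    rw [intervalIntegral.integral_finsetSum
      (fun m _ => inner0_int (Xm m) (by positivity) hle)]
    field_simp
  rw [key]
  have hcell : ∀ m ∈ Finset.range n,
      clo (-(n : ℤ) + 1 + 2 * m - cj) (2 * i + 1) ≤
        ∫ b in (2 * (i : ℝ))..(2 * (i : ℝ) + 2), ∫ a in (Xm m - 1)..(Xm m + 1), ker0 (a, b) ∧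
      ∫ b in (2 * (i : ℝ))..(2 * (i : ℝ) + 2), ∫ a in (Xm m - 1)..(Xm m + 1), ker0 (a, b) ≤
        cup (-(n : ℤ) + 1 + 2 * m - cj) (2 * i + 1) := by
    intro m hm
    have hmn : m < n := Finset.mem_range.1 hm
    set X : ℤ := -(n : ℤ) + 1 + 2 * (m : ℤ) - (cj : ℤ) with hX
    set Y : ℤ := 2 * (i : ℤ) + 1 with hY
    have eX : (X : ℝ) = Xm m := by simp only [hXm, hX]; push_cast; ring
    have eY : (Y : ℝ) = 2 * (i : ℝ) + 1 := by simp only [hY]; push_cast; ring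
    have hXle : X ≤ -1 := by omega
    have hYge : 1 ≤ Y := by omega
    simp only [clo, cup]
    by_cases h5 : 5 ≤ X ^ 2 + Y ^ 2
    · rw [if_pos h5, if_pos h5]
      have h5' : (5 : ℝ) ≤ (X : ℝ) ^ 2 + (Y : ℝ) ^ 2 := by exact_mod_cast h5
      obtain ⟨b1, b2, b3⟩ := ker0_big (X : ℝ) (Y : ℝ) h5'
      have hi := (cell_iter b1).2
      have y1 : (Y : ℝ) - 1 = 2 * (i : ℝ) := by rw [eY]; ring
      have y2 : (Y : ℝ) + 1 = 2 * (i : ℝ) + 2 := by rw [eY]; ring
      rw [y1, y2, eX] at hi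
      rw [hi]
      rw [eX] at b2 b3
      push_cast
      rw [eX]
      exact ⟨b2, b3⟩
    · rw [if_neg h5, if_neg h5]
      push Not at h5
      have hi1 : i = 0 := by
        by_contra hne
        have : 1 ≤ (i : ℤ) := by omega
        have : 3 ≤ Y := by omega
        nlinarith
      have hX1 : X = -1 := by
        have : -2 < X := by nlinarith
        omega
      have eX1 : Xm m = -1 := by rw [← eX, hX1]; norm_num
      rw [hi1, eX1]
      have hcor := corner0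
      have e0 : (2 * ((0 : ℕ) : ℝ)) = 0 := by norm_num
      rw [e0, zero_add, hcor]
      have h1 := Real.log_two_gt_d9
      have h2 := Real.log_two_lt_d9
      have h3 := Real.pi_gt_d6
      have h4 := Real.pi_lt_d6
      norm_num at h1 h2 h3 h4 ⊢
      constructor <;> linarith
  constructor
  · apply mul_le_mul_of_nonneg_left _ hu.le
    exact Finset.sum_le_sum fun m hm => (hcell m hm).2
  · apply mul_le_mul_of_nonneg_left _ hu.le
    exact Finset.sum_le_sum fun m hm => (hcell m hm).1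

end SV
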