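import Pool.Agent.Helper779.SV.T21

/-!
# T20: potentials at the top vertex and at the axis vertex
-/

open MeasureTheory Set Filter Topology
open scoped Real

namespace SV

namespace T20

/-- integrability of the slices -/
theorem slice1_int {A : Set (ℝ × ℝ)} (hA : MeasurableSet A) {g : ℝ × ℝ → ℝ}
    (hg : IntegrableOn g A) : Integrable fun x : ℝ => ∫ v in {v : ℝ | (x, v) ∈ A}, g (x, v) := by
  have h1 : Integrable (A.indicator g) ((volume : Measure ℝ).prod volume) :=
    (integrable_indicator_iff hA).mpr hg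
  have h2 := h1.integral_prod_left
  refine h2.congr (Eventually.of_forall fun x => ?_)
  have hm : MeasurableSet {v : ℝ | (x, v) ∈ A} := hA.preimage measurable_prodMk_left
  simp only
  rw [← integral_indicator hm]
  rfl

theorem kk_nonneg {D z : ℝ} (hD : 0 ≤ D) (hz : 0 ≤ z) : 0 ≤ kk D z := by
  unfold kk
  split_ifs with h
  · exact div_nonneg zero_le_one hD
  · refine div_nonneg (Real.log_nonneg ?_) hz
    have := div_nonneg hz hD
    linarith

theorem kk_anti {D D' z : ℝ} (hD : 0 < D) (hDD : D ≤ D') (hz : 0 ≤ z) : kk D' z ≤ kk D z := by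
  unfold kk
  split_ifs with h
  · exact one_div_le_one_div_of_le hD hDD
  · refine div_le_div_of_nonneg_right (Real.log_le_log ?_ ?_) hz
    · have := div_nonneg hz (le_trans (le_of_lt hD) hDD)
      linarith
    · have := div_le_div_of_nonneg_left hz hD hDD
      linarith

theorem dsq_nonneg (x y : ℝ × ℝ) : 0 ≤ dsq x y := by
  unfold dsq; positivity

theorem kap_nonneg {x y : ℝ × ℝ} (hx : 0 ≤ x.2) (hy : 0 ≤ y.2) : 0 ≤ kap x y := by
  unfold kap
  refine mul_nonneg (by positivity) (kk_nonneg (dsq_nonneg _ _) ?_)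
  positivity

/-- the majorant of the column integrand -/
theorem top_pt {h x v : ℝ} (hh : 0 < h) (hv : 0 < v) (hvh : v < h) :
    π * (kap (0, h) (x, v) * v) ≤ (1 / (2 * h)) * (Real.log (h + v) - Real.log (h - v)) := by
  have hhv : 0 < h - v := by linarith
  have h1 : π * (kap (0, h) (x, v) * v) = kk (dsq (0, h) (x, v)) (4 * h * v) * v := by
    unfold kap
    simp only
    field_simp
  rw [h1]
  have h2 : kk (dsq (0, h) (x, v)) (4 * h * v) ≤ kk ((h - v) ^ 2) (4 * h * v) := by
    refine kk_anti (by positivity) ?_ (by positivity)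
    unfold dsq
    simp only
    nlinarith [sq_nonneg (0 - x)]
  have h3 : kk ((h - v) ^ 2) (4 * h * v) * v =
      (1 / (2 * h)) * (Real.log (h + v) - Real.log (h - v)) := by
    unfold kk
    rw [if_neg (by positivity)]
    have h4 : 1 + 4 * h * v / (h - v) ^ 2 = ((h + v) / (h - v)) ^ 2 := by
      field_simp
      ring
    rw [h4, Real.log_pow, Real.log_div (by positivity) (by positivity)]
    field_simp
    push_cast
    ring
  calc _ ≤ kk ((h - v) ^ 2) (4 * h * v) * v := mul_le_mul_of_nonneg_right h2 (le_of_lt hv)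
    _ = _ := h3

theorem top_val {h c : ℝ} (hh : 0 < h) (hc : 0 < c) (hch : c ≤ h) :
    ∫ v in (0:ℝ)..c, (1 / (2 * h)) * (Real.log (h + v) - Real.log (h - v)) ≤ c ^ 2 / h ^ 2 := by
  have i1 : IntervalIntegrable (fun v => Real.log (h + v)) volume 0 c :=
    (intervalIntegral.intervalIntegrable_log' (a := h + 0) (b := h + c)).comp_add_left h |> fun t => by
      simpa using t
  have i2 : IntervalIntegrable (fun v => Real.log (h - v)) volume 0 c := by
    have := (intervalIntegral.intervalIntegrable_log' (a := h - 0) (b := h - c)).comp_sub_left h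
    simpa using this
  rw [intervalIntegral.integral_const_mul, intervalIntegral.integral_sub i1 i2,
    intervalIntegral.integral_comp_add_left, intervalIntegral.integral_comp_sub_left, integral_log,
    integral_log]
  have hlog1 : Real.log (h + c) ≤ Real.log h + c / h := by
    have h1 : Real.log (h + c) - Real.log h = Real.log (1 + c / h) := by
      rw [← Real.log_div (by positivity) (by positivity)]
      congr 1
      field_simp
    have h2 : Real.log (1 + c / h) ≤ c / h := by
      have := Real.log_le_sub_one_of_pos (show 0 < 1 + c / h by positivity)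
      linarith
    linarith
  have hlog2 : (h - c) * Real.log (h - c) ≤ (h - c) * (Real.log h - c / h) := by
    rcases hch.eq_or_lt with h0 | h0
    · rw [h0]; simp
    · have h3 : 0 < h - c := by linarith
      refine mul_le_mul_of_nonneg_left ?_ (le_of_lt h3)
      have h1 : Real.log (h - c) - Real.log h = Real.log (1 - c / h) := by
        rw [← Real.log_div (by positivity) (by positivity)]
        congr 1
        field_simp
      have h4 : 0 < 1 - c / h := by
        have : c / h < 1 := by rw [div_lt_one hh]; exact h0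
        linarith
      have h2 := Real.log_le_sub_one_of_pos h4
      linarith
  have hlog1' : (h + c) * Real.log (h + c) ≤ (h + c) * (Real.log h + c / h) :=
    mul_le_mul_of_nonneg_left hlog1 (by linarith)
  have key : (h + c) * Real.log (h + c) - (h + 0) * Real.log (h + 0) - (h + c) + (h + 0) -
      ((h - 0) * Real.log (h - 0) - (h - c) * Real.log (h - c) - (h - 0) + (h - c)) ≤
      2 * c ^ 2 / h := by
    have e : (h + c) * (Real.log h + c / h) + (h - c) * (Real.log h - c / h) =
        2 * h * Real.log h + 2 * c ^ 2 / h := by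
      field_simp
      ring
    rw [add_zero, sub_zero]
    linarith
  calc _ ≤ 1 / (2 * h) * (2 * c ^ 2 / h) := mul_le_mul_of_nonneg_left key (by positivity)
    _ = c ^ 2 / h ^ 2 := by field_simp

/-- structure of the columns of a lower set -/
theorem column {A : Set (ℝ × ℝ)} (hs : A ⊆ UH) (hl : Low A) {h : ℝ} (hh : ∀ x ∈ A, x.2 ≤ h) (x : ℝ)
    (hne : {v : ℝ | (x, v) ∈ A}.Nonempty) : ∃ c : ℝ, 0 < c ∧ c ≤ h ∧
      {v : ℝ | (x, v) ∈ A} =ᵐ[volume] Ioc 0 c := by
  set S := {v : ℝ | (x, v) ∈ A} with hS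
  have hbd : BddAbove S := ⟨h, fun v hv => hh _ hv⟩
  obtain ⟨v0, hv0⟩ := hne
  have hv0' : 0 < v0 := hs hv0
  refine ⟨sSup S, lt_of_lt_of_le hv0' (le_csSup hbd hv0), csSup_le ⟨v0, hv0⟩ fun v hv => hh _ hv, ?_⟩
  have hnull : ∀ᵐ v : ℝ, v ≠ sSup S := compl_mem_ae_iff.mpr (measure_singleton _)
  filter_upwards [hnull] with v hv
  refine propext ⟨fun h1 => ⟨hs h1, le_csSup hbd h1⟩, fun h1 => ?_⟩
  have h2 : v < sSup S := lt_of_le_of_ne h1.2 hv
  obtain ⟨v', hv', hvv'⟩ := exists_lt_of_lt_csSup ⟨v0, hv0⟩ h2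
  exact hl _ hv' (x, v) (le_refl _) h1.1 (le_of_lt hvv')

theorem t_top (hI : S_int) : S_top := by
  intro A h hh hAo hAs hAl hAh hAb
  have hFi : Fi A := T21.fi_of_bdd hAo.measurableSet hAs hAb
  have hint := hI A hFi (0, h) (le_of_lt hh)
  have e1 : π * phi A (0, h) = ∫ x : ℝ, π * ∫ v in {v : ℝ | (x, v) ∈ A}, kap (0, h) (x, v) * v := by
    unfold phi
    rw [T21.slice1 hFi.meas hint, integral_const_mul]
  have e2 : 4 / h ^ 2 * PP A = ∫ x : ℝ, 4 / h ^ 2 * ∫ v in {v : ℝ | (x, v) ∈ A}, v := by
    unfold PP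
    rw [T21.slice1 hFi.meas hFi.int, integral_const_mul]
  rw [e1, e2]
  refine integral_mono ((slice1_int hFi.meas hint).const_mul _)
    ((slice1_int hFi.meas hFi.int).const_mul _) ?_
  intro x
  simp only
  rcases {v : ℝ | (x, v) ∈ A}.eq_empty_or_nonempty with he | hne
  · rw [he]; simp
  · obtain ⟨c, hc, hch, hae⟩ := column hAs hAl hAh x hne
    rw [setIntegral_congr_set hae, setIntegral_congr_set hae,
      ← intervalIntegral.integral_of_le (le_of_lt hc) (f := fun v : ℝ => v), integral_id,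
      ← integral_const_mul]
    have h1 : ∫ v in Ioc 0 c, π * (kap (0, h) (x, v) * v) ≤
        ∫ v in Ioc 0 c, (1 / (2 * h)) * (Real.log (h + v) - Real.log (h - v)) := by
      refine integral_mono_of_nonneg ?_ ?_ ?_
      · refine (ae_restrict_iff' measurableSet_Ioc).mpr (Eventually.of_forall fun v hv => ?_)
        exact mul_nonneg (by positivity) (mul_nonneg (kap_nonneg (le_of_lt hh) (le_of_lt hv.1))
          (le_of_lt hv.1))
      · have i1 : IntervalIntegrable (fun v => Real.log (h + v)) volume 0 c :=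
          (intervalIntegral.intervalIntegrable_log' (a := h + 0) (b := h + c)).comp_add_left h |> fun t => by
            simpa using t
        have i2 : IntervalIntegrable (fun v => Real.log (h - v)) volume 0 c := by
          have := (intervalIntegral.intervalIntegrable_log' (a := h - 0) (b := h - c)).comp_sub_left h
          simpa using this
        exact (((i1.sub i2).const_mul (1 / (2 * h))).1)
      · have hnull : ∀ᵐ v : ℝ, v ≠ h := compl_mem_ae_iff.mpr (measure_singleton _)
        refine (ae_restrict_iff' measurableSet_Ioc).mpr ?_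
        filter_upwards [hnull] with v hv hv2
        exact top_pt hh hv2.1 (lt_of_le_of_ne (le_trans hv2.2 hch) hv)
    rw [← intervalIntegral.integral_of_le (le_of_lt hc)] at h1
    rw [← intervalIntegral.integral_of_le (le_of_lt hc)] at h1
    rw [← intervalIntegral.integral_of_le (le_of_lt hc)]
    refine le_trans (le_trans h1 (top_val hh hc hch)) ?_
    have h5 : 4 / h ^ 2 * ((c ^ 2 - 0 ^ 2) / 2) = 2 * (c ^ 2 / h ^ 2) := by
      field_simp
      ring
    rw [h5]
    have : 0 ≤ c ^ 2 / h ^ 2 := by positivity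
    linarith


theorem slice2_int {A : Set (ℝ × ℝ)} (hA : MeasurableSet A) {g : ℝ × ℝ → ℝ}
    (hg : IntegrableOn g A) : Integrable fun v : ℝ => ∫ x in {x : ℝ | (x, v) ∈ A}, g (x, v) := by
  have h1 : Integrable (A.indicator g) ((volume : Measure ℝ).prod volume) :=
    (integrable_indicator_iff hA).mpr hg
  have h2 := h1.integral_prod_right
  refine h2.congr (Eventually.of_forall fun v => ?_)
  have hm : MeasurableSet {x : ℝ | (x, v) ∈ A} := hA.preimage measurable_prodMk_right
  simp only
  rw [← integral_indicator hm]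
  rfl

/-- impulse of a centred rectangle -/
theorem PP_rect {p q : ℝ} (hp : 0 ≤ p) (hq : 0 ≤ q) :
    PP {z : ℝ × ℝ | |z.1| ≤ p ∧ 0 < z.2 ∧ z.2 ≤ q} = p * q ^ 2 := by
  set R : Set (ℝ × ℝ) := {z : ℝ × ℝ | |z.1| ≤ p ∧ 0 < z.2 ∧ z.2 ≤ q} with hR
  have hRm : MeasurableSet R := by
    have h : R = {z : ℝ × ℝ | |z.1| ≤ p} ∩ ({z : ℝ × ℝ | 0 < z.2} ∩ {z : ℝ × ℝ | z.2 ≤ q}) := rfl
    rw [h]
    exact (measurableSet_le measurable_fst.abs measurable_const).inter
      ((measurableSet_lt measurable_const measurable_snd).inter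
        (measurableSet_le measurable_snd measurable_const))
  have hint : IntegrableOn (fun y : ℝ × ℝ => y.2) R := by
    refine T21.int_snd (a := p) (b := q) ?_
    rintro y ⟨h1, h2, h3⟩
    exact ⟨h1, by rw [abs_of_pos h2]; exact h3⟩
  unfold PP
  rw [T21.slice2 hRm hint]
  have hslice : ∀ v : ℝ, (∫ x in {x : ℝ | (x, v) ∈ R}, v) =
      (Ioc 0 q).indicator (fun v => v * (2 * p)) v := by
    intro v
    by_cases hv : v ∈ Ioc 0 q
    · rw [indicator_of_mem hv, setIntegral_const]
      have h1 : {x : ℝ | (x, v) ∈ R} = Icc (-p) p := by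
        ext x
        constructor
        · rintro ⟨h1, _, _⟩
          exact abs_le.mp h1
        · intro h
          exact ⟨abs_le.mpr h, hv.1, hv.2⟩
      rw [h1, Measure.real, Real.volume_Icc, ENNReal.toReal_ofReal (by linarith), smul_eq_mul]
      ring
    · rw [indicator_of_notMem hv]
      have : {x : ℝ | (x, v) ∈ R} = ∅ := by
        ext x
        simp only [mem_ofPred_eq, mem_empty_iff_false, iff_false]
        rintro ⟨_, h2, h3⟩
        exact hv ⟨h2, h3⟩
      rw [this]
      simp
  simp only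
  rw [integral_congr_ae (Eventually.of_forall hslice), integral_indicator measurableSet_Ioc,
    ← intervalIntegral.integral_of_le hq, intervalIntegral.integral_mul_const, integral_id]
  ring

theorem PP_nonneg {A : Set (ℝ × ℝ)} (hA : Fi A) : 0 ≤ PP A :=
  setIntegral_nonneg hA.meas fun _ hy => le_of_lt (hA.sub hy)

theorem PP_mono {A B : Set (ℝ × ℝ)} (hB : Fi B) (hAB : A ⊆ B) : PP A ≤ PP B := by
  unfold PP
  refine setIntegral_mono_set hB.int ?_ (Eventually.of_forall hAB)
  exact (ae_restrict_iff' hB.meas).mpr (Eventually.of_forall fun y hy => le_of_lt (hB.sub hy))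

theorem kap_axis (a : ℝ) (y : ℝ × ℝ) :
    kap (a, 0) y = (1 / π) * (1 / ((a - y.1) ^ 2 + y.2 ^ 2)) := by
  unfold kap kk dsq
  simp

theorem inner_axis {a v : ℝ} (ha : 0 < a) (hv : 0 < v) :
    ∫ x in Ioc (a / 2) a, kap (a, 0) (x, v) * v ≤ 1 / 2 := by
  have h1 : ∀ x : ℝ, kap (a, 0) (x, v) * v = (1 / π) * (v / ((a - x) ^ 2 + v ^ 2)) := by
    intro x
    rw [kap_axis]
    ring
  simp_rw [h1]
  rw [integral_const_mul, ← intervalIntegral.integral_of_le (by linarith)]
  have h2 : ∀ x ∈ uIcc (a / 2) a, HasDerivAt (fun x => - Real.arctan ((a - x) / v))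
      (v / ((a - x) ^ 2 + v ^ 2)) x := by
    intro x _
    have h3 : HasDerivAt (fun x : ℝ => (a - x) / v) (-1 / v) x := by
      have := ((hasDerivAt_id x).const_sub a).div_const v
      simpa using this
    have h4 := (h3.arctan).neg
    have h6 : v / ((a - x) ^ 2 + v ^ 2) = -(1 / (1 + ((a - x) / v) ^ 2) * (-1 / v)) := by
      have : (1 + ((a - x) / v) ^ 2) = ((a - x) ^ 2 + v ^ 2) / v ^ 2 := by
        field_simp
        ring
      rw [this]
      field_simp
    rw [h6]
    exact h4
  have h5 : IntervalIntegrable (fun x => v / ((a - x) ^ 2 + v ^ 2)) volume (a / 2) a := by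
    refine ContinuousOn.intervalIntegrable ?_
    refine ContinuousOn.div continuousOn_const (by fun_prop) ?_
    intro x _
    positivity
  rw [intervalIntegral.integral_eq_sub_of_hasDerivAt h2 h5]
  simp only [sub_self, zero_div, Real.arctan_zero, neg_zero, sub_neg_eq_add, zero_add]
  have h6 := (Real.arctan_lt_pi_div_two ((a - a / 2) / v)).le
  calc 1 / π * Real.arctan ((a - a / 2) / v) ≤ 1 / π * (π / 2) :=
        mul_le_mul_of_nonneg_left h6 (by positivity)
    _ = 1 / 2 := by field_simp

theorem quad_axis (hI : S_int) {a H : ℝ} (ha : 0 < a) (hH : 0 ≤ H) :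
    IntegrableOn (fun y => kap (a, 0) y * y.2) (Ioc (a / 2) a ×ˢ Ioc 0 H) ∧
    ∫ y in Ioc (a / 2) a ×ˢ Ioc 0 H, kap (a, 0) y * y.2 ≤ 1 / 2 * H := by
  set Q : Set (ℝ × ℝ) := Ioc (a / 2) a ×ˢ Ioc 0 H with hQ
  have hQm : MeasurableSet Q := measurableSet_Ioc.prod measurableSet_Ioc
  have hQF : Fi Q := by
    refine ⟨hQm, fun y hy => hy.2.1, T21.int_snd (a := a) (b := H) ?_⟩
    rintro y ⟨⟨h1, h2⟩, h3, h4⟩
    exact ⟨by rw [abs_of_pos (by linarith)]; exact h2, by rw [abs_of_pos h3]; exact h4⟩
  have hint := hI Q hQF (a, 0) le_rfl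
  refine ⟨hint, ?_⟩
  rw [T21.slice2 hQm hint]
  have h1 : ∀ v : ℝ, (∫ x in {x : ℝ | (x, v) ∈ Q}, kap (a, 0) (x, v) * v) ≤
      (Ioc 0 H).indicator (fun _ => (1 / 2 : ℝ)) v := by
    intro v
    by_cases hv : v ∈ Ioc 0 H
    · rw [indicator_of_mem hv]
      have : {x : ℝ | (x, v) ∈ Q} = Ioc (a / 2) a := by
        ext x
        constructor
        · intro h; exact h.1
        · intro h; exact ⟨h, hv⟩
      rw [this]
      exact inner_axis ha hv.1
    · rw [indicator_of_notMem hv]
      have : {x : ℝ | (x, v) ∈ Q} = ∅ := by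
        ext x
        simp only [mem_ofPred_eq, mem_empty_iff_false, iff_false]
        intro h
        exact hv h.2
      rw [this]
      simp
  have h2 := integral_mono (slice2_int hQm hint)
    (((integrable_const (1 / 2 : ℝ)).integrableOn (s := Ioc 0 H) (μ := volume.restrict (Ioc 0 H)))
      |> fun _ => (integrableOn_const (μ := volume) (s := Ioc 0 H) (C := (1 / 2 : ℝ))
        (by rw [Real.volume_Ioc]; exact ENNReal.ofReal_ne_top)).integrable_indicator measurableSet_Ioc) h1
  refine le_trans h2 (le_of_eq ?_)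
  rw [integral_indicator measurableSet_Ioc, setIntegral_const, Measure.real, Real.volume_Ioc,
    ENNReal.toReal_ofReal (by linarith), smul_eq_mul]
  ring

theorem t_axis (hI : S_int) : S_axis := by
  intro A a ha hAo hAs hAl hAa hAb
  have hFi : Fi A := T21.fi_of_bdd hAo.measurableSet hAs hAb
  have hint := hI A hFi (a, 0) le_rfl
  have hPP := PP_nonneg hFi
  set H := √(2 * PP A / a) with hH
  have hH0 : 0 ≤ H := Real.sqrt_nonneg _
  set L : Set (ℝ × ℝ) := {y : ℝ × ℝ | y.1 ≤ a / 2} with hL
  have hLm : MeasurableSet L := measurableSet_le measurable_fst measurable_const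
  unfold phi
  rw [← integral_inter_add_sdiff hLm hint]
  have h1 : ∫ y in A ∩ L, kap (a, 0) y * y.2 ≤ 4 * PP A / (π * a ^ 2) := by
    have h2 : ∫ y in A ∩ L, kap (a, 0) y * y.2 ≤ ∫ y in A ∩ L, 4 / (π * a ^ 2) * y.2 := by
      refine setIntegral_mono_on (hint.mono_set inter_subset_left)
        ((hFi.int.mono_set inter_subset_left).const_mul _) (hFi.meas.inter hLm) ?_
      rintro y ⟨hy1, hy2⟩
      have hy3 : 0 < y.2 := hAs hy1
      refine mul_le_mul_of_nonneg_right ?_ (le_of_lt hy3)
      rw [kap_axis]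
      have hy4 : y.1 ≤ a / 2 := hy2
      have h3 : (a / 2) ^ 2 ≤ (a - y.1) ^ 2 + y.2 ^ 2 := by nlinarith [sq_nonneg y.2]
      calc 1 / π * (1 / ((a - y.1) ^ 2 + y.2 ^ 2)) ≤ 1 / π * (1 / (a / 2) ^ 2) :=
            mul_le_mul_of_nonneg_left (one_div_le_one_div_of_le (by positivity) h3) (by positivity)
        _ = 4 / (π * a ^ 2) := by field_simp; norm_num
    rw [integral_const_mul] at h2
    have h4 : ∫ y in A ∩ L, y.2 ≤ PP A := PP_mono hFi inter_subset_left
    calc _ ≤ _ := h2
      _ ≤ 4 / (π * a ^ 2) * PP A := mul_le_mul_of_nonneg_left h4 (by positivity)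
      _ = 4 * PP A / (π * a ^ 2) := by ring
  have h5 : A \ L ⊆ Ioc (a / 2) a ×ˢ Ioc 0 H := by
    rintro y ⟨hy1, hy2⟩
    have hy3 : 0 < y.2 := hAs hy1
    have hy4 : a / 2 < y.1 := not_le.mp hy2
    have hy5 : y.1 ≤ a := le_trans (le_abs_self _) (hAa y hy1)
    refine ⟨⟨hy4, hy5⟩, ⟨hy3, ?_⟩⟩
    rw [hH]
    refine Real.le_sqrt_of_sq_le ?_
    rw [le_div_iff₀ ha]
    have h6 : PP {z : ℝ × ℝ | |z.1| ≤ y.1 ∧ 0 < z.2 ∧ z.2 ≤ y.2} ≤ PP A := by
      refine PP_mono hFi ?_
      rintro z ⟨hz1, hz2, hz3⟩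
      exact hAl y hy1 z (by rw [abs_of_pos (by linarith : 0 < y.1)]; exact hz1) hz2 hz3
    rw [PP_rect (by linarith) (le_of_lt hy3)] at h6
    nlinarith [sq_nonneg y.2, mul_pos hy3 hy3]
  have hq := quad_axis hI ha hH0
  have h7 : ∫ y in A \ L, kap (a, 0) y * y.2 ≤ 1 / 2 * H := by
    refine le_trans (setIntegral_mono_set hq.1 ?_ (Eventually.of_forall h5)) hq.2
    refine (ae_restrict_iff' (measurableSet_Ioc.prod measurableSet_Ioc)).mpr
      (Eventually.of_forall fun y hy => ?_)
    have : 0 < y.2 := hy.2.1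
    exact mul_nonneg (kap_nonneg le_rfl (le_of_lt this)) (le_of_lt this)
  linarith

end T20

theorem t_top (hI : S_int) : S_top := T20.t_top hI
theorem t_axis (hI : S_int) : S_axis := T20.t_axis hI

end SV
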