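import Pool.Agent.Helper779.SV.Stmts3

/-!
# T25a: soundness of the checkers, potentials
-/

open MeasureTheory Set Filter Topology
open scoped Real

namespace SV

namespace T25a

theorem fc_eq (n : ℕ) (f : ℕ → ℕ) : K.fc n f = f n := by cases n <;> rfl

theorem fb_eq (n : ℕ) (f : ℕ → Bool) : K.fb n f = f n := by cases n <;> rfl

theorem ndiv (a b : ℕ) : Nat.div a b = a / b := rfl

theorem prodN_eq (f : ℕ → ℕ) (n : ℕ) : K.prodN f n = ∏ m ∈ Finset.range n, f m := by
  induction n with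
  | zero => rfl
  | succ n ih =>
    rw [Finset.prod_range_succ, ← ih, mul_comm]
    rfl

theorem sumN_eq (f : ℕ → ℕ) (n : ℕ) : K.sumN f n = ∑ m ∈ Finset.range n, f m := by
  induction n with
  | zero => rfl
  | succ n ih =>
    rw [Finset.sum_range_succ, ← ih, add_comm (K.sumN f n) (f n)]
    rfl

theorem allN_eq (f : ℕ → Bool) (n : ℕ) : K.allN f n = true ↔ ∀ m < n, f m = true := by
  induction n with
  | zero => exact ⟨fun _ m hm => absurd hm (Nat.not_lt_zero m), fun _ => rfl⟩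
  | succ n ih =>
    have h : K.allN f (n + 1) = cond (f n) (K.allN f n) false := rfl
    rw [h]
    constructor
    · intro h1 m hm
      cases hfn : f n with
      | false => rw [hfn] at h1; exact absurd h1 (by simp)
      | true =>
        rw [hfn] at h1
        rcases Nat.lt_succ_iff_lt_or_eq.1 hm with h2 | h2
        · exact ih.1 h1 m h2
        · rw [h2, hfn]
    · intro h1
      rw [h1 n (Nat.lt_succ_self n)]
      exact ih.2 fun m hm => h1 m (Nat.lt_succ_of_lt hm)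

theorem cond_false_iff (a b : Bool) : cond a b false = true ↔ a = true ∧ b = true := by
  cases a <;> simp

theorem ble_iff (a b : ℕ) : Nat.ble a b = true ↔ a ≤ b :=
  ⟨Nat.le_of_ble_eq_true, Nat.ble_eq_true_of_le⟩

theorem lgU_zero (x : ℕ) : K.lgU 0 x = Nat.log2 x + 1 - 32 := rfl

theorem lgU_succ (k x : ℕ) : K.lgU (k + 1) x =
    if 8589934592 ≤ (x * x) / 4294967296 + 1 then
      2 ^ k + K.lgU k (((x * x) / 4294967296 + 1) / 2 + 1) else K.lgU k ((x * x) / 4294967296 + 1) := by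
  have h : K.lgU (k + 1) x = K.fc (Nat.succ (Nat.shiftRight (Nat.mul x x) 32)) (fun y =>
      cond (Nat.ble 8589934592 y) (Nat.add (Nat.pow 2 k) (K.lgU k (Nat.succ (Nat.shiftRight y 1))))
        (K.lgU k y)) := rfl
  have h1 : Nat.shiftRight (Nat.mul x x) 32 = (x * x) / 4294967296 := by
    show (x * x) >>> 32 = _
    rw [Nat.shiftRight_eq_div_pow]
  rw [h, fc_eq, h1]
  have h2 : Nat.shiftRight (Nat.succ ((x * x) / 4294967296)) 1 = ((x * x) / 4294967296 + 1) / 2 := by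
    show (x * x / 4294967296 + 1) >>> 1 = _
    rw [Nat.shiftRight_eq_div_pow]
  rw [h2]
  by_cases h3 : 8589934592 ≤ (x * x) / 4294967296 + 1
  · rw [if_pos h3]
    have h4 : Nat.ble 8589934592 (Nat.succ ((x * x) / 4294967296)) = true := Nat.ble_eq_true_of_le h3
    rw [h4]
    rfl
  · rw [if_neg h3]
    have h4 : Nat.ble 8589934592 (Nat.succ ((x * x) / 4294967296)) = false := by
      rw [Bool.eq_false_iff]
      intro h5
      exact h3 (Nat.le_of_ble_eq_true h5)
    rw [h4]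
    rfl

theorem lgL_succ (k x : ℕ) : K.lgL (k + 1) x =
    if 8589934592 ≤ (x * x) / 4294967296 then
      2 ^ k + K.lgL k (((x * x) / 4294967296) / 2) else K.lgL k ((x * x) / 4294967296) := by
  have h : K.lgL (k + 1) x = K.fc (Nat.shiftRight (Nat.mul x x) 32) (fun y =>
      cond (Nat.ble 8589934592 y) (Nat.add (Nat.pow 2 k) (K.lgL k (Nat.shiftRight y 1)))
        (K.lgL k y)) := rfl
  have h1 : Nat.shiftRight (Nat.mul x x) 32 = (x * x) / 4294967296 := by
    show (x * x) >>> 32 = _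
    rw [Nat.shiftRight_eq_div_pow]
  rw [h, fc_eq, h1]
  have h2 : Nat.shiftRight ((x * x) / 4294967296) 1 = ((x * x) / 4294967296) / 2 := by
    show (x * x / 4294967296) >>> 1 = _
    rw [Nat.shiftRight_eq_div_pow]
  rw [h2]
  by_cases h3 : 8589934592 ≤ (x * x) / 4294967296
  · rw [if_pos h3]
    have h4 : Nat.ble 8589934592 ((x * x) / 4294967296) = true := Nat.ble_eq_true_of_le h3
    rw [h4]
    rfl
  · rw [if_neg h3]
    have h4 : Nat.ble 8589934592 ((x * x) / 4294967296) = false := by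
      rw [Bool.eq_false_iff]
      intro h5
      exact h3 (Nat.le_of_ble_eq_true h5)
    rw [h4]
    rfl

theorem lgU_spec (k : ℕ) : ∀ (x : ℕ) (ξ : ℝ), 0 ≤ ξ → ξ ≤ (x : ℝ) / 4294967296 →
    ξ ^ (2 ^ k) ≤ 2 ^ (K.lgU k x) := by
  induction k with
  | zero =>
    intro x ξ hξ hx
    rw [pow_zero, pow_one, lgU_zero]
    have h1 : x < 2 ^ (Nat.log2 x + 1) := Nat.lt_log2_self
    have h2 : (x : ℝ) ≤ 2 ^ (Nat.log2 x + 1) := by exact_mod_cast h1.le
    have h3 : (2 : ℝ) ^ (Nat.log2 x + 1) ≤ 2 ^ ((Nat.log2 x + 1 - 32) + 32) :=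
      pow_le_pow_right₀ (by norm_num) (by omega)
    rw [pow_add (2 : ℝ) _ 32] at h3
    have h4 : (2 : ℝ) ^ 32 = 4294967296 := by norm_num
    rw [h4] at h3
    calc ξ ≤ (x : ℝ) / 4294967296 := hx
      _ ≤ (2 ^ (Nat.log2 x + 1 - 32) * 4294967296) / 4294967296 := by
        apply div_le_div_of_nonneg_right (h2.trans h3) (by norm_num)
      _ = _ := by field_simp
  | succ k ih =>
    intro x ξ hξ hx
    have h0 : ξ ^ (2 ^ (k + 1)) = (ξ ^ 2) ^ (2 ^ k) := by
      rw [← pow_mul, pow_succ]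
      ring_nf
    rw [h0, lgU_succ]
    have h1 : ξ ^ 2 ≤ ((x * x / 4294967296 + 1 : ℕ) : ℝ) / 4294967296 := by
      have h2 : ((x * x : ℕ) : ℝ) / 4294967296 < ((x * x / 4294967296 : ℕ) : ℝ) + 1 := by
        have h3 := Nat.lt_div_mul_add (a := x * x) (b := 4294967296) (by norm_num)
        have h4 : ((x * x : ℕ) : ℝ) < ((x * x / 4294967296 : ℕ) : ℝ) * 4294967296 + 4294967296 := by
          exact_mod_cast h3
        rw [div_lt_iff₀ (by norm_num)]
        linarith
      push_cast at h2 ⊢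
      have h5 : ξ ^ 2 ≤ ((x : ℝ) / 4294967296) ^ 2 := pow_le_pow_left₀ hξ hx 2
      refine h5.trans ?_
      rw [div_pow, sq, sq, ← div_div]
      exact div_le_div_of_nonneg_right h2.le (by norm_num)
    split_ifs with h
    · have h2 : ξ ^ 2 / 2 ≤ (((x * x / 4294967296 + 1) / 2 + 1 : ℕ) : ℝ) / 4294967296 := by
        have h3 : (x * x / 4294967296 + 1) ≤ ((x * x / 4294967296 + 1) / 2 + 1) * 2 := by omega
        have h4 : ((x * x / 4294967296 + 1 : ℕ) : ℝ) ≤
            (((x * x / 4294967296 + 1) / 2 + 1 : ℕ) : ℝ) * 2 := by exact_mod_cast h3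
        rw [div_le_div_iff₀ (by norm_num) (by norm_num)]
        rw [le_div_iff₀ (by norm_num)] at h1
        linarith
      have h3 := ih _ _ (by positivity) h2
      rw [div_pow, div_le_iff₀ (by positivity)] at h3
      rw [pow_add, mul_comm]
      exact h3
    · exact ih _ _ (by positivity) h1

theorem lgL_spec (k : ℕ) : ∀ (x : ℕ) (ξ : ℝ), 4294967296 ≤ x → (x : ℝ) / 4294967296 ≤ ξ →
    2 ^ (K.lgL k x) ≤ ξ ^ (2 ^ k) := by
  induction k with
  | zero =>
    intro x ξ hx hξ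
    have h1 : K.lgL 0 x = 0 := rfl
    rw [h1, pow_zero, pow_zero, pow_one]
    refine le_trans ?_ hξ
    rw [le_div_iff₀ (by norm_num)]
    have : ((4294967296 : ℕ) : ℝ) ≤ (x : ℝ) := by exact_mod_cast hx
    push_cast at this
    linarith
  | succ k ih =>
    intro x ξ hx hξ
    have h0 : ξ ^ (2 ^ (k + 1)) = (ξ ^ 2) ^ (2 ^ k) := by
      rw [← pow_mul, pow_succ]
      ring_nf
    rw [h0, lgL_succ]
    have hx0 : (0 : ℝ) ≤ (x : ℝ) / 4294967296 := by positivity
    have h1 : ((x * x / 4294967296 : ℕ) : ℝ) / 4294967296 ≤ ξ ^ 2 := by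
      have h3 : x * x / 4294967296 * 4294967296 ≤ x * x := Nat.div_mul_le_self _ _
      have h4 : ((x * x / 4294967296 : ℕ) : ℝ) * 4294967296 ≤ (x : ℝ) * x := by exact_mod_cast h3
      have h5 : ((x : ℝ) / 4294967296) ^ 2 ≤ ξ ^ 2 := pow_le_pow_left₀ hx0 hξ 2
      refine le_trans ?_ h5
      rw [div_pow, sq, sq, ← div_div]
      apply div_le_div_of_nonneg_right _ (by norm_num)
      rw [le_div_iff₀ (by norm_num)]
      exact h4
    have hy : 4294967296 ≤ x * x / 4294967296 := by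
      rw [Nat.le_div_iff_mul_le (by norm_num)]
      exact Nat.mul_le_mul hx hx
    split_ifs with h
    · have h2 : ((x * x / 4294967296 / 2 : ℕ) : ℝ) / 4294967296 ≤ ξ ^ 2 / 2 := by
        have h3 : (x * x / 4294967296 / 2) * 2 ≤ x * x / 4294967296 := Nat.div_mul_le_self _ _
        have h4 : ((x * x / 4294967296 / 2 : ℕ) : ℝ) * 2 ≤ ((x * x / 4294967296 : ℕ) : ℝ) := by
          exact_mod_cast h3
        rw [div_le_div_iff₀ (by norm_num) (by norm_num)]
        rw [div_le_iff₀ (by norm_num)] at h1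
        linarith
      have h3 := ih _ _ (by omega) h2
      rw [div_pow, le_div_iff₀ (by positivity)] at h3
      rw [pow_add, mul_comm]
      exact h3
    · exact ih _ _ hy h1

theorem ad_cast (a b : ℕ) : ((K.ad a b : ℕ) : ℤ) = |(a : ℤ) - b| := by
  have h : K.ad a b = (a - b) + (b - a) := rfl
  rw [h]
  rcases le_total a b with h1 | h1
  · rw [abs_of_nonpos (by omega)]
    omega
  · rw [abs_of_nonneg (by omega)]
    omega

theorem dd_cast (s y m : ℕ) : ((K.dd s (y * y) m : ℕ) : ℤ) = ((s : ℤ) - 2 * m) ^ 2 + (y : ℤ) ^ 2 := by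
  have h : K.dd s (y * y) m = K.ad s (2 * m) * K.ad s (2 * m) + y * y := rfl
  rw [h]
  push_cast
  rw [ad_cast, ← sq, sq_abs]
  push_cast
  ring

theorem hiA_eq (d : ℕ) : K.hiA d = d * d + 4 := rfl
theorem loA_eq (d : ℕ) : K.loA d = d * d - 4 := rfl

theorem PhiA_eq (s y n : ℕ) : K.PhiA s y n = ∏ m ∈ Finset.range n, K.hiA (K.dd s (y * y) m) := by
  have h : K.PhiA s y n = K.fc (Nat.mul y y) (fun y2 => K.prodN (fun m => K.hiA (K.dd s y2 m)) n) := rfl
  rw [h, fc_eq, prodN_eq]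
  rfl

theorem PloA_eq (s y n : ℕ) : K.PloA s y n = ∏ m ∈ Finset.range n, K.loA (K.dd s (y * y) m) := by
  have h : K.PloA s y n = K.fc (Nat.mul y y) (fun y2 => K.prodN (fun m => K.loA (K.dd s y2 m)) n) := rfl
  rw [h, fc_eq, prodN_eq]
  rfl

/-- the abscissa of the cell `m` relative to the vertex -/
def xx (n cj m : ℕ) : ℤ := -(n : ℤ) + 1 + 2 * m - cj

theorem dd_xx (cj n y m : ℕ) (hn : 1 ≤ n) :
    ((K.dd (cj + n - 1) (y * y) m : ℕ) : ℤ) = (xx n cj m) ^ 2 + (y : ℤ) ^ 2 := by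
  rw [dd_cast]
  have h : ((cj + n - 1 : ℕ) : ℤ) = (cj : ℤ) + n - 1 := by omega
  rw [h, xx]
  ring

theorem cellHi_big (X Y : ℤ) (d : ℕ) (hd : (d : ℤ) = X ^ 2 + Y ^ 2) (h4 : 4 ≤ d) :
    cellHi X Y = (K.hiA d : ℝ) := by
  unfold cellHi
  rw [if_pos (by rw [← hd]; exact_mod_cast h4), ← hd, hiA_eq]
  push_cast
  ring

theorem cellLo_big (X Y : ℤ) (d : ℕ) (hd : (d : ℤ) = X ^ 2 + Y ^ 2) (h4 : 4 ≤ d) :
    cellLo X Y = (K.loA d : ℝ) := by
  unfold cellLo
  rw [if_pos (by rw [← hd]; exact_mod_cast h4), ← hd, loA_eq]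
  have h : 4 ≤ d * d := by nlinarith
  rw [Nat.cast_sub h]
  push_cast
  ring

theorem small_cases (X Y : ℤ) (d : ℕ) (hd : (d : ℤ) = X ^ 2 + Y ^ 2) (h4 : ¬ 4 ≤ d)
    (hY : Y % 2 = 1) : (d = 1 ∧ X = 0) ∨ (d = 2 ∧ X ≠ 0 ∧ Y ≠ 0) := by
  have hY0 : Y ≠ 0 := by
    rintro rfl
    norm_num at hY
  have hY1 : 1 ≤ Y ^ 2 := by
    have : 0 < Y ^ 2 := by positivity
    omega
  have hX : X ^ 2 < 4 := by omega
  have hYb : Y ^ 2 < 4 := by nlinarith [sq_nonneg X]
  have hX1 : -2 < X := by nlinarith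
  have hX2 : X < 2 := by nlinarith
  have hY2 : -2 < Y := by nlinarith
  have hY3 : Y < 2 := by nlinarith
  have hYc : Y = 1 ∨ Y = -1 := by omega
  have hXc : X = 0 ∨ X = 1 ∨ X = -1 := by omega
  rcases hYc with rfl | rfl <;> rcases hXc with rfl | rfl | rfl
  · left; constructor <;> omega
  · right; refine ⟨by omega, by omega, by omega⟩
  · right; refine ⟨by omega, by omega, by omega⟩
  · left; constructor <;> omega
  · right; refine ⟨by omega, by omega, by omega⟩
  · right; refine ⟨by omega, by omega, by omega⟩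

theorem loB_eq (X Y : ℤ) (d : ℕ) (hd : (d : ℤ) = X ^ 2 + Y ^ 2) (hY : Y % 2 = 1) :
    100 * cellLo X Y = (K.loB d : ℝ) := by
  have h : K.loB d = cond (Nat.ble 4 d) (Nat.mul 100 (K.loA d)) (cond (Nat.ble d 1) 117 362) := rfl
  by_cases h4 : 4 ≤ d
  · rw [h, Nat.ble_eq_true_of_le h4, cellLo_big X Y d hd h4]
    show 100 * (K.loA d : ℝ) = ((100 * K.loA d : ℕ) : ℝ)
    push_cast
    ring
  · have h5 : Nat.ble 4 d = false := by
      rw [Bool.eq_false_iff]
      intro h5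
      exact h4 (Nat.le_of_ble_eq_true h5)
    rw [h, h5]
    unfold cellLo
    rw [if_neg (by rw [← hd]; exact_mod_cast h4)]
    rcases small_cases X Y d hd h4 hY with ⟨h6, h7⟩ | ⟨h6, h7, h8⟩
    · rw [if_pos (Or.inl h7), h6]
      show (100 * (117 / 100) : ℝ) = ((117 : ℕ) : ℝ)
      norm_num
    · rw [if_neg (by rintro (h9 | h9); exact h7 h9; exact h8 h9), h6]
      show (100 * (362 / 100) : ℝ) = ((362 : ℕ) : ℝ)
      norm_num

theorem hiB_eq (X Y : ℤ) (d : ℕ) (hd : (d : ℤ) = X ^ 2 + Y ^ 2) (hY : Y % 2 = 1) :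
    100 * cellHi X Y = (K.hiB d : ℝ) := by
  have h : K.hiB d = cond (Nat.ble 4 d) (Nat.mul 100 (K.hiA d)) (cond (Nat.ble d 1) 123 371) := rfl
  by_cases h4 : 4 ≤ d
  · rw [h, Nat.ble_eq_true_of_le h4, cellHi_big X Y d hd h4]
    show 100 * (K.hiA d : ℝ) = ((100 * K.hiA d : ℕ) : ℝ)
    push_cast
    ring
  · have h5 : Nat.ble 4 d = false := by
      rw [Bool.eq_false_iff]
      intro h5
      exact h4 (Nat.le_of_ble_eq_true h5)
    rw [h, h5]
    unfold cellHi
    rw [if_neg (by rw [← hd]; exact_mod_cast h4)]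
    rcases small_cases X Y d hd h4 hY with ⟨h6, h7⟩ | ⟨h6, h7, h8⟩
    · rw [if_pos (Or.inl h7), h6]
      show (100 * (123 / 100) : ℝ) = ((123 : ℕ) : ℝ)
      norm_num
    · rw [if_neg (by rintro (h9 | h9); exact h7 h9; exact h8 h9), h6]
      show (100 * (371 / 100) : ℝ) = ((371 : ℕ) : ℝ)
      norm_num

theorem cellLo_pos (X Y : ℤ) : 0 < cellLo X Y := by
  unfold cellLo
  split_ifs with h
  · have : (0 : ℤ) < (X ^ 2 + Y ^ 2) ^ 2 - 4 := by nlinarith
    exact_mod_cast this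
  · norm_num
  · norm_num

theorem cellHi_pos (X Y : ℤ) : 0 < cellHi X Y := by
  unfold cellHi
  split_ifs with h
  · have : (0 : ℤ) < (X ^ 2 + Y ^ 2) ^ 2 + 4 := by positivity
    exact_mod_cast this
  · norm_num
  · norm_num

theorem PloB_eq (cj n y : ℕ) (Y : ℤ) (hn : 1 ≤ n) (hy : (y : ℤ) ^ 2 = Y ^ 2) (hY : Y % 2 = 1) :
    (K.PloB (cj + n - 1) y n : ℝ) = 100 ^ n * ∏ m ∈ Finset.range n, cellLo (xx n cj m) Y := by
  have h : K.PloB (cj + n - 1) y n = cond (Nat.ble 3 y) (Nat.mul (Nat.pow 100 n)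
      (K.PloA (cj + n - 1) y n)) (K.fc (Nat.mul y y) (fun y2 =>
        K.prodN (fun m => K.loB (K.dd (cj + n - 1) y2 m)) n)) := rfl
  have hd : ∀ m, ((K.dd (cj + n - 1) (y * y) m : ℕ) : ℤ) = (xx n cj m) ^ 2 + Y ^ 2 := by
    intro m
    rw [dd_xx cj n y m hn, hy]
  by_cases h3 : 3 ≤ y
  · rw [h, Nat.ble_eq_true_of_le h3]
    show ((100 ^ n * K.PloA (cj + n - 1) y n : ℕ) : ℝ) = _
    rw [PloA_eq]
    push_cast
    congr 1
    refine Finset.prod_congr rfl fun m _ => ?_
    refine (cellLo_big _ _ _ (hd m) ?_).symm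
    have h5 := hd m
    have h6 : (9 : ℤ) ≤ (y : ℤ) ^ 2 := by
      have : (3 : ℤ) ≤ y := by exact_mod_cast h3
      nlinarith
    have h7 := sq_nonneg (xx n cj m)
    omega
  · have h5 : Nat.ble 3 y = false := by
      rw [Bool.eq_false_iff]
      intro h5
      exact h3 (Nat.le_of_ble_eq_true h5)
    rw [h, h5]
    show ((K.fc (Nat.mul y y) (fun y2 =>
        K.prodN (fun m => K.loB (K.dd (cj + n - 1) y2 m)) n) : ℕ) : ℝ) = _
    rw [fc_eq, prodN_eq, Nat.cast_prod]
    have h6 : (100 : ℝ) ^ n = ∏ _m ∈ Finset.range n, (100 : ℝ) := by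
      rw [Finset.prod_const, Finset.card_range]
    rw [h6, ← Finset.prod_mul_distrib]
    refine Finset.prod_congr rfl fun m _ => ?_
    exact (loB_eq _ _ _ (hd m) hY).symm

theorem PhiB_eq (cj n y : ℕ) (Y : ℤ) (hn : 1 ≤ n) (hy : (y : ℤ) ^ 2 = Y ^ 2) (hY : Y % 2 = 1) :
    (K.PhiB (cj + n - 1) y n : ℝ) = 100 ^ n * ∏ m ∈ Finset.range n, cellHi (xx n cj m) Y := by
  have h : K.PhiB (cj + n - 1) y n = cond (Nat.ble 3 y) (Nat.mul (Nat.pow 100 n)
      (K.PhiA (cj + n - 1) y n)) (K.fc (Nat.mul y y) (fun y2 =>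
        K.prodN (fun m => K.hiB (K.dd (cj + n - 1) y2 m)) n)) := rfl
  have hd : ∀ m, ((K.dd (cj + n - 1) (y * y) m : ℕ) : ℤ) = (xx n cj m) ^ 2 + Y ^ 2 := by
    intro m
    rw [dd_xx cj n y m hn, hy]
  by_cases h3 : 3 ≤ y
  · rw [h, Nat.ble_eq_true_of_le h3]
    show ((100 ^ n * K.PhiA (cj + n - 1) y n : ℕ) : ℝ) = _
    rw [PhiA_eq]
    push_cast
    congr 1
    refine Finset.prod_congr rfl fun m _ => ?_
    refine (cellHi_big _ _ _ (hd m) ?_).symm
    have h5 := hd m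
    have h6 : (9 : ℤ) ≤ (y : ℤ) ^ 2 := by
      have : (3 : ℤ) ≤ y := by exact_mod_cast h3
      nlinarith
    have h7 := sq_nonneg (xx n cj m)
    omega
  · have h5 : Nat.ble 3 y = false := by
      rw [Bool.eq_false_iff]
      intro h5
      exact h3 (Nat.le_of_ble_eq_true h5)
    rw [h, h5]
    show ((K.fc (Nat.mul y y) (fun y2 =>
        K.prodN (fun m => K.hiB (K.dd (cj + n - 1) y2 m)) n) : ℕ) : ℝ) = _
    rw [fc_eq, prodN_eq, Nat.cast_prod]
    have h6 : (100 : ℝ) ^ n = ∏ _m ∈ Finset.range n, (100 : ℝ) := by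
      rw [Finset.prod_const, Finset.card_range]
    rw [h6, ← Finset.prod_mul_distrib]
    refine Finset.prod_congr rfl fun m _ => ?_
    exact (hiB_eq _ _ _ (hd m) hY).symm

theorem PhiA_eq' (cj n y : ℕ) (hn : 1 ≤ n) (hy : 2 ≤ y) :
    (K.PhiA (cj + n - 1) y n : ℝ) = ∏ m ∈ Finset.range n, cellHi (xx n cj m) y := by
  rw [PhiA_eq, Nat.cast_prod]
  refine Finset.prod_congr rfl fun m _ => ?_
  have h5 := dd_xx cj n y m hn
  refine (cellHi_big _ _ _ h5 ?_).symm
  have h6 : (4 : ℤ) ≤ (y : ℤ) ^ 2 := by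
    have : (2 : ℤ) ≤ y := by exact_mod_cast hy
    nlinarith
  have h7 := sq_nonneg (xx n cj m)
  omega

theorem PloA_eq' (cj n y : ℕ) (hn : 1 ≤ n) (hy : 2 ≤ y) :
    (K.PloA (cj + n - 1) y n : ℝ) = ∏ m ∈ Finset.range n, cellLo (xx n cj m) y := by
  rw [PloA_eq, Nat.cast_prod]
  refine Finset.prod_congr rfl fun m _ => ?_
  have h5 := dd_xx cj n y m hn
  refine (cellLo_big _ _ _ h5 ?_).symm
  have h6 : (4 : ℤ) ≤ (y : ℤ) ^ 2 := by
    have : (2 : ℤ) ≤ y := by exact_mod_cast hy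
    nlinarith
  have h7 := sq_nonneg (xx n cj m)
  omega

theorem log_prod_div {n : ℕ} (f g : ℕ → ℝ) (hf : ∀ m, 0 < f m) (hg : ∀ m, 0 < g m) (c : ℝ)
    (hc : 0 < c) :
    Real.log (c * (∏ m ∈ Finset.range n, f m) / (c * ∏ m ∈ Finset.range n, g m)) =
      ∑ m ∈ Finset.range n, (Real.log (f m) - Real.log (g m)) := by
  rw [mul_div_mul_left _ _ hc.ne', Real.log_div (Finset.prod_pos fun m _ => hf m).ne'
    (Finset.prod_pos fun m _ => hg m).ne', Real.log_prod (fun m _ => (hf m).ne'),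
    Real.log_prod (fun m _ => (hg m).ne'), ← Finset.sum_sub_distrib]

theorem ady (i j : ℕ) : ((K.ad (2 * i + 1) (2 * j) : ℕ) : ℤ) ^ 2 = (2 * (i : ℤ) + 1 - 2 * j) ^ 2 := by
  rw [ad_cast, sq_abs]
  push_cast
  ring

theorem div_lt_cast (a b : ℕ) (hb : 0 < b) : (a : ℝ) / b ≤ ((a / b + 1 : ℕ) : ℝ) := by
  have h3 := Nat.lt_div_mul_add (a := a) (b := b) hb
  have hbR : (0 : ℝ) < b := by exact_mod_cast hb
  rw [div_le_iff₀ hbR]
  have h4 : a ≤ (a / b + 1) * b := by
    rw [add_mul, one_mul]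
    exact h3.le
  exact_mod_cast h4

theorem le_div_cast (a b : ℕ) (hb : 0 < b) : ((a / b : ℕ) : ℝ) ≤ (a : ℝ) / b := by
  have hbR : (0 : ℝ) < b := by exact_mod_cast hb
  rw [le_div_iff₀ hbR]
  exact_mod_cast Nat.div_mul_le_self a b

theorem F_pos (RS : ℕ) (h : 0 < RS) : (0 : ℝ) < 1000 * (RS : ℝ) ^ 2 := by
  have : (0 : ℝ) < RS := by exact_mod_cast h
  positivity

theorem F_cast (RS : ℕ) : ((1000 * (RS * RS) : ℕ) : ℝ) = 1000 * (RS : ℝ) ^ 2 := by
  push_cast
  ring

end T25a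

open T25a


theorem t_LU : S_LU := by
  intro num den hn hd
  set x0 := num * 4294967296 / den + 1 with hx0
  set sh := Nat.log2 x0 - 32 with hsh
  have hLU : K.LU num den = sh * 16384 + K.lgU 14 (x0 / 2 ^ sh + 1) := by
    have h : K.LU num den = K.fc (Nat.succ (Nat.div (Nat.mul num 4294967296) den)) (fun x0 =>
      K.fc (Nat.sub (Nat.log2 x0) 32) (fun sh =>
        Nat.add (Nat.mul sh 16384) (K.lgU 14 (Nat.succ (Nat.shiftRight x0 sh))))) := rfl
    rw [h, fc_eq, fc_eq]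
    have h1 : Nat.shiftRight x0 sh = x0 / 2 ^ sh := by
      show x0 >>> sh = _
      rw [Nat.shiftRight_eq_div_pow]
    rw [← h1]
    rfl
  have hnR : (0 : ℝ) < num := by exact_mod_cast hn
  have hdR : (0 : ℝ) < den := by exact_mod_cast hd
  set ξ : ℝ := (num : ℝ) / den with hξ
  have hξ0 : 0 < ξ := by positivity
  have h1 : ξ * 4294967296 ≤ x0 := by
    have h3 := Nat.lt_div_mul_add (a := num * 4294967296) (b := den) hd
    have h4 : (num : ℝ) * 4294967296 < ((num * 4294967296 / den : ℕ) : ℝ) * den + den := by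
      exact_mod_cast h3
    rw [hx0, hξ]
    push_cast
    rw [div_mul_eq_mul_div, div_le_iff₀ hdR]
    nlinarith
  have h2 : (x0 : ℝ) ≤ ((x0 / 2 ^ sh + 1 : ℕ) : ℝ) * 2 ^ sh := by
    have h3 := Nat.lt_div_mul_add (a := x0) (b := 2 ^ sh) (by positivity)
    have h4 : x0 ≤ (x0 / 2 ^ sh + 1) * 2 ^ sh := by
      rw [add_mul, one_mul]
      exact h3.le
    exact_mod_cast h4
  have h3 : ξ / 2 ^ sh ≤ ((x0 / 2 ^ sh + 1 : ℕ) : ℝ) / 4294967296 := by
    rw [div_le_div_iff₀ (by positivity) (by norm_num)]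
    exact h1.trans h2
  have h4 := lgU_spec 14 _ _ (by positivity) h3
  rw [div_pow, div_le_iff₀ (by positivity), ← pow_mul, ← pow_add] at h4
  have h5 : Real.log (ξ ^ (2 ^ 14)) ≤ Real.log (2 ^ (K.lgU 14 (x0 / 2 ^ sh + 1) + sh * 2 ^ 14)) :=
    Real.log_le_log (by positivity) h4
  rw [Real.log_pow, Real.log_pow] at h5
  rw [hLU]
  push_cast at h5 ⊢
  rw [div_mul_eq_mul_div, le_div_iff₀ (by norm_num)]
  linarith

theorem t_LL : S_LL := by
  intro num den hd hnd
  have hn : 0 < num := lt_of_lt_of_le hd hnd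
  set x0 := num * 4294967296 / den with hx0
  set sh := Nat.log2 x0 - 32 with hsh
  have hLL : K.LL num den = sh * 16384 + K.lgL 14 (x0 / 2 ^ sh) := by
    have h : K.LL num den = K.fc (Nat.div (Nat.mul num 4294967296) den) (fun x0 =>
      K.fc (Nat.sub (Nat.log2 x0) 32) (fun sh =>
        Nat.add (Nat.mul sh 16384) (K.lgL 14 (Nat.shiftRight x0 sh)))) := rfl
    rw [h, fc_eq, fc_eq]
    have h1 : Nat.shiftRight x0 sh = x0 / 2 ^ sh := by
      show x0 >>> sh = _
      rw [Nat.shiftRight_eq_div_pow]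
    rw [← h1]
    rfl
  have hnR : (0 : ℝ) < num := by exact_mod_cast hn
  have hdR : (0 : ℝ) < den := by exact_mod_cast hd
  set ξ : ℝ := (num : ℝ) / den with hξ
  have hξ0 : 0 < ξ := by positivity
  have hx32 : 4294967296 ≤ x0 := by
    rw [hx0, Nat.le_div_iff_mul_le hd, mul_comm]
    exact Nat.mul_le_mul_right _ hnd
  have hlog : 32 ≤ Nat.log2 x0 := by
    rw [Nat.le_log2 (by omega)]
    exact hx32
  have h1 : (x0 : ℝ) ≤ ξ * 4294967296 := by
    have h3 : x0 * den ≤ num * 4294967296 := Nat.div_mul_le_self _ _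
    have h4 : (x0 : ℝ) * den ≤ (num : ℝ) * 4294967296 := by exact_mod_cast h3
    rw [hξ, div_mul_eq_mul_div, le_div_iff₀ hdR]
    exact h4
  have h2 : ((x0 / 2 ^ sh : ℕ) : ℝ) * 2 ^ sh ≤ (x0 : ℝ) := by
    have h3 := Nat.div_mul_le_self x0 (2 ^ sh)
    exact_mod_cast h3
  have h3 : ((x0 / 2 ^ sh : ℕ) : ℝ) / 4294967296 ≤ ξ / 2 ^ sh := by
    rw [div_le_div_iff₀ (by norm_num) (by positivity)]
    exact h2.trans h1
  have hge : 4294967296 ≤ x0 / 2 ^ sh := by
    rw [Nat.le_div_iff_mul_le (by positivity)]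
    have h5 : 2 ^ Nat.log2 x0 ≤ x0 := Nat.log2_self_le (by omega)
    have h6 : Nat.log2 x0 = 32 + sh := by omega
    rw [h6, pow_add] at h5
    exact h5
  have h4 := lgL_spec 14 _ _ hge h3
  rw [div_pow, le_div_iff₀ (by positivity), ← pow_mul, ← pow_add] at h4
  have h5 : Real.log (2 ^ (K.lgL 14 (x0 / 2 ^ sh) + sh * 2 ^ 14)) ≤ Real.log (ξ ^ (2 ^ 14)) :=
    Real.log_le_log (by positivity) h4
  rw [Real.log_pow, Real.log_pow] at h5
  rw [hLL]
  push_cast at h5 ⊢
  rw [div_mul_eq_mul_div, div_le_iff₀ (by norm_num)]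
  linarith


theorem t_pfU (h1 : S_rpot) (h0 : S_rpot0) (hLU : S_LU) : S_pfU := by
  intro RS cj j i n vu hRS hn hchk
  have hRSR : (0 : ℝ) < RS := by exact_mod_cast hRS
  have hu : (0 : ℝ) < 1 / (RS : ℝ) := by positivity
  have hF := F_pos RS hRS
  set F : ℕ := 1000 * (RS * RS) with hFdef
  have hFR : (F : ℝ) = 1000 * (RS : ℝ) ^ 2 := F_cast RS
  unfold K.pfU at hchk
  simp only [fc_eq, fb_eq, Nat.mul_eq, Nat.add_eq, Nat.sub_eq, Nat.pow_eq, Nat.succ_eq_add_one,
    ndiv, Bool.cond_eq_ite, Nat.ble_eq] at hchk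
  by_cases hj : 1 ≤ j
  · rw [if_pos hj] at hchk
    have hchk2 := Nat.le_of_ble_eq_true hchk
    refine ((h1 (1 / (RS : ℝ)) cj j i n hu hj hn).1).trans ?_
    set A : ℕ := 100 ^ n * K.PhiA (cj + n - 1) (2 * i + (2 * j + 1)) n with hA
    set B : ℕ := K.PloB (cj + n - 1) (K.ad (2 * i + 1) (2 * j)) n with hB
    have hAR : (A : ℝ) = 100 ^ n * ∏ m ∈ Finset.range n, cellHi (xx n cj m) (2 * i + 1 + 2 * j) := by
      rw [hA]
      push_cast
      rw [PhiA_eq' cj n _ hn (by omega)]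
      congr 1
      refine Finset.prod_congr rfl fun m _ => ?_
      congr 1
      push_cast
      ring
    have hBR : (B : ℝ) = 100 ^ n * ∏ m ∈ Finset.range n, cellLo (xx n cj m) (2 * i + 1 - 2 * j) := by
      rw [hB]
      exact PloB_eq cj n _ _ hn (ady i j) (by omega)
    have hApos : 0 < A := by
      have : (0 : ℝ) < A := by
        rw [hAR]
        exact mul_pos (by positivity) (Finset.prod_pos fun m _ => cellHi_pos _ _)
      exact_mod_cast this
    have hBpos : 0 < B := by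
      have : (0 : ℝ) < B := by
        rw [hBR]
        exact mul_pos (by positivity) (Finset.prod_pos fun m _ => cellLo_pos _ _)
      exact_mod_cast this
    have hlog : Real.log ((A : ℝ) / B) = ∑ m ∈ Finset.range n,
        (Real.log (cellHi (-(n : ℤ) + 1 + 2 * m - cj) (2 * i + 1 + 2 * j)) -
        Real.log (cellLo (-(n : ℤ) + 1 + 2 * m - cj) (2 * i + 1 - 2 * j))) := by
      rw [hAR, hBR]
      exact log_prod_div _ _ (fun m => cellHi_pos _ _) (fun m => cellLo_pos _ _) _ (by positivity)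
    rw [← hlog]
    have hL := hLU A B hApos hBpos
    set Lv : ℕ := K.LU A B with hLv
    have hjR : (0 : ℝ) < j := by exact_mod_cast hj
    have hl2 : Real.log 2 < 0.6931471808 := Real.log_two_lt_d9
    have h3 : Real.log ((A : ℝ) / B) ≤ (Lv : ℝ) / 16384 * 0.6931471808 :=
      hL.trans (mul_le_mul_of_nonneg_left hl2.le (by positivity))
    have hchkR : (F : ℝ) * 6931471808 * Lv ≤ vu * (4 * j * 163840000000000) := by
      exact_mod_cast hchk2
    rw [hFR] at hchkR
    have h4 : (Lv : ℝ) / 16384 * 0.6931471808 ≤ 4 * j * (vu / (1000 * (RS : ℝ) ^ 2)) := by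
      rw [← mul_div_assoc, le_div_iff₀ hF]
      nlinarith
    calc 1 / (RS : ℝ) / (4 * j) * Real.log ((A : ℝ) / B) ≤
          1 / (RS : ℝ) / (4 * j) * (4 * j * (vu / (1000 * (RS : ℝ) ^ 2))) :=
        mul_le_mul_of_nonneg_left (h3.trans h4) (by positivity)
      _ = _ := by
        field_simp
  · have hj0 : j = 0 := by omega
    subst hj0
    rw [if_neg hj] at hchk
    by_cases hncj : n ≤ cj
    swap
    · rw [if_neg hncj] at hchk
      exact absurd hchk (by simp)
    rw [if_pos hncj] at hchk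
    have hsum := Nat.le_of_ble_eq_true hchk
    rw [sumN_eq] at hsum
    have e1 : (2 : ℝ) * (1 / (RS : ℝ)) * ((0 : ℕ) : ℝ) = 0 := by
      push_cast
      ring
    rw [e1]
    refine ((h0 (1 / (RS : ℝ)) cj i n hu hn hncj).1).trans ?_
    apply mul_le_mul_of_nonneg_left _ hu.le
    rw [le_div_iff₀ hF, ← hFR, Finset.sum_mul]
    have hsumR := (Nat.cast_le (α := ℝ)).2 hsum
    refine le_trans ?_ hsumR
    rw [Nat.cast_sum]
    refine Finset.sum_le_sum fun m _ => ?_
    have hd' := dd_xx cj n (2 * i + 1) m hn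
    generalize K.dd (cj + n - 1) ((2 * i + 1) * (2 * i + 1)) m = d at hd'
    unfold cup
    have hxx : (-(n : ℤ) + 1 + 2 * m - cj) = xx n cj m := rfl
    rw [hxx]
    have hdz : (xx n cj m) ^ 2 + (2 * (i : ℤ) + 1) ^ 2 = (d : ℤ) := by
      rw [hd']
      push_cast
      ring
    rw [hdz]
    by_cases h5 : 5 ≤ d
    · have h5z : (5 : ℤ) ≤ (d : ℤ) := by exact_mod_cast h5
      rw [if_pos h5z, if_pos h5]
      have hlo : K.loA d = d * d - 4 := rfl
      have hlo1 : 0 < K.loA d := by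
        rw [hlo]
        have : 25 ≤ d * d := Nat.mul_le_mul h5 h5
        omega
      have hloR : (((d : ℤ) ^ 2 - 4 : ℤ) : ℝ) = (K.loA d : ℝ) := by
        rw [hlo, Nat.cast_sub (by nlinarith)]
        push_cast
        ring
      rw [hloR]
      have b1 := div_lt_cast (4 * F * (2 * i + 1)) d (by omega)
      have b2 := div_lt_cast (36 * F) (5 * K.loA d) (by omega)
      rw [Nat.cast_add]
      refine le_trans (le_of_eq ?_) (add_le_add b1 b2)
      have hdR : (d : ℝ) ≠ 0 := by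
        have : (0 : ℝ) < d := by exact_mod_cast (by omega : 0 < d)
        exact this.ne'
      have hloR' : (K.loA d : ℝ) ≠ 0 := by
        have : (0 : ℝ) < K.loA d := by exact_mod_cast hlo1
        exact this.ne'
      push_cast
      field_simp
      ring
    · have h5z : ¬ (5 : ℤ) ≤ (d : ℤ) := by exact_mod_cast h5
      rw [if_neg h5z, if_neg h5]
      have b1 := div_lt_cast (2264 * F) 1000 (by norm_num)
      refine le_trans (le_of_eq ?_) b1
      push_cast
      ring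

theorem t_pfL (h1 : S_rpot) (h0 : S_rpot0) (hLL : S_LL) : S_pfL := by
  intro RS cj j i n vl hRS hn hchk
  have hRSR : (0 : ℝ) < RS := by exact_mod_cast hRS
  have hu : (0 : ℝ) < 1 / (RS : ℝ) := by positivity
  have hF := F_pos RS hRS
  set F : ℕ := 1000 * (RS * RS) with hFdef
  have hFR : (F : ℝ) = 1000 * (RS : ℝ) ^ 2 := F_cast RS
  unfold K.pfL at hchk
  simp only [fc_eq, fb_eq, Nat.mul_eq, Nat.add_eq, Nat.sub_eq, Nat.pow_eq, Nat.succ_eq_add_one,
    ndiv, Bool.cond_eq_ite, Nat.ble_eq] at hchk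
  by_cases hj : 1 ≤ j
  · rw [if_pos hj] at hchk
    refine le_trans ?_ (h1 (1 / (RS : ℝ)) cj j i n hu hj hn).2
    set A : ℕ := 100 ^ n * K.PloA (cj + n - 1) (2 * i + (2 * j + 1)) n with hA
    set B : ℕ := K.PhiB (cj + n - 1) (K.ad (2 * i + 1) (2 * j)) n with hB
    by_cases hBA : B ≤ A
    swap
    · rw [if_neg hBA] at hchk
      exact absurd hchk (by simp)
    rw [if_pos hBA] at hchk
    have hchk2 := Nat.le_of_ble_eq_true hchk
    have hAR : (A : ℝ) = 100 ^ n * ∏ m ∈ Finset.range n, cellLo (xx n cj m) (2 * i + 1 + 2 * j) := by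
      rw [hA]
      push_cast
      rw [PloA_eq' cj n _ hn (by omega)]
      congr 1
      refine Finset.prod_congr rfl fun m _ => ?_
      congr 1
      push_cast
      ring
    have hBR : (B : ℝ) = 100 ^ n * ∏ m ∈ Finset.range n, cellHi (xx n cj m) (2 * i + 1 - 2 * j) := by
      rw [hB]
      exact PhiB_eq cj n _ _ hn (ady i j) (by omega)
    have hBpos : 0 < B := by
      have : (0 : ℝ) < B := by
        rw [hBR]
        exact mul_pos (by positivity) (Finset.prod_pos fun m _ => cellHi_pos _ _)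
      exact_mod_cast this
    have hlog : Real.log ((A : ℝ) / B) = ∑ m ∈ Finset.range n,
        (Real.log (cellLo (-(n : ℤ) + 1 + 2 * m - cj) (2 * i + 1 + 2 * j)) -
        Real.log (cellHi (-(n : ℤ) + 1 + 2 * m - cj) (2 * i + 1 - 2 * j))) := by
      rw [hAR, hBR]
      exact log_prod_div _ _ (fun m => cellLo_pos _ _) (fun m => cellHi_pos _ _) _ (by positivity)
    rw [← hlog]
    have hL := hLL A B hBpos hBA
    set Lv : ℕ := K.LL A B with hLv
    have hjR : (0 : ℝ) < j := by exact_mod_cast hj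
    have hl2 : 0.6931471803 < Real.log 2 := Real.log_two_gt_d9
    have h3 : (Lv : ℝ) / 16384 * 0.6931471803 ≤ Real.log ((A : ℝ) / B) :=
      (mul_le_mul_of_nonneg_left hl2.le (by positivity)).trans hL
    have hchkR : (vl : ℝ) * (4 * j * 163840000000000) ≤ F * 6931471803 * Lv := by
      exact_mod_cast hchk2
    rw [hFR] at hchkR
    have h4 : 4 * j * (vl / (1000 * (RS : ℝ) ^ 2)) ≤ (Lv : ℝ) / 16384 * 0.6931471803 := by
      rw [← mul_div_assoc, div_le_iff₀ hF]
      nlinarith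
    have h5 : 1 / (RS : ℝ) * ((vl : ℝ) / (1000 * (RS : ℝ) ^ 2)) =
        1 / (RS : ℝ) / (4 * j) * (4 * j * (vl / (1000 * (RS : ℝ) ^ 2))) := by
      field_simp
    rw [h5]
    exact mul_le_mul_of_nonneg_left (h4.trans h3) (by positivity)
  · have hj0 : j = 0 := by omega
    subst hj0
    rw [if_neg hj] at hchk
    by_cases hncj : n ≤ cj
    swap
    · rw [if_neg hncj] at hchk
      exact absurd hchk (by simp)
    rw [if_pos hncj] at hchk
    have hsum := Nat.le_of_ble_eq_true hchk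
    rw [sumN_eq] at hsum
    have e1 : (2 : ℝ) * (1 / (RS : ℝ)) * ((0 : ℕ) : ℝ) = 0 := by
      push_cast
      ring
    rw [e1]
    refine le_trans ?_ (h0 (1 / (RS : ℝ)) cj i n hu hn hncj).2
    apply mul_le_mul_of_nonneg_left _ hu.le
    rw [div_le_iff₀ hF, ← hFR, Finset.sum_mul]
    have hsumR := (Nat.cast_le (α := ℝ)).2 hsum
    refine hsumR.trans ?_
    rw [Nat.cast_sum]
    refine Finset.sum_le_sum fun m _ => ?_
    have hd' := dd_xx cj n (2 * i + 1) m hn
    generalize K.dd (cj + n - 1) ((2 * i + 1) * (2 * i + 1)) m = d at hd'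
    unfold clo
    have hxx : (-(n : ℤ) + 1 + 2 * m - cj) = xx n cj m := rfl
    rw [hxx]
    have hdz : (xx n cj m) ^ 2 + (2 * (i : ℤ) + 1) ^ 2 = (d : ℤ) := by
      rw [hd']
      push_cast
      ring
    rw [hdz]
    by_cases h5 : 5 ≤ d
    · have h5z : (5 : ℤ) ≤ (d : ℤ) := by exact_mod_cast h5
      rw [if_pos h5z, if_pos h5]
      have hlo : K.loA d = d * d - 4 := rfl
      have hdd : 25 ≤ d * d := Nat.mul_le_mul h5 h5
      have hlo1 : 0 < K.loA d := by
        rw [hlo]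
        omega
      have hloR : (((d : ℤ) ^ 2 - 4 : ℤ) : ℝ) = (K.loA d : ℝ) := by
        rw [hlo, Nat.cast_sub (by nlinarith)]
        push_cast
        ring
      rw [hloR]
      have b1 := le_div_cast (4 * F * (2 * i + 1)) d (by omega)
      have b2 := div_lt_cast (36 * F) (5 * K.loA d) (by omega)
      have hdR : (0 : ℝ) < d := by exact_mod_cast (by omega : 0 < d)
      have hloR' : (0 : ℝ) < K.loA d := by exact_mod_cast hlo1
      have hFp : (0 : ℝ) < F := by rw [hFR]; exact hF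
      have e2 : 4 * ((((2 * (i : ℤ) + 1 : ℤ) : ℝ)) / ((d : ℤ) : ℝ) - 9 / 5 / (K.loA d : ℝ)) * F =
          ((4 * F * (2 * i + 1) : ℕ) : ℝ) / d - ((36 * F : ℕ) : ℝ) / ((5 * K.loA d : ℕ) : ℝ) := by
        push_cast
        field_simp
        ring
      rw [e2]
      rcases le_total (36 * F / (5 * K.loA d) + 1) (4 * F * (2 * i + 1) / d) with h6 | h6
      · rw [Nat.cast_sub h6]
        linarith
      · rw [Nat.sub_eq_zero_of_le h6, Nat.cast_zero, sub_nonneg]
        rw [div_le_div_iff₀ (by exact_mod_cast (by omega : 0 < 5 * K.loA d)) hdR]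
        have h7 : 36 * F * d ≤ 4 * F * (2 * i + 1) * (5 * K.loA d) := by
          have h8 : 9 * d ≤ 5 * K.loA d := by
            rw [hlo]
            have : 5 * d ≤ d * d := Nat.mul_le_mul_right d h5
            omega
          calc 36 * F * d = 4 * F * 1 * (9 * d) := by ring
            _ ≤ 4 * F * (2 * i + 1) * (5 * K.loA d) :=
              Nat.mul_le_mul (Nat.mul_le_mul_left _ (by omega)) h8
        exact_mod_cast h7
    · have h5z : ¬ (5 : ℤ) ≤ (d : ℤ) := by exact_mod_cast h5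
      rw [if_neg h5z, if_neg h5]
      have b1 := le_div_cast (2263 * F) 1000 (by norm_num)
      refine b1.trans (le_of_eq ?_)
      push_cast
      ring

theorem t_chkPF (hU : S_pfU) (hL : S_pfL) : S_chkPF := by
  intro RS N C j ND UD LD hRS hjN hchk
  have h : K.chkPF RS N C j ND UD LD = K.fb (K.cN N C j) (fun cj =>
      K.fb (Nat.mul 1000 (Nat.mul RS RS)) (fun F =>
    K.allN (fun i => K.fb (K.dg ND 16 i) (fun n =>
      cond (Nat.ble 1 n)
        (cond (cond (Nat.ble j i) (Nat.beq n (K.dg C 16 i)) (Nat.ble n (K.dg C 16 i)))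
          (cond (K.fb (K.dg UD 64 i) (fun vu => K.pfU F cj j i n vu))
            (cond (Nat.ble i j) true (K.fb (K.dg LD 64 i) (fun vl => K.pfL F cj j i n vl))) false)
            false) false)) N)) := rfl
  rw [h, fb_eq, fb_eq, allN_eq] at hchk
  intro i hi
  have hi2 := hchk i hi
  rw [fb_eq, cond_false_iff, cond_false_iff, cond_false_iff, fb_eq, ble_iff] at hi2
  obtain ⟨h1, h2, h3, h4⟩ := hi2
  have hv : vtx (1 / (RS : ℝ)) N (cf C) j =
      (1 / (RS : ℝ) * ((K.cN N C j : ℕ) : ℝ), 2 * (1 / (RS : ℝ)) * (j : ℝ)) := by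
    unfold vtx
    by_cases hj : j < N
    · have h5 : K.cN N C j = K.dg C 16 j := by
        have h6 : K.cN N C j = cond (Nat.ble N j) 0 (K.dg C 16 j) := rfl
        have h7 : Nat.ble N j = false := by
          rw [Bool.eq_false_iff]
          intro h7
          have := Nat.le_of_ble_eq_true h7
          omega
        rw [h6, h7]
        rfl
      rw [if_pos hj, h5]
      rfl
    · have h5 : K.cN N C j = 0 := by
        have h6 : K.cN N C j = cond (Nat.ble N j) 0 (K.dg C 16 j) := rfl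
        rw [h6, Nat.ble_eq_true_of_le (by omega)]
        rfl
      have h6 : j = N := by omega
      rw [if_neg hj, h5, h6]
      simp
  have hFeq : Nat.mul 1000 (Nat.mul RS RS) = 1000 * (RS * RS) := rfl
  rw [hFeq] at h3 h4
  refine ⟨h1, ?_, ?_, ?_, ?_⟩
  · intro hji
    rw [Nat.ble_eq_true_of_le hji] at h2
    exact Nat.eq_of_beq_eq_true h2
  · by_cases hji : j ≤ i
    · rw [Nat.ble_eq_true_of_le hji] at h2
      exact (Nat.eq_of_beq_eq_true h2).le
    · have h7 : Nat.ble j i = false := by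
        rw [Bool.eq_false_iff]
        intro h7
        exact hji (Nat.le_of_ble_eq_true h7)
      rw [h7] at h2
      exact Nat.le_of_ble_eq_true h2
  · rw [hv]
    exact hU RS (K.cN N C j) j i (K.dg ND 16 i) (K.dg UD 64 i) hRS h1 h3
  · intro hji
    have h7 : Nat.ble i j = false := by
      rw [Bool.eq_false_iff]
      intro h7
      have := Nat.le_of_ble_eq_true h7
      omega
    rw [h7] at h4
    change K.fb (K.dg LD 64 i) _ = true at h4
    rw [fb_eq] at h4
    rw [hv]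
    exact hL RS (K.cN N C j) j i (K.dg ND 16 i) (K.dg LD 64 i) hRS h1 h4

end SV
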