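import Pool.Agent.Helper779.SV.Stmts

/-!
# T01: kernel facts S_kk, S_near, S_int, S_phibd
-/

open MeasureTheory Set Filter Topology
open scoped Real

namespace SV
namespace T01

theorem kk_eq {D z : ℝ} (hD : 0 < D) (hz : 0 ≤ z) :
    kk D z = ∫ s in (0:ℝ)..1, 1 / (D + s * z) := by
  unfold kk
  split_ifs with h
  · subst h
    simp
  · have hz' : 0 < z := lt_of_le_of_ne hz (Ne.symm h)
    have h1 : ∀ s ∈ Set.uIcc (0:ℝ) 1,
        HasDerivAt (fun s => Real.log (D + s * z) / z) (1 / (D + s * z)) s := by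
      intro s hs
      rw [Set.uIcc_of_le zero_le_one] at hs
      have hpos : 0 < D + s * z := by
        have := mul_nonneg hs.1 hz
        linarith
      have h2 : HasDerivAt (fun s => D + s * z) z s := by
        simpa using ((hasDerivAt_id s).mul_const z).const_add D
      exact ((h2.log hpos.ne').div_const z).congr_deriv (by field_simp)
    rw [intervalIntegral.integral_eq_sub_of_hasDerivAt h1]
    · simp only [one_mul, zero_mul, add_zero]
      rw [← sub_div, ← Real.log_div (by positivity) hD.ne']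
      congr 2
      field_simp
    · apply ContinuousOn.intervalIntegrable
      apply ContinuousOn.div continuousOn_const (by fun_prop)
      intro s hs
      rw [Set.uIcc_of_le zero_le_one] at hs
      have := mul_nonneg hs.1 hz
      linarith

theorem cont {D z : ℝ} (hD : 0 < D) (hz : 0 ≤ z) :
    ContinuousOn (fun s : ℝ => 1 / (D + s * z)) (Icc 0 1) := by
  apply ContinuousOn.div continuousOn_const (by fun_prop)
  intro s hs
  have := mul_nonneg hs.1 hz
  linarith

theorem ii {D z : ℝ} (hD : 0 < D) (hz : 0 ≤ z) :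
    IntervalIntegrable (fun s : ℝ => 1 / (D + s * z)) volume 0 1 := by
  apply ContinuousOn.intervalIntegrable
  rw [Set.uIcc_of_le zero_le_one]
  exact cont hD hz

theorem kk_pos {D z : ℝ} (hD : 0 < D) (hz : 0 ≤ z) : 0 < kk D z := by
  rw [kk_eq hD hz]
  apply intervalIntegral.intervalIntegral_pos_of_pos_on (ii hD hz) _ zero_lt_one
  intro s hs
  have := mul_nonneg hs.1.le hz
  positivity

theorem kk_mono {D z D' z' : ℝ} (hD : 0 < D) (hz : 0 ≤ z) (h1 : D ≤ D') (h2 : z ≤ z') :
    kk D' z' ≤ kk D z := by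
  rw [kk_eq hD hz, kk_eq (hD.trans_le h1) (hz.trans h2)]
  apply intervalIntegral.integral_mono_on zero_le_one (ii (hD.trans_le h1) (hz.trans h2)) (ii hD hz)
  intro s hs
  have h3 := mul_nonneg hs.1 hz
  have h4 := mul_le_mul_of_nonneg_left h2 hs.1
  apply one_div_le_one_div_of_le (by linarith)
  linarith

theorem kk_lt {D z D' z' : ℝ} (hD : 0 < D) (hz : 0 ≤ z) (h1 : D < D') (h2 : z ≤ z') :
    kk D' z' < kk D z := by
  rw [kk_eq hD hz, kk_eq (hD.trans h1) (hz.trans h2)]
  apply intervalIntegral.integral_lt_integral_of_continuousOn_of_le_of_exists_lt zero_lt_one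
    (cont (hD.trans h1) (hz.trans h2)) (cont hD hz)
  · intro s hs
    have h3 := mul_nonneg hs.1.le hz
    have h4 := mul_le_mul_of_nonneg_left h2 hs.1.le
    apply one_div_le_one_div_of_le (by linarith)
    linarith
  · refine ⟨0, ⟨le_rfl, zero_le_one⟩, ?_⟩
    simp only [zero_mul, add_zero]
    exact one_div_lt_one_div_of_lt hD h1

theorem kk_zero (D : ℝ) : kk D 0 = 1 / D := by simp [kk]

theorem kk_le {D z : ℝ} (hD : 0 < D) (hz : 0 ≤ z) : kk D z ≤ 1 / D := by
  rw [← kk_zero D]
  exact kk_mono hD le_rfl le_rfl hz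

theorem le_kk_half {D z : ℝ} (hD : 0 < D) (hz : 0 ≤ z) : 1 / (D + z / 2) ≤ kk D z := by
  rw [kk_eq hD hz]
  set m := D + z / 2 with hm
  have hmpos : 0 < m := by positivity
  have h1 : ∫ s in (0:ℝ)..1, (1 / m - (D + s * z - m) / m ^ 2) = 1 / m := by
    have h2 : ∀ s ∈ Set.uIcc (0:ℝ) 1, HasDerivAt
        (fun s => s / m - (D * s + s ^ 2 / 2 * z - m * s) / m ^ 2)
        (1 / m - (D + s * z - m) / m ^ 2) s := by
      intro s _
      have e1 : HasDerivAt (fun s : ℝ => s / m) (1 / m) s := (hasDerivAt_id s).div_const m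
      have e2 : HasDerivAt (fun s : ℝ => D * s) D s := by
        simpa using (hasDerivAt_id s).const_mul D
      have e3 : HasDerivAt (fun s : ℝ => s ^ 2 / 2 * z) (s * z) s := by
        exact (((hasDerivAt_pow 2 s).div_const 2).mul_const z).congr_deriv (by push_cast; ring)
      have e4 : HasDerivAt (fun s : ℝ => m * s) m s := by
        simpa using (hasDerivAt_id s).const_mul m
      exact e1.sub (((e2.add e3).sub e4).div_const _)
    rw [intervalIntegral.integral_eq_sub_of_hasDerivAt h2]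
    · have : D + z / 2 - m = 0 := by rw [hm]; ring
      have h3 : D * 1 + 1 ^ 2 / 2 * z - m * 1 = 0 := by rw [hm]; ring
      rw [h3]
      simp
    · apply Continuous.intervalIntegrable
      fun_prop
  rw [← h1]
  apply intervalIntegral.integral_mono_on zero_le_one _ (ii hD hz)
  · intro s hs
    have hu : 0 < D + s * z := by
      have := mul_nonneg hs.1 hz
      linarith
    have h4 : 1 / (D + s * z) - (1 / m - (D + s * z - m) / m ^ 2) =
        (m - (D + s * z)) ^ 2 / ((D + s * z) * m ^ 2) := by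
      field_simp
      ring
    have h5 : 0 ≤ (m - (D + s * z)) ^ 2 / ((D + s * z) * m ^ 2) := by positivity
    linarith
  · apply Continuous.intervalIntegrable
    fun_prop

theorem log_pade {x : ℝ} (hx : 0 ≤ x) : Real.log (1 + x) ≤ x * (6 + x) / (6 + 4 * x) := by
  have h1 : MonotoneOn (fun x : ℝ => x * (6 + x) / (6 + 4 * x) - Real.log (1 + x)) (Ici 0) := by
    apply monotoneOn_of_hasDerivWithinAt_nonneg (convex_Ici 0)
      (f' := fun x => 4 * x ^ 3 / ((6 + 4 * x) ^ 2 * (1 + x)))
    · apply ContinuousOn.sub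
      · apply ContinuousOn.div (by fun_prop) (by fun_prop)
        intro y hy
        have : (0:ℝ) ≤ y := hy
        positivity
      · apply ContinuousOn.log (by fun_prop)
        intro y hy
        have : (0:ℝ) ≤ y := hy
        positivity
    · intro y hy
      rw [interior_Ici] at hy
      have hy' : (0:ℝ) < y := hy
      have e1 : HasDerivAt (fun x : ℝ => x * (6 + x)) (6 + 2 * y) y := by
        exact ((hasDerivAt_id y).mul ((hasDerivAt_id y).const_add 6)).congr_deriv (by
          simp only [id]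
          ring)
      have e2 : HasDerivAt (fun x : ℝ => 6 + 4 * x) 4 y := by
        simpa using ((hasDerivAt_id y).const_mul 4).const_add 6
      have e3 : HasDerivAt (fun x : ℝ => 1 + x) 1 y := by
        simpa using (hasDerivAt_id y).const_add 1
      have e4 := (e1.div e2 (by positivity)).sub (e3.log (by positivity))
      refine e4.hasDerivWithinAt.congr_deriv ?_
      field_simp
      ring
    · intro y hy
      rw [interior_Ici] at hy
      have hy' : (0:ℝ) < y := hy
      positivity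
  have h2 := h1 (mem_Ici.2 le_rfl) (mem_Ici.2 hx) hx
  simp only [zero_mul, add_zero, mul_zero, Real.log_one, sub_zero, zero_div] at h2
  linarith

theorem kk_pade {D z : ℝ} (hD : 0 < D) (hz : 0 ≤ z) :
    kk D z ≤ (6 * D + z) / (D * (6 * D + 4 * z)) := by
  unfold kk
  split_ifs with h
  · subst h
    apply le_of_eq
    field_simp
    ring
  · have hz' : 0 < z := lt_of_le_of_ne hz (Ne.symm h)
    rw [div_le_iff₀ hz']
    refine (log_pade (x := z / D) (by positivity)).trans (le_of_eq ?_)
    field_simp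

end T01

theorem t_kk : S_kk := by
  intro D z hD hz
  refine ⟨T01.kk_eq hD hz, T01.kk_pos hD hz, T01.kk_le hD hz, ?_, T01.le_kk_half hD hz,
    T01.kk_pade hD hz, fun D' z' h1 h2 => ⟨T01.kk_mono hD hz h1 h2, fun h => T01.kk_lt hD hz h h2⟩⟩
  refine le_trans ?_ (T01.le_kk_half hD hz)
  apply one_div_le_one_div_of_le (by positivity)
  linarith

namespace T01

theorem dsq_nonneg (x y : ℝ × ℝ) : 0 ≤ dsq x y := by
  unfold dsq
  positivity

theorem dsq_pos {x y : ℝ × ℝ} (h : x ≠ y) : 0 < dsq x y := by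
  unfold dsq
  by_contra hc
  push Not at hc
  apply h
  have h1 : (x.1 - y.1) ^ 2 = 0 := by nlinarith [sq_nonneg (x.1 - y.1), sq_nonneg (x.2 - y.2)]
  have h2 : (x.2 - y.2) ^ 2 = 0 := by nlinarith [sq_nonneg (x.1 - y.1), sq_nonneg (x.2 - y.2)]
  exact Prod.ext (by nlinarith [pow_eq_zero_iff (two_ne_zero) |>.1 h1])
    (by nlinarith [pow_eq_zero_iff (two_ne_zero) |>.1 h2])

theorem near_aux {x y : ℝ × ℝ} (hx : 0 ≤ x.2) (hy : 0 < y.2) (hxy : x ≠ y) :
    kk (dsq x y) (4 * x.2 * y.2) * y.2 ≤ 1 / √(dsq x y) := by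
  have hD := dsq_pos hxy
  set d := √(dsq x y) with hd
  have hdpos : 0 < d := Real.sqrt_pos.2 hD
  have hd2 : d ^ 2 = dsq x y := Real.sq_sqrt hD.le
  have hyd : y.2 ≤ x.2 + d := by
    have h1 : |y.2 - x.2| ≤ d := by
      apply Real.abs_le_sqrt
      unfold dsq
      nlinarith [sq_nonneg (x.1 - y.1)]
    have := le_abs_self (y.2 - x.2)
    linarith
  rcases hx.eq_or_lt with h0 | h0
  · rw [← h0] at hyd ⊢
    rw [mul_zero, zero_mul, kk_zero, ← hd2, div_mul_eq_mul_div, one_mul, div_le_div_iff₀ (by positivity)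
      hdpos]
    nlinarith
  · have hz : 4 * x.2 * y.2 ≠ 0 := by positivity
    rw [kk, if_neg hz]
    have h1 : 1 + 4 * x.2 * y.2 / dsq x y ≤ (1 + 2 * x.2 / d) ^ 2 := by
      rw [← hd2]
      have : (1 + 2 * x.2 / d) ^ 2 - (1 + 4 * x.2 * y.2 / d ^ 2) =
          4 * x.2 * (x.2 + d - y.2) / d ^ 2 := by
        field_simp
        ring
      have h2 : 0 ≤ 4 * x.2 * (x.2 + d - y.2) / d ^ 2 := by
        apply div_nonneg _ (by positivity)
        apply mul_nonneg (by positivity)
        linarith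
      linarith
    have h2 : Real.log (1 + 4 * x.2 * y.2 / dsq x y) ≤ 4 * x.2 / d := by
      calc Real.log (1 + 4 * x.2 * y.2 / dsq x y) ≤ Real.log ((1 + 2 * x.2 / d) ^ 2) :=
            Real.log_le_log (by positivity) h1
        _ = 2 * Real.log (1 + 2 * x.2 / d) := by
            rw [Real.log_pow]
            norm_num
        _ ≤ 2 * (2 * x.2 / d) := by
            have := Real.log_le_sub_one_of_pos (show 0 < 1 + 2 * x.2 / d by positivity)
            linarith
        _ = 4 * x.2 / d := by ring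
    have h3 : Real.log (1 + 4 * x.2 * y.2 / dsq x y) / (4 * x.2 * y.2) * y.2 =
        Real.log (1 + 4 * x.2 * y.2 / dsq x y) / (4 * x.2) := by
      field_simp
    rw [h3, div_le_iff₀ (by positivity)]
    refine h2.trans (le_of_eq ?_)
    ring

end T01

theorem t_near : S_near := by
  intro x y hx hy hxy
  have h := T01.near_aux hx hy hxy
  unfold kap
  rw [mul_assoc, one_div, one_div, mul_inv, ← one_div (√(dsq x y))]
  exact mul_le_mul_of_nonneg_left h (by positivity)

namespace T01

theorem meas_kk : Measurable (fun p : ℝ × ℝ => kk p.1 p.2) := by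
  unfold kk
  refine Measurable.ite (measurable_snd (measurableSet_singleton 0)) ?_ ?_
  · exact measurable_const.div measurable_fst
  · exact (Real.measurable_log.comp (measurable_const.add (measurable_snd.div measurable_fst))).div
      measurable_snd

theorem meas_kap : Measurable (fun p : (ℝ × ℝ) × (ℝ × ℝ) => kap p.1 p.2) := by
  unfold kap dsq
  refine measurable_const.mul (meas_kk.comp (f := fun p : (ℝ × ℝ) × (ℝ × ℝ) =>
    (((p.1.1 - p.2.1) ^ 2 + (p.1.2 - p.2.2) ^ 2), 4 * p.1.2 * p.2.2)) ?_)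
  fun_prop

theorem meas_kap_right (x : ℝ × ℝ) : Measurable (fun y => kap x y * y.2) :=
  (meas_kap.comp (measurable_const.prodMk measurable_id)).mul measurable_snd

theorem kap_nonneg {x y : ℝ × ℝ} (hx : 0 ≤ x.2) (hy : 0 ≤ y.2) : 0 ≤ kap x y := by
  unfold kap
  rcases eq_or_ne x y with h | h
  · subst h
    have : dsq x x = 0 := by simp [dsq]
    rw [this]
    unfold kk
    split_ifs <;> simp
  · have := (kk_pos (dsq_pos h) (show 0 ≤ 4 * x.2 * y.2 by positivity)).le
    positivity

theorem kap_le {x y : ℝ × ℝ} (hx : 0 ≤ x.2) (hy : 0 ≤ y.2) (h : x ≠ y) :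
    kap x y ≤ 1 / (π * dsq x y) := by
  unfold kap
  rw [one_div, one_div, mul_inv, ← one_div (dsq x y)]
  exact mul_le_mul_of_nonneg_left (kk_le (dsq_pos h) (by positivity)) (by positivity)

theorem polar_near (r : ℝ) (hr : 0 < r) :
    ∫⁻ z : ℝ × ℝ in {z | z.1 ^ 2 + z.2 ^ 2 < r ^ 2},
      ENNReal.ofReal (1 / (π * √(z.1 ^ 2 + z.2 ^ 2))) = ENNReal.ofReal (2 * r) := by
  have hm : MeasurableSet {z : ℝ × ℝ | z.1 ^ 2 + z.2 ^ 2 < r ^ 2} :=
    measurableSet_lt (by fun_prop) (by fun_prop)
  rw [← lintegral_indicator hm, ← lintegral_comp_polarCoord_symm]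
  have h1 : ∀ p ∈ polarCoord.target, ENNReal.ofReal p.1 •
      ({z : ℝ × ℝ | z.1 ^ 2 + z.2 ^ 2 < r ^ 2}.indicator
        (fun z => ENNReal.ofReal (1 / (π * √(z.1 ^ 2 + z.2 ^ 2)))) (polarCoord.symm p)) =
      (Iio r ×ˢ univ).indicator (fun _ => ENNReal.ofReal (1 / π)) p := by
    rintro ⟨ρ, θ⟩ ⟨hρ, hθ⟩
    have hρ' : 0 < ρ := hρ
    have h2 : (ρ * Real.cos θ) ^ 2 + (ρ * Real.sin θ) ^ 2 = ρ ^ 2 := by
      nlinarith [Real.sin_sq_add_cos_sq θ]
    rw [polarCoord_symm_apply]
    by_cases h3 : ρ < r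
    · rw [indicator_of_mem, indicator_of_mem]
      · simp only [h2, smul_eq_mul]
        rw [Real.sqrt_sq hρ'.le, ← ENNReal.ofReal_mul hρ'.le]
        congr 1
        field_simp
      · exact ⟨h3, mem_univ _⟩
      · show (ρ * Real.cos θ) ^ 2 + (ρ * Real.sin θ) ^ 2 < r ^ 2
        rw [h2]
        exact pow_lt_pow_left₀ h3 hρ'.le two_ne_zero
    · rw [indicator_of_notMem, indicator_of_notMem, smul_zero]
      · exact fun h => h3 h.1
      · show ¬ (ρ * Real.cos θ) ^ 2 + (ρ * Real.sin θ) ^ 2 < r ^ 2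
        rw [h2, not_lt]
        exact pow_le_pow_left₀ hr.le (not_lt.1 h3) 2
  rw [setLIntegral_congr_fun polarCoord.open_target.measurableSet h1,
    lintegral_indicator (measurableSet_Iio.prod MeasurableSet.univ),
    Measure.restrict_restrict (measurableSet_Iio.prod MeasurableSet.univ), setLIntegral_const]
  have h4 : (Iio r ×ˢ univ) ∩ polarCoord.target = Ioo 0 r ×ˢ Ioo (-π) π := by
    ext ⟨a, b⟩
    simp only [polarCoord_target, mem_inter_iff, mem_prod, mem_Iio, mem_univ, mem_Ioi, mem_Ioo]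
    tauto
  rw [h4, Measure.volume_eq_prod, Measure.prod_prod, Real.volume_Ioo, Real.volume_Ioo,
    ← ENNReal.ofReal_mul (by linarith), ← ENNReal.ofReal_mul (by positivity)]
  congr 1
  field_simp
  ring

theorem near_lint (x : ℝ × ℝ) (r : ℝ) (hr : 0 < r) :
    ∫⁻ y in {y | dsq x y < r ^ 2}, ENNReal.ofReal (1 / (π * √(dsq x y))) =
      ENNReal.ofReal (2 * r) := by
  have hm : MeasurableSet {z : ℝ × ℝ | z.1 ^ 2 + z.2 ^ 2 < r ^ 2} :=
    measurableSet_lt (by fun_prop) (by fun_prop)
  have hm' : MeasurableSet {y : ℝ × ℝ | dsq x y < r ^ 2} := by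
    unfold dsq
    exact measurableSet_lt (by fun_prop) (by fun_prop)
  rw [← polar_near r hr, ← lintegral_indicator hm, ← lintegral_indicator hm',
    ← lintegral_sub_right_eq_self ({z : ℝ × ℝ | z.1 ^ 2 + z.2 ^ 2 < r ^ 2}.indicator
      fun z => ENNReal.ofReal (1 / (π * √(z.1 ^ 2 + z.2 ^ 2)))) x]
  refine lintegral_congr fun y => ?_
  have h1 : dsq x y = (y - x).1 ^ 2 + (y - x).2 ^ 2 := by
    simp only [dsq, Prod.fst_sub, Prod.snd_sub]
    ring
  by_cases h : dsq x y < r ^ 2
  · rw [indicator_of_mem (show y ∈ {y | dsq x y < r ^ 2} from h),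
      indicator_of_mem (show y - x ∈ {z : ℝ × ℝ | z.1 ^ 2 + z.2 ^ 2 < r ^ 2} by
        rw [mem_ofPred_eq, ← h1]
        exact h), h1]
  · rw [indicator_of_notMem (show y ∉ {y | dsq x y < r ^ 2} from h),
      indicator_of_notMem (show y - x ∉ {z : ℝ × ℝ | z.1 ^ 2 + z.2 ^ 2 < r ^ 2} by
        rw [mem_ofPred_eq, ← h1]
        exact h)]

/-- the near part -/
noncomputable def g1 (x : ℝ × ℝ) (r : ℝ) : ℝ × ℝ → ℝ :=
  {y | dsq x y < r ^ 2}.indicator (fun y => 1 / (π * √(dsq x y)))

theorem meas_dsq (x : ℝ × ℝ) : Measurable (dsq x) := by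
  unfold dsq
  fun_prop

theorem ms_ball (x : ℝ × ℝ) (r : ℝ) : MeasurableSet {y | dsq x y < r ^ 2} :=
  measurableSet_lt (meas_dsq x) measurable_const

theorem g1_meas (x : ℝ × ℝ) (r : ℝ) : Measurable (g1 x r) := by
  have := meas_dsq x
  exact Measurable.indicator (by fun_prop) (ms_ball x r)

theorem g1_nonneg (x : ℝ × ℝ) (r : ℝ) (y : ℝ × ℝ) : 0 ≤ g1 x r y :=
  indicator_nonneg (fun y _ => by positivity) y

theorem g1_lint (x : ℝ × ℝ) {r : ℝ} (hr : 0 < r) :
    ∫⁻ y, ENNReal.ofReal (g1 x r y) = ENNReal.ofReal (2 * r) := by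
  rw [← near_lint x r hr, ← lintegral_indicator (ms_ball x r)]
  refine lintegral_congr fun y => ?_
  unfold g1
  by_cases h : y ∈ {y | dsq x y < r ^ 2}
  · rw [indicator_of_mem h, indicator_of_mem h]
  · rw [indicator_of_notMem h, indicator_of_notMem h, ENNReal.ofReal_zero]

theorem g1_int (x : ℝ × ℝ) {r : ℝ} (hr : 0 < r) : Integrable (g1 x r) := by
  refine ⟨(g1_meas x r).aestronglyMeasurable, ?_⟩
  rw [hasFiniteIntegral_iff_ofReal (Eventually.of_forall (g1_nonneg x r)), g1_lint x hr]
  exact ENNReal.ofReal_lt_top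

theorem g1_integral (x : ℝ × ℝ) {r : ℝ} (hr : 0 < r) : ∫ y, g1 x r y = 2 * r := by
  rw [integral_eq_lintegral_of_nonneg_ae (Eventually.of_forall (g1_nonneg x r))
    (g1_meas x r).aestronglyMeasurable, g1_lint x hr, ENNReal.toReal_ofReal (by positivity)]

theorem g1_setIntegral_le (x : ℝ × ℝ) {r : ℝ} (hr : 0 < r) (A : Set (ℝ × ℝ)) :
    ∫ y in A, g1 x r y ≤ 2 * r := by
  rw [← g1_integral x hr]
  exact setIntegral_le_integral (g1_int x hr) (Eventually.of_forall (g1_nonneg x r))

theorem kap_self (x : ℝ × ℝ) : kap x x = 0 := by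
  have : dsq x x = 0 := by simp [dsq]
  unfold kap kk
  rw [this]
  split_ifs <;> simp

theorem pt1 {x y : ℝ × ℝ} (hx : 0 ≤ x.2) (hy : 0 < y.2) {r : ℝ} (hr : 0 < r) :
    kap x y * y.2 ≤ g1 x r y + y.2 / (π * r ^ 2) := by
  have h0 := g1_nonneg x r y
  rcases eq_or_ne x y with h | h
  · subst h
    rw [kap_self, zero_mul]
    positivity
  · by_cases h1 : dsq x y < r ^ 2
    · have h2 := t_near x y hx hy h
      have h3 : g1 x r y = 1 / (π * √(dsq x y)) := indicator_of_mem (show y ∈ {y | dsq x y < r ^ 2} from h1) _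
      rw [h3]
      have : 0 ≤ y.2 / (π * r ^ 2) := by positivity
      linarith
    · have h2 := kap_le hx hy.le h
      have h3 : kap x y * y.2 ≤ 1 / (π * r ^ 2) * y.2 := by
        apply mul_le_mul_of_nonneg_right _ hy.le
        refine h2.trans (one_div_le_one_div_of_le (by positivity) ?_)
        exact mul_le_mul_of_nonneg_left (not_lt.1 h1) Real.pi_pos.le
      have h4 : 1 / (π * r ^ 2) * y.2 = y.2 / (π * r ^ 2) := by ring
      linarith

theorem pt2 {x y : ℝ × ℝ} (hx : 0 ≤ x.2) (hy : 0 < y.2) {r R : ℝ} (hr : 0 < r) (hR : 0 < R) :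
    kap x y * y.2 ≤ g1 x r y + {y | dsq x y < R ^ 2}.indicator (fun _ => 1 / (π * r)) y +
      y.2 / (π * R ^ 2) := by
  have h0 := g1_nonneg x r y
  have h00 : 0 ≤ {y | dsq x y < R ^ 2}.indicator (fun _ => 1 / (π * r)) y :=
    indicator_nonneg (fun y _ => by positivity) y
  rcases eq_or_ne x y with h | h
  · subst h
    rw [kap_self, zero_mul]
    positivity
  · by_cases h1 : dsq x y < r ^ 2
    · have h2 := t_near x y hx hy h
      have h3 : g1 x r y = 1 / (π * √(dsq x y)) := indicator_of_mem (show y ∈ {y | dsq x y < r ^ 2} from h1) _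
      rw [h3]
      have : 0 ≤ y.2 / (π * R ^ 2) := by positivity
      linarith
    · by_cases h2 : dsq x y < R ^ 2
      · rw [indicator_of_mem (show y ∈ {y | dsq x y < R ^ 2} from h2)]
        have h3 := t_near x y hx hy h
        have h4 : 1 / (π * √(dsq x y)) ≤ 1 / (π * r) := by
          apply one_div_le_one_div_of_le (by positivity)
          apply mul_le_mul_of_nonneg_left _ Real.pi_pos.le
          exact Real.le_sqrt_of_sq_le (not_lt.1 h1)
        have : 0 ≤ y.2 / (π * R ^ 2) := by positivity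
        linarith
      · have h3 := kap_le hx hy.le h
        have h4 : kap x y * y.2 ≤ 1 / (π * R ^ 2) * y.2 := by
          apply mul_le_mul_of_nonneg_right _ hy.le
          refine h3.trans (one_div_le_one_div_of_le (by positivity) ?_)
          exact mul_le_mul_of_nonneg_left (not_lt.1 h2) Real.pi_pos.le
        have h5 : 1 / (π * R ^ 2) * y.2 = y.2 / (π * R ^ 2) := by ring
        linarith

end T01

theorem t_int : S_int := by
  intro A hA x hx
  have h1 : IntegrableOn (fun y : ℝ × ℝ => T01.g1 x 1 y + y.2 / (π * 1 ^ 2)) A :=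
    (T01.g1_int x one_pos).integrableOn.add (hA.int.div_const _)
  refine h1.mono' (T01.meas_kap_right x).aestronglyMeasurable ?_
  filter_upwards [ae_restrict_mem hA.meas] with y hy
  have hy2 : 0 < y.2 := hA.sub hy
  rw [Real.norm_of_nonneg (mul_nonneg (T01.kap_nonneg hx hy2.le) hy2.le)]
  exact T01.pt1 hx hy2 one_pos

theorem t_phibd : S_phibd := by
  intro A hA x hx
  have hI := t_int A hA x hx
  refine ⟨?_, ?_, ?_⟩
  · apply setIntegral_nonneg hA.meas
    intro y hy
    have hy2 : 0 < y.2 := hA.sub hy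
    exact mul_nonneg (T01.kap_nonneg hx hy2.le) hy2.le
  · intro r hr
    have h1 : IntegrableOn (fun y : ℝ × ℝ => T01.g1 x r y + y.2 / (π * r ^ 2)) A :=
      (T01.g1_int x hr).integrableOn.add (hA.int.div_const _)
    calc phi A x ≤ ∫ y in A, (T01.g1 x r y + y.2 / (π * r ^ 2)) :=
          setIntegral_mono_on hI h1 hA.meas fun y hy => T01.pt1 hx (hA.sub hy) hr
      _ = (∫ y in A, T01.g1 x r y) + PP A / (π * r ^ 2) := by
          rw [integral_add (T01.g1_int x hr).integrableOn (hA.int.div_const _), integral_div]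
          rfl
      _ ≤ 2 * r + PP A / (π * r ^ 2) := by
          have := T01.g1_setIntegral_le x hr A
          linarith
  · intro r R hr hR hV
    have hms := T01.ms_ball x R
    have hfin : volume (A ∩ {y | dsq x y < R ^ 2}) ≠ ⊤ :=
      ((measure_mono inter_subset_left).trans_lt (lt_top_iff_ne_top.2 hV)).ne
    have h2 : IntegrableOn ({y | dsq x y < R ^ 2}.indicator (fun _ => 1 / (π * r))) A := by
      rw [integrableOn_indicator_iff hms]
      refine integrableOn_const (hs := ?_)
      rw [inter_comm]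
      exact hfin
    have h1 : IntegrableOn (fun y : ℝ × ℝ => T01.g1 x r y +
        {y | dsq x y < R ^ 2}.indicator (fun _ => 1 / (π * r)) y + y.2 / (π * R ^ 2)) A :=
      ((T01.g1_int x hr).integrableOn.add h2).add (hA.int.div_const _)
    calc phi A x ≤ ∫ y in A, (T01.g1 x r y +
        {y | dsq x y < R ^ 2}.indicator (fun _ => 1 / (π * r)) y + y.2 / (π * R ^ 2)) :=
          setIntegral_mono_on hI h1 hA.meas fun y hy => T01.pt2 hx (hA.sub hy) hr hR
      _ = (∫ y in A, T01.g1 x r y) + ar (A ∩ {y | dsq x y < R ^ 2}) / (π * r) +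
          PP A / (π * R ^ 2) := by
          rw [integral_add (f := fun y => T01.g1 x r y +
            {y | dsq x y < R ^ 2}.indicator (fun _ => 1 / (π * r)) y)
            ((T01.g1_int x hr).integrableOn.add h2) (hA.int.div_const _),
            integral_add (T01.g1_int x hr).integrableOn h2, integral_div, setIntegral_indicator hms,
            setIntegral_const]
          have h3 : (volume.real (A ∩ {y | dsq x y < R ^ 2})) • (1 / (π * r)) =
              ar (A ∩ {y | dsq x y < R ^ 2}) / (π * r) := by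
            rw [smul_eq_mul, ar, Measure.real]
            ring
          rw [h3]
          rfl
      _ ≤ _ := by
          have := T01.g1_setIntegral_le x hr A
          linarith

end SV
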