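import Pool.Agent.Helper779.SV.Stmts3
import Pool.Agent.Helper779.SV.T01
import Pool.Agent.Helper779.SV.T18

/-!
# T25b: S_shape, S_rowA
-/

open MeasureTheory Set Filter Topology
open scoped Real

namespace SV
namespace T25b

theorem fc_eq (n : ℕ) (f : ℕ → ℕ) : K.fc n f = f n := by cases n <;> rfl

theorem fb_eq (n : ℕ) (f : ℕ → Bool) : K.fb n f = f n := by cases n <;> rfl

theorem cond_f (a b : Bool) : cond a b false = true ↔ a = true ∧ b = true := by
  cases a <;> simp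

theorem cond_t (a b : Bool) : cond a true b = true ↔ a = true ∨ b = true := by
  cases a <;> simp

theorem allN_iff (f : ℕ → Bool) (n : ℕ) : K.allN f n = true ↔ ∀ i < n, f i = true := by
  induction n with
  | zero => simp [K.allN]
  | succ n ih =>
    have h : K.allN f (n + 1) = cond (f n) (K.allN f n) false := rfl
    rw [h, cond_f, ih]
    constructor
    · rintro ⟨h1, h2⟩ i hi
      rcases Nat.lt_succ_iff_lt_or_eq.1 hi with h3 | h3
      · exact h2 i h3
      · rw [h3]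
        exact h1
    · intro h
      exact ⟨h n (Nat.lt_succ_self n), fun i hi => h i (Nat.lt_succ_of_lt hi)⟩

theorem dg_zero {C N i : ℕ} (h : C + 1 ≤ 2 ^ (16 * N)) (hi : N ≤ i) : K.dg C 16 i = 0 := by
  show (C >>> (16 * i)) % 2 ^ 16 = 0
  rw [Nat.shiftRight_eq_div_pow, Nat.div_eq_of_lt, Nat.zero_mod]
  calc C < 2 ^ (16 * N) := h
    _ ≤ 2 ^ (16 * i) := Nat.pow_le_pow_right (by norm_num) (by omega)

end T25b

open T25b in
theorem t_shape : S_shape := by
  intro RS N C qn hRS hN h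
  simp only [K.shape, fb_eq, cond_f, cond_t, allN_iff, Nat.ble_eq, Nat.beq_eq, Nat.mul_eq,
    Nat.add_eq, Nat.sub_eq, Nat.succ_eq_add_one, Nat.pow_eq, and_true] at h
  obtain ⟨h1, h2⟩ := h
  have hR : (0:ℝ) < RS := by exact_mod_cast hRS
  set u : ℝ := 1 / (RS : ℝ) with hu
  have hu0 : 0 < u := by positivity
  have hv : ∀ j < N, vtx u N (cf C) j = (u * (cf C j : ℝ), 2 * u * (j : ℝ)) := fun j hj => by
    unfold vtx
    rw [if_pos hj]
  refine ⟨⟨hRS, hN, ?_, fun i hi => (h2 i hi).1, ?_⟩, ?_⟩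
  · have hanti : Antitone (cf C) := by
      apply antitone_nat_of_succ_le
      intro n
      by_cases hn : n < N
      · exact (h2 n hn).2.1
      · unfold cf
        rw [dg_zero h1 (show N ≤ n + 1 by omega)]
        exact Nat.zero_le _
    exact fun i k hik => hanti hik
  · intro j hj
    rw [hv j hj]
    obtain ⟨-, -, -, h6⟩ := h2 j hj
    have hc : (cf C j : ℝ) = (K.dg C 16 j : ℝ) := rfl
    rcases h6 with h6 | ⟨h6, h7⟩ | ⟨h6, h7⟩ | ⟨h6, h7⟩
    · left
      left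
      have h8 : (64:ℝ) * ((N:ℝ) - j) ≤ 20 * (K.dg C 16 j : ℝ) := by
        have : ((64 * (N - j) : ℕ) : ℝ) ≤ ((20 * K.dg C 16 j : ℕ) : ℝ) := by exact_mod_cast h6
        push_cast [Nat.cast_sub hj.le] at this
        exact this
      simp only
      rw [hc]
      have := mul_le_mul_of_nonneg_left h8 hu0.le
      linarith
    · left
      right
      left
      have h8 : (6:ℝ) * ((N:ℝ) - j) ≤ 2 * (K.dg C 16 j : ℝ) := by
        have : ((6 * (N - j) : ℕ) : ℝ) ≤ ((2 * K.dg C 16 j : ℕ) : ℝ) := by exact_mod_cast h6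
        push_cast [Nat.cast_sub hj.le] at this
        exact this
      have h9 : (2:ℝ) * ((N:ℝ) + j) ≤ 2 * (K.dg C 16 j : ℝ) := by exact_mod_cast h7
      simp only
      rw [hc]
      have h10 := mul_le_mul_of_nonneg_left h8 hu0.le
      have h11 := mul_le_mul_of_nonneg_left h9 hu0.le
      constructor <;> linarith
    · right
      subst h6
      have h9 : (2:ℝ) * (N:ℝ) ≤ (K.dg C 16 0 : ℝ) := by exact_mod_cast h7
      have h11 := mul_le_mul_of_nonneg_left h9 hu0.le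
      refine ⟨by simp, ?_⟩
      simp only
      rw [hc]
      linarith
    · left
      right
      right
      have h8 : (1:ℝ) ≤ (j : ℝ) := by exact_mod_cast h6
      have h9 : (34:ℝ) * ((N:ℝ) + j) ≤ 20 * (K.dg C 16 j : ℝ) := by exact_mod_cast h7
      have h11 := mul_le_mul_of_nonneg_left h9 hu0.le
      have h12 := mul_le_mul_of_nonneg_left h8 hu0.le
      simp only
      rw [hc]
      constructor <;> linarith
  · intro j hj
    rcases hj.lt_or_eq with hj | hj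
    · rw [hv j hj]
      obtain ⟨-, -, h5, -⟩ := h2 j hj
      have h6 : (4000000:ℝ) * ((cf C j : ℝ) * ((j:ℝ) * j)) ≤ qn * ((RS:ℝ) * (RS * RS)) := by
        exact_mod_cast h5
      simp only
      rw [hu, div_mul_eq_mul_div, one_mul, show (2 * (1 / (RS:ℝ)) * (j:ℝ)) ^ 2 = 4 * (j:ℝ) ^ 2 / (RS:ℝ) ^ 2 by
        field_simp; ring, div_mul_div_comm, div_le_div_iff₀ (by positivity) (by norm_num)]
      nlinarith
    · subst hj
      have : (vtx u j (cf C) j).1 = 0 := by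
        unfold vtx
        rw [if_neg (lt_irrefl _)]
      rw [this, zero_mul]
      positivity

namespace T25b

open T17 T18

/-- lower bound for the mean kernel -/
theorem mk_lo {p₁ p₂ L y : ℝ} (hp₂ : 0 ≤ p₂) (hpy : p₂ < y) (hL : 0 < L) :
    1 / (p₁ ^ 2 + p₂ ^ 2 + L ^ 2 + y ^ 2) ≤ mk (p₁, p₂) L y := by
  have hy : 0 < y := lt_of_le_of_lt hp₂ hpy
  have hc := kap_cont (p := (p₁, p₂)) hp₂ hy (by simp only; linarith)
  set f : ℝ → ℝ := fun x => π * kap (p₁, p₂) (x, y) with hf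
  have hlo : ∀ x, 1 / ((p₁ - x) ^ 2 + p₂ ^ 2 + y ^ 2) ≤ f x := by
    intro x
    have hD : 0 < dsq (p₁, p₂) (x, y) := by
      simp only [dsq]
      have : 0 < (p₂ - y) ^ 2 := by
        have : p₂ - y ≠ 0 := by linarith
        positivity
      positivity
    rw [hf]
    simp only
    rw [pi_kap]
    refine le_trans (le_of_eq ?_) (T01.le_kk_half hD (by positivity))
    congr 1
    simp only [dsq]
    ring
  have hpt : ∀ x ∈ Icc (-L) L, 2 * (1 / (p₁ ^ 2 + p₂ ^ 2 + L ^ 2 + y ^ 2)) ≤ f x + f (-x) := by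
    intro x hx
    have h1 := hlo x
    have h2 := hlo (-x)
    have hx2 : x ^ 2 ≤ L ^ 2 := by nlinarith [hx.1, hx.2]
    have hA : 0 < p₁ ^ 2 + x ^ 2 + p₂ ^ 2 + y ^ 2 := by positivity
    have h3 : 2 * (1 / (p₁ ^ 2 + p₂ ^ 2 + L ^ 2 + y ^ 2)) ≤
        2 * (1 / (p₁ ^ 2 + x ^ 2 + p₂ ^ 2 + y ^ 2)) := by
      apply mul_le_mul_of_nonneg_left _ (by norm_num)
      apply one_div_le_one_div_of_le hA
      linarith
    have h4 : 2 * (1 / (p₁ ^ 2 + x ^ 2 + p₂ ^ 2 + y ^ 2)) ≤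
        1 / ((p₁ - x) ^ 2 + p₂ ^ 2 + y ^ 2) + 1 / ((p₁ - -x) ^ 2 + p₂ ^ 2 + y ^ 2) := by
      have ha : 0 < (p₁ - x) ^ 2 + p₂ ^ 2 + y ^ 2 := by positivity
      have hb : 0 < (p₁ - -x) ^ 2 + p₂ ^ 2 + y ^ 2 := by positivity
      have : 1 / ((p₁ - x) ^ 2 + p₂ ^ 2 + y ^ 2) + 1 / ((p₁ - -x) ^ 2 + p₂ ^ 2 + y ^ 2) -
          2 * (1 / (p₁ ^ 2 + x ^ 2 + p₂ ^ 2 + y ^ 2)) = 2 * (2 * p₁ * x) ^ 2 /
            (((p₁ - x) ^ 2 + p₂ ^ 2 + y ^ 2) * ((p₁ - -x) ^ 2 + p₂ ^ 2 + y ^ 2) *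
              (p₁ ^ 2 + x ^ 2 + p₂ ^ 2 + y ^ 2)) := by
        field_simp
        ring
      have h5 : 0 ≤ 2 * (2 * p₁ * x) ^ 2 /
            (((p₁ - x) ^ 2 + p₂ ^ 2 + y ^ 2) * ((p₁ - -x) ^ 2 + p₂ ^ 2 + y ^ 2) *
              (p₁ ^ 2 + x ^ 2 + p₂ ^ 2 + y ^ 2)) := by positivity
      linarith
    linarith
  set c : ℝ := 1 / (p₁ ^ 2 + p₂ ^ 2 + L ^ 2 + y ^ 2) with hcdef
  have hi1 : IntervalIntegrable f volume (-L) L := hc.intervalIntegrable _ _
  have hi2 : IntervalIntegrable (fun x => f (-x)) volume (-L) L :=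
    (hc.comp continuous_neg).intervalIntegrable _ _
  have h1 : ∫ x in (-L)..L, (2 * c) ≤ ∫ x in (-L)..L, (f x + f (-x)) :=
    intervalIntegral.integral_mono_on (by linarith) (continuous_const.intervalIntegrable _ _)
      (hi1.add hi2) hpt
  rw [intervalIntegral.integral_add hi1 hi2, intervalIntegral.integral_comp_neg, neg_neg,
    intervalIntegral.integral_const] at h1
  have h2 : mk (p₁, p₂) L y = (1 / (2 * L)) * ∫ x in (-L)..L, f x := by
    simp only [mk]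
    rw [int_Ioo_eq _ hL.le]
  rw [h2, div_mul_eq_mul_div, one_mul, le_div_iff₀ (by positivity)]
  simp only [smul_eq_mul] at h1
  linarith

/-- comparison with the average over a row above -/
theorem avg_lo (hmk : S_mk) {p₁ p₂ L L' T1 T2 y : ℝ} (hp₂ : 0 ≤ p₂) (hpy : p₂ < y) (hy1 : y ≤ T1)
    (hT : T1 < T2) (hL' : 0 < L') (hLL : L' ≤ L) (hLp : L ≤ p₁) (hRC : RC2 (p₁, p₂) y)
    (hm : 0 ≤ mk (p₁, p₂) L y) :
    rpot (p₁, p₂) L' T1 T2 ≤ mk (p₁, p₂) L y * (L' * (T2 ^ 2 - T1 ^ 2)) := by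
  have hy : 0 < y := lt_of_le_of_lt hp₂ hpy
  have hgi2 := int_id hT.le (2 * L' * mk (p₁, p₂) L y) 0
  have hgv : ∫ z in Ioo T1 T2, (2 * L' * mk (p₁, p₂) L y * z + 0) =
      mk (p₁, p₂) L y * (L' * (T2 ^ 2 - T1 ^ 2)) := by
    rw [hgi2.2]
    ring
  rw [← hgv]
  unfold rpot
  apply int_le hgi2.1
  · intro z hz0 hz1
    have hz : 0 < z := by linarith
    positivity
  · intro z hz0 hz1
    have hz : 0 < z := by linarith
    rw [integral_mul_const, mk_spec hL', add_zero]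
    have h := hmk p₁ p₂ L L' y z hp₂ hpy (by linarith) hL' hLL hLp hRC
    apply mul_le_mul_of_nonneg_right _ hz.le
    apply mul_le_mul_of_nonneg_left h (by positivity)

/-- comparison with the average over a row below -/
theorem avg_hi (hint : S_int) (hmk : S_mk) {p₁ p₂ L L' T1 T2 y : ℝ} (hp₂ : 0 ≤ p₂) (hpy : p₂ ≤ T1)
    (hy1 : T2 ≤ y) (hT : T1 < T2) (hL' : 0 < L') (hLL : L' ≤ L) (hLp : L ≤ p₁)
    (hRC : RC2 (p₁, p₂) T2) :
    mk (p₁, p₂) L' y * (L * (T2 ^ 2 - T1 ^ 2)) ≤ rpot (p₁, p₂) L T1 T2 := by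
  have hL : 0 < L := hL'.trans_le hLL
  have hgi2 := int_id hT.le (2 * L * mk (p₁, p₂) L' y) 0
  have hgv : ∫ z in Ioo T1 T2, (2 * L * mk (p₁, p₂) L' y * z + 0) =
      mk (p₁, p₂) L' y * (L * (T2 ^ 2 - T1 ^ 2)) := by
    rw [hgi2.2]
    ring
  rw [← hgv]
  unfold rpot
  apply setIntegral_mono_on hgi2.1 (int_pot hint (p := (p₁, p₂)) hp₂ (hp₂.trans hpy))
    measurableSet_Ioo
  intro z hz
  have hz0 : 0 < z := by linarith [hz.1]
  rw [integral_mul_const, mk_spec hL, add_zero]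
  have h := hmk p₁ p₂ L L' z y hp₂ (by linarith [hz.1]) (by linarith [hz.2]) hL' hLL hLp
    (RC2_mono hRC hz.2.le)
  apply mul_le_mul_of_nonneg_right _ hz0.le
  apply mul_le_mul_of_nonneg_left h (by positivity)

/-! ### the arithmetic of `rowA` -/

def mlN (F N C cj j i LD : ℕ) : ℕ :=
  cond (Nat.ble N (i + 1)) (F / (cj * cj + 4 * (j * j) + (K.dg C 16 i * K.dg C 16 i + 4 * (N * N))))
    (K.dg LD 64 (i + 1) / K.Pr (K.dg C 16 (i + 1)) (i + 1))

def r1N (ci i ml UDi lam e : ℕ) : ℕ :=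
  (K.OFF + (UDi + ((lam + K.ce e i - ml) * K.Pr ci i + cond (Nat.ble 1 i) 0 (4 * e * ci)))) -
    (lam * K.Pr ci i + 4 * e * ci)

def r2N (ci cp i UDp lam e : ℕ) : ℕ :=
  K.OFF + ((UDp * K.Pr ci i / K.Pr cp (i - 1) + 1) - (lam + e / (2 * (i + 1))) * K.Pr ci i)

theorem rowA_eq (F N C cj j i UD LD lam e : ℕ) :
    K.rowA F N C cj j i UD LD lam e =
      cond (Nat.ble i j) (r1N (K.dg C 16 i) i (mlN F N C cj j i LD) (K.dg UD 64 i) lam e)
        (cond (Nat.ble (r1N (K.dg C 16 i) i (mlN F N C cj j i LD) (K.dg UD 64 i) lam e)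
            (r2N (K.dg C 16 i) (K.dg C 16 (i - 1)) i (K.dg UD 64 (i - 1)) lam e))
          (r1N (K.dg C 16 i) i (mlN F N C cj j i LD) (K.dg UD 64 i) lam e)
          (r2N (K.dg C 16 i) (K.dg C 16 (i - 1)) i (K.dg UD 64 (i - 1)) lam e)) := by
  simp only [K.rowA, fc_eq]
  rfl

theorem ce_ge {e i : ℕ} (hi : 1 ≤ i) : (e : ℝ) / (2 * i) ≤ (K.ce e i : ℝ) := by
  have h0 : (0:ℝ) < 2 * i := by
    have : (1:ℝ) ≤ i := by exact_mod_cast hi
    linarith
  rw [div_le_iff₀ h0]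
  have h1 : e ≤ K.ce e i * (2 * i) := by
    show e ≤ (e + 2 * i - 1) / (2 * i) * (2 * i)
    have h2 := Nat.div_add_mod (e + 2 * i - 1) (2 * i)
    have h3 := Nat.mod_lt (e + 2 * i - 1) (show 2 * i > 0 by omega)
    have h4 : (e + 2 * i - 1) / (2 * i) * (2 * i) = 2 * i * ((e + 2 * i - 1) / (2 * i)) := mul_comm _ _
    omega
  exact_mod_cast h1

theorem ce_zero (e : ℕ) : K.ce e 0 = 0 := by
  show (e + 2 * 0 - 1) / (2 * 0) = 0
  simp

theorem sub_ge (a b : ℕ) : (a : ℝ) - b ≤ ((a - b : ℕ) : ℝ) := by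
  have h : a ≤ (a - b) + b := le_tsub_add
  have h2 : (a : ℝ) ≤ ((a - b : ℕ) : ℝ) + b := by exact_mod_cast h
  linarith

theorem div_le (a b : ℕ) : ((a / b : ℕ) : ℝ) ≤ (a : ℝ) / b := Nat.cast_div_le

theorem Pr_cast (c i : ℕ) : (K.Pr c i : ℝ) = 4 * c * (2 * i + 1) := by
  show (((4 * c) * (2 * i + 1) : ℕ) : ℝ) = _
  push_cast
  ring

theorem core1 (hint : S_int) (hmk : S_mk) {u : ℝ} (hu : 0 < u) {N j i ci ml UDi lam e : ℕ} {p₁ : ℝ}
    (hji : j ≤ i) (hiN : i < N) (hci : 1 ≤ ci) (hcp : u * ci ≤ p₁)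
    (hRC : RC2 (p₁, 2 * u * j) (2 * u * N))
    (hU : rpot (p₁, 2 * u * j) (u * ci) (2 * u * i) (2 * u * ((i : ℝ) + 1)) ≤ u ^ 3 / 1000 * UDi)
    (hml : ∀ y, 2 * u * i < y → y < 2 * u * ((i : ℝ) + 1) →
      (ml : ℝ) / 1000 ≤ mk (p₁, 2 * u * j) (u * ci) y) :
    ∀ l : ℝ → ℝ, Measurable l →
    (∀ y, 2 * u * (i : ℝ) < y → y < 2 * u * ((i : ℝ) + 1) → 0 ≤ l y ∧ l y ≤ u * ci) →
    rowint (p₁, 2 * u * j) (2 * u * (i : ℝ)) (2 * u * ((i : ℝ) + 1))
      ((lam : ℝ) / 1000) (e * u / (1000 * π)) l ≤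
      u ^ 3 / 1000 * ((r1N ci i ml UDi lam e : ℝ) - K.OFF) := by
  have hjr : (j : ℝ) ≤ i := by exact_mod_cast hji
  have hir : (i : ℝ) + 1 ≤ N := by exact_mod_cast hiN
  have hcr : (1:ℝ) ≤ ci := by exact_mod_cast hci
  have hi0 : (0:ℝ) ≤ i := Nat.cast_nonneg i
  have hpi := Real.pi_pos
  have hT : 2 * u * (i : ℝ) < 2 * u * ((i : ℝ) + 1) := by nlinarith
  refine t_above hint hmk p₁ (2 * u * j) (u * ci) (2 * u * i) (2 * u * ((i : ℝ) + 1)) (lam / 1000)
    (e * u / (1000 * π)) _ (by positivity) (by nlinarith) hT (by positivity) hcp (by positivity)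
    (by positivity) (T18.RC2_mono hRC (by nlinarith)) (Or.inl ?_)
  have hη : π * (e * u / (1000 * π)) = e * u / 1000 := by
    field_simp
  set s : ℕ := lam + K.ce e i - ml with hs
  have hs1 : ((lam : ℝ) + K.ce e i) - ml ≤ s := by
    have := sub_ge (lam + K.ce e i) ml
    push_cast at this
    exact this
  set E0 : ℕ := cond (Nat.ble 1 i) 0 e with hE0
  refine ⟨(s : ℝ) / 1000, E0 * u / 1000, by positivity, by positivity, ?_, ?_⟩
  · intro y hy0 hy1
    have hy : 0 < y := lt_of_le_of_lt (by positivity) hy0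
    have h1 := hml y hy0 hy1
    rw [hη]
    have h2 : e * u / 1000 ≤ (K.ce e i : ℝ) / 1000 * y + E0 * u / 1000 := by
      rcases Nat.eq_zero_or_pos i with h | h
      · have h3 : E0 = e := by
          rw [hE0, h]
          rfl
        rw [h3, h, ce_zero]
        simp
      · have h3 : E0 = 0 := by
          rw [hE0]
          have : Nat.ble 1 i = true := by rw [Nat.ble_eq]; exact h
          rw [this]
          rfl
        rw [h3]
        have h4 := ce_ge (e := e) h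
        have hi1 : (1:ℝ) ≤ i := by exact_mod_cast h
        have h5 : (e : ℝ) ≤ K.ce e i * (2 * i) := by
          rw [div_le_iff₀ (by linarith)] at h4
          exact h4
        have h6 : (e : ℝ) * u ≤ K.ce e i * (2 * u * i) := by nlinarith
        have h7 : (K.ce e i : ℝ) * (2 * u * i) ≤ K.ce e i * y :=
          mul_le_mul_of_nonneg_left hy0.le (Nat.cast_nonneg _)
        push_cast
        linarith
    have h3 : 0 ≤ (mk (p₁, 2 * u * j) (u * ci) y - ml / 1000) * y :=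
      mul_nonneg (by linarith) hy.le
    have h4 : (((lam : ℝ) + K.ce e i) - ml) * y ≤ s * y := mul_le_mul_of_nonneg_right hs1 hy.le
    nlinarith
  · have hr : (K.OFF : ℝ) + (UDi + (s * K.Pr ci i + 4 * E0 * ci)) - (lam * K.Pr ci i + 4 * e * ci) ≤
        (r1N ci i ml UDi lam e : ℝ) := by
      have h := sub_ge (K.OFF + (UDi + (s * K.Pr ci i + cond (Nat.ble 1 i) 0 (4 * e * ci))))
        (lam * K.Pr ci i + 4 * e * ci)
      have h2 : cond (Nat.ble 1 i) 0 (4 * e * ci) = 4 * E0 * ci := by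
        rw [hE0]
        cases Nat.ble 1 i <;> simp
      rw [h2] at h
      have h3 : r1N ci i ml UDi lam e = K.OFF + (UDi + (s * K.Pr ci i + 4 * E0 * ci)) -
        (lam * K.Pr ci i + 4 * e * ci) := by
        rw [← h2]
        rfl
      rw [h3]
      push_cast at h ⊢
      exact h
    have h4 : u ^ 3 / 1000 * ((K.OFF : ℝ) + (UDi + (s * K.Pr ci i + 4 * E0 * ci)) -
        (lam * K.Pr ci i + 4 * e * ci) - K.OFF) ≤
        u ^ 3 / 1000 * ((r1N ci i ml UDi lam e : ℝ) - K.OFF) := by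
      apply mul_le_mul_of_nonneg_left _ (by positivity)
      linarith
    refine le_trans ?_ h4
    rw [show 2 * π * (e * u / (1000 * π)) * (u * ci) * (2 * u * ((i : ℝ) + 1) - 2 * u * i) =
      2 * (π * (e * u / (1000 * π))) * (u * ci) * (2 * u * ((i : ℝ) + 1) - 2 * u * i) by ring, hη,
      Pr_cast]
    nlinarith [hU]

theorem core2 (hint : S_int) (hmk : S_mk) {u : ℝ} (hu : 0 < u) {N j i ci cp UDp lam e : ℕ} {p₁ : ℝ}
    (hji : j + 1 ≤ i) (hiN : i < N) (hci : 1 ≤ ci) (hcc : ci ≤ cp) (hcp : u * cp ≤ p₁)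
    (hRC : RC2 (p₁, 2 * u * j) (2 * u * N))
    (hU : rpot (p₁, 2 * u * j) (u * cp) (2 * u * ((i - 1 : ℕ) : ℝ)) (2 * u * (((i - 1 : ℕ) : ℝ) + 1)) ≤
      u ^ 3 / 1000 * UDp) :
    ∀ l : ℝ → ℝ, Measurable l →
    (∀ y, 2 * u * (i : ℝ) < y → y < 2 * u * ((i : ℝ) + 1) → 0 ≤ l y ∧ l y ≤ u * ci) →
    rowint (p₁, 2 * u * j) (2 * u * (i : ℝ)) (2 * u * ((i : ℝ) + 1))
      ((lam : ℝ) / 1000) (e * u / (1000 * π)) l ≤
      u ^ 3 / 1000 * ((r2N ci cp i UDp lam e : ℝ) - K.OFF) := by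
  obtain ⟨k, rfl⟩ : ∃ k, i = k + 1 := ⟨i - 1, by omega⟩
  simp only [Nat.add_sub_cancel] at hU
  have hjr : (j : ℝ) ≤ k := by exact_mod_cast (show j ≤ k by omega)
  have hir : (k : ℝ) + 1 + 1 ≤ N := by exact_mod_cast hiN
  have hcr : (1:ℝ) ≤ ci := by exact_mod_cast hci
  have hccr : (ci : ℝ) ≤ cp := by exact_mod_cast hcc
  have hi0 : (0:ℝ) ≤ k := Nat.cast_nonneg k
  have hpi := Real.pi_pos
  push_cast
  have hT : 2 * u * ((k : ℝ) + 1) < 2 * u * ((k : ℝ) + 1 + 1) := by nlinarith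
  have hLp : u * ci ≤ u * cp := mul_le_mul_of_nonneg_left hccr hu.le
  refine t_above hint hmk p₁ (2 * u * j) (u * ci) (2 * u * ((k : ℝ) + 1)) (2 * u * ((k : ℝ) + 1 + 1))
    (lam / 1000) (e * u / (1000 * π)) _ (by positivity) (by nlinarith) hT (by positivity)
    (hLp.trans hcp) (by positivity) (by positivity) (T18.RC2_mono hRC (by nlinarith)) (Or.inr ?_)
  have hη : π * (e * u / (1000 * π)) = e * u / 1000 := by
    field_simp
  have hcp1 : (0:ℝ) < cp := by linarith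
  have hPp : (0:ℝ) < K.Pr cp k := by
    rw [Pr_cast]
    positivity
  have hP : (0:ℝ) < K.Pr ci (k + 1) := by
    rw [Pr_cast]
    positivity
  refine ⟨max 0 ((UDp : ℝ) / K.Pr cp k - lam - e / (2 * ((k : ℝ) + 1 + 1))) / 1000, by positivity,
    ?_, ?_⟩
  · intro y hy0 hy1
    have hy : 0 < y := lt_of_le_of_lt (by positivity) hy0
    have h1 := avg_hi hint hmk (p₁ := p₁) (p₂ := 2 * u * j) (L := u * cp) (L' := u * ci)
      (T1 := 2 * u * k) (T2 := 2 * u * ((k : ℝ) + 1)) (y := y) (by positivity) (by nlinarith)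
      hy0.le (by nlinarith) (by positivity) hLp hcp (T18.RC2_mono hRC (by nlinarith))
    have h2 := h1.trans hU
    have h3 : mk (p₁, 2 * u * j) (u * ci) y ≤ (UDp : ℝ) / K.Pr cp k / 1000 := by
      rw [div_div, le_div_iff₀ (by positivity)]
      have h4 : u * (cp : ℝ) * ((2 * u * ((k : ℝ) + 1)) ^ 2 - (2 * u * k) ^ 2) =
          u ^ 3 * (K.Pr cp k : ℝ) := by
        rw [Pr_cast]
        ring
      rw [h4] at h2
      have h5 : 0 < u ^ 3 := by positivity
      have h6 : u ^ 3 * (mk (p₁, 2 * u * j) (u * ci) y * K.Pr cp k * 1000) ≤ u ^ 3 * UDp := by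
        linarith
      have h7 := le_of_mul_le_mul_left h6 h5
      linarith
    have h4 : e / (2 * ((k : ℝ) + 1 + 1)) / 1000 ≤ π * (e * u / (1000 * π)) / y := by
      rw [hη, le_div_iff₀ hy]
      have h5 : (e : ℝ) / (2 * ((k : ℝ) + 1 + 1)) / 1000 * y ≤
          e / (2 * ((k : ℝ) + 1 + 1)) / 1000 * (2 * u * ((k : ℝ) + 1 + 1)) :=
        mul_le_mul_of_nonneg_left hy1.le (by positivity)
      refine h5.trans (le_of_eq ?_)
      field_simp
    have h5 := le_max_right 0 ((UDp : ℝ) / K.Pr cp k - lam - e / (2 * ((k : ℝ) + 1 + 1)))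
    linarith
  · have hr : (K.OFF : ℝ) + max 0 ((UDp : ℝ) / K.Pr cp k - lam - e / (2 * ((k : ℝ) + 1 + 1))) *
        K.Pr ci (k + 1) ≤ (r2N ci cp (k + 1) UDp lam e : ℝ) := by
      have h1 : r2N ci cp (k + 1) UDp lam e = K.OFF + ((UDp * K.Pr ci (k + 1) / K.Pr cp k + 1) -
        (lam + e / (2 * (k + 1 + 1))) * K.Pr ci (k + 1)) := rfl
      rw [h1]
      have h2 := sub_ge (UDp * K.Pr ci (k + 1) / K.Pr cp k + 1)
        ((lam + e / (2 * (k + 1 + 1))) * K.Pr ci (k + 1))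
      have h3 : ((UDp : ℝ) * K.Pr ci (k + 1)) / K.Pr cp k ≤
          ((UDp * K.Pr ci (k + 1) / K.Pr cp k : ℕ) : ℝ) + 1 := by
        have := Nat.lt_floor_add_one ((((UDp * K.Pr ci (k + 1) : ℕ) : ℝ)) / (K.Pr cp k : ℕ))
        rw [Nat.floor_div_eq_div] at this
        push_cast at this ⊢
        exact this.le
      have h4 : ((e / (2 * (k + 1 + 1)) : ℕ) : ℝ) ≤ e / (2 * ((k : ℝ) + 1 + 1)) := by
        have := div_le e (2 * (k + 1 + 1))
        push_cast at this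
        exact this
      have h5 : ((lam : ℝ) + ((e / (2 * (k + 1 + 1)) : ℕ) : ℝ)) * K.Pr ci (k + 1) ≤
          (lam + e / (2 * ((k : ℝ) + 1 + 1))) * K.Pr ci (k + 1) :=
        mul_le_mul_of_nonneg_right (by linarith) hP.le
      have h6 : ((UDp : ℝ) / K.Pr cp k) * K.Pr ci (k + 1) = ((UDp : ℝ) * K.Pr ci (k + 1)) / K.Pr cp k := by
        ring
      push_cast at h2 ⊢
      have h7 : max 0 ((UDp : ℝ) / K.Pr cp k - lam - e / (2 * ((k : ℝ) + 1 + 1))) *
        K.Pr ci (k + 1) = max 0 (((UDp : ℝ) / K.Pr cp k - lam - e / (2 * ((k : ℝ) + 1 + 1))) *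
        K.Pr ci (k + 1)) := by
        rw [max_mul_of_nonneg _ _ hP.le, zero_mul]
      rw [h7]
      apply add_le_add le_rfl
      apply max_le (Nat.cast_nonneg _)
      refine le_trans ?_ h2
      nlinarith
    have h4 : u ^ 3 / 1000 * ((K.OFF : ℝ) + max 0 ((UDp : ℝ) / K.Pr cp k - lam -
        e / (2 * ((k : ℝ) + 1 + 1))) * K.Pr ci (k + 1) - K.OFF) ≤
        u ^ 3 / 1000 * ((r2N ci cp (k + 1) UDp lam e : ℝ) - K.OFF) := by
      apply mul_le_mul_of_nonneg_left _ (by positivity)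
      linarith
    refine le_trans (le_of_eq ?_) h4
    rw [Pr_cast ci]
    push_cast
    ring

end T25b

open T25b in
theorem t_rowA : S_rowA := by
  intro RS N C j ND UD LD i lam e hCC hPF hji hiN l hl hlb
  have hint : S_int := t_int
  have hmk : S_mk := t_mk t_kk
  have hjN : j < N := lt_of_le_of_lt hji hiN
  have hR : (0:ℝ) < RS := by exact_mod_cast hCC.rs
  have hRS0 : (RS : ℝ) ≠ 0 := hR.ne'
  set u : ℝ := 1 / (RS : ℝ) with hu
  have hu0 : 0 < u := by positivity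
  have hRu : (RS : ℝ) = 1 / u := by
    rw [hu]
    field_simp
  have hv : vtx u N (cf C) j = (u * (cf C j : ℝ), 2 * u * (j : ℝ)) := by
    unfold vtx
    rw [if_pos hjN]
  have hcN : K.cN N C j = cf C j := by
    unfold K.cN cf
    have : Nat.ble N j = false := by
      rw [← Bool.not_eq_true, Nat.ble_eq]
      omega
    rw [this]
    rfl
  have hconv : ∀ x : ℝ, u * (x / (1000 * (RS : ℝ) ^ 2)) = u ^ 3 / 1000 * x := fun x => by
    rw [hRu]
    field_simp
  have hη : (e : ℝ) / (1000 * RS * π) = e * u / (1000 * π) := by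
    rw [hRu]
    field_simp
  have hRC := hCC.rc j hjN
  rw [← hu, hv] at hRC
  have hanti := hCC.anti
  have hcij : (cf C i : ℝ) ≤ cf C j := by exact_mod_cast hanti j i hji
  have hpos : ∀ k < N, (1:ℝ) ≤ cf C k := fun k hk => by exact_mod_cast hCC.pos k hk
  -- upper bounds of the potentials
  have hUp : ∀ k < N, j ≤ k → rpot (u * (cf C j : ℝ), 2 * u * (j : ℝ)) (u * (cf C k : ℝ))
      (2 * u * (k : ℝ)) (2 * u * ((k : ℝ) + 1)) ≤ u ^ 3 / 1000 * (K.dg UD 64 k : ℝ) := by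
    intro k hk hjk
    obtain ⟨-, h2, -, h4, -⟩ := hPF k hk
    rw [h2 hjk, ← hu, hv, hconv] at h4
    exact h4
  have hLo : ∀ k < N, j < k → u ^ 3 / 1000 * (K.dg LD 64 k : ℝ) ≤
      rpot (u * (cf C j : ℝ), 2 * u * (j : ℝ)) (u * (cf C k : ℝ))
      (2 * u * (k : ℝ)) (2 * u * ((k : ℝ) + 1)) := by
    intro k hk hjk
    obtain ⟨-, h2, -, -, h5⟩ := hPF k hk
    have h6 := h5 hjk
    rw [h2 hjk.le, ← hu, hv, hconv] at h6
    exact h6
  rw [hv, hcN, hconv, hη]
  have hjr : (j : ℝ) ≤ i := by exact_mod_cast hji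
  have hi0 : (0:ℝ) ≤ i := Nat.cast_nonneg i
  have hj0 : (0:ℝ) ≤ j := Nat.cast_nonneg j
  have hLp : u * (cf C i : ℝ) ≤ u * cf C j := mul_le_mul_of_nonneg_left hcij hu0.le
  have hci := hpos i hiN
  have hml : ∀ y, 2 * u * i < y → y < 2 * u * ((i : ℝ) + 1) →
      ((mlN (1000 * (RS * RS)) N C (cf C j) j i LD : ℕ) : ℝ) / 1000 ≤
        mk (u * (cf C j : ℝ), 2 * u * (j : ℝ)) (u * (cf C i : ℝ)) y := by
    intro y hy0 hy1
    have hpy : 2 * u * j < y := lt_of_le_of_lt (by nlinarith) hy0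
    have hy : 0 < y := lt_of_le_of_lt (by positivity) hy0
    have hlo := mk_lo (p₁ := u * (cf C j : ℝ)) (p₂ := 2 * u * j) (L := u * (cf C i : ℝ)) (y := y)
      (by positivity) hpy (by positivity)
    by_cases hN : N ≤ i + 1
    · have hNi : N = i + 1 := by omega
      have h1 : mlN (1000 * (RS * RS)) N C (cf C j) j i LD = (1000 * (RS * RS)) /
          (cf C j * cf C j + 4 * (j * j) + (cf C i * cf C i + 4 * (N * N))) := by
        unfold mlN
        have : Nat.ble N (i + 1) = true := by rw [Nat.ble_eq]; exact hN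
        rw [this]
        rfl
      rw [h1]
      refine le_trans ?_ hlo
      have h2 := div_le (1000 * (RS * RS))
        (cf C j * cf C j + 4 * (j * j) + (cf C i * cf C i + 4 * (N * N)))
      push_cast at h2 ⊢
      have h3 : ((1000 * (RS * RS) : ℝ)) / (cf C j * cf C j + 4 * (j * j) +
          (cf C i * cf C i + 4 * (N * N))) / 1000 = 1 / ((u * cf C j) ^ 2 + (2 * u * j) ^ 2 +
          (u * cf C i) ^ 2 + (2 * u * N) ^ 2) := by
        rw [hRu]
        field_simp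
        ring
      have h4 : 1 / ((u * (cf C j : ℝ)) ^ 2 + (2 * u * j) ^ 2 +
          (u * cf C i) ^ 2 + (2 * u * N) ^ 2) ≤ 1 / ((u * (cf C j : ℝ)) ^ 2 + (2 * u * j) ^ 2 +
          (u * cf C i) ^ 2 + y ^ 2) := by
        apply one_div_le_one_div_of_le (by positivity)
        have h5 : y ≤ 2 * u * N := by
          rw [hNi]
          push_cast
          exact hy1.le
        have h6 : y ^ 2 ≤ (2 * u * N) ^ 2 := pow_le_pow_left₀ hy.le h5 2
        linarith
      linarith [div_le_div_of_nonneg_right h2 (show (0:ℝ) ≤ 1000 by norm_num)]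
    · have h1 : mlN (1000 * (RS * RS)) N C (cf C j) j i LD = K.dg LD 64 (i + 1) /
          K.Pr (cf C (i + 1)) (i + 1) := by
        unfold mlN
        have : Nat.ble N (i + 1) = false := by
          rw [← Bool.not_eq_true, Nat.ble_eq]
          exact hN
        rw [this]
        rfl
      rw [h1]
      have hN' : i + 1 < N := by omega
      have h2 := hLo (i + 1) hN' (by omega)
      push_cast at h2
      have hc1 := hpos (i + 1) hN'
      have hcc : (cf C (i + 1) : ℝ) ≤ cf C i := by exact_mod_cast hanti i (i + 1) (by omega)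
      have hmk0 : 0 ≤ mk (u * (cf C j : ℝ), 2 * u * (j : ℝ)) (u * (cf C i : ℝ)) y :=
        le_trans (by positivity) hlo
      have hNr : (i : ℝ) + 1 + 1 ≤ N := by exact_mod_cast hN'
      have h3 := avg_lo hmk (p₁ := u * (cf C j : ℝ)) (p₂ := 2 * u * j) (L := u * (cf C i : ℝ))
        (L' := u * (cf C (i + 1) : ℝ)) (T1 := 2 * u * ((i : ℝ) + 1)) (T2 := 2 * u * ((i : ℝ) + 1 + 1))
        (y := y) (by positivity) hpy hy1.le (by nlinarith) (by positivity)
        (mul_le_mul_of_nonneg_left hcc hu0.le) hLp (T18.RC2_mono hRC (by nlinarith)) hmk0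
      have h4 : u * (cf C (i + 1) : ℝ) * ((2 * u * ((i : ℝ) + 1 + 1)) ^ 2 -
          (2 * u * ((i : ℝ) + 1)) ^ 2) = u ^ 3 * (K.Pr (cf C (i + 1)) (i + 1) : ℝ) := by
        rw [Pr_cast]
        push_cast
        ring
      rw [h4] at h3
      have hP : (0:ℝ) < K.Pr (cf C (i + 1)) (i + 1) := by
        rw [Pr_cast]
        positivity
      have h5 := h2.trans h3
      have h6 : u ^ 3 * ((K.dg LD 64 (i + 1) : ℝ) / 1000) ≤ u ^ 3 *
          (mk (u * (cf C j : ℝ), 2 * u * (j : ℝ)) (u * (cf C i : ℝ)) y *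
            K.Pr (cf C (i + 1)) (i + 1)) := by
        linarith
      have h7 := le_of_mul_le_mul_left h6 (by positivity)
      have h8 := div_le (K.dg LD 64 (i + 1)) (K.Pr (cf C (i + 1)) (i + 1))
      have h9 : (K.dg LD 64 (i + 1) : ℝ) / K.Pr (cf C (i + 1)) (i + 1) ≤
          1000 * mk (u * (cf C j : ℝ), 2 * u * (j : ℝ)) (u * (cf C i : ℝ)) y := by
        rw [div_le_iff₀ hP]
        linarith
      linarith
  have hlb' : ∀ y, 2 * u * (i : ℝ) < y → y < 2 * u * ((i : ℝ) + 1) → 0 ≤ l y ∧ l y ≤ u * cf C i :=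
    hlb
  have c1 := core1 hint hmk hu0 (N := N) (j := j) (i := i) (ci := cf C i)
    (ml := mlN (1000 * (RS * RS)) N C (cf C j) j i LD) (UDi := K.dg UD 64 i) (lam := lam) (e := e)
    (p₁ := u * (cf C j : ℝ)) hji hiN (hCC.pos i hiN) hLp hRC (hUp i hiN hji) hml l hl hlb'
  have hoff : ∀ a b : ℕ, a ≤ b → u ^ 3 / 1000 * ((a : ℝ) - K.OFF) ≤ u ^ 3 / 1000 * ((b : ℝ) - K.OFF) :=
    fun a b hab => by
      apply mul_le_mul_of_nonneg_left _ (by positivity)
      have : (a : ℝ) ≤ b := by exact_mod_cast hab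
      linarith
  rw [rowA_eq]
  by_cases hij : i ≤ j
  · have : Nat.ble i j = true := by rw [Nat.ble_eq]; exact hij
    rw [this]
    exact c1
  · have : Nat.ble i j = false := by
      rw [← Bool.not_eq_true, Nat.ble_eq]
      exact hij
    rw [this]
    have hi1 : i - 1 < N := by omega
    have c2 := core2 hint hmk hu0 (N := N) (j := j) (i := i) (ci := cf C i) (cp := cf C (i - 1))
      (UDp := K.dg UD 64 (i - 1)) (lam := lam) (e := e)
      (p₁ := u * (cf C j : ℝ)) (by omega) hiN (hCC.pos i hiN) (hanti _ _ (by omega))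
      (mul_le_mul_of_nonneg_left (by exact_mod_cast hanti j (i - 1) (by omega)) hu0.le) hRC
      (hUp (i - 1) hi1 (by omega)) l hl hlb'
    simp only [Bool.cond_false]
    cases Nat.ble (r1N (K.dg C 16 i) i (mlN (1000 * (RS * RS)) N C (cf C j) j i LD) (K.dg UD 64 i)
      lam e) (r2N (K.dg C 16 i) (K.dg C 16 (i - 1)) i (K.dg UD 64 (i - 1)) lam e)
    · exact c2
    · exact c1

end SV
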