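import Pool.Agent.Helper779.SV.Stmts3

/-!
# T25c: rows below the vertex
-/

open MeasureTheory Set Filter Topology
open scoped Real

namespace SV

namespace T25c

set_option maxHeartbeats 4000000

theorem fc_eq (n : ℕ) (f : ℕ → ℕ) : K.fc n f = f n := by cases n <;> rfl
theorem fb_eq (n : ℕ) (f : ℕ → Bool) : K.fb n f = f n := by cases n <;> rfl

theorem cond_max (a b : ℕ) : cond (Nat.ble a b) b a = max a b := by
  by_cases h : a ≤ b
  · rw [Nat.ble_eq_true_of_le h, max_eq_right h]; rfl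
  · rw [max_eq_left (by omega)]
    have : Nat.ble a b = false := by
      rw [← Bool.not_eq_true, Nat.ble_eq]
      exact h
    rw [this]; rfl

theorem klF_eq (F cj j n i : ℕ) : K.klF F cj j n i =
    max (F / (2 * ((n * n + (cj * cj + 4 * (j * j + (i + 1) * (i + 1)))) - 2 * (n * cj))) +
        F / (2 * ((n * n + (cj * cj + 4 * (j * j + (i + 1) * (i + 1)))) + 2 * (n * cj))))
      (F / (n * n + (cj * cj + 4 * (j * j + (i + 1) * (i + 1)))) +
        F * (3 * (2 * (n * cj) * (2 * (n * cj))) + 64 * (j * j * (i * i))) /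
          (3 * ((n * n + (cj * cj + 4 * (j * j + (i + 1) * (i + 1)))) *
            ((n * n + (cj * cj + 4 * (j * j + (i + 1) * (i + 1)))) *
              (n * n + (cj * cj + 4 * (j * j + (i + 1) * (i + 1)))))))) := by
  unfold K.klF
  simp only [fc_eq]
  exact cond_max _ _

theorem pi_kaps (x y : ℝ × ℝ) : π * kaps x y =
    (kk (dsq x y) (4 * x.2 * y.2) + kk (dsq x (-y.1, y.2)) (4 * x.2 * y.2)) / 2 := by
  unfold kaps kap
  have := Real.pi_pos
  simp only
  field_simp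

/-- lower bound for the kernel in the row `i < j` -/
theorem klF_le (hkk : S_kk) (hJ2 : S_J2) {RS cj j n i : ℕ} (hRS : 0 < RS) (hij : i + 1 ≤ j) {y : ℝ}
    (hy0 : 2 * (1 / (RS : ℝ)) * (i : ℝ) < y) (hy1 : y < 2 * (1 / (RS : ℝ)) * ((i : ℝ) + 1)) :
    (K.klF (1000 * (RS * RS)) cj j n i : ℝ) / 1000 ≤
      π * kaps (1 / (RS : ℝ) * cj, 2 * (1 / (RS : ℝ)) * j) (1 / (RS : ℝ) * n, y) := by
  have hR : (0:ℝ) < RS := by exact_mod_cast hRS
  set u : ℝ := 1 / (RS : ℝ) with hu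
  have hu0 : 0 < u := by positivity
  have huR : (RS : ℝ) * u = 1 := by rw [hu]; field_simp
  have hi0 : (0:ℝ) ≤ i := Nat.cast_nonneg _
  have hy : 0 < y := lt_of_le_of_lt (by positivity) hy0
  have hijR : (i : ℝ) + 1 ≤ j := by exact_mod_cast hij
  have hj0 : (0:ℝ) < j := by linarith
  have hyj : y < 2 * u * j := by nlinarith
  have hn0 : (0:ℝ) ≤ n := Nat.cast_nonneg _
  have hc0 : (0:ℝ) ≤ cj := Nat.cast_nonneg _
  rw [klF_eq]
  set C : ℕ := n * n + (cj * cj + 4 * (j * j + (i + 1) * (i + 1))) with hC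
  have hCR : (C : ℝ) = n ^ 2 + cj ^ 2 + 4 * (j ^ 2 + (i + 1) ^ 2) := by
    rw [hC]; push_cast; ring
  have hCpos : (0:ℝ) < C := by rw [hCR]; positivity
  have hncC : 2 * (n * cj) ≤ C := by
    have : 2 * (n * cj) ≤ n * n + cj * cj := by
      zify
      nlinarith [sq_nonneg ((n:ℤ) - cj)]
    omega
  rw [pi_kaps]
  simp only
  have hz : 0 ≤ 4 * (2 * u * j) * y := by positivity
  have hd1 : 0 < dsq (u * cj, 2 * u * j) (u * n, y) := by
    unfold dsq
    simp only
    have : 0 < (2 * u * j - y) ^ 2 := by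
      have : 0 < 2 * u * j - y := by linarith
      positivity
    nlinarith [sq_nonneg (u * (cj:ℝ) - u * n)]
  have hd2 : 0 < dsq (u * cj, 2 * u * j) (-(u * n), y) := by
    unfold dsq
    simp only
    have : 0 < (2 * u * j - y) ^ 2 := by
      have : 0 < 2 * u * j - y := by linarith
      positivity
    nlinarith [sq_nonneg (u * (cj:ℝ) - -(u * n))]
  have hyy : y ^ 2 ≤ 4 * u ^ 2 * (i + 1) ^ 2 := by
    have : y ≤ 2 * u * (i + 1) := le_of_lt hy1
    nlinarith
  have hyy0 : 4 * u ^ 2 * i ^ 2 ≤ y ^ 2 := by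
    have : 0 ≤ 2 * u * i := by positivity
    nlinarith
  rw [Nat.cast_max, ← max_div_div_right (by norm_num : (0:ℝ) ≤ 1000)]
  refine max_le ?_ ?_
  · -- midpoint bound
    have k1 := (hkk _ _ hd1 hz).2.2.2.2.1
    have k2 := (hkk _ _ hd2 hz).2.2.2.2.1
    have hA : (0:ℝ) < C - 2 * (n * cj) := by
      rw [hCR]
      nlinarith [sq_nonneg ((n:ℝ) - cj), sq_nonneg ((i:ℝ) + 1)]
    have hB : (0:ℝ) < C + 2 * (n * cj) := by positivity
    have m1 : 1 / (u ^ 2 * (C - 2 * (n * cj))) ≤ kk (dsq (u * cj, 2 * u * j) (u * n, y)) (4 * (2 * u * j) * y) := by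
      refine le_trans (one_div_le_one_div_of_le (by positivity) ?_) k1
      unfold dsq
      simp only
      rw [hCR]
      linarith
    have m2 : 1 / (u ^ 2 * (C + 2 * (n * cj))) ≤ kk (dsq (u * cj, 2 * u * j) (-(u * n), y)) (4 * (2 * u * j) * y) := by
      refine le_trans (one_div_le_one_div_of_le (by positivity) ?_) k2
      unfold dsq
      simp only
      rw [hCR]
      linarith
    have c1 : ((1000 * (RS * RS) / (2 * (C - 2 * (n * cj))) : ℕ) : ℝ) ≤
        1000 * (RS * RS) / (2 * (C - 2 * (n * cj))) := by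
      refine le_trans Nat.cast_div_le ?_
      rw [Nat.cast_mul 2 (C - 2 * (n * cj)), Nat.cast_sub hncC]
      push_cast
      exact le_refl _
    have c2 : ((1000 * (RS * RS) / (2 * (C + 2 * (n * cj))) : ℕ) : ℝ) ≤
        1000 * (RS * RS) / (2 * (C + 2 * (n * cj))) := by
      refine le_trans Nat.cast_div_le ?_
      push_cast
      exact le_refl _
    have e1 : 1000 * ((RS:ℝ) * RS) / (2 * (C - 2 * (n * cj))) / 1000 =
        1 / (u ^ 2 * (C - 2 * (n * cj))) / 2 := by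
      rw [hu]
      field_simp
    have e2 : 1000 * ((RS:ℝ) * RS) / (2 * (C + 2 * (n * cj))) / 1000 =
        1 / (u ^ 2 * (C + 2 * (n * cj))) / 2 := by
      rw [hu]
      field_simp
    rw [Nat.cast_add, add_div, add_div]
    have g1 := div_le_div_of_nonneg_right c1 (by norm_num : (0:ℝ) ≤ 1000)
    have g2 := div_le_div_of_nonneg_right c2 (by norm_num : (0:ℝ) ≤ 1000)
    rw [e1] at g1
    rw [e2] at g2
    linarith
  · -- J2 bound
    have hq1 : ((u * cj, 2 * u * j) : ℝ × ℝ) ≠ (u * n, y) := by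
      intro h
      have := congrArg Prod.snd h
      simp only at this
      linarith
    have hq2 : ((u * cj, 2 * u * j) : ℝ × ℝ) ≠ (-(u * n, y).1, (u * n, y).2) := by
      intro h
      have := congrArg Prod.snd h
      simp only at this
      linarith
    have hj := hJ2 (u * cj, 2 * u * j) (u * n, y) (by simp only; positivity) hy hq1 hq2
    rw [pi_kaps] at hj
    refine le_trans ?_ hj
    unfold J2
    simp only
    set s := (u * (cj:ℝ)) ^ 2 + (2 * u * j) ^ 2 + (u * n) ^ 2 + y ^ 2 with hs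
    have hs0 : 0 < s := by positivity
    have hsC : s ≤ u ^ 2 * C := by
      rw [hs, hCR]
      linarith
    have c1 : ((1000 * (RS * RS) / C : ℕ) : ℝ) ≤ 1000 * (RS * RS) / C := by
      refine le_trans Nat.cast_div_le ?_
      push_cast
      exact le_refl _
    have c2 : ((1000 * (RS * RS) * (3 * (2 * (n * cj) * (2 * (n * cj))) + 64 * (j * j * (i * i))) /
        (3 * (C * (C * C))) : ℕ) : ℝ) ≤ 1000 * (RS * RS) * (12 * (n * cj) ^ 2 + 64 * (j * i) ^ 2) /
          (3 * C ^ 3) := by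
      refine le_trans Nat.cast_div_le (le_of_eq ?_)
      push_cast
      ring
    have d1 : 1 / (u ^ 2 * C) ≤ 1 / s := one_div_le_one_div_of_le hs0 hsC
    have d2 : (4 * (u * (cj:ℝ)) ^ 2 * (u * n) ^ 2 + 4 / 3 * ((2 * u * j) ^ 2 * (4 * u ^ 2 * i ^ 2))) / (u ^ 2 * C) ^ 3
        ≤ (4 * (u * (cj:ℝ)) ^ 2 * (u * n) ^ 2 + 4 / 3 * ((2 * u * j) ^ 2 * y ^ 2)) / s ^ 3 := by
      refine div_le_div₀ (by positivity) ?_ (by positivity) (pow_le_pow_left₀ (le_of_lt hs0) hsC 3)
      have : (2 * u * (j:ℝ)) ^ 2 * (4 * u ^ 2 * i ^ 2) ≤ (2 * u * j) ^ 2 * y ^ 2 :=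
        mul_le_mul_of_nonneg_left hyy0 (by positivity)
      linarith
    have e1 : 1000 * ((RS:ℝ) * RS) / C / 1000 = 1 / (u ^ 2 * C) := by
      rw [hu]
      field_simp
    have e2 : 1000 * ((RS:ℝ) * RS) * (12 * (n * cj) ^ 2 + 64 * (j * i) ^ 2) / (3 * C ^ 3) / 1000 =
        (4 * (u * (cj:ℝ)) ^ 2 * (u * n) ^ 2 + 4 / 3 * ((2 * u * j) ^ 2 * (4 * u ^ 2 * i ^ 2))) / (u ^ 2 * C) ^ 3 := by
      have hnum : 4 * (u * (cj:ℝ)) ^ 2 * (u * n) ^ 2 + 4 / 3 * ((2 * u * j) ^ 2 * (4 * u ^ 2 * i ^ 2)) =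
          u ^ 4 * ((12 * (n * cj) ^ 2 + 64 * (j * i) ^ 2) / 3) := by ring
      have hu2 : (RS:ℝ) * RS = 1 / u ^ 2 := by
        rw [hu]
        field_simp
      rw [hnum, hu2]
      generalize (12 * ((n:ℝ) * cj) ^ 2 + 64 * (j * i) ^ 2) = B
      generalize (C:ℝ) = D at hCpos ⊢
      have hune : u ≠ 0 := ne_of_gt hu0
      clear_value u
      field_simp
    rw [Nat.cast_add, add_div]
    have g1 := div_le_div_of_nonneg_right c1 (by norm_num : (0:ℝ) ≤ 1000)
    have g2 := div_le_div_of_nonneg_right c2 (by norm_num : (0:ℝ) ≤ 1000)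
    rw [e1] at g1
    rw [e2] at g2
    linarith

theorem cond_and {a b : Bool} (h : cond a b false = true) : a = true ∧ b = true := by
  cases a
  · exact absurd h Bool.false_ne_true
  · exact ⟨rfl, h⟩

theorem cond_or {a b : Bool} (h : cond a true b = true) : a = true ∨ b = true := by
  cases a
  · exact Or.inr h
  · exact Or.inl rfl

theorem div_le_succ (a b : ℕ) : (a : ℝ) / b ≤ ((a / b + 1 : ℕ) : ℝ) := by
  have h := Nat.lt_floor_add_one ((a : ℝ) / b)
  rw [Nat.floor_div_eq_div] at h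
  push_cast
  exact le_of_lt h

/-- kernel bound by the Pade bound -/
theorem kk_le_kU (hkk : S_kk) {RS D z : ℕ} (hRS : 0 < RS) (hD : 1 ≤ D) {d w : ℝ}
    (hd : (1 / (RS : ℝ)) ^ 2 * D ≤ d) (hw : (1 / (RS : ℝ)) ^ 2 * z ≤ w) :
    kk d w ≤ (K.kU (1000 * (RS * RS)) D z : ℝ) / 1000 := by
  have hR : (0:ℝ) < RS := by exact_mod_cast hRS
  have hD0 : (0:ℝ) < D := by exact_mod_cast hD
  have hz0 : (0:ℝ) ≤ z := Nat.cast_nonneg _
  have h1 : 0 < (1 / (RS : ℝ)) ^ 2 * D := by positivity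
  have h2 : 0 ≤ (1 / (RS : ℝ)) ^ 2 * z := by positivity
  have h := hkk _ _ h1 h2
  refine le_trans (h.2.2.2.2.2.2 d w hd hw).1 (le_trans h.2.2.2.2.2.1 ?_)
  have h3 := div_le_succ (1000 * (RS * RS) * (6 * D + z)) (D * (6 * D + 4 * z))
  have e : (K.kU (1000 * (RS * RS)) D z) =
      1000 * (RS * RS) * (6 * D + z) / (D * (6 * D + 4 * z)) + 1 := rfl
  rw [e, le_div_iff₀ (by norm_num)]
  refine le_trans (le_of_eq ?_) h3
  push_cast
  have hp : (0:ℝ) < 6 * D + 4 * z := by positivity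
  have e2 : 6 * ((1 / (RS : ℝ)) ^ 2 * D) + 4 * ((1 / (RS : ℝ)) ^ 2 * z) =
      (6 * D + 4 * z) / (RS : ℝ) ^ 2 := by
    field_simp
  have e3 : 6 * ((1 / (RS : ℝ)) ^ 2 * D) + (1 / (RS : ℝ)) ^ 2 * z =
      (6 * D + z) / (RS : ℝ) ^ 2 := by
    field_simp
  rw [e2, e3]
  field_simp

theorem cut_le (hkk : S_kk) {RS cj j n i lam e : ℕ} (hRS : 0 < RS) (hij : i + 1 ≤ j)
    (hcn : cj ≤ n) (h : K.cutok (1000 * (RS * RS)) cj j n i lam e = true) {x y : ℝ}
    (hx : 1 / (RS : ℝ) * n < x)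
    (hy0 : 2 * (1 / (RS : ℝ)) * (i : ℝ) < y) (hy1 : y < 2 * (1 / (RS : ℝ)) * ((i : ℝ) + 1)) :
    π * kaps (1 / (RS : ℝ) * cj, 2 * (1 / (RS : ℝ)) * j) (x, y) ≤
      (lam : ℝ) / 1000 + π * ((e : ℝ) / (1000 * RS * π)) / y := by
  have hR : (0:ℝ) < RS := by exact_mod_cast hRS
  have hi0 : (0:ℝ) ≤ i := Nat.cast_nonneg _
  have hy : 0 < y := lt_of_le_of_lt (by positivity) hy0
  have hijR : (i : ℝ) + 1 ≤ j := by exact_mod_cast hij
  have hcnR : (cj : ℝ) ≤ n := by exact_mod_cast hcn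
  have hc0 : (0:ℝ) ≤ cj := Nat.cast_nonneg _
  unfold K.cutok at h
  simp only [fb_eq] at h
  set v2 : ℕ := Nat.mul (Nat.mul 2 (Nat.sub j (Nat.succ i))) (Nat.mul 2 (Nat.sub j (Nat.succ i))) with hv2
  set D1 : ℕ := Nat.add (Nat.mul (Nat.sub n cj) (Nat.sub n cj)) v2 with hD1
  set D2 : ℕ := Nat.add (Nat.mul (Nat.add n cj) (Nat.add n cj)) v2 with hD2
  set z : ℕ := Nat.mul 16 (Nat.mul i j) with hz
  obtain ⟨h1, h⟩ := cond_and h
  have h2 : 1 ≤ D1 := Nat.le_of_ble_eq_true h1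
  have h3 : K.kU (1000 * (RS * RS)) D1 z + K.kU (1000 * (RS * RS)) D2 z ≤
      2 * (lam + e / (2 * (i + 1))) := Nat.le_of_ble_eq_true h
  have ev : (v2 : ℝ) = (2 * ((j : ℝ) - (i + 1))) ^ 2 := by
    have : v2 = (2 * (j - (i + 1))) * (2 * (j - (i + 1))) := rfl
    rw [this]
    push_cast [Nat.cast_sub hij]
    ring
  have eD1 : (D1 : ℝ) = ((n : ℝ) - cj) ^ 2 + (2 * ((j : ℝ) - (i + 1))) ^ 2 := by
    have : D1 = (n - cj) * (n - cj) + v2 := rfl
    rw [this]
    push_cast [Nat.cast_sub hcn]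
    rw [ev]
    ring
  have eD2 : (D2 : ℝ) = ((n : ℝ) + cj) ^ 2 + (2 * ((j : ℝ) - (i + 1))) ^ 2 := by
    have : D2 = (n + cj) * (n + cj) + v2 := rfl
    rw [this]
    push_cast
    rw [ev]
    ring
  have ez : (z : ℝ) = 16 * (i * j) := by
    have : z = 16 * (i * j) := rfl
    rw [this]
    push_cast
    ring
  have hD12 : D1 ≤ D2 := by
    have : (D1 : ℝ) ≤ D2 := by
      rw [eD1, eD2]
      nlinarith
    exact_mod_cast this
  set u : ℝ := 1 / (RS : ℝ) with hu
  have hu0 : 0 < u := by positivity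
  have hyv : 0 ≤ 2 * u * (j - (i + 1)) := mul_nonneg (by positivity) (by linarith)
  have hyv' : 2 * u * (j - (i + 1)) ≤ 2 * u * j - y := by nlinarith
  have hv : (2 * u * (j - (i + 1))) ^ 2 ≤ (2 * u * j - y) ^ 2 := pow_le_pow_left₀ hyv hyv' 2
  have hx1 : 0 ≤ u * ((n : ℝ) - cj) := mul_nonneg (le_of_lt hu0) (by linarith)
  have hx2 : (u * ((n : ℝ) - cj)) ^ 2 ≤ (x - u * cj) ^ 2 :=
    pow_le_pow_left₀ hx1 (by linarith) 2
  have hx3 : (u * ((n : ℝ) + cj)) ^ 2 ≤ (x + u * cj) ^ 2 :=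
    pow_le_pow_left₀ (mul_nonneg (le_of_lt hu0) (by linarith)) (by linarith) 2
  have hzz : u ^ 2 * (z : ℝ) ≤ 4 * (2 * u * j) * y := by
    rw [ez]
    have : 2 * u * i ≤ y := le_of_lt hy0
    have h5 : 4 * (2 * u * (j:ℝ)) * (2 * u * i) ≤ 4 * (2 * u * j) * y :=
      mul_le_mul_of_nonneg_left this (by positivity)
    linarith
  have k1 := kk_le_kU hkk hRS h2 (d := dsq (u * cj, 2 * u * j) (x, y)) (w := 4 * (2 * u * j) * y) (z := z)
    (by
      rw [eD1]
      unfold dsq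
      simp only
      linarith) hzz
  have k2 := kk_le_kU hkk hRS (le_trans h2 hD12) (d := dsq (u * cj, 2 * u * j) (-x, y))
    (w := 4 * (2 * u * j) * y) (z := z)
    (by
      rw [eD2]
      unfold dsq
      simp only
      linarith) hzz
  rw [pi_kaps]
  simp only
  have h3R : (K.kU (1000 * (RS * RS)) D1 z : ℝ) + K.kU (1000 * (RS * RS)) D2 z ≤
      2 * (lam + ((e / (2 * (i + 1)) : ℕ) : ℝ)) := by exact_mod_cast h3
  have h4 : ((e / (2 * (i + 1)) : ℕ) : ℝ) ≤ (e : ℝ) / (2 * (i + 1)) := by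
    refine le_trans Nat.cast_div_le ?_
    push_cast
    exact le_refl _
  have h5 : (e : ℝ) / (2 * (i + 1)) / 1000 ≤ π * ((e : ℝ) / (1000 * RS * π)) / y := by
    have e1 : π * ((e : ℝ) / (1000 * RS * π)) / y = (e : ℝ) / (1000 * (RS * y)) := by
      have := Real.pi_pos
      field_simp
    rw [e1, div_div]
    refine div_le_div_of_nonneg_left (Nat.cast_nonneg _) (by positivity) ?_
    have : (RS : ℝ) * y ≤ 2 * (i + 1) := by
      have h6 : (RS : ℝ) * y ≤ RS * (2 * u * (i + 1)) := mul_le_mul_of_nonneg_left (le_of_lt hy1) (le_of_lt hR)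
      have h7 : (RS : ℝ) * (2 * u * (i + 1)) = 2 * (i + 1) := by
        rw [hu]; field_simp
      linarith
    linarith
  linarith

theorem vtx_eq (u : ℝ) {N C j : ℕ} (hj : j ≤ N) :
    vtx u N (cf C) j = (u * (K.cN N C j : ℝ), 2 * u * (j : ℝ)) := by
  unfold vtx K.cN cf
  by_cases h : j < N
  · rw [if_pos h]
    have : Nat.ble N j = false := by
      rw [← Bool.not_eq_true, Nat.ble_eq]
      omega
    rw [this]
    rfl
  · have h1 : j = N := by omega
    subst h1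
    rw [if_neg h, Nat.ble_eq_true_of_le (le_refl _)]
    simp

theorem rowB_ge (F cj j i n b vu lam e : ℕ) (hbn : b ≤ n) :
    (vu : ℝ) + ((n : ℝ) - b) * (4 * (2 * i + 1) * ((lam + K.ce e i - K.klF F cj j n i : ℕ) : ℝ) +
      (if i = 0 then 4 * (e : ℝ) else 0)) - (lam * (4 * n * (2 * i + 1)) + 4 * e * n) ≤
    (K.rowB F cj j i n b vu lam e : ℝ) - K.OFF := by
  have h1 : K.rowB F cj j i n b vu lam e =
      (K.OFF + (vu + (n - b) * ((4 * (2 * i + 1)) * (lam + K.ce e i - K.klF F cj j n i) +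
        (if i = 0 then 4 * e else 0)))) - (lam * (4 * n * (2 * i + 1)) + 4 * e * n) := by
    unfold K.rowB
    cases i with
    | zero => rfl
    | succ i => rfl
  have h2 : (K.OFF + (vu + (n - b) * ((4 * (2 * i + 1)) * (lam + K.ce e i - K.klF F cj j n i) +
        (if i = 0 then 4 * e else 0)))) ≤ K.rowB F cj j i n b vu lam e +
        (lam * (4 * n * (2 * i + 1)) + 4 * e * n) := by
    rw [h1]; omega
  have h3 : (((K.OFF + (vu + (n - b) * ((4 * (2 * i + 1)) * (lam + K.ce e i - K.klF F cj j n i) +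
        (if i = 0 then 4 * e else 0)))) : ℕ) : ℝ) ≤ ((K.rowB F cj j i n b vu lam e +
        (lam * (4 * n * (2 * i + 1)) + 4 * e * n) : ℕ) : ℝ) := by exact_mod_cast h2
  rw [Nat.cast_add, Nat.cast_add, Nat.cast_mul (n - b), Nat.cast_add, Nat.cast_sub hbn,
    Nat.cast_mul (4 * (2 * i + 1)) _, Nat.cast_add (K.rowB F cj j i n b vu lam e)] at h3
  have h4 : (((if i = 0 then 4 * e else 0 : ℕ)) : ℝ) = if i = 0 then 4 * (e : ℝ) else 0 := by
    split_ifs <;> push_cast <;> ring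
  rw [h4] at h3
  push_cast at h3 ⊢
  linarith

theorem ce_ge {e i : ℕ} (hi : 1 ≤ i) : (e : ℝ) / (2 * i) ≤ K.ce e i := by
  have hi0 : (0:ℝ) < i := by exact_mod_cast hi
  have h : e ≤ K.ce e i * (2 * i) := by
    have h1 : K.ce e i = (e + 2 * i - 1) / (2 * i) := rfl
    rw [h1]
    have h2 := Nat.div_add_mod (e + 2 * i - 1) (2 * i)
    have h3 := Nat.mod_lt (e + 2 * i - 1) (show 0 < 2 * i by omega)
    have h4 : (e + 2 * i - 1) / (2 * i) * (2 * i) = 2 * i * ((e + 2 * i - 1) / (2 * i)) := by ring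
    omega
  rw [div_le_iff₀ (by positivity)]
  exact_mod_cast h

theorem t_rowB (hkk : S_kk) (hJ2 : S_J2) (hbel : S_below) : S_rowB := by
  intro RS N C j ND UD LD i b lam e hCC hjN hPF hij hfl l hl hlb
  have hRS := hCC.rs
  have hR : (0:ℝ) < RS := by exact_mod_cast hRS
  have hiN : i < N := by omega
  obtain ⟨hn1, -, hnc, hU, -⟩ := hPF i hiN
  rw [vtx_eq _ hjN] at hU hlb ⊢
  simp only at hlb
  set n := K.dg ND 16 i with hn
  set cj := K.cN N C j with hcj
  set u : ℝ := 1 / (RS:ℝ) with hu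
  have hu0 : 0 < u := by positivity
  have huR : (RS : ℝ) * u = 1 := by rw [hu]; field_simp
  unfold K.flB at hfl
  obtain ⟨f1, hfl⟩ := cond_and hfl
  obtain ⟨f2, hfl⟩ := cond_and hfl
  obtain ⟨f3, hfl⟩ := cond_and hfl
  obtain ⟨f4, f5⟩ := cond_and hfl
  have f1' : cj ≤ b := Nat.le_of_ble_eq_true f1
  have f2' : b ≤ n := Nat.le_of_ble_eq_true f2
  have f3' : n ≤ cf C i := Nat.le_of_ble_eq_true f3
  have hi0 : (0:ℝ) ≤ i := Nat.cast_nonneg _
  have hcj0 : (0:ℝ) ≤ cj := Nat.cast_nonneg _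
  have he0 : (0:ℝ) ≤ e := Nat.cast_nonneg _
  have hn0 : (1:ℝ) ≤ n := by exact_mod_cast hn1
  have hpi := Real.pi_pos
  have hijR : (i : ℝ) + 1 ≤ j := by exact_mod_cast hij
  have g1 : (cj : ℝ) ≤ b := by exact_mod_cast f1'
  have g2 : (b : ℝ) ≤ n := by exact_mod_cast f2'
  have g3 : (n : ℝ) ≤ cf C i := by exact_mod_cast f3'
  have hpe : ∀ y : ℝ, π * ((e : ℝ) / (1000 * RS * π)) / y = (e : ℝ) / (1000 * RS) / y := by
    intro y
    congr 1
    field_simp
  -- for `i ≥ 1`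
  have hce : ∀ y : ℝ, 2 * u * (i : ℝ) < y → (1 ≤ i ∨ e = 0) →
      (lam : ℝ) / 1000 + π * ((e : ℝ) / (1000 * RS * π)) / y ≤ ((lam + K.ce e i : ℕ) : ℝ) / 1000 := by
    intro y hy h
    rw [hpe]
    push_cast
    rw [add_div]
    rcases h with h | h
    · have h1 := ce_ge (e := e) h
      have hip : (0:ℝ) < i := by exact_mod_cast h
      have h2 : (e : ℝ) / (1000 * RS) / y ≤ (e : ℝ) / (1000 * RS) / (2 * u * i) :=
        div_le_div_of_nonneg_left (by positivity) (by positivity) (le_of_lt hy)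
      have h3 : (e : ℝ) / (1000 * RS) / (2 * u * i) = (e : ℝ) / (2 * i) / 1000 := by
        rw [hu]; field_simp
      have h4 := div_le_div_of_nonneg_right h1 (show (0:ℝ) ≤ 1000 by norm_num)
      linarith
    · subst h
      simp only [Nat.cast_zero, zero_div, add_zero]
      have : (0:ℝ) ≤ (K.ce 0 i : ℝ) / 1000 := by positivity
      linarith
  refine hbel (u * cj) (2 * u * j) (u * (cf C i)) (u * n) (u * b) (2 * u * i) (2 * u * (i + 1))
    ((lam : ℝ) / 1000) ((e : ℝ) / (1000 * RS * π))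
    ((K.klF (1000 * (RS * RS)) cj j n i : ℝ) / 1000)
    (((lam + K.ce e i - K.klF (1000 * (RS * RS)) cj j n i : ℕ) : ℝ) / 1000)
    (if i = 0 then (e : ℝ) / (1000 * RS) else 0) _
    (by positivity) (by positivity) (by nlinarith) (by nlinarith) (by positivity)
    (mul_le_mul_of_nonneg_left (le_trans g1 g2) (le_of_lt hu0))
    (mul_le_mul_of_nonneg_left g3 (le_of_lt hu0))
    (mul_le_mul_of_nonneg_left g1 (le_of_lt hu0))
    (mul_le_mul_of_nonneg_left g2 (le_of_lt hu0))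
    (by positivity) (by positivity) ?_ ?_ ?_ ?_ (by positivity) (by split_ifs <;> positivity) ?_ l hl
    (fun y h0 h1 => hlb y h0 h1)
  · -- beyond the cut
    intro x y hx hx' hy0 hy1
    rcases cond_or f4 with h | h
    · exfalso
      have h1 : n = cf C i := Nat.eq_of_beq_eq_true h
      rw [← h1] at hx'
      linarith
    · exact cut_le hkk hRS hij (le_trans f1' f2') h hx hy0 hy1
  · intro y hy0 hy1 _
    exact klF_le hkk hJ2 hRS hij hy0 hy1
  · rcases cond_or f5 with h | h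
    · left
      have h1 : b = cj := Nat.eq_of_beq_eq_true h
      rw [h1]
    · right
      intro y hy0 hy1
      unfold K.safeok at h
      obtain ⟨h1, h2⟩ := cond_and h
      have h3 : lam + K.ce e i ≤ K.klF (1000 * (RS * RS)) cj j b i := Nat.le_of_ble_eq_true h2
      have h4 : 1 ≤ i ∨ e = 0 := by
        rcases cond_or h1 with h5 | h5
        · exact Or.inl (Nat.le_of_ble_eq_true h5)
        · exact Or.inr (Nat.eq_of_beq_eq_true h5)
      have h5 : ((lam + K.ce e i : ℕ) : ℝ) ≤ (K.klF (1000 * (RS * RS)) cj j b i : ℝ) := by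
        exact_mod_cast h3
      exact le_trans (hce y hy0 h4) (le_trans (div_le_div_of_nonneg_right h5 (by norm_num))
        (klF_le hkk hJ2 hRS hij hy0 hy1))
  · intro y hy0 hy1
    have hy : 0 < y := lt_of_le_of_lt (by positivity) hy0
    have hg : ((lam + K.ce e i : ℕ) : ℝ) - (K.klF (1000 * (RS * RS)) cj j n i : ℝ) ≤
        ((lam + K.ce e i - K.klF (1000 * (RS * RS)) cj j n i : ℕ) : ℝ) := by
      have : lam + K.ce e i ≤ (lam + K.ce e i - K.klF (1000 * (RS * RS)) cj j n i) +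
        K.klF (1000 * (RS * RS)) cj j n i := by omega
      have h2 : ((lam + K.ce e i : ℕ) : ℝ) ≤ ((lam + K.ce e i - K.klF (1000 * (RS * RS)) cj j n i : ℕ) : ℝ) +
        (K.klF (1000 * (RS * RS)) cj j n i : ℝ) := by exact_mod_cast this
      linarith
    by_cases h : i = 0
    · rw [if_pos h, hpe]
      have h1 : ((lam : ℝ) / 1000 + (e : ℝ) / (1000 * RS) / y -
          (K.klF (1000 * (RS * RS)) cj j n i : ℝ) / 1000) * y =
          ((lam : ℝ) - K.klF (1000 * (RS * RS)) cj j n i) / 1000 * y + (e : ℝ) / (1000 * RS) := by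
        field_simp
        ring
      rw [h1]
      have h2 : (lam : ℝ) ≤ ((lam + K.ce e i : ℕ) : ℝ) := by
        push_cast
        have : (0:ℝ) ≤ (K.ce e i : ℝ) := Nat.cast_nonneg _
        linarith
      have h3 : ((lam : ℝ) - K.klF (1000 * (RS * RS)) cj j n i) / 1000 ≤
          ((lam + K.ce e i - K.klF (1000 * (RS * RS)) cj j n i : ℕ) : ℝ) / 1000 :=
        div_le_div_of_nonneg_right (by linarith) (by norm_num)
      have h4 := mul_le_mul_of_nonneg_right h3 (le_of_lt hy)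
      linarith
    · rw [if_neg h, add_zero]
      refine mul_le_mul_of_nonneg_right ?_ (le_of_lt hy)
      have h1 := hce y hy0 (Or.inl (by omega))
      have h2 := div_le_div_of_nonneg_right hg (show (0:ℝ) ≤ 1000 by norm_num)
      rw [sub_div] at h2
      linarith
  · have hge := rowB_ge (1000 * (RS * RS)) cj j i n b (K.dg UD 64 i) lam e f2'
    have h1 := div_le_div_of_nonneg_right hge (show (0:ℝ) ≤ 1000 * (RS:ℝ) ^ 2 by positivity)
    have h2 := mul_le_mul_of_nonneg_left h1 (le_of_lt hu0)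
    refine le_trans ?_ h2
    refine le_trans (add_le_add_left (sub_le_sub_right (sub_le_sub_right hU _) _) _) (le_of_eq ?_)
    have e0 : (if i = 0 then (e : ℝ) / (1000 * RS) else 0) = (if i = 0 then 4 * (e : ℝ) else 0) / (4000 * RS) := by
      split_ifs
      · field_simp
        ring
      · simp
    rw [e0]
    generalize (if i = 0 then 4 * (e : ℝ) else 0) = e0'
    generalize ((lam + K.ce e i - K.klF (1000 * (RS * RS)) cj j n i : ℕ) : ℝ) = g
    rw [hu]
    field_simp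
    ring

end T25c

theorem t_rowB (hkk : S_kk) (hJ2 : S_J2) (hbel : S_below) : S_rowB := T25c.t_rowB hkk hJ2 hbel

end SV
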