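import Pool.Agent.Helper779.SV.Stmts3

/-!
# Task T25d: soundness of the certificate checker (pieces and the certificate theorem)
-/

open MeasureTheory Set Filter Topology
open scoped Real

namespace SV

namespace T25d

theorem fc_eq (n : ℕ) (f : ℕ → ℕ) : K.fc n f = f n := by cases n <;> rfl

theorem fb_eq (n : ℕ) (f : ℕ → Bool) : K.fb n f = f n := by cases n <;> rfl

theorem sumN_eq (f : ℕ → ℕ) (n : ℕ) : K.sumN f n = ∑ i ∈ Finset.range n, f i := by
  induction n with
  | zero => rfl
  | succ n ih =>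
    have h : K.sumN f (n + 1) = f n + K.sumN f n := rfl
    rw [h, Finset.sum_range_succ, ih]
    exact Nat.add_comm _ _

theorem cond_and {b c : Bool} : (cond b c false = true) ↔ b = true ∧ c = true := by
  cases b <;> simp

theorem cond_or {b c : Bool} : (cond b true c = true) ↔ b = true ∨ c = true := by
  cases b <;> simp

theorem allN_iff (f : ℕ → Bool) (n : ℕ) : K.allN f n = true ↔ ∀ i < n, f i = true := by
  induction n with
  | zero => simp [K.allN]
  | succ n ih =>
    have h : K.allN f (n + 1) = cond (f n) (K.allN f n) false := rfl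
    rw [h, cond_and, ih]
    constructor
    · rintro ⟨h1, h2⟩ i hi
      rcases Nat.lt_succ_iff_lt_or_eq.1 hi with h3 | rfl
      · exact h2 i h3
      · exact h1
    · intro h1
      exact ⟨h1 n (Nat.lt_succ_self n), fun i hi => h1 i (Nat.lt_succ_of_lt hi)⟩

theorem ble_iff {a b : ℕ} : Nat.ble a b = true ↔ a ≤ b := by rw [Nat.ble_eq]

/-- a concave function is positive between two points where it is positive -/
theorem conc {q L E S a b θ : ℝ} (ha : 0 ≤ a) (h1 : a ≤ θ) (h2 : θ ≤ b) (hL : 0 ≤ L) (hE : 0 ≤ E)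
    (ga : S + L * a ^ 3 + E * a ^ 2 < a * q) (gb : S + L * b ^ 3 + E * b ^ 2 < b * q) :
    S + L * θ ^ 3 + E * θ ^ 2 < θ * q := by
  rcases eq_or_lt_of_le (h1.trans h2) with h | h
  · have : θ = a := le_antisymm (h2.trans h.ge) h1
    rw [this]; exact ga
  · have key : (b - a) * (θ * q - (S + L * θ ^ 3 + E * θ ^ 2)) =
        (b - θ) * (a * q - (S + L * a ^ 3 + E * a ^ 2)) +
        (θ - a) * (b * q - (S + L * b ^ 3 + E * b ^ 2)) +
        L * ((b - θ) * (θ - a) * (b - a) * (a + b + θ)) + E * ((b - θ) * (θ - a) * (b - a)) := by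
      ring
    have e1 : 0 ≤ b - θ := sub_nonneg.2 h2
    have e2 : 0 ≤ θ - a := sub_nonneg.2 h1
    have e3 : 0 < b - a := sub_pos.2 h
    have e4 : 0 ≤ a + b + θ := by linarith
    have e5 : 0 ≤ L * ((b - θ) * (θ - a) * (b - a) * (a + b + θ)) := by positivity
    have e6 : 0 ≤ E * ((b - θ) * (θ - a) * (b - a)) := by positivity
    have e7 : 0 < (b - θ) * (a * q - (S + L * a ^ 3 + E * a ^ 2)) +
        (θ - a) * (b * q - (S + L * b ^ 3 + E * b ^ 2)) := by
      have f1 : 0 < a * q - (S + L * a ^ 3 + E * a ^ 2) := sub_pos.2 ga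
      have f2 : 0 < b * q - (S + L * b ^ 3 + E * b ^ 2) := sub_pos.2 gb
      rcases eq_or_lt_of_le e1 with h3 | h3
      · have : 0 < θ - a := by linarith
        have f3 := mul_pos this f2
        have f4 := mul_nonneg e1 f1.le
        linarith
      · have f3 := mul_pos h3 f1
        have f4 := mul_nonneg e2 f2.le
        linarith
    have e8 : 0 < (b - a) * (θ * q - (S + L * θ ^ 3 + E * θ ^ 2)) := by
      rw [key]; linarith
    have := (mul_pos_iff_of_pos_left e3).1 e8
    linarith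

theorem endp_real {RS qn Bn S lam e t : ℕ} (hRS : 0 < RS)
    (h : K.endp RS qn Bn S lam e t = true) :
    (S : ℝ) / (1000 * (RS : ℝ) ^ 3) + ((lam : ℝ) / 1000 * ((qn : ℝ) / 1000000)) * ((t : ℝ) / 1000) ^ 3 +
      ((e : ℝ) / (1000 * RS) * ((Bn : ℝ) / 1000000)) * ((t : ℝ) / 1000) ^ 2 <
      ((t : ℝ) / 1000) * ((qn : ℝ) / 1000000) := by
  have hR : (0 : ℝ) < RS := by exact_mod_cast hRS
  unfold K.endp at h
  rw [ble_iff] at h
  have h1 : (S * 1000000000000000 + ((lam * (t * (t * t))) * (qn * (RS * (RS * RS))) +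
      (e * (RS * RS)) * (Bn * ((t * t) * 1000)))) + 1 ≤
      t * ((qn * (RS * (RS * RS))) * 1000000000) := h
  have h2 : ((S : ℝ) * 1000000000000000 + (((lam : ℝ) * (t * (t * t))) * (qn * (RS * (RS * RS))) +
      ((e : ℝ) * (RS * RS)) * (Bn * ((t * t) * 1000)))) + 1 ≤
      (t : ℝ) * ((qn * (RS * (RS * RS))) * 1000000000) := by exact_mod_cast h1
  rw [← sub_pos]
  have h3 : ((t : ℝ) / 1000) * ((qn : ℝ) / 1000000) -
      ((S : ℝ) / (1000 * (RS : ℝ) ^ 3) + ((lam : ℝ) / 1000 * ((qn : ℝ) / 1000000)) * ((t : ℝ) / 1000) ^ 3 +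
      ((e : ℝ) / (1000 * RS) * ((Bn : ℝ) / 1000000)) * ((t : ℝ) / 1000) ^ 2) =
      ((t : ℝ) * ((qn * (RS * (RS * RS))) * 1000000000) -
      ((S : ℝ) * 1000000000000000 + (((lam : ℝ) * (t * (t * t))) * (qn * (RS * (RS * RS))) +
      ((e : ℝ) * (RS * RS)) * (Bn * ((t * t) * 1000))))) / (1000000000000000000 * (RS : ℝ) ^ 3) := by
    field_simp
    ring
  rw [h3]
  apply div_pos _ (by positivity)
  linarith

end T25d

open T25d in
theorem t_piece (hrows : S_rows) (hA : S_rowA) (hB : S_rowB) : S_piece := by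
  intro RS N C qn Bn j ND UD LD t0 t1 lam e BD hCC hj hPF hp θ hθ h0 h1
  have hRS : (0:ℝ) < RS := by exact_mod_cast hCC.rs
  have hpi := Real.pi_pos
  unfold K.piece at hp
  rw [cond_and, fb_eq, cond_and] at hp
  obtain ⟨hfl, he0, he1⟩ := hp
  set Sn := K.SS RS N C j ND UD LD BD lam e with hSn
  set F : ℕ := 1000 * (RS * RS) with hF
  set cj : ℕ := K.cN N C j with hcj
  set R : ℕ → ℕ := fun i => if j ≤ i then K.rowA F N C cj j i UD LD lam e else
    K.rowB F cj j i (K.dg ND 16 i) (K.dg BD 16 i) (K.dg UD 64 i) lam e with hR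
  have hSS : Sn = (∑ i ∈ Finset.range N, R i) - N * K.OFF := by
    rw [hSn]
    unfold K.SS
    rw [fc_eq, fc_eq, sumN_eq]
    change (∑ i ∈ Finset.range N, _) - N * K.OFF = _
    congr 1
    refine Finset.sum_congr rfl fun i _ => ?_
    rw [fc_eq, fc_eq, fc_eq]
    simp only [hR]
    by_cases hji : j ≤ i
    · rw [if_pos hji, ble_iff.2 hji]
      rfl
    · rw [if_neg hji]
      have : Nat.ble j i = false := by
        rw [← Bool.not_eq_true, ble_iff]
        exact hji
      rw [this]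
      rfl
  have hfl' : ∀ i < N, i < j → K.flB F cj (cf C i) j i (K.dg ND 16 i) (K.dg BD 16 i) lam e = true := by
    intro i hi hij
    unfold K.flags at hfl
    rw [fb_eq, fb_eq, allN_iff] at hfl
    have h2 := hfl i hi
    rw [cond_or, ble_iff, fb_eq, fb_eq] at h2
    rcases h2 with h2 | h2
    · omega
    · exact h2
  set r : ℕ → ℝ := fun i => 1 / (RS : ℝ) * (((R i : ℝ) - K.OFF) / (1000 * (RS : ℝ) ^ 2)) with hr
  have hub : IsUB (1 / (RS : ℝ)) N (cf C) j ((lam : ℝ) / 1000) ((e : ℝ) / (1000 * RS * π))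
      (∑ i ∈ Finset.range N, r i) := by
    refine hrows (1 / (RS : ℝ)) N (cf C) (by positivity) hCC.n hCC.anti hCC.pos j hj _ _
      (by positivity) (by positivity) r ?_
    intro i hi l hl hly
    by_cases hji : j ≤ i
    · have h2 := hA RS N C j ND UD LD i lam e hCC hPF hji hi l hl
        (fun y hy1 hy2 => ⟨(hly y hy1 hy2).1, (hly y hy1 hy2).2.1⟩)
      have h3 : R i = K.rowA F N C cj j i UD LD lam e := if_pos hji
      simp only [hr]
      rw [h3]
      exact h2
    · have hij : i < j := not_le.1 hji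
      have h2 := hB RS N C j ND UD LD i (K.dg BD 16 i) lam e hCC hj hPF hij (hfl' i hi hij) l hl
        (fun y hy1 hy2 => ⟨(hly y hy1 hy2).2.2 hij, (hly y hy1 hy2).2.1⟩)
      have h3 : R i = K.rowB F cj j i (K.dg ND 16 i) (K.dg BD 16 i) (K.dg UD 64 i) lam e :=
        if_neg hji
      simp only [hr]
      rw [h3]
      exact h2
  have hsum : ∑ i ∈ Finset.range N, r i ≤ (Sn : ℝ) / (1000 * (RS : ℝ) ^ 3) := by
    have h2 : ∑ i ∈ Finset.range N, r i =
        ((∑ i ∈ Finset.range N, (R i : ℝ)) - N * K.OFF) / (1000 * (RS : ℝ) ^ 3) := by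
      have h3 : ∀ i, r i = ((R i : ℝ) - K.OFF) / (1000 * (RS : ℝ) ^ 3) := by
        intro i
        simp only [hr]
        field_simp
      simp_rw [h3]
      rw [← Finset.sum_div, Finset.sum_sub_distrib]
      simp
    rw [h2]
    apply div_le_div_of_nonneg_right _ (by positivity)
    rw [hSS]
    have h4 : (((∑ i ∈ Finset.range N, R i) : ℕ) : ℝ) ≤
        (((∑ i ∈ Finset.range N, R i) - N * K.OFF : ℕ) : ℝ) + ((N * K.OFF : ℕ) : ℝ) := by
      exact_mod_cast (le_tsub_add : (∑ i ∈ Finset.range N, R i) ≤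
        (∑ i ∈ Finset.range N, R i) - N * K.OFF + N * K.OFF)
    push_cast at h4
    linarith
  refine ⟨(lam:ℝ) / 1000, (e:ℝ) / (1000 * RS * π), (Sn:ℝ) / (1000 * (RS : ℝ) ^ 3), by positivity,
    by positivity, by positivity, ?_, ?_, ?_⟩
  · rintro rfl
    simp
  · intro A hA1 hA2 hA3 hA4 hA5
    have := hub A hA1 hA2 hA3 hA4 hA5
    linarith
  · have g0 := endp_real (Bn := Bn) hCC.rs he0
    have g1 := endp_real (Bn := Bn) hCC.rs he1
    have := conc (by positivity) h0 h1 (by positivity) (by positivity) g0 g1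
    have e1 : (Sn:ℝ) / (1000 * (RS : ℝ) ^ 3) + (lam:ℝ) / 1000 * (θ ^ 3 * ((qn : ℝ) / 1000000)) +
        π * ((e:ℝ) / (1000 * RS * π)) * ((Bn : ℝ) / 1000000 * θ ^ 2) =
        (Sn : ℝ) / (1000 * (RS : ℝ) ^ 3) + ((lam : ℝ) / 1000 * ((qn : ℝ) / 1000000)) * θ ^ 3 +
      ((e : ℝ) / (1000 * RS) * ((Bn : ℝ) / 1000000)) * θ ^ 2 := by
      field_simp
    rw [e1]
    exact this


/-- N7 with nonempty lists. -/
def S_cert' : Prop := ∀ (RS N C qn Bn : ℕ) (free : Prop), 0 < RS → 1 ≤ N → 0 < qn → K.shape RS N C qn = true →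
  (∀ j ≤ N, ∃ (ND UD LD t0 : ℕ) (l : List (ℕ × ℕ × ℕ × ℕ)), K.chkPF RS N C j ND UD LD = true ∧ l ≠ [] ∧
    K.vert RS N C qn Bn j t0 l ND UD LD = true ∧ (free → K.efree l = true)) →
  ∀ w' U, Sol w' U → (qn : ℝ) / 1000000 ≤ π * w' →
    (free ∨ ar U ^ 3 * ((qn : ℝ) / 1000000) ^ 2 ≤ ((Bn : ℝ) / 1000000) ^ 3 * (π * w') ^ 2) →
    U ⊆ stair (1 / (RS : ℝ)) N (cf C)

namespace T25d

/-- the condition of the confinement theorem at the vertex `j`, with `q = π w` -/
def Good (u : ℝ) (N : ℕ) (c : ℕ → ℕ) (j : ℕ) (free : Prop) (q B θ : ℝ) : Prop :=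
  ∃ lam η S : ℝ, 0 ≤ lam ∧ 0 ≤ η ∧ 0 ≤ S ∧ (free → η = 0) ∧ IsUB u N c j lam η S ∧
    S + lam * (θ ^ 3 * q) + π * η * (B * θ ^ 2) < θ * q

theorem pieces_good (hpc : S_piece) {RS N C qn Bn j ND UD LD : ℕ} {free : Prop} (hCC : CC RS N C)
    (hj : j ≤ N) (hPF : PF RS N C j ND UD LD) : ∀ (l : List (ℕ × ℕ × ℕ × ℕ)) (t0 : ℕ), l ≠ [] →
    K.pieces RS N C qn Bn j ND UD LD t0 l = true → (free → K.efree l = true) →
    ∀ θ : ℝ, 0 < θ → (t0 : ℝ) / 1000 ≤ θ → θ ≤ 1 →
      Good (1 / (RS : ℝ)) N (cf C) j free ((qn : ℝ) / 1000000) ((Bn : ℝ) / 1000000) θ := by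
  intro l
  induction l with
  | nil => intro t0 h; exact absurd rfl h
  | cons x l ih =>
    obtain ⟨t1, lam, e, BD⟩ := x
    intro t0 _ hp hfree θ hθ h0 h1
    have hp' : cond (K.piece RS N C qn Bn j ND UD LD t0 t1 lam e BD)
        (K.pieces RS N C qn Bn j ND UD LD t1 l) false = true := hp
    rw [cond_and] at hp'
    have hfree' : free → e = 0 ∧ K.efree l = true := by
      intro hf
      have h2 : cond (Nat.beq e 0) (K.efree l) false = true := hfree hf
      rw [cond_and, Nat.beq_eq] at h2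
      exact h2
    by_cases hc : θ ≤ (t1 : ℝ) / 1000
    · obtain ⟨lam', η, S, g1, g2, g3, g4, g5, g6⟩ :=
        hpc RS N C qn Bn j ND UD LD t0 t1 lam e BD hCC hj hPF hp'.1 θ hθ h0 hc
      exact ⟨lam', η, S, g1, g2, g3, fun hf => g4 (hfree' hf).1, g5, g6⟩
    · push Not at hc
      by_cases hl : l = []
      · exfalso
        subst hl
        have h2 : Nat.ble 1000 t1 = true := hp'.2
        rw [ble_iff] at h2
        have h3 : (1000 : ℝ) ≤ t1 := by exact_mod_cast h2
        linarith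
      · exact ih t1 hl hp'.2 (fun hf => (hfree' hf).2) θ hθ hc.le h1

theorem stair_bdd {u : ℝ} {N : ℕ} {c : ℕ → ℕ} (hu : 0 < u) (hc : ∀ i k, i ≤ k → c k ≤ c i) :
    Bornology.IsBounded (stair u N c) := by
  have h : stair u N c ⊆ Icc (-(u * c 0)) (u * c 0) ×ˢ Icc 0 (2 * u * N) := by
    rintro x ⟨h1, i, hi, h2, h3⟩
    have h4 : (c i : ℝ) ≤ c 0 := by exact_mod_cast hc 0 i (Nat.zero_le i)
    have h5 : u * (c i : ℝ) ≤ u * c 0 := mul_le_mul_of_nonneg_left h4 hu.le
    have h6 : ((i : ℝ) + 1) ≤ N := by exact_mod_cast hi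
    have h7 : 2 * u * ((i : ℝ) + 1) ≤ 2 * u * N := mul_le_mul_of_nonneg_left h6 (by positivity)
    have h8 := abs_le.1 h3
    exact ⟨⟨by linarith [h8.1], by linarith [h8.2]⟩, ⟨h1.le, by linarith⟩⟩
  exact (isCompact_Icc.prod isCompact_Icc).isBounded.subset h

theorem top_good (htop : S_top) {u : ℝ} {N : ℕ} {c : ℕ → ℕ} (hu : 0 < u) (hN : 1 ≤ N)
    (hc : ∀ i k, i ≤ k → c k ≤ c i) {free : Prop} {q B θ : ℝ} (hq : 0 < q) (hθ : 0 < θ)
    (hθ2 : θ < u * N) : Good u N c N free q B θ := by
  have hN0 : (0 : ℝ) < N := by exact_mod_cast hN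
  set h : ℝ := 2 * u * N with hh
  have hh0 : 0 < h := by positivity
  refine ⟨4 / h ^ 2, 0, 0, by positivity, le_refl _, le_refl _, fun _ => rfl, ?_, ?_⟩
  · intro A hA1 hA2 hA3 hA4 _
    have hv : vtx u N c N = (0, h) := by
      unfold vtx
      rw [if_neg (lt_irrefl N)]
    rw [hv]
    have := htop A h hh0 hA1 hA2 hA3 (by
      intro x hx
      obtain ⟨_, i, hi, h2, _⟩ := hA4 hx
      have h6 : ((i : ℝ) + 1) ≤ N := by exact_mod_cast hi
      have h7 : 2 * u * ((i : ℝ) + 1) ≤ 2 * u * N := mul_le_mul_of_nonneg_left h6 (by positivity)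
      linarith) ((stair_bdd hu hc).subset hA4)
    linarith
  · have h1 : 4 / h ^ 2 * θ ^ 2 < 1 := by
      rw [div_mul_eq_mul_div, div_lt_one (by positivity)]
      have h2 : 2 * θ < h := by rw [hh]; linarith
      have h3 : (2 * θ) ^ 2 < h ^ 2 := by
        apply pow_lt_pow_left₀ h2 (by positivity) two_ne_zero
      nlinarith
    have h2 : 4 / h ^ 2 * (θ ^ 3 * q) = (4 / h ^ 2 * θ ^ 2) * (θ * q) := by ring
    have h3 : (4 / h ^ 2 * θ ^ 2) * (θ * q) < 1 * (θ * q) :=
      mul_lt_mul_of_pos_right h1 (by positivity)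
    rw [h2]
    linarith

theorem axis_good (hax : S_axis) {u : ℝ} {N : ℕ} {c : ℕ → ℕ} (hu : 0 < u) (hN : 1 ≤ N)
    (hc : ∀ i k, i ≤ k → c k ≤ c i) (hc0 : 1 ≤ c 0) {free : Prop} {q B θ : ℝ} (hq : 0 < q)
    (hθ : 0 < θ) (h1 : 0 < 1 - 4 * (θ / (u * c 0)) ^ 2)
    (h2 : 493485 / 100000 * (θ / (u * c 0)) < q * (1 - 4 * (θ / (u * c 0)) ^ 2) ^ 2) :
    Good u N c 0 free q B θ := by
  have hpi := Real.pi_pos
  have hc0' : (0 : ℝ) < c 0 := by exact_mod_cast hc0
  set a : ℝ := u * c 0 with ha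
  have ha0 : 0 < a := by positivity
  set P0 : ℝ := θ ^ 3 * q with hP0
  have hP00 : 0 < P0 := by positivity
  set s : ℝ := √(2 * P0 / a) with hs
  have hs0 : 0 < s := Real.sqrt_pos.2 (by positivity)
  have hs2 : s ^ 2 = 2 * P0 / a := Real.sq_sqrt (by positivity)
  refine ⟨4 / a ^ 2 + π * s / (4 * P0), 0, π * s / 4, by positivity, le_refl _, by positivity,
    fun _ => rfl, ?_, ?_⟩
  · intro A hA1 hA2 hA3 hA4 _
    have hv : vtx u N c 0 = (a, 0) := by
      unfold vtx
      rw [if_pos (by omega)]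
      simp [ha]
    rw [hv]
    have h3 := hax A a ha0 hA1 hA2 hA3 (by
      intro x hx
      obtain ⟨_, i, hi, _, h3⟩ := hA4 hx
      have h4 : (c i : ℝ) ≤ c 0 := by exact_mod_cast hc 0 i (Nat.zero_le i)
      have h5 : u * (c i : ℝ) ≤ u * c 0 := mul_le_mul_of_nonneg_left h4 hu.le
      linarith) ((stair_bdd hu hc).subset hA4)
    have hP : 0 ≤ PP A := setIntegral_nonneg hA1.measurableSet fun x hx => (hA2 hx).le
    set x : ℝ := √(2 * PP A / a) with hx
    have hx2 : x ^ 2 = 2 * PP A / a := Real.sq_sqrt (by positivity)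
    have hx0 : 0 ≤ x := Real.sqrt_nonneg _
    have h4 : x * s ≤ (x ^ 2 + s ^ 2) / 2 := by nlinarith [sq_nonneg (x - s)]
    have h5 : x ^ 2 = PP A / P0 * s ^ 2 := by
      rw [hx2, hs2]; field_simp
    have h6 : x ≤ (PP A / P0 * s + s) / 2 := by
      have h7 : x * s ≤ ((PP A / P0 * s + s) / 2) * s := by
        rw [h5] at h4
        nlinarith
      exact le_of_mul_le_mul_right h7 hs0
    have h7 : π * phi A (a, 0) ≤ π * (1 / 2 * x + 4 * PP A / (π * a ^ 2)) :=
      mul_le_mul_of_nonneg_left h3 hpi.le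
    have h8 : π * (1 / 2 * x + 4 * PP A / (π * a ^ 2)) = π / 2 * x + 4 / a ^ 2 * PP A := by
      field_simp
    have h9 : π / 2 * x ≤ π / 2 * ((PP A / P0 * s + s) / 2) :=
      mul_le_mul_of_nonneg_left h6 (by positivity)
    have h10 : π / 2 * ((PP A / P0 * s + s) / 2) = π * s / (4 * P0) * PP A + π * s / 4 := by
      field_simp
      ring
    have h11 : (4 / a ^ 2 + π * s / (4 * P0)) * PP A + π * 0 * ar A + π * s / 4 =
        π * s / (4 * P0) * PP A + π * s / 4 + 4 / a ^ 2 * PP A := by ring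
    rw [h11]
    linarith
  · -- the inequality at `θ`
    set τ : ℝ := θ / a with hτ
    have hτ0 : 0 < τ := by positivity
    have hpi2 : π ^ 2 / 2 < 493485 / 100000 := by
      have := Real.pi_lt_d4
      nlinarith
    have h3 : (π / 2) ^ 2 * (2 * τ * q) < (q * (1 - 4 * τ ^ 2)) ^ 2 := by
      have h4 : (π / 2) ^ 2 * (2 * τ * q) = (π ^ 2 / 2 * τ) * q := by ring
      have h5 : π ^ 2 / 2 * τ < 493485 / 100000 * τ := mul_lt_mul_of_pos_right hpi2 hτ0
      have h6 : (π ^ 2 / 2 * τ) * q < (q * (1 - 4 * τ ^ 2) ^ 2) * q :=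
        mul_lt_mul_of_pos_right (h5.trans h2) hq
      rw [h4]
      nlinarith
    have h4 : s = θ * √(2 * τ * q) := by
      rw [hs]
      have : 2 * P0 / a = θ ^ 2 * (2 * τ * q) := by
        rw [hP0, hτ]; field_simp
      rw [this, Real.sqrt_mul (by positivity), Real.sqrt_sq hθ.le]
    have h5 : π / 2 * √(2 * τ * q) < q * (1 - 4 * τ ^ 2) := by
      apply lt_of_pow_lt_pow_left₀ 2 (by positivity)
      rw [mul_pow, Real.sq_sqrt (by positivity)]
      exact h3
    have h6 : π * s / 4 + (4 / a ^ 2 + π * s / (4 * P0)) * P0 + π * 0 * (B * θ ^ 2) =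
        π / 2 * s + 4 / a ^ 2 * P0 := by
      field_simp
      ring
    rw [h6, h4]
    have h7 : 4 / a ^ 2 * P0 = θ * (4 * τ ^ 2 * q) := by
      rw [hP0, hτ]; field_simp
    rw [h7]
    have h8 : θ * (π / 2 * √(2 * τ * q)) < θ * (q * (1 - 4 * τ ^ 2)) :=
      mul_lt_mul_of_pos_left h5 hθ
    nlinarith

end T25d

open T25d in
theorem t_cert' (hpc : S_piece) (hchk : S_chkPF) (hshape : S_shape) (hN1 : S_N1) (htop : S_top)
    (hax : S_axis) : S_cert' := by
  intro RS N C qn Bn free hRS hN hqn hsh hcert w' U hU hq hB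
  have hpi := Real.pi_pos
  have hR : (0 : ℝ) < RS := by exact_mod_cast hRS
  obtain ⟨hCC, hmass⟩ := hshape RS N C qn hRS hN hsh
  set q : ℝ := (qn : ℝ) / 1000000 with hqdef
  have hqn' : (0 : ℝ) < qn := by exact_mod_cast hqn
  have hq0 : 0 < q := by positivity
  have hw : π * (q / π) = q := by field_simp
  have hu : 0 < 1 / (RS : ℝ) := by positivity
  refine hN1 (1 / (RS : ℝ)) N (cf C) hu hN hCC.anti hCC.pos (q / π) ((Bn : ℝ) / 1000000) free
    (by positivity) (by positivity) (fun j hj => by rw [hw]; exact hmass j hj) ?_ w' U hU ?_ ?_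
  · intro j hj θ hθ hθ1 hvm
    rw [hw] at hvm
    have goal : Good (1 / (RS : ℝ)) N (cf C) j free q ((Bn : ℝ) / 1000000) θ := by
      obtain ⟨ND, UD, LD, t0, l, hpf, hl, hv, hfree⟩ := hcert j hj
      have hPF := hchk RS N C j ND UD LD hRS hj hpf
      unfold K.vert at hv
      rw [cond_and] at hv
      by_cases hc : (t0 : ℝ) / 1000 ≤ θ
      · exact pieces_good hpc hCC hj hPF l t0 hl hv.2 hfree θ hθ hc hθ1
      · push Not at hc
        have hst := hv.1
        unfold K.startok at hst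
        by_cases hjN : N ≤ j
        · have hjN' : j = N := le_antisymm hj hjN
          rw [ble_iff.2 hjN, cond_true, ble_iff] at hst
          have h1 : t0 * RS + 1 ≤ 1000 * N := hst
          have h2 : (t0 : ℝ) * RS + 1 ≤ 1000 * N := by exact_mod_cast h1
          subst hjN'
          refine top_good htop hu hN hCC.anti hq0 hθ ?_
          refine hc.trans ?_
          rw [one_div, inv_mul_eq_div, div_lt_div_iff₀ (by norm_num) hR]
          linarith
        · have hb : Nat.ble N j = false := by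
            rw [← Bool.not_eq_true, ble_iff]; exact hjN
          rw [hb, cond_false] at hst
          by_cases hj0 : j = 0
          · subst hj0
            have hb2 : Nat.beq 0 0 = true := rfl
            rw [hb2, cond_true, fb_eq, fb_eq, fb_eq, ble_iff] at hst
            set A : ℕ := 1000 * K.dg C 16 0 with hA
            set T : ℕ := t0 * RS with hT
            have h1 : 4934850 * T * (A * (A * A)) + 1 ≤ qn * ((A * A - 4 * (T * T)) * (A * A - 4 * (T * T))) :=
              hst
            have hX : 4 * (T * T) < A * A := by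
              by_contra hcon
              push Not at hcon
              have h2 : A * A - 4 * (T * T) = 0 := Nat.sub_eq_zero_of_le hcon
              rw [h2] at h1
              simp at h1
            have hA0 : 0 < A := by
              rcases Nat.eq_zero_or_pos A with h | h
              · rw [h] at hX; simp at hX
              · exact h
            have hA0' : (0 : ℝ) < A := by exact_mod_cast hA0
            have h2 : 4934850 * (T : ℝ) * (A * (A * A)) + 1 ≤
                qn * (((A : ℝ) * A - 4 * (T * T)) * ((A : ℝ) * A - 4 * (T * T))) := by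
              have h3 : ((A * A - 4 * (T * T) : ℕ) : ℝ) = (A : ℝ) * A - 4 * (T * T) := by
                rw [Nat.cast_sub hX.le]; push_cast; ring
              rw [← h3]
              exact_mod_cast h1
            have hX' : 4 * ((T : ℝ) * T) < (A : ℝ) * A := by exact_mod_cast hX
            have hcf0 : (A : ℝ) = 1000 * (cf C 0 : ℝ) := by
              rw [hA]; push_cast; rfl
            have hTr : (T : ℝ) = t0 * RS := by rw [hT]; push_cast; rfl
            have ht : θ / (1 / (RS : ℝ) * (cf C 0 : ℝ)) < T / A := by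
              rw [hcf0, hTr]
              have hcp : (0 : ℝ) < cf C 0 := by
                have := hCC.pos 0 (by omega)
                exact_mod_cast this
              rw [div_lt_div_iff₀ (by positivity) (by positivity)]
              have h4 : (t0 : ℝ) * RS * (1 / (RS : ℝ) * (cf C 0 : ℝ)) = t0 * cf C 0 := by
                field_simp
              rw [h4]
              have h5 : 1000 * θ < t0 := by
                rw [lt_div_iff₀ (by norm_num)] at hc
                linarith
              nlinarith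
            have hcp : (0 : ℝ) < cf C 0 := by
              have := hCC.pos 0 (by omega)
              exact_mod_cast this
            set σ : ℝ := θ / (1 / (RS : ℝ) * (cf C 0 : ℝ)) with hσ
            have hσ0 : 0 < σ := by positivity
            set τ : ℝ := (T : ℝ) / A with hτ
            have hτ2 : 4 * τ ^ 2 < 1 := by
              rw [hτ, div_pow, mul_div_assoc', div_lt_one (by positivity)]
              nlinarith
            have hστ : σ ^ 2 ≤ τ ^ 2 := pow_le_pow_left₀ hσ0.le ht.le 2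
            refine axis_good hax hu hN hCC.anti (hCC.pos 0 (by omega)) hq0 hθ ?_ ?_
            · linarith
            · have h5 : 493485 / 100000 * τ < q * (1 - 4 * τ ^ 2) ^ 2 := by
                have h6 : 493485 / 100000 * τ = 4934850 * (T : ℝ) * (A * (A * A)) / (1000000 * (A : ℝ) ^ 4) := by
                  rw [hτ]; field_simp; ring
                have h7 : q * (1 - 4 * τ ^ 2) ^ 2 =
                    qn * (((A : ℝ) * A - 4 * (T * T)) * ((A : ℝ) * A - 4 * (T * T))) /
                      (1000000 * (A : ℝ) ^ 4) := by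
                  rw [hτ, hqdef]; field_simp
                rw [h6, h7]
                apply div_lt_div_of_pos_right _ (by positivity)
                linarith
              have h6 : (1 - 4 * τ ^ 2) ^ 2 ≤ (1 - 4 * σ ^ 2) ^ 2 :=
                pow_le_pow_left₀ (by linarith) (by linarith) 2
              have h7 : q * (1 - 4 * τ ^ 2) ^ 2 ≤ q * (1 - 4 * σ ^ 2) ^ 2 :=
                mul_le_mul_of_nonneg_left h6 hq0.le
              have h8 : 493485 / 100000 * σ ≤ 493485 / 100000 * τ :=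
                mul_le_mul_of_nonneg_left ht.le (by norm_num)
              linarith
          · exfalso
            have hb2 : Nat.beq j 0 = false := by
              rw [← Bool.not_eq_true, Nat.beq_eq]; exact hj0
            rw [hb2, cond_false, ble_iff] at hst
            have h1 : t0 * (t0 * t0) * (qn * (RS * (RS * RS))) ≤
                4000000000000000 * (K.dg C 16 j * (j * j)) := hst
            have h2 : (t0 : ℝ) * (t0 * t0) * (qn * (RS * (RS * RS))) ≤
                4000000000000000 * ((cf C j : ℝ) * (j * j)) := by exact_mod_cast h1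
            have hv2 : vtx (1 / (RS : ℝ)) N (cf C) j =
                (1 / (RS : ℝ) * (cf C j : ℝ), 2 * (1 / (RS : ℝ)) * (j : ℝ)) := by
              unfold vtx
              rw [if_pos (not_le.1 hjN)]
            rw [hv2] at hvm
            simp only at hvm
            have h3 : 1 / (RS : ℝ) * (cf C j : ℝ) * (2 * (1 / (RS : ℝ)) * (j : ℝ)) ^ 2 =
                4 * ((cf C j : ℝ) * (j * j)) / (RS : ℝ) ^ 3 := by
              field_simp
              ring
            rw [h3, div_le_iff₀ (by positivity)] at hvm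
            have h4 : ((t0 : ℝ) / 1000) ^ 3 * (q * (RS : ℝ) ^ 3) ≤ θ ^ 3 * (q * (RS : ℝ) ^ 3) := by
              have h5 : ((t0 : ℝ) / 1000) ^ 3 * (q * (RS : ℝ) ^ 3) =
                  (t0 : ℝ) * (t0 * t0) * (qn * (RS * (RS * RS))) / 1000000000000000 := by
                rw [hqdef]; field_simp; ring
              rw [h5, div_le_iff₀ (by norm_num)]
              nlinarith
            have h5 : θ ^ 3 < ((t0 : ℝ) / 1000) ^ 3 := pow_lt_pow_left₀ hc hθ.le (by norm_num)
            have h6 : θ ^ 3 * (q * (RS : ℝ) ^ 3) < ((t0 : ℝ) / 1000) ^ 3 * (q * (RS : ℝ) ^ 3) :=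
              mul_lt_mul_of_pos_right h5 (by positivity)
            linarith
    obtain ⟨lam, η, S, g1, g2, g3, g4, g5, g6⟩ := goal
    refine ⟨lam, η, S, g1, g2, g3, g4, g5, ?_⟩
    have e1 : π * (θ * (q / π)) = θ * q := by field_simp
    rw [hw, e1]
    have e2 : π * η * ((Bn : ℝ) / 1000000 * θ ^ 2) = π * η * ((Bn : ℝ) / 1000000 * θ ^ 2) := rfl
    exact g6
  · rw [div_le_iff₀ hpi]
    linarith
  · rcases hB with h | h
    · exact Or.inl h
    · right
      have e1 : ar U ^ 3 * (q / π) ^ 2 = (ar U ^ 3 * q ^ 2) / π ^ 2 := by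
        rw [div_pow]; ring
      have e2 : ((Bn : ℝ) / 1000000) ^ 3 * w' ^ 2 = (((Bn : ℝ) / 1000000) ^ 3 * (π * w') ^ 2) / π ^ 2 := by
        rw [mul_pow]; field_simp
      rw [e1, e2]
      exact div_le_div_of_nonneg_right h (by positivity)

end SV
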