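import Pool.Agent.Helper779.SV.Stmts2

/-!
# T21: impulses of triangles, shell integral
-/

open MeasureTheory Set Filter Topology
open scoped Real

namespace SV

namespace T21

/-- slicing by the first coordinate -/
theorem slice1 {A : Set (ℝ × ℝ)} (hA : MeasurableSet A) {g : ℝ × ℝ → ℝ} (hg : IntegrableOn g A) :
    ∫ y in A, g y = ∫ x : ℝ, ∫ v in {v : ℝ | (x, v) ∈ A}, g (x, v) := by
  rw [← integral_indicator hA]
  have h1 : Integrable (A.indicator g) ((volume : Measure ℝ).prod volume) :=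
    (integrable_indicator_iff hA).mpr hg
  have h2 := integral_prod _ h1
  rw [← Measure.volume_eq_prod] at h2
  rw [h2]
  congr 1
  ext x
  have hm : MeasurableSet {v : ℝ | (x, v) ∈ A} := hA.preimage measurable_prodMk_left
  rw [← integral_indicator hm]
  rfl

/-- slicing by the second coordinate -/
theorem slice2 {A : Set (ℝ × ℝ)} (hA : MeasurableSet A) {g : ℝ × ℝ → ℝ} (hg : IntegrableOn g A) :
    ∫ y in A, g y = ∫ v : ℝ, ∫ x in {x : ℝ | (x, v) ∈ A}, g (x, v) := by
  rw [← integral_indicator hA]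
  have h1 : Integrable (A.indicator g) ((volume : Measure ℝ).prod volume) :=
    (integrable_indicator_iff hA).mpr hg
  have h2 := integral_prod_symm _ h1
  rw [← Measure.volume_eq_prod] at h2
  rw [h2]
  congr 1
  ext v
  have hm : MeasurableSet {x : ℝ | (x, v) ∈ A} := hA.preimage measurable_prodMk_right
  rw [← integral_indicator hm]
  rfl

/-- bounded measurable sets have integrable second coordinate -/
theorem int_snd {A : Set (ℝ × ℝ)} {a b : ℝ} (hab : ∀ y ∈ A, |y.1| ≤ a ∧ |y.2| ≤ b) :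
    IntegrableOn (fun y : ℝ × ℝ => y.2) A := by
  have h1 : IntegrableOn (fun y : ℝ × ℝ => y.2) (Icc (-a) a ×ˢ Icc (-b) b) :=
    continuous_snd.continuousOn.integrableOn_compact (isCompact_Icc.prod isCompact_Icc)
  refine h1.mono_set ?_
  intro y hy
  have := hab y hy
  exact ⟨⟨(abs_le.mp this.1).1, (abs_le.mp this.1).2⟩, ⟨(abs_le.mp this.2).1, (abs_le.mp this.2).2⟩⟩

theorem meas_sect (X Y X' Y' : ℝ) : MeasurableSet (sect X Y X' Y') := by
  have h : sect X Y X' Y' = {y : ℝ × ℝ | 0 < y.2} ∩ ({y : ℝ × ℝ | |y.1| * Y ≤ X * y.2} ∩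
      {y : ℝ × ℝ | X' * y.2 < |y.1| * Y'}) := rfl
  rw [h]
  refine (measurableSet_lt measurable_const measurable_snd).inter
    ((measurableSet_le ?_ ?_).inter (measurableSet_lt ?_ ?_))
  · exact (measurable_fst.abs).mul_const _
  · exact measurable_snd.const_mul _
  · exact measurable_snd.const_mul _
  · exact (measurable_fst.abs).mul_const _

theorem t_trv : S_trv := by
  intro X Y Y' hX hY hYY'
  set A := sect X Y X Y' ∩ {y : ℝ × ℝ | |y.1| ≤ X} with hAdef
  have hAm : MeasurableSet A := (meas_sect _ _ _ _).inter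
    (measurableSet_le measurable_fst.abs measurable_const)
  have hint : IntegrableOn (fun y : ℝ × ℝ => y.2) A := by
    refine int_snd (a := X) (b := Y') ?_
    rintro y ⟨⟨h0, h1, h2⟩, h3⟩
    refine ⟨h3, ?_⟩
    rw [abs_of_pos h0]
    by_contra hc
    push Not at hc
    have h4 : |y.1| * Y' ≤ X * Y' := mul_le_mul_of_nonneg_right h3 (by linarith)
    have h5 : X * Y' < X * y.2 := mul_lt_mul_of_pos_left hc hX
    linarith
  unfold PP
  rw [slice1 hAm hint]
  have hslice : ∀ x : ℝ, (∫ v in {v : ℝ | (x, v) ∈ A}, v) =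
      (Icc (-X) X).indicator (fun x => x ^ 2 * ((Y' ^ 2 - Y ^ 2) / (2 * X ^ 2))) x := by
    intro x
    by_cases hx : |x| ≤ X
    · rw [indicator_of_mem (show x ∈ Icc (-X) X from ⟨(abs_le.mp hx).1, (abs_le.mp hx).2⟩)]
      have hae : {v : ℝ | (x, v) ∈ A} =ᵐ[volume] Ioc (|x| * Y / X) (|x| * Y' / X) := by
        have hsub : ∀ v : ℝ, v ≠ 0 → v ≠ |x| * Y / X → v ≠ |x| * Y' / X →
            (v ∈ {v : ℝ | (x, v) ∈ A} ↔ v ∈ Ioc (|x| * Y / X) (|x| * Y' / X)) := by
          intro v hv0 hv1 hv2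
          constructor
          · rintro ⟨⟨h0, h1, h2⟩, h3⟩
            simp only at h0 h1 h2 h3
            refine ⟨lt_of_le_of_ne ?_ (Ne.symm hv1), ?_⟩
            · rw [div_le_iff₀ hX]; linarith
            · rw [le_div_iff₀ hX]; linarith
          · rintro ⟨h1, h2⟩
            have h1' : |x| * Y < X * v := by
              rw [div_lt_iff₀ hX] at h1; linarith
            have h2' : X * v < |x| * Y' := by
              have := lt_of_le_of_ne h2 hv2
              rw [lt_div_iff₀ hX] at this; linarith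
            have h3 : 0 ≤ |x| * Y := mul_nonneg (abs_nonneg x) hY
            refine ⟨⟨?_, le_of_lt h1', h2'⟩, hx⟩
            have : 0 < X * v := lt_of_le_of_lt h3 h1'
            exact (mul_pos_iff_of_pos_left hX).mp this
        have hnull : ∀ᵐ v : ℝ, v ≠ 0 ∧ v ≠ |x| * Y / X ∧ v ≠ |x| * Y' / X := by
          have h1 : ∀ c : ℝ, ∀ᵐ v : ℝ, v ≠ c := fun c => by
            have := measure_singleton (μ := (volume : Measure ℝ)) c
            exact compl_mem_ae_iff.mpr this
          filter_upwards [h1 0, h1 (|x| * Y / X), h1 (|x| * Y' / X)] with v a b c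
          exact ⟨a, b, c⟩
        filter_upwards [hnull] with v hv
        exact propext (hsub v hv.1 hv.2.1 hv.2.2)
      rw [setIntegral_congr_set hae, ← intervalIntegral.integral_of_le, integral_id]
      · field_simp
        rw [sq_abs]
        ring
      · have := mul_le_mul_of_nonneg_left (le_of_lt hYY') (abs_nonneg x)
        exact div_le_div_of_nonneg_right this (le_of_lt hX)
    · have hx' : x ∉ Icc (-X) X := fun h => hx (abs_le.mpr ⟨h.1, h.2⟩)
      rw [indicator_of_notMem hx']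
      have : {v : ℝ | (x, v) ∈ A} = ∅ := by
        ext v
        simp only [mem_ofPred_eq, mem_empty_iff_false, iff_false]
        rintro ⟨_, h3⟩
        exact hx h3
      rw [this]
      simp
  simp only
  rw [integral_congr_ae (Eventually.of_forall hslice)]
  rw [integral_indicator measurableSet_Icc, integral_Icc_eq_integral_Ioc,
    ← intervalIntegral.integral_of_le (by linarith), intervalIntegral.integral_mul_const,
    integral_pow]
  field_simp
  ring

theorem vol_abs {a b : ℝ} (ha : 0 ≤ a) (hab : a ≤ b) :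
    (volume {x : ℝ | a < |x| ∧ |x| ≤ b}).toReal = 2 * (b - a) := by
  have h1 : {x : ℝ | a < |x| ∧ |x| ≤ b} = Ioc a b ∪ Ico (-b) (-a) := by
    ext x
    simp only [mem_ofPred_eq, mem_union, mem_Ioc, mem_Ico]
    constructor
    · rintro ⟨h1, h2⟩
      rcases le_total 0 x with h | h
      · rw [abs_of_nonneg h] at h1 h2; left; exact ⟨h1, h2⟩
      · rw [abs_of_nonpos h] at h1 h2; right; constructor <;> linarith
    · rintro (⟨h1, h2⟩ | ⟨h1, h2⟩)
      · rw [abs_of_nonneg (by linarith)]; exact ⟨h1, h2⟩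
      · rw [abs_of_nonpos (by linarith)]; constructor <;> linarith
  have hd : Disjoint (Ioc a b) (Ico (-b) (-a)) := by
    rw [Set.disjoint_left]
    rintro x ⟨h1, h2⟩ ⟨h3, h4⟩
    linarith
  rw [h1, measure_union hd measurableSet_Ico, Real.volume_Ioc, Real.volume_Ico,
    ENNReal.toReal_add ENNReal.ofReal_ne_top ENNReal.ofReal_ne_top,
    ENNReal.toReal_ofReal (by linarith), ENNReal.toReal_ofReal (by linarith)]
  ring

theorem t_trh : S_trh := by
  intro X X' Y hX' hXX' hY
  set A := sect X Y X' Y ∩ {y : ℝ × ℝ | y.2 ≤ Y} with hAdef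
  have hAm : MeasurableSet A := (meas_sect _ _ _ _).inter
    (measurableSet_le measurable_snd measurable_const)
  have hint : IntegrableOn (fun y : ℝ × ℝ => y.2) A := by
    refine int_snd (a := X) (b := Y) ?_
    rintro y ⟨⟨h0, h1, h2⟩, h3⟩
    refine ⟨?_, by rw [abs_of_pos h0]; exact h3⟩
    simp only [mem_ofPred_eq] at h3
    by_contra hc
    push Not at hc
    have h5 : X * Y < |y.1| * Y := mul_lt_mul_of_pos_right hc hY
    have h6 : X * y.2 ≤ X * Y := mul_le_mul_of_nonneg_left h3 (by linarith)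
    linarith
  unfold PP
  rw [slice2 hAm hint]
  have hslice : ∀ v : ℝ, (∫ x in {x : ℝ | (x, v) ∈ A}, v) =
      (Ioc 0 Y).indicator (fun v => v ^ 2 * (2 * (X - X') / Y)) v := by
    intro v
    by_cases hv : v ∈ Ioc 0 Y
    · rw [indicator_of_mem hv, setIntegral_const]
      have h1 : {x : ℝ | (x, v) ∈ A} = {x : ℝ | X' * v / Y < |x| ∧ |x| ≤ X * v / Y} := by
        ext x
        constructor
        · rintro ⟨⟨h0, h1, h2⟩, h3⟩
          simp only at h0 h1 h2 h3
          refine ⟨?_, ?_⟩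
          · rw [div_lt_iff₀ hY]; exact h2
          · rw [le_div_iff₀ hY]; exact h1
        · rintro ⟨h1, h2⟩
          rw [div_lt_iff₀ hY] at h1
          rw [le_div_iff₀ hY] at h2
          exact ⟨⟨hv.1, h2, h1⟩, hv.2⟩
      rw [h1, Measure.real, vol_abs (div_nonneg (mul_nonneg hX' (le_of_lt hv.1)) (le_of_lt hY))
        (div_le_div_of_nonneg_right (mul_le_mul_of_nonneg_right (le_of_lt hXX') (le_of_lt hv.1))
          (le_of_lt hY))]
      rw [smul_eq_mul]
      field_simp
    · rw [indicator_of_notMem hv]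
      have : {x : ℝ | (x, v) ∈ A} = ∅ := by
        ext x
        simp only [mem_ofPred_eq, mem_empty_iff_false, iff_false]
        rintro ⟨⟨h0, _, _⟩, h3⟩
        exact hv ⟨h0, h3⟩
      rw [this]
      simp
  simp only
  rw [integral_congr_ae (Eventually.of_forall hslice)]
  rw [integral_indicator measurableSet_Ioc,
    ← intervalIntegral.integral_of_le (le_of_lt hY), intervalIntegral.integral_mul_const,
    integral_pow]
  field_simp
  ring


theorem fi_of_bdd {A : Set (ℝ × ℝ)} (hm : MeasurableSet A) (hs : A ⊆ UH)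
    (hb : Bornology.IsBounded A) : Fi A := by
  refine ⟨hm, hs, ?_⟩
  obtain ⟨R, hR⟩ := hb.exists_norm_le
  refine int_snd (a := R) (b := R) ?_
  intro y hy
  have h1 := hR y hy
  rw [Prod.norm_def] at h1
  have h2 := max_le_iff.mp h1
  exact ⟨h2.1, h2.2⟩

theorem vol_bdd {A : Set (ℝ × ℝ)} (hb : Bornology.IsBounded A) : volume A ≠ ⊤ :=
  hb.measure_lt_top.ne

theorem meas_dil {A : Set (ℝ × ℝ)} (hm : MeasurableSet A) (r : ℝ) : MeasurableSet (dil r A) := by
  have : Measurable fun x : ℝ × ℝ => (r⁻¹ * x.1, r⁻¹ * x.2) :=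
    (measurable_fst.const_mul _).prodMk (measurable_snd.const_mul _)
  exact this hm

theorem dil_mono_low {U : Set (ℝ × ℝ)} (hs : U ⊆ UH) (hU : Low U) {σ₁ σ₂ : ℝ} (h1 : 0 < σ₁)
    (h2 : σ₁ ≤ σ₂) : dil σ₁ U ⊆ dil σ₂ U := by
  intro x hx
  have h0 : 0 < σ₂ := lt_of_lt_of_le h1 h2
  have hinv : σ₂⁻¹ ≤ σ₁⁻¹ := inv_anti₀ h1 h2
  have hx2 : 0 < σ₁⁻¹ * x.2 := hs hx
  have hx2' : 0 < x.2 := (mul_pos_iff_of_pos_left (inv_pos.mpr h1)).mp hx2
  refine hU _ hx _ ?_ ?_ ?_
  · simp only
    rw [abs_mul, abs_mul, abs_of_pos (inv_pos.mpr h0), abs_of_pos (inv_pos.mpr h1)]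
    exact mul_le_mul_of_nonneg_right hinv (abs_nonneg _)
  · exact mul_pos (inv_pos.mpr h0) hx2'
  · exact mul_le_mul_of_nonneg_right hinv (le_of_lt hx2')

theorem t_shell (hsc : S_scale) : S_shell := by
  intro U n C k ν f Λ σ₁ σ₂ hUo hUs hUb hUl hCm hCd hCc hCov hν hσ₁ hσ₂ _ hk _ _ hint
  have hσ₂0 : 0 < σ₂ := lt_of_lt_of_le hσ₁ hσ₂
  have hFi : ∀ i, Fi (U ∩ C i) := fun i =>
    fi_of_bdd (hUo.measurableSet.inter (hCm i)) (inter_subset_left.trans hUs)
      (hUb.subset inter_subset_left)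
  have hFiU : Fi U := fi_of_bdd hUo.measurableSet hUs hUb
  set D := dil σ₂ U \ dil σ₁ U with hD
  have hDm : MeasurableSet D :=
    (meas_dil hUo.measurableSet σ₂).diff (meas_dil hUo.measurableSet σ₁)
  have hdi : ∀ (r : ℝ), 0 < r → ∀ i, dil r (U ∩ C i) = dil r U ∩ C i := by
    intro r hr i
    have h1 : dil r (U ∩ C i) = dil r U ∩ dil r (C i) := rfl
    rw [h1, hCc i r hr]
  have hDi : ∀ i, D ∩ C i = dil σ₂ (U ∩ C i) \ dil σ₁ (U ∩ C i) := by
    intro i
    rw [hdi σ₂ hσ₂0, hdi σ₁ hσ₁, hD]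
    ext x
    simp only [mem_inter_iff, Set.mem_sdiff]
    tauto
  have hsub : ∀ i, dil σ₁ (U ∩ C i) ⊆ dil σ₂ (U ∩ C i) := by
    intro i
    rw [hdi σ₂ hσ₂0, hdi σ₁ hσ₁]
    exact inter_subset_inter_left _ (dil_mono_low hUs hUl hσ₁ hσ₂)
  have hPi : ∀ i, PP (D ∩ C i) = (σ₂ ^ 3 - σ₁ ^ 3) * PP (U ∩ C i) := by
    intro i
    have h1 := hsc _ (hFi i) σ₁ hσ₁
    have h2 := hsc _ (hFi i) σ₂ hσ₂0
    have h3 : PP (D ∩ C i) = PP (dil σ₂ (U ∩ C i)) - PP (dil σ₁ (U ∩ C i)) := by
      rw [hDi i]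
      unfold PP
      exact setIntegral_sdiff (meas_dil (hFi i).meas σ₁) h2.1.int (hsub i)
    rw [h3, h1.2.1, h2.2.1]
    ring
  -- the part of `U` outside the cones is null
  have hNfi : Fi (U \ ⋃ i ∈ Finset.range n, C i) :=
    fi_of_bdd (hUo.measurableSet.diff (Finset.measurableSet_biUnion _ fun i _ => hCm i))
      (sdiff_subset.trans hUs) (hUb.subset sdiff_subset)
  have hN2 : volume (dil σ₂ (U \ ⋃ i ∈ Finset.range n, C i)) = 0 := by
    have h2 := hsc _ hNfi σ₂ hσ₂0
    have h3 : ar (U \ ⋃ i ∈ Finset.range n, C i) = 0 := by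
      unfold ar; rw [hCov]; rfl
    have h4 : volume (dil σ₂ (U \ ⋃ i ∈ Finset.range n, C i)) ≠ ⊤ := by
      intro h
      have := h2.2.2.2.2.1.mp h
      rw [hCov] at this
      exact ENNReal.zero_ne_top this
    have h5 := h2.2.2.2.1
    rw [h3, mul_zero] at h5
    unfold ar at h5
    rcases (ENNReal.toReal_eq_zero_iff _).mp h5 with h | h
    · exact h
    · exact absurd h h4
  have hDcov : volume (D \ ⋃ i ∈ Finset.range n, C i) = 0 := by
    refine measure_mono_null ?_ hN2
    rintro x ⟨hx1, hx2⟩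
    refine ⟨hx1.1, ?_⟩
    intro hx3
    apply hx2
    rw [mem_iUnion₂] at hx3 ⊢
    obtain ⟨i, hi, hxi⟩ := hx3
    refine ⟨i, hi, ?_⟩
    rw [← hCc i σ₂ hσ₂0]
    exact hxi
  have haeD : (⋃ i ∈ Finset.range n, D ∩ C i) =ᵐ[volume] D := by
    have h1 : (⋃ i ∈ Finset.range n, D ∩ C i) = D \ (D \ ⋃ i ∈ Finset.range n, C i) := by
      rw [← inter_iUnion₂]
      ext x
      simp only [mem_inter_iff, Set.mem_sdiff]
      tauto
    rw [h1]
    exact sdiff_null_ae_eq_self hDcov
  have haeU : (⋃ i ∈ Finset.range n, U ∩ C i) =ᵐ[volume] U := by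
    have h1 : (⋃ i ∈ Finset.range n, U ∩ C i) = U \ (U \ ⋃ i ∈ Finset.range n, C i) := by
      rw [← inter_iUnion₂]
      ext x
      simp only [mem_inter_iff, Set.mem_sdiff]
      tauto
    rw [h1]
    exact sdiff_null_ae_eq_self hCov
  have hPU : PP U = ∑ i ∈ Finset.range n, PP (U ∩ C i) := by
    unfold PP
    rw [← setIntegral_congr_set haeU, integral_biUnion_finset]
    · intro i _; exact (hFi i).meas
    · intro i _ j _ hij
      exact (hCd i j hij).mono inter_subset_right inter_subset_right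
    · intro i _; exact (hFi i).int
  have hfD : ∫ y in D, f y * y.2 = ∑ i ∈ Finset.range n, ∫ y in D ∩ C i, f y * y.2 := by
    rw [← setIntegral_congr_set haeD, integral_biUnion_finset]
    · intro i _; exact hDm.inter (hCm i)
    · intro i _ j _ hij
      exact (hCd i j hij).mono inter_subset_right inter_subset_right
    · intro i _; exact hint.mono_set inter_subset_left
  rw [hfD]
  have hcube : 0 ≤ σ₂ ^ 3 - σ₁ ^ 3 := by
    have := pow_le_pow_left₀ (le_of_lt hσ₁) hσ₂ 3
    linarith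
  have hterm : ∀ i ∈ Finset.range n, (σ₂ ^ 3 - σ₁ ^ 3) *
      (Λ * PP (U ∩ C i) - max 0 (Λ - k i σ₂) * ν i) ≤ ∫ y in D ∩ C i, f y * y.2 := by
    intro i hi
    have hi' := Finset.mem_range.mp hi
    have h1 : (Λ - max 0 (Λ - k i σ₂)) * PP (D ∩ C i) ≤ ∫ y in D ∩ C i, f y * y.2 := by
      unfold PP
      rw [← integral_const_mul]
      have hFiD : IntegrableOn (fun y : ℝ × ℝ => y.2) (D ∩ C i) := by
        rw [hDi i]
        exact (hsc _ (hFi i) σ₂ hσ₂0).1.int.mono_set sdiff_subset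
      refine setIntegral_mono_on (hFiD.const_mul _) (hint.mono_set inter_subset_left)
        (hDm.inter (hCm i)) ?_
      intro y hy
      have hyU : y ∈ dil σ₂ U := hy.1.1
      have hy2 : 0 < y.2 := by
        have : 0 < σ₂⁻¹ * y.2 := hUs hyU
        exact (mul_pos_iff_of_pos_left (inv_pos.mpr hσ₂0)).mp this
      refine mul_le_mul_of_nonneg_right ?_ (le_of_lt hy2)
      have := hk i hi' y ⟨hyU, hy.2⟩
      have h2 := le_max_right 0 (Λ - k i σ₂)
      linarith
    refine le_trans ?_ h1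
    rw [hPi i]
    have h2 : max 0 (Λ - k i σ₂) * PP (U ∩ C i) ≤ max 0 (Λ - k i σ₂) * ν i :=
      mul_le_mul_of_nonneg_left (hν i hi') (le_max_left _ _)
    have h3 := mul_le_mul_of_nonneg_left h2 hcube
    nlinarith
  refine le_trans (le_of_eq ?_) (Finset.sum_le_sum hterm)
  rw [← Finset.mul_sum, Finset.sum_sub_distrib, ← Finset.mul_sum, ← hPU]

end T21

theorem t_trv : S_trv := T21.t_trv
theorem t_trh : S_trh := T21.t_trh
theorem t_shell (hsc : S_scale) : S_shell := T21.t_shell hsc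

end SV
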