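import Pool.Agent.Helper779.SV.Stmts4
import Pool.Agent.Helper779.SV.T14
import Pool.Agent.Helper779.SV.T21
import Pool.Agent.Helper779.SV.T20
import Pool.Agent.Helper779.SV.T25c

/-!
# T26a: fans
-/

open MeasureTheory Set Filter Topology
open scoped Real

namespace SV

namespace T26a

/-! ### the integer function `kT` -/

theorem mn_cast (a b : ℕ) : ((K.mn a b : ℕ) : ℝ) = min (a : ℝ) b := by
  unfold K.mn
  by_cases h : a ≤ b
  · rw [Nat.ble_eq_true_of_le h]
    have : (a : ℝ) ≤ b := by exact_mod_cast h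
    rw [min_eq_left this]
    rfl
  · have : Nat.ble a b = false := by
      rw [← Bool.not_eq_true, Nat.ble_eq]
      exact h
    rw [this]
    have : (b : ℝ) ≤ a := by exact_mod_cast (by omega : b ≤ a)
    rw [min_eq_right this]
    rfl

theorem kN_le {RS Ah Hh g x y : ℕ} (hRS : 0 < RS) (hA : 0 < Ah) (hH : 0 < Hh) (hg : 0 < g)
    (hxy : 0 < x + y) : (K.kN (1000000000000000 * (RS * RS)) Ah Hh g x y : ℝ) / 10000000 ≤
    kpt ((Ah : ℝ) / 100000000 / (RS : ℝ) ^ 2) ((Hh : ℝ) / 100000000 / (RS : ℝ) ^ 2)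
      (((g : ℝ) / 10000 * (1 / (RS : ℝ) * x)) ^ 2) (((g : ℝ) / 10000 * (1 / (RS : ℝ) * y)) ^ 2) := by
  have hR : (0:ℝ) < RS := by exact_mod_cast hRS
  have hA' : (0:ℝ) < Ah := by exact_mod_cast hA
  have hH' : (0:ℝ) < Hh := by exact_mod_cast hH
  have hg' : (0:ℝ) < g := by exact_mod_cast hg
  have hxy' : (0:ℝ) < (x:ℝ) + y := by exact_mod_cast hxy
  have hx0 : (0:ℝ) ≤ x := Nat.cast_nonneg _
  have hy0 : (0:ℝ) ≤ y := Nat.cast_nonneg _
  have h1 : K.kN (1000000000000000 * (RS * RS)) Ah Hh g x y =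
      K.mn (K.mn (1000000000000000 * (RS * RS) / Ah)
        (1000000000000000 * (RS * RS) / (g * g * (x * x) + g * g * (y * y))))
      (K.mn (1000000000000000 * (RS * RS) * ((Ah + (g * g * (x * x) + g * g * (y * y))) *
          (Ah + (g * g * (x * x) + g * g * (y * y))) + 4 * (Ah * (g * g * (x * x)))) /
          ((Ah + (g * g * (x * x) + g * g * (y * y))) * ((Ah + (g * g * (x * x) + g * g * (y * y))) *
          (Ah + (g * g * (x * x) + g * g * (y * y))))))
        (1000000000000000 * (RS * RS) * (3 * ((Hh + (g * g * (x * x) + g * g * (y * y))) *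
          (Hh + (g * g * (x * x) + g * g * (y * y)))) + 4 * (Hh * (g * g * (y * y)))) /
          (3 * ((Hh + (g * g * (x * x) + g * g * (y * y))) * ((Hh + (g * g * (x * x) + g * g * (y * y))) *
          (Hh + (g * g * (x * x) + g * g * (y * y)))))))) := by
    unfold K.kN
    simp only [T25c.fc_eq]
    rfl
  rw [h1, mn_cast, mn_cast, mn_cast, ← min_div_div_right (by norm_num : (0:ℝ) ≤ 10000000),
    ← min_div_div_right (by norm_num : (0:ℝ) ≤ 10000000),
    ← min_div_div_right (by norm_num : (0:ℝ) ≤ 10000000)]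
  unfold kpt
  have hs : (0:ℝ) < g * g * (x * x) + g * g * (y * y) := by
    have : (0:ℝ) < x ^ 2 + y ^ 2 := by nlinarith [sq_nonneg ((x:ℝ) - y)]
    have h2 : (g:ℝ) * g * (x * x) + g * g * (y * y) = g ^ 2 * (x ^ 2 + y ^ 2) := by ring
    rw [h2]
    positivity
  refine min_le_min (min_le_min ?_ ?_) (min_le_min ?_ ?_)
  · refine le_trans (div_le_div_of_nonneg_right Nat.cast_div_le (by norm_num)) (le_of_eq ?_)
    push_cast
    field_simp
    norm_num
  · refine le_trans (div_le_div_of_nonneg_right Nat.cast_div_le (by norm_num)) (le_of_eq ?_)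
    push_cast
    have e : ((g : ℝ) / 10000 * (1 / (RS : ℝ) * x)) ^ 2 + ((g : ℝ) / 10000 * (1 / (RS : ℝ) * y)) ^ 2 =
      (g * g * (x * x) + g * g * (y * y)) / (100000000 * RS ^ 2) := by
      field_simp
      ring
    rw [e]
    generalize (g:ℝ) * g * (x * x) + g * g * (y * y) = s at hs ⊢
    field_simp
    norm_num
  · refine le_trans (div_le_div_of_nonneg_right Nat.cast_div_le (by norm_num)) (le_of_eq ?_)
    push_cast
    unfold J2s
    have e : (Ah : ℝ) / 100000000 / (RS : ℝ) ^ 2 + 0 + ((g : ℝ) / 10000 * (1 / (RS : ℝ) * x)) ^ 2 + ((g : ℝ) / 10000 * (1 / (RS : ℝ) * y)) ^ 2 =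
      (Ah + (g * g * (x * x) + g * g * (y * y))) / (100000000 * RS ^ 2) := by
      field_simp
      ring
    have e2 : 4 * ((Ah : ℝ) / 100000000 / (RS : ℝ) ^ 2) * ((g : ℝ) / 10000 * (1 / (RS : ℝ) * x)) ^ 2 +
        4 / 3 * (0 * ((g : ℝ) / 10000 * (1 / (RS : ℝ) * y)) ^ 2) =
        4 * (Ah * (g * g * (x * x))) / (100000000 * RS ^ 2) ^ 2 := by
      field_simp
      ring
    rw [e, e2]
    have hc : (0:ℝ) < Ah + (g * g * (x * x) + g * g * (y * y)) := by positivity
    generalize (Ah:ℝ) + (g * g * (x * x) + g * g * (y * y)) = c at hc ⊢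
    generalize (Ah:ℝ) * (g * g * (x * x)) = d
    field_simp
    ring
  · refine le_trans (div_le_div_of_nonneg_right Nat.cast_div_le (by norm_num)) (le_of_eq ?_)
    push_cast
    unfold J2s
    have e : 0 + (Hh : ℝ) / 100000000 / (RS : ℝ) ^ 2 + ((g : ℝ) / 10000 * (1 / (RS : ℝ) * x)) ^ 2 + ((g : ℝ) / 10000 * (1 / (RS : ℝ) * y)) ^ 2 =
      (Hh + (g * g * (x * x) + g * g * (y * y))) / (100000000 * RS ^ 2) := by
      field_simp
      ring
    have e2 : 4 * 0 * ((g : ℝ) / 10000 * (1 / (RS : ℝ) * x)) ^ 2 +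
        4 / 3 * (((Hh : ℝ) / 100000000 / (RS : ℝ) ^ 2) * ((g : ℝ) / 10000 * (1 / (RS : ℝ) * y)) ^ 2) =
        4 / 3 * (Hh * (g * g * (y * y))) / (100000000 * RS ^ 2) ^ 2 := by
      field_simp
      ring
    rw [e, e2]
    have hc : (0:ℝ) < Hh + (g * g * (x * x) + g * g * (y * y)) := by positivity
    generalize (Hh:ℝ) + (g * g * (x * x) + g * g * (y * y)) = c at hc ⊢
    generalize (Hh:ℝ) * (g * g * (y * y)) = d
    field_simp
    ring

theorem t_kT : S_kT := by
  intro RS XD YD Ah Hh g t hRS hA hH hg h1 h2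
  have e : K.kT (1000000000000000 * (RS * RS)) Ah Hh g XD YD t =
      K.mn (K.kN (1000000000000000 * (RS * RS)) Ah Hh g (K.dg XD 16 t) (K.dg YD 16 t))
        (K.kN (1000000000000000 * (RS * RS)) Ah Hh g (K.dg XD 16 (t + 1)) (K.dg YD 16 (t + 1))) := by
    unfold K.kT
    simp only [T25c.fc_eq]
  rw [e, mn_cast, ← min_div_div_right (by norm_num : (0:ℝ) ≤ 10000000)]
  exact min_le_min (kN_le hRS hA hH hg h1) (kN_le hRS hA hH hg h2)

/-! ### kernel bound on dilated triangles -/

/-- `kpt` is at least its minimum over the ends when one squared coordinate is fixed and the other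
is between those of the ends -/
theorem kpt_seg {A H a1 a2 b1 b2 τ : ℝ} (hA : 0 < A) (hH : 0 < H) (ha1 : 0 ≤ a1) (ha2 : 0 ≤ a2)
    (hb1 : 0 ≤ b1) (hb2 : 0 ≤ b2) (ha : 0 < a1 + a2) (hb : 0 < b1 + b2) (h0 : 0 ≤ τ) (h1 : τ ≤ 1) :
    min (kpt A H a1 a2) (kpt A H b1 b2) ≤
      kpt A H ((1 - τ) * a1 + τ * b1) ((1 - τ) * a2 + τ * b2) := by
  set m := min (kpt A H a1 a2) (kpt A H b1 b2) with hm
  have hma : m ≤ kpt A H a1 a2 := min_le_left _ _
  have hmb : m ≤ kpt A H b1 b2 := min_le_right _ _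
  have key : ∀ Q1 Q2 : ℝ, 0 ≤ Q1 → 0 ≤ Q2 → 0 < Q1 + Q2 → m ≤ J2s Q1 Q2 a1 a2 → m ≤ J2s Q1 Q2 b1 b2 →
      m ≤ J2s Q1 Q2 ((1 - τ) * a1 + τ * b1) ((1 - τ) * a2 + τ * b2) := by
    intro Q1 Q2 hQ1 hQ2 hQ k1 k2
    unfold J2s at *
    have c0 : 0 < Q1 + Q2 + a1 + a2 := by linarith
    have c1 : 0 < Q1 + Q2 + b1 + b2 := by linarith
    have h1τ : 0 ≤ 1 - τ := by linarith
    have c : 0 < Q1 + Q2 + ((1 - τ) * a1 + τ * b1) + ((1 - τ) * a2 + τ * b2) := by
      have e1 : 0 ≤ (1 - τ) * a1 := mul_nonneg h1τ ha1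
      have e2 : 0 ≤ (1 - τ) * a2 := mul_nonneg h1τ ha2
      have e3 : 0 ≤ τ * b1 := mul_nonneg h0 hb1
      have e4 : 0 ≤ τ * b2 := mul_nonneg h0 hb2
      linarith
    rw [T14.f_iff c0] at k1
    rw [T14.f_iff c1] at k2
    rw [T14.f_iff c]
    have n0 : 0 ≤ 4 * Q1 * a1 + 4 / 3 * (Q2 * a2) := by positivity
    have n1 : 0 ≤ 4 * Q1 * b1 + 4 / 3 * (Q2 * b2) := by positivity
    have h := T14.seg c0 c1 n0 n1 h0 h1 k1 k2
    have e1 : Q1 + Q2 + ((1 - τ) * a1 + τ * b1) + ((1 - τ) * a2 + τ * b2) =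
        (1 - τ) * (Q1 + Q2 + a1 + a2) + τ * (Q1 + Q2 + b1 + b2) := by ring
    have e2 : 4 * Q1 * ((1 - τ) * a1 + τ * b1) + 4 / 3 * (Q2 * ((1 - τ) * a2 + τ * b2)) =
        (1 - τ) * (4 * Q1 * a1 + 4 / 3 * (Q2 * a2)) + τ * (4 * Q1 * b1 + 4 / 3 * (Q2 * b2)) := by ring
    rw [e1, e2]
    exact h
  unfold kpt
  refine le_min (le_min ?_ ?_) (le_min ?_ ?_)
  · exact le_trans hma (le_trans (min_le_left _ _) (min_le_left _ _))
  · have k1 : m ≤ 1 / (a1 + a2) := le_trans hma (le_trans (min_le_left _ _) (min_le_right _ _))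
    have k2 : m ≤ 1 / (b1 + b2) := le_trans hmb (le_trans (min_le_left _ _) (min_le_right _ _))
    rw [le_div_iff₀ ha] at k1
    rw [le_div_iff₀ hb] at k2
    have h1τ : 0 ≤ 1 - τ := by linarith
    have hpos : 0 < (1 - τ) * a1 + τ * b1 + ((1 - τ) * a2 + τ * b2) := by
      rcases eq_or_lt_of_le h0 with h | h
      · rw [← h]; linarith
      · have e1 : 0 ≤ (1 - τ) * (a1 + a2) := mul_nonneg h1τ (le_of_lt ha)
        have e2 : 0 < τ * (b1 + b2) := mul_pos h hb
        nlinarith
    rw [le_div_iff₀ hpos]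
    have e1 := mul_le_mul_of_nonneg_left k1 h1τ
    have e2 := mul_le_mul_of_nonneg_left k2 h0
    linarith
  · exact key A 0 (le_of_lt hA) (le_refl _) (by linarith)
      (le_trans hma (le_trans (min_le_right _ _) (min_le_left _ _)))
      (le_trans hmb (le_trans (min_le_right _ _) (min_le_left _ _)))
  · exact key 0 H (le_refl _) (le_of_lt hH) (by linarith)
      (le_trans hma (le_trans (min_le_right _ _) (min_le_right _ _)))
      (le_trans hmb (le_trans (min_le_right _ _) (min_le_right _ _)))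

/-- between two nonnegative numbers the square is a convex combination of the squares -/
theorem sq_seg {a b θ : ℝ} (ha : 0 ≤ a) (hb : 0 ≤ b) (h0 : 0 ≤ θ) (h1 : θ ≤ 1) :
    ∃ τ : ℝ, 0 ≤ τ ∧ τ ≤ 1 ∧ ((1 - θ) * a + θ * b) ^ 2 = (1 - τ) * a ^ 2 + τ * b ^ 2 := by
  by_cases hab : a = b
  · refine ⟨0, le_refl _, zero_le_one, ?_⟩
    subst hab
    ring
  have hne : b ^ 2 - a ^ 2 ≠ 0 := by
    intro h
    have : (b - a) * (b + a) = 0 := by linarith [h, show (b - a) * (b + a) = b ^ 2 - a ^ 2 by ring]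
    rcases mul_eq_zero.mp this with h2 | h2
    · exact hab (by linarith)
    · exact hab (by linarith)
  set v := (1 - θ) * a + θ * b with hv
  refine ⟨(v ^ 2 - a ^ 2) / (b ^ 2 - a ^ 2), ?_, ?_, ?_⟩
  · rcases lt_or_gt_of_ne hab with h | h
    · refine div_nonneg ?_ ?_
      · have : a ≤ v := by rw [hv]; nlinarith
        nlinarith
      · nlinarith
    · rw [← neg_div_neg_eq]
      refine div_nonneg ?_ ?_
      · have : v ≤ a := by rw [hv]; nlinarith
        have : 0 ≤ v := by
          rw [hv]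
          have := mul_nonneg (show 0 ≤ 1 - θ by linarith) ha
          have := mul_nonneg h0 hb
          linarith
        nlinarith
      · nlinarith
  · rcases lt_or_gt_of_ne hab with h | h
    · rw [div_le_one (by nlinarith)]
      have : v ≤ b := by rw [hv]; nlinarith
      have : 0 ≤ v := by
        rw [hv]
        have := mul_nonneg (show 0 ≤ 1 - θ by linarith) ha
        have := mul_nonneg h0 hb
        linarith
      nlinarith
    · rw [← neg_div_neg_eq, div_le_one (by nlinarith)]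
      have : b ≤ v := by rw [hv]; nlinarith
      nlinarith
  · field_simp
    ring

/-- the fan conditions for one edge, as propositions -/
theorem edge_prop {N C XD YD t : ℕ} (h : K.edge N C XD YD t = true) :
    ∃ k : ℕ, K.dg YD 16 t = 2 * k ∧
      ((K.dg XD 16 t = K.dg XD 16 (t + 1) ∧ K.dg YD 16 (t + 1) = K.dg YD 16 t + 2 ∧ k < N ∧
          cf C k = K.dg XD 16 t) ∨
       (K.dg YD 16 t = K.dg YD 16 (t + 1) ∧ K.dg XD 16 (t + 1) < K.dg XD 16 t ∧ 1 ≤ k ∧ k ≤ N ∧
          K.dg XD 16 t ≤ cf C (k - 1) ∧ cf C k ≤ K.dg XD 16 (t + 1))) := by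
  unfold K.edge at h
  simp only [T25c.fb_eq] at h
  obtain ⟨h1, h⟩ := T25c.cond_and h
  refine ⟨K.dg YD 16 t / 2, Nat.eq_of_beq_eq_true h1, ?_⟩
  cases hX : Nat.beq (K.dg XD 16 t) (K.dg XD 16 (t + 1)) with
  | true =>
    left
    change cond (Nat.beq (K.dg XD 16 t) (K.dg XD 16 (t + 1))) _ _ = true at h
    rw [hX] at h
    obtain ⟨h2, h⟩ := T25c.cond_and h
    obtain ⟨h3, h4⟩ := T25c.cond_and h
    exact ⟨Nat.eq_of_beq_eq_true hX, Nat.eq_of_beq_eq_true h2, Nat.le_of_ble_eq_true h3,
      Nat.eq_of_beq_eq_true h4⟩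
  | false =>
    right
    change cond (Nat.beq (K.dg XD 16 t) (K.dg XD 16 (t + 1))) _ _ = true at h
    rw [hX] at h
    obtain ⟨h2, h⟩ := T25c.cond_and h
    obtain ⟨h3, h⟩ := T25c.cond_and h
    obtain ⟨h4, h⟩ := T25c.cond_and h
    obtain ⟨h5, h⟩ := T25c.cond_and h
    obtain ⟨h6, h7⟩ := T25c.cond_and h
    exact ⟨Nat.eq_of_beq_eq_true h2, Nat.le_of_ble_eq_true h3, Nat.le_of_ble_eq_true h4,
      Nat.le_of_ble_eq_true h5, Nat.le_of_ble_eq_true h6, Nat.le_of_ble_eq_true h7⟩

theorem allN_prop {f : ℕ → Bool} {n : ℕ} (h : K.allN f n = true) : ∀ i < n, f i = true := by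
  induction n with
  | zero => intro i hi; omega
  | succ n ih =>
    have h' : cond (f n) (K.allN f n) false = true := h
    obtain ⟨h1, h2⟩ := T25c.cond_and h'
    intro i hi
    rcases Nat.lt_succ_iff_lt_or_eq.mp hi with h3 | h3
    · exact ih h2 i h3
    · rw [h3]; exact h1

theorem fan_prop {N C T XD YD : ℕ} (h : K.fan N C T XD YD = true) :
    K.dg XD 16 0 = cf C 0 ∧ K.dg YD 16 0 = 0 ∧ K.dg XD 16 T = 0 ∧ K.dg YD 16 T = 2 * N ∧
    ∀ t < T, K.edge N C XD YD t = true := by
  unfold K.fan at h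
  obtain ⟨h1, h⟩ := T25c.cond_and h
  obtain ⟨h2, h⟩ := T25c.cond_and h
  obtain ⟨h3, h⟩ := T25c.cond_and h
  obtain ⟨h4, h5⟩ := T25c.cond_and h
  exact ⟨Nat.eq_of_beq_eq_true h1, Nat.eq_of_beq_eq_true h2, Nat.eq_of_beq_eq_true h3,
    Nat.eq_of_beq_eq_true h4, allN_prop h5⟩

theorem t_ktr (hJv : S_J2v) (hJr : S_J2r) : S_ktr := by
  intro RS N C T XD YD A H σ hCC hfan hH hHA hσ t ht ρ θ hρ hρσ hθ0 hθ1 q y hq hy hy1 hy2
  have hA : 0 < A := lt_of_lt_of_le hH hHA
  have hRS := hCC.rs
  have hR : (0:ℝ) < RS := by exact_mod_cast hRS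
  set X := (bp RS XD YD t).1 with hX
  set Y := (bp RS XD YD t).2 with hY
  set X' := (bp RS XD YD (t + 1)).1 with hX'
  set Y' := (bp RS XD YD (t + 1)).2 with hY'
  have hX0 : 0 ≤ X := by rw [hX]; unfold bp; positivity
  have hY0 : 0 ≤ Y := by rw [hY]; unfold bp; positivity
  have hX'0 : 0 ≤ X' := by rw [hX']; unfold bp; positivity
  have hY'0 : 0 ≤ Y' := by rw [hY']; unfold bp; positivity
  -- the edge
  obtain ⟨k, hk, hedge⟩ := edge_prop ((fan_prop hfan).2.2.2.2 t ht)
  have hends : (X = X' ∨ Y = Y') ∧ 0 < X + Y ∧ 0 < X' + Y' := by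
    rcases hedge with ⟨e1, e2, e3, e4⟩ | ⟨e1, e2, e3, e4, e5, e6⟩
    · have hXp : 0 < X := by
        have h1 := hCC.pos k e3
        rw [e4] at h1
        have h2 : (1:ℝ) ≤ (K.dg XD 16 t : ℝ) := by exact_mod_cast h1
        rw [hX]; unfold bp; positivity
      have hXX : X = X' := by
        rw [hX, hX']; unfold bp; simp only; rw [e1]
      exact ⟨Or.inl hXX, by linarith, by rw [← hXX]; linarith⟩
    · have hYp : 0 < Y := by
        have h2 : (1:ℝ) ≤ (K.dg YD 16 t : ℝ) := by
          have : 1 ≤ K.dg YD 16 t := by omega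
          exact_mod_cast this
        rw [hY]; unfold bp; positivity
      have hYY : Y = Y' := by
        rw [hY, hY']; unfold bp; simp only; rw [e1]
      exact ⟨Or.inr hYY, by linarith, by rw [← hYY]; linarith⟩
  obtain ⟨hor, hpos, hpos'⟩ := hends
  set z1 := (1 - θ) * X + θ * X' with hz1
  set z2 := (1 - θ) * Y + θ * Y' with hz2
  have hz2p : 0 < z2 := by
    rw [hy2] at hy
    exact (mul_pos_iff_of_pos_left hρ).mp hy
  -- step 1 : along the edge
  have h1θ : 0 ≤ 1 - θ := by linarith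
  have step1 : ktr A H σ RS XD YD t ≤ kpt A H ((σ * z1) ^ 2) ((σ * z2) ^ 2) := by
    unfold ktr
    rw [← hX, ← hY, ← hX', ← hY']
    have pa : 0 < (σ * X) ^ 2 + (σ * Y) ^ 2 := by
      have h1 : 0 < σ * X + σ * Y := by rw [← mul_add]; exact mul_pos hσ hpos
      nlinarith [sq_nonneg (σ * X - σ * Y), mul_pos h1 h1]
    have pb : 0 < (σ * X') ^ 2 + (σ * Y') ^ 2 := by
      have h1 : 0 < σ * X' + σ * Y' := by rw [← mul_add]; exact mul_pos hσ hpos'
      nlinarith [sq_nonneg (σ * X' - σ * Y'), mul_pos h1 h1]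
    rcases hor with h | h
    · obtain ⟨τ, t0, t1, hτ⟩ := sq_seg hY0 hY'0 hθ0 hθ1
      have hs := kpt_seg (A := A) (H := H) (τ := τ) hA hH (sq_nonneg (σ * X)) (sq_nonneg (σ * Y)) (sq_nonneg (σ * X'))
        (sq_nonneg (σ * Y')) pa pb t0 t1
      have e1 : (1 - τ) * (σ * X) ^ 2 + τ * (σ * X') ^ 2 = (σ * z1) ^ 2 := by
        rw [hz1, ← h]; ring
      have e2 : (1 - τ) * (σ * Y) ^ 2 + τ * (σ * Y') ^ 2 = (σ * z2) ^ 2 := by
        rw [hz2]; linear_combination (-(σ ^ 2)) * hτ
      rw [e1, e2] at hs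
      exact hs
    · obtain ⟨τ, t0, t1, hτ⟩ := sq_seg hX0 hX'0 hθ0 hθ1
      have hs := kpt_seg (A := A) (H := H) (τ := τ) hA hH (sq_nonneg (σ * X)) (sq_nonneg (σ * Y)) (sq_nonneg (σ * X'))
        (sq_nonneg (σ * Y')) pa pb t0 t1
      have e1 : (1 - τ) * (σ * X) ^ 2 + τ * (σ * X') ^ 2 = (σ * z1) ^ 2 := by
        rw [hz1]; linear_combination (-(σ ^ 2)) * hτ
      have e2 : (1 - τ) * (σ * Y) ^ 2 + τ * (σ * Y') ^ 2 = (σ * z2) ^ 2 := by
        rw [hz2, ← h]; ring
      rw [e1, e2] at hs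
      exact hs
  -- step 2 : along the ray
  set r := ρ / σ with hr
  have hr0 : 0 < r := by positivity
  have hr1 : r ≤ 1 := by rw [hr, div_le_one hσ]; exact hρσ
  set Z : ℝ × ℝ := (σ * z1, σ * z2) with hZ
  have hZ2 : 0 < Z.2 := by rw [hZ]; positivity
  have hrZ : ((r * Z.1, r * Z.2) : ℝ × ℝ) = (|y.1|, y.2) := by
    have hσ' : σ ≠ 0 := ne_of_gt hσ
    rw [hZ, hy1, hy2, hr]
    ext
    · simp only
      field_simp
    · simp only
      field_simp
  have hJabs : ∀ p : ℝ × ℝ, J2 p (|y.1|, y.2) = J2 p y := by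
    intro p
    unfold J2
    simp only [sq_abs]
  have hAs : √A ^ 2 = A := Real.sq_sqrt (le_of_lt hA)
  have hHs : √H ^ 2 = H := Real.sq_sqrt (le_of_lt hH)
  have rA := hJr (√A, 0) Z (by simp only; rw [hAs]; simpa using hA) hZ2 r (le_of_lt hr0) hr1
  have rH := hJr (0, √H) Z (by simp only; rw [hHs]; simpa using hH) hZ2 r (le_of_lt hr0) hr1
  rw [hrZ, hJabs] at rA rH
  have hv := hJv √A √H (Real.sqrt_pos.mpr hA) (Real.sqrt_pos.mpr hH) q y (by rw [hAs, hHs]; exact hq) hy
  refine le_trans step1 (le_trans ?_ hv)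
  have eA : J2 (√A, 0) Z = J2s A 0 ((σ * z1) ^ 2) ((σ * z2) ^ 2) := by
    unfold J2 J2s
    rw [hZ]
    simp only
    rw [hAs]
    norm_num
  have eH : J2 (0, √H) Z = J2s 0 H ((σ * z1) ^ 2) ((σ * z2) ^ 2) := by
    unfold J2 J2s
    rw [hZ]
    simp only
    rw [hHs]
    norm_num
  rw [eA] at rA
  rw [eH] at rH
  simp only at rA rH
  rw [hAs] at rA
  rw [hHs] at rH
  unfold kpt
  refine le_min ?_ (le_min ?_ ?_)
  · refine le_trans (min_le_left _ _) (le_trans (min_le_right _ _) ?_)
    have hyp : 0 < y.1 ^ 2 + y.2 ^ 2 := by positivity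
    refine one_div_le_one_div_of_le hyp ?_
    have h1 : y.1 ^ 2 + y.2 ^ 2 = ρ ^ 2 * (z1 ^ 2 + z2 ^ 2) := by
      rw [← sq_abs y.1, hy1, hy2]; ring
    rw [h1]
    have h2 : (σ * z1) ^ 2 + (σ * z2) ^ 2 = σ ^ 2 * (z1 ^ 2 + z2 ^ 2) := by ring
    rw [h2]
    exact mul_le_mul_of_nonneg_right (pow_le_pow_left₀ (le_of_lt hρ) hρσ 2) (by positivity)
  · refine le_trans (le_min ?_ ?_) rA
    · refine le_trans (min_le_left _ _) (le_trans (min_le_left _ _) (le_of_eq ?_))
      norm_num
    · exact le_trans (min_le_right _ _) (min_le_left _ _)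
  · refine le_trans (le_min ?_ ?_) rH
    · refine le_trans (min_le_left _ _) (le_trans (min_le_left _ _) ?_)
      rw [show (0:ℝ) ^ 2 + H = H by ring]
      exact one_div_le_one_div_of_le hH hHA
    · exact le_trans (min_le_right _ _) (min_le_right _ _)

/-- `y` is counterclockwise from the ray `t` -/
def PT (XD YD t : ℕ) (y : ℝ × ℝ) : Prop :=
  |y.1| * (K.dg YD 16 t : ℝ) ≤ (K.dg XD 16 t : ℝ) * y.2

theorem mem_sec {RS XD YD t : ℕ} (hRS : 0 < RS) {y : ℝ × ℝ} :
    y ∈ sec RS XD YD t ↔ 0 < y.2 ∧ PT XD YD t y ∧ ¬ PT XD YD (t + 1) y := by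
  have hR : (0:ℝ) < 1 / (RS : ℝ) := by
    have : (0:ℝ) < RS := by exact_mod_cast hRS
    positivity
  unfold sec sect bp PT
  simp only [mem_ofPred_eq, not_le]
  have e1 : ∀ a b c d : ℝ, a * (1 / (RS : ℝ) * b) ≤ 1 / (RS : ℝ) * c * d ↔ a * b ≤ c * d := by
    intro a b c d
    have h1 : a * (1 / (RS : ℝ) * b) = 1 / (RS : ℝ) * (a * b) := by ring
    have h2 : 1 / (RS : ℝ) * c * d = 1 / (RS : ℝ) * (c * d) := by ring
    rw [h1, h2]
    exact mul_le_mul_iff_right₀ hR
  have e2 : ∀ a b c d : ℝ, 1 / (RS : ℝ) * c * d < a * (1 / (RS : ℝ) * b) ↔ c * d < a * b := by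
    intro a b c d
    have h1 : a * (1 / (RS : ℝ) * b) = 1 / (RS : ℝ) * (a * b) := by ring
    have h2 : 1 / (RS : ℝ) * c * d = 1 / (RS : ℝ) * (c * d) := by ring
    rw [h1, h2]
    exact mul_lt_mul_iff_right₀ hR
  rw [e1, e2]

theorem PT_step {N C XD YD t : ℕ} (he : K.edge N C XD YD t = true) {y : ℝ × ℝ} (hy : 0 < y.2)
    (h : PT XD YD (t + 1) y) : PT XD YD t y := by
  unfold PT at *
  obtain ⟨k, hk, h1 | h1⟩ := edge_prop he
  · obtain ⟨e1, e2, e3, e4⟩ := h1
    rw [← e1, e2] at h
    push_cast at h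
    have := abs_nonneg y.1
    linarith
  · obtain ⟨e1, e2, e3, e4, e5, e6⟩ := h1
    rw [← e1] at h
    have h2 : (K.dg XD 16 (t + 1) : ℝ) ≤ K.dg XD 16 t := by exact_mod_cast le_of_lt e2
    have h3 := mul_le_mul_of_nonneg_right h2 (le_of_lt hy)
    linarith

theorem PT_anti {N C T XD YD : ℕ} (he : ∀ t < T, K.edge N C XD YD t = true) {y : ℝ × ℝ}
    (hy : 0 < y.2) {s t : ℕ} (hst : s ≤ t) (htT : t ≤ T) (h : PT XD YD t y) : PT XD YD s y := by
  induction t with
  | zero =>
    have : s = 0 := by omega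
    rw [this]; exact h
  | succ t ih =>
    rcases Nat.eq_or_lt_of_le hst with h1 | h1
    · rw [h1]; exact h
    · exact ih (by omega) (by omega) (PT_step (he t (by omega)) hy h)

theorem PP_le {U B : Set (ℝ × ℝ)} (hB : Fi B) (h : U ⊆ B) : PP U ≤ PP B := T20.PP_mono hB h

theorem t_fan (htv : S_trv) (hth : S_trh) : S_fan := by
  intro RS N C T XD YD hCC hfan
  have hRS := hCC.rs
  have hR : (0:ℝ) < RS := by exact_mod_cast hRS
  obtain ⟨f1, f2, f3, f4, f5⟩ := fan_prop hfan
  set u : ℝ := 1 / (RS : ℝ) with hu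
  have hu0 : 0 < u := by positivity
  refine ⟨fun t => T21.meas_sect _ _ _ _, ?_, ?_, ?_, ?_⟩
  · -- disjointness
    have key : ∀ t < T, ∀ s < T, t < s → Disjoint (sec RS XD YD t) (sec RS XD YD s) := by
      intro t ht s hs hts
      rw [Set.disjoint_left]
      intro y hy1 hy2
      rw [mem_sec hRS] at hy1 hy2
      exact hy1.2.2 (PT_anti f5 hy1.1 (by omega : t + 1 ≤ s) (by omega) hy2.2.1)
    intro t ht s hs hts
    rcases lt_or_gt_of_ne hts with h | h
    · exact key t ht s hs h
    · exact (key s hs t ht h).symm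
  · -- homogeneity
    intro t r hr
    ext y
    unfold dil
    rw [mem_ofPred_eq, mem_sec hRS, mem_sec hRS]
    unfold PT
    have hri : 0 < r⁻¹ := inv_pos.mpr hr
    simp only [abs_mul, abs_of_pos hri]
    have e0 : 0 < r⁻¹ * y.2 ↔ 0 < y.2 := mul_pos_iff_of_pos_left hri
    have e1 : ∀ b c : ℝ, r⁻¹ * |y.1| * b ≤ c * (r⁻¹ * y.2) ↔ |y.1| * b ≤ c * y.2 := by
      intro b c
      have h1 : r⁻¹ * |y.1| * b = r⁻¹ * (|y.1| * b) := by ring
      have h2 : c * (r⁻¹ * y.2) = r⁻¹ * (c * y.2) := by ring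
      rw [h1, h2]
      exact mul_le_mul_iff_right₀ hri
    rw [e0, e1, e1]
  · -- covering
    intro x hx hx1
    have hx2 : 0 < x.2 := hx
    have h0 : PT XD YD 0 x := by
      unfold PT
      rw [f2]
      simp only [Nat.cast_zero, mul_zero]
      positivity
    have hT : ¬ PT XD YD T x := by
      unfold PT
      rw [f3, f4]
      push_cast
      have h1 : (1:ℝ) ≤ N := by exact_mod_cast hCC.n
      have h2 : 0 < |x.1| := abs_pos.mpr hx1
      have h3 : 0 < |x.1| * (2 * (N:ℝ)) := by positivity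
      rw [zero_mul]
      linarith
    by_contra hno
    push Not at hno
    have : ∀ t ≤ T, PT XD YD t x := by
      intro t
      induction t with
      | zero => intro _; exact h0
      | succ t ih =>
        intro ht
        by_contra hc
        exact hno t (by omega) ((mem_sec hRS).mpr ⟨hx2, ih (by omega), hc⟩)
    exact hT (this T (le_refl _))
  · -- triangles
    intro U hUm hU t ht
    obtain ⟨k, hk, hcase⟩ := edge_prop (f5 t ht)
    have hkR : (K.dg YD 16 t : ℝ) = 2 * k := by rw [hk]; push_cast; ring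
    rcases hcase with ⟨e1, e2, e3, e4⟩ | ⟨e1, e2, e3, e4, e5, e6⟩
    · -- vertical edge
      set X := K.dg XD 16 t with hX
      have hX1 : 1 ≤ X := by rw [← e4]; exact hCC.pos k e3
      have hXR : (1:ℝ) ≤ X := by exact_mod_cast hX1
      have e2R : (K.dg YD 16 (t + 1) : ℝ) = 2 * k + 2 := by rw [e2, hk]; push_cast; ring
      have hk0 : (0:ℝ) ≤ k := Nat.cast_nonneg _
      have hbd : ∀ y ∈ U ∩ sec RS XD YD t, |y.1| ≤ u * X := by
        rintro y ⟨hyU, hys⟩
        rw [mem_sec hRS] at hys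
        obtain ⟨hy2, hy3, -⟩ := hys
        unfold PT at hy3
        rw [← hX, hkR] at hy3
        obtain ⟨-, i, hi, hi1, hi2⟩ := hU hyU
        by_contra hc
        push Not at hc
        have hik : k ≤ i := by
          rcases Nat.eq_zero_or_pos k with h | h
          · omega
          · have hkp : (0:ℝ) < k := by exact_mod_cast h
            have h1 : 2 * u * k < y.2 := by
              have h2 : u * X * (2 * k) < X * y.2 :=
                lt_of_lt_of_le (mul_lt_mul_of_pos_right hc (by positivity)) hy3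
              have h3 : u * X * (2 * k) = X * (2 * u * k) := by ring
              rw [h3] at h2
              exact lt_of_mul_lt_mul_left h2 (by linarith)
            have h4 : 2 * u * k < 2 * u * ((i:ℝ) + 1) := lt_of_lt_of_le h1 hi1
            have h5 : (k:ℝ) < i + 1 := lt_of_mul_lt_mul_left h4 (by positivity)
            have h6 : k < i + 1 := by exact_mod_cast h5
            omega
        have h7 : cf C i ≤ X := by rw [← e4]; exact hCC.anti k i hik
        have h8 : (cf C i : ℝ) ≤ X := by exact_mod_cast h7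
        have h9 := mul_le_mul_of_nonneg_left h8 (le_of_lt hu0)
        linarith
      have hsecform : sec RS XD YD t = sect (u * X) (u * (2 * k)) (u * X) (u * (2 * k + 2)) := by
        unfold sec bp
        simp only
        rw [← e1, hkR, e2R, ← hX]
      constructor
      · have hsub : U ∩ sec RS XD YD t ⊆
            sect (u * X) (u * (2 * k)) (u * X) (u * (2 * k + 2)) ∩ {y | |y.1| ≤ u * X} := by
          intro y hy
          exact ⟨hsecform ▸ hy.2, hbd y hy⟩
        have hFi : Fi (sect (u * X) (u * (2 * k)) (u * X) (u * (2 * k + 2)) ∩ {y | |y.1| ≤ u * X}) := by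
          refine T21.fi_of_bdd ((T21.meas_sect _ _ _ _).inter
            (measurableSet_le measurable_fst.abs measurable_const)) (fun y hy => hy.1.1) ?_
          refine (Metric.isBounded_closedBall (x := (0 : ℝ × ℝ)) (r := u * X + u * (2 * k + 2))).subset ?_
          rintro y ⟨⟨hy1, hy2, hy3⟩, hy4⟩
          have hy4' : |y.1| ≤ u * X := hy4
          have h1 : y.2 < u * (2 * k + 2) := by
            have h2 : u * X * y.2 < u * X * (u * (2 * k + 2)) :=
              lt_of_lt_of_le hy3 (mul_le_mul_of_nonneg_right hy4' (by positivity))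
            exact lt_of_mul_lt_mul_left h2 (by positivity)
          have h3 : 0 ≤ u * X := by positivity
          rw [mem_closedBall_zero_iff, Prod.norm_def]
          refine max_le ?_ ?_
          · rw [Real.norm_eq_abs]
            have : 0 ≤ u * (2 * (k:ℝ) + 2) := by positivity
            linarith
          · rw [Real.norm_eq_abs, abs_of_pos hy1]
            linarith
        refine le_trans (PP_le hFi hsub) ?_
        rw [htv (u * X) (u * (2 * k)) (u * (2 * k + 2)) (by positivity) (by positivity) (by nlinarith)]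
        have hn : (K.nu3 XD YD t : ℝ) = 2 * X * (2 * k + (2 * k + 2)) := by
          have h1 : K.nu3 XD YD t = 2 * X * (K.dg YD 16 t + K.dg YD 16 (t + 1)) := by
            unfold K.nu3
            simp only [T25c.fc_eq]
            have : Nat.beq (K.dg XD 16 t) (K.dg XD 16 (t + 1)) = true := by
              rw [← e1]; exact Nat.beq_refl _
            change cond (Nat.beq (K.dg XD 16 t) (K.dg XD 16 (t + 1))) _ _ = _
            rw [this]
            rfl
          rw [h1]
          push_cast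
          rw [hkR, e2R]
        rw [hn, hu]
        apply le_of_eq
        field_simp
        ring
      · rintro y ⟨hyU, hys⟩
        have hyb := hbd y ⟨hyU, hys⟩
        rw [mem_sec hRS] at hys
        obtain ⟨hy2, hy3, hy4⟩ := hys
        unfold PT at hy3 hy4
        rw [← e1, e2R] at hy4
        rw [← hX, hkR] at hy3
        push Not at hy4
        have hyp : 0 < |y.1| := by
          by_contra hc
          have h0 : |y.1| = 0 := le_antisymm (not_lt.mp hc) (abs_nonneg _)
          rw [h0, zero_mul] at hy4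
          have : 0 < (X:ℝ) * y.2 := by positivity
          linarith
        have huX : 0 < u * (X:ℝ) := by positivity
        refine ⟨|y.1| / (u * X), (X * y.2 / |y.1| - 2 * k) / 2, by positivity, ?_, ?_, ?_, ?_, ?_⟩
        · rw [div_le_one huX]; exact hyb
        · have : 2 * (k:ℝ) ≤ X * y.2 / |y.1| := by
            rw [le_div_iff₀ hyp]; linarith
          linarith
        · have : X * y.2 / |y.1| ≤ 2 * k + 2 := by
            rw [div_le_iff₀ hyp]; linarith
          linarith
        · unfold bp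
          simp only
          rw [← e1, ← hX, ← hu]
          field_simp
          ring
        · unfold bp
          simp only
          rw [hkR, e2R, ← hu]
          field_simp
          ring
    · -- horizontal edge
      set X := K.dg XD 16 t with hX
      set X' := K.dg XD 16 (t + 1) with hX'
      have hkp : (1:ℝ) ≤ k := by exact_mod_cast e3
      have hXX : (X':ℝ) < X := by exact_mod_cast e2
      have hX'0 : (0:ℝ) ≤ X' := Nat.cast_nonneg _
      have e1R : (K.dg YD 16 (t + 1) : ℝ) = 2 * k := by rw [← e1, hkR]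
      have hbd : ∀ y ∈ U ∩ sec RS XD YD t, y.2 ≤ 2 * u * k := by
        rintro y ⟨hyU, hys⟩
        rw [mem_sec hRS] at hys
        obtain ⟨hy2, hy3, hy4⟩ := hys
        unfold PT at hy3 hy4
        rw [← hX', e1R] at hy4
        push Not at hy4
        obtain ⟨-, i, hi, hi1, hi2⟩ := hU hyU
        by_contra hc
        push Not at hc
        have h4 : 2 * u * k < 2 * u * ((i:ℝ) + 1) := lt_of_lt_of_le hc hi1
        have h5 : (k:ℝ) < i + 1 := lt_of_mul_lt_mul_left h4 (by positivity)
        have h6 : k < i + 1 := by exact_mod_cast h5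
        have h7 : cf C i ≤ X' := le_trans (hCC.anti k i (by omega)) e6
        have h8 : (cf C i : ℝ) ≤ X' := by exact_mod_cast h7
        have h9 := mul_le_mul_of_nonneg_left h8 (le_of_lt hu0)
        have h10 : |y.1| ≤ u * X' := le_trans hi2 h9
        have h11 : |y.1| * (2 * k) ≤ u * X' * (2 * k) := mul_le_mul_of_nonneg_right h10 (by positivity)
        have h12 : (X':ℝ) * (2 * u * k) ≤ X' * y.2 := mul_le_mul_of_nonneg_left (le_of_lt hc) hX'0
        linarith
      have hsecform : sec RS XD YD t = sect (u * X) (u * (2 * k)) (u * X') (u * (2 * k)) := by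
        unfold sec bp
        simp only
        rw [e1R, hkR]
      constructor
      · have hsub : U ∩ sec RS XD YD t ⊆
            sect (u * X) (u * (2 * k)) (u * X') (u * (2 * k)) ∩ {y | y.2 ≤ u * (2 * k)} := by
          intro y hy
          refine ⟨hsecform ▸ hy.2, ?_⟩
          have := hbd y hy
          change y.2 ≤ u * (2 * k)
          linarith
        have hFi : Fi (sect (u * X) (u * (2 * k)) (u * X') (u * (2 * k)) ∩ {y | y.2 ≤ u * (2 * k)}) := by
          refine T21.fi_of_bdd ((T21.meas_sect _ _ _ _).inter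
            (measurableSet_le measurable_snd measurable_const)) (fun y hy => hy.1.1) ?_
          refine (Metric.isBounded_closedBall (x := (0 : ℝ × ℝ)) (r := u * X + u * (2 * k))).subset ?_
          rintro y ⟨⟨hy1, hy2, hy3⟩, hy4⟩
          have hy4' : y.2 ≤ u * (2 * k) := hy4
          have h1 : |y.1| ≤ u * X := by
            have h2 : |y.1| * (u * (2 * k)) ≤ u * X * (u * (2 * k)) :=
              le_trans hy2 (mul_le_mul_of_nonneg_left hy4' (by positivity))
            exact le_of_mul_le_mul_right h2 (by positivity)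
          rw [mem_closedBall_zero_iff, Prod.norm_def]
          refine max_le ?_ ?_
          · rw [Real.norm_eq_abs]
            have : 0 ≤ u * (2 * (k:ℝ)) := by positivity
            linarith
          · rw [Real.norm_eq_abs, abs_of_pos hy1]
            have : 0 ≤ u * (X:ℝ) := by positivity
            linarith
        refine le_trans (PP_le hFi hsub) ?_
        rw [hth (u * X) (u * X') (u * (2 * k)) (by positivity) (mul_lt_mul_of_pos_left hXX hu0)
          (by positivity)]
        have hn : (K.nu3 XD YD t : ℝ) = 2 * ((X:ℝ) - X') * (2 * k) ^ 2 := by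
          have h1 : K.nu3 XD YD t = 2 * (X - X') * (K.dg YD 16 t * K.dg YD 16 t) := by
            unfold K.nu3
            simp only [T25c.fc_eq]
            have : Nat.beq (K.dg XD 16 t) (K.dg XD 16 (t + 1)) = false := by
              rw [← Bool.not_eq_true, Nat.beq_eq]
              intro h
              rw [← hX, ← hX'] at h
              omega
            change cond (Nat.beq (K.dg XD 16 t) (K.dg XD 16 (t + 1))) _ _ = _
            rw [this]
            rfl
          rw [h1]
          push_cast [Nat.cast_sub (le_of_lt e2)]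
          rw [hkR]
          ring
        rw [hn, hu]
        apply le_of_eq
        field_simp
      · rintro y ⟨hyU, hys⟩
        have hyb := hbd y ⟨hyU, hys⟩
        rw [mem_sec hRS] at hys
        obtain ⟨hy2, hy3, hy4⟩ := hys
        unfold PT at hy3 hy4
        rw [← hX', e1R] at hy4
        rw [← hX, hkR] at hy3
        push Not at hy4
        have huk : 0 < 2 * u * (k:ℝ) := by positivity
        have hXX0 : 0 < (X:ℝ) - X' := by linarith
        refine ⟨y.2 / (2 * u * k), (X - 2 * k * |y.1| / y.2) / (X - X'), by positivity, ?_, ?_, ?_, ?_, ?_⟩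
        · rw [div_le_one huk]; exact hyb
        · refine div_nonneg ?_ (le_of_lt hXX0)
          have : 2 * k * |y.1| / y.2 ≤ X := by
            rw [div_le_iff₀ hy2]; linarith
          linarith
        · rw [div_le_one hXX0]
          have : (X':ℝ) ≤ 2 * k * |y.1| / y.2 := by
            rw [le_div_iff₀ hy2]; linarith
          linarith
        · unfold bp
          simp only
          rw [← hX, ← hX', ← hu]
          field_simp
          ring
        · unfold bp
          simp only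
          rw [hkR, e1R, ← hu]
          field_simp
          ring

end T26a

theorem t_kT : S_kT := T26a.t_kT
theorem t_ktr (hJv : S_J2v) (hJr : S_J2r) : S_ktr := T26a.t_ktr hJv hJr
theorem t_fan (htv : S_trv) (hth : S_trh) : S_fan := T26a.t_fan htv hth

end SV
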