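import Pool.Agent.Helper779.SV.Stmts4

/-!
# T26b: shells with integer data, the half ellipse, the list of cells
-/

open MeasureTheory Set Filter Topology
open scoped Real

namespace SV
namespace T26b

lemma fb_eq (n : ℕ) (f : ℕ → Bool) : K.fb n f = f n := by
  cases n <;> rfl

lemma fc_eq (n : ℕ) (f : ℕ → ℕ) : K.fc n f = f n := by
  cases n <;> rfl

lemma cnd (a b : Bool) : (cond a b false) = true ↔ a = true ∧ b = true := by
  cases a <;> simp

lemma allN_iff (f : ℕ → Bool) (n : ℕ) : K.allN f n = true ↔ ∀ i < n, f i = true := by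
  induction n with
  | zero => exact ⟨fun _ i hi => absurd hi (Nat.not_lt_zero i), fun _ => rfl⟩
  | succ n ih =>
    have h : K.allN f (n + 1) = cond (f n) (K.allN f n) false := rfl
    rw [h, cnd, ih]
    constructor
    · rintro ⟨h1, h2⟩ i hi
      rcases Nat.lt_succ_iff_lt_or_eq.1 hi with h3 | h3
      · exact h2 i h3
      · rw [h3]; exact h1
    · intro h1
      exact ⟨h1 n (Nat.lt_succ_self n), fun i hi => h1 i (Nat.lt_succ_of_lt hi)⟩

lemma sumN_eq (f : ℕ → ℕ) (n : ℕ) : K.sumN f n = ∑ i ∈ Finset.range n, f i := by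
  induction n with
  | zero => rfl
  | succ n ih =>
    have h : K.sumN f (n + 1) = f n + K.sumN f n := rfl
    rw [h, ih, Finset.sum_range_succ, add_comm]

end T26b

open T26b in
theorem t_ucells : S_ucells := by
  intro RS qn An Hn T XD YD GD LD LD' k0 n h k hk0 hk
  unfold K.ucells at h
  rw [allN_iff] at h
  have h1 := h (k - k0) (by omega)
  have e : Nat.add k0 (k - k0) = k := by
    show k0 + (k - k0) = k
    omega
  rw [e] at h1
  simp only [fb_eq] at h1
  exact h1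

open T26b in
theorem t_ell : S_ell := by
  intro RS N C An Hn hCC h
  unfold K.ellok at h
  rw [cnd, cnd, allN_iff] at h
  obtain ⟨h1, h2, h3⟩ := h
  have hH : 0 < Hn := Nat.le_of_ble_eq_true h1
  have hA : Hn ≤ An := Nat.le_of_ble_eq_true h2
  refine ⟨hH, hA, ?_⟩
  have hRS : (0:ℝ) < RS := by exact_mod_cast hCC.rs
  have hHr : (0:ℝ) < Hn := by exact_mod_cast hH
  have hAr : (0:ℝ) < An := by exact_mod_cast lt_of_lt_of_le hH hA
  set E : Set (ℝ × ℝ) := {q | q.1 ^ 2 / ((An : ℝ) / (RS : ℝ) ^ 2) + q.2 ^ 2 / ((Hn : ℝ) / (RS : ℝ) ^ 2) ≤ 1} with hE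
  have hEc : IsClosed E := by
    apply isClosed_le
    · fun_prop
    · fun_prop
  have hsub : stair (1 / (RS : ℝ)) N (cf C) ⊆ E := by
    rintro x ⟨hx0, i, hi, hx2, hx1⟩
    have h4 := Nat.le_of_ble_eq_true (h3 i hi)
    have h5 : (cf C i) * (cf C i) * Hn + 4 * ((i + 1) * (i + 1)) * An ≤ An * Hn := h4
    have h6 : ((cf C i : ℝ)) * (cf C i) * Hn + 4 * (((i:ℝ) + 1) * (i + 1)) * An ≤ An * Hn := by exact_mod_cast h5
    show x.1 ^ 2 / ((An : ℝ) / (RS : ℝ) ^ 2) + x.2 ^ 2 / ((Hn : ℝ) / (RS : ℝ) ^ 2) ≤ 1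
    have h7 : (x.1 * RS) ^ 2 ≤ (cf C i : ℝ) ^ 2 := by
      have : |x.1 * RS| ≤ (cf C i : ℝ) := by
        rw [abs_mul, abs_of_pos hRS]
        calc |x.1| * RS ≤ (1 / (RS : ℝ) * (cf C i : ℝ)) * RS := mul_le_mul_of_nonneg_right hx1 hRS.le
          _ = _ := by field_simp
      rw [← sq_abs]
      exact pow_le_pow_left₀ (abs_nonneg _) this 2
    have h8 : (x.2 * RS) ^ 2 ≤ (2 * ((i:ℝ) + 1)) ^ 2 := by
      have hx0' : 0 < x.2 := hx0
      apply pow_le_pow_left₀ (by positivity)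
      calc x.2 * RS ≤ (2 * (1 / (RS : ℝ)) * ((i : ℝ) + 1)) * RS := mul_le_mul_of_nonneg_right hx2 hRS.le
        _ = _ := by field_simp
    have e1 : x.1 ^ 2 / ((An : ℝ) / (RS : ℝ) ^ 2) + x.2 ^ 2 / ((Hn : ℝ) / (RS : ℝ) ^ 2) =
        (x.1 * RS) ^ 2 / An + (x.2 * RS) ^ 2 / Hn := by
      field_simp
    rw [e1]
    calc (x.1 * RS) ^ 2 / An + (x.2 * RS) ^ 2 / Hn ≤ (cf C i : ℝ) ^ 2 / An + (2 * ((i:ℝ) + 1)) ^ 2 / Hn :=
          add_le_add (div_le_div_of_nonneg_right h7 hAr.le) (div_le_div_of_nonneg_right h8 hHr.le)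
      _ = ((cf C i : ℝ) * (cf C i) * Hn + 4 * (((i:ℝ) + 1) * (i + 1)) * An) / (An * Hn) := by
          field_simp
          ring
      _ ≤ 1 := by
          rw [div_le_one (by positivity)]
          exact h6
  intro q hq
  exact (closure_minimal hsub hEc) hq

namespace T26b

/-- the endpoints of the edges are not the origin -/
lemma edge_pos {RS N C T XD YD : ℕ} (hCC : CC RS N C) (hf : K.fan N C T XD YD = true) {t : ℕ} (ht : t < T) :
    0 < K.dg XD 16 t + K.dg YD 16 t ∧ 0 < K.dg XD 16 (t + 1) + K.dg YD 16 (t + 1) := by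
  unfold K.fan at hf
  simp only [cnd, allN_iff] at hf
  obtain ⟨_, _, _, _, h⟩ := hf
  have he := h t ht
  unfold K.edge at he
  simp only [fb_eq] at he
  rw [cnd] at he
  obtain ⟨h1, h2⟩ := he
  by_cases hX : Nat.beq (K.dg XD 16 t) (K.dg XD 16 (Nat.succ t)) = true
  · rw [hX, cond_true, cnd, cnd] at h2
    obtain ⟨h3, h4, h5⟩ := h2
    have h6 : Nat.succ (Nat.div (K.dg YD 16 t) 2) ≤ N := Nat.le_of_ble_eq_true h4
    have h7 : K.dg C 16 (Nat.div (K.dg YD 16 t) 2) = K.dg XD 16 t := Nat.eq_of_beq_eq_true h5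
    have h8 : 1 ≤ cf C (Nat.div (K.dg YD 16 t) 2) := hCC.pos _ h6
    unfold cf at h8
    have h9 : K.dg XD 16 t = K.dg XD 16 (Nat.succ t) := Nat.eq_of_beq_eq_true hX
    have h10 : K.dg XD 16 (Nat.succ t) = K.dg XD 16 (t + 1) := rfl
    omega
  · rw [Bool.not_eq_true] at hX
    rw [hX, _root_.cond_false, cnd, cnd, cnd, cnd, cnd] at h2
    obtain ⟨h3, h4, h5, h6, h7, h8⟩ := h2
    have h9 : 1 ≤ Nat.div (K.dg YD 16 t) 2 := Nat.le_of_ble_eq_true h5
    have h10 : K.dg YD 16 t = K.dg YD 16 (Nat.succ t) := Nat.eq_of_beq_eq_true h3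
    have h11 : K.dg YD 16 t = 2 * Nat.div (K.dg YD 16 t) 2 := Nat.eq_of_beq_eq_true h1
    have h12 : K.dg YD 16 (Nat.succ t) = K.dg YD 16 (t + 1) := rfl
    omega

lemma SF_eq (R15 Ah Hh g T XD YD Lam : ℕ) : K.SF R15 Ah Hh g T XD YD Lam =
    ∑ t ∈ Finset.range T, (Lam - K.kT R15 Ah Hh g XD YD t) * K.nu3 XD YD t := by
  unfold K.SF
  rw [sumN_eq]
  rfl

lemma cast_sub_le (a b : ℕ) : ((a - b : ℕ) : ℝ) = max 0 ((a : ℝ) - b) := by
  rcases le_total b a with h | h
  · rw [Nat.cast_sub h, max_eq_right]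
    have : (b : ℝ) ≤ a := by exact_mod_cast h
    linarith
  · rw [Nat.sub_eq_zero_of_le h, max_eq_left]
    · simp
    · have : (a : ℝ) ≤ b := by exact_mod_cast h
      linarith

end T26b

open T26b in
theorem t_shellN (hfan : S_fan) (hktr : S_ktr) (hkT : S_kT) (hshell : S_shell) : S_shellN := by
  intro RS N C qn An Hn T XD YD g Lam U f σ₁ σ₂ hCC hfn hH0 hHA hg hUo hUs hUb hUl hUst hPP hσ1 hσ12 hσg
    hf hf0 hfm hfi
  obtain ⟨hmeas, hdisj, hdil, hcov, hgeo⟩ := hfan RS N C T XD YD hCC hfn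
  have hRS : (0:ℝ) < RS := by exact_mod_cast hCC.rs
  have hHr : (0:ℝ) < Hn := by exact_mod_cast hH0
  have hAr : (0:ℝ) < An := by exact_mod_cast lt_of_lt_of_le hH0 hHA
  have hgr : (0:ℝ) < g := by exact_mod_cast hg
  have hσ2 : 0 < σ₂ := lt_of_lt_of_le hσ1 hσ12
  set R15 := 1000000000000000 * (RS * RS) with hR15
  set kk' : ℕ → ℕ := fun t => K.kT R15 (100000000 * An) (100000000 * Hn) g XD YD t with hkk'
  -- the modified function
  have hnull : volume {y : ℝ × ℝ | ¬ (y ∈ UH → ∃ q : ℝ × ℝ, q.1 ^ 2 / ((An : ℝ) / (RS : ℝ) ^ 2) +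
      q.2 ^ 2 / ((Hn : ℝ) / (RS : ℝ) ^ 2) ≤ 1 ∧ J2 q y ≤ f y)} = 0 := hf
  set B := toMeasurable volume {y : ℝ × ℝ | ¬ (y ∈ UH → ∃ q : ℝ × ℝ, q.1 ^ 2 / ((An : ℝ) / (RS : ℝ) ^ 2) +
      q.2 ^ 2 / ((Hn : ℝ) / (RS : ℝ) ^ 2) ≤ 1 ∧ J2 q y ≤ f y)} with hB
  have hBm : MeasurableSet B := measurableSet_toMeasurable _ _
  have hB0 : volume B = 0 := by rw [hB, measure_toMeasurable]; exact hnull
  have hBn : ∀ y, y ∉ B → y ∈ UH → ∃ q : ℝ × ℝ, q.1 ^ 2 / ((An : ℝ) / (RS : ℝ) ^ 2) +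
      q.2 ^ 2 / ((Hn : ℝ) / (RS : ℝ) ^ 2) ≤ 1 ∧ J2 q y ≤ f y := by
    intro y hy
    by_contra hcon
    exact hy (subset_toMeasurable _ _ hcon)
  set M : ℝ := ∑ t ∈ Finset.range T, (kk' t : ℝ) / 10000000 with hM
  have hM0 : 0 ≤ M := Finset.sum_nonneg (fun t _ => by positivity)
  set F : ℝ × ℝ → ℝ := fun y => f y + B.indicator (fun _ => M) y with hF
  have hFm : Measurable F := hfm.add (measurable_const.indicator hBm)
  have hFae : F =ᵐ[volume] f := by
    have : ∀ᵐ y : ℝ × ℝ, y ∉ B := by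
      rw [ae_iff]
      simpa using hB0
    filter_upwards [this] with y hy
    simp [hF, hy]
  have hFf : ∀ y, f y ≤ F y := by
    intro y
    simp only [hF]
    have : 0 ≤ B.indicator (fun _ => M) y := Set.indicator_nonneg (fun _ _ => hM0) y
    linarith
  set Cs : ℕ → Set (ℝ × ℝ) := fun i => if i < T then sec RS XD YD i else ∅ with hCs
  have hCsT : ∀ i < T, Cs i = sec RS XD YD i := fun i hi => if_pos hi
  have main := hshell U T Cs (fun i _ => (kk' i : ℝ) / 10000000)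
    (fun i => (K.nu3 XD YD i : ℝ) / (3 * (RS : ℝ) ^ 3)) F ((Lam : ℝ) / 10000000) σ₁ σ₂ hUo hUs hUb hUl
    (by
      intro i
      simp only [hCs]
      split_ifs
      · exact hmeas i
      · exact MeasurableSet.empty)
    (by
      intro i j hij
      simp only [hCs]
      split_ifs with h1 h2
      · exact hdisj i h1 j h2 hij
      · exact Set.disjoint_empty _
      · exact Set.empty_disjoint _
      · exact Set.empty_disjoint _)
    (by
      intro i r hr
      simp only [hCs]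
      split_ifs
      · exact hdil i r hr
      · rfl)
    (by
      apply measure_mono_null (t := {x : ℝ × ℝ | x.1 = 0})
      · intro x hx
        by_contra hx1
        obtain ⟨t, ht, hxt⟩ := hcov x (hUs hx.1) hx1
        apply hx.2
        simp only [Set.mem_iUnion, Finset.mem_range]
        exact ⟨t, ht, by rw [hCsT t ht]; exact hxt⟩
      · have e : {x : ℝ × ℝ | x.1 = 0} = {(0:ℝ)} ×ˢ (Set.univ : Set ℝ) := by
          ext x; simp
        rw [e, Measure.volume_eq_prod, Measure.prod_prod]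
        simp)
    (by
      intro i hi
      rw [hCsT i hi]
      exact (hgeo U hUo.measurableSet hUst i hi).1)
    hσ1 hσ12 (by positivity)
    (by
      intro i hi y hy
      rw [hCsT i hi] at hy
      obtain ⟨hy1, hy2⟩ := hy
      by_cases hyB : y ∈ B
      · have h1 : (kk' i : ℝ) / 10000000 ≤ M :=
          Finset.single_le_sum (f := fun t => (kk' t : ℝ) / 10000000) (fun t _ => by positivity)
            (Finset.mem_range.2 hi)
        have hyU : y ∈ UH := by
          have h2 : 0 < σ₂⁻¹ * y.2 := hUs hy1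
          exact (pos_iff_pos_of_mul_pos h2).1 (inv_pos.2 hσ2)
        have h3 := hf0 y hyU
        simp only [hF, Set.indicator_of_mem hyB]
        linarith
      · have hyU : y ∈ UH := by
          have h2 : 0 < σ₂⁻¹ * y.2 := hUs hy1
          exact (pos_iff_pos_of_mul_pos h2).1 (inv_pos.2 hσ2)
        have hyU' : 0 < y.2 := hyU
        obtain ⟨q, hq1, hq2⟩ := hBn y hyB hyU
        -- the point y/σ₂
        have hy3 : ((σ₂⁻¹ * y.1, σ₂⁻¹ * y.2) : ℝ × ℝ) ∈ sec RS XD YD i := by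
          have h4 : y ∈ dil σ₂ (sec RS XD YD i) := by rw [hdil i σ₂ hσ2]; exact hy2
          exact h4
        obtain ⟨ρ, θ, hρ0, hρ1, hθ0, hθ1, e1, e2⟩ := (hgeo U hUo.measurableSet hUst i hi).2
          (σ₂⁻¹ * y.1, σ₂⁻¹ * y.2) ⟨hy1, hy3⟩
        simp only at e1 e2
        have h5 := hktr RS N C T XD YD ((An : ℝ) / (RS : ℝ) ^ 2) ((Hn : ℝ) / (RS : ℝ) ^ 2) ((g : ℝ) / 10000)
          hCC hfn (by positivity) (by
            apply div_le_div_of_nonneg_right _ (by positivity)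
            exact_mod_cast hHA) (by positivity) i hi (σ₂ * ρ) θ (by positivity)
          (by nlinarith) hθ0 hθ1 q y hq1 hyU'
          (by
            rw [abs_mul, abs_of_pos (inv_pos.2 hσ2), inv_mul_eq_iff_eq_mul₀ hσ2.ne'] at e1
            rw [e1]; ring)
          (by
            rw [inv_mul_eq_iff_eq_mul₀ hσ2.ne'] at e2
            rw [e2]; ring)
        obtain ⟨hp1, hp2⟩ := edge_pos hCC hfn hi
        have h6 := hkT RS XD YD (100000000 * An) (100000000 * Hn) g i hCC.rs (by omega) (by omega) hg hp1 hp2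
        have e3 : ((100000000 * An : ℕ) : ℝ) / 100000000 / (RS : ℝ) ^ 2 = (An : ℝ) / (RS : ℝ) ^ 2 := by
          push_cast; ring
        have e4 : ((100000000 * Hn : ℕ) : ℝ) / 100000000 / (RS : ℝ) ^ 2 = (Hn : ℝ) / (RS : ℝ) ^ 2 := by
          push_cast; ring
        rw [e3, e4] at h6
        exact le_trans h6 (le_trans h5 (le_trans hq2 (hFf y))))
    (by
      intro y hy
      exact le_trans (hf0 y hy) (hFf y))
    hFm
    (by
      apply hfi.congr_fun_ae
      filter_upwards [ae_restrict_of_ae hFae] with y hy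
      rw [hy])
  have hint : ∫ y in dil σ₂ U \ dil σ₁ U, F y * y.2 = ∫ y in dil σ₂ U \ dil σ₁ U, f y * y.2 := by
    apply integral_congr_ae
    filter_upwards [ae_restrict_of_ae hFae] with y hy
    rw [hy]
  rw [hint] at main
  have hσ3 : 0 ≤ σ₂ ^ 3 - σ₁ ^ 3 := by
    have := pow_le_pow_left₀ hσ1.le hσ12 3
    linarith
  have hnonneg : 0 ≤ ∫ y in dil σ₂ U \ dil σ₁ U, f y * y.2 := by
    apply setIntegral_nonneg_ae
    · exact ((hUo.measurableSet.preimage (by fun_prop :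
        Measurable (fun x : ℝ × ℝ => ((σ₂⁻¹ * x.1, σ₂⁻¹ * x.2) : ℝ × ℝ)))).diff
        (hUo.measurableSet.preimage (by fun_prop :
        Measurable (fun x : ℝ × ℝ => ((σ₁⁻¹ * x.1, σ₁⁻¹ * x.2) : ℝ × ℝ)))))
    · refine Filter.Eventually.of_forall (fun y hy => ?_)
      have h2 : 0 < σ₂⁻¹ * y.2 := hUs hy.1
      have h3 : 0 < y.2 := (pos_iff_pos_of_mul_pos h2).1 (inv_pos.2 hσ2)
      exact mul_nonneg (hf0 y h3) h3.le
  -- the integer data
  set SFn := K.SF R15 (100000000 * An) (100000000 * Hn) g T XD YD Lam with hSFn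
  have hDD : K.DD RS qn (100000000 * An) (100000000 * Hn) g T XD YD Lam =
      3 * Lam * (qn * (RS * (RS * RS))) - 1000000 * SFn := rfl
  rcases Nat.eq_zero_or_pos qn with hq0 | hq0
  · rw [hq0]
    simpa using hnonneg
  rcases Nat.le_total (3 * Lam * (qn * (RS * (RS * RS)))) (1000000 * SFn) with hle | hle
  · rw [hDD, Nat.sub_eq_zero_of_le hle]
    simpa using hnonneg
  have hqr : (0:ℝ) < qn := by exact_mod_cast hq0
  have hsum : ∑ i ∈ Finset.range T, max 0 ((Lam : ℝ) / 10000000 - (kk' i : ℝ) / 10000000) *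
      ((K.nu3 XD YD i : ℝ) / (3 * (RS : ℝ) ^ 3)) = (SFn : ℝ) / (30000000 * (RS : ℝ) ^ 3) := by
    rw [hSFn, SF_eq, Nat.cast_sum, Finset.sum_div]
    apply Finset.sum_congr rfl
    intro i _
    rw [Nat.cast_mul, cast_sub_le]
    have : max 0 ((Lam : ℝ) / 10000000 - (kk' i : ℝ) / 10000000) = max 0 ((Lam : ℝ) - kk' i) / 10000000 := by
      rw [← max_div_div_right (by norm_num : (0:ℝ) ≤ 10000000), zero_div, sub_div]
    rw [this]
    simp only [hkk']
    field_simp
    ring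
  rw [hsum] at main
  refine le_trans ?_ main
  apply mul_le_mul_of_nonneg_left _ hσ3
  rw [hDD, Nat.cast_sub hle]
  push_cast
  set S : ℝ := (SFn : ℝ) / (30000000 * (RS : ℝ) ^ 3) with hS
  have hS0 : 0 ≤ S := by positivity
  have hP1 : 1 ≤ PP U / ((qn : ℝ) / 1000000) := by
    rw [le_div_iff₀ (by positivity)]
    linarith
  have e5 : PP U / ((qn : ℝ) / 1000000) * ((3 * (Lam : ℝ) * (qn * (RS * (RS * RS))) - 1000000 * SFn) /
      (30000000000000 * (RS : ℝ) ^ 3)) = (Lam : ℝ) / 10000000 * PP U - PP U / ((qn : ℝ) / 1000000) * S := by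
    rw [hS]
    field_simp
    ring
  rw [e5]
  nlinarith

end SV
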