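import Pool.Agent.Helper779.SV.Stmts

open MeasureTheory Set Filter Topology
open scoped Real

namespace SV

namespace T08

theorem isOpen_box (L : ℝ) : IsOpen (box L) := by
  have h1 : IsOpen {x : ℝ × ℝ | |x.1| < L} := isOpen_lt (by fun_prop) continuous_const
  have h2 : IsOpen {x : ℝ × ℝ | 0 < x.2} := isOpen_lt continuous_const continuous_snd
  have h3 : IsOpen {x : ℝ × ℝ | x.2 < L} := isOpen_lt continuous_snd continuous_const
  exact h1.inter (h2.inter h3)

theorem box_sub (L : ℝ) : box L ⊆ Icc (-L) L ×ˢ Icc 0 L := by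
  rintro x ⟨h1, h2, h3⟩
  exact ⟨⟨(abs_lt.1 h1).1.le, (abs_lt.1 h1).2.le⟩, ⟨h2.le, h3.le⟩⟩

theorem box_UH (L : ℝ) : box L ⊆ UH := fun _ h => h.2.1

theorem cpt (L : ℝ) : IsCompact (Icc (-L) L ×ˢ Icc (0:ℝ) L : Set (ℝ × ℝ)) :=
  isCompact_Icc.prod isCompact_Icc

theorem vol_fin {L : ℝ} {A : Set (ℝ × ℝ)} (h : A ⊆ box L) : volume A ≠ ⊤ :=
  ((measure_mono (h.trans (box_sub L))).trans_lt (cpt L).measure_lt_top).ne

theorem intOn {L : ℝ} {A : Set (ℝ × ℝ)} (h : A ⊆ box L) {f : ℝ × ℝ → ℝ} (hf : Continuous f) :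
    IntegrableOn f A :=
  (hf.continuousOn.integrableOn_compact (cpt L)).mono_set (h.trans (box_sub L))

theorem intOnF {L : ℝ} {A : Set (ℝ × ℝ)} (h : A ⊆ box L) (hm : MeasurableSet A) {f : ℝ × ℝ → ℝ}
    (hf : ContinuousOn f (box L)) {M : ℝ} (hM : ∀ x ∈ box L, |f x| ≤ M) :
    IntegrableOn (fun x => f x * x.2) A := by
  have h2 : IntegrableOn (fun y : ℝ × ℝ => y.2) A := intOn h continuous_snd
  refine Integrable.bdd_mul (c := M) h2 ?_ ?_
  · exact (hf.aestronglyMeasurable (isOpen_box L).measurableSet).mono_measure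
      (Measure.restrict_mono_set _ h)
  · rw [ae_restrict_iff' hm]
    exact Eventually.of_forall fun x hx => hM x (h hx)

theorem fi {L : ℝ} {A : Set (ℝ × ℝ)} (h : A ⊆ box L) (hm : MeasurableSet A) : Fi A :=
  ⟨hm, h.trans (box_UH L), intOn h continuous_snd⟩

theorem vline (t : ℝ) : volume {x : ℝ × ℝ | x.1 = t} = 0 := by
  have h : {x : ℝ × ℝ | x.1 = t} = {t} ×ˢ univ := by
    ext x; simp
  rw [h, Measure.volume_eq_prod, Measure.prod_prod]
  simp

/-- cutting by a vertical line -/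
theorem ivt {L : ℝ} {D : Set (ℝ × ℝ)} (hD : D ⊆ box L) (hm : MeasurableSet D) {q : ℝ}
    (h0 : 0 ≤ q) (h1 : q ≤ PP D) : ∃ D' ⊆ D, MeasurableSet D' ∧ PP D' = q := by
  classical
  have hmt : ∀ t : ℝ, MeasurableSet {x : ℝ × ℝ | x.1 ≤ t} := fun t =>
    measurableSet_le measurable_fst measurable_const
  set F : ℝ → ℝ := fun t => ∫ x in D, ({x : ℝ × ℝ | x.1 ≤ t}.indicator (fun x => x.2) x) with hF
  have hFP : ∀ t, F t = PP (D ∩ {x | x.1 ≤ t}) := by
    intro t
    simp only [hF, PP]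
    rw [setIntegral_indicator (hmt t)]
  have hcont : Continuous F := by
    rw [continuous_iff_continuousAt]
    intro t0
    refine continuousAt_of_dominated (bound := fun x => |x.2|) ?_ ?_ ?_ ?_
    · exact Eventually.of_forall fun t =>
        ((measurable_snd.indicator (hmt t)).aestronglyMeasurable)
    · refine Eventually.of_forall fun t => Eventually.of_forall fun x => ?_
      rw [Real.norm_eq_abs]
      by_cases hx : x ∈ {x : ℝ × ℝ | x.1 ≤ t}
      · rw [indicator_of_mem hx]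
      · rw [indicator_of_notMem hx]; simp
    · exact (intOn hD continuous_snd).abs
    · have hnull : ∀ᵐ x : ℝ × ℝ ∂(volume.restrict D), x.1 ≠ t0 := by
        refine ae_restrict_of_ae ?_
        rw [ae_iff]
        simpa using vline t0
      filter_upwards [hnull] with x hx
      rcases lt_or_gt_of_ne hx with h | h
      · have : (fun t => {x : ℝ × ℝ | x.1 ≤ t}.indicator (fun x => x.2) x) =ᶠ[𝓝 t0]
            fun _ => x.2 := by
          filter_upwards [lt_mem_nhds h] with t ht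
          rw [indicator_of_mem]
          exact ht.le
        exact (continuousAt_congr this).2 continuousAt_const
      · have : (fun t => {x : ℝ × ℝ | x.1 ≤ t}.indicator (fun x => x.2) x) =ᶠ[𝓝 t0]
            fun _ => 0 := by
          filter_upwards [gt_mem_nhds h] with t ht
          rw [indicator_of_notMem]
          simpa using ht
        exact (continuousAt_congr this).2 continuousAt_const
  have hempty : D ∩ {x | x.1 ≤ -|L|} = ∅ := by
    ext x
    simp only [mem_inter_iff, mem_ofPred_eq, mem_empty_iff_false, iff_false, not_and, not_le]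
    intro hx
    have := (abs_lt.1 (hD hx).1).1
    have h2 := le_abs_self L
    linarith
  have hfull : D ∩ {x | x.1 ≤ |L|} = D := by
    apply inter_eq_left.2
    intro x hx
    have := (abs_lt.1 (hD hx).1).2
    have h2 := le_abs_self L
    simp only [mem_ofPred_eq]
    linarith
  have hl : F (-|L|) = 0 := by rw [hFP, hempty]; simp [PP]
  have hr : F (|L|) = PP D := by rw [hFP, hfull]
  have hab : -|L| ≤ |L| := by have := abs_nonneg L; linarith
  have := intermediate_value_Icc hab hcont.continuousOn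
  have hq : q ∈ F '' Icc (-|L|) (|L|) := this (by rw [hl, hr]; exact ⟨h0, h1⟩)
  obtain ⟨t, -, ht⟩ := hq
  exact ⟨D ∩ {x | x.1 ≤ t}, inter_subset_left, hm.inter (hmt t), by rw [← hFP, ht]⟩

theorem PP_nonneg {A : Set (ℝ × ℝ)} (hm : MeasurableSet A) (h : A ⊆ UH) : 0 ≤ PP A :=
  setIntegral_nonneg hm fun _ hx => (h hx).le

theorem PP_pos {A : Set (ℝ × ℝ)} (hA : Fi A) (h : volume A ≠ 0) : 0 < PP A := by
  unfold PP
  rw [setIntegral_pos_iff_support_of_nonneg_ae]
  · refine lt_of_lt_of_le (pos_iff_ne_zero.2 h) (measure_mono ?_)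
    intro x hx
    exact ⟨(hA.sub hx).ne', hx⟩
  · rw [EventuallyLE, ae_restrict_iff' hA.meas]
    exact Eventually.of_forall fun _ hx => (hA.sub hx).le
  · exact hA.int

theorem PP_union {A B : Set (ℝ × ℝ)} (hA : Fi A) (hB : Fi B) (hd : Disjoint A B) :
    PP (A ∪ B) = PP A + PP B := setIntegral_union hd hB.meas hA.int hB.int

theorem PP_diff {A B : Set (ℝ × ℝ)} (hA : Fi A) (hB : MeasurableSet B) (h : B ⊆ A) :
    PP (A \ B) = PP A - PP B := by
  unfold PP
  rw [setIntegral_sdiff hB hA.int h]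


theorem IF_diff {L : ℝ} {A B : Set (ℝ × ℝ)} (hA : A ⊆ box L) (hAm : MeasurableSet A)
    (hB : MeasurableSet B) (h : B ⊆ A) {f : ℝ × ℝ → ℝ} (hf : ContinuousOn f (box L)) {M : ℝ}
    (hM : ∀ x ∈ box L, |f x| ≤ M) :
    ∫ x in A \ B, f x * x.2 = (∫ x in A, f x * x.2) - ∫ x in B, f x * x.2 :=
  setIntegral_sdiff hB (intOnF hA hAm hf hM) h

theorem IF_union {L : ℝ} {A B : Set (ℝ × ℝ)} (hA : A ⊆ box L) (hAm : MeasurableSet A)
    (hB : B ⊆ box L) (hBm : MeasurableSet B) (hd : Disjoint A B) {f : ℝ × ℝ → ℝ}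
    (hf : ContinuousOn f (box L)) {M : ℝ} (hM : ∀ x ∈ box L, |f x| ≤ M) :
    ∫ x in A ∪ B, f x * x.2 = (∫ x in A, f x * x.2) + ∫ x in B, f x * x.2 :=
  setIntegral_union hd hBm (intOnF hA hAm hf hM) (intOnF hB hBm hf hM)

theorem IF_le {L : ℝ} {A : Set (ℝ × ℝ)} (hA : A ⊆ box L) (hAm : MeasurableSet A)
    {f : ℝ × ℝ → ℝ} (hf : ContinuousOn f (box L)) {M : ℝ} (hM : ∀ x ∈ box L, |f x| ≤ M) {c : ℝ}
    (hc : ∀ x ∈ A, f x ≤ c) : ∫ x in A, f x * x.2 ≤ c * PP A := by
  unfold PP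
  rw [← integral_const_mul]
  refine setIntegral_mono_on (intOnF hA hAm hf hM) ((intOn hA continuous_snd).const_mul c) hAm ?_
  intro x hx
  exact mul_le_mul_of_nonneg_right (hc x hx) (hA hx).2.1.le

theorem IF_ge {L : ℝ} {A : Set (ℝ × ℝ)} (hA : A ⊆ box L) (hAm : MeasurableSet A)
    {f : ℝ × ℝ → ℝ} (hf : ContinuousOn f (box L)) {M : ℝ} (hM : ∀ x ∈ box L, |f x| ≤ M) {c : ℝ}
    (hc : ∀ x ∈ A, c ≤ f x) : c * PP A ≤ ∫ x in A, f x * x.2 := by
  unfold PP
  rw [← integral_const_mul]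
  refine setIntegral_mono_on ((intOn hA continuous_snd).const_mul c) (intOnF hA hAm hf hM) hAm ?_
  intro x hx
  exact mul_le_mul_of_nonneg_right (hc x hx) (hA hx).2.1.le

end T08

open T08 in
theorem t_bathstr : S_bathstr := by
  intro L hL f hf hM A hA hAm hP hopt
  obtain ⟨M, hM⟩ := hM
  have hFA : Fi A := fi hA hAm
  have hvA : volume A ≠ 0 := by
    intro h
    have : PP A = 0 := setIntegral_measure_zero _ h
    linarith
  set S : Set ℝ := {c : ℝ | ∀ᵐ x : ℝ × ℝ, x ∈ A → c ≤ f x} with hS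
  have hne : (-M) ∈ S := by
    change ∀ᵐ x : ℝ × ℝ, x ∈ A → -M ≤ f x
    refine Eventually.of_forall fun x hx => ?_
    exact (abs_le.1 (hM x (hA hx))).1
  have hbdd : BddAbove S := by
    refine ⟨M, fun c hc => ?_⟩
    by_contra hcon
    push Not at hcon
    apply hvA
    have h1 : ∀ᵐ x : ℝ × ℝ, x ∉ A := by
      filter_upwards [hc] with x hx hxA
      have h2 := hx hxA
      have h3 := (abs_le.1 (hM x (hA hxA))).2
      linarith
    rw [ae_iff] at h1
    simpa using h1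
  set W : ℝ := sSup S with hW
  refine ⟨W, ?_, ?_⟩
  · have h1 : ∀ n : ℕ, ∀ᵐ x : ℝ × ℝ, x ∈ A → W - 1 / ((n : ℝ) + 1) ≤ f x := by
      intro n
      have hn : 0 < 1 / ((n : ℝ) + 1) := by positivity
      obtain ⟨c, hc, hlt⟩ := exists_lt_of_lt_csSup ⟨_, hne⟩ (show W - 1 / ((n : ℝ) + 1) < sSup S by
        linarith)
      filter_upwards [hc] with x hx hxA
      exact hlt.le.trans (hx hxA)
    rw [← ae_all_iff] at h1
    filter_upwards [h1] with x hx hxA
    have h2 : ∀ n : ℕ, W - 1 / ((n : ℝ) + 1) ≤ f x := fun n => hx n hxA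
    have h3 : Tendsto (fun n : ℕ => W - 1 / ((n : ℝ) + 1)) atTop (𝓝 (W - 0)) :=
      tendsto_const_nhds.sub tendsto_one_div_add_atTop_nhds_zero_nat
    have := le_of_tendsto' h3 h2
    linarith
  · by_contra hcon
    have hex : ∃ n : ℕ, volume ((box L ∩ f ⁻¹' Ioi (W + 1 / ((n : ℝ) + 1))) \ A) ≠ 0 := by
      by_contra hall
      push Not at hall
      apply hcon
      have h1 : volume (⋃ n : ℕ, ((box L ∩ f ⁻¹' Ioi (W + 1 / ((n : ℝ) + 1))) \ A)) = 0 :=
        measure_iUnion_null hall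
      rw [ae_iff]
      refine measure_mono_null ?_ h1
      intro x hx
      simp only [mem_ofPred_eq, Classical.not_imp, not_le] at hx
      obtain ⟨hx1, hx2, hx3⟩ := hx
      obtain ⟨n, hn⟩ := exists_nat_one_div_lt (sub_pos.2 hx3)
      rw [mem_iUnion]
      refine ⟨n, ⟨hx1, ?_⟩, hx2⟩
      simp only [mem_preimage, mem_Ioi]
      linarith
    obtain ⟨n, hn⟩ := hex
    set δ : ℝ := 1 / ((n : ℝ) + 1) with hδ
    have hδ0 : 0 < δ := by positivity
    set D := (box L ∩ f ⁻¹' Ioi (W + δ)) \ A with hD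
    have hDm : MeasurableSet D :=
      (hf.isOpen_inter_preimage (isOpen_box L) isOpen_Ioi).measurableSet.diff hAm
    have hDb : D ⊆ box L := fun x hx => hx.1.1
    set N := A ∩ (box L ∩ f ⁻¹' Iio (W + δ / 2)) with hN
    have hNm : MeasurableSet N :=
      hAm.inter (hf.isOpen_inter_preimage (isOpen_box L) isOpen_Iio).measurableSet
    have hNb : N ⊆ box L := fun x hx => hx.2.1
    have hNv : volume N ≠ 0 := by
      intro h0
      have hmem : W + δ / 2 ∈ S := by
        change ∀ᵐ x : ℝ × ℝ, x ∈ A → W + δ / 2 ≤ f x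
        rw [ae_iff]
        refine measure_mono_null ?_ h0
        intro x hx
        simp only [mem_ofPred_eq, Classical.not_imp, not_le] at hx
        exact ⟨hx.1, hA hx.1, hx.2⟩
      have := le_csSup hbdd hmem
      linarith
    have hD0 := PP_pos (fi hDb hDm) hn
    have hN0 := PP_pos (fi hNb hNm) hNv
    set q := min (PP D) (PP N) with hq
    have hq0 : 0 < q := lt_min hD0 hN0
    obtain ⟨D', hD's, hD'm, hD'q⟩ := ivt hDb hDm hq0.le (min_le_left _ _)
    obtain ⟨N', hN's, hN'm, hN'q⟩ := ivt hNb hNm hq0.le (min_le_right _ _)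
    have hN'A : N' ⊆ A := fun x hx => (hN's hx).1
    have hD'b : D' ⊆ box L := hD's.trans hDb
    have hdis : Disjoint (A \ N') D' := by
      rw [Set.disjoint_left]
      intro x hx hx'
      exact (hD's hx').2 hx.1
    have hPB : PP ((A \ N') ∪ D') = PP A := by
      rw [PP_union (fi (sdiff_subset.trans hA) (hAm.diff hN'm)) (fi hD'b hD'm) hdis,
        PP_diff hFA hN'm hN'A, hN'q, hD'q]
      ring
    have h1 := hopt ((A \ N') ∪ D') (union_subset (sdiff_subset.trans hA) hD'b)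
      ((hAm.diff hN'm).union hD'm) hPB
    rw [IF_union (sdiff_subset.trans hA) (hAm.diff hN'm) hD'b hD'm hdis hf hM,
      IF_diff hA hAm hN'm hN'A hf hM] at h1
    have h2 := IF_le (hN's.trans hNb) hN'm hf hM (c := W + δ / 2) (fun x hx => (hN's hx).2.2.le)
    have h3 := IF_ge hD'b hD'm hf hM (c := W + δ) (fun x hx => (hD's hx).1.2.le)
    rw [hN'q] at h2
    rw [hD'q] at h3
    nlinarith


open T08 in
theorem t_bath : S_bath := by
  intro L hL f hf p hp hple
  obtain ⟨M0, hM0⟩ := (cpt L).exists_bound_of_continuousOn hf.continuousOn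
  set M : ℝ := |M0| with hMdef
  have hM : ∀ x ∈ box L, |f x| ≤ M := fun x hx => by
    have := hM0 x (box_sub L hx)
    rw [Real.norm_eq_abs] at this
    exact this.trans (le_abs_self _)
  have hM1 : 0 ≤ M := abs_nonneg _
  have hmG : ∀ c, MeasurableSet (box L ∩ {x | c < f x}) := fun c =>
    (isOpen_box L).measurableSet.inter (isOpen_lt continuous_const hf).measurableSet
  have hmH : ∀ c, MeasurableSet (box L ∩ {x | c ≤ f x}) := fun c =>
    (isOpen_box L).measurableSet.inter (isClosed_le continuous_const hf).measurableSet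
  have hbm : ∀ {A B : Set (ℝ × ℝ)}, A ⊆ B → B ⊆ box L → MeasurableSet B → PP A ≤ PP B := by
    intro A B hAB hB hBm
    refine setIntegral_mono_set (intOn hB continuous_snd) ?_ hAB.eventuallyLE
    rw [EventuallyLE, ae_restrict_iff' hBm]
    exact Eventually.of_forall fun x hx => (hB hx).2.1.le
  set T : Set ℝ := {c | -M - 1 ≤ c ∧ PP (box L ∩ {x | c < f x}) ≤ p} with hT
  have hTne : T.Nonempty := by
    refine ⟨M, by linarith, ?_⟩
    have : box L ∩ {x | M < f x} = ∅ := by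
      ext x
      simp only [mem_inter_iff, mem_ofPred_eq, mem_empty_iff_false, iff_false, not_and, not_lt]
      intro hx
      exact (abs_le.1 (hM x hx)).2
    rw [this]
    simpa [PP] using hp.le
  have hTb : BddBelow T := ⟨-M - 1, fun c hc => hc.1⟩
  set c : ℝ := sInf T with hc
  have hcM : -M - 1 ≤ c := le_csInf hTne fun c hc => hc.1
  have hIf : IntegrableOn (fun y : ℝ × ℝ => y.2) (box L) := intOn le_rfl continuous_snd
  have claim1 : PP (box L ∩ {x | c < f x}) ≤ p := by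
    have hU : (⋃ n : ℕ, box L ∩ {x | c + 1 / ((n : ℝ) + 1) < f x}) = box L ∩ {x | c < f x} := by
      ext x
      simp only [mem_iUnion, mem_inter_iff, mem_ofPred_eq]
      constructor
      · rintro ⟨n, h1, h2⟩
        have : 0 < 1 / ((n : ℝ) + 1) := by positivity
        exact ⟨h1, by linarith⟩
      · rintro ⟨h1, h2⟩
        obtain ⟨n, hn⟩ := exists_nat_one_div_lt (sub_pos.2 h2)
        exact ⟨n, h1, by linarith⟩
    have hlim := tendsto_setIntegral_of_monotone (μ := (volume : Measure (ℝ × ℝ)))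
      (f := fun y : ℝ × ℝ => y.2) (s := fun n : ℕ => box L ∩ {x | c + 1 / ((n : ℝ) + 1) < f x})
      (fun n => hmG _) (by
        intro n m hnm x hx
        refine ⟨hx.1, ?_⟩
        have h1 : 1 / ((m : ℝ) + 1) ≤ 1 / ((n : ℝ) + 1) := by
          apply one_div_le_one_div_of_le (by positivity)
          have : (n : ℝ) ≤ m := by exact_mod_cast hnm
          linarith
        have h2 := hx.2
        simp only [mem_ofPred_eq] at h2 ⊢
        linarith) (hIf.mono_set (iUnion_subset fun n => inter_subset_left))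
    rw [hU] at hlim
    refine le_of_tendsto' hlim fun n => ?_
    have hn : 0 < 1 / ((n : ℝ) + 1) := by positivity
    obtain ⟨c', hc', hlt⟩ := exists_lt_of_csInf_lt hTne (show sInf T < c + 1 / ((n : ℝ) + 1) by
      linarith)
    refine le_trans (hbm ?_ inter_subset_left (hmG c')) hc'.2
    rintro x ⟨h1, h2⟩
    simp only [mem_ofPred_eq] at h2
    exact ⟨h1, hlt.trans h2⟩
  have claim2 : p ≤ PP (box L ∩ {x | c ≤ f x}) := by
    rcases eq_or_lt_of_le hcM with h | h
    · have : box L ∩ {x | c ≤ f x} = box L := by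
        apply inter_eq_left.2
        intro x hx
        have := (abs_le.1 (hM x hx)).1
        simp only [mem_ofPred_eq]
        linarith
      rw [this]
      exact hple
    · have hI : (⋂ n : ℕ, box L ∩ {x | c - 1 / ((n : ℝ) + 1) < f x}) = box L ∩ {x | c ≤ f x} := by
        ext x
        simp only [mem_iInter, mem_inter_iff, mem_ofPred_eq]
        constructor
        · intro h
          refine ⟨(h 0).1, ?_⟩
          have h3 : Tendsto (fun n : ℕ => c - 1 / ((n : ℝ) + 1)) atTop (𝓝 (c - 0)) :=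
            tendsto_const_nhds.sub tendsto_one_div_add_atTop_nhds_zero_nat
          have := le_of_tendsto' h3 fun n => (h n).2.le
          linarith
        · rintro ⟨h1, h2⟩ n
          have : 0 < 1 / ((n : ℝ) + 1) := by positivity
          exact ⟨h1, by linarith⟩
      have hlim := tendsto_setIntegral_of_antitone (μ := (volume : Measure (ℝ × ℝ)))
        (f := fun y : ℝ × ℝ => y.2) (s := fun n : ℕ => box L ∩ {x | c - 1 / ((n : ℝ) + 1) < f x})
        (fun n => hmG _) (by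
          intro n m hnm x hx
          refine ⟨hx.1, ?_⟩
          have h1 : 1 / ((m : ℝ) + 1) ≤ 1 / ((n : ℝ) + 1) := by
            apply one_div_le_one_div_of_le (by positivity)
            have : (n : ℝ) ≤ m := by exact_mod_cast hnm
            linarith
          have h2 := hx.2
          simp only [mem_ofPred_eq] at h2 ⊢
          linarith) ⟨0, hIf.mono_set inter_subset_left⟩
      rw [hI] at hlim
      have hev : ∀ᶠ n : ℕ in atTop, 1 / ((n : ℝ) + 1) < c - (-M - 1) := by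
        have := tendsto_one_div_add_atTop_nhds_zero_nat (𝕜 := ℝ)
        exact this.eventually (gt_mem_nhds (sub_pos.2 h))
      refine ge_of_tendsto hlim ?_
      filter_upwards [hev] with n hn
      by_contra hcon
      push Not at hcon
      have hmem : c - 1 / ((n : ℝ) + 1) ∈ T := ⟨by linarith, hcon.le⟩
      have h1 := csInf_le hTb hmem
      have h2 : 0 < 1 / ((n : ℝ) + 1) := by positivity
      linarith
  set P1 := box L ∩ {x | c < f x} with hP1
  set E := (box L ∩ {x | c ≤ f x}) \ P1 with hE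
  have hEm : MeasurableSet E := (hmH c).diff (hmG c)
  have hEb : E ⊆ box L := fun x hx => hx.1.1
  have hPE : PP E = PP (box L ∩ {x | c ≤ f x}) - PP P1 := by
    refine PP_diff (fi inter_subset_left (hmH c)) (hmG c) ?_
    rintro x ⟨h1, h2⟩
    simp only [mem_ofPred_eq] at h2
    exact ⟨h1, h2.le⟩
  obtain ⟨Q, hQs, hQm, hQq⟩ := ivt hEb hEm (q := p - PP P1) (by linarith) (by linarith)
  have hQb := hQs.trans hEb
  have hd : Disjoint P1 Q := by
    rw [Set.disjoint_left]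
    intro x hx hx'
    exact (hQs hx').2 hx
  have hAb : P1 ∪ Q ⊆ box L := union_subset inter_subset_left hQb
  have hAm : MeasurableSet (P1 ∪ Q) := (hmG c).union hQm
  have hPA : PP (P1 ∪ Q) = p := by
    rw [PP_union (fi inter_subset_left (hmG c)) (fi hQb hQm) hd, hQq]
    ring
  refine ⟨P1 ∪ Q, hAb, hAm, hPA, ?_⟩
  intro B hB hBm hPB
  have hAc : ∀ x ∈ P1 ∪ Q, c ≤ f x := by
    rintro x (hx | hx)
    · exact hx.2.le
    · exact (hQs hx).1.2
  have hBc : ∀ x ∈ B \ (P1 ∪ Q), f x ≤ c := by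
    rintro x ⟨hx1, hx2⟩
    by_contra hcon
    push Not at hcon
    exact hx2 (Or.inl ⟨hB hx1, hcon⟩)
  have hsplit : B = (B ∩ (P1 ∪ Q)) ∪ (B \ (P1 ∪ Q)) := (inter_union_sdiff B (P1 ∪ Q)).symm
  have hsplitA : P1 ∪ Q = (B ∩ (P1 ∪ Q)) ∪ ((P1 ∪ Q) \ B) := by
    rw [inter_comm]; exact (inter_union_sdiff (P1 ∪ Q) B).symm
  have hm1 : MeasurableSet (B ∩ (P1 ∪ Q)) := hBm.inter hAm
  have hm2 : MeasurableSet (B \ (P1 ∪ Q)) := hBm.diff hAm
  have hm3 : MeasurableSet ((P1 ∪ Q) \ B) := hAm.diff hBm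
  have hb1 : B ∩ (P1 ∪ Q) ⊆ box L := inter_subset_left.trans hB
  have hb2 : B \ (P1 ∪ Q) ⊆ box L := sdiff_subset.trans hB
  have hb3 : (P1 ∪ Q) \ B ⊆ box L := sdiff_subset.trans hAb
  have hd2 : Disjoint (B ∩ (P1 ∪ Q)) (B \ (P1 ∪ Q)) := by
    rw [Set.disjoint_left]; intro x hx hx'; exact hx'.2 hx.2
  have hd3 : Disjoint (B ∩ (P1 ∪ Q)) ((P1 ∪ Q) \ B) := by
    rw [Set.disjoint_left]; intro x hx hx'; exact hx'.2 hx.1
  have e1 : PP B = PP (B ∩ (P1 ∪ Q)) + PP (B \ (P1 ∪ Q)) := by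
    conv_lhs => rw [hsplit]
    exact PP_union (fi hb1 hm1) (fi hb2 hm2) hd2
  have e2 : PP (P1 ∪ Q) = PP (B ∩ (P1 ∪ Q)) + PP ((P1 ∪ Q) \ B) := by
    conv_lhs => rw [hsplitA]
    exact PP_union (fi hb1 hm1) (fi hb3 hm3) hd3
  have e3 : ∫ x in B, f x * x.2 = (∫ x in B ∩ (P1 ∪ Q), f x * x.2) +
      ∫ x in B \ (P1 ∪ Q), f x * x.2 := by
    conv_lhs => rw [hsplit]
    exact IF_union hb1 hm1 hb2 hm2 hd2 hf.continuousOn hM
  have e4 : ∫ x in P1 ∪ Q, f x * x.2 = (∫ x in B ∩ (P1 ∪ Q), f x * x.2) +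
      ∫ x in (P1 ∪ Q) \ B, f x * x.2 := by
    conv_lhs => rw [hsplitA]
    exact IF_union hb1 hm1 hb3 hm3 hd3 hf.continuousOn hM
  have h1 := IF_le hb2 hm2 hf.continuousOn hM hBc
  have h2 := IF_ge hb3 hm3 hf.continuousOn hM (c := c) (fun x hx => hAc x hx.1)
  have h3 : PP (B \ (P1 ∪ Q)) = PP ((P1 ∪ Q) \ B) := by linarith
  rw [e3, e4]
  rw [h3] at h1
  linarith


namespace T08

theorem PP_rect {a b h : ℝ} (hab : a ≤ b) (hh : 0 ≤ h) :
    PP (Ioo a b ×ˢ Ioo 0 h) = (b - a) * (h ^ 2 / 2) := by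
  have e : (fun z : ℝ × ℝ => z.2) = fun z : ℝ × ℝ => (fun _ : ℝ => (1:ℝ)) z.1 * (fun y : ℝ => y) z.2 := by
    funext z; simp
  unfold PP
  rw [e, Measure.volume_eq_prod, setIntegral_prod_mul (fun _ : ℝ => (1:ℝ)) (fun y : ℝ => y)]
  congr 1
  · rw [setIntegral_const]
    simp [hab]
  · rw [← integral_Ioc_eq_integral_Ioo, ← intervalIntegral.integral_of_le hh, integral_id]
    ring

theorem box_eq (L : ℝ) : box L = Ioo (-L) L ×ˢ Ioo 0 L := by
  ext x
  simp only [box, mem_ofPred_eq, mem_prod, mem_Ioo, abs_lt]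

theorem PP_box {L : ℝ} (hL : 0 ≤ L) : PP (box L) = L ^ 3 := by
  rw [box_eq, PP_rect (by linarith) hL]
  ring

theorem IF_mono {A : Set (ℝ × ℝ)} (hA : Fi A) {f g : ℝ × ℝ → ℝ}
    (hf : IntegrableOn (fun x => f x * x.2) A) (hg : IntegrableOn (fun x => g x * x.2) A) {ε : ℝ}
    (h : ∀ x ∈ A, f x ≤ g x + ε) :
    ∫ x in A, f x * x.2 ≤ (∫ x in A, g x * x.2) + ε * PP A := by
  unfold PP
  rw [← integral_const_mul, ← integral_add hg (hA.int.const_mul ε)]
  refine setIntegral_mono_on hf (hg.add (hA.int.const_mul ε)) hA.meas ?_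
  intro x hx
  have := mul_le_mul_of_nonneg_right (h x hx) (hA.sub hx).le
  linarith

theorem contOn (hcont : S_cont) {A : Set (ℝ × ℝ)} (hA : Fi A) (L : ℝ) :
    ContinuousOn (phi A) (box L) :=
  (hcont A hA).mono fun _ hx => hx.2.1.le

theorem phi_le (hphi : S_phibd) {A : Set (ℝ × ℝ)} (hA : Fi A) {x : ℝ × ℝ} (hx : 0 ≤ x.2) :
    |phi A x| ≤ 2 + PP A / π := by
  have h := hphi A hA x hx
  have h1 := h.2.1 1 one_pos
  rw [abs_of_nonneg h.1]
  simpa using h1

theorem EE_le (hphi : S_phibd) (hadd : S_add) {A : Set (ℝ × ℝ)} (hA : Fi A) :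
    EE A ≤ 1 / 2 * ((2 + PP A / π) * PP A) := by
  unfold EE cross
  have h1 : ∫ x in A, phi A x * x.2 ≤ (2 + PP A / π) * PP A := by
    have : ∫ x in A, phi A x * x.2 ≤ ∫ x in A, (2 + PP A / π) * x.2 := by
      refine setIntegral_mono_on (hadd A A hA hA).2.1 (hA.int.const_mul _) hA.meas ?_
      intro x hx
      exact mul_le_mul_of_nonneg_right ((le_abs_self _).trans (phi_le hphi hA (hA.sub hx).le))
        (hA.sub hx).le
    rw [integral_const_mul] at this
    exact this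
  linarith

theorem pol_box {L c : ℝ} (hc : 0 ≤ c) {A : Set (ℝ × ℝ)} (hA : A ⊆ box L) : pol c A ⊆ box L := by
  rintro x (⟨h1, h2 | h2⟩ | ⟨h1, h2, h3⟩)
  · exact hA h2
  · obtain ⟨h3, h4, h5⟩ := hA h2
    simp only [refl] at h3 h4 h5
    rw [abs_lt] at h3
    refine ⟨?_, h4, h5⟩
    rw [abs_lt]
    constructor <;> linarith
  · exact hA h2

theorem polr_box {L c : ℝ} (hc : c ≤ 0) {A : Set (ℝ × ℝ)} (hA : A ⊆ box L) : polr c A ⊆ box L := by
  rintro x (⟨h1, h2 | h2⟩ | ⟨h1, h2, h3⟩)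
  · exact hA h2
  · obtain ⟨h3, h4, h5⟩ := hA h2
    simp only [refl] at h3 h4 h5
    rw [abs_lt] at h3
    refine ⟨?_, h4, h5⟩
    rw [abs_lt]
    constructor <;> linarith
  · exact hA h2

theorem adm_of {L : ℝ} {B : Set (ℝ × ℝ)} (hB : B ⊆ box L) (hm : MeasurableSet B) (hP : PP B = 1) :
    Adm B :=
  ⟨hm, hB.trans (box_UH L), vol_fin hB, (fi hB hm).int, by rw [hP]; exact one_pos⟩

theorem bmax_exists (hcmp : S_compact) (hPD : S_PD) (hadd : S_add) (hphi : S_phibd) {L : ℝ} (hL : 2 ≤ L) : ∃ A, BMax L A := by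
  have hL0 : 0 < L := by linarith
  have hLb : 1 ≤ PP (box L) := by
    rw [PP_box hL0.le]
    nlinarith [sq_nonneg L, mul_pos hL0 hL0]
  set V : Set ℝ := {e | ∃ B ⊆ box L, MeasurableSet B ∧ PP B = 1 ∧ EE B = e} with hV
  have hVne : V.Nonempty := by
    obtain ⟨B, hB, hBm, hBP⟩ := ivt (le_refl (box L)) (isOpen_box L).measurableSet zero_le_one hLb
    exact ⟨EE B, B, hB, hBm, hBP, rfl⟩
  have hVb : BddAbove V := by
    refine ⟨1 / 2 * ((2 + 1 / π) * 1), ?_⟩
    rintro e ⟨B, hB, hBm, hBP, rfl⟩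
    have := EE_le hphi hadd (fi hB hBm)
    rw [hBP] at this
    exact this
  set M := sSup V with hM
  have hseq : ∀ n : ℕ, ∃ B ⊆ box L, MeasurableSet B ∧ PP B = 1 ∧ M - 1 / ((n : ℝ) + 1) < EE B := by
    intro n
    have hn : 0 < 1 / ((n : ℝ) + 1) := by positivity
    obtain ⟨e, ⟨B, hB, hBm, hBP, rfl⟩, hlt⟩ := exists_lt_of_lt_csSup hVne
      (show M - 1 / ((n : ℝ) + 1) < sSup V by linarith)
    exact ⟨B, hB, hBm, hBP, hlt⟩
  choose A hAb hAm hAP hAE using hseq
  obtain ⟨σ, hσ, f, hf, hunif⟩ := hcmp L hL0 A fun n => ⟨hAm n, hAb n⟩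
  obtain ⟨As, hAsb, hAsm, hAsP, hopt⟩ := t_bath L hL0 f hf 1 one_pos hLb
  obtain ⟨M0, hM0⟩ := (cpt L).exists_bound_of_continuousOn hf.continuousOn
  have hfM : ∀ x ∈ box L, |f x| ≤ M0 := fun x hx => hM0 x (box_sub L hx)
  have hint : ∀ {B : Set (ℝ × ℝ)}, B ⊆ box L → MeasurableSet B →
      IntegrableOn (fun x => f x * x.2) B := fun hB hBm => intOnF hB hBm hf.continuousOn hfM
  refine ⟨As, hAsb, adm_of hAsb hAsm hAsP, hAsP, ?_⟩
  intro B hB hBa hBP
  have hBM : EE B ≤ M := le_csSup hVb ⟨B, hB, hBa.meas, hBP, rfl⟩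
  refine hBM.trans ?_
  refine le_of_forall_pos_sub_le ?_
  intro ε hε
  rw [Metric.tendstoUniformlyOn_iff] at hunif
  have h1 := hunif (ε / 4) (by positivity)
  have h2 : ∀ᶠ n : ℕ in atTop, 1 / ((n : ℝ) + 1) < ε / 4 :=
    (tendsto_one_div_add_atTop_nhds_zero_nat (𝕜 := ℝ)).eventually (gt_mem_nhds (by positivity))
  have h3 := hσ.tendsto_atTop.eventually h2
  obtain ⟨n, hn1, hn3⟩ := (h1.and h3).exists
  have hFA := fi (hAb (σ n)) (hAm (σ n))
  have hFs := fi hAsb hAsm
  have hpd := hPD (A (σ n)) As hFA hFs (vol_fin (hAb _)) (vol_fin hAsb)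
  have hc1 : ∫ x in As, f x * x.2 ≤ cross (A (σ n)) As + ε / 4 * PP As := by
    refine IF_mono hFs (hint hAsb hAsm) (hadd _ _ hFA hFs).2.1 ?_
    intro x hx
    have := hn1 x (hAsb hx)
    rw [Real.dist_eq, abs_lt] at this
    linarith [this.2]
  have hc2 : cross (A (σ n)) (A (σ n)) ≤ (∫ x in A (σ n), f x * x.2) + ε / 4 * PP (A (σ n)) := by
    refine IF_mono hFA (hadd _ _ hFA hFA).2.1 (hint (hAb _) (hAm _)) ?_
    intro x hx
    have := hn1 x (hAb _ hx)
    rw [Real.dist_eq, abs_lt] at this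
    linarith [this.1]
  have hc3 := hopt (A (σ n)) (hAb _) (hAm _) (hAP _)
  have hE : cross (A (σ n)) (A (σ n)) = 2 * EE (A (σ n)) := by unfold EE; ring
  have hc4 := hAE (σ n)
  rw [hAsP] at hc1
  rw [hAP] at hc2
  linarith

end T08

open T08 in
theorem t_box (hcmp : S_compact) (hPD : S_PD) (hpol : S_pol) (hadd : S_add) (hphi : S_phibd)
    (hcont : S_cont) : S_box := by
  intro L hL
  refine ⟨bmax_exists hcmp hPD hadd hphi hL, ?_⟩
  rintro A ⟨hAb, hA, hAP, hAmax⟩
  have hL0 : 0 < L := by linarith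
  have hFA : Fi A := fi hAb hA.meas
  constructor
  · intro c
    by_contra hcon
    push Not at hcon
    rcases le_total 0 c with hc | hc
    · obtain ⟨h1, h2, -, -, h5⟩ := (hpol A hA c).1
      have h6 := hAmax (pol c A) (pol_box hc hAb) h1 (by rw [h2, hAP])
      have h7 := h5 hcon.1 hcon.2
      linarith
    · obtain ⟨h1, h2, -, -, h5⟩ := (hpol A hA c).2
      have h6 := hAmax (polr c A) (polr_box hc hAb) h1 (by rw [h2, hAP])
      have h7 := h5 hcon.1 hcon.2
      linarith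
  · refine t_bathstr L hL0 (phi A) (contOn hcont hFA L)
      ⟨2 + PP A / π, fun x hx => phi_le hphi hFA hx.2.1.le⟩ A hAb hA.meas hA.pos ?_
    intro B hB hBm hBP
    rw [hAP] at hBP
    have hFB := fi hB hBm
    have h1 := hPD A B hFA hFB (vol_fin hAb) (vol_fin hB)
    have h2 := hAmax B hB (adm_of hB hBm hBP) hBP
    have h3 : cross A A = 2 * EE A := by unfold EE; ring
    change cross A B ≤ cross A A
    linarith

end SV
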