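import Pool.Agent.Helper779.SV.Stmts
import Pool.Agent.Helper779.SV.T08

open MeasureTheory Set Filter Topology
open scoped Real

namespace SV

namespace T09

open T08

theorem refl_mp (c : ℝ) : MeasurePreserving (refl c) volume volume := by
  have h1 : MeasurePreserving (fun t : ℝ => 2 * c - t) volume volume :=
    Measure.measurePreserving_sub_left volume (2 * c)
  have h2 : MeasurePreserving (id : ℝ → ℝ) volume volume := MeasurePreserving.id _
  have := h1.prod h2
  exact this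

theorem refl_emb (c : ℝ) : MeasurableEmbedding (refl c) := by
  have hinv : ∀ x, refl c (refl c x) = x := by
    intro x; simp [refl]
  have hm : Measurable (refl c) := (refl_mp c).measurable
  exact (MeasurableEquiv.mk ⟨refl c, refl c, hinv, hinv⟩ hm hm).measurableEmbedding

theorem PP_refl (c : ℝ) (A : Set (ℝ × ℝ)) : PP (refl c ⁻¹' A) = PP A := by
  unfold PP
  have h := (refl_mp c).setIntegral_preimage_emb (refl_emb c) (fun y : ℝ × ℝ => y.2) A
  rw [← h]
  rfl

/-- vertical slab -/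
def slab (a R : ℝ) : Set (ℝ × ℝ) := {y | |y.1 - a| < R}

theorem slab_m (a R : ℝ) : MeasurableSet (slab a R) :=
  (isOpen_lt (by fun_prop) continuous_const).measurableSet

theorem fi_sub {A B : Set (ℝ × ℝ)} (hA : Fi A) (hB : MeasurableSet B) (h : B ⊆ A) : Fi B :=
  ⟨hB, h.trans hA.sub, hA.int.mono_set h⟩

theorem PP_mono_ae {A B : Set (ℝ × ℝ)} (hB : Fi B) (h : volume (A \ B) = 0) : PP A ≤ PP B := by
  unfold PP
  refine setIntegral_mono_set hB.int ?_ ?_
  · rw [EventuallyLE, ae_restrict_iff' hB.meas]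
    exact Eventually.of_forall fun x hx => (hB.sub hx).le
  · rw [ae_le_set]; exact h

theorem PP_mono {A B : Set (ℝ × ℝ)} (hB : Fi B) (h : A ⊆ B) : PP A ≤ PP B :=
  PP_mono_ae hB (by rw [sdiff_eq_empty.2 h]; simp)

theorem slab_step {A : Set (ℝ × ℝ)} (hA : Fi A) {τ : ℝ} (hS : StA τ A) {a R c : ℝ}
    (h : (τ ≤ c ∧ c ≤ a - R) ∨ (c ≤ τ ∧ a + R ≤ c)) :
    PP (A ∩ slab a R) ≤ PP (A ∩ slab (2 * c - a) R) := by
  rw [← PP_refl c (A ∩ slab a R)]
  refine PP_mono_ae (fi_sub hA (hA.meas.inter (slab_m _ _)) inter_subset_left) ?_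
  rcases h with ⟨h1, h2⟩ | ⟨h1, h2⟩
  · refine measure_mono_null ?_ ((hS c).1 h1)
    rintro z ⟨⟨hz1, hz2⟩, hz3⟩
    simp only [slab, mem_ofPred_eq, refl] at hz2
    rw [abs_lt] at hz2
    refine ⟨by linarith [hz2.1], fun hz => hz3 ⟨hz, ?_⟩, hz1⟩
    simp only [slab, mem_ofPred_eq]
    rw [abs_lt]
    constructor <;> linarith [hz2.1, hz2.2]
  · have h0 : volume (refl c ⁻¹' (Dp c A)) = 0 :=
      (refl_mp c).quasiMeasurePreserving.preimage_null ((hS c).2 h1)
    refine measure_mono_null ?_ h0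
    rintro z ⟨⟨hz1, hz2⟩, hz3⟩
    simp only [slab, mem_ofPred_eq, refl] at hz2
    rw [abs_lt] at hz2
    have hrr : refl c (refl c z) = z := by simp [refl]
    refine ⟨?_, hz1, ?_⟩
    · simp only [refl]; linarith [hz2.1]
    · rw [hrr]
      intro hz
      refine hz3 ⟨hz, ?_⟩
      simp only [slab, mem_ofPred_eq]
      rw [abs_lt]
      constructor <;> linarith [hz2.1, hz2.2]

theorem slab_bd {A : Set (ℝ × ℝ)} (hA : Fi A) {τ : ℝ} (hS : StA τ A) {a R : ℝ} (hR : 0 < R)
    {N : ℕ} (hN : (N : ℝ) * R ≤ |a - τ|) :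
    ((N : ℝ) + 1) * PP (A ∩ slab a R) ≤ PP A := by
  obtain ⟨s, hs, hs2⟩ : ∃ s : ℝ, (s = 1 ∧ τ ≤ a ∨ s = -1 ∧ a ≤ τ) ∧ |s| = 1 := by
    rcases le_total τ a with h | h
    · exact ⟨1, Or.inl ⟨rfl, h⟩, by simp⟩
    · exact ⟨-1, Or.inr ⟨rfl, h⟩, by simp⟩
  set S : ℕ → Set (ℝ × ℝ) := fun k => A ∩ slab (a - 2 * s * k * R) R with hSdef
  have hSm : ∀ k, MeasurableSet (S k) := fun k => hA.meas.inter (slab_m _ _)
  have h1 : ∀ k ∈ Finset.range (N + 1), PP (A ∩ slab a R) ≤ PP (S k) := by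
    intro k hk
    rcases Nat.eq_zero_or_pos k with h0 | h0
    · subst h0
      simp [hSdef]
    · have hk1 : (1 : ℝ) ≤ k := by exact_mod_cast h0
      have hk2 : (k : ℝ) ≤ N := by
        have := Finset.mem_range.1 hk
        exact_mod_cast Nat.lt_succ_iff.1 this
      have e : a - 2 * s * k * R = 2 * (a - s * k * R) - a := by ring
      simp only [hSdef]
      rw [e]
      refine slab_step hA hS ?_
      have h3 : (k : ℝ) * R ≤ N * R := mul_le_mul_of_nonneg_right hk2 hR.le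
      have h4 : 1 * R ≤ (k : ℝ) * R := mul_le_mul_of_nonneg_right hk1 hR.le
      rcases hs with ⟨rfl, h⟩ | ⟨rfl, h⟩
      · left
        rw [abs_of_nonneg (by linarith)] at hN
        constructor <;> linarith
      · right
        rw [abs_of_nonpos (by linarith)] at hN
        constructor <;> linarith
  have hdisj : Set.Pairwise (↑(Finset.range (N + 1))) (Function.onFun Disjoint S) := by
    intro i _ j _ hij
    simp only [Function.onFun]
    rw [Set.disjoint_left]
    rintro x ⟨_, hx1⟩ ⟨_, hx2⟩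
    simp only [slab, mem_ofPred_eq] at hx1 hx2
    have hij' : (1 : ℝ) ≤ |(i : ℝ) - j| := by
      have : (1 : ℤ) ≤ |(i : ℤ) - j| := by
        apply Int.one_le_abs
        rw [sub_ne_zero]
        exact_mod_cast hij
      exact_mod_cast this
    have h5 : |2 * s * ((i : ℝ) - j) * R| < 2 * R := by
      have e : 2 * s * ((i : ℝ) - j) * R = (x.1 - (a - 2 * s * i * R)) - (x.1 - (a - 2 * s * j * R)) := by
        ring
      rw [e]
      have := abs_sub (x.1 - (a - 2 * s * i * R)) (x.1 - (a - 2 * s * j * R))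
      linarith
    rw [abs_mul, abs_mul, abs_mul, hs2, abs_of_pos (show (0:ℝ) < 2 by norm_num), abs_of_pos hR] at h5
    nlinarith
  have h2 : ∑ k ∈ Finset.range (N + 1), PP (S k) ≤ PP A := by
    have e : ∑ k ∈ Finset.range (N + 1), PP (S k) = PP (⋃ k ∈ Finset.range (N + 1), S k) := by
      unfold PP
      rw [integral_biUnion_finset _ (fun k _ => hSm k) hdisj
        (fun k _ => hA.int.mono_set inter_subset_left)]
    rw [e]
    exact PP_mono hA (iUnion₂_subset fun k _ => inter_subset_left)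
  have h3 := Finset.sum_le_sum h1
  rw [Finset.sum_const, Finset.card_range, nsmul_eq_mul] at h3
  push_cast at h3
  linarith

theorem kap_le (hkk : S_kk) {x y : ℝ × ℝ} (hx : 0 ≤ x.2) (hy : 0 < y.2) {K : ℝ} (hK : 0 < K)
    (h : K ≤ dsq x y) : kap x y ≤ 1 / (π * K) := by
  have hD : 0 < dsq x y := hK.trans_le h
  have h1 := (hkk (dsq x y) (4 * x.2 * y.2) hD (by positivity)).2.2.1
  unfold kap
  rw [one_div_mul_eq_div, div_le_div_iff₀ Real.pi_pos (by positivity)]
  have h2 : 1 / dsq x y ≤ 1 / K := one_div_le_one_div_of_le hK h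
  have h3 : kk (dsq x y) (4 * x.2 * y.2) ≤ 1 / K := h1.trans h2
  have h4 : kk (dsq x y) (4 * x.2 * y.2) * (π * K) ≤ 1 / K * (π * K) :=
    mul_le_mul_of_nonneg_right h3 (by positivity)
  have h5 : 1 / K * (π * K) = π := by field_simp
  linarith

theorem kap_ge (hkk : S_kk) {x y : ℝ × ℝ} (hx : 0 ≤ x.2) (hy : 0 < y.2) (hxy : x ≠ y) {K : ℝ}
    (h : dsq x y + 4 * x.2 * y.2 ≤ K) : 1 / (π * K) ≤ kap x y := by
  have hD : 0 < dsq x y := by
    unfold dsq
    by_contra hcon
    push Not at hcon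
    apply hxy
    have h1 := sq_nonneg (x.1 - y.1)
    have h2 := sq_nonneg (x.2 - y.2)
    have h3 : (x.1 - y.1) ^ 2 = 0 := by linarith
    have h4 : (x.2 - y.2) ^ 2 = 0 := by linarith
    ext
    · have := pow_eq_zero_iff (two_ne_zero) |>.1 h3; linarith
    · have := pow_eq_zero_iff (two_ne_zero) |>.1 h4; linarith
  have hz : 0 ≤ 4 * x.2 * y.2 := by positivity
  have h1 := (hkk (dsq x y) (4 * x.2 * y.2) hD hz).2.2.2.1
  unfold kap
  have hK : 0 < K := by linarith
  have h2 : 1 / K ≤ 1 / (dsq x y + 4 * x.2 * y.2) := one_div_le_one_div_of_le (by linarith) h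
  have h3 : 1 / (π * K) = 1 / π * (1 / K) := by field_simp
  rw [h3]
  exact mul_le_mul_of_nonneg_left (h2.trans h1) (by positivity)

theorem kap_nonneg (hkk : S_kk) {x y : ℝ × ℝ} (hx : 0 ≤ x.2) (hy : 0 < y.2) : 0 ≤ kap x y := by
  by_cases hxy : x = y
  · subst hxy
    have : dsq x x = 0 := by simp [dsq]
    unfold kap kk
    rw [this]
    simp
  · have h := kap_ge hkk hx hy hxy (le_refl _)
    refine le_trans ?_ h
    have : 0 ≤ dsq x y := by unfold dsq; positivity
    positivity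

end T09

open T08 T09 in
theorem t_decay (hkk : S_kk) (hint : S_int) (hphi : S_phibd) (hadd : S_add) : S_decay := by
  intro ε hε
  have hpi := Real.pi_pos
  set r : ℝ := ε / 8 with hr
  have hr0 : 0 < r := by positivity
  obtain ⟨N, hN⟩ : ∃ N : ℕ, 4 / (π * r ^ 2 * ε) ≤ N := exists_nat_ge _
  obtain ⟨R, hR0, hR⟩ : ∃ R : ℝ, 0 < R ∧ 1 / (π * R ^ 2) ≤ ε / 4 := by
    refine ⟨1 + 4 / ε, by positivity, ?_⟩
    rw [div_le_div_iff₀ (by positivity) (by norm_num)]
    have h1 : (1 + 4 / ε) ^ 2 * ε = ε + 8 + 16 / ε := by field_simp; ring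
    have h2 : 0 < 16 / ε := by positivity
    have h3 := Real.pi_gt_three
    nlinarith
  set H : ℝ := 2 * R + 8 / (π * r * ε) with hH
  have hH0 : 0 < H := by positivity
  refine ⟨N * R + H + 1, by positivity, ?_⟩
  intro A τ hA hP hS x hx hfar
  have hFA : Fi A := ⟨hA.meas, hA.sub, hA.int⟩
  have hcase : (N : ℝ) * R ≤ |x.1 - τ| ∨ H ≤ x.2 := by
    by_contra hcon
    push Not at hcon
    have h1 : (x.1 - τ) ^ 2 ≤ (N * R) ^ 2 := by
      rw [← sq_abs]
      exact pow_le_pow_left₀ (abs_nonneg _) hcon.1.le 2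
    have h2 : x.2 ^ 2 ≤ H ^ 2 := pow_le_pow_left₀ hx hcon.2.le 2
    have h3 : 0 ≤ (N : ℝ) * R := by positivity
    nlinarith
  rcases hcase with hc | hc
  · -- far in the horizontal direction
    have hm1 : MeasurableSet (A ∩ slab x.1 R) := hA.meas.inter (slab_m _ _)
    have hm2 : MeasurableSet (A \ slab x.1 R) := hA.meas.diff (slab_m _ _)
    have hF1 := fi_sub hFA hm1 inter_subset_left
    have hF2 := fi_sub hFA hm2 sdiff_subset
    have hdis : Disjoint (A ∩ slab x.1 R) (A \ slab x.1 R) := by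
      rw [Set.disjoint_left]; intro y hy hy'; exact hy'.2 hy.2
    have hsum := ((hadd _ _ hF1 hF2).2.2.2 hdis).2.2.1 x hx
    rw [inter_union_sdiff] at hsum
    have hb := slab_bd hFA hS hR0 hc
    rw [hP] at hb
    have h1 := (hphi _ hF1 x hx).2.1 r hr0
    have h2 : PP (A ∩ slab x.1 R) / (π * r ^ 2) ≤ ε / 4 := by
      rw [div_le_iff₀ (by positivity)]
      have hPn : 0 ≤ PP (A ∩ slab x.1 R) := PP_nonneg hm1 hF1.sub
      have h3 : 4 ≤ N * (π * r ^ 2 * ε) := by
        rwa [div_le_iff₀ (by positivity)] at hN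
      have h4 : 4 * PP (A ∩ slab x.1 R) ≤ (N * (π * r ^ 2 * ε)) * PP (A ∩ slab x.1 R) :=
        mul_le_mul_of_nonneg_right h3 hPn
      have h5 : (N : ℝ) * PP (A ∩ slab x.1 R) ≤ 1 := by nlinarith
      have h6 : (N * (π * r ^ 2 * ε)) * PP (A ∩ slab x.1 R) =
          (π * r ^ 2 * ε) * (N * PP (A ∩ slab x.1 R)) := by ring
      have h7 : (π * r ^ 2 * ε) * (N * PP (A ∩ slab x.1 R)) ≤ (π * r ^ 2 * ε) * 1 :=
        mul_le_mul_of_nonneg_left h5 (by positivity)
      linarith
    have h3 : phi (A \ slab x.1 R) x ≤ 1 / (π * R ^ 2) := by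
      have h4 : phi (A \ slab x.1 R) x ≤ ∫ y in A \ slab x.1 R, 1 / (π * R ^ 2) * y.2 := by
        unfold phi
        refine setIntegral_mono_on (hint _ hF2 x hx) (hF2.int.const_mul _) hm2 ?_
        intro y hy
        have hy2 : 0 < y.2 := hF2.sub hy
        refine mul_le_mul_of_nonneg_right ?_ hy2.le
        refine kap_le hkk hx hy2 (by positivity) ?_
        have h5 : R ≤ |y.1 - x.1| := by
          have := hy.2
          simpa [slab] using this
        have h6 : R ^ 2 ≤ (y.1 - x.1) ^ 2 := by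
          rw [← sq_abs (y.1 - x.1)]
          exact pow_le_pow_left₀ hR0.le h5 2
        unfold dsq
        nlinarith [sq_nonneg (x.2 - y.2)]
      rw [integral_const_mul] at h4
      have h5 : (∫ y in A \ slab x.1 R, y.2) ≤ 1 := by
        have := PP_mono hFA (sdiff_subset (s := A) (t := slab x.1 R))
        rw [hP] at this
        exact this
      have h6 : 1 / (π * R ^ 2) * (∫ y in A \ slab x.1 R, y.2) ≤ 1 / (π * R ^ 2) * 1 :=
        mul_le_mul_of_nonneg_left h5 (by positivity)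
      linarith
    rw [hsum]
    have : 2 * r = ε / 4 := by rw [hr]; ring
    linarith
  · -- far in the vertical direction
    have hset : MeasurableSet {y | dsq x y < R ^ 2} := by
      unfold dsq
      exact (isOpen_lt (by fun_prop) continuous_const).measurableSet
    have h1 := (hphi A hFA x hx).2.2 r R hr0 hR0 hA.fin
    rw [hP] at h1
    have hx0 : 0 < x.2 := hH0.trans_le hc
    have hxR : 2 * R ≤ x.2 := by
      have : 0 < 8 / (π * r * ε) := by positivity
      linarith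
    have h2 : x.2 / 2 * ar (A ∩ {y | dsq x y < R ^ 2}) ≤ 1 := by
      have hm : MeasurableSet (A ∩ {y | dsq x y < R ^ 2}) := hA.meas.inter hset
      have h3 : ∫ y in A ∩ {y | dsq x y < R ^ 2}, x.2 / 2 ≤ PP (A ∩ {y | dsq x y < R ^ 2}) := by
        unfold PP
        refine setIntegral_mono_on ?_ (hFA.int.mono_set inter_subset_left) hm ?_
        · exact integrableOn_const (ne_top_of_le_ne_top hA.fin (measure_mono inter_subset_left))
        · rintro y ⟨hy1, hy2⟩
          simp only [mem_ofPred_eq, dsq] at hy2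
          have h4 : (x.2 - y.2) ^ 2 < R ^ 2 := by nlinarith [sq_nonneg (x.1 - y.1)]
          have h5 := abs_lt_of_sq_lt_sq h4 hR0.le
          rw [abs_lt] at h5
          linarith [h5.2]
      have h4 := PP_mono hFA (inter_subset_left (s := A) (t := {y | dsq x y < R ^ 2}))
      rw [setIntegral_const, smul_eq_mul] at h3
      have h5 : (volume.real (A ∩ {y | dsq x y < R ^ 2})) = ar (A ∩ {y | dsq x y < R ^ 2}) := rfl
      rw [h5] at h3
      linarith
    have h3 : ar (A ∩ {y | dsq x y < R ^ 2}) / (π * r) ≤ ε / 4 := by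
      rw [div_le_iff₀ (by positivity)]
      have h4 : 8 / (π * r * ε) ≤ x.2 := by
        have : 0 < 2 * R := by positivity
        linarith
      rw [div_le_iff₀ (by positivity)] at h4
      have h6 : 0 ≤ ar (A ∩ {y | dsq x y < R ^ 2}) := ENNReal.toReal_nonneg
      have h7 : 8 * ar (A ∩ {y | dsq x y < R ^ 2}) ≤
          (x.2 * (π * r * ε)) * ar (A ∩ {y | dsq x y < R ^ 2}) := mul_le_mul_of_nonneg_right h4 h6
      have h8 : (x.2 * (π * r * ε)) * ar (A ∩ {y | dsq x y < R ^ 2}) =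
        (2 * (π * r * ε)) * (x.2 / 2 * ar (A ∩ {y | dsq x y < R ^ 2})) := by ring
      have h9 : (2 * (π * r * ε)) * (x.2 / 2 * ar (A ∩ {y | dsq x y < R ^ 2})) ≤
        (2 * (π * r * ε)) * 1 := mul_le_mul_of_nonneg_left h2 (by positivity)
      linarith
    have : 2 * r = ε / 4 := by rw [hr]; ring
    linarith


namespace T09

open T08

theorem adm_fi {A : Set (ℝ × ℝ)} (hA : Adm A) : Fi A := ⟨hA.meas, hA.sub, hA.int⟩

theorem adm_vol {A : Set (ℝ × ℝ)} (hA : Adm A) : volume A ≠ 0 := by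
  intro h
  have h1 : PP A = 0 := setIntegral_measure_zero _ h
  have := hA.pos
  linarith

theorem phi_pos (hkk : S_kk) (hint : S_int) {A : Set (ℝ × ℝ)} (hA : Fi A) (hv : volume A ≠ 0)
    {x : ℝ × ℝ} (hx : 0 ≤ x.2) : 0 < phi A x := by
  unfold phi
  rw [setIntegral_pos_iff_support_of_nonneg_ae]
  · have h0 : volume (A \ {x}) ≠ 0 := by
      intro h
      apply hv
      have h1 : volume (A \ {x}) = volume A := measure_sdiff_null (measure_singleton x)
      rw [← h1]; exact h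
    refine lt_of_lt_of_le (pos_iff_ne_zero.2 h0) (measure_mono ?_)
    rintro y ⟨hy, hyx⟩
    refine ⟨?_, hy⟩
    have hy2 : 0 < y.2 := hA.sub hy
    have hxy : x ≠ y := fun h => hyx (by simp [h])
    have h1 := kap_ge hkk hx hy2 hxy (le_refl _)
    have h2 : 0 < 1 / (π * (dsq x y + 4 * x.2 * y.2)) := by
      have hD : 0 < dsq x y := by
        unfold dsq
        by_contra hcon
        push Not at hcon
        apply hxy
        have h1 := sq_nonneg (x.1 - y.1)
        have h2 := sq_nonneg (x.2 - y.2)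
        have h3 : (x.1 - y.1) ^ 2 = 0 := by linarith
        have h4 : (x.2 - y.2) ^ 2 = 0 := by linarith
        ext
        · have := pow_eq_zero_iff (two_ne_zero) |>.1 h3; linarith
        · have := pow_eq_zero_iff (two_ne_zero) |>.1 h4; linarith
      have := Real.pi_pos
      positivity
    exact (mul_pos (h2.trans_le h1) hy2).ne'
  · rw [EventuallyLE, ae_restrict_iff' hA.meas]
    exact Eventually.of_forall fun y hy => mul_nonneg (kap_nonneg hkk hx (hA.sub hy)) (hA.sub hy).le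
  · exact hint A hA x hx

theorem EE_pos (hkk : S_kk) (hint : S_int) (hadd : S_add) {A : Set (ℝ × ℝ)} (hA : Adm A) :
    0 < EE A := by
  have hF := adm_fi hA
  have hv := adm_vol hA
  have : 0 < cross A A := by
    unfold cross
    rw [setIntegral_pos_iff_support_of_nonneg_ae]
    · refine lt_of_lt_of_le (pos_iff_ne_zero.2 hv) (measure_mono ?_)
      intro y hy
      exact ⟨(mul_pos (phi_pos hkk hint hF hv (hA.sub hy).le) (hA.sub hy)).ne', hy⟩
    · rw [EventuallyLE, ae_restrict_iff' hA.meas]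
      exact Eventually.of_forall fun y hy =>
        (mul_pos (phi_pos hkk hint hF hv (hA.sub hy).le) (hA.sub hy)).le
    · exact (hadd A A hF hF).2.1
  unfold EE
  linarith

theorem phi_ge (hkk : S_kk) (hint : S_int) {A S : Set (ℝ × ℝ)} (hA : Fi A) (hS : MeasurableSet S)
    (hSA : S ⊆ A) {x : ℝ × ℝ} (hx : 0 ≤ x.2) {K : ℝ}
    (h : ∀ y ∈ S, dsq x y + 4 * x.2 * y.2 ≤ K) : 1 / (π * K) * PP S ≤ phi A x := by
  have hFS := fi_sub hA hS hSA
  have h1 : 1 / (π * K) * PP S ≤ ∫ y in S, kap x y * y.2 := by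
    unfold PP
    rw [← integral_const_mul]
    refine integral_mono_ae (hFS.int.const_mul _) (hint S hFS x hx) ?_
    rw [EventuallyLE, ae_restrict_iff' hS]
    have hne : ∀ᵐ y : ℝ × ℝ, y ≠ x := by
      rw [ae_iff]; simp
    filter_upwards [hne] with y hyx hy
    exact mul_le_mul_of_nonneg_right (kap_ge hkk hx (hFS.sub hy) (Ne.symm hyx) (h y hy))
      (hFS.sub hy).le
  refine h1.trans ?_
  unfold phi
  refine setIntegral_mono_set (hint A hA x hx) ?_ hSA.eventuallyLE
  rw [EventuallyLE, ae_restrict_iff' hA.meas]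
  exact Eventually.of_forall fun y hy => mul_nonneg (kap_nonneg hkk hx (hA.sub hy)) (hA.sub hy).le

end T09

open T08 T09 in
theorem t_unif (hkk : S_kk) (hint : S_int) (hphi : S_phibd) (hadd : S_add) (hst : S_steiner)
    (hbox : S_box) (hdec : S_decay) : S_unif := by
  have hpi := Real.pi_pos
  obtain ⟨A2, hA2⟩ := (hbox 2 le_rfl).1
  set e0 := EE A2 with he0
  have he0p : 0 < e0 := EE_pos hkk hint hadd hA2.2.1
  set C : ℝ := 2 + 1 / π with hC
  have hC0 : 0 < C := by positivity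
  obtain ⟨ρ1, hρ1, hd1⟩ := hdec e0 he0p
  set K : ℝ := (2 + 2 * ρ1) ^ 2 + (2 + ρ1) ^ 2 with hK
  have hK0 : 0 < K := by positivity
  set Ws : ℝ := 1 / (π * K) * (e0 / C) with hWs
  have hWs0 : 0 < Ws := by positivity
  obtain ⟨ρ3, hρ3, hd3⟩ := hdec Ws hWs0
  refine ⟨ρ3, hρ3, ?_⟩
  intro L hL A hA
  obtain ⟨hAb, hAa, hAP, hAmax⟩ := hA
  obtain ⟨hbal, W, hW1, hW2⟩ := (hbox L hL).2 A ⟨hAb, hAa, hAP, hAmax⟩
  obtain ⟨τ, hS, -, -⟩ := hst A hAa hbal
  have hF := adm_fi hAa
  refine ⟨τ, ?_⟩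
  -- energy lower bound
  have hE : e0 ≤ EE A := by
    refine hAmax A2 ?_ hA2.2.1 hA2.2.2.1
    intro x hx
    obtain ⟨h1, h2, h3⟩ := hA2.1 hx
    exact ⟨by linarith, h2, by linarith⟩
  set B : Set (ℝ × ℝ) := {y | (y.1 - τ) ^ 2 + y.2 ^ 2 < ρ1 ^ 2} with hB
  have hBm : MeasurableSet B := (isOpen_lt (by fun_prop) continuous_const).measurableSet
  have hm1 : MeasurableSet (A ∩ B) := hAa.meas.inter hBm
  have hm2 : MeasurableSet (A \ B) := hAa.meas.diff hBm
  have hF1 := fi_sub hF hm1 inter_subset_left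
  have hF2 := fi_sub hF hm2 sdiff_subset
  have hmass : e0 / C ≤ PP (A ∩ B) := by
    have hI := (hadd A A hF hF).2.1
    have hsplit : cross A A = (∫ x in A ∩ B, phi A x * x.2) + ∫ x in A \ B, phi A x * x.2 := by
      unfold cross
      rw [integral_inter_add_sdiff hBm hI]
    have h1 : ∫ x in A ∩ B, phi A x * x.2 ≤ C * PP (A ∩ B) := by
      unfold PP
      rw [← integral_const_mul]
      refine setIntegral_mono_on (hI.mono_set inter_subset_left) (hF1.int.const_mul _) hm1 ?_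
      intro x hx
      refine mul_le_mul_of_nonneg_right ?_ (hF1.sub hx).le
      have := phi_le hphi hF (x := x) (hF1.sub hx).le
      rw [hAP] at this
      exact (le_abs_self _).trans this
    have h2 : ∫ x in A \ B, phi A x * x.2 ≤ e0 * PP (A \ B) := by
      unfold PP
      rw [← integral_const_mul]
      refine setIntegral_mono_on (hI.mono_set sdiff_subset) (hF2.int.const_mul _) hm2 ?_
      intro x hx
      refine mul_le_mul_of_nonneg_right ?_ (hF2.sub hx).le
      refine (hd1 A τ hAa hAP hS x (hF2.sub hx).le ?_).le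
      have := hx.2
      simp only [hB, mem_ofPred_eq, not_lt] at this
      exact this
    have h3 : PP (A \ B) ≤ 1 := by
      have := PP_mono hF (sdiff_subset (s := A) (t := B))
      rwa [hAP] at this
    have h4 : cross A A = 2 * EE A := by unfold EE; ring
    rw [div_le_iff₀ hC0]
    have h5 : e0 * PP (A \ B) ≤ e0 * 1 := mul_le_mul_of_nonneg_left h3 he0p.le
    linarith
  have hmass0 : 0 < e0 / C := by positivity
  -- a point of A near the centre
  obtain ⟨y0, hy0A, hy0B⟩ : (A ∩ B).Nonempty := by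
    by_contra hcon
    rw [not_nonempty_iff_eq_empty] at hcon
    rw [hcon] at hmass
    have : PP (∅ : Set (ℝ × ℝ)) = 0 := by simp [PP]
    linarith
  have hy0L := hAb hy0A
  have hy0τ : |y0.1 - τ| < ρ1 := by
    simp only [hB, mem_ofPred_eq] at hy0B
    apply abs_lt_of_sq_lt_sq _ hρ1.le
    nlinarith [sq_nonneg y0.2]
  obtain ⟨b, hb1, hb2, hb3⟩ : ∃ b : ℝ, -L ≤ b ∧ b + 2 ≤ L ∧ |b + 1 - y0.1| ≤ 1 := by
    have h1 := abs_lt.1 hy0L.1
    rcases le_total 0 y0.1 with h | h
    · refine ⟨y0.1 - 2, by linarith, by linarith [h1.2], ?_⟩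
      rw [abs_le]; constructor <;> linarith
    · refine ⟨y0.1, by linarith [h1.1], by linarith, ?_⟩
      rw [abs_le]; constructor <;> linarith
  set R0 : Set (ℝ × ℝ) := Ioo b (b + 2) ×ˢ Ioo 0 2 with hR0
  have hR0b : R0 ⊆ box L := by
    rintro x ⟨⟨h1, h2⟩, h3, h4⟩
    refine ⟨?_, h3, by linarith⟩
    rw [abs_lt]; constructor <;> linarith
  have hR0m : MeasurableSet R0 := measurableSet_Ioo.prod measurableSet_Ioo
  have hR0P : PP R0 = 4 := by
    rw [hR0, PP_rect (by linarith) (by norm_num)]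
    norm_num
  have hvol : volume (R0 \ A) ≠ 0 := by
    intro h
    have := PP_mono_ae hF h
    rw [hR0P, hAP] at this
    linarith
  obtain ⟨x0, hx0, hx0W⟩ : ∃ x0 ∈ R0 \ A, phi A x0 ≤ W := by
    by_contra hcon
    push Not at hcon
    apply hvol
    rw [ae_iff] at hW2
    refine measure_mono_null ?_ hW2
    intro x hx
    simp only [mem_ofPred_eq, Classical.not_imp, not_le]
    exact ⟨hR0b hx.1, hx.2, hcon x hx⟩
  have hWge : Ws ≤ W := by
    refine le_trans ?_ hx0W
    obtain ⟨⟨⟨h1, h2⟩, h3, h4⟩, h5⟩ := hx0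
    have h6 : 1 / (π * K) * PP (A ∩ B) ≤ phi A x0 := by
      refine phi_ge hkk hint hF hm1 inter_subset_left h3.le ?_
      rintro y ⟨hyA, hyB⟩
      simp only [hB, mem_ofPred_eq] at hyB
      have h7 : |y.1 - τ| < ρ1 := by
        apply abs_lt_of_sq_lt_sq _ hρ1.le
        nlinarith [sq_nonneg y.2]
      have h8 : |y.2| < ρ1 := by
        apply abs_lt_of_sq_lt_sq _ hρ1.le
        nlinarith [sq_nonneg (y.1 - τ)]
      have hy2 : 0 < y.2 := hAa.sub hyA
      rw [abs_lt] at h7 h8 hy0τ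
      rw [abs_le] at hb3
      have h9 : |x0.1 - y.1| ≤ 2 + 2 * ρ1 := by
        rw [abs_le]; constructor <;> linarith [h7.1, h7.2, hy0τ.1, hy0τ.2, hb3.1, hb3.2]
      have h10 : (x0.1 - y.1) ^ 2 ≤ (2 + 2 * ρ1) ^ 2 := by
        rw [← sq_abs]
        exact pow_le_pow_left₀ (abs_nonneg _) h9 2
      have h11 : (x0.2 + y.2) ^ 2 ≤ (2 + ρ1) ^ 2 := by
        apply pow_le_pow_left₀ (by linarith)
        linarith [h8.2]
      unfold dsq
      nlinarith
    refine le_trans ?_ h6
    exact mul_le_mul_of_nonneg_left hmass (by positivity)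
  rw [ae_iff] at hW1
  refine measure_mono_null ?_ hW1
  rintro x ⟨hxA, hx⟩
  simp only [mem_ofPred_eq, Classical.not_imp, not_le]
  refine ⟨hxA, ?_⟩
  have hx2 : 0 < x.2 := hAa.sub hxA
  refine lt_of_lt_of_le (hd3 A τ hAa hAP hS x hx2.le ?_) hWge
  by_contra hcon
  push Not at hcon
  apply hx
  refine ⟨?_, ?_⟩
  · apply abs_lt_of_sq_lt_sq _ hρ3.le
    nlinarith [sq_nonneg x.2]
  · nlinarith [sq_nonneg (x.1 - τ)]


namespace T09

open T08

theorem PP_congr {A B : Set (ℝ × ℝ)} (h : A =ᵐ[volume] B) : PP A = PP B :=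
  setIntegral_congr_set h

theorem phi_congr {A B : Set (ℝ × ℝ)} (h : A =ᵐ[volume] B) : phi A = phi B := by
  funext x
  exact setIntegral_congr_set h

theorem EE_congr {A B : Set (ℝ × ℝ)} (h : A =ᵐ[volume] B) : EE A = EE B := by
  unfold EE cross
  rw [phi_congr h, setIntegral_congr_set h]

theorem dil_box {r n : ℝ} (hr : 0 < r) {B : Set (ℝ × ℝ)} (hB : B ⊆ box n) :
    dil r B ⊆ box (r * n) := by
  intro x hx
  obtain ⟨h1, h2, h3⟩ := hB hx
  simp only at h1 h2 h3
  rw [abs_mul, abs_of_pos (inv_pos.2 hr), inv_mul_lt_iff₀ hr] at h1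
  rw [inv_mul_lt_iff₀ hr] at h3
  refine ⟨h1, ?_, h3⟩
  have := mul_pos hr h2
  rwa [mul_inv_cancel_left₀ hr.ne'] at this

theorem box_mono {a b : ℝ} (h : a ≤ b) : box a ⊆ box b := by
  rintro x ⟨h1, h2, h3⟩
  exact ⟨by linarith, h2, by linarith⟩

theorem EE_trunc (hphi : S_phibd) (hadd : S_add) {B C : Set (ℝ × ℝ)} (hB : Fi B)
    (hC : MeasurableSet C) :
    EE (B ∩ C) ≤ EE B ∧ EE B - 2 * (2 + PP B / π) * (PP B - PP (B ∩ C)) ≤ EE (B ∩ C) := by
  have hpi := Real.pi_pos
  have hm1 : MeasurableSet (B ∩ C) := hB.meas.inter hC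
  have hm2 : MeasurableSet (B \ C) := hB.meas.diff hC
  have hF1 := fi_sub hB hm1 inter_subset_left
  have hF2 := fi_sub hB hm2 sdiff_subset
  have hdis : Disjoint (B ∩ C) (B \ C) := by
    rw [Set.disjoint_left]; intro y hy hy'; exact hy'.2 hy.2
  have h := (hadd _ _ hF1 hF2)
  have h1 := (h.2.2.2 hdis).2.1
  have h2 := (h.2.2.2 hdis).2.2.2
  rw [inter_union_sdiff] at h1 h2
  have h3 := h.2.2.1
  have h4 := (hadd _ _ hF2 hF2).2.2.1
  have h5 : EE (B \ C) = 1 / 2 * cross (B \ C) (B \ C) := rfl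
  have hKP : ∀ {S : Set (ℝ × ℝ)}, Fi S → S ⊆ B → cross S (B \ C) ≤ (2 + PP B / π) * PP (B \ C) := by
    intro S hS hSB
    have h0 : (2 + PP B / π) * PP (B \ C) = ∫ x in B \ C, (2 + PP B / π) * x.2 := by
      rw [integral_const_mul]; rfl
    rw [h0]
    unfold cross
    refine setIntegral_mono_on (hadd S _ hS hF2).2.1 (hF2.int.const_mul _) hm2 ?_
    intro x hx
    refine mul_le_mul_of_nonneg_right ?_ (hF2.sub hx).le
    have h6 := phi_le hphi hS (x := x) (hF2.sub hx).le
    have h7 : PP S / π ≤ PP B / π := div_le_div_of_nonneg_right (PP_mono hB hSB) hpi.le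
    have h8 := le_abs_self (phi S x)
    linarith
  have h6 := hKP hF1 inter_subset_left
  have h7 := hKP hF2 sdiff_subset
  have h8 : 0 ≤ PP (B \ C) := PP_nonneg hm2 hF2.sub
  have h9 : 0 ≤ PP B := PP_nonneg hB.meas hB.sub
  have h10 : PP B - PP (B ∩ C) = PP (B \ C) := by linarith
  have h11 : 0 ≤ (2 + PP B / π) * PP (B \ C) := by positivity
  refine ⟨by linarith, ?_⟩
  rw [h10]
  linarith

theorem tendsto_trunc {B : Set (ℝ × ℝ)} (hB : Fi B) :
    Tendsto (fun n : ℕ => PP (B ∩ box n)) atTop (𝓝 (PP B)) := by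
  have hU : (⋃ n : ℕ, B ∩ box n) = B := by
    ext x
    simp only [mem_iUnion, mem_inter_iff]
    constructor
    · rintro ⟨n, h, -⟩
      exact h
    · intro h
      obtain ⟨n, hn⟩ := exists_nat_gt (max |x.1| x.2)
      exact ⟨n, h, (le_max_left _ _).trans_lt hn, hB.sub h, (le_max_right _ _).trans_lt hn⟩
  have := tendsto_setIntegral_of_monotone (μ := (volume : Measure (ℝ × ℝ)))
    (f := fun y : ℝ × ℝ => y.2) (s := fun n : ℕ => B ∩ box n)
    (fun n => hB.meas.inter (isOpen_box _).measurableSet) (by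
      intro n m hnm
      exact inter_subset_inter_right _ (box_mono (by exact_mod_cast hnm))) (by
      rw [hU]; exact hB.int)
  rw [hU] at this
  exact this

end T09

open T08 T09 in
theorem t_exist (hphi : S_phibd) (hadd : S_add) (hscale : S_scale) (htrans : S_trans)
    (hbox : S_box) (hunif : S_unif) : S_exist := by
  have hpi := Real.pi_pos
  obtain ⟨ρ, hρ, hu⟩ := hunif
  set L0 : ℝ := max 2 ρ with hL0
  obtain ⟨A0, hA0⟩ := (hbox L0 (le_max_left _ _)).1
  -- comparison on boxes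
  have h1 : ∀ L : ℝ, 2 ≤ L → ∀ B ⊆ box L, Adm B → PP B = 1 → EE B ≤ EE A0 := by
    intro L hL B hB hBa hBP
    obtain ⟨A, hA⟩ := (hbox L hL).1
    obtain ⟨τ, hτ⟩ := hu L hL A hA
    obtain ⟨hAb, hAa, hAP, hAmax⟩ := hA
    refine (hAmax B hB hBa hBP).trans ?_
    have hF := adm_fi hAa
    obtain ⟨t1, t2, t3, t4, -⟩ := htrans A hF (-τ)
    have hQm : MeasurableSet {x : ℝ × ℝ | |x.1 - τ| < ρ ∧ x.2 < ρ} := by
      have o1 : IsOpen {x : ℝ × ℝ | |x.1 - τ| < ρ} := isOpen_lt (by fun_prop) continuous_const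
      have o2 : IsOpen {x : ℝ × ℝ | x.2 < ρ} := isOpen_lt continuous_snd continuous_const
      exact (o1.inter o2).measurableSet
    have hNF : Fi (A \ {x : ℝ × ℝ | |x.1 - τ| < ρ ∧ x.2 < ρ}) :=
      fi_sub hF (hF.meas.diff hQm) sdiff_subset
    have hnull : volume (tra (-τ) A \ box L0) = 0 := by
      have h2 := (htrans _ hNF (-τ)).2.2.2.1
      rw [hτ] at h2
      refine measure_mono_null ?_ h2
      rintro x ⟨hx1, hx2⟩
      refine ⟨hx1, fun hx => hx2 ?_⟩
      obtain ⟨h3, h4⟩ := hx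
      simp only at h3 h4
      have h5 : 0 < x.2 := t1.sub hx1
      have e : x.1 - -τ - τ = x.1 := by ring
      rw [e] at h3
      exact ⟨h3.trans_le (le_max_right _ _), h5, h4.trans_le (le_max_right _ _)⟩
    have hae : (tra (-τ) A ∩ box L0 : Set (ℝ × ℝ)) =ᵐ[volume] tra (-τ) A := by
      rw [ae_eq_set]
      refine ⟨?_, ?_⟩
      · rw [sdiff_eq_empty.2 inter_subset_left]; simp
      · rw [sdiff_self_inter]; exact hnull
    have hm : MeasurableSet (tra (-τ) A ∩ box L0) := t1.meas.inter (isOpen_box _).measurableSet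
    have hP1 : PP (tra (-τ) A ∩ box L0) = 1 := by rw [PP_congr hae, t2, hAP]
    have h3 := hA0.2.2.2 (tra (-τ) A ∩ box L0) inter_subset_right
      (adm_of inter_subset_right hm hP1) hP1
    rw [EE_congr hae, t3] at h3
    exact h3
  have hE0 : 0 ≤ EE A0 := by
    have := (hadd A0 A0 (adm_fi hA0.2.1) (adm_fi hA0.2.1)).2.2.1
    unfold EE; linarith
  -- bounded sets
  have h2 : ∀ n : ℝ, ∀ B ⊆ box n, Adm B → EE B ^ 3 ≤ EE A0 ^ 3 * PP B ^ 4 := by
    intro n B hB hBa
    have hF := adm_fi hBa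
    have hP := hBa.pos
    set r : ℝ := (PP B) ^ (-(1 / 3) : ℝ) with hr
    have hr0 : 0 < r := Real.rpow_pos_of_pos hP _
    have hr3 : r ^ 3 * PP B = 1 := by
      rw [hr, ← Real.rpow_natCast, ← Real.rpow_mul hP.le]
      norm_num
      rw [Real.rpow_neg_one]
      exact inv_mul_cancel₀ hP.ne'
    obtain ⟨s1, s2, s3, s4, s5, -⟩ := hscale B hF r hr0
    have hPd : PP (dil r B) = 1 := by rw [s2, hr3]
    have hsub : dil r B ⊆ box (max 2 (r * n)) := (dil_box hr0 hB).trans (box_mono (le_max_right _ _))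
    have h3 := h1 _ (le_max_left _ _) _ hsub (adm_of hsub s1.meas hPd) hPd
    rw [s3] at h3
    have hEB : 0 ≤ EE B := by
      have := (hadd B B hF hF).2.2.1
      unfold EE; linarith
    have h4 : (r ^ 4 * EE B) ^ 3 ≤ EE A0 ^ 3 := pow_le_pow_left₀ (by positivity) h3 3
    have h5 : (r ^ 4 * EE B) ^ 3 * PP B ^ 4 ≤ EE A0 ^ 3 * PP B ^ 4 :=
      mul_le_mul_of_nonneg_right h4 (by positivity)
    have h6 : (r ^ 4 * EE B) ^ 3 * PP B ^ 4 = EE B ^ 3 * (r ^ 3 * PP B) ^ 4 := by ring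
    rw [h6, hr3] at h5
    linarith
  refine ⟨A0, hA0.2.1, ?_⟩
  intro B hB
  rw [hA0.2.2.1]
  have hF := adm_fi hB
  have hlimP := tendsto_trunc hF
  have hlimE : Tendsto (fun n : ℕ => EE (B ∩ box n)) atTop (𝓝 (EE B)) := by
    refine tendsto_of_tendsto_of_tendsto_of_le_of_le
      (g := fun n : ℕ => EE B - 2 * (2 + PP B / π) * (PP B - PP (B ∩ box n)))
      (h := fun _ => EE B) ?_ tendsto_const_nhds ?_ ?_
    · have : Tendsto (fun n : ℕ => EE B - 2 * (2 + PP B / π) * (PP B - PP (B ∩ box n))) atTop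
          (𝓝 (EE B - 2 * (2 + PP B / π) * (PP B - PP B))) :=
        tendsto_const_nhds.sub (tendsto_const_nhds.mul (tendsto_const_nhds.sub hlimP))
      simpa using this
    · intro n
      exact (EE_trunc hphi hadd hF (isOpen_box _).measurableSet).2
    · intro n
      exact (EE_trunc hphi hadd hF (isOpen_box _).measurableSet).1
  have hev : ∀ᶠ n : ℕ in atTop, 0 < PP (B ∩ box n) := hlimP.eventually (lt_mem_nhds hB.pos)
  have h3 : EE B ^ 3 ≤ EE A0 ^ 3 * PP B ^ 4 := by
    refine le_of_tendsto_of_tendsto (hlimE.pow 3) ((hlimP.pow 4).const_mul _) ?_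
    filter_upwards [hev] with n hn
    have hm : MeasurableSet (B ∩ box n) := hB.meas.inter (isOpen_box _).measurableSet
    exact h2 n (B ∩ box n) inter_subset_right
      ⟨hm, inter_subset_left.trans hB.sub, vol_fin inter_subset_right,
        hF.int.mono_set inter_subset_left, hn⟩
  linarith

end SV
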