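import Pool.Agent.Helper779.SV.Stmts4
import Pool.Agent.Helper779.SV.T09
import Pool.Agent.Helper779.SV.T25d

/-!
# Task T26c: the uniqueness fan
-/

open MeasureTheory Set Filter Topology
open scoped Real

namespace SV

open T25d in
theorem T26c.t_ucells' : S_ucells := by
  intro RS qn An Hn T XD YD GD LD LD' k0 n h k hk0 hk
  unfold K.ucells at h
  rw [allN_iff] at h
  have h1 := h (k - k0) (by omega)
  rw [fb_eq] at h1
  have e : Nat.add k0 (k - k0) = k := by
    change k0 + (k - k0) = k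
    omega
  rw [e, fb_eq, fb_eq, fb_eq, fb_eq] at h1
  exact h1

namespace T26c

open T08 T09 T25d

theorem dil_mono {U : Set (ℝ × ℝ)} (hL : Low U) (hU : U ⊆ UH) {a b : ℝ} (ha : 0 < a)
    (hab : a ≤ b) : dil a U ⊆ dil b U := by
  intro x hx
  have hb : 0 < b := ha.trans_le hab
  have h1 : 0 < a⁻¹ * x.2 := hU hx
  have hx2 : 0 < x.2 := (mul_pos_iff_of_pos_left (inv_pos.2 ha)).1 h1
  have hinv : b⁻¹ ≤ a⁻¹ := inv_anti₀ ha hab
  refine hL _ hx (b⁻¹ * x.1, b⁻¹ * x.2) ?_ ?_ ?_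
  · simp only [abs_mul]
    rw [abs_of_pos (inv_pos.2 hb), abs_of_pos (inv_pos.2 ha)]
    exact mul_le_mul_of_nonneg_right hinv (abs_nonneg _)
  · exact mul_pos (inv_pos.2 hb) hx2
  · exact mul_le_mul_of_nonneg_right hinv hx2.le

theorem dil_dil {a b : ℝ} (U : Set (ℝ × ℝ)) : dil a (dil b U) = dil (a * b) U := by
  ext x
  simp only [dil, mem_ofPred_eq]
  have e1 : b⁻¹ * (a⁻¹ * x.1) = (a * b)⁻¹ * x.1 := by rw [mul_inv]; ring
  have e2 : b⁻¹ * (a⁻¹ * x.2) = (a * b)⁻¹ * x.2 := by rw [mul_inv]; ring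
  rw [e1, e2]

theorem dil_one (U : Set (ℝ × ℝ)) : dil 1 U = U := by
  ext x
  simp [dil]

theorem sol_fi {w : ℝ} {U : Set (ℝ × ℝ)} (h : Sol w U) : Fi U := by
  refine ⟨h.opn.measurableSet, h.sub, ?_⟩
  obtain ⟨R, hR⟩ := h.bdd.subset_closedBall 0
  exact (continuous_snd.continuousOn.integrableOn_compact (isCompact_closedBall 0 R)).mono_set hR

theorem touch_bd (htouch : S_touch) (hscale : S_scale) {wU wV s : ℝ} {U V : Set (ℝ × ℝ)}
    (hU : Sol wU U) (hV : Sol wV V) (hs : 0 < s) (h : V = dil s U) : s * wU ≤ wV := by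
  obtain ⟨t, ht, h1, h2, q, -, -, -, h3, -⟩ := htouch wU U wV V hU hV
  have hst : s ≤ t := by
    by_contra hcon
    push Not at hcon
    exact h2 s hcon h.ge
  have hts : t ≤ s := by
    have hF := sol_fi hU
    have e1 := (hscale U hF t ht).2.1
    have e2 := (hscale U hF s hs).2.1
    have e3 : PP (dil t U) ≤ PP (dil s U) := PP_mono (hscale U hF s hs).1 (h1.trans h.le)
    rw [e1, e2] at e3
    have hP : 0 < PP U := by
      rw [hU.mass]
      exact mul_pos Real.pi_pos hU.wpos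
    have e4 : t ^ 3 ≤ s ^ 3 := le_of_mul_le_mul_right e3 hP
    exact le_of_pow_le_pow_left₀ (by norm_num) hs.le e4
  have hts' : t = s := le_antisymm hts hst
  rw [hts', ← h, sub_self] at h3
  linarith

theorem eq_case (htouch : S_touch) (hscale : S_scale) {w0 w1 s : ℝ} {U0 U1 : Set (ℝ × ℝ)}
    (h0 : Sol w0 U0) (h1 : Sol w1 U1) (hs : 0 < s) (h : U1 = dil s U0) : w0 = w1 ∧ U0 = U1 := by
  have h' : U0 = dil s⁻¹ U1 := by
    rw [h, dil_dil, inv_mul_cancel₀ hs.ne', dil_one]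
  have e1 := touch_bd htouch hscale h0 h1 hs h
  have e2 := touch_bd htouch hscale h1 h0 (inv_pos.2 hs) h'
  have e3 : w1 ≤ s * w0 := by
    rw [inv_mul_le_iff₀ hs] at e2
    exact e2
  have e4 : w1 = s * w0 := le_antisymm e3 e1
  have e5 : π * w1 = s ^ 3 * (π * w0) := by
    rw [← h1.mass, ← h0.mass, h]
    exact (hscale U0 (sol_fi h0) s hs).2.1
  have hw := h0.wpos
  have e6 : s = s ^ 3 := by
    have e7 : s * (π * w0) = s ^ 3 * (π * w0) := by
      rw [← e5, e4]; ring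
    exact mul_right_cancel₀ (mul_pos Real.pi_pos hw).ne' e7
  have e7 : s = 1 := by
    have e8 : s ^ 2 = 1 := by
      have : s * s ^ 2 = s * 1 := by linarith [e6, pow_succ s 2]
      exact mul_left_cancel₀ hs.ne' this
    nlinarith
  rw [e7] at e4 h
  rw [dil_one] at h
  exact ⟨by linarith, h.symm⟩

/-- the kernel -/
noncomputable def ff (q q' : ℝ × ℝ) (y : ℝ × ℝ) : ℝ := π * min (kaps q y) (kaps q' y)

theorem kap_meas (q : ℝ × ℝ) : Measurable (fun y : ℝ × ℝ => kap q y) := by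
  unfold kap kk dsq
  refine Measurable.const_mul ?_ _
  refine Measurable.ite ?_ (by fun_prop) (by fun_prop)
  exact measurableSet_eq_fun (by fun_prop) measurable_const

theorem kaps_meas (q : ℝ × ℝ) : Measurable (fun y : ℝ × ℝ => kaps q y) := by
  unfold kaps
  have h1 := kap_meas q
  have h2 : Measurable (fun y : ℝ × ℝ => kap q (-y.1, y.2)) := h1.comp (by fun_prop)
  exact (h1.add h2).div_const 2

theorem ff_meas (q q' : ℝ × ℝ) : Measurable (ff q q') :=
  ((kaps_meas q).min (kaps_meas q')).const_mul π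

theorem kaps_nonneg (hkk : S_kk) {q y : ℝ × ℝ} (hq : 0 ≤ q.2) (hy : 0 < y.2) : 0 ≤ kaps q y := by
  unfold kaps
  have h1 := kap_nonneg hkk hq hy
  have h2 := kap_nonneg hkk (y := (-y.1, y.2)) hq hy
  linarith

theorem ff_nonneg (hkk : S_kk) {q q' y : ℝ × ℝ} (hq : 0 ≤ q.2) (hq' : 0 ≤ q'.2) (hy : 0 < y.2) :
    0 ≤ ff q q' y :=
  mul_nonneg Real.pi_pos.le (le_min (kaps_nonneg hkk hq hy) (kaps_nonneg hkk hq' hy))

theorem refl_fi {A : Set (ℝ × ℝ)} (hA : Fi A) : Fi (refl 0 ⁻¹' A) := by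
  refine ⟨(refl_mp 0).measurable hA.meas, fun x hx => ?_, ?_⟩
  · have h : refl 0 x ∈ UH := hA.sub hx
    exact h
  have h := (refl_mp 0).integrableOn_comp_preimage (refl_emb 0) (f := fun y : ℝ × ℝ => y.2) (s := A)
  exact h.2 hA.int

theorem kaps_int (hint : S_int) {A : Set (ℝ × ℝ)} (hA : Fi A) {q : ℝ × ℝ} (hq : 0 ≤ q.2) :
    IntegrableOn (fun y => kaps q y * y.2) A := by
  have h1 := hint A hA q hq
  have h2 : IntegrableOn (fun y : ℝ × ℝ => kap q (-y.1, y.2) * y.2) A := by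
    have h3 := hint _ (refl_fi hA) q hq
    have h4 := ((refl_mp 0).integrableOn_comp_preimage (refl_emb 0)
      (f := fun y : ℝ × ℝ => kap q y * y.2) (s := refl 0 ⁻¹' A)).2 h3
    have e1 : refl 0 ⁻¹' (refl 0 ⁻¹' A) = A := by
      ext x
      simp [refl]
    rw [e1] at h4
    have e2 : ((fun y : ℝ × ℝ => kap q y * y.2) ∘ refl 0) =
        fun y : ℝ × ℝ => kap q (-y.1, y.2) * y.2 := by
      funext y
      simp [refl]
    rw [e2] at h4
    exact h4
  have h3 := (h1.add h2).const_mul (1 / 2)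
  refine h3.congr (Eventually.of_forall fun y => ?_)
  simp only [Pi.add_apply, kaps]
  ring

theorem ff_int (hkk : S_kk) (hint : S_int) {A : Set (ℝ × ℝ)} (hA : Fi A) {q q' : ℝ × ℝ}
    (hq : 0 ≤ q.2) (hq' : 0 ≤ q'.2) : IntegrableOn (fun y => ff q q' y * y.2) A := by
  have h1 := (kaps_int hint hA hq).const_mul π
  refine Integrable.mono' h1 ((ff_meas q q').mul measurable_snd).aestronglyMeasurable ?_
  rw [ae_restrict_iff' hA.meas]
  refine Eventually.of_forall fun y hy => ?_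
  have hy2 : 0 < y.2 := hA.sub hy
  have h2 := ff_nonneg hkk hq hq' hy2
  rw [Real.norm_eq_abs, abs_of_nonneg (mul_nonneg h2 hy2.le)]
  have h3 : ff q q' y ≤ π * kaps q y :=
    mul_le_mul_of_nonneg_left (min_le_left _ _) Real.pi_pos.le
  calc ff q q' y * y.2 ≤ π * kaps q y * y.2 := mul_le_mul_of_nonneg_right h3 hy2.le
    _ = π * (kaps q y * y.2) := by ring

/-- the algebra of one cell -/
theorem cell_alg {σ0 σ1 r1 r2 x1 x2 I I' P : ℝ} (h0 : 0 < σ0) (h1 : σ0 ≤ r1) (h2 : r1 < r2)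
    (h3 : r2 ≤ σ1) (hI : 0 ≤ I) (hI' : 0 ≤ I') (hc1 : P < 3 * σ0 ^ 2 * I)
    (hc2 : P * (σ0 ^ 2 * σ1 ^ 2 + σ1 ^ 2) < 3 * σ0 ^ 4 * σ1 ^ 2 * I + 3 * I')
    (hx : x1 = x2 ∨ (x2 < x1 ∧ x1 = 1 / r1 ∧ 1 / r2 ≤ x2)) :
    P * ((r2 - r1) + (x1 - x2)) < (r2 ^ 3 - r1 ^ 3) * I + (x1 ^ 3 - x2 ^ 3) * I' := by
  have ha : 0 < r2 - r1 := sub_pos.2 h2
  have hr1 : 0 < r1 := h0.trans_le h1
  have hσ1 : 0 < σ1 := by linarith
  have hcube : 3 * σ0 ^ 2 * (r2 - r1) ≤ r2 ^ 3 - r1 ^ 3 := by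
    have e1 : r2 ^ 3 - r1 ^ 3 = (r2 ^ 2 + r2 * r1 + r1 ^ 2) * (r2 - r1) := by ring
    have e2 : 3 * σ0 ^ 2 ≤ r2 ^ 2 + r2 * r1 + r1 ^ 2 := by nlinarith
    rw [e1]
    exact mul_le_mul_of_nonneg_right e2 ha.le
  have hA : 3 * σ0 ^ 2 * (r2 - r1) * I ≤ (r2 ^ 3 - r1 ^ 3) * I := mul_le_mul_of_nonneg_right hcube hI
  rcases hx with hx | ⟨hx1, hx2, hx3⟩
  · rw [hx, sub_self, sub_self, zero_mul, add_zero, add_zero]
    have : P * (r2 - r1) < 3 * σ0 ^ 2 * I * (r2 - r1) := mul_lt_mul_of_pos_right hc1 ha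
    linarith
  · have hb : 0 < x1 - x2 := sub_pos.2 hx1
    have hr2 : 0 < r2 := hr1.trans h2
    have hx20 : 1 / σ1 ≤ x2 := (one_div_le_one_div_of_le hr2 h3).trans hx3
    have hx10 : 1 / σ1 ≤ x1 := hx20.trans hx1.le
    have hs : 0 < 1 / σ1 := by positivity
    have hcube2 : 3 * (1 / σ1) ^ 2 * (x1 - x2) ≤ x1 ^ 3 - x2 ^ 3 := by
      have e1 : x1 ^ 3 - x2 ^ 3 = (x1 ^ 2 + x1 * x2 + x2 ^ 2) * (x1 - x2) := by ring
      have e2 : 3 * (1 / σ1) ^ 2 ≤ x1 ^ 2 + x1 * x2 + x2 ^ 2 := by nlinarith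
      rw [e1]
      exact mul_le_mul_of_nonneg_right e2 hb.le
    have hB : 3 * (1 / σ1) ^ 2 * (x1 - x2) * I' ≤ (x1 ^ 3 - x2 ^ 3) * I' :=
      mul_le_mul_of_nonneg_right hcube2 hI'
    have hba : (x1 - x2) * σ0 ^ 2 ≤ r2 - r1 := by
      have e1 : x1 - x2 ≤ 1 / r1 - 1 / r2 := by linarith
      have e2 : 1 / r1 - 1 / r2 = (r2 - r1) / (r1 * r2) := by field_simp
      rw [e2, le_div_iff₀ (by positivity)] at e1
      have e3 : σ0 ^ 2 ≤ r1 * r2 := by nlinarith
      have e4 : (x1 - x2) * σ0 ^ 2 ≤ (x1 - x2) * (r1 * r2) := mul_le_mul_of_nonneg_left e3 hb.le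
      linarith
    -- X, Y
    set X := 3 * σ0 ^ 2 * I - P with hX
    set Y := 3 * (1 / σ1) ^ 2 * I' - P with hY
    have hX0 : 0 < X := by rw [hX]; linarith
    have hXY : 0 < σ0 ^ 2 * X + Y := by
      have e1 : σ1 ^ 2 * (σ0 ^ 2 * X + Y) = 3 * σ0 ^ 4 * σ1 ^ 2 * I + 3 * I' -
          P * (σ0 ^ 2 * σ1 ^ 2 + σ1 ^ 2) := by
        rw [hX, hY]; field_simp; ring
      have e2 : 0 < σ1 ^ 2 * (σ0 ^ 2 * X + Y) := by rw [e1]; linarith
      exact (mul_pos_iff_of_pos_left (by positivity)).1 e2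
    have hmain : 0 < (r2 - r1) * X + (x1 - x2) * Y := by
      rcases le_or_gt 0 Y with hY0 | hY0
      · have := mul_pos ha hX0
        have := mul_nonneg hb.le hY0
        linarith
      · have e1 : (r2 - r1) * Y ≤ ((x1 - x2) * σ0 ^ 2) * Y := mul_le_mul_of_nonpos_right hba hY0.le
        have e2 : 0 < (r2 - r1) * (σ0 ^ 2 * X + Y) := mul_pos ha hXY
        have e3 : 0 < σ0 ^ 2 * ((r2 - r1) * X + (x1 - x2) * Y) := by nlinarith
        exact (mul_pos_iff_of_pos_left (by positivity)).1 e3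
    have e1 : (r2 - r1) * X + (x1 - x2) * Y = 3 * σ0 ^ 2 * (r2 - r1) * I +
        3 * (1 / σ1) ^ 2 * (x1 - x2) * I' - P * ((r2 - r1) + (x1 - x2)) := by
      rw [hX, hY]; ring
    linarith


theorem PP_rect' {a b h : ℝ} (hab : a ≤ b) (hh : 0 ≤ h) :
    PP (Icc a b ×ˢ Ioc 0 h) = (b - a) * (h ^ 2 / 2) := by
  have e : (fun z : ℝ × ℝ => z.2) = fun z : ℝ × ℝ => (fun _ : ℝ => (1:ℝ)) z.1 * (fun y : ℝ => y) z.2 := by
    funext z; simp
  unfold PP
  rw [e, Measure.volume_eq_prod, setIntegral_prod_mul (fun _ : ℝ => (1:ℝ)) (fun y : ℝ => y)]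
  congr 1
  · rw [setIntegral_const]
    simp [hab]
  · rw [← intervalIntegral.integral_of_le hh, integral_id]
    ring

theorem rect_fi (a b h : ℝ) : Fi (Icc a b ×ˢ Ioc 0 h) := by
  refine ⟨measurableSet_Icc.prod measurableSet_Ioc, fun x hx => hx.2.1, ?_⟩
  refine (continuous_snd.continuousOn.integrableOn_compact
    ((isCompact_Icc (a := a) (b := b)).prod (isCompact_Icc (a := 0) (b := h)))).mono_set ?_
  exact prod_mono_right Ioc_subset_Icc_self

/-- the range of `s` -/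
theorem s_lt {RS N C qn g : ℕ} (hCC : CC RS N C) (hend : K.uend RS N C qn g = true)
    (hg : 0 < g) {w0 : ℝ} {U0 U1 : Set (ℝ × ℝ)} {s : ℝ} (h0 : Sol w0 U0)
    (hU0 : U0 ⊆ stair (1 / (RS : ℝ)) N (cf C)) (hU1 : U1 ⊆ stair (1 / (RS : ℝ)) N (cf C))
    (hq0 : (qn : ℝ) / 1000000 ≤ π * w0) (hs : 0 < s) {q : ℝ × ℝ} (hq : q ∈ closure U1)
    (hquad : ∀ y ∈ U0, |y.1| ≤ |q.1| / s ∨ y.2 ≤ q.2 / s) : s < (g : ℝ) / 10000 := by
  have hR : (0 : ℝ) < RS := by exact_mod_cast hCC.rs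
  have hg' : (0 : ℝ) < g := by exact_mod_cast hg
  have hN : (0 : ℝ) < N := by exact_mod_cast hCC.n
  have hc0 : (0 : ℝ) < cf C 0 := by exact_mod_cast hCC.pos 0 hCC.n
  set a : ℝ := 1 / (RS : ℝ) * (cf C 0 : ℝ) with ha
  set h : ℝ := 2 * (1 / (RS : ℝ)) * N with hh
  have ha0 : 0 < a := by positivity
  have hh0 : 0 < h := by positivity
  have hstair : ∀ x ∈ stair (1 / (RS : ℝ)) N (cf C), |x.1| ≤ a ∧ 0 < x.2 ∧ x.2 ≤ h := by
    rintro x ⟨h1, i, hi, h2, h3⟩
    have h4 : (cf C i : ℝ) ≤ cf C 0 := by exact_mod_cast hCC.anti 0 i (Nat.zero_le i)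
    have h5 : 1 / (RS : ℝ) * (cf C i : ℝ) ≤ a := mul_le_mul_of_nonneg_left h4 (by positivity)
    have h6 : ((i : ℝ) + 1) ≤ N := by exact_mod_cast hi
    have h7 : 2 * (1 / (RS : ℝ)) * ((i : ℝ) + 1) ≤ h := mul_le_mul_of_nonneg_left h6 (by positivity)
    exact ⟨by linarith, h1, by linarith⟩
  have hqb : |q.1| ≤ a ∧ q.2 ≤ h := by
    have hcl : IsClosed {x : ℝ × ℝ | |x.1| ≤ a ∧ x.2 ≤ h} := by
      have o1 : IsClosed {x : ℝ × ℝ | |x.1| ≤ a} := isClosed_le (by fun_prop) continuous_const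
      have o2 : IsClosed {x : ℝ × ℝ | x.2 ≤ h} := isClosed_le continuous_snd continuous_const
      exact o1.inter o2
    have := closure_minimal (s := U1) (t := {x : ℝ × ℝ | |x.1| ≤ a ∧ x.2 ≤ h})
      (fun x hx => ⟨(hstair x (hU1 hx)).1, (hstair x (hU1 hx)).2.2⟩) hcl hq
    exact this
  by_contra hcon
  push Not at hcon
  -- impulse of `U0`
  have hF0 := sol_fi h0
  set R1 : Set (ℝ × ℝ) := Icc (-(a / s)) (a / s) ×ˢ Ioc 0 h with hR1
  set R2 : Set (ℝ × ℝ) := Icc (-a) a ×ˢ Ioc 0 (h / s) with hR2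
  have hcov : U0 ⊆ R1 ∪ R2 := by
    intro y hy
    obtain ⟨b1, b2, b3⟩ := hstair y (hU0 hy)
    rcases hquad y hy with hc | hc
    · left
      have : |y.1| ≤ a / s := hc.trans (div_le_div_of_nonneg_right hqb.1 hs.le)
      exact ⟨abs_le.1 this, b2, b3⟩
    · right
      have : y.2 ≤ h / s := hc.trans (div_le_div_of_nonneg_right hqb.2 hs.le)
      exact ⟨abs_le.1 b1, b2, this⟩
  have hP1 : PP R1 = 2 * (a / s) * (h ^ 2 / 2) := by
    rw [hR1, PP_rect' (by have : 0 < a / s := by positivity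
                          linarith) hh0.le]
    ring
  have hP2 : PP R2 = 2 * a * ((h / s) ^ 2 / 2) := by
    rw [hR2, PP_rect' (by linarith) (by positivity)]
    ring
  have hsum : PP U0 ≤ PP R1 + PP R2 := by
    have m1 : MeasurableSet R1 := (rect_fi _ _ _).meas
    have F1 := fi_sub hF0 (hF0.meas.inter m1) inter_subset_left
    have F2 := fi_sub hF0 (hF0.meas.diff m1) sdiff_subset
    have e1 : PP U0 = PP (U0 ∩ R1) + PP (U0 \ R1) := by
      conv_lhs => rw [← inter_union_sdiff U0 R1]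
      apply PP_union F1 F2
      rw [Set.disjoint_left]; intro y hy hy'; exact hy'.2 hy.2
    have e2 : PP (U0 ∩ R1) ≤ PP R1 := PP_mono (rect_fi _ _ _) inter_subset_right
    have e3 : PP (U0 \ R1) ≤ PP R2 := by
      apply PP_mono (rect_fi _ _ _)
      rintro y ⟨hy1, hy2⟩
      rcases hcov hy1 with h | h
      · exact absurd h hy2
      · exact h
    linarith
  rw [h0.mass, hP1, hP2] at hsum
  unfold K.uend at hend
  rw [ble_iff] at hend
  have h1 : (K.dg C 16 0 * (4 * (N * N))) * (1000000 * (10000 * g + 100000000)) + 1 ≤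
      (qn * (RS * (RS * RS))) * (g * g) := hend
  have h2 : ((cf C 0 : ℝ) * (4 * (N * N))) * (1000000 * (10000 * g + 100000000)) + 1 ≤
      ((qn : ℝ) * (RS * (RS * RS))) * (g * g) := by exact_mod_cast h1
  -- compare
  have h3 : a * h ^ 2 * (1 / s + 1 / s ^ 2) ≤
      a * h ^ 2 * (1 / ((g : ℝ) / 10000) + 1 / ((g : ℝ) / 10000) ^ 2) := by
    apply mul_le_mul_of_nonneg_left _ (by positivity)
    have e1 : 1 / s ≤ 1 / ((g : ℝ) / 10000) := one_div_le_one_div_of_le (by positivity) hcon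
    have e2 : 1 / s ^ 2 ≤ 1 / ((g : ℝ) / 10000) ^ 2 :=
      one_div_le_one_div_of_le (by positivity) (pow_le_pow_left₀ (by positivity) hcon 2)
    linarith
  have h4 : a * h ^ 2 * (1 / ((g : ℝ) / 10000) + 1 / ((g : ℝ) / 10000) ^ 2) =
      ((cf C 0 : ℝ) * (4 * (N * N))) * (1000000 * (10000 * g + 100000000)) /
        (1000000 * (RS : ℝ) ^ 3 * (g : ℝ) ^ 2) := by
    rw [ha, hh]; field_simp; ring
  have h5 : (qn : ℝ) / 1000000 = ((qn : ℝ) * (RS * (RS * RS))) * (g * g) /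
        (1000000 * (RS : ℝ) ^ 3 * (g : ℝ) ^ 2) := by
    field_simp
  have h6 : a * h ^ 2 * (1 / ((g : ℝ) / 10000) + 1 / ((g : ℝ) / 10000) ^ 2) < (qn : ℝ) / 1000000 := by
    rw [h4, h5]
    apply div_lt_div_of_pos_right _ (by positivity)
    linarith
  have h7 : 2 * (a / s) * (h ^ 2 / 2) + 2 * a * ((h / s) ^ 2 / 2) = a * h ^ 2 * (1 / s + 1 / s ^ 2) := by
    field_simp
  rw [h7] at hsum
  linarith


/-- the two conditions of a cell, in real form -/
theorem ucell_real {RS qn An Hn T XD YD g0 g1 L L' : ℕ} (hRS : 0 < RS) (hqn : 0 < qn) (hg0 : 0 < g0)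
    (h : K.ucell RS qn An Hn T XD YD g0 g1 L L' = true) {P : ℝ} (hP : 0 < P) :
    g0 ≤ g1 ∧
    P < 3 * ((g0 : ℝ) / 10000) ^ 2 * (P / ((qn : ℝ) / 1000000) *
      ((K.DD RS qn (100000000 * An) (100000000 * Hn) g1 T XD YD L : ℝ) / (30000000000000 * (RS : ℝ) ^ 3))) ∧
    P * (((g0 : ℝ) / 10000) ^ 2 * ((g1 : ℝ) / 10000) ^ 2 + ((g1 : ℝ) / 10000) ^ 2) <
      3 * ((g0 : ℝ) / 10000) ^ 4 * ((g1 : ℝ) / 10000) ^ 2 * (P / ((qn : ℝ) / 1000000) *
      ((K.DD RS qn (100000000 * An) (100000000 * Hn) g1 T XD YD L : ℝ) / (30000000000000 * (RS : ℝ) ^ 3))) +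
      3 * (P / ((qn : ℝ) / 1000000) *
      ((K.DD RS qn (100000000 * An) (100000000 * Hn) (100000000 / g0 + 1) T XD YD L' : ℝ) /
        (30000000000000 * (RS : ℝ) ^ 3))) := by
  have hR : (0 : ℝ) < RS := by exact_mod_cast hRS
  have hq : (0 : ℝ) < qn := by exact_mod_cast hqn
  unfold K.ucell at h
  rw [fb_eq, fb_eq, fb_eq, fb_eq, fb_eq, fb_eq, fb_eq, cond_and, cond_and, ble_iff, ble_iff,
    ble_iff] at h
  obtain ⟨h1, h2, h3⟩ := h
  set D : ℕ := K.DD RS qn (100000000 * An) (100000000 * Hn) g1 T XD YD L with hD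
  set D' : ℕ := K.DD RS qn (100000000 * An) (100000000 * Hn) (100000000 / g0 + 1) T XD YD L' with hD'
  have h2' : (qn * (RS * (RS * RS))) * 1000000000000000 + 1 ≤ (g0 * g0) * D := h2
  have h3' : (((qn * (RS * (RS * RS))) * 1000000000000000) * ((g0 * g0) * (g1 * g1)) +
      ((qn * (RS * (RS * RS))) * 100000000000000000000000) * (g1 * g1)) + 1 ≤
      ((g0 * g0) * (g0 * g0)) * ((g1 * g1) * D) + 1000000000000000000000000 * D' := h3
  have h2r : ((qn : ℝ) * (RS * (RS * RS))) * 1000000000000000 + 1 ≤ ((g0 : ℝ) * g0) * D := by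
    exact_mod_cast h2'
  have h3r : ((((qn : ℝ) * (RS * (RS * RS))) * 1000000000000000) * (((g0 : ℝ) * g0) * (g1 * g1)) +
      ((qn * (RS * (RS * RS))) * 100000000000000000000000) * (g1 * g1)) + 1 ≤
      (((g0 : ℝ) * g0) * (g0 * g0)) * ((g1 * g1) * D) + 1000000000000000000000000 * D' := by
    exact_mod_cast h3'
  refine ⟨h1, ?_, ?_⟩
  · have e : 3 * ((g0 : ℝ) / 10000) ^ 2 * (P / ((qn : ℝ) / 1000000) *
      ((D : ℝ) / (30000000000000 * (RS : ℝ) ^ 3))) =
      P * ((((g0 : ℝ) * g0) * D) / (((qn : ℝ) * (RS * (RS * RS))) * 1000000000000000)) := by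
      field_simp
      ring
    rw [e]
    apply lt_mul_of_one_lt_right hP
    rw [one_lt_div (by positivity)]
    linarith
  · have e1 : P * (((g0 : ℝ) / 10000) ^ 2 * ((g1 : ℝ) / 10000) ^ 2 + ((g1 : ℝ) / 10000) ^ 2) =
        P * (((((qn : ℝ) * (RS * (RS * RS))) * 1000000000000000) * (((g0 : ℝ) * g0) * (g1 * g1)) +
      ((qn * (RS * (RS * RS))) * 100000000000000000000000) * (g1 * g1)) /
        (((qn : ℝ) * (RS * (RS * RS))) * 10000000000000000000000000000000)) := by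
      field_simp
      ring
    have e2 : 3 * ((g0 : ℝ) / 10000) ^ 4 * ((g1 : ℝ) / 10000) ^ 2 * (P / ((qn : ℝ) / 1000000) *
      ((D : ℝ) / (30000000000000 * (RS : ℝ) ^ 3))) +
      3 * (P / ((qn : ℝ) / 1000000) * ((D' : ℝ) / (30000000000000 * (RS : ℝ) ^ 3))) =
        P * (((((g0 : ℝ) * g0) * (g0 * g0)) * ((g1 * g1) * D) + 1000000000000000000000000 * D') /
        (((qn : ℝ) * (RS * (RS * RS))) * 10000000000000000000000000000000)) := by
      field_simp
      ring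
    rw [e1, e2]
    apply mul_lt_mul_of_pos_left _ hP
    apply div_lt_div_of_pos_right _ (by positivity)
    linarith

theorem core (hshell : S_shellN) (hJ2 : S_J2) (hell : S_ell) (hscale : S_scale) (hkk : S_kk)
    (hint : S_int) {RS N C qn An Hn T XD YD GD LD LD' n : ℕ} (hCC : CC RS N C) (hqn : 0 < qn)
    (hfan : K.fan N C T XD YD = true) (hel : K.ellok N C An Hn = true)
    (hg0 : K.dg GD 32 0 = 10000)
    (hcell : ∀ k < n, K.ucell RS qn An Hn T XD YD (K.dg GD 32 k) (K.dg GD 32 (k + 1))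
      (K.dg LD 32 k) (K.dg LD' 32 k) = true)
    (hend : K.uend RS N C qn (K.dg GD 32 n) = true) {w0 : ℝ} {U0 U1 : Set (ℝ × ℝ)} {s t : ℝ}
    (h0 : Sol w0 U0) (hU0 : U0 ⊆ stair (1 / (RS : ℝ)) N (cf C))
    (hU1 : U1 ⊆ stair (1 / (RS : ℝ)) N (cf C)) (hq0 : (qn : ℝ) / 1000000 ≤ π * w0)
    (ht : 0 < t) (hts : t < s) (hst : 1 ≤ s * t) (hsum : SumIneq w0 U0 U1 s t) : False := by
  have hR : (0 : ℝ) < RS := by exact_mod_cast hCC.rs
  have hqn' : (0 : ℝ) < qn := by exact_mod_cast hqn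
  have hs0 : 0 < s := ht.trans hts
  have hs1 : 1 < s := by
    by_contra hcon
    push Not at hcon
    nlinarith
  obtain ⟨-, -, q, q', hqc, hqc', hq2, hq2', hquad, hineq⟩ := hsum
  obtain ⟨hHn, hHA, hellq⟩ := hell RS N C An Hn hCC hel
  have hF0 := sol_fi h0
  set P : ℝ := PP U0 with hP
  have hPw : P = π * w0 := h0.mass
  have hP0 : 0 < P := by rw [hPw]; exact mul_pos Real.pi_pos h0.wpos
  -- break points
  have hG : ∀ k ≤ n, 10000 ≤ K.dg GD 32 k := by
    intro k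
    induction k with
    | zero => intro _; rw [hg0]
    | succ k ih =>
      intro hk
      have h1 := ih (by omega)
      have h2 := (ucell_real hCC.rs hqn (by omega) (hcell k (by omega)) hP0).1
      omega
  have hslt : s < (K.dg GD 32 n : ℝ) / 10000 :=
    s_lt hCC hend (by have := hG n le_rfl; omega) h0 hU0 hU1 hq0 hs0 hqc hquad
  -- the integral
  set W : ℝ → ℝ := fun σ => ∫ y in dil σ U0, ff q q' y * y.2 with hW
  have hdil : ∀ σ : ℝ, 0 < σ → Fi (dil σ U0) := fun σ hσ => (hscale U0 hF0 σ hσ).1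
  have hWint : ∀ σ : ℝ, 0 < σ → IntegrableOn (fun y => ff q q' y * y.2) (dil σ U0) :=
    fun σ hσ => ff_int hkk hint (hdil σ hσ) hq2 hq2'
  have hWdiff : ∀ a b : ℝ, 0 < a → a ≤ b →
      ∫ y in dil b U0 \ dil a U0, ff q q' y * y.2 = W b - W a := by
    intro a b ha hab
    exact setIntegral_sdiff (hdil a ha).meas (hWint b (ha.trans_le hab))
      (dil_mono h0.low h0.sub ha hab)
  have hne : ∀ z : ℝ × ℝ, ∀ᵐ y : ℝ × ℝ, y ≠ z := by
    intro z; rw [ae_iff]; simp
  have hae : ∀ᵐ y : ℝ × ℝ, y ∈ UH → ∃ p : ℝ × ℝ,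
      p.1 ^ 2 / ((An : ℝ) / (RS : ℝ) ^ 2) + p.2 ^ 2 / ((Hn : ℝ) / (RS : ℝ) ^ 2) ≤ 1 ∧
      J2 p y ≤ ff q q' y := by
    filter_upwards [hne q, hne (-q.1, q.2), hne q', hne (-q'.1, q'.2)] with y h1 h2 h3 h4 hy
    rcases le_total (kaps q y) (kaps q' y) with h | h
    · refine ⟨q, hellq q (closure_mono hU1 hqc), ?_⟩
      unfold ff
      rw [min_eq_left h]
      refine hJ2 q y hq2 hy (Ne.symm h1) ?_
      intro he
      apply h2
      rw [he]
      simp
    · refine ⟨q', hellq q' (closure_mono hU1 hqc'), ?_⟩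
      unfold ff
      rw [min_eq_right h]
      refine hJ2 q' y hq2' hy (Ne.symm h3) ?_
      intro he
      apply h4
      rw [he]
      simp
  have hshell' : ∀ (g Lam : ℕ) (a b : ℝ), 0 < g → 0 < a → a ≤ b → b ≤ (g : ℝ) / 10000 →
      (b ^ 3 - a ^ 3) * (P / ((qn : ℝ) / 1000000) *
        ((K.DD RS qn (100000000 * An) (100000000 * Hn) g T XD YD Lam : ℝ) /
          (30000000000000 * (RS : ℝ) ^ 3))) ≤ W b - W a := by
    intro g Lam a b hg ha hab hbg
    rw [← hWdiff a b ha hab]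
    exact hshell RS N C qn An Hn T XD YD g Lam U0 (ff q q') a b hCC hfan hHn hHA hg h0.opn h0.sub
      h0.bdd h0.low hU0 (by rw [h0.mass]; exact hq0) ha hab hbg hae
      (fun y hy => ff_nonneg hkk hq2 hq2' hy) (ff_meas q q')
      ((hWint b (ha.trans_le hab)).mono_set sdiff_subset)
  -- the function `H`
  set x : ℝ → ℝ := fun r => max t (1 / r) with hx
  set H : ℝ → ℝ := fun r => W r - W (x r) - P * (r - x r) with hH
  have hstart : H (max 1 t) = 0 := by
    have e : x (max 1 t) = max 1 t := by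
      simp only [hx]
      rcases le_total t 1 with h | h
      · rw [max_eq_left h, div_one, max_eq_right h]
      · rw [max_eq_right h]
        apply max_eq_left
        rw [div_le_iff₀ ht]
        nlinarith
    simp only [hH]
    rw [e]
    ring
  have key : ∀ k ≤ n, ∀ r : ℝ, max 1 t < r → r ≤ s → r ≤ (K.dg GD 32 k : ℝ) / 10000 → 0 < H r := by
    intro k
    induction k with
    | zero =>
      intro _ r hr _ hr2
      rw [hg0] at hr2
      have := (le_max_left 1 t).trans_lt hr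
      norm_num at hr2
      linarith
    | succ k ih =>
      intro hk r hr hrs hrg
      by_cases hc : r ≤ (K.dg GD 32 k : ℝ) / 10000
      · exact ih (by omega) r hr hrs hc
      · push Not at hc
        set g0 : ℕ := K.dg GD 32 k with hg0d
        set g1 : ℕ := K.dg GD 32 (k + 1) with hg1d
        have hg0' : 10000 ≤ g0 := hG k (by omega)
        have hg0r : (10000 : ℝ) ≤ g0 := by exact_mod_cast hg0'
        set σ0 : ℝ := (g0 : ℝ) / 10000 with hσ0
        set σ1 : ℝ := (g1 : ℝ) / 10000 with hσ1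
        have hσ01 : 1 ≤ σ0 := by rw [hσ0, le_div_iff₀ (by norm_num)]; linarith
        obtain ⟨hg01, hc1, hc2⟩ := ucell_real hCC.rs hqn (by omega) (hcell k (by omega)) hP0
        set r1 : ℝ := max (max 1 t) σ0 with hr1
        have hr1r : r1 < r := max_lt hr hc
        have hr11 : 1 ≤ r1 := (le_max_left 1 t).trans (le_max_left _ _)
        have hr1t : t ≤ r1 := (le_max_right 1 t).trans (le_max_left _ _)
        have hr1σ : σ0 ≤ r1 := le_max_right _ _
        have hH1 : 0 ≤ H r1 := by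
          rcases le_or_gt σ0 (max 1 t) with h | h
          · rw [hr1, max_eq_left h, hstart]
          · rw [hr1, max_eq_right h.le]
            exact (ih (by omega) σ0 h (hc.le.trans hrs) le_rfl).le
        -- shells
        have hxr : 0 < x r := ht.trans_le (le_max_left _ _)
        have hxle : x r ≤ x r1 := by
          apply max_le_max le_rfl
          exact one_div_le_one_div_of_le (by linarith) hr1r.le
        have hx1r1 : x r1 ≤ r1 := by
          apply max_le hr1t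
          rw [div_le_iff₀ (by linarith)]
          nlinarith
        have hsh1 := hshell' g1 (K.dg LD 32 k) r1 r (by omega) (by linarith) hr1r.le hrg
        set I : ℝ := P / ((qn : ℝ) / 1000000) *
          ((K.DD RS qn (100000000 * An) (100000000 * Hn) g1 T XD YD (K.dg LD 32 k) : ℝ) /
          (30000000000000 * (RS : ℝ) ^ 3)) with hI
        set I' : ℝ := P / ((qn : ℝ) / 1000000) *
          ((K.DD RS qn (100000000 * An) (100000000 * Hn) (100000000 / g0 + 1) T XD YD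
            (K.dg LD' 32 k) : ℝ) / (30000000000000 * (RS : ℝ) ^ 3)) with hI'
        have hI0 : 0 ≤ I := by positivity
        have hI'0 : 0 ≤ I' := by positivity
        have hcase : x r1 = x r ∨ (x r < x r1 ∧ x r1 = 1 / r1 ∧ 1 / r ≤ x r) := by
          rcases eq_or_lt_of_le hxle with h | h
          · exact Or.inl h.symm
          · right
            refine ⟨h, ?_, le_max_right _ _⟩
            rcases le_total t (1 / r1) with h2 | h2
            · exact max_eq_right h2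
            · exfalso
              have e1 : x r1 = t := max_eq_left h2
              have e2 : t ≤ x r := le_max_left _ _
              linarith
        have hsh2 : (x r1 ^ 3 - x r ^ 3) * I' ≤ W (x r1) - W (x r) := by
          rcases hcase with h | ⟨h1, h2, -⟩
          · rw [h]; simp
          · refine hshell' (100000000 / g0 + 1) (K.dg LD' 32 k) (x r) (x r1) (Nat.succ_pos _) hxr hxle ?_
            rw [h2]
            have e1 : 1 / r1 ≤ 1 / σ0 := one_div_le_one_div_of_le (by linarith) hr1σ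
            refine e1.trans ?_
            rw [hσ0, one_div_div, div_le_div_iff₀ (by linarith) (by norm_num)]
            have e2 : 100000000 < g0 * (100000000 / g0 + 1) :=
              Nat.lt_mul_div_succ _ (by omega)
            have e3 : (100000000 : ℝ) < g0 * ((100000000 / g0 + 1 : ℕ) : ℝ) := by exact_mod_cast e2
            linarith
        have halg := cell_alg (σ0 := σ0) (σ1 := σ1) (r1 := r1) (r2 := r) (x1 := x r1) (x2 := x r)
          (by linarith) hr1σ hr1r hrg hI0 hI'0 hc1 hc2 hcase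
        have e : H r - H r1 = (W r - W r1) + (W (x r1) - W (x r)) -
            P * ((r - r1) + (x r1 - x r)) := by
          simp only [hH]; ring
        linarith
  have hfin := key n le_rfl s (max_lt hs1 hts) le_rfl hslt.le
  have hxs : x s = t := by
    apply max_eq_left
    rw [div_le_iff₀ hs0]
    linarith
  simp only [hH] at hfin
  rw [hxs, ← hWdiff t s ht hts.le] at hfin
  have hI : ∫ y in dil s U0 \ dil t U0, ff q q' y * y.2 =
      π * ∫ y in dil s U0 \ dil t U0, (min (kaps q y) (kaps q' y)) * y.2 := by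
    rw [← integral_const_mul]
    congr 1
    funext y
    simp only [ff]
    ring
  rw [hI] at hfin
  have h5 : π * ∫ y in dil s U0 \ dil t U0, (min (kaps q y) (kaps q' y)) * y.2 ≤
      π * ((s - t) * w0) := mul_le_mul_of_nonneg_left hineq Real.pi_pos.le
  rw [hPw] at hfin
  linarith

end T26c

open T08 T09 T25d T26c in
theorem t_ufan (hsum : S_sum) (htouch : S_touch) (hshell : S_shellN) (hJ2 : S_J2) (hell : S_ell)
    (hscale : S_scale) (hkk : S_kk) (hint : S_int) : S_ufan := by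
  intro RS N C qn An Hn T XD YD GD LD LD' n hCC hqn hfan hel hg0 hcell hend hconf w0 U0 w1 U1 h0 h1
    hq0 hq1
  obtain ⟨s, t, ht, hts, hs1, hs2⟩ := hsum w0 U0 w1 U1 h0 h1
  have hs : 0 < s := ht.trans_le hts
  have hU0 := hconf w0 U0 h0 hq0
  have hU1 := hconf w1 U1 h1 hq1
  rcases eq_or_lt_of_le hts with h | h
  · subst h
    exact eq_case htouch hscale h0 h1 ht (Subset.antisymm hs1.2.1 hs1.1)
  · exfalso
    rcases le_total 1 (s * t) with hst | hst
    · exact core hshell hJ2 hell hscale hkk hint hCC hqn hfan hel hg0 hcell hend h0 hU0 hU1 hq0 ht h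
        hst hs1
    · refine core hshell hJ2 hell hscale hkk hint hCC hqn hfan hel hg0 hcell hend h1 hU1 hU0 hq1
        (one_div_pos.2 hs) (one_div_lt_one_div_of_lt ht h) ?_ hs2
      rw [one_div_mul_one_div, le_div_iff₀ (by positivity)]
      linarith

end SV
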