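import Pool.Agent.Helper779.SV.Stmts4
import Pool.Agent.Helper779.SV.T01
import Pool.Agent.Helper779.SV.T02
import Pool.Agent.Helper779.SV.T03
import Pool.Agent.Helper779.SV.T13
import Pool.Agent.Helper779.SV.T14
import Pool.Agent.Helper779.SV.T21
import Pool.Agent.Helper779.SV.T25b

/-!
# T27: S_KN, S_lfan
-/

open MeasureTheory Set Filter Topology
open scoped Real

namespace SV
namespace T27

open T25b

theorem sumN_eq (f : ℕ → ℕ) (n : ℕ) : K.sumN f n = ∑ i ∈ Finset.range n, f i := by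
  induction n with
  | zero => rfl
  | succ n ih =>
    rw [Finset.sum_range_succ, ← ih]
    exact Nat.add_comm (f n) (K.sumN f n)

theorem edge_pos {RS N C T XD YD : ℕ} (hCC : CC RS N C) (h : K.fan N C T XD YD = true) :
    ∀ t < T, 0 < K.dg XD 16 t + K.dg YD 16 t ∧ 0 < K.dg XD 16 (t + 1) + K.dg YD 16 (t + 1) := by
  intro t ht
  simp only [K.fan, cond_f, allN_iff] at h
  have h1 := h.2.2.2.2 t ht
  simp only [K.edge, fb_eq, cond_f, Nat.beq_eq, Nat.mul_eq, Nat.add_eq, Nat.sub_eq,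
    Nat.succ_eq_add_one] at h1
  obtain ⟨-, h2⟩ := h1
  cases hX : Nat.beq (K.dg XD 16 t) (K.dg XD 16 (t + 1)) with
  | true =>
    rw [hX] at h2
    simp only [cond_true, cond_f, Nat.beq_eq, Nat.ble_eq] at h2
    obtain ⟨h3, h4, h5⟩ := h2
    have h6 := hCC.pos _ (show Nat.div (K.dg YD 16 t) 2 < N from h4)
    unfold cf at h6
    rw [h5] at h6
    exact ⟨by omega, by omega⟩
  | false =>
    rw [hX] at h2
    simp only [cond_false, cond_f, Nat.beq_eq, Nat.ble_eq] at h2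
    obtain ⟨h3, -, h4, -⟩ := h2
    have h5 : 1 ≤ K.dg YD 16 t / 2 := h4
    exact ⟨by omega, by omega⟩

/-! ### the staircase -/

theorem stair_low {u : ℝ} {N : ℕ} {c : ℕ → ℕ} : Low (stair u N c) := by
  rintro x ⟨hx, i, hi, h1, h2⟩ y hy hy2 hyx
  exact ⟨hy2, i, hi, hyx.trans h1, hy.trans h2⟩

theorem stair_sub {u : ℝ} {N : ℕ} {c : ℕ → ℕ} : stair u N c ⊆ UH := fun _ hx => hx.1

theorem stair_eq {u : ℝ} {N : ℕ} {c : ℕ → ℕ} : stair u N c =
    ⋃ i ∈ Finset.range N, ({x : ℝ × ℝ | 0 < x.2} ∩ ({x | x.2 ≤ 2 * u * ((i : ℝ) + 1)} ∩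
      {x | |x.1| ≤ u * (c i : ℝ)})) := by
  ext x
  simp only [stair, mem_ofPred_eq, mem_iUnion, mem_inter_iff, Finset.mem_range, exists_prop]
  constructor
  · rintro ⟨h, i, hi, h1, h2⟩
    exact ⟨i, hi, h, h1, h2⟩
  · rintro ⟨i, hi, h, h1, h2⟩
    exact ⟨h, i, hi, h1, h2⟩

theorem stair_meas {u : ℝ} {N : ℕ} {c : ℕ → ℕ} : MeasurableSet (stair u N c) := by
  rw [stair_eq]
  refine Finset.measurableSet_biUnion _ fun i _ => ?_
  exact (measurableSet_lt (by fun_prop) (by fun_prop)).inter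
    ((measurableSet_le (by fun_prop) (by fun_prop)).inter
      (measurableSet_le (by fun_prop) (by fun_prop)))

theorem stair_bdd {u : ℝ} {N : ℕ} {c : ℕ → ℕ} : Bornology.IsBounded (stair u N c) := by
  rw [stair_eq]
  rw [Bornology.isBounded_biUnion_finset]
  intro i _
  refine (Metric.isBounded_Icc ((-(u * (c i : ℝ)), 0) : ℝ × ℝ) (u * (c i : ℝ), 2 * u * ((i : ℝ) + 1))).subset ?_
  rintro x ⟨h1, h2, h3⟩
  have h4 := abs_le.1 (show |x.1| ≤ u * (c i : ℝ) from h3)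
  have h5 : (0:ℝ) < x.2 := h1
  exact ⟨⟨h4.1, h5.le⟩, ⟨h4.2, h2⟩⟩

theorem stair_fi {u : ℝ} {N : ℕ} {c : ℕ → ℕ} : Fi (stair u N c) :=
  T21.fi_of_bdd stair_meas stair_sub stair_bdd

theorem dil_zero {A : Set (ℝ × ℝ)} (hA : A ⊆ UH) : dil 0 A = ∅ := by
  ext x
  simp only [dil, inv_zero, zero_mul, mem_ofPred_eq, mem_empty_iff_false, iff_false]
  intro h
  have : (0:ℝ) < 0 := hA h
  exact lt_irrefl _ this

theorem dil_fi {A : Set (ℝ × ℝ)} (hA : Fi A) {r : ℝ} (hr : 0 ≤ r) : Fi (dil r A) := by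
  rcases hr.lt_or_eq with h | h
  · exact (t_scale A hA r h).1
  · rw [← h, dil_zero hA.sub]
    exact ⟨MeasurableSet.empty, empty_subset _, integrableOn_empty⟩

theorem dil_PP {A : Set (ℝ × ℝ)} (hA : Fi A) {r : ℝ} (hr : 0 ≤ r) : PP (dil r A) = r ^ 3 * PP A := by
  rcases hr.lt_or_eq with h | h
  · exact (t_scale A hA r h).2.1
  · rw [← h, dil_zero hA.sub]
    simp [PP]

/-- radial shell `m` of the staircase -/
def shl (S : Set (ℝ × ℝ)) (m : ℕ) : Set (ℝ × ℝ) :=
  dil (((m : ℝ) + 1) / 10) S \ dil ((m : ℝ) / 10) S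

theorem shl_cover {S : Set (ℝ × ℝ)} (hS : S ⊆ UH) {y : ℝ × ℝ} (hy : y ∈ S) :
    ∃ m < 10, y ∈ shl S m := by
  classical
  have h10 : ∃ m : ℕ, y ∈ dil ((m : ℝ) / 10) S := ⟨10, by
    norm_num
    rw [T13.dil_one]
    exact hy⟩
  set m := Nat.find h10 with hm
  have h1 : y ∈ dil ((m : ℝ) / 10) S := Nat.find_spec h10
  have h2 : m ≤ 10 := Nat.find_min' h10 (by
    norm_num
    rw [T13.dil_one]
    exact hy)
  have h3 : m ≠ 0 := by
    intro h
    rw [h] at h1
    simp only [Nat.cast_zero, zero_div] at h1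
    rw [dil_zero hS] at h1
    exact h1
  obtain ⟨k, hk⟩ : ∃ k, m = k + 1 := ⟨m - 1, by omega⟩
  refine ⟨k, by omega, ?_, ?_⟩
  · rw [hk] at h1
    push_cast at h1
    exact h1
  · exact Nat.find_min h10 (by omega)

theorem shl_meas {S : Set (ℝ × ℝ)} (hS : MeasurableSet S) (m : ℕ) : MeasurableSet (shl S m) :=
  (T21.meas_dil hS _).diff (T21.meas_dil hS _)

end T27

open T27 T25b in
theorem t_KN (hfan : S_fan) (hktr : S_ktr) (hkT : S_kT) : S_KN := by
  intro RS N C T XD YD Ah Hh Lam V f hCC hF hHh hHA hVm hVs hf hfm hfi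
  have hR : (0:ℝ) < RS := by exact_mod_cast hCC.rs
  set u : ℝ := 1 / (RS : ℝ) with hu
  have hu0 : 0 < u := by positivity
  set S := stair u N (cf C) with hS
  obtain ⟨g1, g2, g3, g4, g5⟩ := hfan RS N C T XD YD hCC hF
  have hSm : MeasurableSet S := stair_meas
  have hSs : S ⊆ UH := stair_sub
  have hSF : Fi S := stair_fi
  have hVF : Fi V := ⟨hVm, hVs.trans hSs, hSF.int.mono_set hVs⟩
  have hAh : 0 < Ah := lt_of_lt_of_le hHh hHA
  set A : ℝ := (Ah : ℝ) / 100000000 / (RS : ℝ) ^ 2 with hA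
  set H : ℝ := (Hh : ℝ) / 100000000 / (RS : ℝ) ^ 2 with hH
  have hH0 : 0 < H := by
    have : (0:ℝ) < Hh := by exact_mod_cast hHh
    positivity
  have hHA' : H ≤ A := by
    have : (Hh : ℝ) ≤ Ah := by exact_mod_cast hHA
    rw [hA, hH]
    gcongr
  -- the integer lower bounds
  set kt : ℕ → ℕ → ℕ := fun m t => K.kT (1000000000000000 * (RS * RS)) Ah Hh (1000 * (m + 1)) XD YD t
    with hkt
  set c : ℕ → ℕ → ℝ := fun m t => ((Lam - kt m t : ℕ) : ℝ) / 10000000 with hc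
  have hc0 : ∀ m t, 0 ≤ c m t := fun m t => by
    simp only [hc]
    positivity
  set E : ℕ → ℕ → Set (ℝ × ℝ) := fun m t => shl S m ∩ sec RS XD YD t with hE
  have hEm : ∀ m t, MeasurableSet (E m t) := fun m t => (shl_meas hSm m).inter (g1 t)
  have hdil : ∀ (r : ℝ), 0 ≤ r → ∀ t, dil r (S ∩ sec RS XD YD t) = dil r S ∩ sec RS XD YD t := by
    intro r hr t
    rcases hr.lt_or_eq with h | h
    · have h1 : dil r (S ∩ sec RS XD YD t) = dil r S ∩ dil r (sec RS XD YD t) := rfl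
      rw [h1, g3 t r h]
    · rw [← h, dil_zero hSs, dil_zero (inter_subset_left.trans hSs), empty_inter]
  have hTF : ∀ t, Fi (S ∩ sec RS XD YD t) := fun t =>
    ⟨hSm.inter (g1 t), inter_subset_left.trans hSs, hSF.int.mono_set inter_subset_left⟩
  have hE2 : ∀ m t, E m t = dil (((m : ℝ) + 1) / 10) (S ∩ sec RS XD YD t) \
      dil ((m : ℝ) / 10) (S ∩ sec RS XD YD t) := by
    intro m t
    rw [hdil _ (by positivity), hdil _ (by positivity)]
    ext x
    simp only [hE, shl, mem_inter_iff, Set.mem_sdiff]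
    tauto
  have hsub : ∀ (m : ℕ) t, dil ((m : ℝ) / 10) (S ∩ sec RS XD YD t) ⊆
      dil (((m : ℝ) + 1) / 10) (S ∩ sec RS XD YD t) := by
    intro m t
    rw [hdil _ (by positivity), hdil _ (by positivity)]
    apply inter_subset_inter_left
    rcases Nat.eq_zero_or_pos m with h | h
    · rw [h]
      simp only [Nat.cast_zero, zero_div]
      rw [dil_zero hSs]
      exact empty_subset _
    · apply T21.dil_mono_low hSs stair_low
      · have : (0:ℝ) < m := by exact_mod_cast h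
        positivity
      · apply div_le_div_of_nonneg_right _ (by norm_num)
        linarith
  have hEF : ∀ m t, IntegrableOn (fun y : ℝ × ℝ => y.2) (E m t) := fun m t => by
    rw [hE2]
    exact (dil_fi (hTF t) (by positivity)).int.mono_set sdiff_subset
  have hPE : ∀ (m : ℕ), ∀ t < T, PP (E m t) ≤ (1 + 3 * ((m : ℝ) * (m + 1))) / 1000 *
      ((K.nu3 XD YD t : ℝ) / (3 * (RS : ℝ) ^ 3)) := by
    intro m t ht
    have h3 : PP (E m t) = PP (dil (((m : ℝ) + 1) / 10) (S ∩ sec RS XD YD t)) -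
        PP (dil ((m : ℝ) / 10) (S ∩ sec RS XD YD t)) := by
      rw [hE2 m t]
      unfold PP
      exact setIntegral_sdiff (T21.meas_dil (hTF t).meas _)
        (dil_fi (hTF t) (by positivity)).int (hsub m t)
    rw [h3, dil_PP (hTF t) (by positivity), dil_PP (hTF t) (by positivity)]
    have h4 := (g5 S hSm le_rfl t ht).1
    have h5 : (((m : ℝ) + 1) / 10) ^ 3 * PP (S ∩ sec RS XD YD t) -
        ((m : ℝ) / 10) ^ 3 * PP (S ∩ sec RS XD YD t) =
        (1 + 3 * ((m : ℝ) * (m + 1))) / 1000 * PP (S ∩ sec RS XD YD t) := by ring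
    rw [h5]
    exact mul_le_mul_of_nonneg_left h4 (by positivity)
  -- the comparison function
  set w : ℝ × ℝ → ℝ := fun y => ∑ m ∈ Finset.range 10, ∑ t ∈ Finset.range T,
    c m t * (E m t).indicator (fun y : ℝ × ℝ => y.2) y with hw
  have hwi : ∀ m t, IntegrableOn (fun y => c m t * (E m t).indicator (fun y : ℝ × ℝ => y.2) y) V :=
    fun m t => (((integrable_indicator_iff (hEm m t)).2 (hEF m t)).const_mul _).integrableOn
  have hw1 : IntegrableOn w V :=
    integrable_finsetSum _ fun m _ => integrable_finsetSum _ fun t _ => hwi m t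
  have hpt : ∀ᵐ y ∂(volume.restrict V), (Lam : ℝ) / 10000000 * y.2 - w y ≤ f y * y.2 := by
    have hne : ∀ᵐ y : ℝ × ℝ ∂(volume.restrict V), y.1 ≠ 0 := by
      apply ae_restrict_of_ae
      rw [ae_iff]
      have h0 : {y : ℝ × ℝ | ¬ y.1 ≠ 0} = ({0} : Set ℝ) ×ˢ (univ : Set ℝ) := by
        ext y
        simp
      rw [h0, Measure.volume_eq_prod, Measure.prod_prod]
      simp
    filter_upwards [ae_restrict_of_ae hf, ae_restrict_mem hVm, hne] with y hy hyV hy1
    obtain ⟨q, hq, hqf⟩ := hy hyV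
    have hyS := hVs hyV
    have hy2 : 0 < y.2 := hSs hyS
    obtain ⟨t, ht, hyt⟩ := g4 y (hSs hyS) hy1
    obtain ⟨m, hm, hym⟩ := shl_cover hSs hyS
    have hyE : y ∈ E m t := ⟨hym, hyt⟩
    have h1 : c m t * y.2 ≤ w y := by
      have h2 : c m t * (E m t).indicator (fun y : ℝ × ℝ => y.2) y = c m t * y.2 := by
        rw [indicator_of_mem hyE]
      have hind : ∀ m t, 0 ≤ c m t * (E m t).indicator (fun y : ℝ × ℝ => y.2) y := fun m t =>
        mul_nonneg (hc0 m t) (by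
          by_cases h : y ∈ E m t
          · rw [indicator_of_mem h]
            exact hy2.le
          · rw [indicator_of_notMem h])
      rw [← h2]
      refine le_trans ?_ (Finset.single_le_sum (f := fun m => ∑ t ∈ Finset.range T,
        c m t * (E m t).indicator (fun y : ℝ × ℝ => y.2) y)
        (fun m _ => Finset.sum_nonneg fun t _ => hind m t) (Finset.mem_range.2 hm))
      exact Finset.single_le_sum (f := fun t => c m t * (E m t).indicator (fun y : ℝ × ℝ => y.2) y)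
        (fun t _ => hind m t) (Finset.mem_range.2 ht)
    have h2 : (kt m t : ℝ) / 10000000 ≤ J2 q y := by
      have hyE' := hyE
      rw [hE2] at hyE'
      have h3 : (((((m : ℝ) + 1) / 10))⁻¹ * y.1, ((((m : ℝ) + 1) / 10))⁻¹ * y.2) ∈
        S ∩ sec RS XD YD t := hyE'.1
      obtain ⟨ρ, θ, hρ0, hρ1, hθ0, hθ1, e1, e2⟩ := (g5 S hSm le_rfl t ht).2 _ h3
      have hr : (0:ℝ) < ((m : ℝ) + 1) / 10 := by positivity
      simp only at e1 e2
      rw [abs_mul, abs_of_pos (inv_pos.2 hr), inv_mul_eq_iff_eq_mul₀ hr.ne', ← mul_assoc] at e1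
      rw [inv_mul_eq_iff_eq_mul₀ hr.ne', ← mul_assoc] at e2
      have h4 := hktr RS N C T XD YD A H (((m : ℝ) + 1) / 10) hCC hF hH0 hHA' hr t ht
        (((m : ℝ) + 1) / 10 * ρ) θ (by positivity) (by nlinarith) hθ0 hθ1 q y hq hy2 e1 e2
      refine le_trans ?_ h4
      have h5 := edge_pos hCC hF t ht
      have h6 := hkT RS XD YD Ah Hh (1000 * (m + 1)) t hCC.rs hAh hHh (by omega) h5.1 h5.2
      have h7 : ((1000 * (m + 1) : ℕ) : ℝ) / 10000 = ((m : ℝ) + 1) / 10 := by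
        push_cast
        ring
      rw [h7] at h6
      exact h6
    have h3 : (Lam : ℝ) - kt m t ≤ ((Lam - kt m t : ℕ) : ℝ) := sub_ge _ _
    have h4 : (Lam : ℝ) / 10000000 - c m t ≤ f y := by
      simp only [hc]
      have : (Lam : ℝ) / 10000000 - ((Lam - kt m t : ℕ) : ℝ) / 10000000 ≤ (kt m t : ℝ) / 10000000 := by
        rw [← sub_div]
        apply div_le_div_of_nonneg_right _ (by norm_num)
        linarith
      linarith
    have h5 := mul_le_mul_of_nonneg_right h4 hy2.le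
    linarith
  have hint : ∫ y in V, ((Lam : ℝ) / 10000000 * y.2 - w y) ≤ ∫ y in V, f y * y.2 :=
    integral_mono_ae ((hVF.int.const_mul _).sub hw1) hfi hpt
  have hLi : IntegrableOn (fun y : ℝ × ℝ => (Lam : ℝ) / 10000000 * y.2) V := hVF.int.const_mul _
  rw [integral_sub hLi hw1, integral_const_mul] at hint
  have hPP : PP V = ∫ y in V, y.2 := rfl
  rw [← hPP] at hint
  refine le_trans ?_ hint
  apply sub_le_sub_left
  have hwv : ∫ y in V, w y = ∑ m ∈ Finset.range 10, ∑ t ∈ Finset.range T,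
      c m t * ∫ y in V, (E m t).indicator (fun y : ℝ × ℝ => y.2) y := by
    simp only [hw]
    rw [integral_finsetSum _ fun m _ => integrable_finsetSum _ fun t _ => hwi m t]
    refine Finset.sum_congr rfl fun m _ => ?_
    rw [integral_finsetSum _ fun t _ => hwi m t]
    refine Finset.sum_congr rfl fun t _ => ?_
    rw [integral_const_mul]
  rw [hwv]
  have hle : ∀ m t, ∫ y in V, (E m t).indicator (fun y : ℝ × ℝ => y.2) y ≤ PP (E m t) := by
    intro m t
    unfold PP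
    rw [← integral_indicator (hEm m t)]
    apply setIntegral_le_integral ((integrable_indicator_iff (hEm m t)).2 (hEF m t))
    refine Eventually.of_forall fun y => ?_
    apply indicator_nonneg
    intro z hz
    have : z ∈ dil (((m : ℝ) + 1) / 10) S := hz.1.1
    have h1 : (0:ℝ) < ((((m : ℝ) + 1) / 10))⁻¹ * z.2 := hSs this
    have h2 : (0:ℝ) < ((((m : ℝ) + 1) / 10))⁻¹ := by positivity
    exact ((mul_pos_iff_of_pos_left h2).1 h1).le
  have hSK : (K.SK (1000000000000000 * (RS * RS)) Ah Hh T XD YD Lam : ℝ) =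
      ∑ m ∈ Finset.range 10, ∑ t ∈ Finset.range T,
        ((Lam - kt m t : ℕ) : ℝ) * (K.nu3 XD YD t : ℝ) * (1 + 3 * ((m : ℝ) * (m + 1))) := by
    have h1 : K.SK (1000000000000000 * (RS * RS)) Ah Hh T XD YD Lam =
        ∑ m ∈ Finset.range 10, (∑ t ∈ Finset.range T, (Lam - kt m t) * K.nu3 XD YD t) *
          (3 * (m * (m + 1)) + 1) := by
      unfold K.SK
      rw [sumN_eq]
      refine Finset.sum_congr rfl fun m _ => ?_
      rw [fc_eq]
      unfold K.SF
      rw [sumN_eq]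
      rfl
    rw [h1]
    push_cast
    refine Finset.sum_congr rfl fun m _ => ?_
    rw [Finset.sum_mul]
    refine Finset.sum_congr rfl fun t _ => ?_
    ring
  rw [hSK, Finset.sum_div]
  refine Finset.sum_le_sum fun m _ => ?_
  rw [Finset.sum_div]
  refine Finset.sum_le_sum fun t ht => ?_
  have h1 := mul_le_mul_of_nonneg_left ((hle m t).trans (hPE m t (Finset.mem_range.1 ht))) (hc0 m t)
  refine h1.trans (le_of_eq ?_)
  simp only [hc]
  field_simp
  ring

namespace T27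

theorem find_cell {g : ℕ → ℝ} {n : ℕ} {x : ℝ} (h0 : g 0 < x) (hn : x ≤ g n) :
    ∃ k < n, g k < x ∧ x ≤ g (k + 1) := by
  classical
  have hex : ∃ m, x ≤ g m := ⟨n, hn⟩
  set m := Nat.find hex with hm
  have h1 : x ≤ g m := Nat.find_spec hex
  have h2 : m ≤ n := Nat.find_min' hex hn
  have h3 : m ≠ 0 := by
    intro h
    rw [h] at h1
    linarith
  obtain ⟨k, hk⟩ : ∃ k, m = k + 1 := ⟨m - 1, by omega⟩
  refine ⟨k, by omega, ?_, ?_⟩
  · have := Nat.find_min hex (m := k) (by omega)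
    push Not at this
    exact this
  · rw [← hk]
    exact h1

theorem lend_real {RS q0 q1 Lam SKv τ : ℕ} (hRS : 0 < RS) (h : K.lend RS q0 q1 Lam SKv τ = true) :
    (SKv : ℝ) / (30000000000 * (RS : ℝ) ^ 3) < (q0 : ℝ) / 1000000 * ((τ : ℝ) / 10000 -
      (Lam : ℝ) / 10000000 * ((τ : ℝ) / 10000) ^ 3) - (q1 : ℝ) / 1000000 * (1 - (Lam : ℝ) / 10000000) := by
  simp only [K.lend, T25b.fb_eq, Nat.ble_eq, Nat.mul_eq, Nat.add_eq, Nat.succ_eq_add_one] at h
  have h1 : ((3000 * (RS * (RS * RS)) * (q0 * (Lam * (τ * (τ * τ))) + q1 * 10000000000000000000) +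
      SKv * 1000000000000000000 + 1 : ℕ) : ℝ) ≤
      ((3000 * (RS * (RS * RS)) * (q0 * τ * 1000000000000000 + q1 * Lam * 1000000000000) : ℕ) : ℝ) := by
    exact_mod_cast h
  push_cast at h1
  have hR : (0:ℝ) < RS := by exact_mod_cast hRS
  rw [← sub_pos]
  have e : (q0 : ℝ) / 1000000 * ((τ : ℝ) / 10000 -
      (Lam : ℝ) / 10000000 * ((τ : ℝ) / 10000) ^ 3) - (q1 : ℝ) / 1000000 * (1 - (Lam : ℝ) / 10000000) -
      (SKv : ℝ) / (30000000000 * (RS : ℝ) ^ 3) =
      (3000 * ((RS : ℝ) * (RS * RS)) * (q0 * τ * 1000000000000000 + q1 * Lam * 1000000000000) -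
        (3000 * ((RS : ℝ) * (RS * RS)) * (q0 * (Lam * (τ * (τ * τ))) + q1 * 10000000000000000000) +
      SKv * 1000000000000000000)) / (3000 * (RS : ℝ) ^ 3 * 10000000000000000000000000) := by
    field_simp
    ring
  rw [e]
  apply div_pos _ (by positivity)
  linarith

/-- affine in `Q`, concave in `t` -/
theorem corner {q0 qa qb Λ K a b t Q : ℝ} (hq0 : 0 ≤ q0) (hΛ : 0 ≤ Λ) (ha : 0 ≤ a) (hat : a ≤ t)
    (htb : t ≤ b) (hQa : qa ≤ Q) (hQb : Q ≤ qb)
    (h1 : K < q0 * (a - Λ * a ^ 3) - qa * (1 - Λ)) (h2 : K < q0 * (a - Λ * a ^ 3) - qb * (1 - Λ))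
    (h3 : K < q0 * (b - Λ * b ^ 3) - qa * (1 - Λ)) (h4 : K < q0 * (b - Λ * b ^ 3) - qb * (1 - Λ)) :
    K < q0 * (t - Λ * t ^ 3) - Q * (1 - Λ) := by
  have hA : K < q0 * (a - Λ * a ^ 3) - Q * (1 - Λ) := by
    rcases le_total 0 (1 - Λ) with h | h
    · nlinarith
    · nlinarith
  have hB : K < q0 * (b - Λ * b ^ 3) - Q * (1 - Λ) := by
    rcases le_total 0 (1 - Λ) with h | h
    · nlinarith
    · nlinarith
  rcases (hat.trans htb).lt_or_eq with hab | hab
  · have hc : (b - t) * (a - Λ * a ^ 3) + (t - a) * (b - Λ * b ^ 3) ≤ (b - a) * (t - Λ * t ^ 3) := by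
      have : (b - a) * (t - Λ * t ^ 3) - ((b - t) * (a - Λ * a ^ 3) + (t - a) * (b - Λ * b ^ 3)) =
          Λ * ((b - a) * (t - a) * (b - t) * (a + b + t)) := by ring
      have h5 : 0 ≤ Λ * ((b - a) * (t - a) * (b - t) * (a + b + t)) := by
        apply mul_nonneg hΛ
        apply mul_nonneg
        · apply mul_nonneg
          · apply mul_nonneg <;> linarith
          · linarith
        · linarith
      linarith
    have h6 := mul_le_mul_of_nonneg_left hc hq0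
    have h7 : (b - a) * K < (b - a) * (q0 * (t - Λ * t ^ 3) - Q * (1 - Λ)) := by
      rcases hat.lt_or_eq with h | h
      · have h8 : (t - a) * K < (t - a) * (q0 * (b - Λ * b ^ 3) - Q * (1 - Λ)) :=
          mul_lt_mul_of_pos_left hB (by linarith)
        have h9 : (b - t) * K ≤ (b - t) * (q0 * (a - Λ * a ^ 3) - Q * (1 - Λ)) :=
          mul_le_mul_of_nonneg_left hA.le (by linarith)
        nlinarith
      · rw [← h]
        exact mul_lt_mul_of_pos_left hA (by linarith)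
    exact lt_of_mul_lt_mul_left h7 (by linarith)
  · have : t = a := by linarith
    rw [this]
    exact hA

end T27

open T27 T25b T13 in
theorem t_lfan (hfan : S_fan) (hktr : S_ktr) (hkT : S_kT) (hell : S_ell) : S_lfan := by
  intro RS0 N0 C0 An Hn RS N C q0 qa qb T XD YD TD LD n hCC0 hE0 hCC hF hq0 hqa hqab hcells
    w0 U0 w1 U1 h0 h1 hU0s hU1s hw0 hw1 hw1'
  have hpi := Real.pi_pos
  have hR : (0:ℝ) < RS := by exact_mod_cast hCC.rs
  have hR0 : (0:ℝ) < RS0 := by exact_mod_cast hCC0.rs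
  obtain ⟨t, ht0, hsub, -, q, hqD, hqV, hq2, hqe, -⟩ := t_touch t_cont t_scale w0 U0 w1 U1 h0 h1
  have f0 := sol_fi h0
  have f1 := sol_fi h1
  have fd : Fi (dil t U0) := (t_scale U0 f0 t ht0).1
  have hPd : PP (dil t U0) = t ^ 3 * PP U0 := (t_scale U0 f0 t ht0).2.1
  obtain ⟨-, -, m1, m2, -⟩ := t_mono (dil t U0) U1 f1 fd.meas hsub
  set V := U1 \ dil t U0 with hV
  have fV : Fi V := ⟨f1.meas.diff fd.meas, sdiff_subset.trans f1.sub, f1.int.mono_set sdiff_subset⟩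
  have sV : Sy V := (Sy.of_low h1.low h1.sub).diff ((Sy.of_low h0.low h0.sub).dil t)
  obtain ⟨s1, s2⟩ := symm_int t_int fV sV hq2
  have hI : ∫ y in V, kaps q y * y.2 ≤ w1 - t * w0 := by
    rw [s2, ← m2 q hq2]
    exact hqe
  have htw : t * w0 ≤ w1 := by
    have := m1 q hq2
    linarith
  have hPV : PP V = π * w1 - t ^ 3 * (π * w0) := by
    have h2 : PP V = PP U1 - PP (dil t U0) := by
      unfold PP
      exact setIntegral_sdiff fd.meas f1.int hsub
    rw [h2, hPd, h0.mass, h1.mass]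
  -- the cell
  simp only [K.lcells, fb_eq, cond_f, allN_iff, Nat.beq_eq, Nat.ble_eq, Nat.mul_eq,
    Nat.succ_eq_add_one] at hcells
  obtain ⟨c1, c2, c3⟩ := hcells
  have hq0r : (0:ℝ) < q0 := by exact_mod_cast hq0
  have hc2 : (10000:ℝ) * qb ≤ q0 * (K.dg TD 32 n : ℝ) := by exact_mod_cast c2
  have htq : t * (q0 : ℝ) ≤ qb := by
    have h2 : t * ((q0 : ℝ) / 1000000) ≤ t * (π * w0) := mul_le_mul_of_nonneg_left hw0 ht0.le
    have h3 : t * (π * w0) ≤ π * w1 := by nlinarith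
    linarith
  obtain ⟨k, hk, hk1, hk2⟩ := find_cell (g := fun k => (K.dg TD 32 k : ℝ)) (n := n) (x := 10000 * t)
    (by
      rw [c1]
      simp only [Nat.cast_zero]
      positivity)
    (by
      have h2 : (q0 : ℝ) * (10000 * t) ≤ q0 * (K.dg TD 32 n : ℝ) := by linarith
      exact le_of_mul_le_mul_left h2 hq0r)
  have hcell := c3 k hk
  set τ0 := K.dg TD 32 k with hτ0
  set τ1 := K.dg TD 32 (k + 1) with hτ1
  set Lam := K.dg LD 32 k with hLam
  simp only [K.lcell, fb_eq, cond_f, Nat.ble_eq, Nat.mul_eq, Nat.succ_eq_add_one] at hcell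
  obtain ⟨d1, d2, d3, d4, d5, d6⟩ := hcell
  set Ah : ℕ := Nat.div (An * (τ1 * τ1) * (RS * RS)) (RS0 * RS0) + 1 with hAh
  set Hh : ℕ := Nat.div (Hn * (τ1 * τ1) * (RS * RS)) (RS0 * RS0) + 1 with hHh
  obtain ⟨e1, e2, e3⟩ := hell RS0 N0 C0 An Hn hCC0 hE0
  have hAn : 0 < An := lt_of_lt_of_le e1 e2
  have ht1 : t ≤ (τ1 : ℝ) / 10000 := by linarith
  have hτ1r : (0:ℝ) < τ1 := by linarith
  -- the ellipse
  have hell1 : ∀ X : ℕ, 0 < X → t ^ 2 * ((X : ℝ) / (RS0 : ℝ) ^ 2) ≤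
      ((Nat.div (X * (τ1 * τ1) * (RS * RS)) (RS0 * RS0) + 1 : ℕ) : ℝ) / 100000000 / (RS : ℝ) ^ 2 := by
    intro X hX
    have h2 : ((X : ℝ) * (τ1 * τ1) * (RS * RS)) / (RS0 * RS0) ≤
        ((Nat.div (X * (τ1 * τ1) * (RS * RS)) (RS0 * RS0) + 1 : ℕ) : ℝ) := by
      have := Nat.lt_floor_add_one ((((X * (τ1 * τ1) * (RS * RS) : ℕ) : ℝ)) / ((RS0 * RS0 : ℕ) : ℝ))
      rw [Nat.floor_div_eq_div] at this
      have h3 : Nat.div (X * (τ1 * τ1) * (RS * RS)) (RS0 * RS0) =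
        (X * (τ1 * τ1) * (RS * RS)) / (RS0 * RS0) := rfl
      rw [h3]
      push_cast at this ⊢
      exact this.le
    have h3 : t ^ 2 ≤ ((τ1 : ℝ) / 10000) ^ 2 := pow_le_pow_left₀ ht0.le ht1 2
    have h4 : t ^ 2 * ((X : ℝ) / (RS0 : ℝ) ^ 2) ≤ ((τ1 : ℝ) / 10000) ^ 2 * ((X : ℝ) / (RS0 : ℝ) ^ 2) :=
      mul_le_mul_of_nonneg_right h3 (by positivity)
    refine h4.trans ?_
    rw [le_div_iff₀ (by positivity), le_div_iff₀ (by norm_num)]
    refine le_trans (le_of_eq ?_) h2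
    field_simp
    norm_num
  have hqell : q.1 ^ 2 / ((Ah : ℝ) / 100000000 / (RS : ℝ) ^ 2) +
      q.2 ^ 2 / ((Hh : ℝ) / 100000000 / (RS : ℝ) ^ 2) ≤ 1 := by
    have h2 := (closure_dil ht0 U0 q).1 hqD
    have h3 := e3 _ (closure_mono hU0s h2)
    simp only at h3
    have hAnr : (0:ℝ) < An := by exact_mod_cast hAn
    have hHnr : (0:ℝ) < Hn := by exact_mod_cast e1
    have h4 : q.1 ^ 2 / ((Ah : ℝ) / 100000000 / (RS : ℝ) ^ 2) ≤
        (t⁻¹ * q.1) ^ 2 / ((An : ℝ) / (RS0 : ℝ) ^ 2) := by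
      have h5 : (t⁻¹ * q.1) ^ 2 / ((An : ℝ) / (RS0 : ℝ) ^ 2) =
          q.1 ^ 2 / (t ^ 2 * ((An : ℝ) / (RS0 : ℝ) ^ 2)) := by
        field_simp
      rw [h5]
      exact div_le_div_of_nonneg_left (sq_nonneg _) (by positivity) (hell1 An hAn)
    have h5 : q.2 ^ 2 / ((Hh : ℝ) / 100000000 / (RS : ℝ) ^ 2) ≤
        (t⁻¹ * q.2) ^ 2 / ((Hn : ℝ) / (RS0 : ℝ) ^ 2) := by
      have h6 : (t⁻¹ * q.2) ^ 2 / ((Hn : ℝ) / (RS0 : ℝ) ^ 2) =
          q.2 ^ 2 / (t ^ 2 * ((Hn : ℝ) / (RS0 : ℝ) ^ 2)) := by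
        field_simp
      rw [h6]
      exact div_le_div_of_nonneg_left (sq_nonneg _) (by positivity) (hell1 Hn e1)
    linarith
  have hHA : Hh ≤ Ah := by
    apply Nat.add_le_add_right
    apply Nat.div_le_div_right
    gcongr
  have hkm : Measurable (fun y : ℝ × ℝ => π * kaps q y) := by
    have h2 := T13.kap_meas q
    unfold kaps
    have h3 : Measurable (fun y : ℝ × ℝ => kap q (-y.1, y.2)) :=
      h2.comp (measurable_fst.neg.prodMk measurable_snd)
    fun_prop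
  have hkey := t_KN hfan hktr hkT RS N C T XD YD Ah Hh Lam V (fun y => π * kaps q y) hCC hF
    (Nat.succ_pos _) hHA fV.meas (sdiff_subset.trans hU1s) (by
      have hne : ∀ w : ℝ × ℝ, ∀ᵐ y : ℝ × ℝ, y ≠ w := fun w => by
        rw [ae_iff]
        simp
      filter_upwards [hne q, hne (-q.1, q.2)] with y hy1 hy2 hyV
      refine ⟨q, hqell, t_J2 q y hq2 (fV.sub hyV) (Ne.symm hy1) ?_⟩
      intro h
      apply hy2
      rw [h]
      simp) hkm (by
      have h2 := s1.const_mul π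
      refine h2.congr (Eventually.of_forall fun y => ?_)
      simp only
      ring)
  have hI2 : ∫ y in V, (fun y => π * kaps q y) y * y.2 ≤ π * (w1 - t * w0) := by
    have h2 : ∫ y in V, (fun y => π * kaps q y) y * y.2 = π * ∫ y in V, kaps q y * y.2 := by
      rw [← integral_const_mul]
      congr 1
      funext y
      ring
    rw [h2]
    exact mul_le_mul_of_nonneg_left hI hpi.le
  have hfin := hkey.trans hI2
  rw [hPV] at hfin
  set Λ : ℝ := (Lam : ℝ) / 10000000 with hΛ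
  set SKr : ℝ := (K.SK (1000000000000000 * (RS * RS)) Ah Hh T XD YD Lam : ℝ) /
    (30000000000 * (RS : ℝ) ^ 3) with hSKr
  have hΛ0 : 0 ≤ Λ := by positivity
  have hΛt : Λ * t ^ 2 ≤ 1 := by
    have h2 : (Lam : ℝ) * (τ1 * τ1) ≤ 1000000000000000 := by exact_mod_cast d2
    have h3 : t ^ 2 ≤ ((τ1 : ℝ) / 10000) ^ 2 := pow_le_pow_left₀ ht0.le ht1 2
    have h4 := mul_le_mul_of_nonneg_left h3 hΛ0
    have h5 : Λ * ((τ1 : ℝ) / 10000) ^ 2 = (Lam : ℝ) * (τ1 * τ1) / 1000000000000000 := by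
      rw [hΛ]
      ring
    rw [h5] at h4
    have h6 : (Lam : ℝ) * (τ1 * τ1) / 1000000000000000 ≤ 1 := by
      rw [div_le_one (by norm_num)]
      exact h2
    linarith
  have hcor := corner (q0 := (q0 : ℝ) / 1000000) (qa := (qa : ℝ) / 1000000) (qb := (qb : ℝ) / 1000000)
    (Λ := Λ) (K := SKr) (a := (τ0 : ℝ) / 10000) (b := (τ1 : ℝ) / 10000) (t := t) (Q := π * w1)
    (by positivity) hΛ0 (by positivity) (by linarith) ht1 hw1 hw1'
    (lend_real hCC.rs d3) (lend_real hCC.rs d4) (lend_real hCC.rs d5) (lend_real hCC.rs d6)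
  have h2 : (q0 : ℝ) / 1000000 * (t - Λ * t ^ 3) ≤ π * w0 * (t - Λ * t ^ 3) := by
    apply mul_le_mul_of_nonneg_right hw0
    have : t - Λ * t ^ 3 = t * (1 - Λ * t ^ 2) := by ring
    rw [this]
    exact mul_nonneg ht0.le (by linarith)
  nlinarith

end SV
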