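import Pool.Agent.Helper779.SV.T01
import Pool.Agent.Helper779.SV.T02
import Pool.Agent.Helper779.SV.T03
import Pool.Agent.Helper779.SV.T13
import Pool.Agent.Helper779.SV.T14
import Pool.Agent.Helper779.SV.T15
import Pool.Agent.Helper779.SV.T16
import Pool.Agent.Helper779.SV.T17
import Pool.Agent.Helper779.SV.T18
import Pool.Agent.Helper779.SV.T19
import Pool.Agent.Helper779.SV.T19b
import Pool.Agent.Helper779.SV.T19c
import Pool.Agent.Helper779.SV.T20
import Pool.Agent.Helper779.SV.T21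
import Pool.Agent.Helper779.SV.T25a
import Pool.Agent.Helper779.SV.T25b
import Pool.Agent.Helper779.SV.T25c
import Pool.Agent.Helper779.SV.T25d
import Pool.Agent.Helper779.SV.T26a
import Pool.Agent.Helper779.SV.T26b
import Pool.Agent.Helper779.SV.T26c
import Pool.Agent.Helper779.SV.T27
import Pool.Agent.Helper779.SV.DN80_0
import Pool.Agent.Helper779.SV.DN80_1
import Pool.Agent.Helper779.SV.DN80_2
import Pool.Agent.Helper779.SV.DN80_3
import Pool.Agent.Helper779.SV.DN80_4
import Pool.Agent.Helper779.SV.DN80_5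
import Pool.Agent.Helper779.SV.DN80_6
import Pool.Agent.Helper779.SV.DN80_7
import Pool.Agent.Helper779.SV.DN80_8
import Pool.Agent.Helper779.SV.DU80

/-!
# Assembly 1: soundness without hypotheses, confinement and uniqueness at high level
-/

open MeasureTheory Set Filter Topology
open scoped Real

namespace SV

theorem a_touch : S_touch := t_touch t_cont t_scale
theorem a_mk : S_mk := t_mk t_kk
theorem a_fan : S_fan := t_fan t_trv t_trh
theorem a_ktr : S_ktr := t_ktr t_J2v t_J2r
theorem a_chkPF : S_chkPF := t_chkPF (t_pfU t_rpot t_rpot0 t_LU) (t_pfL t_rpot t_rpot0 t_LL)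
theorem a_rowB : S_rowB := t_rowB t_kk t_J2 (t_below t_int t_kk)
theorem a_piece : S_piece := t_piece (t_rows t_int) t_rowA a_rowB
theorem a_cert : S_cert :=
  t_cert' a_piece a_chkPF t_shape (t_N1 t_scale t_mono (t_vtouch t_cont t_scale)) (t_top t_int) (t_axis t_int)
theorem a_ufan : S_ufan :=
  t_ufan (t_sum t_int t_mono t_scale a_touch) a_touch (t_shellN a_fan a_ktr t_kT (t_shell t_scale))
    t_J2 t_ell t_scale t_kk t_int
theorem a_lfan : S_lfan := t_lfan a_fan a_ktr t_kT t_ell

/-- confinement for `q = π w ≥ 0.7052` -/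
theorem conf80 : ∀ w U, Sol w U → ((705200 : ℕ) : ℝ) / 1000000 ≤ π * w →
    U ⊆ stair (1 / ((170 : ℕ) : ℝ)) 80 (cf K.N80.C) := by
  intro w U hU hw
  refine a_cert 170 80 K.N80.C 705200 0 True (by norm_num) (by norm_num) (by norm_num) K.N80.shape_ok ?_ w U hU hw
    (Or.inl trivial)
  intro j hj
  have key : ∃ (ND UD LD t0 : Nat) (l : List (Nat × Nat × Nat × Nat)),
      K.chkPF 170 80 K.N80.C j ND UD LD = true ∧ l ≠ [] ∧
      K.vert 170 80 K.N80.C 705200 0 j t0 l ND UD LD = true ∧ K.efree l = true := by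
    rcases lt_or_ge j 9 with h | h
    · exact K.N80.all0 j (by omega) h
    rcases lt_or_ge j 18 with h1 | h1
    · exact K.N80.all1 j h h1
    rcases lt_or_ge j 27 with h2 | h2
    · exact K.N80.all2 j h1 h2
    rcases lt_or_ge j 36 with h3 | h3
    · exact K.N80.all3 j h2 h3
    rcases lt_or_ge j 45 with h4 | h4
    · exact K.N80.all4 j h3 h4
    rcases lt_or_ge j 54 with h5 | h5
    · exact K.N80.all5 j h4 h5
    rcases lt_or_ge j 63 with h6 | h6
    · exact K.N80.all6 j h5 h6
    rcases lt_or_ge j 72 with h7 | h7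
    · exact K.N80.all7 j h6 h7
    exact K.N80.all8 j h7 (by omega)
  obtain ⟨ND, UD, LD, t0, l, h1, h2, h3, h4⟩ := key
  exact ⟨ND, UD, LD, t0, l, h1, h2, h3, fun _ => h4⟩

theorem cc80 : CC 170 80 K.N80.C := (t_shape 170 80 K.N80.C 705200 (by norm_num) (by norm_num) K.N80.shape_ok).1

theorem a_U1 : S_U1 := by
  intro w0 U0 w1 U1 h0 h1 hw0 hw1
  have hpi := Real.pi_gt_d4
  refine a_ufan 170 80 K.N80.C 705200 72946 25636 165 K.N80.XD K.N80.YD K.N80.GD K.N80.LD K.N80.LD' 12 cc80
    (by norm_num) K.N80.fan_ok K.N80.ell_ok K.N80.g0_ok ?_ K.N80.end_ok conf80 w0 U0 w1 U1 h0 h1 ?_ ?_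
  · intro k hk
    exact t_ucells _ _ _ _ _ _ _ _ _ _ 0 12 K.N80.cells_ok k (by omega) (by omega)
  · push_cast
    nlinarith
  · push_cast
    nlinarith

end SV
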