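import Pool.Agent.Helper779.SV.DS1
import Pool.Agent.Helper779.SV.Chk2

/-! Fan of the staircase S1 and the cells excluding lower solutions. -/

set_option maxRecDepth 100000

namespace SV.K.S1

def XD : Nat := 324256337271805127413197430825464507638407688543472734273144843146791021984169332802742952541733889604060684119668651902832851460315690242067172168959214074796421590525182267102540763172372331958141620942938829372546564753436874627627258618389940929396017487321015236879747863915627943721591926166568697268820223173959115314295925911291167271785674437897751355232630554634950778418852325997839629261491512904989345579108
def YD : Nat := 566670375016206640667303830110581882683918742128830300099253935437407414609147705800510974797110000177370430629373385802527049049017195778887667342757167569159289042542244808842639827823429505036800661036512778414409676015075853026309467031938623405572728125649601701570306987155891564369944705271089306032696858314378271463541437860919639709172164162131807497410551818255396882285770749720840684280192669937345780266630774784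
def TD : Nat := 2949907839353232421476334112559407917170688
def LD : Nat := 366240817233793347696177380303330589
theorem fan_ok : fan 40 C 88 XD YD = true := by decide +kernel
theorem cells_ok : lcells 75 170 72946 25636 714000 534000 618900 88 XD YD TD LD 4 = true := by decide +kernel

end SV.K.S1
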