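import Pool.Agent.Helper779.SV.DS3
import Pool.Agent.Helper779.SV.Chk2

/-! Fan of the staircase S3 and the cells excluding lower solutions. -/

set_option maxRecDepth 100000

namespace SV.K.S3

def XD : Nat := 359549599388028459575830249973162534963290920459750488806008327103779760375071885891918206180794799001887209187414714030821238301251682420843923962815440782789110394140436907859083464104689422754302981687533992585902497199889957658155173425905368037478934651602306503248628341070166022848967030098815089639504
def YD : Nat := 659766324038654680985370869484488686612579826624799766500048534091139091389447537967468904465407612734611327961389848866398950442827846035501314791471546714306897333626203213927892101614802216351045578616392886021249115804417800814495600224179703806940040811820424896016126171465048925248503949445179779447213129728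
def TD : Nat := 14097644796588331362585241789519547882662698120380416
def LD : Nat := 1218140775792819357038468168842323965221796500
theorem fan_ok : fan 28 C 65 XD YD = true := by decide +kernel
theorem cells_ok : lcells 54 170 72946 25636 714000 666000 688700 65 XD YD TD LD 5 = true := by decide +kernel

end SV.K.S3
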