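import Pool.Agent.Helper779.SV.DS4
import Pool.Agent.Helper779.SV.Chk2

/-! Fan of the staircase S4 and the cells excluding lower solutions. -/

set_option maxRecDepth 100000

namespace SV.K.S4

def XD : Nat := 101204215114071005449122542759591147297819267164333273011599005251327908645154346331024084589567793361044535355694709032007238780337330764483282711488912477997700227147675395746044652049723063443564659633620136662301209460314462432158477176300695370609114061628655941058925383193126413909057766408166585437156617601131348054
def YD : Nat := 185707710693255446178659102809585306060916220070649204550280467993997048604579094533111628206956485501496914944217186122530485582847180250411565000640306698364627652842134589701039987658422385759299006701331148570835168681414141087604679457126655116422536267467019805564747467198082110096939995930500728626946826220507429708365824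
def TD : Nat := 4913056253606202136566191334544659495009367330690561408008988538112769912004533105736024064
def LD : Nat := 357877336582730125541716585975676363253367215775749112814984361420128723807318526037
theorem fan_ok : fan 28 C 68 XD YD = true := by decide +kernel
theorem cells_ok : lcells 55 170 72946 25636 714000 688600 705300 68 XD YD TD LD 9 = true := by decide +kernel

end SV.K.S4
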