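import Pool.Agent.Helper779.SV.Chk2

/-! Test sets. -/

set_option maxRecDepth 100000

namespace SV.K.TS

def T5 : Nat := 1436745261653683251985102718274991009700411673680609321
theorem T5_par : tpar T5 12 = true := by decide +kernel
theorem T5_cnt : tcnt T5 12 = 386 := by decide +kernel
theorem T5_P : tP T5 12 = 3998 := by decide +kernel
theorem T5_E : Nat.ble 39564718973531561975 (tE T5 12) = true := by decide +kernel
def T4 : Nat := 267614387004085892933130598944951717211144216
theorem T4_par : tpar T4 10 = true := by decide +kernel
theorem T4_cnt : tcnt T4 10 = 226 := by decide +kernel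
theorem T4_P : tP T4 10 = 2014 := by decide +kernel
theorem T4_E : Nat.ble 15760367717433113977 (tE T4 10) = true := by decide +kernel
def T3 : Nat := 223012216031906052597319663331423578014351370
theorem T3_par : tpar T3 10 = true := by decide +kernel
theorem T3_cnt : tcnt T3 10 = 190 := by decide +kernel
theorem T3_P : tP T3 10 = 1786 := by decide +kernel
theorem T3_E : Nat.ble 13231336093223381110 (tE T3 10) = true := by decide +kernel
def T2 : Nat := 200711130545816132429414158630608406748397569
theorem T2_par : tpar T2 10 = true := by decide +kernel
theorem T2_cnt : tcnt T2 10 = 164 := by decide +kernel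
theorem T2_P : tP T2 10 = 1630 := by decide +kernel
theorem T2_E : Nat.ble 11488647432199745330 (tE T2 10) = true := by decide +kernel
def T1 : Nat := 18999855802264614788796652377251807193708085313537
theorem T1_par : tpar T1 11 = true := by decide +kernel
theorem T1_cnt : tcnt T1 11 = 167 := by decide +kernel
theorem T1_P : tP T1 11 = 2021 := by decide +kernel
theorem T1_E : Nat.ble 14581834109220769742 (tE T1 11) = true := by decide +kernel
def T0 : Nat := 350485477421760821221126627925999862502742992424354729932290388983809
theorem T0_par : tpar T0 15 = true := by decide +kernel
theorem T0_cnt : tcnt T0 15 = 209 := by decide +kernel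
theorem T0_P : tP T0 15 = 3739 := by decide +kernel
theorem T0_E : Nat.ble 29864271473339149751 (tE T0 15) = true := by decide +kernel

end SV.K.TS
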