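import Pool.Agent.Helper779.SV.Stmts

/-!
# T04: the pair identity `S_pair` (MP_22dedb_an, project SV)
-/

open MeasureTheory Set Filter Topology
open scoped Real ComplexConjugate

namespace SV
namespace T04

/-! ### Integrability -/

/-- majorant -/
noncomputable def maj (p z : ℝ × ℝ) : ℝ := ‖z - p‖⁻¹ * ((1 + ‖z - p‖)⁻¹) ^ 2

lemma maj_int (p : ℝ × ℝ) : Integrable (maj p) := by
  have h : Integrable (fun z : ℝ × ℝ => ‖z‖⁻¹ * ((1 + ‖z‖)⁻¹) ^ 2) := by
    have h1 := integrable_fun_norm_addHaar (E := ℝ × ℝ) (F := ℝ) (μ := volume)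
      (f := fun y : ℝ => y⁻¹ * ((1 + y)⁻¹) ^ 2)
    rw [h1]
    have hd : Module.finrank ℝ (ℝ × ℝ) = 2 := by simp
    rw [hd]
    have h2 : Integrable (fun x : ℝ => (1 + ‖x‖) ^ (-2 : ℝ)) :=
      integrable_one_add_norm (by simp)
    refine (h2.integrableOn (s := Ioi (0:ℝ))).congr_fun ?_ measurableSet_Ioi
    intro y hy
    have hy' : (0:ℝ) < y := hy
    simp only [Real.norm_eq_abs, abs_of_pos hy', smul_eq_mul]
    rw [Real.rpow_neg (by linarith), inv_pow]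
    have e : (1 + y) ^ (2:ℝ) = (1 + y) ^ 2 := by norm_cast
    rw [e]
    have : y ^ (2 - 1) * (y⁻¹ * ((1 + y) ^ 2)⁻¹) = (y * y⁻¹) * ((1 + y) ^ 2)⁻¹ := by norm_num; ring
    rw [this, mul_inv_cancel₀ hy'.ne', one_mul]
  exact h.comp_sub_right p

/-- the point as a complex number -/
noncomputable def cx (x : ℝ × ℝ) : ℂ := (x.1 : ℂ) + (x.2 : ℂ) * Complex.I

lemma cx_re (x : ℝ × ℝ) : (cx x).re = x.1 := by simp [cx]
lemma cx_im (x : ℝ × ℝ) : (cx x).im = x.2 := by simp [cx]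

lemma KK_eq (z x : ℝ × ℝ) : KK z x = ((x.2 / π : ℝ) : ℂ) /
    ((conj (cx z) - cx x) * (conj (cx z) - conj (cx x))) := by
  unfold KK
  congr 1
  have e1 : (((z.1 - x.1 : ℝ) : ℂ) - ((z.2 + x.2 : ℝ) : ℂ) * Complex.I) = conj (cx z) - cx x := by
    apply Complex.ext
    · simp [cx]
    · simp [cx]; ring
  have e2 : (((z.1 - x.1 : ℝ) : ℂ) - ((z.2 - x.2 : ℝ) : ℂ) * Complex.I) =
      conj (cx z) - conj (cx x) := by
    apply Complex.ext
    · simp [cx]
    · simp [cx]; ring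
  rw [e1, e2]

/-- mirror point -/
def mir (x : ℝ × ℝ) : ℝ × ℝ := (x.1, -x.2)

lemma cx_mir (x : ℝ × ℝ) : cx (mir x) = conj (cx x) := by
  apply Complex.ext <;> simp [cx, mir]

lemma cx_sub (z x : ℝ × ℝ) : cx z - cx x = cx (z - x) := by
  apply Complex.ext <;> simp [cx]

lemma norm_le_cx (z : ℝ × ℝ) : ‖z‖ ≤ ‖cx z‖ := by
  rw [Prod.norm_def]
  refine max_le ?_ ?_
  · have := Complex.abs_re_le_norm (cx z)
    rwa [cx_re] at this
  · have := Complex.abs_im_le_norm (cx z)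
    rwa [cx_im] at this

/-- nearest point argument -/
lemma prod_le {δ : ℝ} (hδ : 0 < δ) (a b c d : ℝ) (ha : 0 ≤ a) (hb : δ ≤ b) (hc : δ ≤ c) (hd : δ ≤ d)
    (hab : a ≤ b) (hac : a ≤ c) (had : a ≤ d) :
    (a * b * c * d)⁻¹ ≤ (1 + 1 / δ) ^ 3 * (a⁻¹ * ((1 + a)⁻¹) ^ 2) := by
  have key : ∀ t : ℝ, δ ≤ t → a ≤ t → t⁻¹ ≤ (1 + 1 / δ) * (1 + a)⁻¹ := by
    intro t h1 h2
    have ht : 0 < t := lt_of_lt_of_le hδ h1
    rw [← div_eq_mul_inv, le_div_iff₀ (by linarith), inv_mul_le_iff₀ ht]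
    have h3 : 1 ≤ t * (1 / δ) := by
      rw [mul_one_div, one_le_div hδ]
      exact h1
    nlinarith
  have hb0 : 0 < b := lt_of_lt_of_le hδ hb
  have hc0 : 0 < c := lt_of_lt_of_le hδ hc
  have hd0 : 0 < d := lt_of_lt_of_le hδ hd
  have kb := key b hb hab
  have kc := key c hc hac
  have kd := key d hd had
  have hK : 0 < (1 + 1 / δ) := by positivity
  have h1a : 0 < (1 + a)⁻¹ := inv_pos.2 (by linarith)
  have h1 : (1 + a)⁻¹ ≤ 1 := inv_le_one_of_one_le₀ (by linarith)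
  have e : (a * b * c * d)⁻¹ = a⁻¹ * (b⁻¹ * c⁻¹ * d⁻¹) := by
    rw [mul_inv, mul_inv, mul_inv]; ring
  rw [e]
  have h2 : b⁻¹ * c⁻¹ * d⁻¹ ≤ ((1 + 1 / δ) * (1 + a)⁻¹) * ((1 + 1 / δ) * (1 + a)⁻¹) *
      ((1 + 1 / δ) * (1 + a)⁻¹) := by
    gcongr
  calc a⁻¹ * (b⁻¹ * c⁻¹ * d⁻¹) ≤ a⁻¹ * (((1 + 1 / δ) * (1 + a)⁻¹) * ((1 + 1 / δ) * (1 + a)⁻¹) *
      ((1 + 1 / δ) * (1 + a)⁻¹)) := by gcongr
    _ = (1 + 1 / δ) ^ 3 * (a⁻¹ * ((1 + a)⁻¹) ^ 2) * (1 + a)⁻¹ := by ring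
    _ ≤ (1 + 1 / δ) ^ 3 * (a⁻¹ * ((1 + a)⁻¹) ^ 2) * 1 := by gcongr
    _ = _ := mul_one _

lemma prod_le4 {δ : ℝ} (hδ : 0 < δ) (a b c d : ℝ) (ha : 0 ≤ a) (hb : 0 ≤ b) (hc : 0 ≤ c) (hd : 0 ≤ d)
    (hab : 2 * δ ≤ a + b) (hac : 2 * δ ≤ a + c) (had : 2 * δ ≤ a + d) (hbc : 2 * δ ≤ b + c)
    (hbd : 2 * δ ≤ b + d) (hcd : 2 * δ ≤ c + d) :
    (a * b * c * d)⁻¹ ≤ (1 + 1 / δ) ^ 3 * (a⁻¹ * ((1 + a)⁻¹) ^ 2 + b⁻¹ * ((1 + b)⁻¹) ^ 2 +
      c⁻¹ * ((1 + c)⁻¹) ^ 2 + d⁻¹ * ((1 + d)⁻¹) ^ 2) := by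
  have hK : 0 < (1 + 1 / δ) ^ 3 := by positivity
  have ga : 0 ≤ a⁻¹ * ((1 + a)⁻¹) ^ 2 := by positivity
  have gb : 0 ≤ b⁻¹ * ((1 + b)⁻¹) ^ 2 := by positivity
  have gc : 0 ≤ c⁻¹ * ((1 + c)⁻¹) ^ 2 := by positivity
  have gd : 0 ≤ d⁻¹ * ((1 + d)⁻¹) ^ 2 := by positivity
  rcases le_total a b with h1 | h1 <;> rcases le_total c d with h2 | h2
  · rcases le_total a c with h3 | h3
    · refine (prod_le hδ a b c d ha (by linarith) (by linarith) (by linarith) h1 h3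
        (h3.trans h2)).trans (mul_le_mul_of_nonneg_left (by linarith) hK.le)
    · rw [show a * b * c * d = c * a * b * d by ring]
      refine (prod_le hδ c a b d hc (by linarith) (by linarith) (by linarith) h3 (h3.trans h1)
        h2).trans (mul_le_mul_of_nonneg_left (by linarith) hK.le)
  · rcases le_total a d with h3 | h3
    · refine (prod_le hδ a b c d ha (by linarith) (by linarith) (by linarith) h1 (h3.trans h2)
        h3).trans (mul_le_mul_of_nonneg_left (by linarith) hK.le)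
    · rw [show a * b * c * d = d * a * b * c by ring]
      refine (prod_le hδ d a b c hd (by linarith) (by linarith) (by linarith) h3 (h3.trans h1)
        h2).trans (mul_le_mul_of_nonneg_left (by linarith) hK.le)
  · rcases le_total b c with h3 | h3
    · rw [show a * b * c * d = b * a * c * d by ring]
      refine (prod_le hδ b a c d hb (by linarith) (by linarith) (by linarith) h1 h3
        (h3.trans h2)).trans (mul_le_mul_of_nonneg_left (by linarith) hK.le)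
    · rw [show a * b * c * d = c * a * b * d by ring]
      refine (prod_le hδ c a b d hc (by linarith) (by linarith) (by linarith) (h3.trans h1) h3
        h2).trans (mul_le_mul_of_nonneg_left (by linarith) hK.le)
  · rcases le_total b d with h3 | h3
    · rw [show a * b * c * d = b * a * c * d by ring]
      refine (prod_le hδ b a c d hb (by linarith) (by linarith) (by linarith) h1 (h3.trans h2)
        h3).trans (mul_le_mul_of_nonneg_left (by linarith) hK.le)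
    · rw [show a * b * c * d = d * a * b * c by ring]
      refine (prod_le hδ d a b c hd (by linarith) (by linarith) (by linarith) (h3.trans h1) h3
        h2).trans (mul_le_mul_of_nonneg_left (by linarith) hK.le)

lemma KK_norm_le (z x : ℝ × ℝ) (hx : 0 < x.2) (h1 : z ≠ x) (h2 : z ≠ mir x) :
    ‖KK z x‖ ≤ (x.2 / π) * (‖z - x‖ * ‖z - mir x‖)⁻¹ := by
  rw [KK_eq, norm_div, norm_mul, Complex.norm_real, Real.norm_eq_abs,
    abs_of_pos (div_pos hx Real.pi_pos), div_eq_mul_inv]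
  have e1 : ‖conj (cx z) - cx x‖ = ‖cx (z - mir x)‖ := by
    rw [← cx_sub, cx_mir, ← Complex.norm_conj (conj (cx z) - cx x), map_sub, Complex.conj_conj]
  have e2 : ‖conj (cx z) - conj (cx x)‖ = ‖cx (z - x)‖ := by
    rw [← cx_sub, ← Complex.norm_conj (conj (cx z) - conj (cx x)), map_sub, Complex.conj_conj,
      Complex.conj_conj]
  rw [e1, e2, mul_comm ‖cx (z - mir x)‖]
  have h3 : 0 < ‖z - x‖ := norm_pos_iff.2 (sub_ne_zero.2 h1)
  have h4 : 0 < ‖z - mir x‖ := norm_pos_iff.2 (sub_ne_zero.2 h2)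
  have h5 := norm_le_cx (z - x)
  have h6 := norm_le_cx (z - mir x)
  have h7 : 0 < x.2 / π := div_pos hx Real.pi_pos
  gcongr

lemma KK_meas (x : ℝ × ℝ) : Measurable fun z => KK z x := by
  unfold KK
  fun_prop

lemma pair_int (x y : ℝ × ℝ) (hx : 0 < x.2) (hy : 0 < y.2) (hxy : x ≠ y) :
    Integrable (fun z => KK z x * conj (KK z y)) := by
  have d1 : x ≠ mir x := fun h => by have := congrArg Prod.snd h; simp only [mir] at this; linarith
  have d2 : x ≠ mir y := fun h => by have := congrArg Prod.snd h; simp only [mir] at this; linarith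
  have d3 : mir x ≠ y := fun h => by have := congrArg Prod.snd h; simp only [mir] at this; linarith
  have d4 : mir x ≠ mir y := fun h => by
    apply hxy
    have h1 := congrArg Prod.fst h
    have h2 := congrArg Prod.snd h
    simp only [mir] at h1 h2
    exact Prod.ext h1 (by linarith)
  have d5 : y ≠ mir y := fun h => by have := congrArg Prod.snd h; simp only [mir] at this; linarith
  obtain ⟨δ, hδ, g1, g2, g3, g4, g5, g6⟩ : ∃ δ : ℝ, 0 < δ ∧ 2 * δ ≤ ‖x - mir x‖ ∧ 2 * δ ≤ ‖x - y‖ ∧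
      2 * δ ≤ ‖x - mir y‖ ∧ 2 * δ ≤ ‖mir x - y‖ ∧ 2 * δ ≤ ‖mir x - mir y‖ ∧
      2 * δ ≤ ‖y - mir y‖ := by
    refine ⟨min (min (min ‖x - mir x‖ ‖x - y‖) (min ‖x - mir y‖ ‖mir x - y‖))
      (min ‖mir x - mir y‖ ‖y - mir y‖) / 2, ?_, ?_, ?_, ?_, ?_, ?_, ?_⟩
    · have p1 := norm_pos_iff.2 (sub_ne_zero.2 d1)
      have p2 := norm_pos_iff.2 (sub_ne_zero.2 hxy)
      have p3 := norm_pos_iff.2 (sub_ne_zero.2 d2)
      have p4 := norm_pos_iff.2 (sub_ne_zero.2 d3)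
      have p5 := norm_pos_iff.2 (sub_ne_zero.2 d4)
      have p6 := norm_pos_iff.2 (sub_ne_zero.2 d5)
      have := lt_min (lt_min (lt_min p1 p2) (lt_min p3 p4)) (lt_min p5 p6)
      linarith
    all_goals
      rw [mul_div_cancel₀ _ (two_ne_zero' ℝ)]
      simp
  have hm : AEStronglyMeasurable (fun z => KK z x * conj (KK z y)) (volume : Measure (ℝ × ℝ)) := by
    have h1 := KK_meas x
    have h2 := KK_meas y
    exact (h1.mul (Complex.continuous_conj.measurable.comp h2)).aestronglyMeasurable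
  have hI : Integrable (fun z => (x.2 / π) * (y.2 / π) * ((1 + 1 / δ) ^ 3 *
      (maj x z + maj (mir x) z + maj y z + maj (mir y) z))) :=
    ((((maj_int x).add (maj_int (mir x))).add (maj_int y)).add (maj_int (mir y))).const_mul _
      |>.const_mul _
  refine hI.mono' hm ?_
  have ne1 : ∀ᵐ z : ℝ × ℝ, z ≠ x := by simp [ae_iff]
  have ne2 : ∀ᵐ z : ℝ × ℝ, z ≠ mir x := by simp [ae_iff]
  have ne3 : ∀ᵐ z : ℝ × ℝ, z ≠ y := by simp [ae_iff]
  have ne4 : ∀ᵐ z : ℝ × ℝ, z ≠ mir y := by simp [ae_iff]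
  filter_upwards [ne1, ne2, ne3, ne4] with z n1 n2 n3 n4
  rw [norm_mul, Complex.norm_conj]
  have b1 := KK_norm_le z x hx n1 n2
  have b2 := KK_norm_le z y hy n3 n4
  have tri : ∀ p q : ℝ × ℝ, ‖p - q‖ ≤ ‖z - p‖ + ‖z - q‖ := by
    intro p q
    rw [norm_sub_rev z p]
    calc ‖p - q‖ = ‖(p - z) + (z - q)‖ := by congr 1; abel
      _ ≤ _ := norm_add_le _ _
  have hp := prod_le4 hδ ‖z - x‖ ‖z - mir x‖ ‖z - y‖ ‖z - mir y‖ (norm_nonneg _) (norm_nonneg _)
    (norm_nonneg _) (norm_nonneg _) (g1.trans (tri _ _)) (g2.trans (tri _ _)) (g3.trans (tri _ _))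
    (g4.trans (tri _ _)) (g5.trans (tri _ _)) (g6.trans (tri _ _))
  have hx' : 0 < x.2 / π := div_pos hx Real.pi_pos
  have hy' : 0 < y.2 / π := div_pos hy Real.pi_pos
  calc ‖KK z x‖ * ‖KK z y‖ ≤ ((x.2 / π) * (‖z - x‖ * ‖z - mir x‖)⁻¹) *
        ((y.2 / π) * (‖z - y‖ * ‖z - mir y‖)⁻¹) :=
        mul_le_mul b1 b2 (norm_nonneg _) (by positivity)
    _ = (x.2 / π) * (y.2 / π) * (‖z - x‖ * ‖z - mir x‖ * ‖z - y‖ * ‖z - mir y‖)⁻¹ := by
        rw [mul_inv, mul_inv, mul_inv, mul_inv, mul_inv]; ring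
    _ ≤ _ := by
        unfold maj
        gcongr


/-! ### Circle integrals -/

lemma circ1 {r : ℝ} (hr : 0 < r) {α : ℂ} (h : ‖α‖ ≠ r) :
    (∮ z in C(0, r), (z - α)⁻¹) = if ‖α‖ < r then 2 * π * Complex.I else 0 := by
  split_ifs with h1
  · exact circleIntegral.integral_sub_inv_of_mem_ball (by simpa using h1)
  · have h2 : r < ‖α‖ := lt_of_le_of_ne (not_lt.1 h1) (Ne.symm h)
    apply Complex.circleIntegral_eq_zero_of_differentiable_on_off_countable hr.le countable_empty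
    · apply ContinuousOn.inv₀ (by fun_prop)
      intro z hz h3
      rw [sub_eq_zero.1 h3] at hz
      simp only [Metric.mem_closedBall, dist_zero_right] at hz
      linarith
    · intro z hz
      apply DifferentiableAt.inv (by fun_prop)
      intro h3
      rw [sub_eq_zero.1 h3] at hz
      simp only [sdiff_empty, Metric.mem_ball, dist_zero_right] at hz
      linarith

lemma circ2 {r : ℝ} (hr : 0 < r) {β : ℂ} (h0 : β ≠ 0) (h : ‖β‖ ≠ r) :
    (∮ z in C(0, r), β * ((r:ℂ) ^ 2 - β * z)⁻¹) = if r < ‖β‖ then -(2 * π * Complex.I) else 0 := by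
  have e : ∀ z : ℂ, β * ((r:ℂ) ^ 2 - β * z)⁻¹ = (-1) * (z - (r:ℂ) ^ 2 / β)⁻¹ := by
    intro z
    have : (r:ℂ) ^ 2 - β * z = - β * (z - (r:ℂ) ^ 2 / β) := by field_simp; ring
    rw [this, mul_inv, ← mul_assoc]
    congr 1
    field_simp
  have hn : ‖(r:ℂ) ^ 2 / β‖ = r ^ 2 / ‖β‖ := by
    rw [norm_div, norm_pow, Complex.norm_real, Real.norm_eq_abs, abs_of_pos hr]
  have hb : 0 < ‖β‖ := norm_pos_iff.2 h0
  have hne : ‖(r:ℂ) ^ 2 / β‖ ≠ r := by
    rw [hn]
    intro h3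
    rw [div_eq_iff hb.ne', sq] at h3
    exact h (mul_left_cancel₀ hr.ne' h3).symm
  simp_rw [e]
  rw [circleIntegral.integral_const_mul, circ1 hr hne, hn]
  have : r ^ 2 / ‖β‖ < r ↔ r < ‖β‖ := by
    rw [div_lt_iff₀ hb, sq]
    exact mul_lt_mul_iff_right₀ hr
  simp only [this]
  split_ifs <;> ring

lemma circ3 {r : ℝ} (hr : 0 < r) {α β : ℂ} (hα : ‖α‖ ≠ r) (h0 : β ≠ 0) (hβ : ‖β‖ ≠ r)
    (hαβ : (r:ℂ) ^ 2 - α * β ≠ 0) :
    (∮ z in C(0, r), (((r:ℂ) ^ 2 - β * z) * (z - α))⁻¹) =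
      ((r:ℂ) ^ 2 - α * β)⁻¹ * ((if ‖α‖ < r then 2 * π * Complex.I else 0) +
        (if r < ‖β‖ then -(2 * π * Complex.I) else 0)) := by
  have n1 : ∀ z ∈ Metric.sphere (0:ℂ) r, z - α ≠ 0 := by
    intro z hz h
    rw [sub_eq_zero.1 h] at hz
    exact hα (by simpa using hz)
  have n2 : ∀ z ∈ Metric.sphere (0:ℂ) r, (r:ℂ) ^ 2 - β * z ≠ 0 := by
    intro z hz h
    have h1 : ‖z‖ = r := by simpa using hz
    have h2 := congrArg norm (sub_eq_zero.1 h)
    rw [norm_mul, norm_pow, Complex.norm_real, Real.norm_eq_abs, abs_of_pos hr, h1, sq] at h2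
    exact hβ (mul_right_cancel₀ hr.ne' h2).symm
  have e : EqOn (fun z : ℂ => (((r:ℂ) ^ 2 - β * z) * (z - α))⁻¹)
      (fun z => ((r:ℂ) ^ 2 - α * β)⁻¹ * ((z - α)⁻¹ + β * ((r:ℂ) ^ 2 - β * z)⁻¹))
      (Metric.sphere (0:ℂ) r) := by
    intro z hz
    have m1 := n1 z hz
    have m2 := n2 z hz
    simp only
    rw [eq_comm, inv_mul_eq_iff_eq_mul₀ hαβ]
    have hh : (r:ℂ) ^ 2 - α * β = ((r:ℂ) ^ 2 - β * z) + β * (z - α) := by ring
    rw [hh]
    generalize (r:ℂ) ^ 2 - β * z = A at m2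
    generalize z - α = B at m1
    field_simp
  rw [circleIntegral.integral_congr hr.le e, circleIntegral.integral_const_mul,
    circleIntegral.integral_add, circ1 hr hα, circ2 hr h0 hβ]
  · apply ContinuousOn.circleIntegrable hr.le
    exact ContinuousOn.inv₀ (by fun_prop) n1
  · apply ContinuousOn.circleIntegrable hr.le
    exact continuousOn_const.mul (ContinuousOn.inv₀ (by fun_prop) n2)

lemma conj_circle {r : ℝ} (hr : 0 < r) (θ : ℝ) :
    conj (circleMap 0 r θ) = (r:ℂ) ^ 2 / circleMap 0 r θ := by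
  have h : circleMap 0 r θ ≠ 0 := by simp [circleMap, hr.ne']
  rw [eq_div_iff h, mul_comm, Complex.mul_conj, Complex.normSq_eq_norm_sq]
  simp [abs_of_pos hr]

lemma ang {r : ℝ} (hr : 0 < r) {α β : ℂ} (hα : ‖α‖ ≠ r) (h0 : β ≠ 0) (hβ : ‖β‖ ≠ r)
    (hαβ : (r:ℂ) ^ 2 - α * β ≠ 0) :
    (∫ θ in (-π)..π, (conj (circleMap 0 r θ) - β)⁻¹ * (circleMap 0 r θ - α)⁻¹) =
      2 * π * ((r:ℂ) ^ 2 - α * β)⁻¹ * ((if ‖α‖ < r then 1 else 0) - (if r < ‖β‖ then 1 else 0)) := by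
  have per : Function.Periodic (fun θ => (conj (circleMap 0 r θ) - β)⁻¹ * (circleMap 0 r θ - α)⁻¹)
      (2 * π) := by
    intro θ
    simp only [periodic_circleMap 0 r θ]
  have h1 := per.intervalIntegral_add_eq (-π) 0
  rw [show -π + 2 * π = π by ring, zero_add] at h1
  rw [h1]
  have h2 := circ3 hr hα h0 hβ hαβ
  unfold circleIntegral at h2
  have h3 : ∀ θ : ℝ, deriv (circleMap 0 r) θ •
      (((r:ℂ) ^ 2 - β * circleMap 0 r θ) * (circleMap 0 r θ - α))⁻¹ =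
      Complex.I * ((conj (circleMap 0 r θ) - β)⁻¹ * (circleMap 0 r θ - α)⁻¹) := by
    intro θ
    have hz : circleMap 0 r θ ≠ 0 := by simp [circleMap, hr.ne']
    rw [conj_circle hr, deriv_circleMap, smul_eq_mul, mul_inv]
    have : (r:ℂ) ^ 2 / circleMap 0 r θ - β = ((r:ℂ) ^ 2 - β * circleMap 0 r θ) / circleMap 0 r θ := by
      field_simp
    rw [this, inv_div]
    ring
  simp only [h3] at h2
  rw [intervalIntegral.integral_const_mul] at h2
  have h4 : ∀ w : ℂ, w = -Complex.I * (Complex.I * w) := by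
    intro w
    rw [← mul_assoc]
    simp
  rw [h4 (∫ θ in (0:ℝ)..2 * π, _), h2]
  split_ifs <;> ring_nf <;> simp


/-! ### The angular integral -/

lemma KK_pf (z x : ℝ × ℝ) (h1 : conj (cx z) ≠ cx x) (h2 : conj (cx z) ≠ conj (cx x)) :
    KK z x = (2 * π * Complex.I)⁻¹ * ((conj (cx z) - cx x)⁻¹ - (conj (cx z) - conj (cx x))⁻¹) := by
  have hI : cx x - conj (cx x) = 2 * (x.2:ℂ) * Complex.I := by
    apply Complex.ext
    · simp [cx]
    · simp [cx]; ring
  have hpi : (π:ℂ) ≠ 0 := by exact_mod_cast Real.pi_ne_zero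
  rw [KK_eq]
  have m1 := sub_ne_zero.2 h1
  have m2 := sub_ne_zero.2 h2
  have e : (conj (cx z) - cx x)⁻¹ - (conj (cx z) - conj (cx x))⁻¹ =
      (2 * (x.2:ℂ) * Complex.I) / ((conj (cx z) - cx x) * (conj (cx z) - conj (cx x))) := by
    rw [← hI, inv_sub_inv m1 m2]
    congr 1
    ring
  rw [e]
  push_cast
  have hI' := Complex.I_ne_zero
  generalize conj (cx z) - cx x = A at m1
  generalize conj (cx z) - conj (cx x) = B at m2
  field_simp

lemma KK_pf' (z x : ℝ × ℝ) (h1 : cx z ≠ cx x) (h2 : cx z ≠ conj (cx x)) :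
    conj (KK z x) = (2 * π * Complex.I)⁻¹ * ((cx z - cx x)⁻¹ - (cx z - conj (cx x))⁻¹) := by
  have h3 : conj (cx z) ≠ cx x := fun h => h2 (by rw [← h, Complex.conj_conj])
  have h4 : conj (cx z) ≠ conj (cx x) := fun h => h1 (by
    have := congrArg conj h
    simpa using this)
  rw [KK_pf z x h3 h4]
  simp only [map_mul, map_inv₀, map_sub, Complex.conj_conj, Complex.conj_I, Complex.conj_ofReal,
    map_ofNat]
  rw [mul_neg, inv_neg]
  ring

/-- indicator difference -/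
noncomputable def chi (X Y : ℂ) (r : ℝ) : ℝ := (if ‖Y‖ < r then 1 else 0) - (if r < ‖X‖ then 1 else 0)

/-- radial derivative -/
noncomputable def DD (X Y : ℂ) (r : ℝ) : ℝ :=
  r * ((((r:ℂ) ^ 2 - X * Y)⁻¹).re - (((r:ℂ) ^ 2 - conj X * Y)⁻¹).re)

lemma cx_circ (r θ : ℝ) : cx (r * Real.cos θ, r * Real.sin θ) = circleMap 0 r θ := by
  simp only [cx, circleMap, zero_add]
  rw [Complex.exp_mul_I]
  push_cast
  ring

lemma ne_of_norm {r : ℝ} {c w : ℂ} (h : ‖w‖ = r) (hc : ‖c‖ ≠ r) : w - c ≠ 0 := by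
  intro h1
  rw [sub_eq_zero.1 h1] at h
  exact hc h

lemma ang_full (x y : ℝ × ℝ) (hx : 0 < x.2) {r : ℝ} (hr : 0 < r)
    (hX : ‖cx x‖ ≠ r) (hY : ‖cx y‖ ≠ r) (hXY : r ^ 2 ≠ ‖cx x‖ * ‖cx y‖) :
    (∫ θ in (-π)..π, (r:ℂ) * (KK (r * Real.cos θ, r * Real.sin θ) x *
      conj (KK (r * Real.cos θ, r * Real.sin θ) y))) =
      ((-(1 / π) * (chi (cx x) (cx y) r * DD (cx x) (cx y) r) : ℝ) : ℂ) := by
  have hpi : (π:ℂ) ≠ 0 := by exact_mod_cast Real.pi_ne_zero
  have hX0 : cx x ≠ 0 := fun h => by have := congrArg Complex.im h; simp [cx_im] at this; linarith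
  have hX0' : conj (cx x) ≠ 0 := fun h => hX0 (by simpa using h)
  have nX : ‖conj (cx x)‖ = ‖cx x‖ := Complex.norm_conj _
  have nY : ‖conj (cx y)‖ = ‖cx y‖ := Complex.norm_conj _
  have nZ : ∀ θ : ℝ, ‖circleMap 0 r θ‖ = r := fun θ => by simp [abs_of_pos hr]
  have nZ' : ∀ θ : ℝ, ‖conj (circleMap 0 r θ)‖ = r := fun θ => by rw [Complex.norm_conj, nZ]
  have hX' : ‖conj (cx x)‖ ≠ r := by rwa [nX]
  have hY' : ‖conj (cx y)‖ ≠ r := by rwa [nY]
  have nab : ∀ α β : ℂ, ‖α‖ = ‖cx y‖ → ‖β‖ = ‖cx x‖ → (r:ℂ) ^ 2 - α * β ≠ 0 := by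
    intro α β h1 h2 h3
    have h4 := congrArg norm (sub_eq_zero.1 h3)
    rw [norm_mul, norm_pow, Complex.norm_real, Real.norm_eq_abs, abs_of_pos hr, h1, h2] at h4
    exact hXY (by rw [h4]; ring)
  have key : ∀ θ : ℝ, (r:ℂ) * (KK (r * Real.cos θ, r * Real.sin θ) x *
      conj (KK (r * Real.cos θ, r * Real.sin θ) y)) =
      (-(r:ℂ) / (4 * π ^ 2)) * ((conj (circleMap 0 r θ) - cx x)⁻¹ * (circleMap 0 r θ - cx y)⁻¹ -
        (conj (circleMap 0 r θ) - cx x)⁻¹ * (circleMap 0 r θ - conj (cx y))⁻¹ -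
        (conj (circleMap 0 r θ) - conj (cx x))⁻¹ * (circleMap 0 r θ - cx y)⁻¹ +
        (conj (circleMap 0 r θ) - conj (cx x))⁻¹ * (circleMap 0 r θ - conj (cx y))⁻¹) := by
    intro θ
    rw [KK_pf, KK_pf']
    · rw [cx_circ]
      have : (2 * (π:ℂ) * Complex.I)⁻¹ * (2 * (π:ℂ) * Complex.I)⁻¹ = -(1 / (4 * π ^ 2)) := by
        rw [← mul_inv, show (2 * (π:ℂ) * Complex.I) * (2 * (π:ℂ) * Complex.I) =
          4 * π ^ 2 * (Complex.I * Complex.I) by ring, Complex.I_mul_I]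
        field_simp
      generalize (2 * (π:ℂ) * Complex.I)⁻¹ = w at this
      linear_combination (r:ℂ) * ((conj (circleMap 0 r θ) - cx x)⁻¹ -
        (conj (circleMap 0 r θ) - conj (cx x))⁻¹) * ((circleMap 0 r θ - cx y)⁻¹ -
        (circleMap 0 r θ - conj (cx y))⁻¹) * this
    · rw [cx_circ]; exact sub_ne_zero.1 (ne_of_norm (nZ θ) hY)
    · rw [cx_circ]; exact sub_ne_zero.1 (ne_of_norm (nZ θ) hY')
    · rw [cx_circ]; exact sub_ne_zero.1 (ne_of_norm (nZ' θ) hX)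
    · rw [cx_circ]; exact sub_ne_zero.1 (ne_of_norm (nZ' θ) hX')
  simp_rw [key]
  have ii : ∀ α β : ℂ, ‖α‖ = ‖cx y‖ → ‖β‖ = ‖cx x‖ → IntervalIntegrable
      (fun θ => (conj (circleMap 0 r θ) - β)⁻¹ * (circleMap 0 r θ - α)⁻¹) volume (-π) π := by
    intro α β h1 h2
    apply Continuous.intervalIntegrable
    apply Continuous.mul
    · apply Continuous.inv₀
      · exact (Complex.continuous_conj.comp (continuous_circleMap 0 r)).sub continuous_const
      · intro θ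
        exact ne_of_norm (nZ' θ) (by rwa [h2])
    · apply Continuous.inv₀
      · exact (continuous_circleMap 0 r).sub continuous_const
      · intro θ
        exact ne_of_norm (nZ θ) (by rwa [h1])
  rw [intervalIntegral.integral_const_mul, intervalIntegral.integral_add,
    intervalIntegral.integral_sub, intervalIntegral.integral_sub,
    ang hr hY hX0 hX (nab _ _ rfl rfl), ang hr hY' hX0 hX (nab _ _ nY rfl),
    ang hr hY hX0' hX' (nab _ _ rfl nX), ang hr hY' hX0' hX' (nab _ _ nY nX), nX, nY]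
  · have e1 : ((r:ℂ) ^ 2 - conj (cx y) * conj (cx x))⁻¹ = conj (((r:ℂ) ^ 2 - cx x * cx y)⁻¹) := by
      simp only [map_inv₀, map_sub, map_mul, map_pow, Complex.conj_ofReal]
      rw [mul_comm (conj (cx y))]
    have e2 : ((r:ℂ) ^ 2 - conj (cx y) * (cx x))⁻¹ = conj (((r:ℂ) ^ 2 - conj (cx x) * cx y)⁻¹) := by
      simp only [map_inv₀, map_sub, map_mul, map_pow, Complex.conj_ofReal, Complex.conj_conj]
      rw [mul_comm (conj (cx y))]
    have e3 : ((if ‖cx y‖ < r then (1:ℂ) else 0) - (if r < ‖cx x‖ then (1:ℂ) else 0)) =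
        ((chi (cx x) (cx y) r : ℝ) : ℂ) := by
      unfold chi
      split_ifs <;> simp
    rw [e1, e2, e3, mul_comm (cx y) (cx x), mul_comm (cx y) (conj (cx x))]
    have f1 := Complex.add_conj (((r:ℂ) ^ 2 - cx x * cx y)⁻¹)
    have f2 := Complex.add_conj (((r:ℂ) ^ 2 - conj (cx x) * cx y)⁻¹)
    have f3 : ((DD (cx x) (cx y) r : ℝ) : ℂ) = (r:ℂ) * (((((r:ℂ) ^ 2 - cx x * cx y)⁻¹).re : ℂ) -
      ((((r:ℂ) ^ 2 - conj (cx x) * cx y)⁻¹).re : ℂ)) := by
      unfold DD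
      push_cast
      ring
    have f4 : ((-(1 / π) * (chi (cx x) (cx y) r * DD (cx x) (cx y) r) : ℝ) : ℂ) =
      -(1 / (π:ℂ)) * ((chi (cx x) (cx y) r : ℝ) : ℂ) * ((DD (cx x) (cx y) r : ℝ) : ℂ) := by
      push_cast
      ring
    rw [f4, f3]
    generalize ((r:ℂ) ^ 2 - cx x * cx y)⁻¹ = u at *
    generalize ((r:ℂ) ^ 2 - conj (cx x) * cx y)⁻¹ = v at *
    generalize ((chi (cx x) (cx y) r : ℝ) : ℂ) = c at *
    have f1' : conj u = 2 * (u.re:ℂ) - u := by
      rw [eq_sub_iff_add_eq', f1]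
      push_cast
      ring
    have f2' : conj v = 2 * (v.re:ℂ) - v := by
      rw [eq_sub_iff_add_eq', f2]
      push_cast
      ring
    rw [f1', f2']
    field_simp
    ring
  · exact ii _ _ rfl rfl
  · exact ii _ _ nY rfl
  · exact (ii _ _ rfl rfl).sub (ii _ _ nY rfl)
  · exact ii _ _ rfl nX
  · exact ((ii _ _ rfl rfl).sub (ii _ _ nY rfl)).sub (ii _ _ rfl nX)
  · exact ii _ _ nY nX

/-! ### The radial integral -/

/-- logarithmic potential -/
noncomputable def LL (c : ℂ) (r : ℝ) : ℝ := Real.log ((r ^ 2 - c.re) ^ 2 + c.im ^ 2) / 4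

lemma LL_pos {c : ℂ} {r : ℝ} (h : (r:ℂ) ^ 2 - c ≠ 0) : 0 < (r ^ 2 - c.re) ^ 2 + c.im ^ 2 := by
  have h1 := Complex.normSq_pos.2 h
  rw [Complex.normSq_apply] at h1
  have e1 : ((r:ℂ) ^ 2 - c).re = r ^ 2 - c.re := by
    rw [Complex.sub_re, ← Complex.ofReal_pow, Complex.ofReal_re]
  have e2 : ((r:ℂ) ^ 2 - c).im = - c.im := by
    rw [Complex.sub_im, ← Complex.ofReal_pow, Complex.ofReal_im, zero_sub]
  rw [e1, e2] at h1
  nlinarith

lemma LL_der {c : ℂ} {r : ℝ} (h : (r:ℂ) ^ 2 - c ≠ 0) :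
    HasDerivAt (LL c) (r * (((r:ℂ) ^ 2 - c)⁻¹).re) r := by
  have hp := LL_pos h
  have h1 : HasDerivAt (fun r : ℝ => (r ^ 2 - c.re) ^ 2 + c.im ^ 2)
      (2 * (r ^ 2 - c.re) * (2 * r)) r := by
    have h2 : HasDerivAt (fun r : ℝ => r ^ 2 - c.re) (2 * r) r := by
      simpa using (hasDerivAt_pow 2 r).sub_const c.re
    have h3 := (h2.pow 2).add_const (c.im ^ 2)
    have h5 : HasDerivAt (fun r : ℝ => (r ^ 2 - c.re) ^ 2 + c.im ^ 2)
      (((2:ℕ):ℝ) * (r ^ 2 - c.re) ^ (2 - 1) * (2 * r)) r := h3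
    exact h5.congr_deriv (by norm_num)
  have h4 := (h1.log hp.ne').div_const 4
  have e1 : ((r:ℂ) ^ 2 - c).re = r ^ 2 - c.re := by
    rw [Complex.sub_re, ← Complex.ofReal_pow, Complex.ofReal_re]
  have e2 : ((r:ℂ) ^ 2 - c).im = - c.im := by
    rw [Complex.sub_im, ← Complex.ofReal_pow, Complex.ofReal_im, zero_sub]
  have e3 : r * (((r:ℂ) ^ 2 - c)⁻¹).re = 2 * (r ^ 2 - c.re) * (2 * r) /
      ((r ^ 2 - c.re) ^ 2 + c.im ^ 2) / 4 := by
    rw [Complex.inv_re, Complex.normSq_apply, e1, e2]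
    have : (r ^ 2 - c.re) * (r ^ 2 - c.re) + -c.im * -c.im = (r ^ 2 - c.re) ^ 2 + c.im ^ 2 := by ring
    rw [this]
    field_simp
    ring
  rw [e3]
  exact h4

/-- difference of the potentials -/
noncomputable def Psi (X Y : ℂ) (r : ℝ) : ℝ := LL (X * Y) r - LL (conj X * Y) r

lemma Psi_der {X Y : ℂ} {r : ℝ} (h1 : (r:ℂ) ^ 2 - X * Y ≠ 0) (h2 : (r:ℂ) ^ 2 - conj X * Y ≠ 0) :
    HasDerivAt (Psi X Y) (DD X Y r) r := by
  have h := (LL_der h1).sub (LL_der h2)
  have h3 : HasDerivAt (Psi X Y) (r * (((r:ℂ) ^ 2 - X * Y)⁻¹).re -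
    r * (((r:ℂ) ^ 2 - conj X * Y)⁻¹).re) r := h
  refine h3.congr_deriv ?_
  unfold DD
  ring

lemma nz1 {X Y : ℂ} (hX : 0 < X.im) (hY : 0 < Y.im) (r : ℝ) : (r:ℂ) ^ 2 - X * Y ≠ 0 := by
  intro h
  have h1 := sub_eq_zero.1 h
  have h2 := congrArg Complex.re h1
  have h3 := congrArg Complex.im h1
  rw [← Complex.ofReal_pow, Complex.ofReal_re, Complex.mul_re] at h2
  rw [← Complex.ofReal_pow, Complex.ofReal_im, Complex.mul_im] at h3
  have h4 : r ^ 2 * Y.im = - (X.im * (Y.re ^ 2 + Y.im ^ 2)) := by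
    rw [h2]
    linear_combination (-Y.re) * h3
  have h5 : 0 ≤ r ^ 2 * Y.im := by positivity
  have h6 : 0 < X.im * (Y.re ^ 2 + Y.im ^ 2) := by positivity
  linarith

lemma nz2 {X Y : ℂ} (hX : X ≠ 0) (hY : Y ≠ 0) (hXY : X ≠ Y) {r : ℝ} (hr : 0 ≤ r)
    (h : (r ≤ ‖X‖ ∧ r ≤ ‖Y‖) ∨ (‖X‖ ≤ r ∧ ‖Y‖ ≤ r)) : (r:ℂ) ^ 2 - conj X * Y ≠ 0 := by
  intro h0
  have h1 := sub_eq_zero.1 h0
  have h2 := congrArg norm h1
  rw [norm_mul, norm_pow, Complex.norm_real, Real.norm_eq_abs, abs_of_nonneg hr,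
    Complex.norm_conj] at h2
  have pX := norm_pos_iff.2 hX
  have pY := norm_pos_iff.2 hY
  have pr : 0 < r := by
    rcases hr.lt_or_eq with h3 | h3
    · exact h3
    · exfalso
      rw [← h3] at h2
      have := mul_pos pX pY
      norm_num at h2
      rcases h2 with h2 | h2
      · exact hX h2
      · exact hY h2
  have e : ‖X‖ = r := by
    rcases h with ⟨a, b⟩ | ⟨a, b⟩
    · by_contra hne
      have : r < ‖X‖ := lt_of_le_of_ne a (Ne.symm hne)
      nlinarith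
    · by_contra hne
      have : ‖X‖ < r := lt_of_le_of_ne a hne
      nlinarith
  have h3 : conj X * X = (r:ℂ) ^ 2 := by
    rw [mul_comm, Complex.mul_conj, Complex.normSq_eq_norm_sq, e]
    push_cast
    ring
  rw [← h3] at h1
  exact hXY (mul_left_cancel₀ (by simpa using hX) h1)

lemma Psi_zero (X Y : ℂ) : Psi X Y 0 = 0 := by
  unfold Psi LL
  have : ((0:ℝ) ^ 2 - (X * Y).re) ^ 2 + (X * Y).im ^ 2 =
      ((0:ℝ) ^ 2 - (conj X * Y).re) ^ 2 + (conj X * Y).im ^ 2 := by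
    simp only [Complex.mul_re, Complex.mul_im, Complex.conj_re, Complex.conj_im]
    ring
  rw [this, sub_self]

lemma ratio_tend (c : ℂ) : Tendsto (fun r : ℝ => ((r ^ 2 - c.re) ^ 2 + c.im ^ 2) / (r ^ 4))
    atTop (𝓝 1) := by
  have h1 : Tendsto (fun r : ℝ => (r ^ 2)⁻¹) atTop (𝓝 0) :=
    tendsto_inv_atTop_zero.comp (tendsto_pow_atTop (by norm_num))
  have h2 : Tendsto (fun r : ℝ => (1 - c.re * (r ^ 2)⁻¹) ^ 2 + (c.im * (r ^ 2)⁻¹) ^ 2) atTop
      (𝓝 ((1 - c.re * 0) ^ 2 + (c.im * 0) ^ 2)) :=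
    ((tendsto_const_nhds.sub (h1.const_mul _)).pow 2).add ((h1.const_mul _).pow 2)
  have e : ((1 - c.re * 0) ^ 2 + (c.im * 0) ^ 2 : ℝ) = 1 := by ring
  rw [e] at h2
  refine h2.congr' ?_
  filter_upwards [eventually_gt_atTop 0] with r hr
  field_simp

lemma Psi_tend (X Y : ℂ) : Tendsto (Psi X Y) atTop (𝓝 0) := by
  have h1 := ratio_tend (X * Y)
  have h2 := ratio_tend (conj X * Y)
  have h3 := ((h1.log one_ne_zero).sub (h2.log one_ne_zero)).div_const 4
  rw [sub_self, zero_div] at h3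
  refine h3.congr' ?_
  have p1 : ∀ᶠ r : ℝ in atTop, 0 < ((r ^ 2 - (X * Y).re) ^ 2 + (X * Y).im ^ 2) / (r ^ 4) :=
    h1.eventually (lt_mem_nhds one_pos)
  have p2 : ∀ᶠ r : ℝ in atTop, 0 < ((r ^ 2 - (conj X * Y).re) ^ 2 + (conj X * Y).im ^ 2) / (r ^ 4) :=
    h2.eventually (lt_mem_nhds one_pos)
  filter_upwards [p1, p2, eventually_gt_atTop 0] with r q1 q2 hr
  have hr4 : 0 < r ^ 4 := by positivity
  have q1' : (r ^ 2 - (X * Y).re) ^ 2 + (X * Y).im ^ 2 ≠ 0 := by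
    intro h; rw [h] at q1; simp at q1
  have q2' : (r ^ 2 - (conj X * Y).re) ^ 2 + (conj X * Y).im ^ 2 ≠ 0 := by
    intro h; rw [h] at q2; simp at q2
  rw [Real.log_div q1' hr4.ne', Real.log_div q2' hr4.ne']
  unfold Psi LL
  ring

lemma Psi_X {X Y : ℂ} (hX : X ≠ 0) (h1 : conj X - Y ≠ 0) (h2 : X - Y ≠ 0) :
    Psi X Y ‖X‖ = (Real.log (Complex.normSq (conj X - Y)) - Real.log (Complex.normSq (X - Y))) / 4 := by
  unfold Psi LL
  have a1 : (‖X‖ ^ 2 - (X * Y).re) ^ 2 + (X * Y).im ^ 2 =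
      Complex.normSq X * Complex.normSq (conj X - Y) := by
    rw [← Complex.normSq_eq_norm_sq]
    simp only [Complex.normSq_apply, Complex.mul_re, Complex.mul_im, Complex.conj_re,
      Complex.conj_im, Complex.sub_re, Complex.sub_im]
    ring
  have a2 : (‖X‖ ^ 2 - (conj X * Y).re) ^ 2 + (conj X * Y).im ^ 2 =
      Complex.normSq X * Complex.normSq (X - Y) := by
    rw [← Complex.normSq_eq_norm_sq]
    simp only [Complex.normSq_apply, Complex.mul_re, Complex.mul_im, Complex.conj_re,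
      Complex.conj_im, Complex.sub_re, Complex.sub_im]
    ring
  rw [a1, a2, Real.log_mul (Complex.normSq_pos.2 hX).ne' (Complex.normSq_pos.2 h1).ne',
    Real.log_mul (Complex.normSq_pos.2 hX).ne' (Complex.normSq_pos.2 h2).ne']
  ring

lemma Psi_Y {X Y : ℂ} (hY : Y ≠ 0) (h1 : conj X - Y ≠ 0) (h2 : X - Y ≠ 0) :
    Psi X Y ‖Y‖ = (Real.log (Complex.normSq (conj X - Y)) - Real.log (Complex.normSq (X - Y))) / 4 := by
  unfold Psi LL
  have a1 : (‖Y‖ ^ 2 - (X * Y).re) ^ 2 + (X * Y).im ^ 2 =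
      Complex.normSq Y * Complex.normSq (conj X - Y) := by
    rw [← Complex.normSq_eq_norm_sq]
    simp only [Complex.normSq_apply, Complex.mul_re, Complex.mul_im, Complex.conj_re,
      Complex.conj_im, Complex.sub_re, Complex.sub_im]
    ring
  have a2 : (‖Y‖ ^ 2 - (conj X * Y).re) ^ 2 + (conj X * Y).im ^ 2 =
      Complex.normSq Y * Complex.normSq (X - Y) := by
    rw [← Complex.normSq_eq_norm_sq]
    simp only [Complex.normSq_apply, Complex.mul_re, Complex.mul_im, Complex.conj_re,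
      Complex.conj_im, Complex.sub_re, Complex.sub_im]
    ring
  rw [a1, a2, Real.log_mul (Complex.normSq_pos.2 hY).ne' (Complex.normSq_pos.2 h1).ne',
    Real.log_mul (Complex.normSq_pos.2 hY).ne' (Complex.normSq_pos.2 h2).ne']
  ring


lemma radial {X Y : ℂ} (hX : 0 < X.im) (hY : 0 < Y.im) (hXY : X ≠ Y)
    (hint : IntegrableOn (fun r => -(1 / π) * (chi X Y r * DD X Y r)) (Ioi 0)) :
    (∫ r in Ioi (0:ℝ), -(1 / π) * (chi X Y r * DD X Y r)) =
      (1 / π) * (Psi X Y ‖X‖ + Psi X Y ‖Y‖) := by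
  have hpi := Real.pi_pos
  have hX0 : X ≠ 0 := fun h => by rw [h] at hX; simp at hX
  have hY0 : Y ≠ 0 := fun h => by rw [h] at hY; simp at hY
  have pX := norm_pos_iff.2 hX0
  have pY := norm_pos_iff.2 hY0
  obtain ⟨m, hm⟩ : ∃ m, m = min ‖X‖ ‖Y‖ := ⟨_, rfl⟩
  obtain ⟨M, hM⟩ : ∃ M, M = max ‖X‖ ‖Y‖ := ⟨_, rfl⟩
  have m0 : 0 < m := by rw [hm]; exact lt_min pX pY
  have mM : m ≤ M := by rw [hm, hM]; exact min_le_max
  have M0 : 0 < M := m0.trans_le mM
  have mX : m ≤ ‖X‖ := by rw [hm]; exact min_le_left _ _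
  have mY : m ≤ ‖Y‖ := by rw [hm]; exact min_le_right _ _
  have MX : ‖X‖ ≤ M := by rw [hM]; exact le_max_left _ _
  have MY : ‖Y‖ ≤ M := by rw [hM]; exact le_max_right _ _
  have hsum : Psi X Y ‖X‖ + Psi X Y ‖Y‖ = Psi X Y m + Psi X Y M := by
    rcases le_total ‖X‖ ‖Y‖ with h | h
    · rw [hm, hM, min_eq_left h, max_eq_right h]
    · rw [hm, hM, min_eq_right h, max_eq_left h, add_comm]
  have i1 := hint.mono_set (show Ioo 0 m ⊆ Ioi 0 from fun r hr => hr.1)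
  have i1' := hint.mono_set (show Ioc 0 m ⊆ Ioi 0 from fun r hr => hr.1)
  have i2 := hint.mono_set (show Ioi m ⊆ Ioi 0 from fun r hr => m0.trans hr)
  have i2' := hint.mono_set (show Ioc m M ⊆ Ioi 0 from fun r hr => m0.trans hr.1)
  have i3 := hint.mono_set (show Ioi M ⊆ Ioi 0 from fun r hr => M0.trans hr)
  have P1 : (∫ r in Ioc 0 m, -(1 / π) * (chi X Y r * DD X Y r)) = (1 / π) * Psi X Y m := by
    have e1 : EqOn (fun r => -(1 / π) * (chi X Y r * DD X Y r)) (fun r => (1 / π) * DD X Y r)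
        (Ioo 0 m) := by
      intro r hr
      have c1 : ¬ (‖Y‖ < r) := not_lt.2 (hr.2.le.trans mY)
      have c2 : r < ‖X‖ := hr.2.trans_le mX
      simp only [chi, if_neg c1, if_pos c2]
      ring
    rw [integral_Ioc_eq_integral_Ioo, setIntegral_congr_fun measurableSet_Ioo e1,
      integral_const_mul, ← integral_Ioc_eq_integral_Ioo,
      ← intervalIntegral.integral_of_le m0.le,
      intervalIntegral.integral_eq_sub_of_hasDerivAt (f := Psi X Y), Psi_zero, sub_zero]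
    · intro r hr
      rw [uIcc_of_le m0.le] at hr
      exact Psi_der (nz1 hX hY r) (nz2 hX0 hY0 hXY hr.1 (Or.inl ⟨hr.2.trans mX, hr.2.trans mY⟩))
    · rw [intervalIntegrable_iff_integrableOn_Ioo_of_le m0.le]
      have i1c : IntegrableOn (fun r => π * (-(1 / π) * (chi X Y r * DD X Y r))) (Ioo 0 m) :=
        i1.const_mul π
      have := i1c.congr_fun (g := DD X Y) (fun r hr => by
        have := e1 hr
        simp only at this ⊢
        rw [this]
        field_simp) measurableSet_Ioo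
      exact this
  have P2 : (∫ r in Ioc m M, -(1 / π) * (chi X Y r * DD X Y r)) = 0 := by
    rw [integral_Ioc_eq_integral_Ioo]
    apply setIntegral_eq_zero_of_forall_eq_zero
    intro r hr
    have : chi X Y r = 0 := by
      unfold chi
      rcases le_total ‖X‖ ‖Y‖ with h | h
      · rw [hm, hM, min_eq_left h, max_eq_right h] at hr
        rw [if_neg (not_lt.2 hr.2.le), if_neg (not_lt.2 hr.1.le), sub_zero]
      · rw [hm, hM, min_eq_right h, max_eq_left h] at hr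
        rw [if_pos hr.1, if_pos hr.2, sub_self]
    rw [this]
    ring
  have P3 : (∫ r in Ioi M, -(1 / π) * (chi X Y r * DD X Y r)) = (1 / π) * Psi X Y M := by
    have e1 : EqOn (fun r => -(1 / π) * (chi X Y r * DD X Y r)) (fun r => -(1 / π) * DD X Y r)
        (Ioi M) := by
      intro r hr
      have hr' : M < r := hr
      have c1 : ‖Y‖ < r := MY.trans_lt hr'
      have c2 : ¬ (r < ‖X‖) := not_lt.2 (MX.trans hr'.le)
      simp only [chi, if_pos c1, if_neg c2]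
      ring
    have hd : ∀ r, M ≤ r → HasDerivAt (Psi X Y) (DD X Y r) r := fun r hr =>
      Psi_der (nz1 hX hY r) (nz2 hX0 hY0 hXY (M0.le.trans hr) (Or.inr ⟨MX.trans hr, MY.trans hr⟩))
    have i3' : IntegrableOn (DD X Y) (Ioi M) := by
      have i3c : IntegrableOn (fun r => (-π) * (-(1 / π) * (chi X Y r * DD X Y r))) (Ioi M) :=
        i3.const_mul (-π)
      have := i3c.congr_fun (g := DD X Y) (fun r hr => by
        have := e1 hr
        simp only at this ⊢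
        rw [this]
        field_simp) measurableSet_Ioi
      exact this
    rw [setIntegral_congr_fun measurableSet_Ioi e1, integral_const_mul,
      integral_Ioi_of_hasDerivAt_of_tendsto (hd M le_rfl).continuousAt.continuousWithinAt
        (fun r hr => hd r (le_of_lt hr)) i3' (Psi_tend X Y)]
    ring
  rw [← Ioc_union_Ioi_eq_Ioi m0.le, setIntegral_union (Ioc_disjoint_Ioi le_rfl) measurableSet_Ioi
    i1' i2, ← Ioc_union_Ioi_eq_Ioi mM, setIntegral_union (Ioc_disjoint_Ioi le_rfl)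
    measurableSet_Ioi i2' i3, P1, P2, P3, hsum]
  ring

lemma polar_int {F : ℝ × ℝ → ℂ} (hF : Integrable F) :
    IntegrableOn (fun p : ℝ × ℝ => p.1 • F (polarCoord.symm p)) polarCoord.target := by
  have h1 := (integrableOn_image_iff_integrableOn_abs_det_fderiv_smul (volume : Measure (ℝ × ℝ))
    (s := polarCoord.target) (f := polarCoord.symm) (f' := fderivPolarCoordSymm)
    polarCoord.open_target.measurableSet
    (fun p _ => (hasFDerivAt_polarCoord_symm p).hasFDerivWithinAt) polarCoord.symm.injOn F).1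
    hF.integrableOn
  refine h1.congr_fun ?_ polarCoord.open_target.measurableSet
  intro p hp
  simp only [det_fderivPolarCoordSymm]
  rw [abs_of_pos hp.1]

lemma pair_val (x y : ℝ × ℝ) (hx : 0 < x.2) (hy : 0 < y.2) (hxy : x ≠ y) :
    (∫ z, KK z x * conj (KK z y)) =
      (((1 / π) * (Psi (cx x) (cx y) ‖cx x‖ + Psi (cx x) (cx y) ‖cx y‖) : ℝ) : ℂ) := by
  have hI := pair_int x y hx hy hxy
  have hpol := polar_int hI
  have hXY : cx x ≠ cx y := by
    intro h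
    apply hxy
    have h1 := congrArg Complex.re h
    have h2 := congrArg Complex.im h
    rw [cx_re, cx_re] at h1
    rw [cx_im, cx_im] at h2
    exact Prod.ext h1 h2
  rw [← integral_comp_polarCoord_symm]
  have ht : polarCoord.target = Ioi (0:ℝ) ×ˢ Ioo (-π) π := rfl
  rw [ht, Measure.volume_eq_prod] at hpol
  rw [ht, Measure.volume_eq_prod, setIntegral_prod _ hpol]
  have hae : ∀ᵐ r : ℝ ∂(volume.restrict (Ioi (0:ℝ))),
      (∫ θ in Ioo (-π) π, ((r, θ) : ℝ × ℝ).1 • (KK (polarCoord.symm (r, θ)) x *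
        conj (KK (polarCoord.symm (r, θ)) y))) =
      ((-(1 / π) * (chi (cx x) (cx y) r * DD (cx x) (cx y) r) : ℝ) : ℂ) := by
    have n1 : ∀ᵐ r : ℝ, r ≠ ‖cx x‖ := by simp [ae_iff]
    have n2 : ∀ᵐ r : ℝ, r ≠ ‖cx y‖ := by simp [ae_iff]
    have n3 : ∀ᵐ r : ℝ, r ≠ √(‖cx x‖ * ‖cx y‖) := by simp [ae_iff]
    filter_upwards [ae_restrict_of_ae n1, ae_restrict_of_ae n2, ae_restrict_of_ae n3,
      ae_restrict_mem measurableSet_Ioi] with r m1 m2 m3 hr
    have hr' : (0:ℝ) < r := hr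
    have h := ang_full x y hx hr' (Ne.symm m1) (Ne.symm m2) (fun h => m3 (by
      rw [← h, Real.sqrt_sq hr'.le]))
    rw [← h, intervalIntegral.integral_of_le (by linarith [Real.pi_pos]),
      integral_Ioc_eq_integral_Ioo]
    simp only [polarCoord_symm_apply, Complex.real_smul]
  have hint := hpol
  rw [IntegrableOn, ← Measure.prod_restrict] at hint
  have hint2 := hint.integral_prod_left
  have hint3 := hint2.congr hae
  have hG : IntegrableOn (fun r => -(1 / π) * (chi (cx x) (cx y) r * DD (cx x) (cx y) r))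
      (Ioi 0) := by
    have h4 := hint3.re
    exact h4
  have h5 : (∫ r in Ioi (0:ℝ), ((-(1 / π) * (chi (cx x) (cx y) r * DD (cx x) (cx y) r) : ℝ) : ℂ)) =
      ((∫ r in Ioi (0:ℝ), -(1 / π) * (chi (cx x) (cx y) r * DD (cx x) (cx y) r) : ℝ) : ℂ) :=
    integral_ofReal
  rw [integral_congr_ae hae, h5, radial (by rw [cx_im]; exact hx)
    (by rw [cx_im]; exact hy) hXY hG]

end T04

theorem t_pair : S_pair := by
  intro x y hx hy hxy
  have hI := T04.pair_int x y hx hy hxy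
  refine ⟨hI.re, ?_⟩
  have h1 : (∫ z, (KK z x * conj (KK z y)).re) = (∫ z, KK z x * conj (KK z y)).re :=
    integral_re hI
  rw [h1, T04.pair_val x y hx hy hxy, Complex.ofReal_re]
  have hX0 : T04.cx x ≠ 0 := fun h => by
    have := congrArg Complex.im h; simp [T04.cx_im] at this; linarith
  have hY0 : T04.cx y ≠ 0 := fun h => by
    have := congrArg Complex.im h; simp [T04.cx_im] at this; linarith
  have d1 : conj (T04.cx x) - T04.cx y ≠ 0 := fun h => by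
    have := congrArg Complex.im h; simp [T04.cx_im] at this; linarith
  have d2 : T04.cx x - T04.cx y ≠ 0 := fun h => by
    apply hxy
    have h1 := congrArg Complex.re h
    have h2 := congrArg Complex.im h
    simp only [Complex.sub_re, Complex.sub_im, T04.cx_re, T04.cx_im, Complex.zero_re,
      Complex.zero_im] at h1 h2
    exact Prod.ext (by linarith) (by linarith)
  have hd : 0 < dsq x y := by
    unfold dsq
    by_contra h
    apply hxy
    have e1 : x.1 - y.1 = 0 := by nlinarith [sq_nonneg (x.1 - y.1), sq_nonneg (x.2 - y.2)]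
    have e2 : x.2 - y.2 = 0 := by nlinarith [sq_nonneg (x.1 - y.1), sq_nonneg (x.2 - y.2)]
    exact Prod.ext (by linarith) (by linarith)
  rw [T04.Psi_X hX0 d1 d2, T04.Psi_Y hY0 d1 d2]
  have n1 : Complex.normSq (conj (T04.cx x) - T04.cx y) = dsq x y + 4 * x.2 * y.2 := by
    rw [Complex.normSq_apply]
    simp only [Complex.sub_re, Complex.sub_im, Complex.conj_re, Complex.conj_im, T04.cx_re,
      T04.cx_im, dsq]
    ring
  have n2 : Complex.normSq (T04.cx x - T04.cx y) = dsq x y := by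
    rw [Complex.normSq_apply]
    simp only [Complex.sub_re, Complex.sub_im, T04.cx_re, T04.cx_im, dsq]
    ring
  have hz : 4 * x.2 * y.2 ≠ 0 := by positivity
  have hs : 0 < dsq x y + 4 * x.2 * y.2 := by positivity
  rw [n1, n2]
  unfold kap kk
  rw [if_neg hz]
  have : 1 + 4 * x.2 * y.2 / dsq x y = (dsq x y + 4 * x.2 * y.2) / dsq x y := by
    field_simp
  rw [this, Real.log_div hs.ne' hd.ne']
  field_simp
  ring

end SV
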