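import Pool.Agent.Helper779.SV.Stmts2

/-!
# The final statement (MP_22dedb_an, Q1) and the assembly statements
-/

open MeasureTheory Set Filter Topology
open scoped Real

namespace SV

/-- mirror image in the horizontal axis -/
def mirror (A : Set (ℝ × ℝ)) : Set (ℝ × ℝ) := {x | (x.1, -x.2) ∈ A}

/-- the patch `1_A - 1_{A_-}` -/
noncomputable def patch (A : Set (ℝ × ℝ)) : ℝ × ℝ → ℝ :=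
  fun x => A.indicator (fun _ => (1 : ℝ)) x - (mirror A).indicator (fun _ => (1 : ℝ)) x

/-- Biot-Savart velocity `u = k * ω`, `k(z) = (1/2π) (-z₂, z₁)/|z|²` -/
noncomputable def vel (ω : ℝ × ℝ → ℝ) (x : ℝ × ℝ) : ℝ × ℝ :=
  (∫ y : ℝ × ℝ, 1 / (2 * π) * (-(x.2 - y.2) / ((x.1 - y.1) ^ 2 + (x.2 - y.2) ^ 2)) * ω y,
   ∫ y : ℝ × ℝ, 1 / (2 * π) * ((x.1 - y.1) / ((x.1 - y.1) ^ 2 + (x.2 - y.2) ^ 2)) * ω y)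

/-- kinetic energy `E(ω) = ¼ ∫ |u|²` -/
noncomputable def KE (ω : ℝ × ℝ → ℝ) : ℝ := 1 / 4 * ∫ x : ℝ × ℝ, ((vel ω x).1 ^ 2 + (vel ω x).2 ^ 2)

/-- the class `K_μ` -/
def KM (μ : ℝ) : Set (ℝ × ℝ → ℝ) :=
  {ω | ∃ A : Set (ℝ × ℝ), MeasurableSet A ∧ A ⊆ {x | 0 < x.2} ∧ ω = patch A ∧
    ∫ x : ℝ × ℝ, x.2 * ω x = μ ∧ ∫⁻ x : ℝ × ℝ, ENNReal.ofReal |ω x| ≤ 1}

/-- the set of maximisers `S_μ` -/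
def SM (μ : ℝ) : Set (ℝ × ℝ → ℝ) := {ω | ω ∈ KM μ ∧ ∀ ω' ∈ KM μ, KE ω' ≤ KE ω}

/-- `ω^{r,τ}(x) = ω((x-(τ,0))/r)` -/
noncomputable def rescale (ω : ℝ × ℝ → ℝ) (r τ : ℝ) : ℝ × ℝ → ℝ :=
  fun x => ω ((x.1 - τ) / r, x.2 / r)

/-- the final statement -/
def S_final : Prop := ∃ μs : ℝ, 0 < μs ∧ ∃ μ₀ : ℝ, 0 < μ₀ ∧ ∃ ω₀ ∈ KM μ₀,
  (∀ μ : ℝ, 0 < μ → μ ≤ μs →
    (∀ r τ : ℝ, 0 < r → r ^ 3 * μ₀ = μ → rescale ω₀ r τ ∈ SM μ) ∧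
    (∀ ω ∈ SM μ, ∃ r τ : ℝ, 0 < r ∧ r ^ 3 * μ₀ = μ ∧ ω =ᵐ[volume] rescale ω₀ r τ)) ∧
  (∀ μ : ℝ, μs < μ → ∀ A : Set (ℝ × ℝ), MeasurableSet A → A ⊆ {x | 0 < x.2} → patch A ∈ SM μ →
    ∃ δ : ℝ, 0 < δ ∧ volume (A ∩ {x | x.2 < δ}) = 0)

/-- M5. energy identity -/
def S_KE : Prop := ∀ A, Fi A → volume A ≠ ⊤ →
  Integrable (fun x : ℝ × ℝ => (vel (patch A) x).1 ^ 2 + (vel (patch A) x).2 ^ 2) ∧ KE (patch A) = EE A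

/-- M6. translation between `SM` and `SMax` -/
def S_trl : Prop := ∀ μ : ℝ, 0 < μ → ∀ A : Set (ℝ × ℝ),
  (MeasurableSet A ∧ A ⊆ {x | 0 < x.2} ∧ patch A ∈ SM μ) ↔ SMax (μ / 2) A

/-- M7. part (a) in terms of sets: all J-maximisers agree up to translation and dilation -/
def S_a : Prop := ∃ w0 U0, Sol w0 U0 ∧ JMax U0 ∧ 2273 / 10000 ≤ w0 ∧
  ∀ A, JMax A → ∃ r τ : ℝ, 0 < r ∧ A =ᵐ[volume] tra τ (dil r U0)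

/-- M8. part (b) in terms of sets -/
def S_b : Prop := ∀ w0 U0, Sol w0 U0 → JMax U0 → 2273 / 10000 ≤ w0 → ∀ p A, SMax p A →
  (∀ δ : ℝ, 0 < δ → volume (A ∩ {x | x.2 < δ}) ≠ 0) →
  ar A ^ 3 * PP U0 ^ 2 < ar U0 ^ 3 * PP A ^ 2 → False

end SV
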