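import Pool.Agent.Helper779.SV.T02
import Pool.Agent.Helper779.SV.Final

/-!
# T05: S_L2, S_cross, S_PD, S_PDf, S_KE
-/

open MeasureTheory Set Filter Topology
open scoped Real ENNReal

namespace SV
namespace T05

/-! ### The kernel -/

/-- squared distance to the mirror image -/
def dsb (z x : ℝ × ℝ) : ℝ := (z.1 - x.1) ^ 2 + (z.2 + x.2) ^ 2

theorem norm_lin (a b : ℝ) : ‖((a : ℝ) : ℂ) - ((b : ℝ) : ℂ) * Complex.I‖ = √(a ^ 2 + b ^ 2) := by
  have h : ((a : ℝ) : ℂ) - ((b : ℝ) : ℂ) * Complex.I = ((a : ℝ) : ℂ) + (((-b : ℝ)) : ℂ) * Complex.I := by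
    push_cast
    ring
  rw [h, Complex.norm_add_mul_I]
  congr 1
  ring

theorem norm_KK (z x : ℝ × ℝ) : ‖KK z x‖ = |x.2| / π / (√(dsb z x) * √(dsq z x)) := by
  unfold KK dsb dsq
  rw [norm_div, norm_mul, norm_lin, norm_lin, Complex.norm_real, Real.norm_eq_abs, abs_div,
    abs_of_pos Real.pi_pos]

theorem norm_KK_refl (z x : ℝ × ℝ) : ‖KK (z.1, -z.2) x‖ = ‖KK z x‖ := by
  rw [norm_KK, norm_KK]
  have h1 : dsb (z.1, -z.2) x = dsq z x := by
    simp only [dsb, dsq]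
    ring
  have h2 : dsq (z.1, -z.2) x = dsb z x := by
    simp only [dsb, dsq]
    ring
  rw [h1, h2, mul_comm (√(dsq z x))]

/-- the far kernel at distance `w` -/
noncomputable def q0 (w : ℝ × ℝ) : ℝ :=
  {w : ℝ × ℝ | 1 ≤ w.1 ^ 2 + w.2 ^ 2}.indicator (fun w => 1 / (π * (w.1 ^ 2 + w.2 ^ 2))) w

theorem q0_nonneg (w : ℝ × ℝ) : 0 ≤ q0 w := indicator_nonneg (fun w _ => by positivity) w

theorem q0_meas : Measurable q0 :=
  Measurable.indicator (by fun_prop) (measurableSet_le (by fun_prop) (by fun_prop))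

theorem KK_bound {z x : ℝ × ℝ} (hz : 0 ≤ z.2) (hx : 0 < x.2) :
    ‖KK z x‖ ≤ T01.g1 z 1 x + x.2 * q0 (x - z) := by
  have h0 := T01.g1_nonneg z 1 x
  have h0' := mul_nonneg hx.le (q0_nonneg (x - z))
  rw [norm_KK, abs_of_pos hx]
  have hds : dsq z x ≤ dsb z x := by
    unfold dsq dsb
    nlinarith
  rcases (T01.dsq_nonneg z x).eq_or_lt with hD | hD
  · rw [← hD, Real.sqrt_zero, mul_zero, div_zero]
    linarith
  have hdb : 0 < dsb z x := hD.trans_le hds
  set d := √(dsq z x) with hd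
  set e := √(dsb z x) with he
  have hd0 : 0 < d := Real.sqrt_pos.2 hD
  have he0 : 0 < e := Real.sqrt_pos.2 hdb
  have hde : d ≤ e := Real.sqrt_le_sqrt hds
  by_cases h : dsq z x < 1 ^ 2
  · have h1 : T01.g1 z 1 x = 1 / (π * d) := indicator_of_mem (show x ∈ {y | dsq z y < 1 ^ 2} from h) _
    have h2 : x.2 ≤ e := by
      apply Real.le_sqrt_of_sq_le
      unfold dsb
      nlinarith [sq_nonneg (z.1 - x.1)]
    have h3 : x.2 / π / (e * d) ≤ 1 / (π * d) := by
      rw [div_div, div_le_div_iff₀ (by positivity) (by positivity)]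
      nlinarith [mul_le_mul_of_nonneg_right h2 (show 0 ≤ π * d by positivity)]
    linarith
  · have h1 : q0 (x - z) = 1 / (π * dsq z x) := by
      unfold q0
      have h2 : (x - z).1 ^ 2 + (x - z).2 ^ 2 = dsq z x := by
        simp only [dsq, Prod.fst_sub, Prod.snd_sub]
        ring
      rw [indicator_of_mem]
      · simp only [h2]
      · show 1 ≤ (x - z).1 ^ 2 + (x - z).2 ^ 2
        rw [h2]
        simpa using h
    have h2 : d * d = dsq z x := Real.mul_self_sqrt hD.le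
    have h3 : x.2 / π / (e * d) ≤ x.2 * (1 / (π * dsq z x)) := by
      rw [← h2, div_div, mul_one_div]
      apply div_le_div_of_nonneg_left hx.le (by positivity)
      apply mul_le_mul_of_nonneg_left _ Real.pi_pos.le
      exact mul_le_mul_of_nonneg_right hde hd0.le
    rw [h1]
    linarith

theorem KK_meas : Measurable (fun p : (ℝ × ℝ) × (ℝ × ℝ) => KK p.1 p.2) := by
  unfold KK
  fun_prop

theorem KK_meas_left (x : ℝ × ℝ) : Measurable (fun z => KK z x) :=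
  KK_meas.comp (measurable_id.prodMk measurable_const)

theorem KK_meas_right (z : ℝ × ℝ) : Measurable (fun x => KK z x) :=
  KK_meas.comp (measurable_const.prodMk measurable_id)

/-! ### The L² bound -/

theorem enn_ab (a b : ℝ≥0∞) : a * b ≤ a ^ 2 + b ^ 2 := by
  rcases le_total a b with h | h
  · calc a * b ≤ b * b := by gcongr
      _ = b ^ 2 := (sq b).symm
      _ ≤ _ := le_add_self
  · calc a * b ≤ a * a := by gcongr
      _ = a ^ 2 := (sq a).symm
      _ ≤ _ := le_self_add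

theorem enn_add_sq (a b : ℝ≥0∞) : (a + b) ^ 2 ≤ 4 * (a ^ 2 + b ^ 2) := by
  rcases le_total a b with h | h
  · calc (a + b) ^ 2 ≤ (b + b) ^ 2 := by gcongr
      _ = 4 * b ^ 2 := by ring
      _ ≤ _ := by gcongr; exact le_add_self
  · calc (a + b) ^ 2 ≤ (a + a) ^ 2 := by gcongr
      _ = 4 * a ^ 2 := by ring
      _ ≤ _ := by gcongr; exact le_self_add

theorem sq_lint_le {α : Type*} [MeasurableSpace α] (μ : Measure α) {w Q : α → ℝ≥0∞}
    (hw : Measurable w) (hQ : Measurable Q) :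
    (∫⁻ x, w x * Q x ∂μ) ^ 2 ≤ 2 * (∫⁻ x, w x ∂μ) * ∫⁻ x, w x * Q x ^ 2 ∂μ := by
  set W := ∫⁻ x, w x ∂μ with hW
  set S := ∫⁻ x, w x * Q x ^ 2 ∂μ with hS
  calc (∫⁻ x, w x * Q x ∂μ) ^ 2 = ∫⁻ x, (w x * Q x) * (∫⁻ y, w y * Q y ∂μ) ∂μ := by
        rw [sq, lintegral_mul_const _ (show Measurable fun x => w x * Q x from hw.mul hQ)]
    _ = ∫⁻ x, ∫⁻ y, (w x * Q x) * (w y * Q y) ∂μ ∂μ := by
        refine lintegral_congr fun x => ?_
        rw [lintegral_const_mul _ (show Measurable fun x => w x * Q x from hw.mul hQ)]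
    _ ≤ ∫⁻ x, ∫⁻ y, (w x * Q x ^ 2 * w y + w x * (w y * Q y ^ 2)) ∂μ ∂μ := by
        refine lintegral_mono fun x => lintegral_mono fun y => ?_
        calc w x * Q x * (w y * Q y) = w x * w y * (Q x * Q y) := by ring
          _ ≤ w x * w y * (Q x ^ 2 + Q y ^ 2) := by gcongr; exact enn_ab _ _
          _ = _ := by ring
    _ = ∫⁻ x, (w x * Q x ^ 2 * W + w x * S) ∂μ := by
        refine lintegral_congr fun x => ?_
        rw [lintegral_add_left (by fun_prop), lintegral_const_mul _ hw,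
          lintegral_const_mul _ (by fun_prop)]
    _ = S * W + W * S := by
        rw [lintegral_add_left (by fun_prop), lintegral_mul_const _ (by fun_prop),
          lintegral_mul_const _ hw]
    _ = 2 * W * S := by ring

theorem q0_sq : ∫⁻ w, ENNReal.ofReal (q0 w) ^ 2 < ⊤ := by
  have h1 : Integrable (fun w : ℝ × ℝ => 4 * ((1 : ℝ) + ‖w‖ ^ 2) ^ (-(4:ℝ) / 2)) :=
    (integrable_rpow_neg_one_add_norm_sq (by simp; norm_num)).const_mul 4
  have h2 := h1.hasFiniteIntegral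
  refine lt_of_le_of_lt (lintegral_mono fun w => ?_) h2
  rw [← ENNReal.ofReal_pow (q0_nonneg w), Real.enorm_eq_ofReal (by positivity)]
  apply ENNReal.ofReal_le_ofReal
  beta_reduce
  by_cases h : 1 ≤ w.1 ^ 2 + w.2 ^ 2
  · have h3 : q0 w = 1 / (π * (w.1 ^ 2 + w.2 ^ 2)) := indicator_of_mem (show w ∈ {w : ℝ × ℝ | 1 ≤ w.1 ^ 2 + w.2 ^ 2} from h) _
    have h4 : ‖w‖ ^ 2 ≤ w.1 ^ 2 + w.2 ^ 2 := by
      rw [Prod.norm_def]
      rcases le_total ‖w.1‖ ‖w.2‖ with h5 | h5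
      · rw [max_eq_right h5, Real.norm_eq_abs, sq_abs]
        nlinarith [sq_nonneg w.1]
      · rw [max_eq_left h5, Real.norm_eq_abs, sq_abs]
        nlinarith [sq_nonneg w.2]
    have h5 : ((1 : ℝ) + ‖w‖ ^ 2) ^ (-(4:ℝ) / 2) = 1 / (1 + ‖w‖ ^ 2) ^ 2 := by
      rw [show -(4:ℝ) / 2 = -((2:ℕ) : ℝ) by norm_num, Real.rpow_neg (by positivity),
        Real.rpow_natCast, one_div]
    rw [h3, h5]
    set s := w.1 ^ 2 + w.2 ^ 2 with hs
    have h6 : (1 / (π * s)) ^ 2 ≤ 1 / s ^ 2 := by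
      rw [div_pow, one_pow, mul_pow]
      apply one_div_le_one_div_of_le (by positivity)
      have h7 : (1:ℝ) ≤ π ^ 2 := by nlinarith [Real.pi_gt_three]
      nlinarith [mul_le_mul_of_nonneg_right h7 (show 0 ≤ s ^ 2 by positivity)]
    refine h6.trans ?_
    rw [mul_one_div, div_le_div_iff₀ (by positivity) (by positivity)]
    have h8 : 1 + ‖w‖ ^ 2 ≤ 2 * s := by linarith
    have h9 : (1 + ‖w‖ ^ 2) ^ 2 ≤ (2 * s) ^ 2 := pow_le_pow_left₀ (by positivity) h8 2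
    nlinarith
  · have h3 : q0 w = 0 := indicator_of_notMem (show w ∉ {w : ℝ × ℝ | 1 ≤ w.1 ^ 2 + w.2 ^ 2} from h) _
    rw [h3, zero_pow two_ne_zero]
    positivity

theorem q0_sq_tr (x : ℝ × ℝ) : ∫⁻ z, ENNReal.ofReal (q0 (x - z)) ^ 2 =
    ∫⁻ w, ENNReal.ofReal (q0 w) ^ 2 :=
  lintegral_sub_left_eq_self (fun w => ENNReal.ofReal (q0 w) ^ 2) x

theorem g1_comm (z x : ℝ × ℝ) : T01.g1 z 1 x = T01.g1 x 1 z := by
  unfold T01.g1
  by_cases h : dsq z x < 1 ^ 2
  · rw [indicator_of_mem (show x ∈ {y | dsq z y < 1 ^ 2} from h),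
      indicator_of_mem (show z ∈ {y | dsq x y < 1 ^ 2} from by
        show dsq x z < 1 ^ 2
        rw [T02.dsq_comm]
        exact h), T02.dsq_comm]
  · rw [indicator_of_notMem (show x ∉ {y | dsq z y < 1 ^ 2} from h),
      indicator_of_notMem (show z ∉ {y | dsq x y < 1 ^ 2} from by
        show ¬ dsq x z < 1 ^ 2
        rw [T02.dsq_comm]
        exact h)]

theorem g1_meas2 : Measurable (fun p : (ℝ × ℝ) × (ℝ × ℝ) => T01.g1 p.1 1 p.2) := by
  unfold T01.g1 dsq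
  have : (fun p : (ℝ × ℝ) × (ℝ × ℝ) => {y : ℝ × ℝ | (p.1.1 - y.1) ^ 2 + (p.1.2 - y.2) ^ 2 <
      (1:ℝ) ^ 2}.indicator (fun y => 1 / (π * √((p.1.1 - y.1) ^ 2 + (p.1.2 - y.2) ^ 2))) p.2) =
      {p : (ℝ × ℝ) × (ℝ × ℝ) | (p.1.1 - p.2.1) ^ 2 + (p.1.2 - p.2.2) ^ 2 < (1:ℝ) ^ 2}.indicator
        (fun p => 1 / (π * √((p.1.1 - p.2.1) ^ 2 + (p.1.2 - p.2.2) ^ 2))) := by
    funext p
    simp only [indicator, mem_ofPred_eq]
  rw [this]
  exact Measurable.indicator (by fun_prop) (measurableSet_lt (by fun_prop) (by fun_prop))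

/-- the integral of the norm of the kernel -/
noncomputable def FF (A : Set (ℝ × ℝ)) (z : ℝ × ℝ) : ℝ≥0∞ := ∫⁻ x in A, ‖KK z x‖ₑ

noncomputable def G1 (A : Set (ℝ × ℝ)) (z : ℝ × ℝ) : ℝ≥0∞ :=
  ∫⁻ x in A, ENNReal.ofReal (T01.g1 z 1 x)

noncomputable def G2 (A : Set (ℝ × ℝ)) (z : ℝ × ℝ) : ℝ≥0∞ :=
  ∫⁻ x in A, ENNReal.ofReal x.2 * ENNReal.ofReal (q0 (x - z))

theorem FF_le {A : Set (ℝ × ℝ)} (hA : Fi A) {z : ℝ × ℝ} (hz : 0 ≤ z.2) :
    FF A z ≤ G1 A z + G2 A z := by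
  unfold FF G1 G2
  rw [← lintegral_add_left]
  · apply setLIntegral_mono_ae'
    · exact hA.meas
    · refine Eventually.of_forall fun x hx => ?_
      have hx2 : 0 < x.2 := hA.sub hx
      rw [← ENNReal.ofReal_mul hx2.le, ← ENNReal.ofReal_add (T01.g1_nonneg _ _ _)
        (mul_nonneg hx2.le (q0_nonneg _)), ← ofReal_norm]
      exact ENNReal.ofReal_le_ofReal (KK_bound hz hx2)
  · exact (T01.g1_meas z 1).ennreal_ofReal

theorem FF_refl (A : Set (ℝ × ℝ)) (z : ℝ × ℝ) : FF A (z.1, -z.2) = FF A z := by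
  unfold FF
  refine lintegral_congr fun x => ?_
  rw [← ofReal_norm, ← ofReal_norm, norm_KK_refl]

theorem FF_le' {A : Set (ℝ × ℝ)} (hA : Fi A) (z : ℝ × ℝ) :
    FF A z ≤ (G1 A z + G2 A z) + (G1 A (z.1, -z.2) + G2 A (z.1, -z.2)) := by
  rcases le_total 0 z.2 with h | h
  · exact (FF_le hA h).trans le_self_add
  · rw [← FF_refl]
    exact (FF_le hA (z := (z.1, -z.2)) (by simpa using h)).trans le_add_self

theorem G1_meas (A : Set (ℝ × ℝ)) : Measurable (G1 A) := by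
  unfold G1
  exact Measurable.lintegral_prod_right' (f := fun p : (ℝ × ℝ) × (ℝ × ℝ) =>
    ENNReal.ofReal (T01.g1 p.1 1 p.2)) g1_meas2.ennreal_ofReal

theorem G2_meas (A : Set (ℝ × ℝ)) : Measurable (G2 A) := by
  unfold G2
  have h := q0_meas
  exact Measurable.lintegral_prod_right' (f := fun p : (ℝ × ℝ) × (ℝ × ℝ) =>
    ENNReal.ofReal p.2.2 * ENNReal.ofReal (q0 (p.2 - p.1))) (by fun_prop)

theorem FF_meas (A : Set (ℝ × ℝ)) : Measurable (FF A) := by
  unfold FF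
  exact Measurable.lintegral_prod_right' (f := fun p : (ℝ × ℝ) × (ℝ × ℝ) =>
    ‖KK p.1 p.2‖ₑ) KK_meas.enorm

theorem G1_sq {A : Set (ℝ × ℝ)} (hV : volume A ≠ ⊤) : ∫⁻ z, G1 A z ^ 2 < ⊤ := by
  have h1 : ∀ z, G1 A z ≤ ENNReal.ofReal (2 * 1) := fun z => by
    rw [← T01.g1_lint z one_pos]
    exact lintegral_mono' Measure.restrict_le_self le_rfl
  have h2 : ∫⁻ z, G1 A z = ENNReal.ofReal (2 * 1) * volume A := by
    unfold G1
    rw [lintegral_lintegral_swap (f := fun z x => ENNReal.ofReal (T01.g1 z 1 x))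
      g1_meas2.ennreal_ofReal.aemeasurable]
    have : ∀ x : ℝ × ℝ, ∫⁻ z, ENNReal.ofReal (T01.g1 z 1 x) = ENNReal.ofReal (2 * 1) := by
      intro x
      rw [← T01.g1_lint x one_pos]
      refine lintegral_congr fun z => ?_
      rw [g1_comm]
    simp only [this]
    rw [setLIntegral_const]
  calc ∫⁻ z, G1 A z ^ 2 ≤ ∫⁻ z, ENNReal.ofReal (2 * 1) * G1 A z := by
        refine lintegral_mono fun z => ?_
        rw [sq]
        gcongr
        exact h1 z
    _ = ENNReal.ofReal (2 * 1) * (ENNReal.ofReal (2 * 1) * volume A) := by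
        rw [lintegral_const_mul _ (G1_meas A), h2]
    _ < ⊤ := ENNReal.mul_lt_top ENNReal.ofReal_lt_top
        (ENNReal.mul_lt_top ENNReal.ofReal_lt_top (lt_top_iff_ne_top.2 hV))

theorem G2_sq {A : Set (ℝ × ℝ)} (hA : Fi A) : ∫⁻ z, G2 A z ^ 2 < ⊤ := by
  have hq := q0_meas
  have hP : ∫⁻ x in A, ENNReal.ofReal x.2 < ⊤ := by
    have h := hA.int.hasFiniteIntegral
    refine lt_of_le_of_lt ?_ h
    refine lintegral_mono fun x => ?_
    rw [← ofReal_norm]
    exact ENNReal.ofReal_le_ofReal (le_abs_self _)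
  calc ∫⁻ z, G2 A z ^ 2 ≤ ∫⁻ z, 2 * (∫⁻ x in A, ENNReal.ofReal x.2) *
        ∫⁻ x in A, ENNReal.ofReal x.2 * ENNReal.ofReal (q0 (x - z)) ^ 2 := by
        refine lintegral_mono fun z => ?_
        exact sq_lint_le _ (by fun_prop) (by fun_prop)
    _ = 2 * (∫⁻ x in A, ENNReal.ofReal x.2) *
        ∫⁻ z, ∫⁻ x in A, ENNReal.ofReal x.2 * ENNReal.ofReal (q0 (x - z)) ^ 2 := by
        rw [lintegral_const_mul]
        exact Measurable.lintegral_prod_right' (f := fun p : (ℝ × ℝ) × (ℝ × ℝ) =>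
          ENNReal.ofReal p.2.2 * ENNReal.ofReal (q0 (p.2 - p.1)) ^ 2) (by fun_prop)
    _ = 2 * (∫⁻ x in A, ENNReal.ofReal x.2) *
        ((∫⁻ x in A, ENNReal.ofReal x.2) * ∫⁻ w, ENNReal.ofReal (q0 w) ^ 2) := by
        congr 1
        rw [lintegral_lintegral_swap (f := fun z x => ENNReal.ofReal (x : ℝ × ℝ).2 *
          ENNReal.ofReal (q0 (x - z)) ^ 2) (Measurable.aemeasurable (by fun_prop))]
        rw [← lintegral_mul_const _ (by fun_prop)]
        refine lintegral_congr fun x => ?_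
        rw [lintegral_const_mul _ (by fun_prop), q0_sq_tr]
    _ < ⊤ := ENNReal.mul_lt_top (ENNReal.mul_lt_top (by norm_num) hP)
        (ENNReal.mul_lt_top hP q0_sq)

theorem mp_refl : MeasurePreserving (fun z : ℝ × ℝ => (z.1, -z.2)) volume volume :=
  (MeasurePreserving.id volume).prod (Measure.measurePreserving_neg volume)

theorem FF_sq {A : Set (ℝ × ℝ)} (hA : Fi A) (hV : volume A ≠ ⊤) : ∫⁻ z, FF A z ^ 2 < ⊤ := by
  have h1 := G1_sq hV
  have h2 := G2_sq hA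
  have hG1 := G1_meas A
  have hG2 := G2_meas A
  have h3 : ∫⁻ z, (G1 A z + G2 A z) ^ 2 < ⊤ := by
    calc ∫⁻ z, (G1 A z + G2 A z) ^ 2 ≤ ∫⁻ z, 4 * (G1 A z ^ 2 + G2 A z ^ 2) :=
          lintegral_mono fun z => enn_add_sq _ _
      _ = 4 * ((∫⁻ z, G1 A z ^ 2) + ∫⁻ z, G2 A z ^ 2) := by
          rw [lintegral_const_mul _ (by fun_prop), lintegral_add_left (by fun_prop)]
      _ < ⊤ := ENNReal.mul_lt_top (by norm_num) (ENNReal.add_lt_top.2 ⟨h1, h2⟩)
  have h4 : ∫⁻ z : ℝ × ℝ, (G1 A (z.1, -z.2) + G2 A (z.1, -z.2)) ^ 2 =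
      ∫⁻ z, (G1 A z + G2 A z) ^ 2 :=
    mp_refl.lintegral_comp (f := fun z => (G1 A z + G2 A z) ^ 2) (by fun_prop)
  calc ∫⁻ z, FF A z ^ 2 ≤ ∫⁻ z : ℝ × ℝ, 4 * ((G1 A z + G2 A z) ^ 2 +
        (G1 A (z.1, -z.2) + G2 A (z.1, -z.2)) ^ 2) := by
        refine lintegral_mono fun z => ?_
        exact (pow_le_pow_left' (FF_le' hA z) 2).trans (enn_add_sq _ _)
    _ = 4 * ((∫⁻ z, (G1 A z + G2 A z) ^ 2) + ∫⁻ z, (G1 A z + G2 A z) ^ 2) := by
        rw [lintegral_const_mul _ (by fun_prop), lintegral_add_left (by fun_prop), h4]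
    _ < ⊤ := ENNReal.mul_lt_top (by norm_num) (ENNReal.add_lt_top.2 ⟨h3, h3⟩)

theorem FF_fin {A : Set (ℝ × ℝ)} (hA : Fi A) (hV : volume A ≠ ⊤) : ∀ᵐ z : ℝ × ℝ, FF A z < ⊤ := by
  have h := ae_lt_top' ((FF_meas A).pow_const 2).aemeasurable (FF_sq hA hV).ne
  filter_upwards [h] with z hz
  by_contra hc
  rw [not_lt, top_le_iff] at hc
  rw [hc] at hz
  simp at hz

theorem KK_intOn {A : Set (ℝ × ℝ)} (hA : Fi A) (hV : volume A ≠ ⊤) :
    ∀ᵐ z : ℝ × ℝ, IntegrableOn (fun x => KK z x) A := by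
  filter_upwards [FF_fin hA hV] with z hz
  exact ⟨(KK_meas_right z).aestronglyMeasurable, hz⟩

theorem int_norm (A : Set (ℝ × ℝ)) (z : ℝ × ℝ) : ∫ x in A, ‖KK z x‖ = (FF A z).toReal :=
  integral_norm_eq_lintegral_enorm (KK_meas_right z).aestronglyMeasurable

theorem FF_intSq {A : Set (ℝ × ℝ)} (hA : Fi A) (hV : volume A ≠ ⊤) :
    Integrable (fun z => (FF A z).toReal ^ 2) := by
  refine ⟨((FF_meas A).ennreal_toReal.pow_const 2).aestronglyMeasurable, ?_⟩
  refine lt_of_le_of_lt (lintegral_mono fun z => ?_) (FF_sq hA hV)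
  rw [Real.enorm_eq_ofReal (by positivity), ENNReal.ofReal_pow ENNReal.toReal_nonneg]
  exact pow_le_pow_left' ENNReal.ofReal_toReal_le 2

end T05

theorem t_L2 : S_L2 := by
  intro A hA hV
  refine ⟨T05.KK_intOn hA hV, ?_⟩
  simp only [T05.int_norm]
  exact T05.FF_intSq hA hV

namespace T05

/-! ### The energy identity for densities -/

/-- the velocity of the density `f` on `A` -/
noncomputable def VV (f : ℝ × ℝ → ℝ) (A : Set (ℝ × ℝ)) (z : ℝ × ℝ) : ℂ :=
  ∫ x in A, (f x : ℂ) * KK z x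

/-- the integrand -/
noncomputable def HH (f g : ℝ × ℝ → ℝ) (q : (ℝ × ℝ) × ((ℝ × ℝ) × (ℝ × ℝ))) : ℝ :=
  f q.2.1 * g q.2.2 * (KK q.1 q.2.1 * (starRingEnd ℂ) (KK q.1 q.2.2)).re

theorem HH_meas {f g : ℝ × ℝ → ℝ} (hf : Measurable f) (hg : Measurable g) :
    Measurable (HH f g) := by
  unfold HH
  have h1 : Measurable (fun q : (ℝ × ℝ) × ((ℝ × ℝ) × (ℝ × ℝ)) => KK q.1 q.2.1) :=
    KK_meas.comp (measurable_fst.prodMk (measurable_fst.comp measurable_snd))
  have h2 : Measurable (fun q : (ℝ × ℝ) × ((ℝ × ℝ) × (ℝ × ℝ)) => KK q.1 q.2.2) :=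
    KK_meas.comp (measurable_fst.prodMk (measurable_snd.comp measurable_snd))
  have h3 : Measurable (fun q : (ℝ × ℝ) × ((ℝ × ℝ) × (ℝ × ℝ)) =>
      (KK q.1 q.2.1 * (starRingEnd ℂ) (KK q.1 q.2.2)).re) :=
    Complex.measurable_re.comp (h1.mul (Complex.continuous_conj.measurable.comp h2))
  exact (by fun_prop : Measurable (fun q : (ℝ × ℝ) × ((ℝ × ℝ) × (ℝ × ℝ)) =>
    f q.2.1 * g q.2.2)).mul h3

theorem HH_le {f g : ℝ × ℝ → ℝ} {M : ℝ} (hf : ∀ x, |f x| ≤ M) (hg : ∀ x, |g x| ≤ M)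
    (z : ℝ × ℝ) (p : (ℝ × ℝ) × (ℝ × ℝ)) :
    ‖HH f g (z, p)‖ₑ ≤ ENNReal.ofReal (M * M) * (‖KK z p.1‖ₑ * ‖KK z p.2‖ₑ) := by
  have hM : 0 ≤ M := (abs_nonneg _).trans (hf 0)
  rw [← ofReal_norm, ← ofReal_norm, ← ofReal_norm, ← ENNReal.ofReal_mul (norm_nonneg _),
    ← ENNReal.ofReal_mul (by positivity)]
  apply ENNReal.ofReal_le_ofReal
  unfold HH
  rw [norm_mul, norm_mul]
  apply mul_le_mul
  · exact mul_le_mul (hf _) (hg _) (norm_nonneg _) hM
  · refine (Complex.abs_re_le_norm _).trans ?_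
    rw [norm_mul, RCLike.norm_conj]
  · exact norm_nonneg _
  · positivity

theorem HH_int {A B : Set (ℝ × ℝ)} (hA : Fi A) (hB : Fi B) (hVA : volume A ≠ ⊤)
    (hVB : volume B ≠ ⊤) {f g : ℝ × ℝ → ℝ} {M : ℝ} (hfm : Measurable f) (hgm : Measurable g)
    (hf : ∀ x, |f x| ≤ M) (hg : ∀ x, |g x| ≤ M) :
    Integrable (HH f g) (volume.prod ((volume.restrict A).prod (volume.restrict B))) := by
  refine ⟨(HH_meas hfm hgm).aestronglyMeasurable, ?_⟩
  have hFA := FF_meas A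
  have hFB := FF_meas B
  calc ∫⁻ q, ‖HH f g q‖ₑ ∂(volume.prod ((volume.restrict A).prod (volume.restrict B)))
      = ∫⁻ z, ∫⁻ p, ‖HH f g (z, p)‖ₑ ∂((volume.restrict A).prod (volume.restrict B)) :=
        lintegral_prod _ (HH_meas hfm hgm).enorm.aemeasurable
    _ ≤ ∫⁻ z, ∫⁻ p : (ℝ × ℝ) × (ℝ × ℝ), ENNReal.ofReal (M * M) * (‖KK z p.1‖ₑ * ‖KK z p.2‖ₑ)
          ∂((volume.restrict A).prod (volume.restrict B)) :=
        lintegral_mono fun z => lintegral_mono fun p => HH_le hf hg z p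
    _ = ∫⁻ z, ENNReal.ofReal (M * M) * (FF A z * FF B z) := by
        refine lintegral_congr fun z => ?_
        rw [lintegral_const_mul, lintegral_prod_mul (KK_meas_right z).enorm.aemeasurable
          (KK_meas_right z).enorm.aemeasurable]
        · rfl
        · exact ((KK_meas_right z).comp measurable_fst).enorm.mul
            ((KK_meas_right z).comp measurable_snd).enorm
    _ ≤ ∫⁻ z, ENNReal.ofReal (M * M) * (FF A z ^ 2 + FF B z ^ 2) := by
        refine lintegral_mono fun z => ?_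
        gcongr
        exact enn_ab _ _
    _ = ENNReal.ofReal (M * M) * ((∫⁻ z, FF A z ^ 2) + ∫⁻ z, FF B z ^ 2) := by
        rw [lintegral_const_mul _ (by fun_prop), lintegral_add_left (by fun_prop)]
    _ < ⊤ := ENNReal.mul_lt_top ENNReal.ofReal_lt_top
        (ENNReal.add_lt_top.2 ⟨FF_sq hA hVA, FF_sq hB hVB⟩)

theorem bdd_int {A : Set (ℝ × ℝ)} {f : ℝ × ℝ → ℝ} {M : ℝ} (hfm : Measurable f)
    (hf : ∀ x, |f x| ≤ M) {z : ℝ × ℝ} (hz : IntegrableOn (fun x => KK z x) A) :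
    IntegrableOn (fun x => (f x : ℂ) * KK z x) A := by
  refine Integrable.bdd_mul (c := M) hz (by fun_prop) (Eventually.of_forall fun x => ?_)
  rw [Complex.norm_real]
  exact hf x

theorem HH_inner {A B : Set (ℝ × ℝ)} {f g : ℝ × ℝ → ℝ} {M : ℝ} (hfm : Measurable f)
    (hgm : Measurable g) (hf : ∀ x, |f x| ≤ M) (hg : ∀ x, |g x| ≤ M) {z : ℝ × ℝ}
    (hzA : IntegrableOn (fun x => KK z x) A) (hzB : IntegrableOn (fun x => KK z x) B) :
    ∫ p, HH f g (z, p) ∂((volume.restrict A).prod (volume.restrict B)) =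
      (VV f A z * (starRingEnd ℂ) (VV g B z)).re := by
  have hF := bdd_int hfm hf hzA
  have hG := bdd_int hgm hg hzB
  have hG' : IntegrableOn (fun y => (starRingEnd ℂ) ((g y : ℂ) * KK z y)) B :=
    (RCLike.conjLIE (K := ℂ)).toContinuousLinearEquiv.toContinuousLinearMap.integrable_comp hG
  have h1 : VV f A z * (starRingEnd ℂ) (VV g B z) =
      ∫ p : (ℝ × ℝ) × (ℝ × ℝ), ((f p.1 : ℂ) * KK z p.1) * (starRingEnd ℂ) ((g p.2 : ℂ) * KK z p.2)
        ∂((volume.restrict A).prod (volume.restrict B)) := by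
    unfold VV
    rw [← integral_conj]
    exact (integral_prod_mul (fun x => (f x : ℂ) * KK z x)
      (fun y => (starRingEnd ℂ) ((g y : ℂ) * KK z y))).symm
  rw [h1]
  have h2 : Integrable (fun p : (ℝ × ℝ) × (ℝ × ℝ) =>
      ((f p.1 : ℂ) * KK z p.1) * (starRingEnd ℂ) ((g p.2 : ℂ) * KK z p.2))
      ((volume.restrict A).prod (volume.restrict B)) := hF.mul_prod hG'
  rw [← Complex.reCLM_apply, ← ContinuousLinearMap.integral_comp_comm _ h2]
  refine integral_congr_ae (Eventually.of_forall fun p => ?_)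
  simp only [HH, Complex.reCLM_apply, map_mul, Complex.conj_ofReal]
  have h3 : (f p.1 : ℂ) * KK z p.1 * ((g p.2 : ℂ) * (starRingEnd ℂ) (KK z p.2)) =
      ((f p.1 * g p.2 : ℝ) : ℂ) * (KK z p.1 * (starRingEnd ℂ) (KK z p.2)) := by
    push_cast
    ring
  rw [h3, Complex.re_ofReal_mul]

theorem ae_ne2 : ∀ᵐ p : (ℝ × ℝ) × (ℝ × ℝ) ∂(volume.prod volume), p.1 ≠ p.2 := by
  have hm : MeasurableSet {p : (ℝ × ℝ) × (ℝ × ℝ) | p.1 = p.2} :=
    measurableSet_eq_fun measurable_fst measurable_snd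
  have h := (Measure.measure_prod_null (μ := (volume : Measure (ℝ × ℝ)))
    (ν := (volume : Measure (ℝ × ℝ))) hm).2 (Eventually.of_forall fun x => by
      have : Prod.mk x ⁻¹' {p : (ℝ × ℝ) × (ℝ × ℝ) | p.1 = p.2} = {x} := by
        ext y
        simp only [mem_preimage, mem_ofPred_eq, mem_singleton_iff]
        exact eq_comm
      beta_reduce
      rw [this]
      exact measure_singleton x)
  rw [ae_iff]
  simpa using h

theorem dens (hp : S_pair) {A B : Set (ℝ × ℝ)} (hA : Fi A) (hB : Fi B) (hVA : volume A ≠ ⊤)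
    (hVB : volume B ≠ ⊤) {f g : ℝ × ℝ → ℝ} {M : ℝ} (hfm : Measurable f) (hgm : Measurable g)
    (hf : ∀ x, |f x| ≤ M) (hg : ∀ x, |g x| ≤ M) :
    Integrable (fun z => (VV f A z * (starRingEnd ℂ) (VV g B z)).re) ∧
    ∫ z, (VV f A z * (starRingEnd ℂ) (VV g B z)).re =
      2 * ∫ p, f p.1 * g p.2 * (kap p.1 p.2 * p.1.2 * p.2.2)
        ∂((volume.restrict A).prod (volume.restrict B)) := by
  have hI := HH_int hA hB hVA hVB hfm hgm hf hg
  have hae : (fun z => ∫ p, HH f g (z, p) ∂((volume.restrict A).prod (volume.restrict B)))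
      =ᵐ[volume] fun z => (VV f A z * (starRingEnd ℂ) (VV g B z)).re := by
    filter_upwards [KK_intOn hA hVA, KK_intOn hB hVB] with z hzA hzB
    exact HH_inner hfm hgm hf hg hzA hzB
  refine ⟨hI.integral_prod_left.congr hae, ?_⟩
  rw [← integral_congr_ae hae, integral_integral_swap (f := fun z p => HH f g (z, p)) hI,
    ← integral_const_mul]
  apply integral_congr_ae
  have h1 : ∀ᵐ p ∂((volume.restrict A).prod (volume.restrict B)), p.1 ≠ p.2 := by
    rw [Measure.prod_restrict]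
    exact ae_restrict_of_ae ae_ne2
  have h2 : ∀ᵐ p ∂((volume.restrict A).prod (volume.restrict B)), p ∈ A ×ˢ B := by
    rw [Measure.prod_restrict]
    exact ae_restrict_mem (hA.meas.prod hB.meas)
  filter_upwards [h1, h2] with p hne hmem
  have hx := hA.sub hmem.1
  have hy := hB.sub hmem.2
  unfold HH
  simp only
  rw [integral_const_mul, (hp p.1 p.2 hx hy hne).2]
  ring

end T05

theorem t_cross (hp : S_pair) : S_cross := by
  intro A B hA hB hVA hVB
  have h := T05.dens hp hA hB hVA hVB (f := fun _ => 1) (g := fun _ => 1) (M := 1)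
    measurable_const measurable_const (by simp) (by simp)
  have h1 : ∀ (A : Set (ℝ × ℝ)) z, T05.VV (fun _ => 1) A z = ∫ x in A, KK z x := by
    intro A z
    unfold T05.VV
    simp
  simp only [h1] at h
  refine ⟨h.1, h.2.trans ?_⟩
  congr 1
  rw [T02.cross_comm hA hB, T02.cross_eq]
  have h2 := integral_prod _ (T02.KK2_int hB hA)
  rw [← h2]
  congr 1
  funext p
  simp only [T02.KK2, one_mul]
  ring

theorem t_PD (hp : S_pair) : S_PD := by
  intro A B hA hB hVA hVB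
  obtain ⟨i1, e1⟩ := t_cross hp A A hA hA hVA hVA
  obtain ⟨i2, e2⟩ := t_cross hp B B hB hB hVB hVB
  obtain ⟨i3, e3⟩ := t_cross hp A B hA hB hVA hVB
  have h1 : ∀ u v : ℂ, 0 ≤ (u * (starRingEnd ℂ) u).re + (v * (starRingEnd ℂ) v).re -
      2 * (u * (starRingEnd ℂ) v).re := by
    intro u v
    have h2 : (u * (starRingEnd ℂ) u).re + (v * (starRingEnd ℂ) v).re -
      2 * (u * (starRingEnd ℂ) v).re = (u.re - v.re) ^ 2 + (u.im - v.im) ^ 2 := by
      simp only [Complex.mul_re, Complex.conj_re, Complex.conj_im]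
      ring
    rw [h2]
    positivity
  have h2 : 0 ≤ ∫ z : ℝ × ℝ, (((∫ x in A, KK z x) * (starRingEnd ℂ) (∫ x in A, KK z x)).re +
      ((∫ x in B, KK z x) * (starRingEnd ℂ) (∫ x in B, KK z x)).re -
      2 * ((∫ x in A, KK z x) * (starRingEnd ℂ) (∫ x in B, KK z x)).re) :=
    integral_nonneg fun z => h1 _ _
  have h3 : ∫ z : ℝ × ℝ, (((∫ x in A, KK z x) * (starRingEnd ℂ) (∫ x in A, KK z x)).re +
      ((∫ x in B, KK z x) * (starRingEnd ℂ) (∫ x in B, KK z x)).re -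
      2 * ((∫ x in A, KK z x) * (starRingEnd ℂ) (∫ x in B, KK z x)).re) =
      2 * cross A A + 2 * cross B B - 2 * (2 * cross A B) := by
    have e4 := integral_sub (i1.add i2) (i3.const_mul 2)
    simp only [Pi.add_apply] at e4
    rw [e4, integral_add i1 i2, integral_const_mul, e1, e2, e3]
  have h4 : (0:ℝ) ≤ 2 * cross A A + 2 * cross B B - 2 * (2 * cross A B) := by
    rw [← h3]
    exact h2
  unfold EE
  linarith

theorem t_PDf (hp : S_pair) : S_PDf := by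
  rintro f hf ⟨M, hM⟩ ⟨ρ, hρ⟩
  set A : Set (ℝ × ℝ) := {x | 0 < x.2 ∧ |x.1| ≤ ρ ∧ x.2 ≤ ρ} with hAdef
  have hAm : MeasurableSet A := by
    have h : A = {x : ℝ × ℝ | 0 < x.2} ∩ ({x : ℝ × ℝ | |x.1| ≤ ρ} ∩ {x : ℝ × ℝ | x.2 ≤ ρ}) := rfl
    rw [h]
    exact (measurableSet_lt (by fun_prop) (by fun_prop)).inter
      ((measurableSet_le (by fun_prop) (by fun_prop)).inter
        (measurableSet_le (by fun_prop) (by fun_prop)))
  have hsub : A ⊆ Icc ((-ρ, 0) : ℝ × ℝ) (ρ, ρ) := by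
    rintro x ⟨h1, h2, h3⟩
    rw [abs_le] at h2
    exact ⟨⟨h2.1, h1.le⟩, ⟨h2.2, h3⟩⟩
  have hA : Fi A := ⟨hAm, fun x hx => hx.1,
    (continuous_snd.continuousOn.integrableOn_compact isCompact_Icc).mono_set hsub⟩
  have hV : volume A ≠ ⊤ := ((measure_mono hsub).trans_lt isCompact_Icc.measure_lt_top).ne
  obtain ⟨h1, h2⟩ := T05.dens hp hA hA hV hV hf hf hM hM
  have h3 : 0 ≤ ∫ z, (T05.VV f A z * (starRingEnd ℂ) (T05.VV f A z)).re := by
    apply integral_nonneg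
    intro z
    simp only [Pi.zero_apply, Complex.mul_re, Complex.conj_re, Complex.conj_im]
    nlinarith [sq_nonneg (T05.VV f A z).re, sq_nonneg (T05.VV f A z).im]
  have h4 : ∫ x : ℝ × ℝ, ∫ y : ℝ × ℝ, f x * f y * (kap x y * x.2 * y.2) =
      ∫ p, f p.1 * f p.2 * (kap p.1 p.2 * p.1.2 * p.2.2)
        ∂((volume.restrict A).prod (volume.restrict A)) := by
    have hz : ∀ x, x ∉ A → f x = 0 := fun x hx => by
      by_contra hc
      exact hx (hρ x hc)
    have h5 : Integrable (fun p : (ℝ × ℝ) × (ℝ × ℝ) => f p.1 * f p.2 * (kap p.1 p.2 * p.1.2 * p.2.2))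
        ((volume.restrict A).prod (volume.restrict A)) := by
      have h6 := T02.KK2_int hA hA
      have h7 : Integrable (fun p : (ℝ × ℝ) × (ℝ × ℝ) => f p.1 * f p.2 * T02.KK2 p)
          ((volume.restrict A).prod (volume.restrict A)) := by
        refine Integrable.bdd_mul (c := M * M) h6 (by fun_prop) (Eventually.of_forall fun p => ?_)
        rw [norm_mul]
        exact mul_le_mul (hM _) (hM _) (norm_nonneg _) ((abs_nonneg _).trans (hM 0))
      refine h7.congr (Eventually.of_forall fun p => ?_)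
      simp only [T02.KK2]
      ring
    rw [integral_prod _ h5]
    rw [← setIntegral_eq_integral_of_forall_compl_eq_zero (s := A) (μ := volume)]
    · refine integral_congr_ae (Eventually.of_forall fun x => ?_)
      simp only
      rw [← setIntegral_eq_integral_of_forall_compl_eq_zero (s := A) (μ := volume)]
      intro y hy
      rw [hz y hy]
      ring
    · intro x hx
      simp only [hz x hx, zero_mul, integral_zero]
  rw [h4]
  linarith


namespace T05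

theorem me_refl : MeasurableEmbedding (fun z : ℝ × ℝ => (z.1, -z.2)) :=
  (MeasurableEquiv.prodCongr (MeasurableEquiv.refl ℝ) (MeasurableEquiv.neg ℝ)).measurableEmbedding

theorem mirror_meas {A : Set (ℝ × ℝ)} (hA : MeasurableSet A) : MeasurableSet (mirror A) :=
  mp_refl.measurable hA

theorem mirror_vol {A : Set (ℝ × ℝ)} (hA : MeasurableSet A) : volume (mirror A) = volume A :=
  mp_refl.measure_preimage hA.nullMeasurableSet

theorem bs_int (z : ℝ × ℝ) {A : Set (ℝ × ℝ)} (hV : volume A ≠ ⊤)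
    {p : ℝ × ℝ → ℝ} (hp : Measurable p) (hb : ∀ y, |p y| ≤ 1 / (2 * π) * (1 / √(dsq z y))) :
    IntegrableOn p A := by
  have h1 : IntegrableOn (fun y => T01.g1 z 1 y + 1) A :=
    (T01.g1_int z one_pos).integrableOn.add (integrableOn_const hV)
  refine Integrable.mono' h1 hp.aestronglyMeasurable (Eventually.of_forall fun y => ?_)
  rw [Real.norm_eq_abs]
  refine (hb y).trans ?_
  have h0 := T01.g1_nonneg z 1 y
  by_cases h : dsq z y < 1 ^ 2
  · have h2 : T01.g1 z 1 y = 1 / (π * √(dsq z y)) :=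
      indicator_of_mem (show y ∈ {y | dsq z y < 1 ^ 2} from h) _
    rw [h2]
    have h3 : 1 / (2 * π) * (1 / √(dsq z y)) = 1 / 2 * (1 / (π * √(dsq z y))) := by
      ring
    have h4 : 0 ≤ 1 / (π * √(dsq z y)) := by positivity
    rw [h3]
    linarith
  · have h2 : 1 ≤ √(dsq z y) := by
      apply Real.le_sqrt_of_sq_le
      linarith
    have h3 : 1 / √(dsq z y) ≤ 1 := by
      rw [div_le_one (by linarith)]
      exact h2
    have h4 : 1 / (2 * π) ≤ 1 := by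
      rw [div_le_one (by positivity)]
      linarith [Real.pi_gt_three]
    have h5 : 1 / (2 * π) * (1 / √(dsq z y)) ≤ 1 * 1 :=
      mul_le_mul h4 h3 (by positivity) (by norm_num)
    linarith

theorem refl_int {A : Set (ℝ × ℝ)} {p : ℝ × ℝ → ℝ} (h2 : IntegrableOn p (mirror A)) :
    IntegrableOn (fun y : ℝ × ℝ => p (y.1, -y.2)) A := by
  have h5 := (mp_refl.integrableOn_comp_preimage me_refl (f := p) (s := mirror A)).2 h2
  have h6 : (fun z : ℝ × ℝ => (z.1, -z.2)) ⁻¹' mirror A = A := by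
    ext y
    simp [mirror]
  rw [h6] at h5
  exact h5

theorem int_patch {A : Set (ℝ × ℝ)} (hA : MeasurableSet A) {p : ℝ × ℝ → ℝ}
    (h1 : IntegrableOn p A) (h2 : IntegrableOn p (mirror A)) :
    ∫ y, p y * patch A y = ∫ y in A, (p y - p (y.1, -y.2)) := by
  have h3 : ∀ y, p y * patch A y = A.indicator p y - (mirror A).indicator p y := by
    intro y
    unfold patch
    by_cases hy : y ∈ A
    · by_cases hy' : y ∈ mirror A
      · simp [hy, hy']
      · simp [hy, hy']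
    · by_cases hy' : y ∈ mirror A
      · simp [hy, hy']
      · simp [hy, hy']
  simp only [h3]
  have h4 := refl_int h2
  rw [integral_sub ((integrable_indicator_iff hA).2 h1)
    ((integrable_indicator_iff (mirror_meas hA)).2 h2), integral_indicator hA,
    integral_indicator (mirror_meas hA), integral_sub h1 h4]
  congr 1
  have h7 := mp_refl.setIntegral_preimage_emb me_refl (fun y : ℝ × ℝ => p (y.1, -y.2)) A
  simp only [neg_neg] at h7
  exact h7

/-- the two components of the kernel -/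
noncomputable def bs1 (x y : ℝ × ℝ) : ℝ :=
  1 / (2 * π) * (-(x.2 - y.2) / ((x.1 - y.1) ^ 2 + (x.2 - y.2) ^ 2))

noncomputable def bs2 (x y : ℝ × ℝ) : ℝ :=
  1 / (2 * π) * ((x.1 - y.1) / ((x.1 - y.1) ^ 2 + (x.2 - y.2) ^ 2))

theorem frac_le {a b : ℝ} : |a / (a ^ 2 + b ^ 2)| ≤ 1 / √(a ^ 2 + b ^ 2) := by
  rcases (show 0 ≤ a ^ 2 + b ^ 2 by positivity).eq_or_lt with h | h
  · rw [← h]
    simp
  · rw [abs_div, abs_of_pos h]
    have h1 : √(a ^ 2 + b ^ 2) * √(a ^ 2 + b ^ 2) = a ^ 2 + b ^ 2 := Real.mul_self_sqrt h.le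
    have h2 : |a| ≤ √(a ^ 2 + b ^ 2) := Real.abs_le_sqrt (by nlinarith [sq_nonneg b])
    have h3 := Real.sqrt_pos.2 h
    rw [div_le_div_iff₀ h h3]
    nlinarith

theorem bs1_le (x y : ℝ × ℝ) : |bs1 x y| ≤ 1 / (2 * π) * (1 / √(dsq x y)) := by
  unfold bs1 dsq
  rw [abs_mul, abs_of_nonneg (show 0 ≤ 1 / (2 * π) by positivity), neg_div, abs_neg]
  have h := frac_le (a := x.2 - y.2) (b := x.1 - y.1)
  rw [add_comm ((x.2 - y.2) ^ 2)] at h
  gcongr

theorem bs2_le (x y : ℝ × ℝ) : |bs2 x y| ≤ 1 / (2 * π) * (1 / √(dsq x y)) := by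
  unfold bs2 dsq
  rw [abs_mul, abs_of_nonneg (show 0 ≤ 1 / (2 * π) by positivity)]
  have h := frac_le (a := x.1 - y.1) (b := x.2 - y.2)
  gcongr

theorem frac_c {a b : ℝ} (h : a ^ 2 + b ^ 2 ≠ 0) :
    ((-b / (a ^ 2 + b ^ 2) : ℝ) : ℂ) + ((a / (a ^ 2 + b ^ 2) : ℝ) : ℂ) * Complex.I =
      Complex.I / ((a : ℂ) - (b : ℂ) * Complex.I) := by
  have hn : ((a : ℂ) - (b : ℂ) * Complex.I) ≠ 0 := by
    intro h'
    apply h
    have h3 := congrArg Complex.re h'
    have h4 := congrArg Complex.im h'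
    simp at h3 h4
    rw [h3, h4]
    ring
  have hI : Complex.I ^ 2 = -1 := Complex.I_sq
  have hC : (a : ℂ) ^ 2 + (b : ℂ) ^ 2 ≠ 0 := by exact_mod_cast h
  rw [eq_div_iff hn]
  push_cast
  field_simp
  linear_combination (-(a : ℂ) * b) * hI

theorem KK_bs {z x : ℝ × ℝ} (h1 : x ≠ z) (h2 : x ≠ (z.1, -z.2)) :
    KK z x = ((bs1 z x - bs1 z (x.1, -x.2) : ℝ) : ℂ) +
      ((bs2 z x - bs2 z (x.1, -x.2) : ℝ) : ℂ) * Complex.I := by
  have hd : (z.1 - x.1) ^ 2 + (z.2 - x.2) ^ 2 ≠ 0 := (T01.dsq_pos (Ne.symm h1)).ne'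
  have hd2 : (z.1 - x.1) ^ 2 + (z.2 + x.2) ^ 2 ≠ 0 := by
    have h3 : z ≠ (x.1, -x.2) := by
      intro h
      apply h2
      rw [h]
      simp
    have h4 := (T01.dsq_pos h3).ne'
    unfold dsq at h4
    simpa using h4
  unfold KK bs1 bs2
  simp only [sub_neg_eq_add]
  set a := z.1 - x.1 with ha
  set b := z.2 - x.2 with hb
  set b' := z.2 + x.2 with hb'
  have hx : x.2 = (b' - b) / 2 := by
    rw [hb, hb']
    ring
  rw [hx]
  clear_value a b b'
  have e1 := frac_c hd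
  have e2 := frac_c hd2
  have hn : ((a : ℂ) - (b : ℂ) * Complex.I) ≠ 0 := by
    intro h
    apply hd
    have h3 := congrArg Complex.re h
    have h4 := congrArg Complex.im h
    simp at h3 h4
    rw [h3, h4]
    ring
  have hn' : ((a : ℂ) - (b' : ℂ) * Complex.I) ≠ 0 := by
    intro h
    apply hd2
    have h3 := congrArg Complex.re h
    have h4 := congrArg Complex.im h
    simp at h3 h4
    rw [h3, h4]
    ring
  have hpi : (π : ℂ) ≠ 0 := by exact_mod_cast Real.pi_ne_zero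
  have hI : Complex.I ^ 2 = -1 := Complex.I_sq
  have e3 : ((1 / (2 * π) * (-b / (a ^ 2 + b ^ 2)) - 1 / (2 * π) * (-b' / (a ^ 2 + b' ^ 2)) : ℝ) : ℂ)
      + ((1 / (2 * π) * (a / (a ^ 2 + b ^ 2)) - 1 / (2 * π) * (a / (a ^ 2 + b' ^ 2)) : ℝ) : ℂ) *
        Complex.I = 1 / (2 * π) * (Complex.I / ((a : ℂ) - (b : ℂ) * Complex.I) -
          Complex.I / ((a : ℂ) - (b' : ℂ) * Complex.I)) := by
    rw [← e1, ← e2]
    push_cast
    ring
  rw [e3]
  push_cast
  field_simp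
  linear_combination ((b' : ℂ) - b) * hI

end T05

theorem t_KE (hp : S_pair) : S_KE := by
  intro A hA hV
  have hm := hA.meas
  have hVm : volume (mirror A) ≠ ⊤ := by
    rw [T05.mirror_vol hm]
    exact hV
  have hmeas1 : ∀ z, Measurable (T05.bs1 z) := fun z => by
    unfold T05.bs1
    fun_prop
  have hmeas2 : ∀ z, Measurable (T05.bs2 z) := fun z => by
    unfold T05.bs2
    fun_prop
  have i1 : ∀ z (B : Set (ℝ × ℝ)), volume B ≠ ⊤ → IntegrableOn (T05.bs1 z) B := fun z B hB =>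
    T05.bs_int z hB (hmeas1 z) (T05.bs1_le z)
  have i2 : ∀ z (B : Set (ℝ × ℝ)), volume B ≠ ⊤ → IntegrableOn (T05.bs2 z) B := fun z B hB =>
    T05.bs_int z hB (hmeas2 z) (T05.bs2_le z)
  have v1 : ∀ z, (vel (patch A) z).1 = ∫ y in A, (T05.bs1 z y - T05.bs1 z (y.1, -y.2)) := fun z =>
    T05.int_patch hm (i1 z A hV) (i1 z _ hVm)
  have v2 : ∀ z, (vel (patch A) z).2 = ∫ y in A, (T05.bs2 z y - T05.bs2 z (y.1, -y.2)) := fun z =>
    T05.int_patch hm (i2 z A hV) (i2 z _ hVm)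
  have j1 : ∀ z, IntegrableOn (fun y => T05.bs1 z y - T05.bs1 z (y.1, -y.2)) A := fun z =>
    (i1 z A hV).sub (T05.refl_int (i1 z _ hVm))
  have j2 : ∀ z, IntegrableOn (fun y => T05.bs2 z y - T05.bs2 z (y.1, -y.2)) A := fun z =>
    (i2 z A hV).sub (T05.refl_int (i2 z _ hVm))
  have e1 : ∀ z, ∫ x in A, KK z x = (((vel (patch A) z).1 : ℝ) : ℂ) +
      (((vel (patch A) z).2 : ℝ) : ℂ) * Complex.I := by
    intro z
    rw [v1, v2, ← integral_complex_ofReal, ← integral_complex_ofReal, ← integral_mul_const,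
      ← integral_add]
    · apply integral_congr_ae
      have hne : ∀ w : ℝ × ℝ, ∀ᵐ x ∂(volume.restrict A), x ≠ w := fun w => by
        apply ae_restrict_of_ae
        rw [ae_iff]
        simp
      filter_upwards [hne z, hne (z.1, -z.2)] with x h1 h2
      exact T05.KK_bs h1 h2
    · exact (j1 z).ofReal
    · exact (j2 z).ofReal.mul_const _
  have e2 : ∀ z, (vel (patch A) z).1 ^ 2 + (vel (patch A) z).2 ^ 2 =
      ((∫ x in A, KK z x) * (starRingEnd ℂ) (∫ x in A, KK z x)).re := by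
    intro z
    rw [e1]
    simp only [Complex.mul_re, Complex.conj_re, Complex.conj_im, Complex.add_re, Complex.add_im,
      Complex.ofReal_re, Complex.ofReal_im, Complex.I_re, Complex.I_im, Complex.mul_im]
    ring
  obtain ⟨h1, h2⟩ := t_cross hp A A hA hA hV hV
  simp only [KE, e2]
  refine ⟨h1, ?_⟩
  rw [h2]
  unfold EE
  ring

end SV
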