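import Pool.Agent.Helper779.SV.T20

/-!
# T22 (first part): lifting
-/

open MeasureTheory Set Filter Topology
open scoped Real

namespace SV

namespace T22

/-- lifting of a set -/
def lift (t : ℝ) (A : Set (ℝ × ℝ)) : Set (ℝ × ℝ) := {x : ℝ × ℝ | (x.1, x.2 - t) ∈ A}

theorem mp_shift (t : ℝ) : MeasurePreserving (fun x : ℝ × ℝ => (x.1, x.2 - t)) := by
  have h := measurePreserving_sub_right (volume : Measure (ℝ × ℝ)) ((0 : ℝ), t)
  have e : (fun x : ℝ × ℝ => (x.1, x.2 - t)) = fun x : ℝ × ℝ => x - (0, t) := by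
    ext x <;> simp
  rw [e]
  exact h

theorem me_shift (t : ℝ) : MeasurableEmbedding (fun x : ℝ × ℝ => (x.1, x.2 - t)) := by
  have e : (fun x : ℝ × ℝ => (x.1, x.2 - t)) = fun x : ℝ × ℝ => x - (0, t) := by
    ext x <;> simp
  rw [e]
  exact (MeasurableEquiv.subRight ((0 : ℝ), t)).measurableEmbedding

theorem int_lift (t : ℝ) (A : Set (ℝ × ℝ)) (f : ℝ × ℝ → ℝ) :
    ∫ x in lift t A, f x = ∫ x in A, f (x.1, x.2 + t) := by
  have h := (mp_shift t).setIntegral_preimage_emb (me_shift t)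
    (fun x : ℝ × ℝ => f (x.1, x.2 + t)) A
  have e : (fun x : ℝ × ℝ => (x.1, x.2 - t)) ⁻¹' A = lift t A := rfl
  rw [e] at h
  rw [← h]
  refine integral_congr_ae (Eventually.of_forall fun x => ?_)
  simp

theorem intOn_lift (t : ℝ) (A : Set (ℝ × ℝ)) (f : ℝ × ℝ → ℝ) :
    IntegrableOn f (lift t A) ↔ IntegrableOn (fun x : ℝ × ℝ => f (x.1, x.2 + t)) A := by
  have h := (mp_shift t).integrableOn_comp_preimage (me_shift t)
    (f := fun x : ℝ × ℝ => f (x.1, x.2 + t)) (s := A)
  have e : (fun x : ℝ × ℝ => (x.1, x.2 - t)) ⁻¹' A = lift t A := rfl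
  rw [e] at h
  rw [← h]
  have e2 : ((fun x : ℝ × ℝ => f (x.1, x.2 + t)) ∘ fun x : ℝ × ℝ => (x.1, x.2 - t)) = f := by
    ext x
    simp
  rw [e2]

theorem vol_lift (t : ℝ) {A : Set (ℝ × ℝ)} (hA : MeasurableSet A) :
    volume (lift t A) = volume A :=
  (mp_shift t).measure_preimage hA.nullMeasurableSet

theorem meas_lift (t : ℝ) {A : Set (ℝ × ℝ)} (hA : MeasurableSet A) : MeasurableSet (lift t A) :=
  (mp_shift t).measurable hA

theorem lift_bdd (t : ℝ) {A : Set (ℝ × ℝ)} (hb : Bornology.IsBounded A) :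
    Bornology.IsBounded (lift t A) := by
  obtain ⟨R, hR⟩ := hb.exists_norm_le
  refine (Metric.isBounded_closedBall (x := (0 : ℝ × ℝ)) (r := R + |t|)).subset ?_
  intro x hx
  have h1 := hR _ hx
  rw [Prod.norm_def] at h1
  have h2 := max_le_iff.mp h1
  simp only [Real.norm_eq_abs] at h2
  rw [mem_closedBall_zero_iff, Prod.norm_def]
  refine max_le ?_ ?_
  · rw [Real.norm_eq_abs]
    have := abs_nonneg t
    linarith [h2.1]
  · rw [Real.norm_eq_abs]
    have h3 : |x.2| ≤ |x.2 - t| + |t| := by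
      have := abs_add_le (x.2 - t) t
      simpa using this
    linarith [h2.2]

/-- the kernel grows under lifting -/
theorem kap_lift {x y : ℝ × ℝ} (hx : 0 < x.2) (hy : 0 < y.2) {t : ℝ} (ht : 0 ≤ t) :
    kap x y * y.2 * x.2 ≤ kap (x.1, x.2 + t) (y.1, y.2 + t) * (y.2 + t) * (x.2 + t) := by
  have hform : ∀ u v : ℝ × ℝ, 0 < u.2 → 0 < v.2 →
      kap u v * v.2 * u.2 = 1 / (4 * π) * Real.log (1 + 4 * u.2 * v.2 / dsq u v) := by
    intro u v hu hv
    unfold kap kk
    rw [if_neg (by positivity)]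
    field_simp
  have hd : dsq (x.1, x.2 + t) (y.1, y.2 + t) = dsq x y := by
    unfold dsq
    simp only
    ring
  have h2 := hform (x.1, x.2 + t) (y.1, y.2 + t) (by simp only; linarith) (by simp only; linarith)
  simp only at h2
  rw [hform x y hx hy, h2, hd]
  refine mul_le_mul_of_nonneg_left (Real.log_le_log ?_ ?_) (by positivity)
  · have : 0 ≤ 4 * x.2 * y.2 / dsq x y := div_nonneg (by positivity) (T20.dsq_nonneg _ _)
    linarith
  · have : 4 * x.2 * y.2 / dsq x y ≤ 4 * (x.2 + t) * (y.2 + t) / dsq x y := by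
      refine div_le_div_of_nonneg_right ?_ (T20.dsq_nonneg _ _)
      nlinarith [mul_nonneg ht (le_of_lt hx), mul_nonneg ht (le_of_lt hy), mul_nonneg ht ht]
    linarith

theorem t_lift (hI : S_int) (hadd : S_add) : S_lift := by
  intro A hA hb t ht
  change Adm (lift t A) ∧ ar (lift t A) = ar A ∧ PP (lift t A) = PP A + t * ar A ∧
    EE A ≤ EE (lift t A)
  have hFA : Fi A := ⟨hA.meas, hA.sub, hA.int⟩
  have hsub : lift t A ⊆ UH := by
    intro x hx
    have h1 : 0 < x.2 - t := hA.sub hx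
    have : 0 < x.2 := by linarith
    exact this
  have hFL : Fi (lift t A) := T21.fi_of_bdd (meas_lift t hA.meas) hsub (lift_bdd t hb)
  have hvol := vol_lift t hA.meas
  have har : ar (lift t A) = ar A := by unfold ar; rw [hvol]
  have hcint : IntegrableOn (fun _ : ℝ × ℝ => t) A :=
    integrableOn_const (by exact hA.fin)
  have hPP : PP (lift t A) = PP A + t * ar A := by
    unfold PP
    rw [int_lift]
    simp only
    rw [integral_add hA.int hcint, setIntegral_const]
    unfold ar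
    rw [Measure.real, smul_eq_mul, mul_comm]
  have hPPpos : 0 < PP (lift t A) := by
    rw [hPP]
    have h1 : 0 ≤ t * ar A := mul_nonneg ht ENNReal.toReal_nonneg
    linarith [hA.pos]
  refine ⟨⟨hFL.meas, hFL.sub, by rw [hvol]; exact hA.fin, hFL.int, hPPpos⟩, har, hPP, ?_⟩
  unfold EE cross
  refine mul_le_mul_of_nonneg_left ?_ (by norm_num)
  rw [int_lift]
  have hL2 : IntegrableOn (fun x => phi (lift t A) x * x.2) (lift t A) := (hadd _ _ hFL hFL).2.1
  rw [intOn_lift] at hL2
  refine setIntegral_mono_on (hadd _ _ hFA hFA).2.1 hL2 hA.meas ?_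
  intro x hx
  have hx2 : 0 < x.2 := hA.sub hx
  simp only
  unfold phi
  rw [int_lift, ← integral_mul_const, ← integral_mul_const]
  have i1 := (hI A hFA x (le_of_lt hx2)).mul_const x.2
  have i2 := hI (lift t A) hFL (x.1, x.2 + t) (by simp only; linarith)
  rw [intOn_lift] at i2
  have i3 := i2.mul_const (x.2 + t)
  refine setIntegral_mono_on i1 i3 hA.meas ?_
  intro y hy
  exact kap_lift hx2 (hA.sub hy) ht

end T22

theorem t_lift (hI : S_int) (hadd : S_add) : S_lift := T22.t_lift hI hadd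

end SV
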