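import Pool.Agent.Helper779.SV.T22a

/-!
# T22 (second part): energy of a union of cells
-/

open MeasureTheory Set Filter Topology
open scoped Real

namespace SV

namespace T22

/-- unit disc around `c` -/
def disc (c : ℝ × ℝ) : Set (ℝ × ℝ) := {z | dsq z c < 1}

theorem polar_disc {f : ℝ × ℝ → ℝ} (hf : IntegrableOn f (disc 0)) :
    ∫ z in disc 0, f z =
      ∫ r in Ioo (0:ℝ) 1, ∫ θ in Ioo (-π) π, r * f (r * Real.cos θ, r * Real.sin θ) := by
  have hmd : MeasurableSet (disc 0) := by
    have : Continuous fun z : ℝ × ℝ => dsq z 0 := by unfold dsq; fun_prop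
    exact (isOpen_lt this continuous_const).measurableSet
  have hms : MeasurableSet (Ioo (0:ℝ) 1 ×ˢ Ioo (-π) π) := measurableSet_Ioo.prod measurableSet_Ioo
  have hsub : (Ioo (0:ℝ) 1 ×ˢ Ioo (-π) π) ⊆ polarCoord.target := by
    rintro ⟨r, θ⟩ ⟨h1, h2⟩
    exact ⟨h1.1, h2⟩
  have hmem : ∀ p : ℝ × ℝ, 0 < p.1 → (polarCoord.symm p ∈ disc 0 ↔ p.1 < 1) := by
    intro p hp
    have h1 : dsq (polarCoord.symm p) 0 = p.1 ^ 2 := by
      unfold dsq
      simp only [polarCoord_symm_apply, Prod.fst_zero, Prod.snd_zero, sub_zero]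
      have := Real.cos_sq_add_sin_sq p.2
      linear_combination p.1 ^ 2 * this
    change dsq (polarCoord.symm p) 0 < 1 ↔ _
    rw [h1]
    constructor
    · intro h; nlinarith
    · intro h; nlinarith
  rw [← integral_indicator hmd, ← integral_comp_polarCoord_symm]
  have e1 : ∫ p in polarCoord.target, p.1 • (disc 0).indicator f (polarCoord.symm p) =
      ∫ p in polarCoord.target, (Ioo (0:ℝ) 1 ×ˢ Ioo (-π) π).indicator
        (fun p : ℝ × ℝ => p.1 * f (polarCoord.symm p)) p := by
    refine setIntegral_congr_fun polarCoord.open_target.measurableSet ?_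
    rintro ⟨r, θ⟩ ⟨h1, h2⟩
    have h1' : 0 < r := h1
    simp only [smul_eq_mul]
    by_cases h : r < 1
    · rw [indicator_of_mem ((hmem (r, θ) h1').mpr h), indicator_of_mem]
      exact ⟨⟨h1', h⟩, h2⟩
    · rw [indicator_of_notMem (fun hh => h ((hmem (r, θ) h1').mp hh)), indicator_of_notMem, mul_zero]
      rintro ⟨h3, -⟩
      exact h h3.2
  rw [e1, setIntegral_indicator hms, inter_eq_right.mpr hsub]
  have hint : IntegrableOn (fun p : ℝ × ℝ => p.1 * f (polarCoord.symm p))
      (Ioo (0:ℝ) 1 ×ˢ Ioo (-π) π) ((volume : Measure ℝ).prod volume) := by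
    have h1 := (integrableOn_image_iff_integrableOn_abs_det_fderiv_smul (volume : Measure (ℝ × ℝ))
      hms (fun p _ => (hasFDerivAt_polarCoord_symm p).hasFDerivWithinAt)
      (polarCoord.symm.injOn.mono hsub) f).mp (hf.mono_set (by
        rintro _ ⟨p, hp, rfl⟩
        exact (hmem p hp.1.1).mpr hp.1.2))
    refine h1.congr_fun ?_ hms
    intro p hp
    simp only [det_fderivPolarCoordSymm, smul_eq_mul]
    rw [abs_of_pos hp.1.1]
  have h2 := setIntegral_prod _ hint
  rw [← Measure.volume_eq_prod] at h2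
  rw [h2]
  rfl

theorem circle_log (a : ℝ × ℝ) {r : ℝ} (hr : 0 < r) :
    ∫ θ in Ioo (-π) π, Real.log (dsq (r * Real.cos θ, r * Real.sin θ) a) =
      4 * π * Real.log (max r √(dsq 0 a)) := by
  set b : ℂ := ⟨a.1, a.2⟩ with hb
  have hn : ∀ θ : ℝ, Real.log (dsq (r * Real.cos θ, r * Real.sin θ) a) =
      2 * Real.log ‖circleMap 0 r θ - b‖ := by
    intro θ
    have h1 : ‖circleMap 0 r θ - b‖ = √(dsq (r * Real.cos θ, r * Real.sin θ) a) := by
      rw [Complex.norm_def, Complex.normSq_apply]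
      congr 1
      unfold dsq
      simp [circleMap, hb, Complex.exp_re, Complex.exp_im]
      ring
    rw [h1, Real.log_sqrt (T20.dsq_nonneg _ _)]
    ring
  have hn0 : ‖(0 : ℂ) - b‖ = √(dsq 0 a) := by
    rw [Complex.norm_def, Complex.normSq_apply]
    congr 1
    unfold dsq
    simp [hb]
    ring
  have hR : r ≠ 0 := ne_of_gt hr
  have h := Real.circleAverage_eq_integral_add (f := (Real.log ‖· - b‖)) (c := (0:ℂ)) (R := r) (-π)
  rw [circleAverage_log_norm_sub_const_eq_log_radius_add_posLog hR, hn0,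
    Real.posLog_eq_log_max_one (by positivity), ← Real.log_mul (by positivity) (by positivity),
    mul_max_of_nonneg _ _ (le_of_lt hr), mul_one, mul_inv_cancel_left₀ hR] at h
  rw [← integral_Ioc_eq_integral_Ioo, ← intervalIntegral.integral_of_le (by linarith [Real.pi_pos]),
    intervalIntegral.integral_congr (g := fun θ => 2 * Real.log ‖circleMap 0 r θ - b‖)
      (fun θ _ => hn θ), intervalIntegral.integral_const_mul]
  rw [intervalIntegral.integral_comp_add_right (fun θ => Real.log ‖circleMap 0 r θ - b‖)] at h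
  have e1 : (0:ℝ) + -π = -π := by ring
  have e2 : 2 * π + -π = π := by ring
  rw [e1, e2, smul_eq_mul] at h
  rw [h]
  have := Real.pi_pos
  field_simp
  ring

/-- mean of `log |z-x|^2` over the unit disc, `d` = squared distance of `x` from the centre -/
noncomputable def MM (d : ℝ) : ℝ := if 1 ≤ d then Real.log d else d - 1

theorem MM_le (d : ℝ) : MM d ≤ d - 1 := by
  unfold MM
  split_ifs with h
  · exact Real.log_le_sub_one_of_pos (by linarith)
  · exact le_refl _

theorem radial {ρ : ℝ} (hρ : 0 ≤ ρ) :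
    ∫ r in (0:ℝ)..1, r * Real.log (max r ρ) = MM (ρ ^ 2) / 4 := by
  unfold MM
  split_ifs with h
  · have h1 : 1 ≤ ρ := by nlinarith
    have e : ∫ r in (0:ℝ)..1, r * Real.log (max r ρ) = ∫ r in (0:ℝ)..1, r * Real.log ρ := by
      refine intervalIntegral.integral_congr ?_
      intro r hr
      rw [uIcc_of_le zero_le_one] at hr
      simp only
      rw [max_eq_right (le_trans hr.2 h1)]
    rw [e, intervalIntegral.integral_mul_const, integral_id, Real.log_pow]
    push_cast
    ring
  · push Not at h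
    have h1 : ρ ≤ 1 := by nlinarith
    have hc : Continuous fun r : ℝ => r * Real.log r := Real.continuous_mul_log
    have e1 : ∫ r in (0:ℝ)..ρ, r * Real.log (max r ρ) = ∫ r in (0:ℝ)..ρ, r * Real.log ρ := by
      refine intervalIntegral.integral_congr ?_
      intro r hr
      rw [uIcc_of_le hρ] at hr
      simp only
      rw [max_eq_right hr.2]
    have e2 : ∫ r in ρ..1, r * Real.log (max r ρ) = ∫ r in ρ..1, r * Real.log r := by
      refine intervalIntegral.integral_congr ?_
      intro r hr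
      rw [uIcc_of_le h1] at hr
      simp only
      rw [max_eq_left hr.1]
    have i1 : IntervalIntegrable (fun r : ℝ => r * Real.log (max r ρ)) volume 0 ρ := by
      have hcc : Continuous fun r : ℝ => r * Real.log ρ := by fun_prop
      refine (hcc.intervalIntegrable (μ := volume) 0 ρ).congr ?_
      intro r hr
      rw [uIoc_of_le hρ] at hr
      simp only
      rw [max_eq_right hr.2]
    have i2 : IntervalIntegrable (fun r : ℝ => r * Real.log (max r ρ)) volume ρ 1 := by
      refine (hc.intervalIntegrable (μ := volume) ρ 1).congr ?_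
      intro r hr
      rw [uIoc_of_le h1] at hr
      simp only
      rw [max_eq_left (le_of_lt hr.1)]
    rw [← intervalIntegral.integral_add_adjacent_intervals i1 i2, e1, e2,
      intervalIntegral.integral_mul_const, integral_id]
    have e3 : ∫ r in ρ..1, r * Real.log r =
        (fun r : ℝ => r * (r * Real.log r) / 2 - r ^ 2 / 4) 1 -
        (fun r : ℝ => r * (r * Real.log r) / 2 - r ^ 2 / 4) ρ := by
      refine intervalIntegral.integral_eq_sub_of_hasDerivAt_of_le
        (f := fun r : ℝ => r * (r * Real.log r) / 2 - r ^ 2 / 4) h1 ?_ ?_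
        (hc.intervalIntegrable (μ := volume) ρ 1)
      · exact (((continuous_id.mul hc).div_const 2).sub (by fun_prop)).continuousOn
      · intro r hr
        have hr0 : r ≠ 0 := ne_of_gt (lt_of_le_of_lt hρ hr.1)
        have hd := (((hasDerivAt_id r).mul ((hasDerivAt_id r).mul (Real.hasDerivAt_log hr0))).div_const 2).sub
          (((hasDerivAt_pow 2 r)).div_const 4)
        refine hd.congr_deriv ?_
        simp only [id]
        field_simp
        push_cast
        simp
        ring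
    rw [e3]
    simp only [Real.log_one]
    ring

theorem int_trans (c : ℝ × ℝ) (A : Set (ℝ × ℝ)) (f : ℝ × ℝ → ℝ) :
    ∫ z in (fun z => z - c) ⁻¹' A, f z = ∫ z in A, f (z + c) := by
  have h := (measurePreserving_sub_right (volume : Measure (ℝ × ℝ)) c).setIntegral_preimage_emb
    (MeasurableEquiv.subRight c).measurableEmbedding (fun z => f (z + c)) A
  rw [← h]
  refine integral_congr_ae (Eventually.of_forall fun z => ?_)
  simp

theorem intOn_trans (c : ℝ × ℝ) (A : Set (ℝ × ℝ)) (f : ℝ × ℝ → ℝ) :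
    IntegrableOn f ((fun z => z - c) ⁻¹' A) ↔ IntegrableOn (fun z => f (z + c)) A := by
  have h := (measurePreserving_sub_right (volume : Measure (ℝ × ℝ)) c).integrableOn_comp_preimage
    (MeasurableEquiv.subRight c).measurableEmbedding (f := fun z => f (z + c)) (s := A)
  rw [← h]
  have e2 : ((fun z => f (z + c)) ∘ fun z : ℝ × ℝ => z - c) = f := by
    ext x
    simp
  rw [e2]

theorem disc_eq (c : ℝ × ℝ) : disc c = (fun z => z - c) ⁻¹' (disc 0) := by
  ext z
  simp [disc, dsq]

theorem isOpen_disc (c : ℝ × ℝ) : IsOpen (disc c) := by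
  have : Continuous fun z : ℝ × ℝ => dsq z c := by unfold dsq; fun_prop
  exact isOpen_lt this continuous_const

theorem disc_log {c x : ℝ × ℝ} (hint : IntegrableOn (fun z => Real.log (dsq z x)) (disc c)) :
    ∫ z in disc c, Real.log (dsq z x) = π * MM (dsq c x) := by
  rw [disc_eq, intOn_trans] at hint
  rw [disc_eq, int_trans]
  have e : ∀ z : ℝ × ℝ, dsq (z + c) x = dsq z (x - c) := by
    intro z
    simp [dsq]
    ring
  simp only [e] at hint ⊢
  rw [polar_disc hint]
  have e2 : dsq 0 (x - c) = dsq c x := by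
    simp [dsq]
  have h0 := T20.dsq_nonneg 0 (x - c)
  calc ∫ r in Ioo (0:ℝ) 1, ∫ θ in Ioo (-π) π, r * Real.log (dsq (r * Real.cos θ, r * Real.sin θ) (x - c))
      = ∫ r in Ioo (0:ℝ) 1, 4 * π * (r * Real.log (max r √(dsq 0 (x - c)))) := by
        refine setIntegral_congr_fun measurableSet_Ioo fun r hr => ?_
        rw [integral_const_mul, circle_log _ hr.1]
        ring
    _ = 4 * π * ∫ r in Ioo (0:ℝ) 1, r * Real.log (max r √(dsq 0 (x - c))) := by
        rw [integral_const_mul]
    _ = 4 * π * (MM (√(dsq 0 (x - c)) ^ 2) / 4) := by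
        rw [← integral_Ioc_eq_integral_Ioo, ← intervalIntegral.integral_of_le zero_le_one,
          radial (Real.sqrt_nonneg _)]
    _ = π * MM (dsq c x) := by
        rw [Real.sq_sqrt h0, e2]
        ring

/-- reflected point -/
def xb (x : ℝ × ℝ) : ℝ × ℝ := (x.1, -x.2)

theorem kap_form {x y : ℝ × ℝ} (hx : 0 < x.2) (hy : 0 < y.2) (hxy : y ≠ x) :
    kap x y * y.2 * x.2 = 1 / (4 * π) * (Real.log (dsq y (xb x)) - Real.log (dsq y x)) := by
  have hd : 0 < dsq x y := by
    unfold dsq
    by_contra h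
    push Not at h
    have h1 : x.1 - y.1 = 0 := by nlinarith [sq_nonneg (x.1 - y.1), sq_nonneg (x.2 - y.2)]
    have h2 : x.2 - y.2 = 0 := by nlinarith [sq_nonneg (x.1 - y.1), sq_nonneg (x.2 - y.2)]
    exact hxy (Prod.ext (by linarith) (by linarith))
  have e1 : dsq y x = dsq x y := by unfold dsq; ring
  have e2 : dsq y (xb x) = dsq x y + 4 * x.2 * y.2 := by unfold dsq xb; simp only; ring
  have hp : 0 < 4 * x.2 * y.2 := by positivity
  rw [e1, e2, ← Real.log_div (by positivity) (by positivity)]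
  unfold kap kk
  rw [if_neg (ne_of_gt hp)]
  have e3 : 1 + 4 * x.2 * y.2 / dsq x y = (dsq x y + 4 * x.2 * y.2) / dsq x y := by
    field_simp
  rw [e3]
  field_simp

theorem log_int_bar {x : ℝ × ℝ} (hx : 0 < x.2) {A : Set (ℝ × ℝ)} (hs : A ⊆ UH)
    (hb : Bornology.IsBounded A) : IntegrableOn (fun z => Real.log (dsq z (xb x))) A := by
  have hK : IsCompact (closure A) := hb.isCompact_closure
  have hKs : closure A ⊆ {z : ℝ × ℝ | 0 ≤ z.2} := by
    refine closure_minimal (fun z hz => ?_) (isClosed_le continuous_const continuous_snd)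
    have : 0 < z.2 := hs hz
    exact le_of_lt this
  have hc : ContinuousOn (fun z => Real.log (dsq z (xb x))) (closure A) := by
    refine ContinuousOn.log ?_ ?_
    · have : Continuous fun z : ℝ × ℝ => dsq z (xb x) := by unfold dsq; fun_prop
      exact this.continuousOn
    · intro z hz
      have h1 : 0 ≤ z.2 := hKs hz
      unfold dsq xb
      simp only
      have : 0 < (z.2 - -x.2) ^ 2 := by
        have : 0 < z.2 - -x.2 := by linarith
        positivity
      nlinarith [sq_nonneg (z.1 - x.1)]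
  exact (hc.integrableOn_compact hK).mono_set subset_closure

theorem log_int (hI : S_int) {x : ℝ × ℝ} (hx : 0 < x.2) {A : Set (ℝ × ℝ)} (hm : MeasurableSet A)
    (hs : A ⊆ UH) (hb : Bornology.IsBounded A) : IntegrableOn (fun z => Real.log (dsq z x)) A := by
  have h1 := log_int_bar hx hs hb
  have h2 := ((hI A (T21.fi_of_bdd hm hs hb) x (le_of_lt hx)).mul_const x.2).const_mul (4 * π)
  have h3 := h1.sub h2
  refine h3.congr_fun_ae ?_
  have hne : ∀ᵐ z : ℝ × ℝ, z ≠ x := compl_mem_ae_iff.mpr (measure_singleton _)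
  rw [EventuallyEq, ae_restrict_iff' hm]
  filter_upwards [hne] with z hz hzA
  simp only [Pi.sub_apply]
  rw [kap_form hx (hs hzA) hz]
  have := Real.pi_pos
  field_simp
  ring

theorem disc_sub {c : ℝ × ℝ} (hc : 1 ≤ c.2) : disc c ⊆ UH := by
  intro z hz
  have h1 : dsq z c < 1 := hz
  unfold dsq at h1
  change 0 < z.2
  nlinarith [sq_nonneg (z.1 - c.1), sq_nonneg (z.2 - c.2)]

theorem disc_abs {c z : ℝ × ℝ} (hz : z ∈ disc c) : |z.1 - c.1| ≤ 1 ∧ |z.2 - c.2| ≤ 1 := by
  have h1 : dsq z c < 1 := hz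
  unfold dsq at h1
  constructor
  · rw [abs_le]; constructor <;> nlinarith [sq_nonneg (z.1 - c.1), sq_nonneg (z.2 - c.2)]
  · rw [abs_le]; constructor <;> nlinarith [sq_nonneg (z.1 - c.1), sq_nonneg (z.2 - c.2)]

theorem disc_bdd (c : ℝ × ℝ) : Bornology.IsBounded (disc c) := by
  refine (Metric.isBounded_closedBall (x := c) (r := 1)).subset ?_
  intro z hz
  have := disc_abs hz
  rw [Metric.mem_closedBall, Prod.dist_eq, Real.dist_eq, Real.dist_eq]
  exact max_le this.1 this.2

/-- open cell of side 2 -/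
def cell (c : ℝ × ℝ) : Set (ℝ × ℝ) := Ioo (c.1 - 1) (c.1 + 1) ×ˢ Ioo (c.2 - 1) (c.2 + 1)

theorem cell_trans (c b : ℝ × ℝ) : cell c = (fun z => z - b) ⁻¹' (cell (c - b)) := by
  ext z
  simp only [cell, mem_prod, mem_Ioo, mem_preimage, Prod.fst_sub, Prod.snd_sub]
  constructor
  · rintro ⟨⟨h1, h2⟩, h3, h4⟩
    exact ⟨⟨by linarith, by linarith⟩, by linarith, by linarith⟩
  · rintro ⟨⟨h1, h2⟩, h3, h4⟩
    exact ⟨⟨by linarith, by linarith⟩, by linarith, by linarith⟩

theorem isOpen_cell (c : ℝ × ℝ) : IsOpen (cell c) := isOpen_Ioo.prod isOpen_Ioo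

theorem cell_sub {c : ℝ × ℝ} (hc : 1 ≤ c.2) : cell c ⊆ UH := by
  rintro z ⟨-, h⟩
  have := h.1
  change 0 < z.2
  linarith

theorem cell_bdd (c : ℝ × ℝ) : Bornology.IsBounded (cell c) :=
  (Metric.isBounded_Ioo _ _).prod (Metric.isBounded_Ioo _ _)

theorem vol_cell (c : ℝ × ℝ) : volume (cell c) = 4 := by
  unfold cell
  rw [Measure.volume_eq_prod, Measure.prod_prod, Real.volume_Ioo, Real.volume_Ioo]
  have e1 : c.1 + 1 - (c.1 - 1) = 2 := by ring
  have e2 : c.2 + 1 - (c.2 - 1) = 2 := by ring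
  rw [e1, e2, ← ENNReal.ofReal_mul (by norm_num)]
  norm_num

theorem contOn_bdd {f : ℝ × ℝ → ℝ} (hf : Continuous f) {A : Set (ℝ × ℝ)}
    (hb : Bornology.IsBounded A) : IntegrableOn f A :=
  (hf.continuousOn.integrableOn_compact hb.isCompact_closure).mono_set subset_closure

theorem cell_fub {f : ℝ × ℝ → ℝ} (hf : Continuous f) :
    ∫ z in cell 0, f z = ∫ x in (-1:ℝ)..1, ∫ y in (-1:ℝ)..1, f (x, y) := by
  have h := setIntegral_prod (μ := (volume : Measure ℝ)) (ν := (volume : Measure ℝ)) f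
    (s := Ioo (-1 : ℝ) 1) (t := Ioo (-1 : ℝ) 1) (contOn_bdd hf ((Metric.isBounded_Ioo _ _).prod
      (Metric.isBounded_Ioo _ _)))
  have e : cell 0 = Ioo (-1 : ℝ) 1 ×ˢ Ioo (-1 : ℝ) 1 := by
    unfold cell
    norm_num
  rw [e, Measure.volume_eq_prod, h, intervalIntegral.integral_of_le (by norm_num),
    integral_Ioc_eq_integral_Ioo]
  refine setIntegral_congr_fun measurableSet_Ioo fun x hx => ?_
  rw [intervalIntegral.integral_of_le (by norm_num), integral_Ioc_eq_integral_Ioo]

theorem cell_self (c : ℝ × ℝ) : ∫ z in cell c, (dsq c z - 1) = -4 / 3 := by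
  rw [cell_trans c c, int_trans, sub_self]
  have e : ∀ z : ℝ × ℝ, dsq c (z + c) - 1 = z.1 ^ 2 + z.2 ^ 2 - 1 := by
    intro z
    simp [dsq]
  simp only [e]
  rw [cell_fub (by fun_prop)]
  have e1 : ∀ x : ℝ, ∫ y in (-1:ℝ)..1, (x ^ 2 + y ^ 2 - 1) = 2 * x ^ 2 - 4 / 3 := by
    intro x
    rw [intervalIntegral.integral_sub (Continuous.intervalIntegrable (by fun_prop) _ _)
      (Continuous.intervalIntegrable (by fun_prop) _ _),
      intervalIntegral.integral_add (Continuous.intervalIntegrable (by fun_prop) _ _)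
      (Continuous.intervalIntegrable (by fun_prop) _ _)]
    simp only [intervalIntegral.integral_const, integral_pow, smul_eq_mul]
    norm_num
    ring
  simp only [e1]
  rw [intervalIntegral.integral_sub (Continuous.intervalIntegrable (by fun_prop) _ _)
      (Continuous.intervalIntegrable (by fun_prop) _ _),
    intervalIntegral.integral_const_mul]
  simp only [intervalIntegral.integral_const, integral_pow, smul_eq_mul]
  norm_num

theorem PP_cell (c : ℝ × ℝ) : PP (cell c) = 4 * c.2 := by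
  unfold PP
  rw [cell_trans c c, int_trans, sub_self]
  have e : ∀ z : ℝ × ℝ, (z + c).2 = z.2 + c.2 := by
    intro z
    simp
  simp only [e]
  rw [cell_fub (by fun_prop)]
  have e1 : ∫ y in (-1:ℝ)..1, (y + c.2) = 2 * c.2 := by
    rw [intervalIntegral.integral_add (Continuous.intervalIntegrable (by fun_prop) _ _)
      (Continuous.intervalIntegrable (by fun_prop) _ _)]
    simp only [intervalIntegral.integral_const, integral_id, smul_eq_mul]
    norm_num
  simp only [e1]
  simp only [intervalIntegral.integral_const, smul_eq_mul]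
  ring

theorem disc_self (c : ℝ × ℝ) : ∫ z in disc c, (dsq c z - 1) = -π / 2 := by
  rw [disc_eq, int_trans]
  have e : ∀ z : ℝ × ℝ, dsq c (z + c) - 1 = z.1 ^ 2 + z.2 ^ 2 - 1 := by
    intro z
    simp [dsq]
  simp only [e]
  rw [polar_disc (contOn_bdd (by fun_prop) (disc_bdd 0))]
  have e1 : ∀ r : ℝ, ∫ θ in Ioo (-π) π, r * ((r * Real.cos θ) ^ 2 + (r * Real.sin θ) ^ 2 - 1) =
      2 * π * (r ^ 3 - r) := by
    intro r
    have e2 : ∀ θ : ℝ, r * ((r * Real.cos θ) ^ 2 + (r * Real.sin θ) ^ 2 - 1) = r ^ 3 - r := by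
      intro θ
      have := Real.cos_sq_add_sin_sq θ
      linear_combination r ^ 3 * this
    simp only [e2]
    rw [setIntegral_const, Measure.real, Real.volume_Ioo, ENNReal.toReal_ofReal (by
      linarith [Real.pi_pos]), smul_eq_mul]
    ring
  simp only [e1]
  rw [← integral_Ioc_eq_integral_Ioo, ← intervalIntegral.integral_of_le zero_le_one,
    intervalIntegral.integral_const_mul, intervalIntegral.integral_sub (Continuous.intervalIntegrable (by fun_prop) _ _)
      (Continuous.intervalIntegrable (by fun_prop) _ _)]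
  simp only [integral_pow, integral_id]
  norm_num
  ring

theorem phi_disc (hI : S_int) {t x : ℝ × ℝ} (ht : 1 ≤ t.2) (hx : 0 < x.2) :
    phi (disc t) x * x.2 = 1 / 4 * (Real.log (dsq x (xb t)) - MM (dsq t x)) := by
  have hm := (isOpen_disc t).measurableSet
  have i1 := log_int_bar hx (disc_sub ht) (disc_bdd t)
  have i2 := log_int hI hx hm (disc_sub ht) (disc_bdd t)
  have e1 : phi (disc t) x * x.2 =
      ∫ y in disc t, 1 / (4 * π) * (Real.log (dsq y (xb x)) - Real.log (dsq y x)) := by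
    unfold phi
    rw [← integral_mul_const]
    have hne : ∀ᵐ z : ℝ × ℝ, z ≠ x := compl_mem_ae_iff.mpr (measure_singleton _)
    refine setIntegral_congr_ae hm ?_
    filter_upwards [hne] with z hz hzA
    exact kap_form hx (disc_sub ht hzA) hz
  rw [e1, integral_const_mul, integral_sub i1 i2, disc_log i1, disc_log i2]
  have e2 : dsq t (xb x) = dsq x (xb t) := by unfold dsq xb; simp only; ring
  have e3 : MM (dsq x (xb t)) = Real.log (dsq x (xb t)) := by
    unfold MM
    rw [if_pos]
    unfold dsq xb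
    simp only
    nlinarith [sq_nonneg (x.1 - t.1)]
  rw [e2, e3]
  have := Real.pi_pos
  field_simp

/-- the quadratic form -/
theorem quad (hI : S_int) (hadd : S_add) (hPDf : S_PDf) {ι : Type} (I : Finset ι)
    (A : ι → Set (ℝ × ℝ)) (c : ι → ℝ) (hA : ∀ i ∈ I, Fi (A i))
    (hb : ∀ i ∈ I, Bornology.IsBounded (A i)) :
    0 ≤ ∑ i ∈ I, ∑ j ∈ I, c i * c j * cross (A j) (A i) := by
  classical
  set f : ℝ × ℝ → ℝ := fun x => ∑ i ∈ I, (A i).indicator (fun _ => c i) x with hf
  have hfm : Measurable f := Finset.measurable_sum I fun i hi => measurable_const.indicator (hA i hi).meas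
  have hfb : ∃ M : ℝ, ∀ x, |f x| ≤ M := by
    refine ⟨∑ i ∈ I, |c i|, fun x => ?_⟩
    refine le_trans (Finset.abs_sum_le_sum_abs _ _) (Finset.sum_le_sum fun i _ => ?_)
    by_cases h : x ∈ A i
    · rw [indicator_of_mem h]
    · rw [indicator_of_notMem h, abs_zero]; exact abs_nonneg _
  have hfx : ∀ x, f x ≠ 0 → ∃ i ∈ I, x ∈ A i := by
    intro x hx
    by_contra h
    push Not at h
    exact hx (Finset.sum_eq_zero fun i hi => indicator_of_notMem (h i hi) _)
  have hfs : ∃ ρ : ℝ, ∀ x, f x ≠ 0 → 0 < x.2 ∧ |x.1| ≤ ρ ∧ x.2 ≤ ρ := by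
    have hU : Bornology.IsBounded (⋃ i ∈ I, A i) := by
      rw [Bornology.isBounded_biUnion_finset]
      exact hb
    obtain ⟨R, hR⟩ := hU.exists_norm_le
    refine ⟨R, fun x hx => ?_⟩
    obtain ⟨i, hi, hxi⟩ := hfx x hx
    have h1 := hR x (mem_biUnion hi hxi)
    rw [Prod.norm_def] at h1
    have h2 := max_le_iff.mp h1
    exact ⟨(hA i hi).sub hxi, h2.1, le_trans (le_abs_self _) h2.2⟩
  have h := hPDf f hfm hfb hfs
  have e1 : ∀ x : ℝ × ℝ, ∫ y : ℝ × ℝ, f x * f y * (kap x y * x.2 * y.2) =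
      f x * (∑ j ∈ I, c j * (phi (A j) x * x.2)) := by
    intro x
    by_cases hx : f x = 0
    · simp [hx]
    obtain ⟨i, hi, hxi⟩ := hfx x hx
    have hx2 : 0 < x.2 := (hA i hi).sub hxi
    have e2 : ∀ y : ℝ × ℝ, f x * f y * (kap x y * x.2 * y.2) =
        ∑ j ∈ I, f x * (c j * (((A j).indicator (fun y => kap x y * y.2) y) * x.2)) := by
      intro y
      rw [hf]
      simp only
      rw [Finset.mul_sum, Finset.sum_mul]
      refine Finset.sum_congr rfl fun j _ => ?_
      by_cases h : y ∈ A j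
      · rw [indicator_of_mem h, indicator_of_mem h]; ring
      · rw [indicator_of_notMem h, indicator_of_notMem h]; ring
    simp only [e2]
    rw [integral_finsetSum, Finset.mul_sum]
    · refine Finset.sum_congr rfl fun j hj => ?_
      rw [integral_const_mul, integral_const_mul, integral_mul_const,
        integral_indicator (hA j hj).meas]
      rfl
    · intro j hj
      have := (integrable_indicator_iff (hA j hj).meas).mpr (hI (A j) (hA j hj) x (le_of_lt hx2))
      exact ((this.mul_const _).const_mul _).const_mul _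
  simp only [e1] at h
  have e3 : ∀ x : ℝ × ℝ, f x * (∑ j ∈ I, c j * (phi (A j) x * x.2)) =
      ∑ i ∈ I, ∑ j ∈ I, c i * c j * (A i).indicator (fun x => phi (A j) x * x.2) x := by
    intro x
    rw [hf]
    simp only
    rw [Finset.sum_mul]
    refine Finset.sum_congr rfl fun i _ => ?_
    rw [Finset.mul_sum]
    refine Finset.sum_congr rfl fun j _ => ?_
    by_cases h : x ∈ A i
    · rw [indicator_of_mem h, indicator_of_mem h]; ring
    · rw [indicator_of_notMem h, indicator_of_notMem h]; ring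
  simp only [e3] at h
  have i1 : ∀ i ∈ I, ∀ j ∈ I, Integrable fun x =>
      c i * c j * (A i).indicator (fun x => phi (A j) x * x.2) x := by
    intro i hi j hj
    exact ((integrable_indicator_iff (hA i hi).meas).mpr
      (hadd (A j) (A i) (hA j hj) (hA i hi)).2.1).const_mul _
  rw [integral_finsetSum _ (fun i hi => integrable_finsetSum _ fun j hj => i1 i hi j hj)] at h
  refine le_of_le_of_eq h (Finset.sum_congr rfl fun i hi => ?_)
  rw [integral_finsetSum _ (fun j hj => i1 i hi j hj)]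
  refine Finset.sum_congr rfl fun j _ => ?_
  rw [integral_const_mul, integral_indicator (hA i hi).meas]
  rfl

theorem cell_log (hcell : S_cell) {c b : ℝ × ℝ} {X Y : ℤ} (hX : c.1 - b.1 = X)
    (hY : c.2 - b.2 = Y) (h0 : (X, Y) ≠ (0, 0)) :
    IntegrableOn (fun z => Real.log (dsq z b)) (cell c) ∧
    2 * Real.log (cellLo X Y) ≤ ∫ z in cell c, Real.log (dsq z b) ∧
    ∫ z in cell c, Real.log (dsq z b) ≤ 2 * Real.log (cellHi X Y) := by
  have e : ∀ z : ℝ × ℝ, dsq (z + b) b = z.1 ^ 2 + z.2 ^ 2 := by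
    intro z
    simp [dsq]
  have hae : (cell (c - b) : Set (ℝ × ℝ)) =ᵐ[volume]
      (Icc (X - 1 : ℝ) (X + 1) ×ˢ Icc (Y - 1 : ℝ) (Y + 1) : Set (ℝ × ℝ)) := by
    unfold cell
    rw [Prod.fst_sub, Prod.snd_sub, hX, hY]
    exact Measure.set_prod_ae_eq Ioo_ae_eq_Icc Ioo_ae_eq_Icc
  rw [cell_trans c b, int_trans, intOn_trans]
  simp only [e]
  rw [integrableOn_congr_set_ae hae, setIntegral_congr_set hae]
  exact hcell X Y h0

theorem sub_one_le {c t x : ℝ × ℝ} (h : 4 ≤ dsq c t) (hx : x ∈ disc c) : 1 ≤ dsq x t := by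
  have h1 : dsq x c < 1 := hx
  unfold dsq at *
  by_contra h2
  push Not at h2
  nlinarith [sq_nonneg (x.1 - c.1 + (x.1 - t.1)), sq_nonneg (x.2 - c.2 + (x.2 - t.2))]

theorem dsq_comm (x y : ℝ × ℝ) : dsq x y = dsq y x := by unfold dsq; ring

theorem cross_dd (hI : S_int) {c t : ℝ × ℝ} (hc : 1 ≤ c.2) (ht : 1 ≤ t.2) (h : 4 ≤ dsq c t) :
    cross (disc t) (disc c) = π / 4 * (Real.log (dsq c (xb t)) - Real.log (dsq c t)) := by
  have ht0 : 0 < t.2 := by linarith
  have hm := (isOpen_disc c).measurableSet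
  have i1 := log_int_bar ht0 (disc_sub hc) (disc_bdd c)
  have i2 := log_int hI ht0 hm (disc_sub hc) (disc_bdd c)
  unfold cross
  have e1 : ∫ x in disc c, phi (disc t) x * x.2 =
      ∫ x in disc c, 1 / 4 * (Real.log (dsq x (xb t)) - Real.log (dsq x t)) := by
    refine setIntegral_congr_fun hm fun x hx => ?_
    rw [phi_disc hI ht (disc_sub hc hx)]
    have : MM (dsq t x) = Real.log (dsq x t) := by
      unfold MM
      rw [dsq_comm t x, if_pos (sub_one_le h hx)]
    rw [this]
  rw [e1, integral_const_mul, integral_sub i1 i2, disc_log i1, disc_log i2]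
  have e2 : MM (dsq c (xb t)) = Real.log (dsq c (xb t)) := by
    unfold MM
    rw [if_pos]
    unfold dsq xb
    simp only
    nlinarith [sq_nonneg (c.1 - t.1)]
  have e3 : MM (dsq c t) = Real.log (dsq c t) := by
    unfold MM
    rw [if_pos (by linarith)]
  rw [e2, e3]
  ring

theorem cross_dd_self (hI : S_int) {t : ℝ × ℝ} (ht : 1 ≤ t.2) :
    cross (disc t) (disc t) = π / 4 * (Real.log (dsq t (xb t)) + 1 / 2) := by
  have ht0 : 0 < t.2 := by linarith
  have hm := (isOpen_disc t).measurableSet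
  have i1 := log_int_bar ht0 (disc_sub ht) (disc_bdd t)
  have i2 : IntegrableOn (fun x => dsq t x - 1) (disc t) := by
    refine contOn_bdd ?_ (disc_bdd t)
    unfold dsq
    fun_prop
  unfold cross
  have e1 : ∫ x in disc t, phi (disc t) x * x.2 =
      ∫ x in disc t, 1 / 4 * (Real.log (dsq x (xb t)) - (dsq t x - 1)) := by
    refine setIntegral_congr_fun hm fun x hx => ?_
    rw [phi_disc hI ht (disc_sub ht hx)]
    have h1 : dsq x t < 1 := hx
    have : MM (dsq t x) = dsq t x - 1 := by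
      unfold MM
      rw [dsq_comm t x, if_neg (not_le.mpr h1)]
    rw [this]
  rw [e1, integral_const_mul, integral_sub i1 i2, disc_log i1, disc_self]
  have e2 : MM (dsq t (xb t)) = Real.log (dsq t (xb t)) := by
    unfold MM
    rw [if_pos]
    unfold dsq xb
    simp only
    nlinarith [sq_nonneg (t.1 - t.1)]
  rw [e2]
  ring

theorem cell_one_le {c t x : ℝ × ℝ} (h : 2 ≤ |c.1 - t.1| ∨ 2 ≤ |c.2 - t.2|) (hx : x ∈ cell c) :
    1 ≤ dsq x t := by
  obtain ⟨⟨h1, h2⟩, h3, h4⟩ := hx
  unfold dsq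
  rcases h with h | h
  · rcases le_abs.mp h with h | h <;> nlinarith [sq_nonneg (x.2 - t.2)]
  · rcases le_abs.mp h with h | h <;> nlinarith [sq_nonneg (x.1 - t.1)]

theorem cross_dc (hI : S_int) (hcell : S_cell) {c t : ℝ × ℝ} (hc : 1 ≤ c.2) (ht : 1 ≤ t.2)
    {X Y Z : ℤ} (hX : c.1 - t.1 = X) (hY : c.2 - t.2 = Y) (hZ : c.2 + t.2 = Z)
    (h : 2 ≤ |c.1 - t.1| ∨ 2 ≤ |c.2 - t.2|) :
    1 / 2 * (Real.log (cellLo X Z) - Real.log (cellHi X Y)) ≤ cross (disc t) (cell c) := by
  have hm := (isOpen_cell c).measurableSet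
  have hZ0 : Z ≠ 0 := by
    rintro rfl
    push_cast at hZ
    linarith
  have hXY : (X, Y) ≠ (0, 0) := by
    intro h0
    have hx0 : X = 0 := congrArg Prod.fst h0
    have hy0 : Y = 0 := congrArg Prod.snd h0
    rw [hX, hY, hx0, hy0] at h
    norm_num at h
  have l1 := cell_log hcell (c := c) (b := xb t) (X := X) (Y := Z) (by simpa [xb] using hX)
    (by simpa [xb] using hZ) (fun h0 => hZ0 (congrArg Prod.snd h0))
  have l2 := cell_log hcell (c := c) (b := t) hX hY hXY
  unfold cross
  have e1 : ∫ x in cell c, phi (disc t) x * x.2 =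
      ∫ x in cell c, 1 / 4 * (Real.log (dsq x (xb t)) - Real.log (dsq x t)) := by
    refine setIntegral_congr_fun hm fun x hx => ?_
    rw [phi_disc hI ht (cell_sub hc hx)]
    have : MM (dsq t x) = Real.log (dsq x t) := by
      unfold MM
      rw [dsq_comm t x, if_pos (cell_one_le h hx)]
    rw [this]
  rw [e1, integral_const_mul, integral_sub l1.1 l2.1]
  linarith [l1.2.1, l2.2.2]

theorem cross_dc_self (hI : S_int) (hadd : S_add) (hcell : S_cell) {t : ℝ × ℝ} (ht : 1 ≤ t.2)
    {Z : ℤ} (hZ : t.2 + t.2 = Z) :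
    1 / 2 * Real.log (cellLo 0 Z) + 1 / 3 ≤ cross (disc t) (cell t) := by
  have hm := (isOpen_cell t).measurableSet
  have hZ0 : Z ≠ 0 := by
    rintro rfl
    push_cast at hZ
    linarith
  have l1 := cell_log hcell (c := t) (b := xb t) (X := 0) (Y := Z) (by simp [xb])
    (by simpa [xb] using hZ) (fun h0 => hZ0 (congrArg Prod.snd h0))
  have i2 : IntegrableOn (fun x => dsq t x - 1) (cell t) := by
    refine contOn_bdd ?_ (cell_bdd t)
    unfold dsq
    fun_prop
  have hFd : Fi (disc t) := T21.fi_of_bdd (isOpen_disc t).measurableSet (disc_sub ht) (disc_bdd t)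
  have hFc : Fi (cell t) := T21.fi_of_bdd hm (cell_sub ht) (cell_bdd t)
  unfold cross
  have e1 : ∫ x in cell t, 1 / 4 * (Real.log (dsq x (xb t)) - (dsq t x - 1)) ≤
      ∫ x in cell t, phi (disc t) x * x.2 := by
    refine setIntegral_mono_on ((l1.1.sub i2).const_mul _) (hadd _ _ hFd hFc).2.1 hm fun x hx => ?_
    rw [phi_disc hI ht (cell_sub ht hx)]
    linarith [MM_le (dsq t x)]
  refine le_trans ?_ e1
  rw [integral_const_mul, integral_sub l1.1 i2, cell_self]
  linarith [l1.2.1]

/-- centre of a cell -/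
def em (s : ℤ × ℤ) : ℝ × ℝ := ((s.1 : ℝ), (s.2 : ℝ))

theorem cells_eq (S : Finset (ℤ × ℤ)) : cells 1 S = ⋃ s ∈ S, cell (em s) := by
  ext x
  simp only [cells, mem_iUnion, cell, em, mem_prod, mem_Ioo, one_mul]
  constructor
  · rintro ⟨s, hs, h1, h2, h3, h4⟩
    exact ⟨s, hs, ⟨h1, h2⟩, h3, h4⟩
  · rintro ⟨s, hs, ⟨h1, h2⟩, h3, h4⟩
    exact ⟨s, hs, h1, h2, h3, h4⟩

theorem two_le {m n e : ℤ} (hm : m % 2 = e % 2) (hn : n % 2 = e % 2) (h : m ≠ n) :
    2 ≤ |(m : ℝ) - (n : ℝ)| := by
  have h1 : 2 ≤ |m - n| := by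
    rcases lt_or_gt_of_ne h with h | h
    · rw [abs_of_neg (by omega)]; omega
    · rw [abs_of_pos (by omega)]; omega
  exact_mod_cast h1

theorem t_cells (hI : S_int) (hadd : S_add) (hPDf : S_PDf) (hcell : S_cell) : S_cells := by
  classical
  intro S e hne hS
  set T := cells 1 S with hT
  have hTe : T = ⋃ s ∈ S, cell (em s) := cells_eq S
  have h1 : ∀ s ∈ S, 1 ≤ (em s).2 := by
    intro s hs
    have := (hS s hs).2.2
    change (1:ℝ) ≤ (s.2 : ℝ)
    exact_mod_cast this
  have hsep : ∀ s ∈ S, ∀ t ∈ S, s ≠ t →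
      2 ≤ |(em s).1 - (em t).1| ∨ 2 ≤ |(em s).2 - (em t).2| := by
    intro s hs t ht hst
    by_cases h : s.1 = t.1
    · right
      refine two_le (e := 1) ?_ ?_ (fun h2 => hst (Prod.ext h h2))
      · rw [(hS s hs).2.1]; rfl
      · rw [(hS t ht).2.1]; rfl
    · left
      exact two_le (hS s hs).1 (hS t ht).1 h
  have hdisj : (S : Set (ℤ × ℤ)).PairwiseDisjoint fun s => cell (em s) := by
    intro s hs t ht hst
    rw [Function.onFun, Set.disjoint_left]
    rintro x ⟨⟨a1, a2⟩, a3, a4⟩ ⟨⟨b1, b2⟩, b3, b4⟩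
    rcases hsep s hs t ht hst with h | h
    · rcases le_abs.mp h with h | h <;> linarith
    · rcases le_abs.mp h with h | h <;> linarith
  have hmc : ∀ s ∈ S, MeasurableSet (cell (em s)) := fun s _ => (isOpen_cell _).measurableSet
  have hTm : MeasurableSet T := by
    rw [hTe]
    exact Finset.measurableSet_biUnion S hmc
  have hTs : T ⊆ UH := by
    rw [hTe]
    exact iUnion₂_subset fun s hs => cell_sub (h1 s hs)
  have hTb : Bornology.IsBounded T := by
    rw [hTe, Bornology.isBounded_biUnion_finset]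
    exact fun s _ => cell_bdd _
  have hFT : Fi T := T21.fi_of_bdd hTm hTs hTb
  have hFc : ∀ s ∈ S, Fi (cell (em s)) := fun s hs =>
    T21.fi_of_bdd (hmc s hs) (cell_sub (h1 s hs)) (cell_bdd _)
  have hFd : ∀ s ∈ S, Fi (disc (em s)) := fun s hs =>
    T21.fi_of_bdd (isOpen_disc _).measurableSet (disc_sub (h1 s hs)) (disc_bdd _)
  have har : ar T = 4 * S.card := by
    unfold ar
    rw [hTe, measure_biUnion_finset hdisj hmc]
    simp only [vol_cell, Finset.sum_const, nsmul_eq_mul]
    simp [mul_comm]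
  have hPP : PP T = 4 * ∑ s ∈ S, (s.2 : ℝ) := by
    unfold PP
    rw [hTe, integral_biUnion_finset S hmc hdisj (fun s hs => (hFc s hs).int), Finset.mul_sum]
    exact Finset.sum_congr rfl fun s _ => PP_cell (em s)
  have hPPpos : 0 < PP T := by
    rw [hPP]
    have : 0 < ∑ s ∈ S, (s.2 : ℝ) := by
      refine Finset.sum_pos (fun s hs => ?_) hne
      have := (hS s hs).2.2
      exact_mod_cast this
    linarith
  refine ⟨⟨hTm, hTs, T21.vol_bdd hTb, hFT.int, hPPpos⟩, har, hPP, ?_⟩
  -- the quadratic form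
  have hq := quad hI hadd hPDf (Finset.insertNone S)
    (fun o : Option (ℤ × ℤ) => o.elim T fun s => disc (em s))
    (fun o : Option (ℤ × ℤ) => o.elim (1:ℝ) fun _ => -(4 / π))
    (by
      intro o ho
      cases o with
      | none => exact hFT
      | some s => exact hFd s (Finset.some_mem_insertNone.mp ho))
    (by
      intro o ho
      cases o with
      | none => exact hTb
      | some s => exact disc_bdd _)
  rw [Finset.sum_insertNone] at hq
  simp only [Finset.sum_insertNone, Option.elim] at hq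
  have hcr : ∀ t ∈ S, cross (disc (em t)) T = ∑ s ∈ S, cross (disc (em t)) (cell (em s)) := by
    intro t ht
    unfold cross
    rw [hTe]
    refine integral_biUnion_finset S hmc hdisj fun s hs => ?_
    exact (hadd _ _ (hFd t ht) (hFc s hs)).2.1
  have hsym : ∀ t ∈ S, cross T (disc (em t)) = cross (disc (em t)) T := fun t ht =>
    (hadd _ _ hFT (hFd t ht)).1
  have hE : EE T = 1 / 2 * cross T T := rfl
  have key : ∀ s ∈ S, ∀ t ∈ S, (if s = t then
      (1 / 2 * Real.log ((2 * (s.2 : ℝ)) ^ 4 - 4) - 1 / 4 * Real.log ((2 * (s.2 : ℝ)) ^ 4) + 1 / 12)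
    else
      (1 / 2 * (Real.log ((((s.1 - t.1) ^ 2 + (s.2 + t.2) ^ 2) ^ 2 - 4 : ℤ) : ℝ) -
         Real.log ((((s.1 - t.1) ^ 2 + (s.2 - t.2) ^ 2) ^ 2 + 4 : ℤ) : ℝ)) -
       1 / 4 * (Real.log ((((s.1 - t.1) ^ 2 + (s.2 + t.2) ^ 2) ^ 2 : ℤ) : ℝ) -
         Real.log ((((s.1 - t.1) ^ 2 + (s.2 - t.2) ^ 2) ^ 2 : ℤ) : ℝ)))) ≤
      cross (disc (em t)) (cell (em s)) - 2 / π * cross (disc (em t)) (disc (em s)) := by
    intro s hs t ht
    have hs1 : (1:ℤ) ≤ s.2 := (hS s hs).2.2
    have ht1 : (1:ℤ) ≤ t.2 := (hS t ht).2.2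
    split_ifs with hst
    · subst hst
      have b1 := cross_dc_self hI hadd hcell (t := em s) (h1 s hs) (Z := s.2 + s.2)
        (by simp [em])
      have b2 := cross_dd_self hI (t := em s) (h1 s hs)
      have e1 : cellLo 0 (s.2 + s.2) = (2 * (s.2 : ℝ)) ^ 4 - 4 := by
        unfold cellLo
        rw [if_pos (by nlinarith)]
        push_cast
        ring
      have e2 : dsq (em s) (xb (em s)) = (2 * (s.2 : ℝ)) ^ 2 := by
        unfold dsq xb em
        simp only
        ring
      have e3 : Real.log ((2 * (s.2 : ℝ)) ^ 4) = 2 * Real.log ((2 * (s.2 : ℝ)) ^ 2) := by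
        rw [Real.log_pow, Real.log_pow]
        push_cast
        ring
      rw [e1] at b1
      rw [b2, e2, e3]
      have e4 : 2 / π * (π / 4 * (Real.log ((2 * (s.2 : ℝ)) ^ 2) + 1 / 2)) =
          1 / 2 * Real.log ((2 * (s.2 : ℝ)) ^ 2) + 1 / 4 := by
        have := Real.pi_pos
        field_simp
        ring
      rw [e4]
      linarith
    · have hsp := hsep s hs t ht hst
      have b1 := cross_dc hI hcell (c := em s) (t := em t) (h1 s hs) (h1 t ht) (X := s.1 - t.1)
        (Y := s.2 - t.2) (Z := s.2 + t.2) (by simp [em]) (by simp [em]) (by simp [em]) hsp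
      have hd4 : 4 ≤ dsq (em s) (em t) := by
        unfold dsq
        rcases hsp with h | h
        · have := sq_abs ((em s).1 - (em t).1)
          nlinarith [sq_nonneg ((em s).2 - (em t).2)]
        · have := sq_abs ((em s).2 - (em t).2)
          nlinarith [sq_nonneg ((em s).1 - (em t).1)]
      have b2 := cross_dd hI (c := em s) (t := em t) (h1 s hs) (h1 t ht) hd4
      have d1 : dsq (em s) (em t) = (((s.1 - t.1) ^ 2 + (s.2 - t.2) ^ 2 : ℤ) : ℝ) := by
        unfold dsq em
        push_cast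
        ring
      have d2 : dsq (em s) (xb (em t)) = (((s.1 - t.1) ^ 2 + (s.2 + t.2) ^ 2 : ℤ) : ℝ) := by
        unfold dsq xb em
        push_cast
        ring
      have hi4 : 4 ≤ (s.1 - t.1) ^ 2 + (s.2 - t.2) ^ 2 := by
        rw [d1] at hd4
        exact_mod_cast hd4
      have hi5 : 4 ≤ (s.1 - t.1) ^ 2 + (s.2 + t.2) ^ 2 := by
        nlinarith [sq_nonneg (s.1 - t.1)]
      have e1 : cellLo (s.1 - t.1) (s.2 + t.2) =
          ((((s.1 - t.1) ^ 2 + (s.2 + t.2) ^ 2) ^ 2 - 4 : ℤ) : ℝ) := by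
        unfold cellLo
        rw [if_pos hi5]
      have e2 : cellHi (s.1 - t.1) (s.2 - t.2) =
          ((((s.1 - t.1) ^ 2 + (s.2 - t.2) ^ 2) ^ 2 + 4 : ℤ) : ℝ) := by
        unfold cellHi
        rw [if_pos hi4]
      rw [e1, e2] at b1
      rw [b2, d1, d2]
      have e3 : ∀ m : ℤ, Real.log ((m ^ 2 : ℤ) : ℝ) = 2 * Real.log (m : ℝ) := by
        intro m
        push_cast
        rw [Real.log_pow]
        norm_num
      rw [e3, e3]
      have e4 : ∀ u v : ℝ, 2 / π * (π / 4 * (u - v)) = 1 / 4 * (2 * u - 2 * v) := by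
        intro u v
        have := Real.pi_pos
        field_simp
      rw [e4]
      linarith
  have hsum := Finset.sum_le_sum fun s hs => Finset.sum_le_sum fun t ht => key s hs t ht
  have hpi := Real.pi_pos
  refine le_trans (mul_le_mul_of_nonneg_left hsum (by positivity)) ?_
  have f1 : ∑ s ∈ S, ∑ t ∈ S, (cross (disc (em t)) (cell (em s)) -
      2 / π * cross (disc (em t)) (disc (em s))) =
      ∑ t ∈ S, cross (disc (em t)) T - 2 / π * ∑ s ∈ S, ∑ t ∈ S, cross (disc (em t)) (disc (em s)) := by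
    simp only [Finset.sum_sub_distrib, Finset.mul_sum]
    congr 1
    rw [Finset.sum_comm]
    exact Finset.sum_congr rfl fun t ht => (hcr t ht).symm
  rw [f1, hE]
  have g1 : ∑ x ∈ S, 1 * -(4 / π) * cross (disc (em x)) T = -(4 / π) * ∑ t ∈ S, cross (disc (em t)) T := by
    rw [Finset.mul_sum]
    exact Finset.sum_congr rfl fun t _ => by ring
  have g2 : ∑ x ∈ S, (-(4 / π) * 1 * cross T (disc (em x)) +
      ∑ x_1 ∈ S, -(4 / π) * -(4 / π) * cross (disc (em x_1)) (disc (em x))) =
      -(4 / π) * ∑ t ∈ S, cross (disc (em t)) T +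
      (4 / π) ^ 2 * ∑ s ∈ S, ∑ t ∈ S, cross (disc (em t)) (disc (em s)) := by
    rw [Finset.sum_add_distrib, Finset.mul_sum, Finset.mul_sum]
    congr 1
    · exact Finset.sum_congr rfl fun t ht => by rw [hsym t ht]; ring
    · refine Finset.sum_congr rfl fun s _ => ?_
      rw [Finset.mul_sum]
      exact Finset.sum_congr rfl fun t _ => by ring
  rw [g1, g2] at hq
  set a := ∑ t ∈ S, cross (disc (em t)) T
  set b := ∑ s ∈ S, ∑ t ∈ S, cross (disc (em t)) (disc (em s))
  have k1 : 4 / π * (a - 2 / π * b) = 4 / π * a - 1 / 2 * ((4 / π) ^ 2 * b) := by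
    field_simp
    ring
  rw [k1]
  linarith

end T22

theorem t_cells (hI : S_int) (hadd : S_add) (hPDf : S_PDf) (hcell : S_cell) : S_cells :=
  T22.t_cells hI hadd hPDf hcell

end SV
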