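import Pool.Agent.Helper779.SV.Stmts4

/-!
# T28: test sets
-/

open MeasureTheory Set Filter Topology
open scoped Real

namespace SV.T28

theorem fc_eq (n : ℕ) (f : ℕ → ℕ) : K.fc n f = f n := by cases n <;> rfl

theorem sumN_eq (f : ℕ → ℕ) (n : ℕ) : K.sumN f n = ∑ i ∈ Finset.range n, f i := by
  induction n with
  | zero => rfl
  | succ n ih =>
    rw [Finset.sum_range_succ, ← ih]
    exact Nat.add_comm (f n) (K.sumN f n)

theorem prodN_eq (f : ℕ → ℕ) (n : ℕ) : K.prodN f n = ∏ i ∈ Finset.range n, f i := by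
  induction n with
  | zero => rfl
  | succ n ih =>
    rw [Finset.prod_range_succ, ← ih]
    exact Nat.mul_comm (f n) (K.prodN f n)

theorem allN_eq (f : ℕ → Bool) (n : ℕ) (h : K.allN f n = true) : ∀ i < n, f i = true := by
  induction n with
  | zero => intro i hi; omega
  | succ n ih =>
    have h' : cond (f n) (K.allN f n) false = true := h
    intro i hi
    cases hf : f n with
    | false => rw [hf] at h'; exact absurd h' (by simp)
    | true =>
      rw [hf] at h'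
      rcases Nat.lt_succ_iff_lt_or_eq.1 hi with h1 | h1
      · exact ih h' i h1
      · rw [h1]; exact hf

theorem cond_ble {α : Type} (a b : ℕ) (x y : α) : cond (Nat.ble a b) x y = if a ≤ b then x else y := by
  by_cases h : a ≤ b
  · have h1 : Nat.ble a b = true := by rw [Nat.ble_eq]; exact h
    rw [h1, if_pos h]; rfl
  · have h1 : Nat.ble a b = false := by
      rw [← Bool.not_eq_true, Nat.ble_eq]; exact h
    rw [h1, if_neg h]; rfl

theorem cond_beq {α : Type} (a b : ℕ) (x y : α) : cond (Nat.beq a b) x y = if a = b then x else y := by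
  by_cases h : a = b
  · have h1 : Nat.beq a b = true := by rw [Nat.beq_eq]; exact h
    rw [h1, if_pos h]; rfl
  · have h1 : Nat.beq a b = false := by
      rw [← Bool.not_eq_true, Nat.beq_eq]; exact h
    rw [h1, if_neg h]; rfl

theorem mn_eq (a b : ℕ) : K.mn a b = min a b := by
  unfold K.mn
  rw [cond_ble, min_def]

theorem mult_eq (a b k : ℕ) : K.mult a b k = min (min a b) (min (k + 1) (a + b - (k + 1))) := by
  unfold K.mult
  rw [mn_eq, mn_eq, mn_eq]
  rfl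

theorem dx2_eq (a b k : ℕ) : K.dx2 a b k = ((a : ℤ) + b - 2 - 2 * k).natAbs ^ 2 := by
  unfold K.dx2
  rw [fc_eq]
  have h : K.ad (Nat.add a b) (Nat.mul 2 (Nat.succ k)) = ((a : ℤ) + b - 2 - 2 * k).natAbs := by
    unfold K.ad
    change (a + b - 2 * (k + 1)) + (2 * (k + 1) - (a + b)) = _
    omega
  rw [h, pow_two]
  rfl

/-- the fibres of `(m,j) ↦ m + j` -/
theorem fib (a b k : ℕ) (hk : k < a + b - 1) :
    ((Finset.range a ×ˢ Finset.range b).filter (fun p => p.1 + p.2 = k)).card = K.mult a b k := by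
  rw [mult_eq]
  have h1 : ((Finset.range a ×ˢ Finset.range b).filter (fun p => p.1 + p.2 = k)) =
      (Finset.Ico (k + 1 - b) (min a (k + 1))).image (fun m => (m, k - m)) := by
    ext ⟨m, j⟩
    simp only [Finset.mem_filter, Finset.mem_product, Finset.mem_range, Finset.mem_image,
      Finset.mem_Ico, Prod.mk.injEq]
    constructor
    · rintro ⟨⟨h1, h2⟩, h3⟩
      exact ⟨m, ⟨by omega, by omega⟩, rfl, by omega⟩
    · rintro ⟨m', ⟨h1, h2⟩, h3, h4⟩
      subst h3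
      refine ⟨⟨by omega, by omega⟩, by omega⟩
  rw [h1, Finset.card_image_of_injective _ (fun x y h => by simpa using congrArg Prod.fst h),
    Nat.card_Ico]
  omega

theorem conv (a b : ℕ) (ha : 1 ≤ a) (hb : 1 ≤ b) (G : ℕ → ℝ) :
    ∑ m ∈ Finset.range a, ∑ j ∈ Finset.range b, G (m + j) =
      ∑ k ∈ Finset.range (a + b - 1), (K.mult a b k : ℝ) * G k := by
  rw [← Finset.sum_product']
  rw [← Finset.sum_fiberwise_of_maps_to (s := Finset.range a ×ˢ Finset.range b)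
    (t := Finset.range (a + b - 1)) (g := fun p => p.1 + p.2)]
  · refine Finset.sum_congr rfl (fun k hk => ?_)
    rw [← fib a b k (Finset.mem_range.1 hk), ← nsmul_eq_mul, ← Finset.sum_const]
    refine Finset.sum_congr rfl (fun p hp => ?_)
    rw [(Finset.mem_filter.1 hp).2]
  · intro p hp
    have h1 := Finset.mem_product.1 hp
    have h2 := Finset.mem_range.1 h1.1
    have h3 := Finset.mem_range.1 h1.2
    rw [Finset.mem_range]
    omega

theorem pair_sum (a b : ℕ) (ha : 1 ≤ a) (hb : 1 ≤ b) (G : ℕ → ℝ) :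
    ∑ m ∈ Finset.range a, ∑ j ∈ Finset.range b, G (((b : ℤ) - a + 2 * m - 2 * j).natAbs ^ 2) =
      ∑ k ∈ Finset.range (a + b - 1), (K.mult a b k : ℝ) * G (K.dx2 a b k) := by
  have h1 : ∀ m ∈ Finset.range a,
      ∑ j ∈ Finset.range b, G (((b : ℤ) - a + 2 * m - 2 * j).natAbs ^ 2) =
      ∑ j ∈ Finset.range b, G (K.dx2 a b (m + j)) := by
    intro m _
    rw [← Finset.sum_range_reflect]
    refine Finset.sum_congr rfl (fun j hj => ?_)
    have hj := Finset.mem_range.1 hj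
    rw [dx2_eq]
    congr 2
    omega
  rw [Finset.sum_congr rfl h1]
  exact conv a b ha hb (fun k => G (K.dx2 a b k))

def NU (F M : ℕ) : ℕ := ((F * F - 4) * (F * F - 4)) * (M * M)
def DE (F M : ℕ) : ℕ := ((M * M + 4) * (M * M + 4)) * (F * F)

noncomputable def hR (F M : ℕ) : ℝ :=
  2 * Real.log ((F : ℝ) ^ 2 - 4) - 2 * Real.log ((M : ℝ) ^ 2 + 4) - Real.log ((F : ℝ) ^ 2) +
    Real.log ((M : ℝ) ^ 2)

noncomputable def H (d f g : ℕ) : ℝ := if d + g = 0 then 0 else hR (d + f) (d + g)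

theorem DE_pos {F M : ℕ} (hF : 1 ≤ F) : 0 < DE F M := by
  unfold DE
  positivity

theorem DE_le {F M : ℕ} (hM : 4 ≤ M) (hF : M + 4 ≤ F) : DE F M ≤ NU F M := by
  have h1 : (M * M + 4) * F ≤ (F * F - 4) * M := by
    have h2 : (M * M + 4) * F + 4 * M ≤ F * F * M := by
      obtain ⟨t, rfl⟩ := Nat.exists_eq_add_of_le hF
      obtain ⟨u, rfl⟩ := Nat.exists_eq_add_of_le hM
      nlinarith [Nat.zero_le (t * u), Nat.zero_le (t * t), Nat.zero_le (u * u),
        Nat.zero_le (t * t * u), Nat.zero_le (t * u * u)]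
    have h3 : (F * F - 4) * M = F * F * M - 4 * M := Nat.sub_mul _ _ _
    omega
  have h4 := Nat.mul_le_mul h1 h1
  unfold DE NU
  calc (M * M + 4) * (M * M + 4) * (F * F) = (M * M + 4) * F * ((M * M + 4) * F) := by ring
    _ ≤ _ := h4
    _ = _ := by ring

theorem log_NU {F M : ℕ} (hF : 3 ≤ F) (hM : 1 ≤ M) :
    Real.log (NU F M : ℝ) - Real.log (DE F M : ℝ) = hR F M := by
  have h4 : 4 ≤ F * F := by nlinarith
  have hF' : (3 : ℝ) ≤ F := by exact_mod_cast hF
  have hM' : (1 : ℝ) ≤ M := by exact_mod_cast hM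
  have e1 : ((F * F - 4 : ℕ) : ℝ) = (F : ℝ) ^ 2 - 4 := by
    rw [Nat.cast_sub h4]
    push_cast
    ring
  have e2 : (NU F M : ℝ) = ((F : ℝ) ^ 2 - 4) * ((F : ℝ) ^ 2 - 4) * (M : ℝ) ^ 2 := by
    unfold NU
    rw [Nat.cast_mul, Nat.cast_mul, e1]
    push_cast
    ring
  have e3 : (DE F M : ℝ) = ((M : ℝ) ^ 2 + 4) * ((M : ℝ) ^ 2 + 4) * (F : ℝ) ^ 2 := by
    unfold DE
    push_cast
    ring
  have p1 : (F : ℝ) ^ 2 - 4 ≠ 0 := by nlinarith
  have p2 : (M : ℝ) ^ 2 + 4 ≠ 0 := by positivity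
  have p3 : (F : ℝ) ^ 2 ≠ 0 := by positivity
  have p4 : (M : ℝ) ^ 2 ≠ 0 := by positivity
  rw [e2, e3, Real.log_mul (mul_ne_zero p1 p1) p4, Real.log_mul p1 p1,
    Real.log_mul (mul_ne_zero p2 p2) p3, Real.log_mul p2 p2]
  unfold hR
  ring

theorem tnum_eq (a b f g : ℕ) : K.tnum a b f g = ∏ k ∈ Finset.range (a + b - 1),
    (if K.dx2 a b k + g = 0 then 1 else NU (K.dx2 a b k + f) (K.dx2 a b k + g) ^ K.mult a b k) := by
  unfold K.tnum
  rw [prodN_eq]
  refine Finset.prod_congr rfl (fun k _ => ?_)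
  simp only [fc_eq]
  rw [cond_beq]
  rfl

theorem tden_eq (a b f g : ℕ) : K.tden a b f g = ∏ k ∈ Finset.range (a + b - 1),
    (if K.dx2 a b k + g = 0 then 1 else DE (K.dx2 a b k + f) (K.dx2 a b k + g) ^ K.mult a b k) := by
  unfold K.tden
  rw [prodN_eq]
  refine Finset.prod_congr rfl (fun k _ => ?_)
  simp only [fc_eq]
  rw [cond_beq]
  rfl

/-- the product bound -/
theorem prod_bound (h2 : S_LL) (a b f g : ℕ)
    (hM : ∀ k < a + b - 1, K.dx2 a b k + g ≠ 0 → 4 ≤ K.dx2 a b k + g) (hfg : g + 4 ≤ f) :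
    K.tden a b f g ≤ K.tnum a b f g ∧
    (K.LL (K.tnum a b f g) (K.tden a b f g) : ℝ) / 16384 * Real.log 2 ≤
      ∑ k ∈ Finset.range (a + b - 1), (K.mult a b k : ℝ) * H (K.dx2 a b k) f g := by
  have hle : K.tden a b f g ≤ K.tnum a b f g := by
    rw [tnum_eq, tden_eq]
    refine Finset.prod_le_prod' (fun k hk => ?_)
    split_ifs with h
    · exact le_rfl
    · exact Nat.pow_le_pow_left (DE_le (hM k (Finset.mem_range.1 hk) h) (by omega)) _
  have hpos : 0 < K.tden a b f g := by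
    rw [tden_eq]
    refine Finset.prod_pos (fun k hk => ?_)
    split_ifs with h
    · exact one_pos
    · exact pow_pos (DE_pos (by omega)) _
  refine ⟨hle, (h2 _ _ hpos hle).trans (le_of_eq ?_)⟩
  have n1 : (K.tnum a b f g : ℝ) ≠ 0 := by
    have : 0 < K.tnum a b f g := lt_of_lt_of_le hpos hle
    positivity
  have n2 : (K.tden a b f g : ℝ) ≠ 0 := by positivity
  rw [Real.log_div n1 n2]
  have l1 : Real.log (K.tnum a b f g : ℝ) = ∑ k ∈ Finset.range (a + b - 1),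
      (if K.dx2 a b k + g = 0 then 0 else
        (K.mult a b k : ℝ) * Real.log (NU (K.dx2 a b k + f) (K.dx2 a b k + g) : ℝ)) := by
    rw [tnum_eq] at n1 ⊢
    rw [Nat.cast_prod] at n1 ⊢
    rw [Real.log_prod (fun k hk => Finset.prod_ne_zero_iff.1 n1 k hk)]
    refine Finset.sum_congr rfl (fun k _ => ?_)
    split_ifs with h
    · simp
    · rw [Nat.cast_pow, Real.log_pow]
  have l2 : Real.log (K.tden a b f g : ℝ) = ∑ k ∈ Finset.range (a + b - 1),
      (if K.dx2 a b k + g = 0 then 0 else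
        (K.mult a b k : ℝ) * Real.log (DE (K.dx2 a b k + f) (K.dx2 a b k + g) : ℝ)) := by
    rw [tden_eq] at n2 ⊢
    rw [Nat.cast_prod] at n2 ⊢
    rw [Real.log_prod (fun k hk => Finset.prod_ne_zero_iff.1 n2 k hk)]
    refine Finset.sum_congr rfl (fun k _ => ?_)
    split_ifs with h
    · simp
    · rw [Nat.cast_pow, Real.log_pow]
  rw [l1, l2, ← Finset.sum_sub_distrib]
  refine Finset.sum_congr rfl (fun k hk => ?_)
  unfold H
  split_ifs with h
  · simp
  · have h4 := hM k (Finset.mem_range.1 hk) h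
    rw [← mul_sub, log_NU (by omega) (by omega)]

/-- the summand of `S_cells` -/
noncomputable def Ph (s t : ℤ × ℤ) : ℝ := if s = t then
      (1 / 2 * Real.log ((2 * (s.2 : ℝ)) ^ 4 - 4) - 1 / 4 * Real.log ((2 * (s.2 : ℝ)) ^ 4) + 1 / 12)
    else
      (1 / 2 * (Real.log ((((s.1 - t.1) ^ 2 + (s.2 + t.2) ^ 2) ^ 2 - 4 : ℤ) : ℝ) -
         Real.log ((((s.1 - t.1) ^ 2 + (s.2 - t.2) ^ 2) ^ 2 + 4 : ℤ) : ℝ)) -
       1 / 4 * (Real.log ((((s.1 - t.1) ^ 2 + (s.2 + t.2) ^ 2) ^ 2 : ℤ) : ℝ) -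
         Real.log ((((s.1 - t.1) ^ 2 + (s.2 - t.2) ^ 2) ^ 2 : ℤ) : ℝ)))

theorem Ph_symm (s t : ℤ × ℤ) : Ph s t = Ph t s := by
  unfold Ph
  by_cases h : s = t
  · rw [h]
  · have h' : ¬ t = s := fun e => h e.symm
    rw [if_neg h, if_neg h']
    have e1 : (s.1 - t.1) ^ 2 = (t.1 - s.1) ^ 2 := by ring
    have e2 : (s.2 + t.2) ^ 2 = (t.2 + s.2) ^ 2 := by ring
    have e3 : (s.2 - t.2) ^ 2 = (t.2 - s.2) ^ 2 := by ring
    rw [e1, e2, e3]

theorem Ph_ne {s t : ℤ × ℤ} (h : s ≠ t) (F M : ℕ) (hF : (s.1 - t.1) ^ 2 + (s.2 + t.2) ^ 2 = (F : ℤ))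
    (hM : (s.1 - t.1) ^ 2 + (s.2 - t.2) ^ 2 = (M : ℤ)) : 4 * Ph s t = hR F M := by
  unfold Ph hR
  rw [if_neg h, hF, hM]
  push_cast
  ring

/-- cell `m` of row `r` -/
def cl (n : ℕ → ℕ) (r m : ℕ) : ℤ × ℤ := (-(n r : ℤ) + 1 + 2 * m, 2 * r + 1)

/-- rows -/
noncomputable def Q (n : ℕ → ℕ) (r s : ℕ) : ℝ :=
  ∑ m ∈ Finset.range (n r), ∑ j ∈ Finset.range (n s), Ph (cl n r m) (cl n s j)

theorem Q_symm (n : ℕ → ℕ) (r s : ℕ) : Q n r s = Q n s r := by
  unfold Q
  rw [Finset.sum_comm]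
  exact Finset.sum_congr rfl (fun _ _ => Finset.sum_congr rfl (fun _ _ => Ph_symm _ _))

theorem sum_sq (q : ℕ → ℕ → ℝ) (hq : ∀ r s, q r s = q s r) (R : ℕ) :
    ∑ r ∈ Finset.range R, ∑ s ∈ Finset.range R, q r s =
      ∑ r ∈ Finset.range R, (q r r + 2 * ∑ s ∈ Finset.range r, q r s) := by
  induction R with
  | zero => simp
  | succ R ih =>
    rw [Finset.sum_range_succ, Finset.sum_range_succ (fun r => q r r + 2 * ∑ s ∈ Finset.range r, q r s),
      ← ih]
    have h1 : ∑ x ∈ Finset.range R, ∑ s ∈ Finset.range (R + 1), q x s =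
        ∑ x ∈ Finset.range R, ∑ s ∈ Finset.range R, q x s + ∑ x ∈ Finset.range R, q R x := by
      rw [← Finset.sum_add_distrib]
      refine Finset.sum_congr rfl (fun x _ => ?_)
      rw [Finset.sum_range_succ, hq x R]
    rw [h1, Finset.sum_range_succ]
    ring

theorem pair_ne (n : ℕ → ℕ) (r s : ℕ) (hsr : s < r) (hr : 1 ≤ n r) (hs : 1 ≤ n s) :
    4 * Q n r s = ∑ k ∈ Finset.range (n r + n s - 1), (K.mult (n r) (n s) k : ℝ) *
      H (K.dx2 (n r) (n s) k) (4 * ((r + (s + 1)) * (r + (s + 1)))) (4 * ((r - s) * (r - s))) := by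
  rw [← pair_sum (n r) (n s) hr hs
    (fun d => H d (4 * ((r + (s + 1)) * (r + (s + 1)))) (4 * ((r - s) * (r - s))))]
  unfold Q
  rw [Finset.mul_sum]
  refine Finset.sum_congr rfl (fun m _ => ?_)
  rw [Finset.mul_sum]
  refine Finset.sum_congr rfl (fun j _ => ?_)
  have hne : cl n r m ≠ cl n s j := by
    intro h
    have := congrArg Prod.snd h
    simp only [cl] at this
    omega
  have hg : 1 ≤ (r - s) * (r - s) := Nat.mul_pos (by omega) (by omega)
  unfold H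
  rw [if_neg (by omega)]
  have hsq : ∀ z : ℤ, ((z.natAbs ^ 2 : ℕ) : ℤ) = z ^ 2 := by
    intro z
    rw [Nat.cast_pow, Int.natCast_natAbs, sq_abs]
  have hrs : ((r - s : ℕ) : ℤ) = (r : ℤ) - s := by omega
  apply Ph_ne hne
  · rw [Nat.cast_add, hsq]
    push_cast
    simp only [cl]
    ring
  · rw [Nat.cast_add, hsq]
    push_cast
    rw [hrs]
    simp only [cl]
    ring

theorem pair_eq (n : ℕ → ℕ) (r : ℕ) (hr : 1 ≤ n r) :
    4 * Q n r r = (n r : ℝ) * (2 * Real.log ((4 * (r : ℝ) + 2) ^ 4 - 4) -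
        Real.log ((4 * (r : ℝ) + 2) ^ 4) + 1 / 3) +
      ∑ k ∈ Finset.range (n r + n r - 1), (K.mult (n r) (n r) k : ℝ) *
      H (K.dx2 (n r) (n r) k) (4 * ((r + (r + 1)) * (r + (r + 1)))) (4 * ((r - r) * (r - r))) := by
  rw [← pair_sum (n r) (n r) hr hr
    (fun d => H d (4 * ((r + (r + 1)) * (r + (r + 1)))) (4 * ((r - r) * (r - r))))]
  unfold Q
  rw [Finset.mul_sum]
  have hcard : (n r : ℝ) * (2 * Real.log ((4 * (r : ℝ) + 2) ^ 4 - 4) -
        Real.log ((4 * (r : ℝ) + 2) ^ 4) + 1 / 3) = ∑ m ∈ Finset.range (n r),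
      ∑ j ∈ Finset.range (n r), if j = m then (2 * Real.log ((4 * (r : ℝ) + 2) ^ 4 - 4) -
        Real.log ((4 * (r : ℝ) + 2) ^ 4) + 1 / 3) else 0 := by
    rw [← nsmul_eq_mul, ← Finset.card_range (n r), ← Finset.sum_const, Finset.card_range]
    refine Finset.sum_congr rfl (fun m hm => ?_)
    rw [Finset.sum_ite_eq' _ _ _, if_pos hm]
  rw [hcard, ← Finset.sum_add_distrib]
  refine Finset.sum_congr rfl (fun m _ => ?_)
  rw [Finset.mul_sum, ← Finset.sum_add_distrib]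
  refine Finset.sum_congr rfl (fun j _ => ?_)
  have hsq : ∀ z : ℤ, ((z.natAbs ^ 2 : ℕ) : ℤ) = z ^ 2 := by
    intro z
    rw [Nat.cast_pow, Int.natCast_natAbs, sq_abs]
  by_cases hjm : j = m
  · rw [if_pos hjm, hjm]
    unfold H
    rw [if_pos (by simp)]
    unfold Ph
    rw [if_pos rfl]
    simp only [cl]
    push_cast
    have e : (2 * (2 * (r : ℝ) + 1)) = 4 * r + 2 := by ring
    rw [e]
    ring
  · rw [if_neg hjm, zero_add]
    have hne : cl n r m ≠ cl n r j := by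
      intro h
      have := congrArg Prod.fst h
      simp only [cl] at this
      omega
    unfold H
    have hnz : ¬ ((((n r : ℤ) - (n r : ℤ) + 2 * m - 2 * j).natAbs) ^ 2 + 4 * ((r - r) * (r - r)) = 0) := by
      intro h0
      have h1 : (((n r : ℤ) - (n r : ℤ) + 2 * m - 2 * j).natAbs) ^ 2 = 0 := by omega
      have h2 : ((n r : ℤ) - (n r : ℤ) + 2 * m - 2 * j).natAbs = 0 := by
        rwa [sq_eq_zero_iff] at h1
      omega
    rw [if_neg hnz]
    apply Ph_ne hne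
    · rw [Nat.cast_add, hsq]
      push_cast
      simp only [cl]
      ring
    · rw [Nat.cast_add, hsq]
      simp only [cl, Nat.sub_self]
      push_cast
      ring

theorem tpair_eq (A r s : ℕ) : K.tpair A r s =
    (if K.tden (K.dg A 16 r) (K.dg A 16 s) (4 * ((r + (s + 1)) * (r + (s + 1)))) (4 * ((r - s) * (r - s))) ≤
      K.tnum (K.dg A 16 r) (K.dg A 16 s) (4 * ((r + (s + 1)) * (r + (s + 1)))) (4 * ((r - s) * (r - s))) then
      K.LL (K.tnum (K.dg A 16 r) (K.dg A 16 s) (4 * ((r + (s + 1)) * (r + (s + 1)))) (4 * ((r - s) * (r - s))))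
        (K.tden (K.dg A 16 r) (K.dg A 16 s) (4 * ((r + (s + 1)) * (r + (s + 1)))) (4 * ((r - s) * (r - s))))
      else 0) := by
  unfold K.tpair
  simp only [fc_eq]
  rw [cond_ble]
  rfl

theorem tpair_le (h2 : S_LL) (A r s : ℕ) (hsr : s ≤ r) :
    (K.tpair A r s : ℝ) / 16384 * Real.log 2 ≤
      ∑ k ∈ Finset.range (K.dg A 16 r + K.dg A 16 s - 1), (K.mult (K.dg A 16 r) (K.dg A 16 s) k : ℝ) *
      H (K.dx2 (K.dg A 16 r) (K.dg A 16 s) k) (4 * ((r + (s + 1)) * (r + (s + 1)))) (4 * ((r - s) * (r - s))) := by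
  have hfg : 4 * ((r - s) * (r - s)) + 4 ≤ 4 * ((r + (s + 1)) * (r + (s + 1))) := by
    obtain ⟨t, rfl⟩ := Nat.exists_eq_add_of_le hsr
    have : s + t - s = t := by omega
    rw [this]
    nlinarith [Nat.zero_le (s * t), Nat.zero_le (s * s), Nat.zero_le s, Nat.zero_le t]
  have hM : ∀ k < K.dg A 16 r + K.dg A 16 s - 1, K.dx2 (K.dg A 16 r) (K.dg A 16 s) k +
      4 * ((r - s) * (r - s)) ≠ 0 → 4 ≤ K.dx2 (K.dg A 16 r) (K.dg A 16 s) k + 4 * ((r - s) * (r - s)) := by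
    intro k _ h
    rcases hsr.eq_or_lt with h1 | h1
    · subst h1
      rw [dx2_eq] at h ⊢
      have e : ((K.dg A 16 s : ℤ) + (K.dg A 16 s : ℤ) - 2 - 2 * k) =
          2 * ((K.dg A 16 s : ℤ) - 1 - k) := by ring
      rw [e, Int.natAbs_mul, mul_pow] at h ⊢
      have e2 : (2 : ℤ).natAbs ^ 2 = 4 := by decide
      rw [e2] at h ⊢
      omega
    · have hg : 1 ≤ (r - s) * (r - s) := Nat.mul_pos (by omega) (by omega)
      omega
  obtain ⟨hle, hb⟩ := prod_bound h2 _ _ _ _ hM hfg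
  rw [tpair_eq, if_pos hle]
  exact hb

theorem tself_le (h2 : S_LL) (A r : ℕ) :
    (K.tself A r : ℝ) / 16384 * Real.log 2 ≤ (K.dg A 16 r : ℝ) *
      (2 * Real.log ((4 * (r : ℝ) + 2) ^ 4 - 4) - Real.log ((4 * (r : ℝ) + 2) ^ 4)) := by
  have e : K.tself A r = K.dg A 16 r * K.LL (((4 * r + 2) ^ 4 - 4) * ((4 * r + 2) ^ 4 - 4)) ((4 * r + 2) ^ 4) := by
    unfold K.tself
    rw [fc_eq]
    rfl
  have hz : 16 ≤ (4 * r + 2) ^ 4 := by
    calc 16 = 2 ^ 4 := by norm_num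
      _ ≤ _ := Nat.pow_le_pow_left (by omega) 4
  set z := (4 * r + 2) ^ 4 with hzdef
  have hle : z ≤ (z - 4) * (z - 4) := by
    obtain ⟨t, ht⟩ := Nat.exists_eq_add_of_le hz
    have : z - 4 = 12 + t := by omega
    rw [this, ht]
    nlinarith [Nat.zero_le (t * t)]
  have h3 := h2 ((z - 4) * (z - 4)) z (by omega) hle
  have hzR : (z : ℝ) = (4 * (r : ℝ) + 2) ^ 4 := by rw [hzdef]; push_cast; ring
  have hz16 : (16 : ℝ) ≤ (4 * (r : ℝ) + 2) ^ 4 := by rw [← hzR]; exact_mod_cast hz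
  have e4 : ((z - 4 : ℕ) : ℝ) = (4 * (r : ℝ) + 2) ^ 4 - 4 := by
    rw [Nat.cast_sub (by omega), hzR]
    norm_num
  rw [Nat.cast_mul, e4, hzR, Real.log_div (by nlinarith) (by nlinarith),
    Real.log_mul (by nlinarith) (by nlinarith)] at h3
  rw [e, Nat.cast_mul]
  have hn : (0 : ℝ) ≤ (K.dg A 16 r : ℝ) := Nat.cast_nonneg _
  have h5 := mul_le_mul_of_nonneg_left h3 hn
  calc (K.dg A 16 r : ℝ) * (K.LL ((z - 4) * (z - 4)) z : ℝ) / 16384 * Real.log 2 =
      (K.dg A 16 r : ℝ) * ((K.LL ((z - 4) * (z - 4)) z : ℝ) / 16384 * Real.log 2) := by ring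
    _ ≤ _ := h5
    _ = _ := by ring

end SV.T28

namespace SV

open T28

theorem t_tset (h1 : S_cells) (h2 : S_LL) : S_tset := by
  intro A R hpar
  set n : ℕ → ℕ := fun r => K.dg A 16 r with hn
  have hR : 1 ≤ R ∧ K.allN (fun r => cond (Nat.ble 1 (K.dg A 16 r))
      (Nat.beq (Nat.mod (K.dg A 16 r) 2) (Nat.mod (K.dg A 16 0) 2)) false) R = true := by
    have h := hpar
    unfold K.tpar at h
    rw [cond_ble] at h
    by_cases hR : 1 ≤ R
    · rw [if_pos hR] at h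
      exact ⟨hR, h⟩
    · rw [if_neg hR] at h
      exact absurd h (by simp)
  have hrow : ∀ r < R, 1 ≤ n r ∧ n r % 2 = n 0 % 2 := by
    intro r hr
    have h := allN_eq _ _ hR.2 r hr
    rw [cond_ble] at h
    by_cases h3 : 1 ≤ K.dg A 16 r
    · rw [if_pos h3, Nat.beq_eq] at h
      exact ⟨h3, h⟩
    · rw [if_neg h3] at h
      exact absurd h (by simp)
  set S : Finset (ℤ × ℤ) := ((Finset.range R).sigma (fun r => Finset.range (n r))).image
    (fun p => cl n p.1 p.2) with hS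
  have hinj : Set.InjOn (fun p : (Σ _ : ℕ, ℕ) => cl n p.1 p.2)
      ((Finset.range R).sigma (fun r => Finset.range (n r)) : Set (Σ _ : ℕ, ℕ)) := by
    rintro ⟨r, m⟩ - ⟨r', m'⟩ - h
    have e1 := congrArg Prod.snd h
    simp only [cl] at e1
    have e2 : r = r' := by omega
    subst e2
    have e3 := congrArg Prod.fst h
    simp only [cl] at e3
    have e4 : m = m' := by omega
    rw [e4]
  have hsum : ∀ g : ℤ × ℤ → ℝ, ∑ s ∈ S, g s = ∑ r ∈ Finset.range R, ∑ m ∈ Finset.range (n r), g (cl n r m) := by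
    intro g
    rw [hS, Finset.sum_image hinj, Finset.sum_sigma]
  have hne : S.Nonempty := by
    refine ⟨cl n 0 0, ?_⟩
    rw [hS, Finset.mem_image]
    refine ⟨⟨0, 0⟩, ?_, rfl⟩
    rw [Finset.mem_sigma, Finset.mem_range, Finset.mem_range]
    exact ⟨hR.1, (hrow 0 hR.1).1⟩
  obtain ⟨c1, c2, c3, c4⟩ := h1 S (1 - n 0 : ℤ) hne (by
    intro s hs
    rw [hS, Finset.mem_image] at hs
    obtain ⟨⟨r, m⟩, hm, rfl⟩ := hs
    rw [Finset.mem_sigma, Finset.mem_range, Finset.mem_range] at hm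
    have := (hrow r hm.1).2
    simp only [cl]
    omega)
  refine ⟨cells 1 S, c1, ?_, ?_, ?_, ?_⟩
  · have hb : cells 1 S ⊆ ⋃ s ∈ S, Set.Icc (((s.1 : ℝ) - 1, (s.2 : ℝ) - 1) : ℝ × ℝ) ((s.1 : ℝ) + 1, (s.2 : ℝ) + 1) := by
      rintro x ⟨s, hs, h1, h2, h3, h4⟩
      rw [Set.mem_iUnion₂]
      refine ⟨s, hs, ?_⟩
      rw [one_mul] at h1 h2 h3 h4
      exact ⟨⟨h1.le, h3.le⟩, ⟨h2.le, h4.le⟩⟩
    refine Bornology.IsBounded.subset ?_ hb
    rw [Bornology.isBounded_biUnion_finset]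
    intro s _
    exact Metric.isBounded_Icc _ _
  · rw [c2]
    congr 1
    have e1 : (S.card : ℝ) = ∑ s ∈ S, (1 : ℝ) := by rw [Finset.sum_const, nsmul_eq_mul, mul_one]
    rw [e1, hsum]
    unfold K.tcnt
    rw [sumN_eq]
    push_cast
    refine Finset.sum_congr rfl (fun r _ => ?_)
    rw [Finset.sum_const, nsmul_eq_mul, mul_one, Finset.card_range]
  · rw [c3]
    congr 1
    rw [hsum (fun s => (s.2 : ℝ))]
    unfold K.tP
    rw [sumN_eq, Nat.cast_sum]
    refine Finset.sum_congr rfl (fun r _ => ?_)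
    rw [Finset.sum_congr rfl (fun m _ => show (((cl n r m).2 : ℤ) : ℝ) = 2 * (r : ℝ) + 1 by
      simp [cl]), Finset.sum_const, nsmul_eq_mul, Finset.card_range]
    change (n r : ℝ) * _ = ((n r * (2 * r + 1) : ℕ) : ℝ)
    push_cast
    ring
  · have c5 : 4 * (∑ s ∈ S, ∑ t ∈ S, Ph s t) ≤ π * EE (cells 1 S) := by
      have hpi := Real.pi_pos
      have := mul_le_mul_of_nonneg_left c4 hpi.le
      calc 4 * (∑ s ∈ S, ∑ t ∈ S, Ph s t) = π * ((4 / π) * ∑ s ∈ S, ∑ t ∈ S, Ph s t) := by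
            field_simp
        _ ≤ _ := this
    refine le_trans ?_ c5
    have e1 : ∑ s ∈ S, ∑ t ∈ S, Ph s t = ∑ r ∈ Finset.range R, ∑ s ∈ Finset.range R, Q n r s := by
      rw [hsum (fun s => ∑ t ∈ S, Ph s t)]
      refine Finset.sum_congr rfl (fun r _ => ?_)
      unfold Q
      rw [Finset.sum_comm' (s := Finset.range R) (t := fun _ => Finset.range (n r))
        (s' := fun _ => Finset.range R) (t' := Finset.range (n r)) (by
          intro x y
          simp only [Finset.mem_range])]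
      refine Finset.sum_congr rfl (fun m _ => ?_)
      exact hsum (fun t => Ph (cl n r m) t)
    rw [e1, sum_sq (Q n) (Q_symm n), Finset.mul_sum]
    have hrowb : ∀ r ∈ Finset.range R,
        ((K.tself A r + K.tpair A r r + 2 * ∑ s ∈ Finset.range r, K.tpair A r s : ℕ) : ℝ) / 16384 * Real.log 2 +
          (K.dg A 16 r : ℝ) / 3 ≤ 4 * (Q n r r + 2 * ∑ s ∈ Finset.range r, Q n r s) := by
      intro r hr
      have hr' := Finset.mem_range.1 hr
      have q1 := pair_eq n r (hrow r hr').1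
      have q2 := tpair_le h2 A r r le_rfl
      have q3 := tself_le h2 A r
      have q4 : ∑ s ∈ Finset.range r, (K.tpair A r s : ℝ) / 16384 * Real.log 2 ≤
          ∑ s ∈ Finset.range r, 4 * Q n r s := by
        refine Finset.sum_le_sum (fun s hs => ?_)
        have hs' := Finset.mem_range.1 hs
        rw [pair_ne n r s hs' (hrow r hr').1 (hrow s (by omega)).1]
        exact tpair_le h2 A r s hs'.le
      rw [← Finset.mul_sum, ← Finset.sum_mul, ← Finset.sum_div] at q4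
      push_cast
      have q5 : ((K.tself A r : ℝ) + (K.tpair A r r : ℝ) + 2 * ∑ s ∈ Finset.range r, (K.tpair A r s : ℝ)) / 16384 *
          Real.log 2 = (K.tself A r : ℝ) / 16384 * Real.log 2 + (K.tpair A r r : ℝ) / 16384 * Real.log 2 +
          2 * ((∑ s ∈ Finset.range r, (K.tpair A r s : ℝ)) / 16384 * Real.log 2) := by ring
      rw [q5, mul_add, q1]
      have q6 : 4 * (2 * ∑ s ∈ Finset.range r, Q n r s) = 2 * (4 * ∑ s ∈ Finset.range r, Q n r s) := by ring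
      rw [q6]
      have q7 : (n r : ℝ) * (2 * Real.log ((4 * (r : ℝ) + 2) ^ 4 - 4) -
        Real.log ((4 * (r : ℝ) + 2) ^ 4) + 1 / 3) = (K.dg A 16 r : ℝ) *
        (2 * Real.log ((4 * (r : ℝ) + 2) ^ 4 - 4) - Real.log ((4 * (r : ℝ) + 2) ^ 4)) +
        (K.dg A 16 r : ℝ) / 3 := by
        rw [hn]; ring
      rw [q7]
      linarith
    refine le_trans ?_ (Finset.sum_le_sum hrowb)
    rw [Finset.sum_add_distrib, ← Finset.sum_mul, ← Finset.sum_div, ← Finset.sum_div, ← Nat.cast_sum,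
      ← Nat.cast_sum]
    have e2 : ∑ r ∈ Finset.range R, (K.tself A r + K.tpair A r r + 2 * ∑ s ∈ Finset.range r, K.tpair A r s) =
        K.tsum A R := by
      unfold K.tsum
      rw [sumN_eq]
      refine Finset.sum_congr rfl (fun r _ => ?_)
      rw [sumN_eq]
      rfl
    have e3 : ∑ r ∈ Finset.range R, K.dg A 16 r = K.tcnt A R := by
      unfold K.tcnt
      rw [sumN_eq]
    have e4 : K.tE A R = K.tsum A R * 6931471803 + K.tcnt A R * 54613333333333 := rfl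
    rw [e2, e3, e4]
    push_cast
    have hl := Real.log_two_gt_d9
    have p1 : (0 : ℝ) ≤ (K.tsum A R : ℝ) := Nat.cast_nonneg _
    have p2 : (0 : ℝ) ≤ (K.tcnt A R : ℝ) := Nat.cast_nonneg _
    have p3 : (K.tsum A R : ℝ) * 0.6931471803 ≤ (K.tsum A R : ℝ) * Real.log 2 :=
      mul_le_mul_of_nonneg_left hl.le p1
    have p4 : ((K.tsum A R : ℝ) * 6931471803 + (K.tcnt A R : ℝ) * 54613333333333) / 163840000000000 =
        (K.tsum A R : ℝ) * 0.6931471803 / 16384 + (K.tcnt A R : ℝ) * (54613333333333 / 163840000000000) := by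
      norm_num
      ring
    rw [p4]
    have p5 : (K.tcnt A R : ℝ) * (54613333333333 / 163840000000000) ≤ (K.tcnt A R : ℝ) / 3 := by
      rw [div_eq_mul_inv (K.tcnt A R : ℝ) 3]
      exact mul_le_mul_of_nonneg_left (by norm_num) p2
    have p6 : (K.tsum A R : ℝ) / 16384 * Real.log 2 = (K.tsum A R : ℝ) * Real.log 2 / 16384 := by ring
    rw [p6]
    have p7 : (K.tsum A R : ℝ) * 0.6931471803 / 16384 ≤ (K.tsum A R : ℝ) * Real.log 2 / 16384 :=
      div_le_div_of_nonneg_right p3 (by norm_num)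
    linarith

end SV
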