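import Pool.Agent.Helper779.SV.Asm1
import Pool.Agent.Helper779.SV.T04
import Pool.Agent.Helper779.SV.T05
import Pool.Agent.Helper779.SV.T22a
import Pool.Agent.Helper779.SV.T22b
import Pool.Agent.Helper779.SV.T28
import Pool.Agent.Helper779.SV.DS1_0
import Pool.Agent.Helper779.SV.DS1_1
import Pool.Agent.Helper779.SV.DS2_0
import Pool.Agent.Helper779.SV.DS3_0
import Pool.Agent.Helper779.SV.DS4_0
import Pool.Agent.Helper779.SV.DL1
import Pool.Agent.Helper779.SV.DL2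
import Pool.Agent.Helper779.SV.DL3
import Pool.Agent.Helper779.SV.DL4
import Pool.Agent.Helper779.SV.DTS

/-!
# Assembly 2: lower solutions and test sets
-/

open MeasureTheory Set Filter Topology
open scoped Real

namespace SV

/-- confinement with a mass bound -/
theorem low_gen (RS N C qn Bn m100 qb T XD YD TD LD n : ℕ) (wa wb : ℝ) (hRS : 0 < RS) (hN : 1 ≤ N) (hq : 0 < qn)
    (hsh : K.shape RS N C qn = true)
    (hall : ∀ j ≤ N, ∃ (ND UD LD t0 : ℕ) (l : List (ℕ × ℕ × ℕ × ℕ)), K.chkPF RS N C j ND UD LD = true ∧ l ≠ [] ∧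
      K.vert RS N C qn Bn j t0 l ND UD LD = true)
    (hB : m100 ^ 3 * qn ^ 2 ≤ Bn ^ 3) (hfan : K.fan N C T XD YD = true)
    (hcells : K.lcells RS 170 72946 25636 714000 qn qb T XD YD TD LD n = true) (hqb : qn ≤ qb)
    (hwa : (qn : ℝ) / 1000000 ≤ π * wa) (hwb : π * wb ≤ (qb : ℝ) / 1000000) (hwa0 : 0 < wa) :
    S_low wa wb ((m100 : ℝ) / 100) := by
  intro w0 U0 w1 U1 h0 h1 hw0 hwa1 hwb1 hm
  have hpi := Real.pi_gt_d4
  have hpi0 := Real.pi_pos
  have hq1 : (qn : ℝ) / 1000000 ≤ π * w1 := hwa.trans (mul_le_mul_of_nonneg_left hwa1 hpi0.le)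
  have hq0 : (0 : ℝ) < qn := by exact_mod_cast hq
  have hconf : U1 ⊆ stair (1 / (RS : ℝ)) N (cf C) := by
    refine a_cert RS N C qn Bn False hRS hN hq hsh ?_ w1 U1 h1 hq1 (Or.inr ?_)
    · intro j hj
      obtain ⟨ND, UD, LD, t0, l, h1, h2, h3⟩ := hall j hj
      exact ⟨ND, UD, LD, t0, l, h1, h2, h3, fun h => h.elim⟩
    · have hB' : ((m100 : ℝ)) ^ 3 * (qn : ℝ) ^ 2 ≤ (Bn : ℝ) ^ 3 := by exact_mod_cast hB
      have e1 : ar U1 ^ 3 * ((qn : ℝ) / 1000000) ^ 2 ≤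
          (((m100 : ℝ) / 100) ^ 3 * (π * w1) ^ 2) * ((qn : ℝ) / 1000000) ^ 2 :=
        mul_le_mul_of_nonneg_right hm (by positivity)
      have e2 : (((m100 : ℝ) / 100) ^ 3 * (π * w1) ^ 2) * ((qn : ℝ) / 1000000) ^ 2 =
          ((m100 : ℝ) ^ 3 * (qn : ℝ) ^ 2) * ((π * w1) ^ 2 / 1000000000000000000) := by ring
      have e3 : ((Bn : ℝ) / 1000000) ^ 3 * (π * w1) ^ 2 =
          (Bn : ℝ) ^ 3 * ((π * w1) ^ 2 / 1000000000000000000) := by ring
      rw [e3]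
      refine e1.trans ?_
      rw [e2]
      exact mul_le_mul_of_nonneg_right hB' (by positivity)
  have hconf0 : U0 ⊆ stair (1 / ((170 : ℕ) : ℝ)) 80 (cf K.N80.C) := by
    apply conf80 w0 U0 h0
    push_cast
    nlinarith
  refine a_lfan 170 80 K.N80.C 72946 25636 RS N C 714000 qn qb T XD YD TD LD n cc80 K.N80.ell_ok
    (t_shape RS N C qn hRS hN hsh).1 hfan (by norm_num) hq hqb hcells w0 U0 w1 U1 h0 h1 hconf0 hconf ?_ hq1 ?_
  · push_cast
    nlinarith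
  · exact (mul_le_mul_of_nonneg_left hwb1.le hpi0.le).trans hwb

theorem a_low1 : S_low (170 / 1000) (1970 / 10000) ((166 : ℕ) / 100) := by
  have h1 := Real.pi_gt_d6
  have h2 := Real.pi_lt_d6
  refine low_gen 75 40 K.S1.C 534000 1092620 166 618900 88 K.S1.XD K.S1.YD K.S1.TD K.S1.LD 4 _ _
    (by norm_num) (by norm_num) (by norm_num) K.S1.shape_ok ?_ (by norm_num) K.S1.fan_ok K.S1.cells_ok
    (by norm_num) (by push_cast; nlinarith) (by push_cast; nlinarith) (by norm_num)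
  intro j hj
  rcases lt_or_ge j 20 with h | h
  · exact K.S1.all0 j (by omega) h
  · exact K.S1.all1 j h (by omega)

theorem a_low2 : S_low (1970 / 10000) (2120 / 10000) ((188 : ℕ) / 100) := by
  have h1 := Real.pi_gt_d6
  have h2 := Real.pi_lt_d6
  refine low_gen 53 28 K.S2.C 618800 1365185 188 666100 65 K.S2.XD K.S2.YD K.S2.TD K.S2.LD 5 _ _
    (by norm_num) (by norm_num) (by norm_num) K.S2.shape_ok ?_ (by norm_num) K.S2.fan_ok K.S2.cells_ok
    (by norm_num) (by push_cast; nlinarith) (by push_cast; nlinarith) (by norm_num)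
  intro j hj
  exact K.S2.all0 j (by omega) (by omega)

theorem a_low3 : S_low (2120 / 10000) (2192 / 10000) ((205 : ℕ) / 100) := by
  have h1 := Real.pi_gt_d6
  have h2 := Real.pi_lt_d6
  refine low_gen 54 28 K.S3.C 666000 1563400 205 688700 65 K.S3.XD K.S3.YD K.S3.TD K.S3.LD 5 _ _
    (by norm_num) (by norm_num) (by norm_num) K.S3.shape_ok ?_ (by norm_num) K.S3.fan_ok K.S3.cells_ok
    (by norm_num) (by push_cast; nlinarith) (by push_cast; nlinarith) (by norm_num)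
  intro j hj
  exact K.S3.all0 j (by omega) (by omega)

theorem a_low4 : S_low (2192 / 10000) (2245 / 10000) ((225 : ℕ) / 100) := by
  have h1 := Real.pi_gt_d6
  have h2 := Real.pi_lt_d6
  refine low_gen 55 28 K.S4.C 688600 1754529 225 705300 68 K.S4.XD K.S4.YD K.S4.TD K.S4.LD 9 _ _
    (by norm_num) (by norm_num) (by norm_num) K.S4.shape_ok ?_ (by norm_num) K.S4.fan_ok K.S4.cells_ok
    (by norm_num) (by push_cast; nlinarith) (by push_cast; nlinarith) (by norm_num)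
  intro j hj
  exact K.S4.all0 j (by omega) (by omega)

theorem a_PDf : S_PDf := t_PDf t_pair
theorem a_PD : S_PD := t_PD t_pair
theorem a_tset : S_tset := t_tset (t_cells t_int t_add a_PDf t_cell) t_LL

set_option maxRecDepth 20000

/-- from the integers to `S_T` -/
theorem T_gen (A R c P E : ℕ) (m w : ℝ) (h1 : K.tpar A R = true) (h2 : K.tcnt A R = c) (h3 : K.tP A R = P)
    (h4 : Nat.ble E (K.tE A R) = true) (hm : 64 * (c : ℝ) ^ 3 ≤ m ^ 3 * (16 * (P : ℝ) ^ 2))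
    (hw : (3.141593 : ℝ) ^ 2 * w ^ 2 * (256 * (P : ℝ) ^ 4) ≤ 64 / 27 * ((E : ℝ) / 163840000000000) ^ 3) :
    S_T m w := by
  obtain ⟨T, hT, hb, ha, hP, hE⟩ := a_tset A R h1
  rw [h2] at ha
  rw [h3] at hP
  have hpi := Real.pi_lt_d6
  have hpi0 := Real.pi_pos
  have hEE : (E : ℝ) ≤ (K.tE A R : ℝ) := by exact_mod_cast Nat.le_of_ble_eq_true h4
  have h5 : (E : ℝ) / 163840000000000 ≤ π * EE T :=
    le_trans (div_le_div_of_nonneg_right hEE (by norm_num)) hE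
  refine ⟨T, hT, hb, ?_, ?_⟩
  · rw [ha, hP]
    calc (4 * (c : ℝ)) ^ 3 = 64 * (c : ℝ) ^ 3 := by ring
      _ ≤ m ^ 3 * (16 * (P : ℝ) ^ 2) := hm
      _ = m ^ 3 * (4 * (P : ℝ)) ^ 2 := by ring
  · rw [hP]
    have h6 : ((E : ℝ) / 163840000000000) ^ 3 ≤ (π * EE T) ^ 3 := by
      gcongr
    have h7 : π ^ 2 * w ^ 2 * (256 * (P : ℝ) ^ 4) ≤ 3.141593 ^ 2 * w ^ 2 * (256 * (P : ℝ) ^ 4) := by
      gcongr
    have h8 : π ^ 2 * (w ^ 2 * (4 * (P : ℝ)) ^ 4) ≤ π ^ 2 * (64 / 27 * π * EE T ^ 3) := by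
      calc π ^ 2 * (w ^ 2 * (4 * (P : ℝ)) ^ 4) = π ^ 2 * w ^ 2 * (256 * (P : ℝ) ^ 4) := by ring
        _ ≤ 64 / 27 * (π * EE T) ^ 3 := by linarith
        _ = π ^ 2 * (64 / 27 * π * EE T ^ 3) := by ring
    exact le_of_mul_le_mul_left h8 (by positivity)

theorem a_T5 : S_T 100 (2273 / 10000) :=
  T_gen K.TS.T5 12 386 3998 39564718973531561975 100 (2273 / 10000) K.TS.T5_par K.TS.T5_cnt K.TS.T5_P K.TS.T5_E
    (by norm_num) (by norm_num)
theorem a_T4 : S_T ((225 : ℕ) / 100) (2245 / 10000) :=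
  T_gen K.TS.T4 10 226 2014 15760367717433113977 _ _ K.TS.T4_par K.TS.T4_cnt K.TS.T4_P K.TS.T4_E
    (by norm_num) (by norm_num)
theorem a_T3 : S_T ((205 : ℕ) / 100) (2192 / 10000) :=
  T_gen K.TS.T3 10 190 1786 13231336093223381110 _ _ K.TS.T3_par K.TS.T3_cnt K.TS.T3_P K.TS.T3_E
    (by norm_num) (by norm_num)
theorem a_T2 : S_T ((188 : ℕ) / 100) (2120 / 10000) :=
  T_gen K.TS.T2 10 164 1630 11488647432199745330 _ _ K.TS.T2_par K.TS.T2_cnt K.TS.T2_P K.TS.T2_E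
    (by norm_num) (by norm_num)
theorem a_T1 : S_T ((166 : ℕ) / 100) (1970 / 10000) :=
  T_gen K.TS.T1 11 167 2021 14581834109220769742 _ _ K.TS.T1_par K.TS.T1_cnt K.TS.T1_P K.TS.T1_E
    (by norm_num) (by norm_num)

theorem a_T0 : S_T0 := by
  obtain ⟨T, hT, hb, ha, hP, hE⟩ := a_tset K.TS.T0 15 K.TS.T0_par
  rw [K.TS.T0_cnt] at ha
  rw [K.TS.T0_P] at hP
  have hpi := Real.pi_lt_d6
  have hpi0 := Real.pi_pos
  have hEE : ((29864271473339149751 : ℕ) : ℝ) ≤ (K.tE K.TS.T0 15 : ℝ) := by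
    exact_mod_cast Nat.le_of_ble_eq_true K.TS.T0_E
  have h5 : ((29864271473339149751 : ℕ) : ℝ) / 163840000000000 ≤ π * EE T :=
    le_trans (div_le_div_of_nonneg_right hEE (by norm_num)) hE
  push_cast at h5 ha hP
  refine ⟨T, hT, hb, ?_, ?_⟩
  · rw [hP]
    have h6 : ((29864271473339149751 : ℝ) / 163840000000000) ^ 3 ≤ (π * EE T) ^ 3 := by
      gcongr
    have h7 : π ^ 2 * ((170 / 1000) ^ 2 * (4 * 3739) ^ 4) ≤ 3.141593 ^ 2 * ((170 / 1000) ^ 2 * (4 * 3739) ^ 4) := by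
      gcongr
    have h8 : π ^ 2 * ((170 / 1000) ^ 2 * (4 * 3739) ^ 4) ≤ π ^ 2 * (64 / 27 * π * EE T ^ 3) := by
      calc π ^ 2 * ((170 / 1000) ^ 2 * (4 * 3739) ^ 4) ≤ 3.141593 ^ 2 * ((170 / 1000) ^ 2 * (4 * 3739) ^ 4) := h7
        _ ≤ 64 / 27 * ((29864271473339149751 : ℝ) / 163840000000000) ^ 3 := by norm_num
        _ ≤ 64 / 27 * (π * EE T) ^ 3 := by linarith
        _ = π ^ 2 * (64 / 27 * π * EE T ^ 3) := by ring
    exact le_of_mul_le_mul_left h8 (by positivity)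
  · rw [ha]
    have hl := Real.log_two_lt_d9
    have h6 : π * (3 * Real.log 2 / (8 * π) * (4 * 209) ^ 2) < π * EE T := by
      calc π * (3 * Real.log 2 / (8 * π) * (4 * 209) ^ 2) = 262086 * Real.log 2 := by field_simp; norm_num
        _ < (29864271473339149751 : ℝ) / 163840000000000 := by nlinarith
        _ ≤ π * EE T := h5
    exact lt_of_mul_lt_mul_left h6 hpi0.le

end SV
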