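import Pool.Agent.Helper779.SV.Stmts

open MeasureTheory Set Filter Topology
open scoped Real

namespace SV
namespace T06

lemma null_line (t : ℝ) : volume {x : ℝ × ℝ | x.1 = t} = 0 := by
  have h : {x : ℝ × ℝ | x.1 = t} = ({t} : Set ℝ) ×ˢ (univ : Set ℝ) := by
    ext x; simp
  rw [h, Measure.volume_eq_prod, Measure.prod_prod]
  simp

lemma cont_cut (D : Set (ℝ × ℝ)) (f : ℝ × ℝ → ℝ) (hf : IntegrableOn f D) :
    Continuous (fun t : ℝ => ∫ y in D ∩ {x | x.1 ≤ t}, f y) := by
  have hm : ∀ t : ℝ, MeasurableSet {x : ℝ × ℝ | x.1 ≤ t} := fun t =>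
    measurableSet_le measurable_fst measurable_const
  have h1 : (fun t : ℝ => ∫ y in D ∩ {x | x.1 ≤ t}, f y) =
      fun t : ℝ => ∫ y in D, ({x : ℝ × ℝ | x.1 ≤ t}).indicator f y := by
    funext t
    rw [setIntegral_indicator (hm t)]
  rw [h1]
  rw [continuous_iff_continuousAt]
  intro t₀
  apply continuousAt_of_dominated (bound := fun y => ‖f y‖)
  · filter_upwards with t
    exact hf.aestronglyMeasurable.indicator (hm t)
  · filter_upwards with t
    filter_upwards with y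
    exact norm_indicator_le_norm_self f y
  · exact hf.norm
  · have : ∀ᵐ y : ℝ × ℝ, y.1 ≠ t₀ := by
      rw [ae_iff]; simpa using null_line t₀
    filter_upwards [ae_restrict_of_ae this] with y hy
    rcases lt_or_gt_of_ne hy with h | h
    · have : (fun t : ℝ => ({x : ℝ × ℝ | x.1 ≤ t}).indicator f y) =ᶠ[𝓝 t₀] fun _ => f y := by
        filter_upwards [lt_mem_nhds h] with t ht
        rw [indicator_of_mem]
        exact le_of_lt ht
      exact (continuousAt_const.congr this.symm)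
    · have : (fun t : ℝ => ({x : ℝ × ℝ | x.1 ≤ t}).indicator f y) =ᶠ[𝓝 t₀] fun _ => 0 := by
        filter_upwards [gt_mem_nhds h] with t ht
        rw [indicator_of_notMem]
        simpa using ht
      exact (continuousAt_const.congr this.symm)

lemma choose_gen (D : Set (ℝ × ℝ)) (hD : MeasurableSet D) (hb : Bornology.IsBounded D)
    (f : ℝ × ℝ → ℝ) (hf : IntegrableOn f D) (p : ℝ) (hp : 0 ≤ p) (hp' : p ≤ ∫ y in D, f y) :
    ∃ D' ⊆ D, MeasurableSet D' ∧ ∫ y in D', f y = p := by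
  obtain ⟨R, hR⟩ := hb.subset_closedBall (0 : ℝ × ℝ)
  have hb' : ∀ x ∈ D, |x.1| ≤ R := by
    intro x hx
    have := hR hx
    rw [mem_closedBall_zero_iff] at this
    exact le_trans (norm_fst_le x) this
  have hR0 : -|R| - 1 ≤ |R| + 1 := by have := abs_nonneg R; linarith
  have hg := cont_cut D f hf
  have h0 : ∫ y in D ∩ {x : ℝ × ℝ | x.1 ≤ -|R| - 1}, f y = 0 := by
    have : D ∩ {x : ℝ × ℝ | x.1 ≤ -|R| - 1} = ∅ := by
      ext x
      simp only [mem_inter_iff, mem_setOf_eq, mem_empty_iff_false, iff_false, not_and, not_le]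
      intro hx
      have h1 := hb' x hx
      have h2 := neg_abs_le x.1
      have h3 := le_abs_self R
      linarith
    rw [this]; simp
  have h1 : ∫ y in D ∩ {x : ℝ × ℝ | x.1 ≤ |R| + 1}, f y = ∫ y in D, f y := by
    have : D ∩ {x : ℝ × ℝ | x.1 ≤ |R| + 1} = D := by
      ext x
      simp only [mem_inter_iff, mem_setOf_eq, and_iff_left_iff_imp]
      intro hx
      have h1 := hb' x hx
      have h2 := le_abs_self x.1
      have h3 := le_abs_self R
      linarith
    rw [this]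
  have hiv := intermediate_value_Icc hR0 hg.continuousOn
  have hpm : p ∈ Icc (∫ y in D ∩ {x : ℝ × ℝ | x.1 ≤ -|R| - 1}, f y)
      (∫ y in D ∩ {x : ℝ × ℝ | x.1 ≤ |R| + 1}, f y) := by
    rw [h0, h1]; exact ⟨hp, hp'⟩
  obtain ⟨t, -, ht⟩ := hiv hpm
  exact ⟨D ∩ {x | x.1 ≤ t}, inter_subset_left,
    hD.inter (measurableSet_le measurable_fst measurable_const), ht⟩

lemma exists_bounded_part (D : Set (ℝ × ℝ)) (h : volume D ≠ 0) :
    ∃ n : ℕ, volume (D ∩ Metric.closedBall (0 : ℝ × ℝ) n) ≠ 0 := by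
  by_contra hcon
  push Not at hcon
  apply h
  have : D = ⋃ n : ℕ, D ∩ Metric.closedBall (0 : ℝ × ℝ) n := by
    rw [← inter_iUnion, Metric.iUnion_closedBall_nat, inter_univ]
  rw [this]
  exact measure_iUnion_null hcon

lemma intOn_snd_of_bdd (D : Set (ℝ × ℝ)) (hD : MeasurableSet D) (hb : Bornology.IsBounded D) :
    IntegrableOn (fun y : ℝ × ℝ => y.2) D := by
  obtain ⟨R, hR⟩ := hb.subset_closedBall (0 : ℝ × ℝ)
  have : IntegrableOn (fun y : ℝ × ℝ => y.2) (Metric.closedBall (0 : ℝ × ℝ) R) :=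
    continuous_snd.continuousOn.integrableOn_compact (isCompact_closedBall _ _)
  exact this.mono_set hR

lemma Fi_of_bdd (D : Set (ℝ × ℝ)) (hD : MeasurableSet D) (hU : D ⊆ UH)
    (hb : Bornology.IsBounded D) : Fi D :=
  ⟨hD, hU, intOn_snd_of_bdd D hD hb⟩

lemma PP_pos (D : Set (ℝ × ℝ)) (h : Fi D) (h0 : volume D ≠ 0) : 0 < PP D := by
  unfold PP
  rw [setIntegral_pos_iff_support_of_nonneg_ae]
  · have : Function.support (fun y : ℝ × ℝ => y.2) ∩ D = D := by
      ext x
      simp only [mem_inter_iff, Function.mem_support, and_iff_right_iff_imp]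
      intro hx
      exact (h.sub hx).ne'
    rw [this]
    exact pos_iff_ne_zero.2 h0
  · filter_upwards [ae_restrict_mem h.meas] with x hx
    exact (h.sub hx).le
  · exact h.int

lemma PP_nonneg (D : Set (ℝ × ℝ)) (h : MeasurableSet D) (hU : D ⊆ UH) : 0 ≤ PP D := by
  unfold PP
  apply setIntegral_nonneg h
  intro x hx
  exact (hU hx).le

lemma ar_eq (D : Set (ℝ × ℝ)) : ar D = ∫ y in D, (1 : ℝ) := by
  unfold ar
  simp [Measure.real]

end T06

theorem t_choose : S_choose := by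
  intro D hD hU h0
  obtain ⟨n, hn⟩ := T06.exists_bounded_part D h0
  set B := D ∩ Metric.closedBall (0 : ℝ × ℝ) n with hB
  have hBm : MeasurableSet B := hD.inter measurableSet_closedBall
  have hBb : Bornology.IsBounded B := Metric.isBounded_closedBall.subset inter_subset_right
  have hBU : B ⊆ UH := inter_subset_left.trans hU
  have hBF := T06.Fi_of_bdd B hBm hBU hBb
  have hfin : volume B ≠ ⊤ := hBb.measure_lt_top.ne
  constructor
  · refine ⟨PP B, T06.PP_pos B hBF hn, fun p hp hp' => ?_⟩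
    obtain ⟨D', h1, h2, h3⟩ := T06.choose_gen B hBm hBb (fun y => y.2) hBF.int p hp.le hp'
    exact ⟨D', h1.trans inter_subset_left, h2, hBb.subset h1, h3⟩
  · refine ⟨ar B, ENNReal.toReal_pos hn hfin, fun p hp hp' => ?_⟩
    rw [T06.ar_eq] at hp'
    obtain ⟨D', h1, h2, h3⟩ := T06.choose_gen B hBm hBb (fun y => 1)
      (integrableOn_const hfin) p hp.le hp'
    exact ⟨D', h1.trans inter_subset_left, h2, hBb.subset h1, by rw [T06.ar_eq]; exact h3⟩


namespace T06

lemma kk_pos {D z : ℝ} (hD : 0 < D) (hz : 0 ≤ z) : 0 < kk D z := by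
  unfold kk
  split_ifs with h
  · positivity
  · have hz' : 0 < z := lt_of_le_of_ne hz (Ne.symm h)
    apply div_pos _ hz'
    apply Real.log_pos
    have : 0 < z / D := div_pos hz' hD
    linarith

lemma dsq_pos {x y : ℝ × ℝ} (h : x ≠ y) : 0 < dsq x y := by
  unfold dsq
  by_cases h1 : x.1 = y.1
  · have h2 : x.2 ≠ y.2 := fun h2 => h (Prod.ext h1 h2)
    have : 0 < (x.2 - y.2) ^ 2 := by
      have := sub_ne_zero.2 h2
      positivity
    have h3 := sq_nonneg (x.1 - y.1)
    linarith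
  · have : 0 < (x.1 - y.1) ^ 2 := by
      have := sub_ne_zero.2 h1
      positivity
    have h3 := sq_nonneg (x.2 - y.2)
    linarith

lemma kap_pos {x y : ℝ × ℝ} (hx : 0 ≤ x.2) (hy : 0 < y.2) (h : x ≠ y) : 0 < kap x y := by
  unfold kap
  have h1 := kk_pos (dsq_pos h) (z := 4 * x.2 * y.2) (by positivity)
  have := Real.pi_pos
  positivity

lemma kap_nonneg {x y : ℝ × ℝ} (hx : 0 ≤ x.2) (hy : 0 < y.2) : 0 ≤ kap x y := by
  by_cases h : x = y
  · subst h
    unfold kap kk dsq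
    simp
  · exact (kap_pos hx hy h).le

lemma phi_pos (hint : S_int) {A : Set (ℝ × ℝ)} (hA : Fi A) (h0 : volume A ≠ 0) {x : ℝ × ℝ}
    (hx : 0 ≤ x.2) : 0 < phi A x := by
  unfold phi
  rw [setIntegral_pos_iff_support_of_nonneg_ae]
  · have : A \ {x} ⊆ Function.support (fun y : ℝ × ℝ => kap x y * y.2) ∩ A := by
      intro y hy
      refine ⟨?_, hy.1⟩
      have hy2 : 0 < y.2 := hA.sub hy.1
      exact (mul_pos (kap_pos hx hy2 (fun h => hy.2 h.symm)) hy2).ne'
    refine lt_of_lt_of_le ?_ (measure_mono this)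
    rw [measure_diff_null (measure_singleton x)]
    exact pos_iff_ne_zero.2 h0
  · filter_upwards [ae_restrict_mem hA.meas] with y hy
    have hy2 : 0 < y.2 := hA.sub hy
    exact mul_nonneg (kap_nonneg hx hy2) hy2.le
  · exact hint A hA x hx

lemma E_pos (hint : S_int) (hadd : S_add) {A : Set (ℝ × ℝ)} (hA : Fi A) (h0 : volume A ≠ 0) :
    0 < EE A := by
  unfold EE cross
  have : 0 < ∫ x in A, phi A x * x.2 := by
    rw [setIntegral_pos_iff_support_of_nonneg_ae]
    · have : Function.support (fun x : ℝ × ℝ => phi A x * x.2) ∩ A = A := by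
        ext x
        simp only [mem_inter_iff, Function.mem_support, and_iff_right_iff_imp]
        intro hx
        have hx2 : 0 < x.2 := hA.sub hx
        exact (mul_pos (phi_pos hint hA h0 hx2.le) hx2).ne'
      rw [this]
      exact pos_iff_ne_zero.2 h0
    · filter_upwards [ae_restrict_mem hA.meas] with x hx
      have hx2 : 0 < x.2 := hA.sub hx
      exact (mul_pos (phi_pos hint hA h0 hx2.le) hx2).le
    · exact (hadd A A hA hA).2.1
  linarith

lemma cross_ge (hadd : S_add) {A N : Set (ℝ × ℝ)} (hA : Fi A) (hN : Fi N) {c : ℝ}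
    (h : ∀ x ∈ N, c ≤ phi A x) : c * PP N ≤ cross A N := by
  unfold cross PP
  rw [← integral_const_mul]
  apply setIntegral_mono_on (hN.int.const_mul c) (hadd A N hA hN).2.1 hN.meas
  intro x hx
  have hx2 : 0 < x.2 := hN.sub hx
  exact mul_le_mul_of_nonneg_right (h x hx) hx2.le

lemma cross_le (hadd : S_add) {A N : Set (ℝ × ℝ)} (hA : Fi A) (hN : Fi N) {c : ℝ}
    (h : ∀ x ∈ N, phi A x ≤ c) : cross A N ≤ c * PP N := by
  unfold cross PP
  rw [← integral_const_mul]
  apply setIntegral_mono_on (hadd A N hA hN).2.1 (hN.int.const_mul c) hN.meas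
  intro x hx
  have hx2 : 0 < x.2 := hN.sub hx
  exact mul_le_mul_of_nonneg_right (h x hx) hx2.le

lemma Fi.mono {A B : Set (ℝ × ℝ)} (hB : Fi B) (hA : MeasurableSet A) (h : A ⊆ B) : Fi A :=
  ⟨hA, h.trans hB.sub, hB.int.mono_set h⟩

lemma Fi.union {A B : Set (ℝ × ℝ)} (hA : Fi A) (hB : Fi B) : Fi (A ∪ B) :=
  ⟨hA.meas.union hB.meas, union_subset hA.sub hB.sub, hA.int.union hB.int⟩

lemma cross_union (hadd : S_add) {A B N : Set (ℝ × ℝ)} (hA : Fi A) (hB : Fi B) (hN : Fi N)
    (hd : Disjoint B N) : cross A (B ∪ N) = cross A B + cross A N := by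
  unfold cross
  exact setIntegral_union hd hN.meas (hadd A B hA hB).2.1 (hadd A N hA hN).2.1

lemma cross_diff (hadd : S_add) {A B N : Set (ℝ × ℝ)} (hA : Fi A) (hB : Fi B)
    (hN : MeasurableSet N) (hd : N ⊆ B) : cross A (B \ N) = cross A B - cross A N := by
  unfold cross
  exact integral_diff hN (hadd A B hA hB).2.1 hd

lemma PP_union {B N : Set (ℝ × ℝ)} (hB : Fi B) (hN : Fi N)
    (hd : Disjoint B N) : PP (B ∪ N) = PP B + PP N := by
  unfold PP
  exact setIntegral_union hd hN.meas hB.int hN.int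

lemma PP_diff {B N : Set (ℝ × ℝ)} (hB : Fi B) 
    (hN : MeasurableSet N) (hd : N ⊆ B) : PP (B \ N) = PP B - PP N := by
  unfold PP
  exact integral_diff hN hB.int hd

lemma cross_self (A : Set (ℝ × ℝ)) : cross A A = 2 * EE A := by
  unfold EE; ring

lemma vol_ne_zero {A : Set (ℝ × ℝ)} (h : 0 < PP A) : volume A ≠ 0 := by
  intro h0
  unfold PP at h
  rw [Measure.restrict_eq_zero.2 h0] at h
  simp at h

lemma Adm.fi {A : Set (ℝ × ℝ)} (h : Adm A) : Fi A := ⟨h.meas, h.sub, h.int⟩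

lemma lim_up (E P c e0 : ℝ) (hE : 0 < E) (hP : 0 < P) (he0 : 0 < e0)
    (h : ∀ e, 0 < e → e < e0 → (E + c * e) ^ 3 * P ^ 4 ≤ E ^ 3 * (P + e) ^ 4) :
    3 * c * P ≤ 4 * E := by
  have key : 0 ≤ E ^ 3 * (4 * P ^ 3) - P ^ 4 * (3 * E ^ 2 * c) := by
    have ht : Tendsto (fun e : ℝ => E ^ 3 * (4 * P ^ 3 + 6 * P ^ 2 * e + 4 * P * e ^ 2 + e ^ 3) -
        P ^ 4 * (3 * E ^ 2 * c + 3 * E * c ^ 2 * e + c ^ 3 * e ^ 2)) (𝓝[>] 0)
        (𝓝 (E ^ 3 * (4 * P ^ 3) - P ^ 4 * (3 * E ^ 2 * c))) := by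
      apply tendsto_nhdsWithin_of_tendsto_nhds
      have : Continuous (fun e : ℝ => E ^ 3 * (4 * P ^ 3 + 6 * P ^ 2 * e + 4 * P * e ^ 2 + e ^ 3) -
        P ^ 4 * (3 * E ^ 2 * c + 3 * E * c ^ 2 * e + c ^ 3 * e ^ 2)) := by fun_prop
      have h2 := this.tendsto 0
      simpa using h2
    apply ge_of_tendsto ht
    filter_upwards [Ioo_mem_nhdsGT he0] with e he
    have h1 := h e he.1 he.2
    have h2 : 0 ≤ e * (E ^ 3 * (4 * P ^ 3 + 6 * P ^ 2 * e + 4 * P * e ^ 2 + e ^ 3) -
        P ^ 4 * (3 * E ^ 2 * c + 3 * E * c ^ 2 * e + c ^ 3 * e ^ 2)) := by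
      have : e * (E ^ 3 * (4 * P ^ 3 + 6 * P ^ 2 * e + 4 * P * e ^ 2 + e ^ 3) -
        P ^ 4 * (3 * E ^ 2 * c + 3 * E * c ^ 2 * e + c ^ 3 * e ^ 2)) =
        E ^ 3 * (P + e) ^ 4 - (E + c * e) ^ 3 * P ^ 4 := by ring
      rw [this]; linarith
    exact nonneg_of_mul_nonneg_right (by linarith) he.1
  have h3 : 0 ≤ (E ^ 2 * P ^ 3) * (4 * E - 3 * c * P) := by
    have : (E ^ 2 * P ^ 3) * (4 * E - 3 * c * P) = E ^ 3 * (4 * P ^ 3) - P ^ 4 * (3 * E ^ 2 * c) := by
      ring
    rw [this]; exact key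
  have h4 : 0 < E ^ 2 * P ^ 3 := by positivity
  have := nonneg_of_mul_nonneg_right h3 h4
  linarith

lemma lim_down (E P c e0 : ℝ) (hE : 0 < E) (hP : 0 < P) (he0 : 0 < e0)
    (h : ∀ e, 0 < e → e < e0 → (E - c * e) ^ 3 * P ^ 4 ≤ E ^ 3 * (P - e) ^ 4) :
    4 * E ≤ 3 * c * P := by
  have key : E ^ 3 * (4 * P ^ 3) - P ^ 4 * (3 * E ^ 2 * c) ≤ 0 := by
    have ht : Tendsto (fun e : ℝ => E ^ 3 * (4 * P ^ 3 - 6 * P ^ 2 * e + 4 * P * e ^ 2 - e ^ 3) -
        P ^ 4 * (3 * E ^ 2 * c - 3 * E * c ^ 2 * e + c ^ 3 * e ^ 2)) (𝓝[>] 0)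
        (𝓝 (E ^ 3 * (4 * P ^ 3) - P ^ 4 * (3 * E ^ 2 * c))) := by
      apply tendsto_nhdsWithin_of_tendsto_nhds
      have : Continuous (fun e : ℝ => E ^ 3 * (4 * P ^ 3 - 6 * P ^ 2 * e + 4 * P * e ^ 2 - e ^ 3) -
        P ^ 4 * (3 * E ^ 2 * c - 3 * E * c ^ 2 * e + c ^ 3 * e ^ 2)) := by fun_prop
      have h2 := this.tendsto 0
      simpa using h2
    apply le_of_tendsto ht
    filter_upwards [Ioo_mem_nhdsGT he0] with e he
    have h1 := h e he.1 he.2
    have h2 : e * (E ^ 3 * (4 * P ^ 3 - 6 * P ^ 2 * e + 4 * P * e ^ 2 - e ^ 3) -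
        P ^ 4 * (3 * E ^ 2 * c - 3 * E * c ^ 2 * e + c ^ 3 * e ^ 2)) ≤ 0 := by
      have : e * (E ^ 3 * (4 * P ^ 3 - 6 * P ^ 2 * e + 4 * P * e ^ 2 - e ^ 3) -
        P ^ 4 * (3 * E ^ 2 * c - 3 * E * c ^ 2 * e + c ^ 3 * e ^ 2)) =
        (E - c * e) ^ 3 * P ^ 4 - E ^ 3 * (P - e) ^ 4 := by ring
      rw [this]; linarith
    exact nonpos_of_mul_nonpos_right h2 he.1
  have h3 : (E ^ 2 * P ^ 3) * (4 * E - 3 * c * P) ≤ 0 := by
    have : (E ^ 2 * P ^ 3) * (4 * E - 3 * c * P) = E ^ 3 * (4 * P ^ 3) - P ^ 4 * (3 * E ^ 2 * c) := by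
      ring
    rw [this]; exact key
  have h4 : 0 < E ^ 2 * P ^ 3 := by positivity
  have := nonpos_of_mul_nonpos_right h3 h4
  linarith

lemma meas_gt (hcont : S_cont) {A : Set (ℝ × ℝ)} (hA : Fi A) (c : ℝ) :
    MeasurableSet {x : ℝ × ℝ | x ∈ UH ∧ c < phi A x} := by
  have ho : IsOpen UH := isOpen_lt continuous_const continuous_snd
  have hc : ContinuousOn (phi A) UH := (hcont A hA).mono (fun x hx => by
    have h : 0 < x.2 := hx
    exact h.le)
  exact (hc.isOpen_inter_preimage ho isOpen_Ioi).measurableSet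

lemma meas_lt (hcont : S_cont) {A : Set (ℝ × ℝ)} (hA : Fi A) (c : ℝ) :
    MeasurableSet {x : ℝ × ℝ | x ∈ UH ∧ phi A x < c} := by
  have ho : IsOpen UH := isOpen_lt continuous_const continuous_snd
  have hc : ContinuousOn (phi A) UH := (hcont A hA).mono (fun x hx => by
    have h : 0 < x.2 := hx
    exact h.le)
  exact (hc.isOpen_inter_preimage ho isOpen_Iio).measurableSet

/-- exceptional set outside -/
def Dout (A : Set (ℝ × ℝ)) (c : ℝ) : Set (ℝ × ℝ) := {x : ℝ × ℝ | x ∈ UH ∧ c < phi A x} \ A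

/-- exceptional set inside -/
def Din (A : Set (ℝ × ℝ)) (c : ℝ) : Set (ℝ × ℝ) := A ∩ {x : ℝ × ℝ | x ∈ UH ∧ phi A x < c}

lemma ELc_of (A : Set (ℝ × ℝ)) (hA : A ⊆ UH) (W : ℝ) (h1 : ∀ c, W < c → volume (Dout A c) = 0)
    (h2 : ∀ c, c < W → volume (Din A c) = 0) : ELc W A := by
  constructor
  · rw [ae_iff]
    have : {x : ℝ × ℝ | ¬ (x ∈ A → W ≤ phi A x)} ⊆ ⋃ n : ℕ, Din A (W - 1 / ((n : ℝ) + 1)) := by
      intro x hx
      simp only [mem_setOf_eq, Classical.not_imp, not_le] at hx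
      obtain ⟨n, hn⟩ := exists_nat_one_div_lt (sub_pos.2 hx.2)
      refine mem_iUnion.2 ⟨n, hx.1, hA hx.1, ?_⟩
      linarith
    refine measure_mono_null this (measure_iUnion_null fun n => h2 _ ?_)
    have : (0 : ℝ) < 1 / ((n : ℝ) + 1) := by positivity
    linarith
  · rw [ae_iff]
    have : {x : ℝ × ℝ | ¬ (x ∈ UH → x ∉ A → phi A x ≤ W)} ⊆
        ⋃ n : ℕ, Dout A (W + 1 / ((n : ℝ) + 1)) := by
      intro x hx
      simp only [mem_setOf_eq, Classical.not_imp, not_le] at hx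
      obtain ⟨n, hn⟩ := exists_nat_one_div_lt (sub_pos.2 hx.2.2)
      refine mem_iUnion.2 ⟨n, ⟨hx.1, ?_⟩, hx.2.1⟩
      linarith
    refine measure_mono_null this (measure_iUnion_null fun n => h1 _ ?_)
    have : (0 : ℝ) < 1 / ((n : ℝ) + 1) := by positivity
    linarith

end T06

theorem t_ELJ (hint : S_int) (hcont : S_cont) (hadd : S_add) (hPD : S_PD) : S_ELJ := by
  intro A hJ
  obtain ⟨hA, hmax⟩ := hJ
  have hF := T06.Adm.fi hA
  have hv := T06.vol_ne_zero hA.pos
  have hE := T06.E_pos hint hadd hF hv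
  have hP := hA.pos
  apply T06.ELc_of A hA.sub
  · intro c hc
    by_contra h0
    have hDm : MeasurableSet (T06.Dout A c) := (T06.meas_gt hcont hF c).diff hA.meas
    have hDU : T06.Dout A c ⊆ UH := fun x hx => hx.1.1
    obtain ⟨⟨p₀, hp₀, hch⟩, -⟩ := t_choose _ hDm hDU h0
    have h3 : 3 * c * PP A ≤ 4 * EE A := by
      apply T06.lim_up (EE A) (PP A) c p₀ hE hP hp₀
      intro e he he'
      obtain ⟨N, hN, hNm, hNb, hNP⟩ := hch e he he'.le
      have hNF := T06.Fi_of_bdd N hNm (hN.trans hDU) hNb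
      have hd : Disjoint A N := by
        rw [Set.disjoint_left]
        intro x hx hx'
        exact (hN hx').2 hx
      have hB : Adm (A ∪ N) := by
        have := T06.Fi.union hF hNF
        refine ⟨this.meas, this.sub, ?_, this.int, ?_⟩
        · exact (measure_union_lt_top hA.fin.lt_top hNb.measure_lt_top).ne
        · rw [T06.PP_union hF hNF hd, hNP]; linarith
      have h1 := hmax _ hB
      rw [T06.PP_union hF hNF hd, hNP] at h1
      have h2 := hPD A (A ∪ N) hF (T06.Adm.fi hB) hA.fin hB.fin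
      rw [T06.cross_union hadd hF hF hNF hd, T06.cross_self] at h2
      have h4 : c * PP N ≤ cross A N := T06.cross_ge hadd hF hNF (fun x hx => (hN hx).1.2.le)
      rw [hNP] at h4
      have h5 : EE A + c * e ≤ EE (A ∪ N) := by linarith
      have hW : 0 < c := by
        refine lt_trans ?_ hc
        positivity
      have h6 : (EE A + c * e) ^ 3 ≤ EE (A ∪ N) ^ 3 := by
        apply pow_le_pow_left₀ _ h5
        positivity
      have h7 : (0:ℝ) ≤ PP A ^ 4 := by positivity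
      nlinarith [mul_le_mul_of_nonneg_right h6 h7]
    rw [div_lt_iff₀ (by positivity)] at hc
    nlinarith
  · intro c hc
    by_contra h0
    have hDm : MeasurableSet (T06.Din A c) := hA.meas.inter (T06.meas_lt hcont hF c)
    have hDU : T06.Din A c ⊆ UH := fun x hx => hx.2.1
    obtain ⟨⟨p₀, hp₀, hch⟩, -⟩ := t_choose _ hDm hDU h0
    have h3 : 4 * EE A ≤ 3 * c * PP A := by
      obtain ⟨e1, he1, he1'⟩ : ∃ e1 : ℝ, 0 < e1 ∧ ∀ e, 0 < e → e < e1 → e < PP A ∧ 0 < EE A - c * e := by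
        refine ⟨min (PP A) (EE A / (|c| + 1)), by positivity, ?_⟩
        intro e he he'
        refine ⟨lt_of_lt_of_le he' (min_le_left _ _), ?_⟩
        have h1 : e < EE A / (|c| + 1) := lt_of_lt_of_le he' (min_le_right _ _)
        rw [lt_div_iff₀ (by positivity)] at h1
        have h2 : c * e ≤ |c| * e := mul_le_mul_of_nonneg_right (le_abs_self c) he.le
        nlinarith
      apply T06.lim_down (EE A) (PP A) c (min p₀ e1) hE hP (by positivity)
      intro e he he'
      obtain ⟨N, hN, hNm, hNb, hNP⟩ := hch e he (he'.le.trans (min_le_left _ _))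
      obtain ⟨he2, he3⟩ := he1' e he (lt_of_lt_of_le he' (min_le_right _ _))
      have hNF := T06.Fi_of_bdd N hNm (hN.trans hDU) hNb
      have hNA : N ⊆ A := fun x hx => (hN hx).1
      have hB : Adm (A \ N) := by
        have := T06.Fi.mono hF (hA.meas.diff hNm) (diff_subset (s := A) (t := N))
        refine ⟨this.meas, this.sub, ?_, this.int, ?_⟩
        · exact (lt_of_le_of_lt (measure_mono diff_subset) hA.fin.lt_top).ne
        · rw [T06.PP_diff hF hNm hNA, hNP]; linarith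
      have h1 := hmax _ hB
      rw [T06.PP_diff hF hNm hNA, hNP] at h1
      have h2 := hPD A (A \ N) hF (T06.Adm.fi hB) hA.fin hB.fin
      rw [T06.cross_diff hadd hF hF hNm hNA, T06.cross_self] at h2
      have h4 : cross A N ≤ c * PP N := T06.cross_le hadd hF hNF (fun x hx => (hN hx).2.2.le)
      rw [hNP] at h4
      have h5 : EE A - c * e ≤ EE (A \ N) := by linarith
      have h6 : (EE A - c * e) ^ 3 ≤ EE (A \ N) ^ 3 := by
        apply pow_le_pow_left₀ _ h5
        exact he3.le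
      have h7 : (0:ℝ) ≤ PP A ^ 4 := by positivity
      nlinarith [mul_le_mul_of_nonneg_right h6 h7]
    rw [lt_div_iff₀ (by positivity)] at hc
    nlinarith


namespace T06

lemma cube_root {a : ℝ} (ha : 0 < a) : ∃ r : ℝ, 0 < r ∧ r ^ 3 = a := by
  refine ⟨a ^ ((1 : ℝ) / 3), Real.rpow_pos_of_pos ha _, ?_⟩
  rw [← Real.rpow_natCast, ← Real.rpow_mul ha.le]
  norm_num

lemma E_nonneg (hadd : S_add) {A : Set (ℝ × ℝ)} (hA : Fi A) : 0 ≤ EE A := by
  unfold EE
  have := (hadd A A hA hA).2.2.1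
  linarith

lemma S_test (hscale : S_scale) (hadd : S_add) {p : ℝ} {A B : Set (ℝ × ℝ)} (hS : SMax p A)
    (hB : Adm B) (h : ∀ r : ℝ, 0 < r → r ^ 3 * PP B = p → r ^ 2 * ar B ≤ 1 / 2) :
    EE B ^ 3 * p ^ 4 ≤ EE A ^ 3 * PP B ^ 4 := by
  obtain ⟨hA, hAp, hAa, hmax⟩ := hS
  have hp : 0 < p := by rw [← hAp]; exact hA.pos
  have hPB := hB.pos
  obtain ⟨r, hr, hr3⟩ := cube_root (div_pos hp hPB)
  have hr4 : r ^ 3 * PP B = p := by rw [hr3]; field_simp
  obtain ⟨s1, s2, s3, s4, s5, -⟩ := hscale B (Adm.fi hB) r hr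
  have hAd : Adm (dil r B) := by
    refine ⟨s1.meas, s1.sub, ?_, s1.int, ?_⟩
    · intro h; exact hB.fin (s5.1 h)
    · rw [s2, hr4]; exact hp
  have h1 := hmax _ hAd (by rw [s2, hr4]) (by rw [s4]; exact h r hr hr4)
  rw [s3] at h1
  have hEB := E_nonneg hadd (Adm.fi hB)
  have h2 : (r ^ 4 * EE B) ^ 3 ≤ EE A ^ 3 := pow_le_pow_left₀ (by positivity) h1 3
  calc EE B ^ 3 * p ^ 4 = (r ^ 4 * EE B) ^ 3 * PP B ^ 4 := by rw [← hr4]; ring
    _ ≤ EE A ^ 3 * PP B ^ 4 := mul_le_mul_of_nonneg_right h2 (by positivity)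

lemma PP_le_ar {N : Set (ℝ × ℝ)} (hN : Fi N) (hf : volume N ≠ ⊤) {δ : ℝ}
    (h : ∀ x ∈ N, x.2 ≤ δ) : PP N ≤ δ * ar N := by
  rw [ar_eq, ← integral_const_mul]
  unfold PP
  apply setIntegral_mono_on hN.int _ hN.meas
  · intro x hx
    simpa using h x hx
  · have : IntegrableOn (fun _ : ℝ × ℝ => (1:ℝ)) N := integrableOn_const hf
    exact this.const_mul δ

lemma ar_le_PP {N : Set (ℝ × ℝ)} (hN : Fi N) (hf : volume N ≠ ⊤) {η : ℝ}
    (h : ∀ x ∈ N, η ≤ x.2) : η * ar N ≤ PP N := by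
  rw [ar_eq, ← integral_const_mul]
  unfold PP
  apply setIntegral_mono_on _ hN.int hN.meas
  · intro x hx
    simpa using h x hx
  · have : IntegrableOn (fun _ : ℝ × ℝ => (1:ℝ)) N := integrableOn_const hf
    exact this.const_mul η

lemma ar_union {B N : Set (ℝ × ℝ)} (hN : MeasurableSet N) (hBf : volume B ≠ ⊤)
    (hNf : volume N ≠ ⊤) (hd : Disjoint B N) : ar (B ∪ N) = ar B + ar N := by
  rw [ar_eq, ar_eq, ar_eq]
  exact setIntegral_union hd hN (integrableOn_const hBf) (integrableOn_const hNf)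

lemma ar_diff {B N : Set (ℝ × ℝ)} (hN : MeasurableSet N) (hBf : volume B ≠ ⊤)
    (hd : N ⊆ B) : ar (B \ N) = ar B - ar N := by
  rw [ar_eq, ar_eq, ar_eq]
  exact integral_diff hN (integrableOn_const hBf) hd

lemma exists_above {D : Set (ℝ × ℝ)} (hD : D ⊆ UH) (h : volume D ≠ 0) :
    ∃ η : ℝ, 0 < η ∧ volume (D ∩ {x | η < x.2}) ≠ 0 := by
  by_contra hcon
  push Not at hcon
  apply h
  have : D ⊆ ⋃ n : ℕ, D ∩ {x : ℝ × ℝ | 1 / ((n : ℝ) + 1) < x.2} := by
    intro x hx
    have hx2 : 0 < x.2 := hD hx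
    obtain ⟨n, hn⟩ := exists_nat_one_div_lt hx2
    exact mem_iUnion.2 ⟨n, hx, hn⟩
  exact measure_mono_null this (measure_iUnion_null fun n => hcon _ (by positivity))

end T06

theorem t_ELS (hint : S_int) (hphi : S_phibd) (hcont : S_cont) (hadd : S_add)
    (hscale : S_scale) (hPD : S_PD) : S_ELS := by
  intro p A hS hns
  have hS' := hS
  obtain ⟨hA, hAp, hAa, hmax⟩ := hS
  have hF := T06.Adm.fi hA
  have hv := T06.vol_ne_zero hA.pos
  have hE := T06.E_pos hint hadd hF hv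
  have hP := hA.pos
  rw [hAp] at hP ⊢
  -- sup bound
  obtain ⟨M, hM, hMb⟩ : ∃ M : ℝ, 0 < M ∧ ∀ x ∈ UH, phi A x ≤ M := by
    refine ⟨2 * 1 + PP A / (π * 1 ^ 2), ?_, ?_⟩
    · rw [hAp]
      have := Real.pi_pos
      positivity
    · intro x hx
      have hx2 : 0 < x.2 := hx
      exact (hphi A hF x hx2.le).2.1 1 one_pos
  have hZset : ∀ δ : ℝ, 0 < δ → ∃ a₀ : ℝ, 0 < a₀ ∧ ∀ a : ℝ, 0 < a → a ≤ a₀ →
      ∃ Z ⊆ A, MeasurableSet Z ∧ Bornology.IsBounded Z ∧ ar Z = a ∧ ∀ x ∈ Z, x.2 ≤ δ := by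
    intro δ hδ
    have hm : MeasurableSet (A ∩ {x | x.2 < δ}) :=
      hA.meas.inter (measurableSet_lt measurable_snd measurable_const)
    obtain ⟨-, a₀, ha₀, hch⟩ := t_choose _ hm (inter_subset_left.trans hA.sub) (hns δ hδ)
    refine ⟨a₀, ha₀, fun a ha ha' => ?_⟩
    obtain ⟨Z, h1, h2, h3, h4⟩ := hch a ha ha'
    refine ⟨Z, h1.trans inter_subset_left, h2, h3, h4, fun x hx => ?_⟩
    have h5 : x.2 < δ := (h1 hx).2
    exact h5.le
  apply T06.ELc_of A hA.sub
  · intro c hc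
    by_contra h0
    have hDm : MeasurableSet (T06.Dout A c) := (T06.meas_gt hcont hF c).diff hA.meas
    have hDU : T06.Dout A c ⊆ UH := fun x hx => hx.1.1
    obtain ⟨η, hη, hDη⟩ := T06.exists_above hDU h0
    have hDηm : MeasurableSet (T06.Dout A c ∩ {x | η < x.2}) :=
      hDm.inter (measurableSet_lt measurable_const measurable_snd)
    obtain ⟨⟨p₀, hp₀, hch⟩, -⟩ := t_choose _ hDηm (inter_subset_left.trans hDU) hDη
    -- choice of δ
    set W := 4 * EE A / (3 * p) with hW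
    obtain ⟨δ, hδ, hδη, hδc⟩ : ∃ δ : ℝ, 0 < δ ∧ δ < η ∧ W < c - M * (δ / η) := by
      refine ⟨min (η / 2) (η * (c - W) / (2 * M)), ?_, ?_, ?_⟩
      · have : 0 < c - W := by linarith
        positivity
      · exact lt_of_le_of_lt (min_le_left _ _) (by linarith)
      · have h1 : min (η / 2) (η * (c - W) / (2 * M)) ≤ η * (c - W) / (2 * M) := min_le_right _ _
        have h2 : M * (min (η / 2) (η * (c - W) / (2 * M)) / η) ≤ (c - W) / 2 := by
          calc M * (min (η / 2) (η * (c - W) / (2 * M)) / η)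
              ≤ M * ((η * (c - W) / (2 * M)) / η) := by gcongr
            _ = (c - W) / 2 := by field_simp
        linarith
    obtain ⟨a₀, ha₀, hZ⟩ := hZset δ hδ
    have h3 : 3 * (c - M * (δ / η)) * p ≤ 4 * EE A := by
      apply T06.lim_up (EE A) p (c - M * (δ / η)) (min p₀ (η * a₀)) hE hP (by positivity)
      intro e he he'
      obtain ⟨N, hN, hNm, hNb, hNP⟩ := hch e he (he'.le.trans (min_le_left _ _))
      have hea : e / η ≤ a₀ := by
        rw [div_le_iff₀ hη]
        have := he'.le.trans (min_le_right _ _)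
        linarith
      obtain ⟨Z, hZA, hZm, hZb, hZa, hZδ⟩ := hZ (e / η) (by positivity) hea
      have hND : N ⊆ T06.Dout A c := fun x hx => (hN hx).1
      have hNF := T06.Fi_of_bdd N hNm (hND.trans hDU) hNb
      have hZF := T06.Fi.mono hF hZm hZA
      have hZf : volume Z ≠ ⊤ := hZb.measure_lt_top.ne
      have hNf : volume N ≠ ⊤ := hNb.measure_lt_top.ne
      have hAZF := T06.Fi.mono hF (hA.meas.diff hZm) (diff_subset (s := A) (t := Z))
      have hAZf : volume (A \ Z) ≠ ⊤ :=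
        (lt_of_le_of_lt (measure_mono diff_subset) hA.fin.lt_top).ne
      have hd : Disjoint (A \ Z) N := by
        rw [Set.disjoint_left]
        intro x hx hx'
        exact (hND hx').2 hx.1
      have hPZ : PP Z ≤ δ * (e / η) := by
        rw [← hZa]; exact T06.PP_le_ar hZF hZf hZδ
      have hPZ0 : 0 ≤ PP Z := T06.PP_nonneg Z hZm (hZA.trans hA.sub)
      have hPZe : δ * (e / η) ≤ e := by
        have : δ / η < 1 := by rw [div_lt_one hη]; exact hδη
        calc δ * (e / η) = (δ / η) * e := by ring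
          _ ≤ 1 * e := by gcongr
          _ = e := one_mul e
      have harN : ar N ≤ e / η := by
        rw [le_div_iff₀ hη]
        have := T06.ar_le_PP hNF hNf (η := η) (fun x hx => by
          have h5 : η < x.2 := (hN hx).2
          exact h5.le)
        rw [hNP] at this
        linarith
      have hPB : PP ((A \ Z) ∪ N) = p - PP Z + e := by
        rw [T06.PP_union hAZF hNF hd, T06.PP_diff hF hZm hZA, hNP, hAp]
      have haB : ar ((A \ Z) ∪ N) ≤ 1 / 2 := by
        rw [T06.ar_union hNm hAZf hNf hd, T06.ar_diff hZm hA.fin hZA, hZa]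
        linarith
      have hB : Adm ((A \ Z) ∪ N) := by
        have := T06.Fi.union hAZF hNF
        refine ⟨this.meas, this.sub, ?_, this.int, ?_⟩
        · exact (measure_union_lt_top hAZf.lt_top hNf.lt_top).ne
        · rw [hPB]; linarith
      have h1 := T06.S_test hscale hadd hS' hB (by
        intro r hr hr3
        have hr1 : r ≤ 1 := by
          by_contra hr1
          push Not at hr1
          have h5 : 1 < r ^ 3 := one_lt_pow₀ hr1 (by norm_num)
          have h6 : p ≤ PP ((A \ Z) ∪ N) := by rw [hPB]; linarith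
          have h7 : PP ((A \ Z) ∪ N) < r ^ 3 * PP ((A \ Z) ∪ N) := by
            nlinarith [hB.pos]
          linarith
        have h5 : r ^ 2 ≤ 1 := pow_le_one₀ hr.le hr1
        have h6 : 0 ≤ ar ((A \ Z) ∪ N) := ENNReal.toReal_nonneg
        nlinarith)
      have h2 := hPD A _ hF (T06.Adm.fi hB) hA.fin hB.fin
      rw [T06.cross_union hadd hF hAZF hNF hd, T06.cross_diff hadd hF hF hZm hZA,
        T06.cross_self] at h2
      have h4 : c * PP N ≤ cross A N := T06.cross_ge hadd hF hNF (fun x hx => (hND hx).1.2.le)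
      have h4' : cross A Z ≤ M * PP Z := T06.cross_le hadd hF hZF
        (fun x hx => hMb x (hA.sub (hZA hx)))
      rw [hNP] at h4
      have h5 : EE A + (c - M * (δ / η)) * e ≤ EE ((A \ Z) ∪ N) := by
        have : M * PP Z ≤ M * (δ * (e / η)) := by gcongr
        have h6 : M * (δ * (e / η)) = M * (δ / η) * e := by ring
        linarith
      have hc0 : 0 < c - M * (δ / η) := by
        refine lt_trans ?_ hδc
        positivity
      have h6 : (EE A + (c - M * (δ / η)) * e) ^ 3 ≤ EE ((A \ Z) ∪ N) ^ 3 := by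
        apply pow_le_pow_left₀ _ h5
        positivity
      have h7 : (0:ℝ) ≤ p ^ 4 := by positivity
      have h8 : PP ((A \ Z) ∪ N) ^ 4 ≤ (p + e) ^ 4 := by
        apply pow_le_pow_left₀ hB.pos.le
        rw [hPB]; linarith
      calc (EE A + (c - M * (δ / η)) * e) ^ 3 * p ^ 4 ≤ EE ((A \ Z) ∪ N) ^ 3 * p ^ 4 :=
            mul_le_mul_of_nonneg_right h6 h7
        _ ≤ EE A ^ 3 * PP ((A \ Z) ∪ N) ^ 4 := h1
        _ ≤ EE A ^ 3 * (p + e) ^ 4 := mul_le_mul_of_nonneg_left h8 (by positivity)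
    have h9 : W < c - M * (δ / η) := hδc
    rw [hW, div_lt_iff₀ (by positivity)] at h9
    nlinarith
  · intro c hc
    by_contra h0
    have hDm : MeasurableSet (T06.Din A c) := hA.meas.inter (T06.meas_lt hcont hF c)
    have hDU : T06.Din A c ⊆ UH := fun x hx => hx.2.1
    obtain ⟨⟨p₀, hp₀, hch⟩, -⟩ := t_choose _ hDm hDU h0
    set W := 4 * EE A / (3 * p) with hW
    set K := 2 / p with hK
    have hKpos : 0 < K := by positivity
    obtain ⟨δ, hδ, hδK, hδc⟩ : ∃ δ : ℝ, 0 < δ ∧ δ * K ≤ 1 ∧ c + M * (δ * K) < W := by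
      refine ⟨min (1 / K) ((W - c) / (2 * M * K)), ?_, ?_, ?_⟩
      · have : 0 < W - c := by linarith
        positivity
      · calc min (1 / K) ((W - c) / (2 * M * K)) * K ≤ (1 / K) * K := by
              gcongr; exact min_le_left _ _
          _ = 1 := by field_simp
      · have h2 : M * (min (1 / K) ((W - c) / (2 * M * K)) * K) ≤ (W - c) / 2 := by
          calc M * (min (1 / K) ((W - c) / (2 * M * K)) * K)
              ≤ M * (((W - c) / (2 * M * K)) * K) := by gcongr; exact min_le_right _ _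
            _ = (W - c) / 2 := by field_simp
        linarith
    obtain ⟨a₀, ha₀, hZ⟩ := hZset δ hδ
    set c' := c + M * (δ * K) with hc'
    have h3 : 4 * EE A ≤ 3 * c' * p := by
      obtain ⟨e1, he1, he1'⟩ : ∃ e1 : ℝ, 0 < e1 ∧ ∀ e, 0 < e → e < e1 →
          2 * e < p ∧ 0 < EE A - c' * e := by
        refine ⟨min (p / 2) (EE A / (|c'| + 1)), by positivity, ?_⟩
        intro e he he'
        have h0 : e < p / 2 := lt_of_lt_of_le he' (min_le_left _ _)
        refine ⟨by linarith, ?_⟩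
        have h1 : e < EE A / (|c'| + 1) := lt_of_lt_of_le he' (min_le_right _ _)
        rw [lt_div_iff₀ (by positivity)] at h1
        have h2 : c' * e ≤ |c'| * e := mul_le_mul_of_nonneg_right (le_abs_self c') he.le
        nlinarith
      apply T06.lim_down (EE A) p c' (min (min p₀ e1) (a₀ / K)) hE hP (by positivity)
      intro e he he'
      have he'' := lt_of_lt_of_le he' (min_le_left _ _)
      obtain ⟨N, hN, hNm, hNb, hNP⟩ := hch e he (he''.le.trans (min_le_left _ _))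
      obtain ⟨he2, he3⟩ := he1' e he (lt_of_lt_of_le he'' (min_le_right _ _))
      have hea : K * e ≤ a₀ := by
        have := he'.le.trans (min_le_right _ _)
        rw [le_div_iff₀ hKpos] at this
        linarith
      obtain ⟨Z, hZA, hZm, hZb, hZa, hZδ⟩ := hZ (K * e) (by positivity) hea
      have hNF := T06.Fi_of_bdd N hNm (hN.trans hDU) hNb
      have hNA : N ⊆ A := fun x hx => (hN hx).1
      have hZF := T06.Fi.mono hF hZm hZA
      have hZf : volume Z ≠ ⊤ := hZb.measure_lt_top.ne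
      have hNf : volume N ≠ ⊤ := hNb.measure_lt_top.ne
      have hZNm : MeasurableSet (Z \ N) := hZm.diff hNm
      have hZNF := T06.Fi.mono hF hZNm (diff_subset.trans hZA)
      have hd : Disjoint N (Z \ N) := disjoint_sdiff_right
      have hNZ : N ∪ (Z \ N) = N ∪ Z := union_diff_self
      have hNZm : MeasurableSet (N ∪ Z) := hNm.union hZm
      have hNZA : N ∪ Z ⊆ A := union_subset hNA hZA
      have hPZ : PP Z ≤ δ * (K * e) := by
        rw [← hZa]; exact T06.PP_le_ar hZF hZf hZδ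
      have hPZN : PP (Z \ N) ≤ PP Z := by
        unfold PP
        apply setIntegral_mono_set hZF.int
        · filter_upwards [ae_restrict_mem hZm] with x hx
          exact (hZF.sub hx : (0:ℝ) < x.2).le
        · exact Eventually.of_forall diff_subset
      have hPZN0 : 0 ≤ PP (Z \ N) := T06.PP_nonneg _ hZNm hZNF.sub
      have hPNZ : PP (N ∪ Z) = e + PP (Z \ N) := by
        rw [← hNZ, T06.PP_union hNF hZNF hd, hNP]
      have hδKe : δ * (K * e) ≤ e := by
        calc δ * (K * e) = (δ * K) * e := by ring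
          _ ≤ 1 * e := by gcongr
          _ = e := one_mul e
      have hPB : PP (A \ (N ∪ Z)) = p - (e + PP (Z \ N)) := by
        rw [T06.PP_diff hF hNZm hNZA, hPNZ, hAp]
      have harNZ : K * e ≤ ar (N ∪ Z) := by
        rw [← hZa]
        unfold ar
        apply ENNReal.toReal_mono
        · exact (measure_union_lt_top hNf.lt_top hZf.lt_top).ne
        · exact measure_mono subset_union_right
      have haB : ar (A \ (N ∪ Z)) ≤ 1 / 2 - K * e := by
        rw [T06.ar_diff hNZm hA.fin hNZA]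
        linarith
      have hB : Adm (A \ (N ∪ Z)) := by
        have := T06.Fi.mono hF (hA.meas.diff hNZm) (diff_subset (s := A) (t := N ∪ Z))
        refine ⟨this.meas, this.sub, ?_, this.int, ?_⟩
        · exact (lt_of_le_of_lt (measure_mono diff_subset) hA.fin.lt_top).ne
        · rw [hPB]; linarith
      have h1 := T06.S_test hscale hadd hS' hB (by
        intro r hr hr3
        have hr1 : 1 ≤ r := by
          by_contra hr1
          push Not at hr1
          have h5 : r ^ 3 < 1 := pow_lt_one₀ hr.le hr1 (by norm_num)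
          have h6 : PP (A \ (N ∪ Z)) ≤ p := by rw [hPB]; linarith
          have h7 : r ^ 3 * PP (A \ (N ∪ Z)) < PP (A \ (N ∪ Z)) := by
            nlinarith [hB.pos]
          linarith
        have h5 : r ^ 2 ≤ r ^ 3 := pow_le_pow_right₀ hr1 (by norm_num)
        have h6 : 0 ≤ ar (A \ (N ∪ Z)) := ENNReal.toReal_nonneg
        have h7 : r ^ 2 * ar (A \ (N ∪ Z)) ≤ r ^ 3 * ar (A \ (N ∪ Z)) :=
          mul_le_mul_of_nonneg_right h5 h6
        refine h7.trans ?_
        have h8 : PP (A \ (N ∪ Z)) * (r ^ 3 * ar (A \ (N ∪ Z))) ≤ PP (A \ (N ∪ Z)) * (1 / 2) := by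
          calc PP (A \ (N ∪ Z)) * (r ^ 3 * ar (A \ (N ∪ Z))) = p * ar (A \ (N ∪ Z)) := by
                rw [← hr3]; ring
            _ ≤ p * (1 / 2 - K * e) := by gcongr
            _ = p / 2 - 2 * e := by rw [hK]; field_simp
            _ ≤ PP (A \ (N ∪ Z)) * (1 / 2) := by rw [hPB]; linarith
        exact le_of_mul_le_mul_left h8 hB.pos)
      have h2 := hPD A _ hF (T06.Adm.fi hB) hA.fin hB.fin
      rw [T06.cross_diff hadd hF hF hNZm hNZA, T06.cross_self, ← hNZ,
        T06.cross_union hadd hF hNF hZNF hd, hNZ] at h2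
      have h4 : cross A N ≤ c * PP N := T06.cross_le hadd hF hNF (fun x hx => (hN hx).2.2.le)
      have h4' : cross A (Z \ N) ≤ M * PP (Z \ N) := T06.cross_le hadd hF hZNF
        (fun x hx => hMb x (hA.sub (hZA hx.1)))
      rw [hNP] at h4
      have h5 : EE A - c' * e ≤ EE (A \ (N ∪ Z)) := by
        have : M * PP (Z \ N) ≤ M * (δ * (K * e)) := by
          gcongr
          exact hPZN.trans hPZ
        have h6 : M * (δ * (K * e)) = M * (δ * K) * e := by ring
        have h7 : c' * e = c * e + M * (δ * K) * e := by rw [hc']; ring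
        linarith
      have h6 : (EE A - c' * e) ^ 3 ≤ EE (A \ (N ∪ Z)) ^ 3 := by
        apply pow_le_pow_left₀ _ h5
        exact he3.le
      have h7 : (0:ℝ) ≤ p ^ 4 := by positivity
      have h8 : PP (A \ (N ∪ Z)) ^ 4 ≤ (p - e) ^ 4 := by
        apply pow_le_pow_left₀ hB.pos.le
        rw [hPB]; linarith
      calc (EE A - c' * e) ^ 3 * p ^ 4 ≤ EE (A \ (N ∪ Z)) ^ 3 * p ^ 4 :=
            mul_le_mul_of_nonneg_right h6 h7
        _ ≤ EE A ^ 3 * PP (A \ (N ∪ Z)) ^ 4 := h1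
        _ ≤ EE A ^ 3 * (p - e) ^ 4 := mul_le_mul_of_nonneg_left h8 (by positivity)
    have h9 : c' < W := hδc
    rw [hW, lt_div_iff₀ (by positivity)] at h9
    nlinarith

end SV
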