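import Pool.Agent.Helper779.SV.T06

open MeasureTheory Set Filter Topology
open scoped Real

namespace SV
namespace T07

lemma refl_fst (c : ℝ) (x : ℝ × ℝ) : (refl c x).1 = 2 * c - x.1 := rfl
lemma refl_snd (c : ℝ) (x : ℝ × ℝ) : (refl c x).2 = x.2 := rfl

lemma refl_refl (c : ℝ) (x : ℝ × ℝ) : refl c (refl c x) = x := by
  apply Prod.ext
  · simp [refl]
  · simp [refl]

lemma refl_eq (c : ℝ) (x : ℝ × ℝ) (h : x.1 = c) : refl c x = x := by
  apply Prod.ext
  · simp [refl, h]; ring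
  · simp [refl]

lemma meas_refl (c : ℝ) : Measurable (refl c) := by
  unfold refl
  fun_prop

/-- the reflection as a measurable equivalence -/
def reflE (c : ℝ) : (ℝ × ℝ) ≃ᵐ (ℝ × ℝ) where
  toFun := refl c
  invFun := refl c
  left_inv := refl_refl c
  right_inv := refl_refl c
  measurable_toFun := meas_refl c
  measurable_invFun := meas_refl c

lemma emb_refl (c : ℝ) : MeasurableEmbedding (refl c) := (reflE c).measurableEmbedding

lemma mp_refl (c : ℝ) : MeasurePreserving (refl c) volume volume := by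
  have h : refl c = Prod.map (fun t : ℝ => 2 * c - t) (id : ℝ → ℝ) := rfl
  rw [h, Measure.volume_eq_prod]
  exact (Measure.measurePreserving_sub_left volume (2 * c)).prod (MeasurePreserving.id volume)

lemma int_refl (c : ℝ) (S : Set (ℝ × ℝ)) (f : ℝ × ℝ → ℝ) :
    ∫ y in refl c ⁻¹' S, f (refl c y) = ∫ y in S, f y :=
  (mp_refl c).setIntegral_preimage_emb (emb_refl c) f S

lemma vol_refl (c : ℝ) (S : Set (ℝ × ℝ)) : volume (refl c ⁻¹' S) = volume S :=
  (mp_refl c).measure_preimage_emb (emb_refl c) S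

lemma pre_pre (c : ℝ) (S : Set (ℝ × ℝ)) : refl c ⁻¹' (refl c ⁻¹' S) = S := by
  ext x
  simp only [mem_preimage, refl_refl]

lemma kap_refl (c : ℝ) (x y : ℝ × ℝ) : kap (refl c x) (refl c y) = kap x y := by
  have h : dsq (refl c x) (refl c y) = dsq x y := by
    unfold dsq refl
    ring
  unfold kap
  rw [h]
  rfl

lemma phi_refl (c : ℝ) (S : Set (ℝ × ℝ)) (x : ℝ × ℝ) :
    phi (refl c ⁻¹' S) x = phi S (refl c x) := by
  unfold phi
  rw [← int_refl c S]
  congr 1
  funext y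
  rw [kap_refl]
  rfl

lemma PP_refl (c : ℝ) (S : Set (ℝ × ℝ)) : PP (refl c ⁻¹' S) = PP S := by
  unfold PP
  rw [← int_refl c S]
  rfl

lemma cross_refl (c : ℝ) (A B : Set (ℝ × ℝ)) :
    cross (refl c ⁻¹' A) (refl c ⁻¹' B) = cross A B := by
  unfold cross
  rw [← int_refl c B]
  congr 1
  funext x
  rw [phi_refl]
  rfl

lemma EE_refl (c : ℝ) (A : Set (ℝ × ℝ)) : EE (refl c ⁻¹' A) = EE A := by
  unfold EE
  rw [cross_refl]

lemma Fi_refl (c : ℝ) {A : Set (ℝ × ℝ)} (h : Fi A) : Fi (refl c ⁻¹' A) := by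
  refine ⟨meas_refl c h.meas, ?_, ?_⟩
  · intro x hx
    have h1 : 0 < (refl c x).2 := h.sub hx
    exact h1
  · exact ((mp_refl c).integrableOn_comp_preimage (emb_refl c)).2 h.int

lemma Adm_refl (c : ℝ) {A : Set (ℝ × ℝ)} (h : Adm A) : Adm (refl c ⁻¹' A) := by
  have := Fi_refl c (T06.Adm.fi h)
  refine ⟨this.meas, this.sub, ?_, this.int, ?_⟩
  · rw [vol_refl]; exact h.fin
  · rw [PP_refl]; exact h.pos

lemma meas_Dp (c : ℝ) {A : Set (ℝ × ℝ)} (h : MeasurableSet A) : MeasurableSet (Dp c A) := by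
  have : Dp c A = {x : ℝ × ℝ | x.1 < c} ∩ (A \ refl c ⁻¹' A) := rfl
  rw [this]
  exact (measurableSet_lt measurable_fst measurable_const).inter (h.diff (meas_refl c h))

lemma meas_Dm (c : ℝ) {A : Set (ℝ × ℝ)} (h : MeasurableSet A) : MeasurableSet (Dm c A) := by
  have : Dm c A = {x : ℝ × ℝ | x.1 < c} ∩ (refl c ⁻¹' A \ A) := by
    ext x
    constructor
    · rintro ⟨h1, h2, h3⟩; exact ⟨h1, h3, h2⟩
    · rintro ⟨h1, h2, h3⟩; exact ⟨h1, h3, h2⟩
  rw [this]
  exact (measurableSet_lt measurable_fst measurable_const).inter ((meas_refl c h).diff h)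

/-- symmetric core -/
def core (c : ℝ) (A : Set (ℝ × ℝ)) : Set (ℝ × ℝ) := A ∩ refl c ⁻¹' A

lemma refl_core (c : ℝ) (A : Set (ℝ × ℝ)) : refl c ⁻¹' (core c A) = core c A := by
  unfold core
  rw [preimage_inter, pre_pre, inter_comm]

lemma decomp (c : ℝ) (A : Set (ℝ × ℝ)) :
    A = (core c A ∪ Dp c A) ∪ refl c ⁻¹' (Dm c A) := by
  ext x
  constructor
  · intro hx
    by_cases h : refl c x ∈ A
    · exact Or.inl (Or.inl ⟨hx, h⟩)
    · rcases lt_trichotomy x.1 c with h1 | h1 | h1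
      · exact Or.inl (Or.inr ⟨h1, hx, h⟩)
      · exact absurd (by rw [refl_eq c x h1]; exact hx) h
      · refine Or.inr ⟨?_, h, ?_⟩
        · rw [refl_fst]; linarith
        · rw [refl_refl]; exact hx
  · rintro ((h | h) | h)
    · exact h.1
    · exact h.2.1
    · have := h.2.2
      rwa [refl_refl] at this

lemma pol_eq (c : ℝ) (A : Set (ℝ × ℝ)) :
    pol c A = (core c A ∪ Dp c A) ∪ Dm c A := by
  ext x
  constructor
  · rintro (⟨h1, h2⟩ | ⟨h1, h2, h3⟩)
    · by_cases hx : x ∈ A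
      · by_cases h : refl c x ∈ A
        · exact Or.inl (Or.inl ⟨hx, h⟩)
        · refine Or.inl (Or.inr ⟨?_, hx, h⟩)
          refine lt_of_le_of_ne h1 (fun h4 => h ?_)
          rw [refl_eq c x h4]; exact hx
      · have h : refl c x ∈ A := h2.resolve_left hx
        refine Or.inr ⟨?_, hx, h⟩
        refine lt_of_le_of_ne h1 (fun h4 => hx ?_)
        rw [refl_eq c x h4] at h; exact h
    · exact Or.inl (Or.inl ⟨h2, h3⟩)
  · rintro ((h | h) | h)
    · rcases le_or_gt x.1 c with h1 | h1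
      · exact Or.inl ⟨h1, Or.inl h.1⟩
      · exact Or.inr ⟨h1, h.1, h.2⟩
    · exact Or.inl ⟨h.1.le, Or.inl h.2.1⟩
    · exact Or.inl ⟨h.1.le, Or.inr h.2.2⟩

lemma polr_eq (c : ℝ) (A : Set (ℝ × ℝ)) : polr c A = refl c ⁻¹' (pol c A) := by
  ext x
  constructor
  · rintro (⟨h1, h2⟩ | ⟨h1, h2, h3⟩)
    · refine Or.inl ⟨?_, ?_⟩
      · rw [refl_fst]; linarith
      · rw [refl_refl]; exact h2.symm
    · refine Or.inr ⟨?_, ?_⟩
      · rw [refl_fst]; linarith
      · rw [refl_refl]; exact ⟨h3, h2⟩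
  · rintro (⟨h1, h2⟩ | ⟨h1, h2, h3⟩)
    · rw [refl_fst] at h1; rw [refl_refl] at h2
      exact Or.inl ⟨by linarith, h2.symm⟩
    · rw [refl_fst] at h1; rw [refl_refl] at h3
      exact Or.inr ⟨by linarith, h3, h2⟩

lemma disj1 (c : ℝ) (A : Set (ℝ × ℝ)) : Disjoint (core c A) (Dp c A) := by
  rw [Set.disjoint_left]
  intro x hx hx'
  exact hx'.2.2 hx.2

lemma disj2 (c : ℝ) (A : Set (ℝ × ℝ)) : Disjoint (core c A ∪ Dp c A) (refl c ⁻¹' (Dm c A)) := by
  rw [Set.disjoint_left]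
  rintro x (hx | hx) hx'
  · exact hx'.2.1 hx.2
  · have h1 : (refl c x).1 < c := hx'.1
    have h2 : x.1 < c := hx.1
    rw [refl_fst] at h1
    linarith

lemma disj3 (c : ℝ) (A : Set (ℝ × ℝ)) : Disjoint (core c A ∪ Dp c A) (Dm c A) := by
  rw [Set.disjoint_left]
  rintro x (hx | hx) hx'
  · exact hx'.2.1 hx.1
  · exact hx'.2.1 hx.2.1

lemma kap_refl_lt (hkk : S_kk) {c : ℝ} {x y : ℝ × ℝ} (hx : 0 ≤ x.2) (hy : 0 < y.2)
    (hxc : x.1 < c) (hyc : y.1 < c) (hxy : x ≠ y) : kap (refl c x) y < kap x y := by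
  unfold kap
  have h1 : dsq x y < dsq (refl c x) y := by
    unfold dsq
    rw [refl_fst, refl_snd]
    nlinarith [mul_pos (sub_pos.2 hxc) (sub_pos.2 hyc)]
  have h2 := ((hkk (dsq x y) (4 * x.2 * y.2) (T06.dsq_pos hxy) (by positivity)).2.2.2.2.2.2
    (dsq (refl c x) y) (4 * x.2 * y.2) h1.le le_rfl).2 h1
  rw [refl_snd]
  have h3 := Real.pi_pos
  exact mul_lt_mul_of_pos_left h2 (by positivity)

lemma phi_refl_sub (hint : S_int) {S : Set (ℝ × ℝ)} (hS : Fi S) {c : ℝ} {x : ℝ × ℝ}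
    (hx : 0 ≤ x.2) :
    phi S x - phi S (refl c x) = ∫ y in S, (kap x y - kap (refl c x) y) * y.2 := by
  unfold phi
  rw [← integral_sub (hint S hS x hx) (hint S hS (refl c x) hx)]
  congr 1
  funext y
  ring

lemma phi_refl_le (hint : S_int) (hkk : S_kk) {S : Set (ℝ × ℝ)} (hS : Fi S) {c : ℝ}
    (hSc : ∀ y ∈ S, y.1 < c) {x : ℝ × ℝ} (hx : 0 ≤ x.2) (hxc : x.1 < c) :
    phi S (refl c x) ≤ phi S x := by
  have h := phi_refl_sub hint hS (c := c) hx
  have h1 : 0 ≤ ∫ y in S, (kap x y - kap (refl c x) y) * y.2 := by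
    apply setIntegral_nonneg_of_ae_restrict
    filter_upwards [ae_restrict_mem hS.meas, ae_restrict_of_ae (Measure.ae_ne volume x)] with y hy hy'
    have hy2 : 0 < y.2 := hS.sub hy
    have := kap_refl_lt hkk hx hy2 hxc (hSc y hy) hy'.symm
    exact mul_nonneg (by linarith) hy2.le
  linarith

lemma phi_refl_lt (hint : S_int) (hkk : S_kk) {S : Set (ℝ × ℝ)} (hS : Fi S) {c : ℝ}
    (hSc : ∀ y ∈ S, y.1 < c) (h0 : volume S ≠ 0) {x : ℝ × ℝ} (hx : 0 ≤ x.2) (hxc : x.1 < c) :
    phi S (refl c x) < phi S x := by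
  have h := phi_refl_sub hint hS (c := c) hx
  have h1 : 0 < ∫ y in S, (kap x y - kap (refl c x) y) * y.2 := by
    rw [setIntegral_pos_iff_support_of_nonneg_ae]
    · have : S \ {x} ⊆ Function.support (fun y : ℝ × ℝ => (kap x y - kap (refl c x) y) * y.2) ∩ S := by
        intro y hy
        refine ⟨?_, hy.1⟩
        have hy2 : 0 < y.2 := hS.sub hy.1
        have := kap_refl_lt hkk hx hy2 hxc (hSc y hy.1) (fun h => hy.2 h.symm)
        exact (mul_pos (by linarith) hy2).ne'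
      refine lt_of_lt_of_le ?_ (measure_mono this)
      rw [measure_diff_null (measure_singleton x)]
      exact pos_iff_ne_zero.2 h0
    · filter_upwards [ae_restrict_mem hS.meas, ae_restrict_of_ae (Measure.ae_ne volume x)] with y hy hy'
      have hy2 : 0 < y.2 := hS.sub hy
      have := kap_refl_lt hkk hx hy2 hxc (hSc y hy) hy'.symm
      exact mul_nonneg (by linarith) hy2.le
    · have := (hint S hS x hx).sub (hint S hS (refl c x) hx)
      refine this.congr ?_
      filter_upwards with y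
      simp only [Pi.sub_apply]
      ring
  linarith

lemma cross_comm (hadd : S_add) {A B : Set (ℝ × ℝ)} (hA : Fi A) (hB : Fi B) :
    cross A B = cross B A := (hadd A B hA hB).1

lemma EE_union (hadd : S_add) {A B : Set (ℝ × ℝ)} (hA : Fi A) (hB : Fi B) (hd : Disjoint A B) :
    EE (A ∪ B) = EE A + EE B + cross A B := ((hadd A B hA hB).2.2.2 hd).2.2.2

lemma Fi_parts (c : ℝ) {A : Set (ℝ × ℝ)} (hA : Fi A) :
    Fi (core c A) ∧ Fi (Dp c A) ∧ Fi (Dm c A) := by
  refine ⟨T06.Fi.mono hA (hA.meas.inter (meas_refl c hA.meas)) inter_subset_left,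
    T06.Fi.mono hA (meas_Dp c hA.meas) (fun x hx => hx.2.1),
    T06.Fi.mono (Fi_refl c hA) (meas_Dm c hA.meas) (fun x hx => hx.2.2)⟩

lemma EE_pol (hadd : S_add) (c : ℝ) {A : Set (ℝ × ℝ)} (hA : Fi A) :
    EE (pol c A) - EE A = ∫ x in Dm c A, (phi (Dp c A) x - phi (Dp c A) (refl c x)) * x.2 := by
  obtain ⟨hC, hp, hm⟩ := Fi_parts c hA
  have hm' := Fi_refl c hm
  have hX : Fi (core c A ∪ Dp c A) := T06.Fi.union hC hp
  have e1 : EE A = EE (core c A ∪ Dp c A) + EE (refl c ⁻¹' (Dm c A)) +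
      cross (core c A ∪ Dp c A) (refl c ⁻¹' (Dm c A)) := by
    rw [← EE_union hadd hX hm' (disj2 c A), ← decomp c A]
  have e2 : EE (pol c A) = EE (core c A ∪ Dp c A) + EE (Dm c A) +
      cross (core c A ∪ Dp c A) (Dm c A) := by
    rw [← EE_union hadd hX hm (disj3 c A), ← pol_eq c A]
  have e3 : cross (core c A ∪ Dp c A) (refl c ⁻¹' (Dm c A)) =
      cross (core c A) (Dm c A) + cross (Dp c A) (refl c ⁻¹' (Dm c A)) := by
    rw [cross_comm hadd hX hm', T06.cross_union hadd hm' hC hp (disj1 c A),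
      cross_comm hadd hm' hC, cross_comm hadd hm' hp]
    congr 1
    nth_rewrite 1 [← refl_core c A]
    rw [cross_refl]
  have e4 : cross (core c A ∪ Dp c A) (Dm c A) =
      cross (core c A) (Dm c A) + cross (Dp c A) (Dm c A) := by
    rw [cross_comm hadd hX hm, T06.cross_union hadd hm hC hp (disj1 c A),
      cross_comm hadd hm hC, cross_comm hadd hm hp]
  have e5 : cross (Dp c A) (refl c ⁻¹' (Dm c A)) =
      ∫ x in Dm c A, phi (Dp c A) (refl c x) * x.2 := by
    unfold cross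
    rw [← int_refl c (Dm c A)]
    congr 1
    funext x
    rw [refl_refl]
    rfl
  have e6 : IntegrableOn (fun x => phi (Dp c A) (refl c x) * x.2) (Dm c A) := by
    have h1 := (hadd (refl c ⁻¹' (Dp c A)) (Dm c A) (Fi_refl c hp) hm).2.1
    refine h1.congr ?_
    filter_upwards with x
    rw [phi_refl]
  have e7 : cross (Dp c A) (Dm c A) - cross (Dp c A) (refl c ⁻¹' (Dm c A)) =
      ∫ x in Dm c A, (phi (Dp c A) x - phi (Dp c A) (refl c x)) * x.2 := by
    rw [e5]
    unfold cross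
    rw [← integral_sub (hadd (Dp c A) (Dm c A) hp hm).2.1 e6]
    congr 1
    funext x
    ring
  rw [← e7, e1, e2, e3, e4, EE_refl]
  ring

lemma pol_main (hint : S_int) (hkk : S_kk) (hadd : S_add) {A : Set (ℝ × ℝ)} (hA : Adm A) (c : ℝ) :
    Adm (pol c A) ∧ PP (pol c A) = PP A ∧ volume (pol c A) = volume A ∧ EE A ≤ EE (pol c A) ∧
    (volume (Dp c A) ≠ 0 → volume (Dm c A) ≠ 0 → EE A < EE (pol c A)) := by
  have hF := T06.Adm.fi hA
  obtain ⟨hC, hp, hm⟩ := Fi_parts c hF
  have hm' := Fi_refl c hm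
  have hX : Fi (core c A ∪ Dp c A) := T06.Fi.union hC hp
  have hPF : Fi (pol c A) := by rw [pol_eq]; exact T06.Fi.union hX hm
  have hPP : PP (pol c A) = PP A := by
    have h1 : PP A = PP ((core c A ∪ Dp c A) ∪ refl c ⁻¹' (Dm c A)) := congrArg PP (decomp c A)
    rw [pol_eq, T06.PP_union hX hm (disj3 c A), h1, T06.PP_union hX hm' (disj2 c A), PP_refl]
  have hvol : volume (pol c A) = volume A := by
    have h1 : volume A = volume ((core c A ∪ Dp c A) ∪ refl c ⁻¹' (Dm c A)) :=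
      congrArg volume (decomp c A)
    rw [pol_eq, measure_union (disj3 c A) hm.meas, h1, measure_union (disj2 c A) hm'.meas, vol_refl]
  have hE := EE_pol hadd c hF
  have hnn : ∀ x ∈ Dm c A, 0 ≤ (phi (Dp c A) x - phi (Dp c A) (refl c x)) * x.2 := by
    intro x hx
    have hx2 : 0 < x.2 := hm.sub hx
    have := phi_refl_le hint hkk hp (c := c) (fun y hy => hy.1) hx2.le hx.1
    exact mul_nonneg (by linarith) hx2.le
  refine ⟨⟨hPF.meas, hPF.sub, by rw [hvol]; exact hA.fin, hPF.int, by rw [hPP]; exact hA.pos⟩,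
    hPP, hvol, ?_, ?_⟩
  · have := setIntegral_nonneg (μ := volume) hm.meas hnn
    linarith
  · intro h1 h2
    have : 0 < ∫ x in Dm c A, (phi (Dp c A) x - phi (Dp c A) (refl c x)) * x.2 := by
      rw [setIntegral_pos_iff_support_of_nonneg_ae]
      · have : Function.support (fun x : ℝ × ℝ =>
            (phi (Dp c A) x - phi (Dp c A) (refl c x)) * x.2) ∩ Dm c A = Dm c A := by
          ext x
          simp only [mem_inter_iff, Function.mem_support, and_iff_right_iff_imp]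
          intro hx
          have hx2 : 0 < x.2 := hm.sub hx
          have := phi_refl_lt hint hkk hp (c := c) (fun y hy => hy.1) h1 hx2.le hx.1
          exact (mul_pos (by linarith) hx2).ne'
        rw [this]
        exact pos_iff_ne_zero.2 h2
      · filter_upwards [ae_restrict_mem hm.meas] with x hx
        exact hnn x hx
      · have e6 : IntegrableOn (fun x => phi (Dp c A) (refl c x) * x.2) (Dm c A) := by
          have h1 := (hadd (refl c ⁻¹' (Dp c A)) (Dm c A) (Fi_refl c hp) hm).2.1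
          refine h1.congr ?_
          filter_upwards with x
          rw [phi_refl]
        refine ((hadd (Dp c A) (Dm c A) hp hm).2.1.sub e6).congr ?_
        filter_upwards with x
        simp only [Pi.sub_apply]
        ring
    linarith

end T07

theorem t_pol (hint : S_int) (hkk : S_kk) (hadd : S_add) : S_pol := by
  intro A hA c
  have h := T07.pol_main hint hkk hadd hA c
  refine ⟨h, ?_⟩
  rw [T07.polr_eq, T07.PP_refl, T07.vol_refl, T07.EE_refl]
  exact ⟨T07.Adm_refl c h.1, h.2⟩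

theorem t_bal (hadd : S_add) (hpol : S_pol) : S_bal := by
  constructor
  · intro A hJ c
    by_contra hcon
    push Not at hcon
    obtain ⟨hA, hmax⟩ := hJ
    obtain ⟨⟨h1, h2, h3, h4, h5⟩, -⟩ := hpol A hA c
    have h6 := h5 hcon.1 hcon.2
    have h7 := hmax _ h1
    rw [h2] at h7
    have h8 : 0 < PP A ^ 4 := by have := hA.pos; positivity
    have h9 := le_of_mul_le_mul_right h7 h8
    have h10 := T06.E_nonneg hadd (T06.Adm.fi hA)
    have h11 : EE A ^ 3 < EE (pol c A) ^ 3 := pow_lt_pow_left₀ h6 h10 (by norm_num)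
    linarith
  · intro p A hS c
    by_contra hcon
    push Not at hcon
    obtain ⟨hA, hp, ha, hmax⟩ := hS
    obtain ⟨⟨h1, h2, h3, h4, h5⟩, -⟩ := hpol A hA c
    have h6 := h5 hcon.1 hcon.2
    have h7 := hmax _ h1 (by rw [h2]; exact hp) (by unfold ar at ha ⊢; rw [h3]; exact ha)
    linarith


namespace T07

lemma meas_lt_fst (c : ℝ) : MeasurableSet {x : ℝ × ℝ | x.1 < c} :=
  measurableSet_lt measurable_fst measurable_const

lemma meas_gt_fst (c : ℝ) : MeasurableSet {x : ℝ × ℝ | c < x.1} :=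
  measurableSet_lt measurable_const measurable_fst

/-- `|D₊| + |A ∩ {x.1 > c}| = |D₋| + |A ∩ {x.1 < c}|` -/
lemma vol_balance (c : ℝ) {A : Set (ℝ × ℝ)} (hA : MeasurableSet A) :
    volume (Dp c A) + volume (A ∩ {x | c < x.1}) = volume (Dm c A) + volume (A ∩ {x | x.1 < c}) := by
  have h1 : A ∩ {x | x.1 < c} = (core c A ∩ {x | x.1 < c}) ∪ Dp c A := by
    ext x
    constructor
    · rintro ⟨hx, hx'⟩
      by_cases h : refl c x ∈ A
      · exact Or.inl ⟨⟨hx, h⟩, hx'⟩
      · exact Or.inr ⟨hx', hx, h⟩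
    · rintro (⟨h1, h2⟩ | h)
      · exact ⟨h1.1, h2⟩
      · exact ⟨h.2.1, h.1⟩
  have h2 : refl c ⁻¹' (A ∩ {x | c < x.1}) = (core c A ∩ {x | x.1 < c}) ∪ Dm c A := by
    ext x
    constructor
    · rintro ⟨hx, hx'⟩
      have hx2 : c < (refl c x).1 := hx'
      rw [refl_fst] at hx2
      by_cases h : x ∈ A
      · exact Or.inl ⟨⟨h, hx⟩, (by linarith : x.1 < c)⟩
      · exact Or.inr ⟨(by linarith : x.1 < c), h, hx⟩
    · rintro (⟨h1, h2⟩ | h)
      · have h3 : x.1 < c := h2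
        exact ⟨h1.2, (by rw [refl_fst]; linarith : c < (refl c x).1)⟩
      · have h3 : x.1 < c := h.1
        exact ⟨h.2.2, (by rw [refl_fst]; linarith : c < (refl c x).1)⟩
  have d1 : Disjoint (core c A ∩ {x | x.1 < c}) (Dp c A) :=
    (disj1 c A).mono_left inter_subset_left
  have d2 : Disjoint (core c A ∩ {x | x.1 < c}) (Dm c A) :=
    (disj3 c A).mono_left (inter_subset_left.trans subset_union_left)
  rw [← vol_refl c (A ∩ {x | c < x.1}), h1, h2, measure_union d1 (meas_Dp c hA),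
    measure_union d2 (meas_Dm c hA)]
  ring

lemma vol_split (c : ℝ) {A : Set (ℝ × ℝ)} (hA : MeasurableSet A) :
    volume A = volume (A ∩ {x | x.1 < c}) + volume (A ∩ {x | c < x.1}) := by
  have h1 : volume (A ∩ {x | c ≤ x.1}) = volume (A ∩ {x | c < x.1}) := by
    apply measure_congr
    have h2 : ∀ᵐ x : ℝ × ℝ, x.1 ≠ c := by
      rw [ae_iff]; simpa using T06.null_line c
    filter_upwards [h2] with x hx
    apply propext
    constructor
    · rintro ⟨h3, h4⟩
      exact ⟨h3, lt_of_le_of_ne h4 (Ne.symm hx)⟩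
    · rintro ⟨h3, h4⟩
      have h5 : c < x.1 := h4
      exact ⟨h3, h5.le⟩
  rw [← h1]
  have h3 := measure_inter_add_diff (μ := volume) A (meas_lt_fst c)
  rw [← h3]
  congr 2
  ext x
  constructor
  · rintro ⟨h4, h5⟩
    rcases lt_or_ge x.1 c with h6 | h6
    · exact absurd h6 h5
    · exact ⟨h4, h6⟩
  · rintro ⟨h4, h5⟩
    have h7 : c ≤ x.1 := h5
    refine ⟨h4, fun h6 => ?_⟩
    have h8 : x.1 < c := h6
    linarith

lemma cut_cont {A : Set (ℝ × ℝ)} (hf : volume A ≠ ⊤) :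
    Continuous (fun t : ℝ => (volume (A ∩ {x | x.1 ≤ t})).toReal) := by
  have h := T06.cont_cut A (fun _ => (1 : ℝ)) (integrableOn_const hf)
  refine h.congr fun t => ?_
  exact (T06.ar_eq _).symm

lemma small_tail {A : Set (ℝ × ℝ)} (hA : MeasurableSet A) (hf : volume A ≠ ⊤) :
    Tendsto (fun n : ℕ => volume (A ∩ {x : ℝ × ℝ | (n : ℝ) ≤ |x.1|})) atTop (𝓝 0) := by
  have hm : ∀ n : ℕ, MeasurableSet (A ∩ {x : ℝ × ℝ | (n : ℝ) ≤ |x.1|}) := fun n =>
    hA.inter (measurableSet_le measurable_const (measurable_fst.abs))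
  have h := tendsto_measure_iInter_atTop (μ := volume)
    (s := fun n : ℕ => A ∩ {x : ℝ × ℝ | (n : ℝ) ≤ |x.1|}) (fun n => (hm n).nullMeasurableSet)
    (by
      intro m n hmn x hx
      have h1 : (n : ℝ) ≤ |x.1| := hx.2
      have h2 : (m : ℝ) ≤ (n : ℝ) := by exact_mod_cast hmn
      exact ⟨hx.1, (h2.trans h1 : (m : ℝ) ≤ |x.1|)⟩)
    ⟨0, (lt_of_le_of_lt (measure_mono inter_subset_left) hf.lt_top).ne⟩
  have h0 : ⋂ n : ℕ, A ∩ {x : ℝ × ℝ | (n : ℝ) ≤ |x.1|} = ∅ := by
    rw [eq_empty_iff_forall_notMem]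
    intro x hx
    rw [mem_iInter] at hx
    obtain ⟨n, hn⟩ := exists_nat_gt |x.1|
    have h1 : (n : ℝ) ≤ |x.1| := (hx n).2
    linarith
  rw [h0, measure_empty] at h
  exact h

lemma exists_median {A : Set (ℝ × ℝ)} (hA : MeasurableSet A) (hf : volume A ≠ ⊤)
    (h0 : volume A ≠ 0) :
    ∃ τ : ℝ, volume (A ∩ {x | x.1 < τ}) = volume (A ∩ {x | τ < x.1}) := by
  have hfin : ∀ S : Set (ℝ × ℝ), volume (A ∩ S) ≠ ⊤ := fun S =>
    (lt_of_le_of_lt (measure_mono inter_subset_left) hf.lt_top).ne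
  have ht := small_tail hA hf
  have hpos : 0 < volume A / 2 := by
    simp [h0]
  obtain ⟨n, hn⟩ := (ht.eventually (gt_mem_nhds hpos)).exists
  have hneg : -(n : ℝ) ≤ n := by
    have : (0 : ℝ) ≤ n := Nat.cast_nonneg n
    linarith
  have hr : (volume (A ∩ {x : ℝ × ℝ | (n : ℝ) ≤ |x.1|})).toReal < (volume A).toReal / 2 := by
    have := (ENNReal.toReal_lt_toReal (hfin _) (ENNReal.div_ne_top hf (by norm_num))).2 hn
    rwa [ENNReal.toReal_div, ENNReal.toReal_ofNat] at this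
  have h1 : (volume (A ∩ {x : ℝ × ℝ | x.1 ≤ -(n : ℝ)})).toReal ≤ (volume A).toReal / 2 := by
    refine le_trans ?_ hr.le
    apply ENNReal.toReal_mono (hfin _)
    apply measure_mono
    intro x hx
    have h2 : x.1 ≤ -(n : ℝ) := hx.2
    have h3 : (n : ℝ) ≤ |x.1| := by
      have := neg_abs_le x.1
      linarith
    exact ⟨hx.1, h3⟩
  have h2 : (volume A).toReal / 2 ≤ (volume (A ∩ {x : ℝ × ℝ | x.1 ≤ (n : ℝ)})).toReal := by
    have h3 : (volume A).toReal ≤ (volume (A ∩ {x : ℝ × ℝ | x.1 ≤ (n : ℝ)})).toReal +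
        (volume (A ∩ {x : ℝ × ℝ | (n : ℝ) ≤ |x.1|})).toReal := by
      rw [← ENNReal.toReal_add (hfin _) (hfin _)]
      apply ENNReal.toReal_mono (ENNReal.add_ne_top.2 ⟨hfin _, hfin _⟩)
      refine le_trans (measure_mono ?_) (measure_union_le _ _)
      intro x hx
      rcases le_total x.1 (n : ℝ) with h4 | h4
      · exact Or.inl ⟨hx, h4⟩
      · exact Or.inr ⟨hx, (h4.trans (le_abs_self _) : (n : ℝ) ≤ |x.1|)⟩
    linarith
  obtain ⟨τ, -, hτ⟩ := intermediate_value_Icc hneg (cut_cont hf).continuousOn ⟨h1, h2⟩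
  refine ⟨τ, ?_⟩
  have h3 : volume (A ∩ {x | x.1 ≤ τ}) = volume (A ∩ {x | x.1 < τ}) := by
    apply measure_congr
    have h2 : ∀ᵐ x : ℝ × ℝ, x.1 ≠ τ := by
      rw [ae_iff]; simpa using T06.null_line τ
    filter_upwards [h2] with x hx
    apply propext
    constructor
    · rintro ⟨h3, h4⟩
      exact ⟨h3, lt_of_le_of_ne h4 hx⟩
    · rintro ⟨h3, h4⟩
      have h5 : x.1 < τ := h4
      exact ⟨h3, h5.le⟩
  have h4 := vol_split τ hA
  have h5 : (volume A).toReal = (volume (A ∩ {x | x.1 < τ})).toReal +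
      (volume (A ∩ {x | τ < x.1})).toReal := by
    rw [← ENNReal.toReal_add (hfin _) (hfin _), ← h4]
  simp only at hτ
  rw [h3] at hτ
  rw [← ENNReal.toReal_eq_toReal_iff' (hfin _) (hfin _)]
  linarith

lemma vol_ne_top_parts (c : ℝ) {A : Set (ℝ × ℝ)} (hf : volume A ≠ ⊤) :
    volume (Dp c A) ≠ ⊤ ∧ volume (Dm c A) ≠ ⊤ := by
  constructor
  · exact (lt_of_le_of_lt (measure_mono (fun x hx => hx.2.1)) hf.lt_top).ne
  · rw [← vol_refl c A] at hf
    exact (lt_of_le_of_lt (measure_mono (fun x hx => hx.2.2)) hf.lt_top).ne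

lemma stA_of_bal {A : Set (ℝ × ℝ)} (hA : MeasurableSet A) (hf : volume A ≠ ⊤) (hb : Bal A) {τ : ℝ}
    (hτ : volume (A ∩ {x | x.1 < τ}) = volume (A ∩ {x | τ < x.1})) : StA τ A := by
  have hfin : ∀ S : Set (ℝ × ℝ), volume (A ∩ S) ≠ ⊤ := fun S =>
    (lt_of_le_of_lt (measure_mono inter_subset_left) hf.lt_top).ne
  intro c
  constructor
  · intro hc
    rcases hb c with h | h
    · have h1 := vol_balance c hA
      rw [h, zero_add] at h1
      have h2 : volume (A ∩ {x | c < x.1}) ≤ volume (A ∩ {x | x.1 < c}) := by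
        calc volume (A ∩ {x | c < x.1}) ≤ volume (A ∩ {x | τ < x.1}) := by
              apply measure_mono
              intro x hx
              have h3 : c < x.1 := hx.2
              exact ⟨hx.1, (by linarith : τ < x.1)⟩
          _ = volume (A ∩ {x | x.1 < τ}) := hτ.symm
          _ ≤ volume (A ∩ {x | x.1 < c}) := by
              apply measure_mono
              intro x hx
              have h3 : x.1 < τ := hx.2
              exact ⟨hx.1, (by linarith : x.1 < c)⟩
      rw [h1] at h2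
      have h3 : volume (Dm c A) + volume (A ∩ {x | x.1 < c}) ≤ 0 + volume (A ∩ {x | x.1 < c}) := by
        rw [zero_add]; exact h2
      have h4 := ENNReal.le_of_add_le_add_right (hfin _) h3
      exact le_antisymm h4 zero_le
    · exact h
  · intro hc
    rcases hb c with h | h
    · exact h
    · have h1 := vol_balance c hA
      rw [h, zero_add] at h1
      have h2 : volume (A ∩ {x | x.1 < c}) ≤ volume (A ∩ {x | c < x.1}) := by
        calc volume (A ∩ {x | x.1 < c}) ≤ volume (A ∩ {x | x.1 < τ}) := by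
              apply measure_mono
              intro x hx
              have h3 : x.1 < c := hx.2
              exact ⟨hx.1, (by linarith : x.1 < τ)⟩
          _ = volume (A ∩ {x | τ < x.1}) := hτ
          _ ≤ volume (A ∩ {x | c < x.1}) := by
              apply measure_mono
              intro x hx
              have h3 : τ < x.1 := hx.2
              exact ⟨hx.1, (by linarith : c < x.1)⟩
      rw [← h1] at h2
      have h3 : volume (Dp c A) + volume (A ∩ {x | c < x.1}) ≤ 0 + volume (A ∩ {x | c < x.1}) := by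
        rw [zero_add]; exact h2
      have h4 := ENNReal.le_of_add_le_add_right (hfin _) h3
      exact le_antisymm h4 zero_le

lemma ae_refl_of_null {c : ℝ} {A : Set (ℝ × ℝ)} (h1 : volume (Dp c A) = 0)
    (h2 : volume (Dm c A) = 0) : (refl c ⁻¹' A : Set (ℝ × ℝ)) =ᵐ[volume] A := by
  have h3 : volume (refl c ⁻¹' (Dp c A)) = 0 := by rw [vol_refl]; exact h1
  have h4 : volume (refl c ⁻¹' (Dm c A)) = 0 := by rw [vol_refl]; exact h2
  have k1 : ∀ᵐ x : ℝ × ℝ, x ∉ Dp c A := measure_eq_zero_iff_ae_notMem.1 h1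
  have k2 : ∀ᵐ x : ℝ × ℝ, x ∉ Dm c A := measure_eq_zero_iff_ae_notMem.1 h2
  have k3 : ∀ᵐ x : ℝ × ℝ, x ∉ refl c ⁻¹' (Dp c A) := measure_eq_zero_iff_ae_notMem.1 h3
  have k4 : ∀ᵐ x : ℝ × ℝ, x ∉ refl c ⁻¹' (Dm c A) := measure_eq_zero_iff_ae_notMem.1 h4
  filter_upwards [k1, k2, k3, k4] with x m1 m2 m3 m4
  apply propext
  constructor
  · intro hx
    by_contra hxA
    rcases lt_trichotomy x.1 c with h | h | h
    · exact m2 ⟨h, hxA, hx⟩
    · have hx' : refl c x ∈ A := hx
      rw [refl_eq c x h] at hx'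
      exact hxA hx'
    · apply m3
      refine ⟨?_, hx, ?_⟩
      · rw [refl_fst]; linarith
      · rw [refl_refl]; exact hxA
  · intro hx
    by_contra hxA
    rcases lt_trichotomy x.1 c with h | h | h
    · exact m1 ⟨h, hx, hxA⟩
    · apply hxA
      have : refl c x ∈ A := by rw [refl_eq c x h]; exact hx
      exact this
    · apply m4
      refine ⟨?_, hxA, ?_⟩
      · rw [refl_fst]; linarith
      · rw [refl_refl]; exact hx

lemma phi_congr {A B : Set (ℝ × ℝ)} (h : A =ᵐ[volume] B) (x : ℝ × ℝ) : phi A x = phi B x := by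
  unfold phi
  rw [Measure.restrict_congr_set h]

lemma vol_half_refl {c : ℝ} {A : Set (ℝ × ℝ)} (h : (refl c ⁻¹' A : Set (ℝ × ℝ)) =ᵐ[volume] A)
    (s : ℝ) : volume (A ∩ {x | s < x.1}) = volume (A ∩ {x | x.1 < 2 * c - s}) := by
  have h1 : volume (A ∩ {x | s < x.1}) = volume (refl c ⁻¹' A ∩ {x | s < x.1}) := by
    apply measure_congr
    exact (h.symm).inter (ae_eq_refl _)
  have h2 : refl c ⁻¹' A ∩ {x | s < x.1} = refl c ⁻¹' (A ∩ {x | x.1 < 2 * c - s}) := by
    ext x
    constructor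
    · rintro ⟨h3, h4⟩
      have h5 : s < x.1 := h4
      exact ⟨h3, (by rw [refl_fst]; linarith : (refl c x).1 < 2 * c - s)⟩
    · rintro ⟨h3, h4⟩
      have h5 : (refl c x).1 < 2 * c - s := h4
      rw [refl_fst] at h5
      exact ⟨h3, (by linarith : s < x.1)⟩
  rw [h1, h2, vol_refl]

lemma no_two_axes {A : Set (ℝ × ℝ)} (hA : MeasurableSet A) (hf : volume A ≠ ⊤)
    (h0 : volume A ≠ 0) {τ c : ℝ} (hτc : τ < c)
    (h1 : (refl τ ⁻¹' A : Set (ℝ × ℝ)) =ᵐ[volume] A)
    (h2 : (refl c ⁻¹' A : Set (ℝ × ℝ)) =ᵐ[volume] A) : False := by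
  have hstep : ∀ s : ℝ, volume (A ∩ {x | s < x.1}) = volume (A ∩ {x | s + 2 * (c - τ) < x.1}) := by
    intro s
    rw [vol_half_refl h1 s, vol_half_refl h2 (s + 2 * (c - τ))]
    have : 2 * c - (s + 2 * (c - τ)) = 2 * τ - s := by ring
    rw [this]
  have hk : ∀ (k : ℕ) (s : ℝ), volume (A ∩ {x | s < x.1}) =
      volume (A ∩ {x | s + k * (2 * (c - τ)) < x.1}) := by
    intro k
    induction k with
    | zero => intro s; simp
    | succ k ih =>
      intro s
      rw [ih s, hstep]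
      congr 2
      ext x
      simp only [mem_setOf_eq]
      push_cast
      constructor <;> intro h <;> linarith
  have hz : ∀ s : ℝ, volume (A ∩ {x | s < x.1}) = 0 := by
    intro s
    have ht := small_tail hA hf
    apply le_antisymm _ zero_le
    apply ge_of_tendsto ht
    filter_upwards with n
    -- choose k with s + k d ≥ n
    have hd : 0 < 2 * (c - τ) := by linarith
    obtain ⟨k, hk'⟩ := exists_nat_gt (((n : ℝ) - s) / (2 * (c - τ)))
    rw [div_lt_iff₀ hd] at hk'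
    rw [hk k s]
    apply measure_mono
    intro x hx
    have h3 : s + k * (2 * (c - τ)) < x.1 := hx.2
    have h4 : (n : ℝ) ≤ |x.1| := by
      have := le_abs_self x.1
      linarith
    exact ⟨hx.1, h4⟩
  apply h0
  have hsub : A ⊆ ⋃ n : ℕ, A ∩ {x : ℝ × ℝ | -(n : ℝ) < x.1} := by
    intro x hx
    obtain ⟨n, hn⟩ := exists_nat_gt |x.1|
    have h4 : -(n : ℝ) < x.1 := by
      have := neg_abs_le x.1
      linarith
    exact mem_iUnion.2 ⟨n, hx, h4⟩
  exact measure_mono_null hsub (measure_iUnion_null fun n => hz _)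

lemma phi_union (hadd : S_add) {A B : Set (ℝ × ℝ)} (hA : Fi A) (hB : Fi B) (hd : Disjoint A B)
    {x : ℝ × ℝ} (hx : 0 ≤ x.2) : phi (A ∪ B) x = phi A x + phi B x :=
  ((hadd A B hA hB).2.2.2 hd).2.2.1 x hx

lemma phi_strict (hint : S_int) (hkk : S_kk) (hadd : S_add) {A : Set (ℝ × ℝ)} (hA : Adm A)
    {τ : ℝ} (hst : StA τ A) {h a b : ℝ} (hh : 0 ≤ h) (ha : τ ≤ a) (hab : a < b) :
    phi A (b, h) < phi A (a, h) := by
  have hF := T06.Adm.fi hA
  have hv := T06.vol_ne_zero hA.pos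
  set c := (a + b) / 2 with hc
  have hτc : τ < c := by rw [hc]; linarith
  have hac : a < c := by rw [hc]; linarith
  obtain ⟨hC, hp, hm⟩ := Fi_parts c hF
  have hm0 : volume (Dm c A) = 0 := (hst c).1 hτc.le
  have hp0 : volume (Dp c A) ≠ 0 := by
    intro h1
    have h2 := ae_refl_of_null h1 hm0
    have h3 := ae_refl_of_null ((hst τ).2 le_rfl) ((hst τ).1 le_rfl)
    exact no_two_axes hA.meas hA.fin hv hτc h3 h2
  have hae : A =ᵐ[volume] (core c A ∪ Dp c A : Set (ℝ × ℝ)) := by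
    have h1 : (refl c ⁻¹' (Dm c A) : Set (ℝ × ℝ)) =ᵐ[volume] (∅ : Set (ℝ × ℝ)) := by
      rw [ae_eq_empty, vol_refl]; exact hm0
    have h2 : ((core c A ∪ Dp c A) ∪ refl c ⁻¹' (Dm c A) : Set (ℝ × ℝ)) =ᵐ[volume]
        ((core c A ∪ Dp c A) ∪ ∅ : Set (ℝ × ℝ)) := (ae_eq_refl _).union h1
    rw [← decomp c A, union_empty] at h2
    exact h2
  have hb : ((b, h) : ℝ × ℝ) = refl c (a, h) := by
    apply Prod.ext
    · show b = 2 * c - a
      rw [hc]; ring
    · rfl
  rw [hb, phi_congr hae, phi_congr hae (a, h),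
    phi_union hadd hC hp (disj1 c A) (x := (a, h)) hh,
    phi_union hadd hC hp (disj1 c A) (x := refl c (a, h)) hh, ← phi_refl c (core c A), refl_core]
  have := phi_refl_lt hint hkk hp (c := c) (fun y hy => hy.1) hp0 (x := (a, h)) hh hac
  linarith

end T07

theorem t_steiner (hint : S_int) (hkk : S_kk) (hadd : S_add) : S_steiner := by
  intro A hA hb
  have hv := T06.vol_ne_zero hA.pos
  obtain ⟨τ, hτ⟩ := T07.exists_median hA.meas hA.fin hv
  have hst := T07.stA_of_bal hA.meas hA.fin hb hτ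
  have hsym : ∀ h : ℝ, ∀ a : ℝ, phi A (τ + a, h) = phi A (τ - a, h) := by
    intro h a
    have h3 := T07.ae_refl_of_null ((hst τ).2 le_rfl) ((hst τ).1 le_rfl)
    rw [← T07.phi_congr h3 (τ - a, h), T07.phi_refl]
    congr 1
    apply Prod.ext
    · show τ + a = 2 * τ - (τ - a)
      ring
    · rfl
  have habs : ∀ h : ℝ, ∀ a : ℝ, phi A (a, h) = phi A (τ + |a - τ|, h) := by
    intro h a
    rcases le_total 0 (a - τ) with h1 | h1
    · rw [abs_of_nonneg h1]
      congr 2; ring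
    · rw [abs_of_nonpos h1, hsym]
      congr 2; ring
  refine ⟨τ, hst, fun h _ a => hsym h a, ?_⟩
  intro h hh a b hab
  rw [habs h a, habs h b]
  apply T07.phi_strict hint hkk hadd hA hst hh
  · have := abs_nonneg (a - τ); linarith
  · linarith

end SV
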