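import Pool.Agent.Helper779.SV.Stmts

/-!
# T10: the cylindrical formula (`S_cyl`)
-/

open MeasureTheory Set Filter Topology
open scoped Real ENNReal

namespace SV

namespace T10

/-- the angular integral -/
lemma ang (E s r : ℝ) (hr : 0 < r) (hE : 0 < E) :
    ∫ θ in (0:ℝ)..π, Real.sin θ / (E + (s - r * Real.cos θ) ^ 2 + (r * Real.sin θ) ^ 2)
      = 2 * kk (E + (|s| - r) ^ 2) (4 * |s| * r) := by
  have hD : ∀ θ : ℝ, E + (s - r * Real.cos θ) ^ 2 + (r * Real.sin θ) ^ 2
      = E + s ^ 2 - 2 * s * r * Real.cos θ + r ^ 2 := by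
    intro θ
    have h := Real.sin_sq_add_cos_sq θ
    have : Real.sin θ ^ 2 = 1 - Real.cos θ ^ 2 := by linarith
    calc E + (s - r * Real.cos θ) ^ 2 + (r * Real.sin θ) ^ 2
        = E + s ^ 2 - 2 * s * r * Real.cos θ + r ^ 2 * Real.cos θ ^ 2 + r ^ 2 * Real.sin θ ^ 2 := by ring
      _ = _ := by rw [this]; ring
  have hpos : ∀ θ : ℝ, 0 < E + s ^ 2 - 2 * s * r * Real.cos θ + r ^ 2 := by
    intro θ
    rw [← hD θ]
    positivity
  simp only [hD]
  rcases eq_or_ne s 0 with hs | hs
  · subst hs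
    have : ∀ θ : ℝ, Real.sin θ / (E + 0 ^ 2 - 2 * 0 * r * Real.cos θ + r ^ 2)
        = Real.sin θ * (1 / (E + r ^ 2)) := by
      intro θ
      rw [show E + (0:ℝ) ^ 2 - 2 * 0 * r * Real.cos θ + r ^ 2 = E + r ^ 2 by ring]
      ring
    simp only [this]
    rw [intervalIntegral.integral_mul_const, integral_sin]
    simp only [kk, abs_zero]
    rw [if_pos (by ring)]
    norm_num [Real.cos_pi]
  · have hsr : 2 * s * r ≠ 0 := by positivity
    have hder : ∀ θ : ℝ, HasDerivAt
        (fun θ => 1 / (2 * s * r) * Real.log (E + s ^ 2 - 2 * s * r * Real.cos θ + r ^ 2))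
        (Real.sin θ / (E + s ^ 2 - 2 * s * r * Real.cos θ + r ^ 2)) θ := by
      intro θ
      have h1 : HasDerivAt (fun θ => E + s ^ 2 - 2 * s * r * Real.cos θ + r ^ 2)
          (2 * s * r * Real.sin θ) θ := by
        have := (((Real.hasDerivAt_cos θ).const_mul (2 * s * r)).const_sub (E + s ^ 2)).add_const (r ^ 2)
        exact this.congr_deriv (by ring)
      have h2 := (h1.log (hpos θ).ne').const_mul (1 / (2 * s * r))
      exact h2.congr_deriv (by field_simp)
    rw [intervalIntegral.integral_eq_sub_of_hasDerivAt (fun θ _ => hder θ)]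
    · rw [Real.cos_pi, Real.cos_zero]
      have hz : 4 * |s| * r ≠ 0 := by positivity
      have habs : 0 < |s| := by positivity
      unfold kk
      rw [if_neg hz]
      have hDp : 0 < E + (|s| - r) ^ 2 := by positivity
      have hlog : Real.log (1 + 4 * |s| * r / (E + (|s| - r) ^ 2))
          = Real.log (E + (|s| + r) ^ 2) - Real.log (E + (|s| - r) ^ 2) := by
        rw [← Real.log_div (by positivity) (by positivity)]
        congr 1
        field_simp
        ring
      rw [hlog]
      rcases lt_or_gt_of_ne hs with h | h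
      · rw [abs_of_neg h]
        rw [show E + s ^ 2 - 2 * s * r * -1 + r ^ 2 = E + (-s - r) ^ 2 by ring,
          show E + s ^ 2 - 2 * s * r * 1 + r ^ 2 = E + (-s + r) ^ 2 by ring]
        field_simp
        ring
      · rw [abs_of_pos h]
        rw [show E + s ^ 2 - 2 * s * r * -1 + r ^ 2 = E + (s + r) ^ 2 by ring,
          show E + s ^ 2 - 2 * s * r * 1 + r ^ 2 = E + (s - r) ^ 2 by ring]
        field_simp
        ring
    · apply Continuous.intervalIntegrable
      exact Real.continuous_sin.div (by fun_prop) (fun θ => (hpos θ).ne')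

lemma kk_nonneg {D z : ℝ} (hD : 0 < D) (hz : 0 ≤ z) : 0 ≤ kk D z := by
  unfold kk
  split_ifs with h
  · positivity
  · apply div_nonneg (Real.log_nonneg _) hz
    have : 0 ≤ z / D := by positivity
    linarith

/-- the integrand -/
noncomputable def G (U : Set (ℝ × ℝ)) (x₁ s : ℝ) (v : ℝ × ℝ × ℝ) : ℝ :=
  if 0 < v.2.2 then
      (U.indicator (fun _ => (1:ℝ)) (v.1, √(v.2.1 ^ 2 + v.2.2 ^ 2))) / √(v.2.1 ^ 2 + v.2.2 ^ 2) * v.2.2 /
        ((x₁ - v.1) ^ 2 + (s - v.2.1) ^ 2 + v.2.2 ^ 2) else 0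

lemma G_nonneg (U : Set (ℝ × ℝ)) (x₁ s : ℝ) (v : ℝ × ℝ × ℝ) : 0 ≤ G U x₁ s v := by
  unfold G
  split_ifs with h
  · apply div_nonneg _ (by positivity)
    apply mul_nonneg _ h.le
    apply div_nonneg _ (Real.sqrt_nonneg _)
    exact indicator_nonneg (fun _ _ => zero_le_one) _
  · exact le_rfl

lemma G_meas (U : Set (ℝ × ℝ)) (hU : MeasurableSet U) (x₁ s : ℝ) : Measurable (G U x₁ s) := by
  unfold G
  apply Measurable.ite
  · exact measurableSet_lt measurable_const (by fun_prop)
  · apply Measurable.div _ (by fun_prop)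
    apply Measurable.mul _ (by fun_prop)
    apply Measurable.div _ (by fun_prop)
    have h1 : Measurable (U.indicator (fun _ => (1:ℝ))) := measurable_const.indicator hU
    have h2 : Measurable (fun v : ℝ × ℝ × ℝ => (v.1, √(v.2.1 ^ 2 + v.2.2 ^ 2))) := by fun_prop
    exact h1.comp h2
  · exact measurable_const

/-- inner integral -/
lemma inner (U : Set (ℝ × ℝ)) (x₁ s y₁ r : ℝ) (hy : y₁ ≠ x₁) (hr : 0 < r) :
    ∫⁻ θ in Ioo (-π) π, ENNReal.ofReal r * ENNReal.ofReal (G U x₁ s (y₁, r * Real.cos θ, r * Real.sin θ))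
      = ENNReal.ofReal (2 * π) * U.indicator (fun y => ENNReal.ofReal (kap (x₁, |s|) y * y.2)) (y₁, r) := by
  have hE : 0 < (x₁ - y₁) ^ 2 := by
    have : x₁ - y₁ ≠ 0 := sub_ne_zero.mpr hy.symm
    positivity
  set I : ℝ := U.indicator (fun _ => (1:ℝ)) (y₁, r) with hI
  have hI0 : 0 ≤ I := indicator_nonneg (fun _ _ => zero_le_one) _
  set f : ℝ → ℝ := fun θ => Real.sin θ / ((x₁ - y₁) ^ 2 + (s - r * Real.cos θ) ^ 2 + (r * Real.sin θ) ^ 2) with hf
  have hfc : Continuous f := by
    apply Real.continuous_sin.div (by fun_prop)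
    intro θ
    positivity
  have h1 : ∫⁻ θ in Ioo (-π) π, ENNReal.ofReal r * ENNReal.ofReal (G U x₁ s (y₁, r * Real.cos θ, r * Real.sin θ))
      = ∫⁻ θ in Ioo 0 π, ENNReal.ofReal (I * r * f θ) := by
    rw [← lintegral_indicator measurableSet_Ioo, ← lintegral_indicator measurableSet_Ioo]
    congr 1
    funext θ
    by_cases hθ : θ ∈ Ioo 0 π
    · have hsin : 0 < Real.sin θ := Real.sin_pos_of_mem_Ioo hθ
      have hθ' : θ ∈ Ioo (-π) π := ⟨by linarith [hθ.1, Real.pi_pos], hθ.2⟩
      rw [indicator_of_mem hθ, indicator_of_mem hθ']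
      rw [← ENNReal.ofReal_mul hr.le]
      congr 1
      unfold G
      rw [if_pos (by simp only []; positivity)]
      have hsq : √((r * Real.cos θ) ^ 2 + (r * Real.sin θ) ^ 2) = r := by
        rw [show (r * Real.cos θ) ^ 2 + (r * Real.sin θ) ^ 2 = r ^ 2 * (Real.sin θ ^ 2 + Real.cos θ ^ 2) by ring,
          Real.sin_sq_add_cos_sq, mul_one, Real.sqrt_sq hr.le]
      simp only [hsq]
      rw [← hI, hf]
      simp only []
      field_simp
    · rw [indicator_of_notMem hθ]
      by_cases hθ2 : θ ∈ Ioo (-π) π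
      · rw [indicator_of_mem hθ2]
        have hθ0 : θ ≤ 0 := by
          by_contra hc
          exact hθ ⟨not_le.mp hc, hθ2.2⟩
        have hsin : Real.sin θ ≤ 0 := Real.sin_nonpos_of_nonpos_of_neg_pi_le hθ0 hθ2.1.le
        unfold G
        rw [if_neg]
        · simp
        · simp only []
          intro hc
          nlinarith
      · rw [indicator_of_notMem hθ2]
  rw [h1, ← ofReal_integral_eq_lintegral_ofReal]
  · rw [← integral_Ioc_eq_integral_Ioo, ← intervalIntegral.integral_of_le Real.pi_pos.le,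
      intervalIntegral.integral_const_mul, hf, ang _ s r hr hE]
    by_cases hm : (y₁, r) ∈ U
    · rw [indicator_of_mem hm] at hI ⊢
      rw [← ENNReal.ofReal_mul (by positivity), hI]
      congr 1
      simp only [kap, dsq]
      field_simp
    · rw [indicator_of_notMem hm] at hI ⊢
      rw [hI]
      simp
  · exact ((hfc.const_mul _).integrableOn_Icc (a := 0) (b := π)).mono_set Ioo_subset_Icc_self
  · rw [EventuallyLE, ae_restrict_iff' measurableSet_Ioo]
    refine Eventually.of_forall fun θ hθ => ?_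
    have hsin : 0 < Real.sin θ := Real.sin_pos_of_mem_Ioo hθ
    simp only [Pi.zero_apply, hf]
    positivity

/-- total mass -/
lemma total (U : Set (ℝ × ℝ)) (hU : MeasurableSet U) (hsub : U ⊆ UH) (x₁ s : ℝ) :
    ∫⁻ v, ENNReal.ofReal (G U x₁ s v)
      = ENNReal.ofReal (2 * π) * ∫⁻ y in U, ENNReal.ofReal (kap (x₁, |s|) y * y.2) := by
  have hGm : Measurable (fun v => ENNReal.ofReal (G U x₁ s v)) := (G_meas U hU x₁ s).ennreal_ofReal
  have hkm : Measurable (fun y : ℝ × ℝ => ENNReal.ofReal (kap (x₁, |s|) y * y.2)) := by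
    apply Measurable.ennreal_ofReal
    apply Measurable.mul _ measurable_snd
    unfold kap
    apply Measurable.const_mul
    unfold kk dsq
    apply Measurable.ite
    · exact measurableSet_eq_fun (by fun_prop) measurable_const
    · fun_prop
    · fun_prop
  have hindm : Measurable (U.indicator (fun y : ℝ × ℝ => ENNReal.ofReal (kap (x₁, |s|) y * y.2))) :=
    hkm.indicator hU
  rw [← lintegral_indicator hU, ← lintegral_const_mul _ hindm]
  rw [Measure.volume_eq_prod, lintegral_prod _ hGm.aemeasurable]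
  rw [Measure.volume_eq_prod, lintegral_prod _ (hindm.const_mul _).aemeasurable]
  apply lintegral_congr_ae
  have hne : ∀ᵐ y₁ : ℝ, y₁ ≠ x₁ := by
    have : volume ({x₁} : Set ℝ) = 0 := by simp
    exact compl_mem_ae_iff.mpr this
  filter_upwards [hne] with y₁ hy
  rw [← Measure.volume_eq_prod, ← lintegral_comp_polarCoord_symm, polarCoord_target]
  rw [Measure.volume_eq_prod, setLIntegral_prod]
  · have h2 : ∀ r ∈ Ioi (0:ℝ), ∫⁻ θ in Ioo (-π) π, ENNReal.ofReal ((r, θ) : ℝ × ℝ).1 •
        ENNReal.ofReal (G U x₁ s (y₁, polarCoord.symm (r, θ)))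
        = ENNReal.ofReal (2 * π) * U.indicator (fun y => ENNReal.ofReal (kap (x₁, |s|) y * y.2)) (y₁, r) := by
      intro r hr
      rw [← inner U x₁ s y₁ r hy hr]
      simp only [polarCoord_symm_apply, smul_eq_mul]
    rw [setLIntegral_congr_fun measurableSet_Ioi h2]
    rw [← lintegral_indicator measurableSet_Ioi]
    congr 1
    funext r
    by_cases hr : r ∈ Ioi (0:ℝ)
    · rw [indicator_of_mem hr]
    · rw [indicator_of_notMem hr, indicator_of_notMem (fun h => hr (hsub h)), mul_zero]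
  · apply Measurable.aemeasurable
    simp only [smul_eq_mul]
    have h4 : Measurable (fun p : ℝ × ℝ => ENNReal.ofReal p.1) := by fun_prop
    refine h4.mul ?_
    refine hGm.comp ?_
    refine Measurable.prodMk measurable_const ?_
    have : Measurable (fun p : ℝ × ℝ => (p.1 * Real.cos p.2, p.1 * Real.sin p.2)) := by fun_prop
    exact this

lemma Fi_of_bdd {U : Set (ℝ × ℝ)} (hU : MeasurableSet U) (hsub : U ⊆ UH)
    (hb : Bornology.IsBounded U) : Fi U := by
  refine ⟨hU, hsub, ?_⟩
  obtain ⟨R, hR⟩ := hb.subset_closedBall 0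
  have h1 : IntegrableOn (fun y : ℝ × ℝ => y.2) (Metric.closedBall 0 R) :=
    (continuous_snd.continuousOn).integrableOn_compact (isCompact_closedBall _ _)
  exact h1.mono_set hR

end T10

theorem t_cyl (hint : S_int) : S_cyl := by
  intro U hU hsub hb x₁ s
  have hFi : Fi U := T10.Fi_of_bdd hU hsub hb
  have hI := hint U hFi (x₁, |s|) (abs_nonneg s)
  have hpos : ∀ y ∈ U, 0 ≤ kap (x₁, |s|) y * y.2 := by
    intro y hy
    have hy2 : 0 < y.2 := hsub hy
    apply mul_nonneg _ hy2.le
    unfold kap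
    apply mul_nonneg (by positivity)
    rcases (eq_or_lt_of_le (show 0 ≤ dsq (x₁, |s|) y by unfold dsq; positivity)) with h | h
    · rw [← h]
      unfold kk
      split_ifs <;> simp
    · apply T10.kk_nonneg h
      have : 0 ≤ |s| := abs_nonneg s
      simp only []
      positivity
  have hpos' : 0 ≤ᵐ[volume.restrict U] (fun y => kap (x₁, |s|) y * y.2) := by
    rw [EventuallyLE, ae_restrict_iff' hU]
    exact Eventually.of_forall fun y hy => hpos y hy
  have htot := T10.total U hU hsub x₁ s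
  rw [← ofReal_integral_eq_lintegral_ofReal hI hpos', ← ENNReal.ofReal_mul (by positivity)] at htot
  have hGi : Integrable (T10.G U x₁ s) := by
    refine ⟨(T10.G_meas U hU x₁ s).aestronglyMeasurable, ?_⟩
    rw [hasFiniteIntegral_iff_ofReal (Eventually.of_forall (T10.G_nonneg U x₁ s)), htot]
    exact ENNReal.ofReal_lt_top
  have hval : ∫ v, T10.G U x₁ s v = 2 * π * phi U (x₁, |s|) := by
    rw [integral_eq_lintegral_of_nonneg_ae (Eventually.of_forall (T10.G_nonneg U x₁ s))
      (T10.G_meas U hU x₁ s).aestronglyMeasurable, htot, ENNReal.toReal_ofReal]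
    · rfl
    · apply mul_nonneg (by positivity)
      exact setIntegral_nonneg hU hpos
  refine ⟨hGi, ?_⟩
  have : ∫ v : ℝ × ℝ × ℝ, (if 0 < v.2.2 then
      (U.indicator (fun _ => (1:ℝ)) (v.1, √(v.2.1 ^ 2 + v.2.2 ^ 2))) / √(v.2.1 ^ 2 + v.2.2 ^ 2) * v.2.2 /
        ((x₁ - v.1) ^ 2 + (s - v.2.1) ^ 2 + v.2.2 ^ 2) else 0) = 2 * π * phi U (x₁, |s|) := hval
  rw [this]
  field_simp

end SV
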