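import Pool.Agent.Helper779.SV.T10

/-!
# T11: monotonicity in the second variable (`S_mp`), moving planes
-/

open MeasureTheory Set Filter Topology
open scoped Real ENNReal

namespace SV

namespace T11

open T10 (G G_meas G_nonneg)

/-- comparison at level `t` -/
def Bt (U : Set (ℝ × ℝ)) (t : ℝ) : Prop :=
  ∀ y r r' : ℝ, 0 < r → r < r' → 2 * t ≤ r + r' → (y, r') ∈ U → (y, r) ∈ U

/-- reflection -/
def RR (t : ℝ) (v : ℝ × ℝ × ℝ) : ℝ × ℝ × ℝ := (v.1, 2 * t - v.2.1, v.2.2)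

lemma RR_mp (t : ℝ) : MeasurePreserving (RR t) volume volume := by
  have h1 := Measure.measurePreserving_sub_left (volume : Measure ℝ) (2 * t)
  have h2 := (MeasurePreserving.id (volume : Measure ℝ)).prod
    (h1.prod (MeasurePreserving.id (volume : Measure ℝ)))
  exact h2

/-- symmetrised difference -/
noncomputable def kf (U : Set (ℝ × ℝ)) (x₁ s t : ℝ) (v : ℝ × ℝ × ℝ) : ℝ :=
  G U x₁ s v + G U x₁ s (RR t v) - G U x₁ (2 * t - s) v - G U x₁ (2 * t - s) (RR t v)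

lemma kf_RR (U : Set (ℝ × ℝ)) (x₁ s t : ℝ) (v : ℝ × ℝ × ℝ) :
    kf U x₁ s t (RR t v) = kf U x₁ s t v := by
  have h : RR t (RR t v) = v := by
    obtain ⟨a, b, c⟩ := v
    simp [RR]
  unfold kf
  rw [h]
  ring

lemma G_int (hcyl : S_cyl) {U : Set (ℝ × ℝ)} (hU : MeasurableSet U) (hsub : U ⊆ UH)
    (hb : Bornology.IsBounded U) (x₁ s : ℝ) :
    Integrable (G U x₁ s) ∧ ∫ v, G U x₁ s v = 2 * π * phi U (x₁, |s|) := by
  obtain ⟨h1, h2⟩ := hcyl U hU hsub hb x₁ s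
  refine ⟨h1, ?_⟩
  have h2' : phi U (x₁, |s|) = 1 / (2 * π) * ∫ v, G U x₁ s v := h2
  rw [h2']
  field_simp

lemma G_int_RR {U : Set (ℝ × ℝ)} (hU : MeasurableSet U) (x₁ s t : ℝ)
    (hi : Integrable (G U x₁ s)) :
    Integrable (fun v => G U x₁ s (RR t v)) ∧ ∫ v, G U x₁ s (RR t v) = ∫ v, G U x₁ s v := by
  have hmp := RR_mp t
  have hm := G_meas U hU x₁ s
  refine ⟨(hmp.integrable_comp hm.aestronglyMeasurable).mpr hi, ?_⟩
  rw [← integral_map (f := G U x₁ s) hmp.aemeasurable hm.aestronglyMeasurable, hmp.map_eq]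

lemma int_kf (hcyl : S_cyl) {U : Set (ℝ × ℝ)} (hU : MeasurableSet U) (hsub : U ⊆ UH)
    (hb : Bornology.IsBounded U) (x₁ s t : ℝ) (hs : 0 ≤ s) (hst : s < t) :
    Integrable (kf U x₁ s t) ∧
      ∫ v, kf U x₁ s t v = 4 * π * (phi U (x₁, s) - phi U (x₁, 2 * t - s)) := by
  obtain ⟨h1, h1'⟩ := G_int hcyl hU hsub hb x₁ s
  obtain ⟨h2, h2'⟩ := G_int hcyl hU hsub hb x₁ (2 * t - s)
  obtain ⟨h3, h3'⟩ := G_int_RR hU x₁ s t h1
  obtain ⟨h4, h4'⟩ := G_int_RR hU x₁ (2 * t - s) t h2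
  rw [abs_of_nonneg hs] at h1'
  rw [abs_of_nonneg (by linarith)] at h2'
  refine ⟨((h1.add h3).sub h2).sub h4, ?_⟩
  have e1 : ∫ v, (G U x₁ s v + G U x₁ s (RR t v)) = (∫ v, G U x₁ s v) + ∫ v, G U x₁ s (RR t v) :=
    integral_add h1 h3
  have e2 : ∫ v, (G U x₁ s v + G U x₁ s (RR t v) - G U x₁ (2 * t - s) v)
      = (∫ v, (G U x₁ s v + G U x₁ s (RR t v))) - ∫ v, G U x₁ (2 * t - s) v :=
    integral_sub (h1.add h3) h2
  have e3 : ∫ v, kf U x₁ s t v = (∫ v, (G U x₁ s v + G U x₁ s (RR t v) - G U x₁ (2 * t - s) v))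
      - ∫ v, G U x₁ (2 * t - s) (RR t v) :=
    integral_sub ((h1.add h3).sub h2) h4
  rw [e3, e2, e1, h3', h4', h1', h2']
  ring

/-- `1_U / r` -/
noncomputable def hh (U : Set (ℝ × ℝ)) (y r : ℝ) : ℝ := U.indicator (fun _ => (1:ℝ)) (y, r) / r

lemma kf_eq (U : Set (ℝ × ℝ)) (x₁ s t y η ρ : ℝ) (hρ : 0 < ρ) :
    kf U x₁ s t (y, η, ρ) = (hh U y (√(η ^ 2 + ρ ^ 2)) - hh U y (√((2 * t - η) ^ 2 + ρ ^ 2))) * ρ *
      (1 / ((x₁ - y) ^ 2 + (s - η) ^ 2 + ρ ^ 2) - 1 / ((x₁ - y) ^ 2 + (s - (2 * t - η)) ^ 2 + ρ ^ 2)) := by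
  unfold kf G RR hh
  simp only [hρ, if_true]
  rw [show (2 * t - s - η) ^ 2 = (s - (2 * t - η)) ^ 2 by ring,
    show (2 * t - s - (2 * t - η)) ^ 2 = (s - η) ^ 2 by ring]
  ring

lemma kf_nonpos_rho (U : Set (ℝ × ℝ)) (x₁ s t y η ρ : ℝ) (hρ : ρ ≤ 0) :
    kf U x₁ s t (y, η, ρ) = 0 := by
  unfold kf G RR
  simp only [not_lt.mpr hρ, if_false]
  ring

lemma hh_mem {U : Set (ℝ × ℝ)} {y r : ℝ} (h : (y, r) ∈ U) : hh U y r = 1 / r := by
  unfold hh
  rw [indicator_of_mem h]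

lemma hh_not {U : Set (ℝ × ℝ)} {y r : ℝ} (h : (y, r) ∉ U) : hh U y r = 0 := by
  unfold hh
  rw [indicator_of_notMem h, zero_div]

lemma alg1 {r rt η ρ t T : ℝ} (hr0 : 0 < r) (hrt0 : 0 < rt) (hr2 : r ^ 2 = η ^ 2 + ρ ^ 2)
    (hrt2 : rt ^ 2 = (2 * t - η) ^ 2 + ρ ^ 2) (hsum : r + rt < 2 * T) : ρ ^ 2 + t ^ 2 < T ^ 2 := by
  have hcs : η * (2 * t - η) + ρ ^ 2 ≤ r * rt := by
    apply le_of_sq_le_sq _ (by positivity)
    have h : (η * (2 * t - η) + ρ ^ 2) ^ 2 + (η * ρ - (2 * t - η) * ρ) ^ 2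
        = (η ^ 2 + ρ ^ 2) * ((2 * t - η) ^ 2 + ρ ^ 2) := by ring
    rw [mul_pow, hr2, hrt2, ← h]
    linarith [sq_nonneg (η * ρ - (2 * t - η) * ρ)]
  have h1 : (r + rt) ^ 2 < (2 * T) ^ 2 := by
    have : 0 < r + rt := by linarith
    gcongr
  have h2 : (r + rt) ^ 2 = η ^ 2 + ρ ^ 2 + ((2 * t - η) ^ 2 + ρ ^ 2) + 2 * (r * rt) := by
    rw [← hr2, ← hrt2]; ring
  linarith

lemma alg2 {s t η ρ a : ℝ} (hst : s < t) (hη : η < t) :
    ρ * (t - η) ≤ (a + (s - (2 * t - η)) ^ 2 + ρ ^ 2) / 2 - a / 2 := by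
  have h0 : 0 ≤ t - η := by linarith
  have h1 : t - η ≤ 2 * t - η - s := by linarith
  have h2 : (t - η) ^ 2 ≤ (2 * t - η - s) ^ 2 := by gcongr
  have h3 : (s - (2 * t - η)) ^ 2 = (2 * t - η - s) ^ 2 := by ring
  have h4 := sq_nonneg (ρ - (t - η))
  rw [h3]
  linarith

lemma alg3 {s t η ρ Q1 Q2 : ℝ} (hst : s < t) (hη : η < t) (hQ1 : 0 < Q1) (hQ2 : 0 < Q2)
    (h : ρ * (t - η) ≤ Q2 / 2) : ρ * (4 * (t - s) * (t - η) / (Q1 * Q2)) ≤ 2 * (t - s) / Q1 := by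
  have h0 : 0 < t - s := by linarith
  have e : ρ * (4 * (t - s) * (t - η) / (Q1 * Q2)) = (4 * (t - s) / (Q1 * Q2)) * (ρ * (t - η)) := by ring
  rw [e]
  calc (4 * (t - s) / (Q1 * Q2)) * (ρ * (t - η)) ≤ (4 * (t - s) / (Q1 * Q2)) * (Q2 / 2) := by gcongr
    _ = 2 * (t - s) / Q1 := by field_simp; norm_num

lemma core (U : Set (ℝ × ℝ)) (x₁ s t T y η ρ : ℝ) (hs : 0 ≤ s) (hst : s < t) (htT : t ≤ T)
    (hB : Bt U T) (hη : η < t) (hρ : 0 < ρ) :
    0 ≤ kf U x₁ s t (y, η, ρ) ∨ ((y, √((2 * t - η) ^ 2 + ρ ^ 2)) ∈ U ∧ ρ ^ 2 + t ^ 2 < T ^ 2 ∧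
      -(2 * (t - s) / t) * (1 / ((x₁ - y) ^ 2 + (s - η) ^ 2 + ρ ^ 2)) ≤ kf U x₁ s t (y, η, ρ)) := by
  have ht : 0 < t := lt_of_le_of_lt hs hst
  rw [kf_eq U x₁ s t y η ρ hρ]
  set r := √(η ^ 2 + ρ ^ 2) with hr
  set rt := √((2 * t - η) ^ 2 + ρ ^ 2) with hrt
  have hr2 : r ^ 2 = η ^ 2 + ρ ^ 2 := Real.sq_sqrt (by positivity)
  have hrt2 : rt ^ 2 = (2 * t - η) ^ 2 + ρ ^ 2 := Real.sq_sqrt (by positivity)
  have hr0 : 0 < r := Real.sqrt_pos.mpr (by positivity)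
  have hrt0 : 0 < rt := Real.sqrt_pos.mpr (by positivity)
  have hlt : r < rt := by
    apply Real.sqrt_lt_sqrt (by positivity)
    nlinarith [mul_pos ht (sub_pos.mpr hη)]
  set Q1 := (x₁ - y) ^ 2 + (s - η) ^ 2 + ρ ^ 2 with hQ1
  set Q2 := (x₁ - y) ^ 2 + (s - (2 * t - η)) ^ 2 + ρ ^ 2 with hQ2
  have hQ1p : 0 < Q1 := by positivity
  have hQ2p : 0 < Q2 := by positivity
  have hQd : Q2 - Q1 = 4 * (t - s) * (t - η) := by rw [hQ1, hQ2]; ring
  have hdiff : 1 / Q1 - 1 / Q2 = 4 * (t - s) * (t - η) / (Q1 * Q2) := by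
    rw [← hQd]
    field_simp
  have hts : 0 < t - s := by linarith
  have htη : 0 < t - η := by linarith
  have hdn : 0 ≤ 1 / Q1 - 1 / Q2 := by
    rw [hdiff]
    positivity
  by_cases h1 : (y, rt) ∈ U
  · by_cases h2 : (y, r) ∈ U
    · left
      rw [hh_mem h1, hh_mem h2]
      have : 1 / rt ≤ 1 / r := one_div_le_one_div_of_le hr0 hlt.le
      apply mul_nonneg (mul_nonneg (by linarith) hρ.le) hdn
    · right
      have hsum : r + rt < 2 * T := by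
        by_contra hc
        exact h2 (hB y r rt hr0 hlt (not_lt.mp hc) h1)
      refine ⟨h1, ?_, ?_⟩
      · exact alg1 hr0 hrt0 hr2 hrt2 hsum
      · rw [hh_mem h1, hh_not h2, hdiff]
        have hrtt : t ≤ rt := by
          apply Real.le_sqrt_of_sq_le
          have h7 : t ≤ 2 * t - η := by linarith
          have h8 : t ^ 2 ≤ (2 * t - η) ^ 2 := by gcongr
          have h9 := sq_nonneg ρ
          linarith
        have hb1 : 1 / rt ≤ 1 / t := one_div_le_one_div_of_le ht hrtt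
        have hb2 : ρ * (t - η) ≤ Q2 / 2 := by
          have h5 := alg2 (ρ := ρ) (a := (x₁ - y) ^ 2) hst hη
          have h6 := sq_nonneg (x₁ - y)
          rw [hQ2]
          linarith
        have hb3 : ρ * (4 * (t - s) * (t - η) / (Q1 * Q2)) ≤ 2 * (t - s) / Q1 :=
          alg3 hst hη hQ1p hQ2p hb2
        have hb4 : (1 / rt) * (ρ * (4 * (t - s) * (t - η) / (Q1 * Q2))) ≤ (1 / t) * (2 * (t - s) / Q1) := by
          apply mul_le_mul hb1 hb3 (by positivity) (by positivity)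
        calc -(2 * (t - s) / t) * (1 / Q1) = -((1 / t) * (2 * (t - s) / Q1)) := by ring
          _ ≤ -((1 / rt) * (ρ * (4 * (t - s) * (t - η) / (Q1 * Q2)))) := by linarith
          _ = (0 - 1 / rt) * ρ * (4 * (t - s) * (t - η) / (Q1 * Q2)) := by ring
  · left
    rw [hh_not h1]
    have : 0 ≤ hh U y r := by
      unfold hh
      exact div_nonneg (indicator_nonneg (fun _ _ => zero_le_one) _) hr0.le
    apply mul_nonneg (mul_nonneg (by linarith) hρ.le) hdn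

lemma alg4 {r rt τ t η B : ℝ} (hr0 : 0 < r) (hrt0 : 0 < rt) (hτ : 0 < τ) (hτt : τ ≤ t)
    (htη : τ ≤ t - η) (hBp : 0 < B) (hrB : r ≤ B) (hrt3 : rt ≤ 3 * B)
    (h2' : rt ^ 2 - r ^ 2 = 4 * t * (t - η)) : τ ^ 2 / (3 * B ^ 3) ≤ 1 / r - 1 / rt := by
  have ht : 0 < t := by linarith
  have h2 : (rt - r) * (rt + r) = 4 * t * (t - η) := by
    rw [← h2']; ring
  have h3 : 4 * τ ^ 2 ≤ (rt - r) * (rt + r) := by
    rw [h2]
    have := mul_le_mul hτt htη hτ.le ht.le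
    calc 4 * τ ^ 2 = 4 * (τ * τ) := by ring
      _ ≤ 4 * (t * (t - η)) := by linarith
      _ = _ := by ring
  have hτ2 : 0 < τ ^ 2 := by positivity
  have h4 : 0 < rt - r := by
    by_contra hc
    have : (rt - r) * (rt + r) ≤ 0 := mul_nonpos_of_nonpos_of_nonneg (not_lt.mp hc) (by positivity)
    linarith
  have h5 : τ ^ 2 ≤ (rt - r) * B := by
    have h6 : rt + r ≤ 4 * B := by linarith
    have h7 := mul_le_mul_of_nonneg_left h6 h4.le
    linarith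
  rw [div_sub_div _ _ hr0.ne' hrt0.ne', div_le_div_iff₀ (by positivity) (by positivity)]
  have h6 : r * rt ≤ B * (3 * B) := mul_le_mul hrB hrt3 hrt0.le hBp.le
  calc τ ^ 2 * (r * rt) ≤ ((rt - r) * B) * (B * (3 * B)) := by
        apply mul_le_mul h5 h6 (by positivity) (by positivity)
    _ = (1 * rt - r * 1) * (3 * B ^ 3) := by ring

lemma corepos (U : Set (ℝ × ℝ)) (x₁ s t y η ρ B τ : ℝ) (hs : 0 ≤ s) (hst : s < t) (hτ : 0 < τ)
    (hτt : τ ≤ t) (htB : t ≤ B) (hη : η < 0) (hρ : 0 < ρ) (hx : |x₁| ≤ B) (hy : |y| ≤ B)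
    (hm : (y, √(η ^ 2 + ρ ^ 2)) ∈ U) (hrB : √(η ^ 2 + ρ ^ 2) ≤ B) :
    τ ^ 3 / (147 * B ^ 7) * (t - s) * ρ ≤ kf U x₁ s t (y, η, ρ) := by
  have ht : 0 < t := lt_of_le_of_lt hs hst
  have hBp : 0 < B := by linarith
  rw [kf_eq U x₁ s t y η ρ hρ]
  set r := √(η ^ 2 + ρ ^ 2) with hr
  set rt := √((2 * t - η) ^ 2 + ρ ^ 2) with hrt
  have hr2 : r ^ 2 = η ^ 2 + ρ ^ 2 := Real.sq_sqrt (by positivity)
  have hrt2 : rt ^ 2 = (2 * t - η) ^ 2 + ρ ^ 2 := Real.sq_sqrt (by positivity)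
  have hr0 : 0 < r := Real.sqrt_pos.mpr (by positivity)
  have hrt0 : 0 < rt := Real.sqrt_pos.mpr (by positivity)
  have hηr : -η ≤ r := by
    apply Real.le_sqrt_of_sq_le
    nlinarith
  have hρr : ρ ≤ r := by
    apply Real.le_sqrt_of_sq_le
    nlinarith
  have hrt3 : rt ≤ 3 * B := by
    apply le_of_sq_le_sq _ (by positivity)
    rw [hrt2]
    have : (2 * t - η) ^ 2 + ρ ^ 2 = 4 * t ^ 2 + 4 * t * (-η) + r ^ 2 := by rw [hr2]; ring
    rw [this]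
    have h1 : t ^ 2 ≤ B ^ 2 := by gcongr
    have h2 : t * (-η) ≤ B * B := mul_le_mul htB (hηr.trans hrB) (by linarith) hBp.le
    have h3 : r ^ 2 ≤ B ^ 2 := by gcongr
    have h4 : (3 * B) ^ 2 = 4 * B ^ 2 + 4 * (B * B) + B ^ 2 := by ring
    rw [h4]
    linarith
  set Q1 := (x₁ - y) ^ 2 + (s - η) ^ 2 + ρ ^ 2 with hQ1
  set Q2 := (x₁ - y) ^ 2 + (s - (2 * t - η)) ^ 2 + ρ ^ 2 with hQ2
  have hQ1p : 0 < Q1 := by positivity
  have hQ2p : 0 < Q2 := by positivity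
  have hQd : Q2 - Q1 = 4 * (t - s) * (t - η) := by rw [hQ1, hQ2]; ring
  have hdiff : 1 / Q1 - 1 / Q2 = 4 * (t - s) * (t - η) / (Q1 * Q2) := by
    rw [← hQd]
    field_simp
  have hts : 0 < t - s := by linarith
  have htη : τ ≤ t - η := by linarith
  have hQ12 : Q1 ≤ Q2 := by
    have : 0 ≤ 4 * (t - s) * (t - η) := by
      have : 0 < t - η := by linarith
      positivity
    linarith
  have hQ2B : Q2 ≤ 14 * B ^ 2 := by
    have hx' := abs_le.mp hx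
    have hy' := abs_le.mp hy
    have h1 : (x₁ - y) ^ 2 ≤ 4 * B ^ 2 := by
      have : |x₁ - y| ≤ 2 * B := by rw [abs_le]; constructor <;> linarith [hx'.1, hx'.2, hy'.1, hy'.2]
      calc (x₁ - y) ^ 2 = |x₁ - y| ^ 2 := (sq_abs _).symm
        _ ≤ (2 * B) ^ 2 := by gcongr
        _ = 4 * B ^ 2 := by ring
    have h2 : (s - (2 * t - η)) ^ 2 ≤ 9 * B ^ 2 := by
      have : |s - (2 * t - η)| ≤ 3 * B := by
        rw [abs_le]
        constructor <;> linarith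
      calc (s - (2 * t - η)) ^ 2 = |s - (2 * t - η)| ^ 2 := (sq_abs _).symm
        _ ≤ (3 * B) ^ 2 := by gcongr
        _ = 9 * B ^ 2 := by ring
    have h3 : ρ ^ 2 ≤ B ^ 2 := by
      have : ρ ≤ B := hρr.trans hrB
      gcongr
    rw [hQ2]
    linarith
  have hd1 : (t - s) * τ / (49 * B ^ 4) ≤ 1 / Q1 - 1 / Q2 := by
    rw [hdiff, div_le_div_iff₀ (by positivity) (by positivity)]
    have h1 : Q1 * Q2 ≤ 196 * B ^ 4 := by
      calc Q1 * Q2 ≤ (14 * B ^ 2) * (14 * B ^ 2) := by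
            apply mul_le_mul (hQ12.trans hQ2B) hQ2B hQ2p.le (by positivity)
        _ = 196 * B ^ 4 := by ring
    calc (t - s) * τ * (Q1 * Q2) ≤ (t - s) * (t - η) * (196 * B ^ 4) := by
          apply mul_le_mul _ h1 (by positivity) (by
            have : 0 < t - η := by linarith
            positivity)
          exact mul_le_mul_of_nonneg_left htη hts.le
      _ = 4 * (t - s) * (t - η) * (49 * B ^ 4) := by ring
  have hd2 : τ ^ 2 / (3 * B ^ 3) ≤ hh U y r - hh U y rt := by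
    rw [hh_mem hm]
    have hle : hh U y rt ≤ 1 / rt := by
      by_cases h : (y, rt) ∈ U
      · rw [hh_mem h]
      · rw [hh_not h]
        positivity
    have h1 : τ ^ 2 / (3 * B ^ 3) ≤ 1 / r - 1 / rt :=
      alg4 hr0 hrt0 hτ hτt htη hBp hrB hrt3 (by rw [hr2, hrt2]; ring)
    linarith
  calc τ ^ 3 / (147 * B ^ 7) * (t - s) * ρ
      = (τ ^ 2 / (3 * B ^ 3)) * ρ * ((t - s) * τ / (49 * B ^ 4)) := by
        field_simp
        ring
    _ ≤ (hh U y r - hh U y rt) * ρ * (1 / Q1 - 1 / Q2) := by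
        apply mul_le_mul _ hd1 (by positivity) _
        · exact mul_le_mul_of_nonneg_right hd2 hρ.le
        · apply mul_nonneg (le_trans (by positivity) hd2) hρ.le

/-- the box -/
def Sset (B ρ0 : ℝ) : Set (ℝ × ℝ × ℝ) :=
  {w | |w.1| ≤ 2 * B ∧ |w.2.1| ≤ 2 * B ∧ 0 < w.2.2 ∧ w.2.2 < ρ0}

lemma Sset_meas (B ρ0 : ℝ) : MeasurableSet (Sset B ρ0) := by
  have e : Sset B ρ0 = {w : ℝ × ℝ × ℝ | |w.1| ≤ 2 * B} ∩ ({w : ℝ × ℝ × ℝ | |w.2.1| ≤ 2 * B} ∩
      ({w : ℝ × ℝ × ℝ | 0 < w.2.2} ∩ {w : ℝ × ℝ × ℝ | w.2.2 < ρ0})) := rfl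
  rw [e]
  exact (measurableSet_le (by fun_prop) measurable_const).inter
    ((measurableSet_le (by fun_prop) measurable_const).inter
    ((measurableSet_lt measurable_const (by fun_prop)).inter
    (measurableSet_lt (by fun_prop) measurable_const)))

/-- truncated kernel -/
noncomputable def Ef (B ρ0 : ℝ) (w : ℝ × ℝ × ℝ) : ℝ := (Sset B ρ0).indicator (fun w => 1 / ‖w‖ ^ 2) w

lemma Ef_nonneg (B ρ0 : ℝ) (w : ℝ × ℝ × ℝ) : 0 ≤ Ef B ρ0 w :=
  indicator_nonneg (fun _ _ => by positivity) _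

lemma Ef_mem {B ρ0 : ℝ} {w : ℝ × ℝ × ℝ} (h : w ∈ Sset B ρ0) : Ef B ρ0 w = 1 / ‖w‖ ^ 2 :=
  indicator_of_mem h _

/-- integrability near the origin -/
lemma ball_int (R : ℝ) (hR : 0 < R) :
    IntegrableOn (fun w : ℝ × ℝ × ℝ => 1 / ‖w‖ ^ 2) (Metric.ball 0 R) := by
  have h2 : (volume : Measure (ℝ × ℝ)).IsAddHaarMeasure := by
    rw [Measure.volume_eq_prod]; infer_instance
  have h3 : (volume : Measure (ℝ × ℝ × ℝ)).IsAddHaarMeasure := by
    rw [Measure.volume_eq_prod]; infer_instance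
  rw [integrableOn_fun_norm_addHaar (μ := (volume : Measure (ℝ × ℝ × ℝ))) (f := fun r : ℝ => 1 / r ^ 2)]
  have hfin : Module.finrank ℝ (ℝ × ℝ × ℝ) = 3 := by simp
  rw [hfin]
  have h1 : IntegrableOn (fun _ : ℝ => (1:ℝ)) (Ioo 0 R) :=
    integrableOn_const (by simp)
  refine h1.congr_fun ?_ measurableSet_Ioo
  intro y hy
  have hy0 : 0 < y := hy.1
  simp only [smul_eq_mul]
  field_simp

lemma Sset_sub (B ρ0 : ℝ) (h0 : 0 < B) (h : 0 < ρ0) : Sset B ρ0 ⊆ Metric.ball 0 (2 * B + ρ0 + 1) := by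
  intro w hw
  obtain ⟨h1, h2, h3, h4⟩ := hw
  rw [mem_ball_zero_iff, Prod.norm_def, Prod.norm_def]
  simp only [Real.norm_eq_abs]
  rw [abs_of_pos h3]
  apply max_lt (by linarith) (max_lt (by linarith) (by linarith))

lemma Ef_int (B ρ0 : ℝ) (h0 : 0 < B) (h : 0 < ρ0) : Integrable (Ef B ρ0) := by
  unfold Ef
  change Integrable ((Sset B ρ0).indicator (fun w => 1 / ‖w‖ ^ 2))
  rw [integrable_indicator_iff (Sset_meas B ρ0)]
  exact (ball_int _ (by linarith)).mono_set (Sset_sub B ρ0 h0 h)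

lemma Ef_small (B : ℝ) (h0 : 0 < B) (ε : ℝ) (hε : 0 < ε) :
    ∃ ρ1 : ℝ, 0 < ρ1 ∧ ∀ ρ0 : ℝ, 0 < ρ0 → ρ0 < ρ1 → ∫ w, Ef B ρ0 w < ε := by
  have hI := Ef_int B B h0 h0
  have hvol : Tendsto (volume ∘ (Sset B)) (𝓝[>] (0:ℝ)) (𝓝 0) := by
    have hle : ∀ ρ : ℝ, volume (Sset B ρ) ≤ ENNReal.ofReal (4 * B) * (ENNReal.ofReal (4 * B) * ENNReal.ofReal ρ) := by
      intro ρ
      have hsub : Sset B ρ ⊆ Icc (-(2 * B)) (2 * B) ×ˢ (Icc (-(2 * B)) (2 * B) ×ˢ Ioo 0 ρ) := by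
        intro w hw
        obtain ⟨h1, h2, h3, h4⟩ := hw
        exact ⟨abs_le.mp h1, abs_le.mp h2, h3, h4⟩
      refine (measure_mono hsub).trans ?_
      rw [Measure.volume_eq_prod, Measure.prod_prod, Measure.volume_eq_prod, Measure.prod_prod,
        Real.volume_Icc, Real.volume_Ioo]
      apply le_of_eq
      congr 2
      · ring
      · congr 1; ring_nf
      · ring_nf
    have hlim : Tendsto (fun ρ : ℝ => ENNReal.ofReal (4 * B) * (ENNReal.ofReal (4 * B) * ENNReal.ofReal ρ))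
        (𝓝[>] (0:ℝ)) (𝓝 0) := by
      have h1 : Tendsto (fun ρ : ℝ => ENNReal.ofReal (4 * B * (4 * B * ρ))) (𝓝[>] (0:ℝ)) (𝓝 (ENNReal.ofReal (4 * B * (4 * B * 0)))) := by
        apply Tendsto.mono_left _ nhdsWithin_le_nhds
        apply Continuous.tendsto
        exact ENNReal.continuous_ofReal.comp (by fun_prop)
      rw [mul_zero, mul_zero, ENNReal.ofReal_zero] at h1
      refine h1.congr fun ρ => ?_
      rw [ENNReal.ofReal_mul (p := 4 * B) (by positivity), ENNReal.ofReal_mul (p := 4 * B) (by positivity)]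
    exact tendsto_of_tendsto_of_tendsto_of_le_of_le tendsto_const_nhds hlim (fun _ => bot_le) hle
  have ht := hI.tendsto_setIntegral_nhds_zero hvol
  have hev := (ht.eventually (gt_mem_nhds hε))
  rw [eventually_nhdsWithin_iff] at hev
  obtain ⟨δ, hδ, hball⟩ := Metric.eventually_nhds_iff.mp hev
  refine ⟨min δ B, lt_min hδ h0, fun ρ0 hρ0 hρ1 => ?_⟩
  have h1 := hball (y := ρ0) (by
    rw [Real.dist_eq, sub_zero, abs_of_pos hρ0]
    exact lt_of_lt_of_le hρ1 (min_le_left _ _)) hρ0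
  have h2 : ∫ w, Ef B ρ0 w = ∫ w in Sset B ρ0, Ef B B w := by
    rw [← integral_indicator (Sset_meas B ρ0)]
    congr 1
    funext w
    by_cases hw : w ∈ Sset B ρ0
    · rw [indicator_of_mem hw, Ef_mem hw, Ef_mem]
      exact ⟨hw.1, hw.2.1, hw.2.2.1, hw.2.2.2.trans (lt_of_lt_of_le hρ1 (min_le_right _ _))⟩
    · rw [indicator_of_notMem hw]
      exact indicator_of_notMem hw _
  rw [h2]
  exact h1

/-- the good region -/
def PU (U : Set (ℝ × ℝ)) : Set (ℝ × ℝ × ℝ) :=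
  {v | v.2.1 < 0 ∧ 0 < v.2.2 ∧ (v.1, √(v.2.1 ^ 2 + v.2.2 ^ 2)) ∈ U}

lemma PU_open {U : Set (ℝ × ℝ)} (hU : IsOpen U) : IsOpen (PU U) := by
  have e : PU U = {v : ℝ × ℝ × ℝ | v.2.1 < 0} ∩ ({v : ℝ × ℝ × ℝ | 0 < v.2.2} ∩
      ((fun v : ℝ × ℝ × ℝ => (v.1, √(v.2.1 ^ 2 + v.2.2 ^ 2))) ⁻¹' U)) := rfl
  rw [e]
  exact (isOpen_lt (by fun_prop) continuous_const).inter
    ((isOpen_lt continuous_const (by fun_prop)).inter (hU.preimage (by fun_prop)))

lemma PU_pos {U : Set (ℝ × ℝ)} (hU : IsOpen U) (hsub : U ⊆ UH) (hne : U.Nonempty) {B : ℝ}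
    (hB : ∀ x ∈ U, |x.1| ≤ B ∧ x.2 ≤ B) :
    Integrable ((PU U).indicator (fun v : ℝ × ℝ × ℝ => v.2.2)) ∧
      0 < ∫ v, (PU U).indicator (fun v : ℝ × ℝ × ℝ => v.2.2) v := by
  have hPm := (PU_open hU).measurableSet
  have hbd : PU U ⊆ Icc (-B) B ×ˢ (Icc (-B) B ×ˢ Icc (-B) B) := by
    intro v hv
    obtain ⟨h1, h2, h3⟩ := hv
    obtain ⟨h4, h5⟩ := hB _ h3
    simp only [] at h4 h5
    have h6 : |v.2.1| ≤ B := (Real.abs_le_sqrt (by nlinarith)).trans h5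
    have h7 : |v.2.2| ≤ B := (Real.abs_le_sqrt (by nlinarith)).trans h5
    exact ⟨abs_le.mp h4, abs_le.mp h6, abs_le.mp h7⟩
  have hi : IntegrableOn (fun v : ℝ × ℝ × ℝ => v.2.2) (PU U) := by
    have hc : IsCompact (Icc (-B) B ×ˢ (Icc (-B) B ×ˢ Icc (-B) B)) :=
      isCompact_Icc.prod (isCompact_Icc.prod isCompact_Icc)
    have h1 : Continuous (fun v : ℝ × ℝ × ℝ => v.2.2) := by fun_prop
    exact (h1.continuousOn.integrableOn_compact hc).mono_set hbd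
  refine ⟨(integrable_indicator_iff hPm).mpr hi, ?_⟩
  rw [integral_indicator hPm, setIntegral_pos_iff_support_of_nonneg_ae]
  · have hnonempty : (PU U).Nonempty := by
      obtain ⟨⟨y, r⟩, hyr⟩ := hne
      have hr : 0 < r := hsub hyr
      refine ⟨(y, -(3/5) * r, (4/5) * r), ?_, ?_, ?_⟩
      · simp only []; linarith
      · simp only []; positivity
      · simp only []
        have : (-(3/5) * r) ^ 2 + ((4/5) * r) ^ 2 = r ^ 2 := by ring
        rw [this, Real.sqrt_sq hr.le]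
        exact hyr
    have h1 : (Function.support fun v : ℝ × ℝ × ℝ => v.2.2) ∩ PU U = PU U := by
      apply inter_eq_right.mpr
      intro v hv
      exact hv.2.1.ne'
    rw [h1]
    exact (PU_open hU).measure_pos volume hnonempty
  · rw [EventuallyLE, ae_restrict_iff' hPm]
    exact Eventually.of_forall fun v hv => hv.2.1.le
  · exact hi

/-- pointwise bound, left half -/
lemma ptw (U : Set (ℝ × ℝ)) (x₁ s t T B y η ρ : ℝ) (hs : 0 ≤ s) (hst : s < t) (htT : t ≤ T)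
    (hTB : T ≤ B) (hBt : Bt U T) (hη : η < t) (hρ : 0 < ρ) (hx : |x₁| ≤ B)
    (hB : ∀ x ∈ U, |x.1| ≤ B ∧ x.2 ≤ B) (hτt : T / 2 ≤ t) :
    (t - s) * ((T / 2) ^ 3 / (147 * B ^ 7) * (PU U).indicator (fun v : ℝ × ℝ × ℝ => v.2.2) (y, η, ρ)
      - 2 / t * Ef B (√(T ^ 2 - t ^ 2)) ((y, η, ρ) - (x₁, s, 0))) ≤ kf U x₁ s t (y, η, ρ) := by
  have ht : 0 < t := lt_of_le_of_lt hs hst
  have hts : 0 < t - s := by linarith
  have hT : 0 < T := by linarith
  have hEn := Ef_nonneg B (√(T ^ 2 - t ^ 2)) ((y, η, ρ) - (x₁, s, 0))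
  by_cases hP : (y, η, ρ) ∈ PU U
  · rw [indicator_of_mem hP]
    obtain ⟨h1, h2, h3⟩ := hP
    simp only [] at h1 h2 h3
    obtain ⟨h4, h5⟩ := hB _ h3
    have h6 := corepos U x₁ s t y η ρ B (T / 2) hs hst (by linarith) hτt (htT.trans hTB) h1 h2 hx h4 h3 h5
    have h7 : 0 ≤ 2 / t * Ef B (√(T ^ 2 - t ^ 2)) ((y, η, ρ) - (x₁, s, 0)) := by positivity
    have h8 := mul_nonneg hts.le h7
    calc (t - s) * ((T / 2) ^ 3 / (147 * B ^ 7) * ρ
      - 2 / t * Ef B (√(T ^ 2 - t ^ 2)) ((y, η, ρ) - (x₁, s, 0)))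
        = (T / 2) ^ 3 / (147 * B ^ 7) * (t - s) * ρ - (t - s) * (2 / t * Ef B (√(T ^ 2 - t ^ 2)) ((y, η, ρ) - (x₁, s, 0))) := by ring
      _ ≤ (T / 2) ^ 3 / (147 * B ^ 7) * (t - s) * ρ := by linarith
      _ ≤ _ := h6
  · rw [indicator_of_notMem hP, mul_zero, zero_sub]
    rcases core U x₁ s t T y η ρ hs hst htT hBt hη hρ with h | ⟨h1, h2, h3⟩
    · have h7 : 0 ≤ 2 / t * Ef B (√(T ^ 2 - t ^ 2)) ((y, η, ρ) - (x₁, s, 0)) := by positivity
      have h8 := mul_nonneg hts.le h7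
      linarith
    · refine le_trans ?_ h3
      obtain ⟨h4, h5⟩ := hB _ h1
      simp only [] at h4 h5
      have hρ0 : ρ < √(T ^ 2 - t ^ 2) := by
        apply Real.lt_sqrt_of_sq_lt
        linarith
      have h6 : |2 * t - η| ≤ B := (Real.abs_le_sqrt (by nlinarith)).trans h5
      have hx' := abs_le.mp hx
      have h4' := abs_le.mp h4
      have h6' := abs_le.mp h6
      have hw : ((y, η, ρ) - (x₁, s, 0) : ℝ × ℝ × ℝ) ∈ Sset B (√(T ^ 2 - t ^ 2)) := by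
        refine ⟨?_, ?_, ?_, ?_⟩
        · simp only [Prod.fst_sub]
          rw [abs_le]
          constructor <;> linarith
        · simp only [Prod.fst_sub, Prod.snd_sub]
          rw [abs_le]
          constructor <;> linarith
        · simpa using hρ
        · simpa using hρ0
      rw [Ef_mem hw]
      have hnorm : ‖((y, η, ρ) - (x₁, s, 0) : ℝ × ℝ × ℝ)‖ ^ 2 ≤ (x₁ - y) ^ 2 + (s - η) ^ 2 + ρ ^ 2 := by
        rw [← Real.le_sqrt (norm_nonneg _) (by positivity)]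
        rw [Prod.norm_def, Prod.norm_def]
        simp only [Prod.fst_sub, Prod.snd_sub, Real.norm_eq_abs, sub_zero]
        apply max_le
        · apply Real.abs_le_sqrt
          nlinarith [sq_nonneg (s - η), sq_nonneg ρ]
        · apply max_le
          · apply Real.abs_le_sqrt
            nlinarith [sq_nonneg (x₁ - y), sq_nonneg ρ]
          · apply Real.abs_le_sqrt
            nlinarith [sq_nonneg (x₁ - y), sq_nonneg (s - η)]
      have hnp : 0 < ‖((y, η, ρ) - (x₁, s, 0) : ℝ × ℝ × ℝ)‖ ^ 2 := by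
        have : ((y, η, ρ) - (x₁, s, 0) : ℝ × ℝ × ℝ) ≠ 0 := by
          intro h
          have h9 := congrArg (fun v : ℝ × ℝ × ℝ => v.2.2) h
          simp at h9
          exact hρ.ne' h9
        positivity
      have h10 := one_div_le_one_div_of_le hnp hnorm
      have h11 : 0 ≤ 2 * (t - s) / t := by positivity
      have h12 := mul_le_mul_of_nonneg_left h10 h11
      calc (t - s) * -(2 / t * (1 / ‖((y, η, ρ) - (x₁, s, 0) : ℝ × ℝ × ℝ)‖ ^ 2))
          = -(2 * (t - s) / t * (1 / ‖((y, η, ρ) - (x₁, s, 0) : ℝ × ℝ × ℝ)‖ ^ 2)) := by ring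
        _ ≤ -(2 * (t - s) / t * (1 / ((x₁ - y) ^ 2 + (s - η) ^ 2 + ρ ^ 2))) := by linarith
        _ = _ := by ring

lemma ind_nonneg (U : Set (ℝ × ℝ)) (v : ℝ × ℝ × ℝ) :
    0 ≤ (PU U).indicator (fun v : ℝ × ℝ × ℝ => v.2.2) v := by
  by_cases h : v ∈ PU U
  · rw [indicator_of_mem h]
    exact h.2.1.le
  · rw [indicator_of_notMem h]

/-- pointwise bound -/
lemma ptw2 (U : Set (ℝ × ℝ)) (x₁ s t T B : ℝ) (hs : 0 ≤ s) (hst : s < t) (htT : t ≤ T)
    (hTB : T ≤ B) (hBt : Bt U T) (hx : |x₁| ≤ B)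
    (hB : ∀ x ∈ U, |x.1| ≤ B ∧ x.2 ≤ B) (hτt : T / 2 ≤ t) (v : ℝ × ℝ × ℝ) :
    (t - s) * ((T / 2) ^ 3 / (147 * B ^ 7) * (PU U).indicator (fun v : ℝ × ℝ × ℝ => v.2.2) v
      - 2 / t * (Ef B (√(T ^ 2 - t ^ 2)) (v - (x₁, s, 0)) + Ef B (√(T ^ 2 - t ^ 2)) (RR t v - (x₁, s, 0))))
      ≤ kf U x₁ s t v := by
  have ht : 0 < t := lt_of_le_of_lt hs hst
  have hts : 0 < t - s := by linarith
  have hT : 0 < T := by linarith
  have hBp : 0 < B := by linarith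
  have hE1 := Ef_nonneg B (√(T ^ 2 - t ^ 2)) (v - (x₁, s, 0))
  have hE2 := Ef_nonneg B (√(T ^ 2 - t ^ 2)) (RR t v - (x₁, s, 0))
  have h2t : 0 < 2 / t := by positivity
  have hc0 : 0 < (T / 2) ^ 3 / (147 * B ^ 7) := by positivity
  obtain ⟨y, η, ρ⟩ := v
  rcases le_or_gt ρ 0 with hρ | hρ
  · rw [kf_nonpos_rho U x₁ s t y η ρ hρ, indicator_of_notMem (fun h => not_lt.mpr hρ h.2.1), mul_zero,
      zero_sub]
    have : 0 ≤ (t - s) * (2 / t * (Ef B (√(T ^ 2 - t ^ 2)) ((y, η, ρ) - (x₁, s, 0)) +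
      Ef B (√(T ^ 2 - t ^ 2)) (RR t (y, η, ρ) - (x₁, s, 0)))) := by positivity
    linarith
  · rcases lt_trichotomy η t with hη | hη | hη
    · refine le_trans ?_ (ptw U x₁ s t T B y η ρ hs hst htT hTB hBt hη hρ hx hB hτt)
      apply mul_le_mul_of_nonneg_left _ hts.le
      have := mul_nonneg h2t.le hE2
      linarith
    · have hk : kf U x₁ s t (y, η, ρ) = 0 := by
        rw [kf_eq U x₁ s t y η ρ hρ, hη, show 2 * t - t = t by ring]
        ring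
      rw [hk, indicator_of_notMem (fun h => by have := h.1; simp only [] at this; linarith), mul_zero, zero_sub]
      have : 0 ≤ (t - s) * (2 / t * (Ef B (√(T ^ 2 - t ^ 2)) ((y, η, ρ) - (x₁, s, 0)) +
        Ef B (√(T ^ 2 - t ^ 2)) (RR t (y, η, ρ) - (x₁, s, 0)))) := by positivity
      linarith
    · rw [← kf_RR U x₁ s t (y, η, ρ)]
      refine le_trans ?_ (ptw U x₁ s t T B y (2 * t - η) ρ hs hst htT hTB hBt (by linarith) hρ hx hB hτt)
      apply mul_le_mul_of_nonneg_left _ hts.le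
      rw [indicator_of_notMem (fun h => by have := h.1; simp only [] at this; linarith), mul_zero, zero_sub]
      have h1 := mul_nonneg h2t.le hE1
      have h2 := mul_nonneg hc0.le (ind_nonneg U (y, 2 * t - η, ρ))
      have e : RR t (y, η, ρ) = (y, 2 * t - η, ρ) := rfl
      rw [e] at hE2 ⊢
      linarith

/-- integrated bound -/
lemma intb (hcyl : S_cyl) {U : Set (ℝ × ℝ)} (hU : IsOpen U) (hsub : U ⊆ UH)
    (hb : Bornology.IsBounded U) (hne : U.Nonempty) (x₁ s t T B : ℝ) (hs : 0 ≤ s) (hst : s < t)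
    (htT : t < T) (hTB : T ≤ B) (hBt : Bt U T) (hx : |x₁| ≤ B)
    (hB : ∀ x ∈ U, |x.1| ≤ B ∧ x.2 ≤ B) (hτt : T / 2 ≤ t) :
    (t - s) * ((T / 2) ^ 3 / (147 * B ^ 7) * (∫ v, (PU U).indicator (fun v : ℝ × ℝ × ℝ => v.2.2) v)
      - 2 / t * (2 * ∫ w, Ef B (√(T ^ 2 - t ^ 2)) w)) ≤
      4 * π * (phi U (x₁, s) - phi U (x₁, 2 * t - s)) := by
  have ht : 0 < t := lt_of_le_of_lt hs hst
  have hBp : 0 < B := by linarith
  obtain ⟨h1, h2⟩ := int_kf hcyl hU.measurableSet hsub hb x₁ s t hs hst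
  rw [← h2]
  have hρ0 : 0 < √(T ^ 2 - t ^ 2) := by
    apply Real.sqrt_pos.mpr
    have : t ^ 2 < T ^ 2 := by gcongr
    linarith
  obtain ⟨h3, _⟩ := PU_pos hU hsub hne hB
  have hE := Ef_int B (√(T ^ 2 - t ^ 2)) hBp hρ0
  have h2' : (volume : Measure (ℝ × ℝ)).IsAddHaarMeasure := by
    rw [Measure.volume_eq_prod]; infer_instance
  have h3' : (volume : Measure (ℝ × ℝ × ℝ)).IsAddHaarMeasure := by
    rw [Measure.volume_eq_prod]; infer_instance
  have hE1 := hE.comp_sub_right ((x₁, s, 0) : ℝ × ℝ × ℝ)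
  have hE1v : ∫ v, Ef B (√(T ^ 2 - t ^ 2)) (v - (x₁, s, 0)) = ∫ w, Ef B (√(T ^ 2 - t ^ 2)) w :=
    integral_sub_right_eq_self _ _
  have hmp := RR_mp t
  have hE2 : Integrable (fun v => Ef B (√(T ^ 2 - t ^ 2)) (RR t v - (x₁, s, 0))) :=
    (hmp.integrable_comp hE1.aestronglyMeasurable).mpr hE1
  have hE2v : ∫ v, Ef B (√(T ^ 2 - t ^ 2)) (RR t v - (x₁, s, 0)) = ∫ w, Ef B (√(T ^ 2 - t ^ 2)) w := by
    rw [← hE1v]
    have hm : AEStronglyMeasurable (fun v => Ef B (√(T ^ 2 - t ^ 2)) (v - (x₁, s, 0)))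
        (Measure.map (RR t) volume) := by
      rw [hmp.map_eq]
      exact hE1.aestronglyMeasurable
    rw [← integral_map (f := fun v => Ef B (√(T ^ 2 - t ^ 2)) (v - (x₁, s, 0))) hmp.aemeasurable hm,
      hmp.map_eq]
  have hint : Integrable (fun v => (t - s) * ((T / 2) ^ 3 / (147 * B ^ 7) * (PU U).indicator (fun v : ℝ × ℝ × ℝ => v.2.2) v
      - 2 / t * (Ef B (√(T ^ 2 - t ^ 2)) (v - (x₁, s, 0)) + Ef B (√(T ^ 2 - t ^ 2)) (RR t v - (x₁, s, 0))))) :=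
    ((h3.const_mul _).sub ((hE1.add hE2).const_mul _)).const_mul _
  have hle := integral_mono hint h1
    (fun v => ptw2 U x₁ s t T B hs hst htT.le hTB hBt hx hB hτt v)
  refine le_trans (le_of_eq ?_) hle
  have e1 : ∫ v, (Ef B (√(T ^ 2 - t ^ 2)) (v - (x₁, s, 0)) + Ef B (√(T ^ 2 - t ^ 2)) (RR t v - (x₁, s, 0)))
      = 2 * ∫ w, Ef B (√(T ^ 2 - t ^ 2)) w := by
    have := integral_add hE1 hE2
    rw [this, hE1v, hE2v]
    ring
  rw [integral_const_mul]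
  congr 1
  have e2 := integral_sub (h3.const_mul ((T / 2) ^ 3 / (147 * B ^ 7))) ((hE1.add hE2).const_mul (2 / t))
  have e3 : ∫ v, ((T / 2) ^ 3 / (147 * B ^ 7) * (PU U).indicator (fun v : ℝ × ℝ × ℝ => v.2.2) v
      - 2 / t * (Ef B (√(T ^ 2 - t ^ 2)) (v - (x₁, s, 0)) + Ef B (√(T ^ 2 - t ^ 2)) (RR t v - (x₁, s, 0))))
      = (∫ v, (T / 2) ^ 3 / (147 * B ^ 7) * (PU U).indicator (fun v : ℝ × ℝ × ℝ => v.2.2) v)
      - ∫ v, 2 / t * (Ef B (√(T ^ 2 - t ^ 2)) (v - (x₁, s, 0)) + Ef B (√(T ^ 2 - t ^ 2)) (RR t v - (x₁, s, 0))) := e2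
  rw [e3, integral_const_mul, integral_const_mul, e1]

/-- exact comparison -/
lemma L1 (hcyl : S_cyl) {U : Set (ℝ × ℝ)} (hU : IsOpen U) (hsub : U ⊆ UH)
    (hb : Bornology.IsBounded U) (x₁ s t : ℝ) (hs : 0 ≤ s) (hst : s < t) (hBt : Bt U t) :
    phi U (x₁, 2 * t - s) ≤ phi U (x₁, s) := by
  obtain ⟨h1, h2⟩ := int_kf hcyl hU.measurableSet hsub hb x₁ s t hs hst
  have h3 : 0 ≤ ∫ v, kf U x₁ s t v := by
    apply integral_nonneg
    intro v
    obtain ⟨y, η, ρ⟩ := v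
    simp only [Pi.zero_apply]
    rcases le_or_gt ρ 0 with hρ | hρ
    · rw [kf_nonpos_rho U x₁ s t y η ρ hρ]
    · rcases lt_trichotomy η t with hη | hη | hη
      · rcases core U x₁ s t t y η ρ hs hst le_rfl hBt hη hρ with h | ⟨_, h, _⟩
        · exact h
        · exfalso
          have : 0 < ρ ^ 2 := by positivity
          linarith
      · rw [kf_eq U x₁ s t y η ρ hρ, hη, show 2 * t - t = t by ring]
        simp
      · rw [← kf_RR U x₁ s t (y, η, ρ)]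
        rcases core U x₁ s t t y (2 * t - η) ρ hs hst le_rfl hBt (by linarith) hρ with h | ⟨_, h, _⟩
        · exact h
        · exfalso
          have : 0 < ρ ^ 2 := by positivity
          linarith
  rw [h2] at h3
  have h4 : 0 < 4 * π := by positivity
  have h5 : 0 ≤ phi U (x₁, s) - phi U (x₁, 2 * t - s) := by
    by_contra hc
    have := mul_neg_of_pos_of_neg h4 (not_le.mp hc)
    linarith
  linarith

/-- comparison slightly beyond the critical level -/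
lemma L2 (hcyl : S_cyl) {U : Set (ℝ × ℝ)} (hU : IsOpen U) (hsub : U ⊆ UH)
    (hb : Bornology.IsBounded U) (hne : U.Nonempty) (T B : ℝ) (hT : 0 < T) (hTB : T ≤ B) (hBt : Bt U T)
    (hB : ∀ x ∈ U, |x.1| ≤ B ∧ x.2 ≤ B) :
    ∃ δ : ℝ, 0 < δ ∧ δ ≤ T / 2 ∧ ∀ t : ℝ, T - δ < t → t < T → ∀ x₁ s : ℝ, |x₁| ≤ B → 0 ≤ s → s < t →
      phi U (x₁, 2 * t - s) ≤ phi U (x₁, s) := by
  have hBp : 0 < B := by linarith
  obtain ⟨_, hm⟩ := PU_pos hU hsub hne hB
  set m := ∫ v, (PU U).indicator (fun v : ℝ × ℝ × ℝ => v.2.2) v with hmdef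
  set c := (T / 2) ^ 3 / (147 * B ^ 7) with hc
  have hc0 : 0 < c := by positivity
  obtain ⟨ρ1, hρ1, hρ⟩ := Ef_small B hBp (c * m * T / 8) (by positivity)
  refine ⟨min (T / 2) (ρ1 ^ 2 / (2 * T)), lt_min (by linarith) (by positivity), min_le_left _ _, ?_⟩
  intro t ht1 ht2 x₁ s hx hs hst
  have hm1 : min (T / 2) (ρ1 ^ 2 / (2 * T)) ≤ T / 2 := min_le_left _ _
  have hm2 : min (T / 2) (ρ1 ^ 2 / (2 * T)) ≤ ρ1 ^ 2 / (2 * T) := min_le_right _ _
  have ht3 : T / 2 ≤ t := by linarith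
  have ht : 0 < t := by linarith
  have h1 := intb hcyl hU hsub hb hne x₁ s t T B hs hst ht2 hTB hBt hx hB ht3
  have hρ0 : 0 < √(T ^ 2 - t ^ 2) := by
    apply Real.sqrt_pos.mpr
    have : t ^ 2 < T ^ 2 := by gcongr
    linarith
  have hρ2 : √(T ^ 2 - t ^ 2) < ρ1 := by
    rw [Real.sqrt_lt' hρ1]
    have h2 : T - t < ρ1 ^ 2 / (2 * T) := by linarith
    have h3 : (T - t) * (2 * T) < ρ1 ^ 2 := by
      rwa [lt_div_iff₀ (by positivity)] at h2
    have h4 : (T - t) * (T + t) ≤ (T - t) * (2 * T) := by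
      apply mul_le_mul_of_nonneg_left (by linarith) (by linarith)
    calc T ^ 2 - t ^ 2 = (T - t) * (T + t) := by ring
      _ ≤ _ := h4
      _ < _ := h3
  have h5 := hρ _ hρ0 hρ2
  have hE0 : 0 ≤ ∫ w, Ef B (√(T ^ 2 - t ^ 2)) w := integral_nonneg (fun w => Ef_nonneg B _ w)
  have h6 : 2 / t * (2 * ∫ w, Ef B (√(T ^ 2 - t ^ 2)) w) ≤ c * m := by
    have h7 : 2 / t ≤ 4 / T := by
      rw [div_le_div_iff₀ ht hT]
      linarith
    calc 2 / t * (2 * ∫ w, Ef B (√(T ^ 2 - t ^ 2)) w)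
        ≤ 4 / T * (2 * (c * m * T / 8)) := by
          apply mul_le_mul h7 (by linarith) (by positivity) (by positivity)
      _ = c * m := by field_simp; norm_num
  have h8 : 0 ≤ (t - s) * (c * m - 2 / t * (2 * ∫ w, Ef B (√(T ^ 2 - t ^ 2)) w)) :=
    mul_nonneg (by linarith) (by linarith)
  have h9 : 0 ≤ 4 * π * (phi U (x₁, s) - phi U (x₁, 2 * t - s)) := h8.trans h1
  have h4 : 0 < 4 * π := by positivity
  have h5 : 0 ≤ phi U (x₁, s) - phi U (x₁, 2 * t - s) := by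
    by_contra hc
    have := mul_neg_of_pos_of_neg h4 (not_le.mp hc)
    linarith
  linarith

lemma Bt_mono {U : Set (ℝ × ℝ)} {t t' : ℝ} (h : Bt U t) (htt' : t ≤ t') : Bt U t' :=
  fun y r r' h1 h2 h3 h4 => h y r r' h1 h2 (by linarith) h4

end T11

theorem t_mp (hcyl : S_cyl) : S_mp := by
  intro U W hU hsub hb hlev x₁ r r' hr hrr'
  rcases U.eq_empty_or_nonempty with he | hne
  · subst he
    simp [phi]
  obtain ⟨R, hR⟩ := hb.subset_closedBall 0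
  set B : ℝ := max R 1 with hBdef
  have hBp : 0 < B := lt_of_lt_of_le one_pos (le_max_right _ _)
  have hB : ∀ x ∈ U, |x.1| ≤ B ∧ x.2 ≤ B := by
    intro x hx
    have h1 := hR hx
    rw [mem_closedBall_zero_iff, Prod.norm_def] at h1
    have h2 := (max_le_iff.mp h1)
    simp only [Real.norm_eq_abs] at h2
    exact ⟨h2.1.trans (le_max_left _ _), (le_abs_self _).trans (h2.2.trans (le_max_left _ _))⟩
  have key : ∀ t : ℝ, 0 < t → T11.Bt U t := by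
    by_contra hcon
    push Not at hcon
    obtain ⟨t0, ht0, hnB⟩ := hcon
    set S : Set ℝ := {t | 0 < t ∧ T11.Bt U t} with hS
    have hBS : B ∈ S := by
      refine ⟨hBp, ?_⟩
      intro y a a' h1 h2 h3 h4
      exfalso
      have := (hB _ h4).2
      simp only [] at this
      linarith
    have hbd : BddBelow S := ⟨0, fun t ht => ht.1.le⟩
    have hne' : S.Nonempty := ⟨B, hBS⟩
    set T := sInf S with hTdef
    have ht0T : t0 ≤ T := by
      apply le_csInf hne'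
      intro t ht
      by_contra hc
      exact hnB (T11.Bt_mono ht.2 (not_le.mp hc).le)
    have hT : 0 < T := by linarith
    have hTB : T ≤ B := csInf_le hbd hBS
    have hBtT : T11.Bt U T := by
      intro y a a' h1 h2 h3 h4
      -- openness
      have hc : ContinuousAt (fun e : ℝ => (y, a' + e)) 0 := by fun_prop
      have hnb : ∀ᶠ e in 𝓝 (0:ℝ), (y, a' + e) ∈ U := by
        apply hc.eventually_mem
        simpa using hU.mem_nhds h4
      obtain ⟨δ, hδ, hball⟩ := Metric.eventually_nhds_iff.mp hnb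
      have h5 : (y, a' + δ / 2) ∈ U := by
        apply hball
        rw [Real.dist_eq, sub_zero, abs_of_pos (by positivity)]
        linarith
      have h6 : sInf S < (a + (a' + δ / 2)) / 2 := by
        rw [← hTdef]
        linarith
      obtain ⟨t, htS, ht⟩ := exists_lt_of_csInf_lt hne' h6
      exact htS.2 y a (a' + δ / 2) h1 (by linarith) (by linarith) h5
    obtain ⟨δ, hδ, hδT, hL⟩ := T11.L2 hcyl hU hsub hb hne T B hT hTB hBtT hB
    have ht1 : T - δ / 2 ∈ S := by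
      refine ⟨by linarith, ?_⟩
      intro y a a' h1 h2 h3 h4
      by_cases h5 : 2 * T ≤ a + a'
      · exact hBtT y a a' h1 h2 h5 h4
      · have h6 := hL ((a + a') / 2) (by linarith) (by linarith) y a (hB _ h4).1 h1.le (by linarith)
        have e : 2 * ((a + a') / 2) - a = a' := by ring
        rw [e] at h6
        have h7 := (hlev (y, a') (hsub h4)).mp h4
        exact (hlev (y, a) h1).mpr (lt_of_lt_of_le h7 h6)
    have := csInf_le hbd ht1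
    rw [← hTdef] at this
    linarith
  have h1 := T11.L1 hcyl hU hsub hb x₁ r ((r + r') / 2) hr (by linarith) (key _ (by linarith))
  have e : 2 * ((r + r') / 2) - r = r' := by ring
  rw [e] at h1
  exact h1

end SV
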