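import Pool.Agent.Helper779.SV.Stmts

/-!
# T12: from maximisers to solutions, and the inequality (8.1)
-/

open MeasureTheory Set Filter Topology
open scoped Real

namespace SV
namespace T12

lemma phi_congr {A B : Set (ℝ × ℝ)} (h : A =ᵐ[volume] B) : phi A = phi B := by
  funext x
  exact setIntegral_congr_set h

lemma PP_congr {A B : Set (ℝ × ℝ)} (h : A =ᵐ[volume] B) : PP A = PP B :=
  setIntegral_congr_set h

lemma phi_pos {A : Set (ℝ × ℝ)} (hA : Fi A) (hphi : S_phibd) {τ : ℝ}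
    (hm : ∀ h : ℝ, 0 ≤ h → ∀ a b : ℝ, |a - τ| < |b - τ| → phi A (b, h) < phi A (a, h))
    (x : ℝ × ℝ) (hx : 0 ≤ x.2) : 0 < phi A x := by
  have h1 := hm x.2 hx x.1 (τ + (|x.1 - τ| + 1)) (by
    have h0 := abs_nonneg (x.1 - τ)
    rw [show τ + (|x.1 - τ| + 1) - τ = |x.1 - τ| + 1 by ring, abs_of_nonneg (a := |x.1 - τ| + 1) (by linarith)]
    linarith)
  have h2 := (hphi A hA (τ + (|x.1 - τ| + 1), x.2) hx).1
  have h3 : phi A (x.1, x.2) = phi A x := rfl
  linarith

lemma vol_ne_zero {A : Set (ℝ × ℝ)} (hP : 0 < PP A) : volume A ≠ 0 := by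
  intro h
  have : PP A = 0 := by
    unfold PP
    rw [Measure.restrict_eq_zero.2 h]
    simp
  linarith

lemma EE_pos {A : Set (ℝ × ℝ)} (hA : Fi A) (hP : 0 < PP A) (hadd : S_add)
    (hpos : ∀ x : ℝ × ℝ, 0 ≤ x.2 → 0 < phi A x) : 0 < EE A := by
  unfold EE cross
  have hint := (hadd A A hA hA).2.1
  have : 0 < ∫ x in A, phi A x * x.2 := by
    rw [setIntegral_pos_iff_support_of_nonneg_ae _ hint]
    · have hsub : A ⊆ Function.support (fun x : ℝ × ℝ => phi A x * x.2) ∩ A := by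
        intro x hx
        refine ⟨?_, hx⟩
        have h2 : 0 < x.2 := hA.sub hx
        exact (mul_pos (hpos x h2.le) h2).ne'
      exact lt_of_lt_of_le (pos_iff_ne_zero.2 (vol_ne_zero hP)) (measure_mono hsub)
    · filter_upwards [ae_restrict_mem hA.meas] with x hx
      have h2 : 0 < x.2 := hA.sub hx
      exact (mul_pos (hpos x h2.le) h2).le
  linarith

lemma isClosed_clUH : IsClosed {x : ℝ × ℝ | 0 ≤ x.2} :=
  isClosed_le continuous_const continuous_snd

lemma isOpen_UH : IsOpen UH := isOpen_lt continuous_const continuous_snd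

lemma level_null {A : Set (ℝ × ℝ)} (hA : Fi A) (hcont : S_cont) {τ : ℝ}
    (hm : ∀ h : ℝ, 0 ≤ h → ∀ a b : ℝ, |a - τ| < |b - τ| → phi A (b, h) < phi A (a, h))
    (W : ℝ) : volume {x : ℝ × ℝ | x ∈ UH ∧ phi A x = W} = 0 := by
  have hc := hcont A hA
  have hmeas : MeasurableSet {x : ℝ × ℝ | x ∈ UH ∧ phi A x = W} := by
    have h1 : IsClosed ({x : ℝ × ℝ | 0 ≤ x.2} ∩ phi A ⁻¹' {W}) :=
      hc.preimage_isClosed_of_isClosed isClosed_clUH isClosed_singleton
    have h2 : {x : ℝ × ℝ | x ∈ UH ∧ phi A x = W} = UH ∩ ({x : ℝ × ℝ | 0 ≤ x.2} ∩ phi A ⁻¹' {W}) := by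
      ext x
      constructor
      · rintro ⟨h, h'⟩
        have h0 : 0 < x.2 := h
        exact ⟨h, (show 0 ≤ x.2 from h0.le), h'⟩
      · rintro ⟨h, _, h'⟩
        exact ⟨h, h'⟩
    rw [h2]
    exact isOpen_UH.measurableSet.inter h1.measurableSet
  rw [show (volume : Measure (ℝ × ℝ)) = (volume : Measure ℝ).prod (volume : Measure ℝ) from rfl,
    Measure.prod_apply_symm hmeas]
  rw [lintegral_eq_zero_iff' ]
  · filter_upwards with y
    by_cases hy : 0 < y
    · by_cases hne : ((fun x => (x, y)) ⁻¹' {x : ℝ × ℝ | x ∈ UH ∧ phi A x = W}).Nonempty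
      · obtain ⟨a, ha⟩ := hne
        have hsub : ((fun x => (x, y)) ⁻¹' {x : ℝ × ℝ | x ∈ UH ∧ phi A x = W}) ⊆
            {τ + |a - τ|, τ - |a - τ|} := by
          intro b hb
          have h1 : phi A (a, y) = W := ha.2
          have h2 : phi A (b, y) = W := hb.2
          have h3 : |a - τ| = |b - τ| := by
            rcases lt_trichotomy (|a - τ|) (|b - τ|) with h | h | h
            · have := hm y hy.le a b h
              linarith
            · exact h
            · have := hm y hy.le b a h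
              linarith
          rcases abs_choice (b - τ) with h | h
          · left
            rw [h3, h]; ring
          · right
            rw [h3, h]
            show b = _
            ring
        exact (((Set.toFinite {τ + |a - τ|, τ - |a - τ|}).subset hsub).measure_zero _)
      · rw [Set.not_nonempty_iff_eq_empty] at hne
        rw [hne]; simp
    · have : ((fun x => (x, y)) ⁻¹' {x : ℝ × ℝ | x ∈ UH ∧ phi A x = W}) = ∅ := by
        ext b
        refine iff_of_false (fun h => ?_) (Set.notMem_empty _)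
        exact hy h.1
      rw [this]; simp
  · exact (measurable_measure_prodMk_right hmeas).aemeasurable

lemma setIntegral_le_of_sections {U : Set (ℝ × ℝ)} (hU : MeasurableSet U) {f g : ℝ × ℝ → ℝ}
    (hf : IntegrableOn f U) (hg : IntegrableOn g U)
    (h : ∀ a : ℝ, ∫ y in {y | (a, y) ∈ U}, f (a, y) ≤ ∫ y in {y | (a, y) ∈ U}, g (a, y)) :
    ∫ x in U, f x ≤ ∫ x in U, g x := by
  rw [← integral_indicator hU, ← integral_indicator hU]
  have hf' : Integrable (U.indicator f) ((volume : Measure ℝ).prod (volume : Measure ℝ)) :=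
    (integrable_indicator_iff hU).2 hf
  have hg' : Integrable (U.indicator g) ((volume : Measure ℝ).prod (volume : Measure ℝ)) :=
    (integrable_indicator_iff hU).2 hg
  rw [show (volume : Measure (ℝ × ℝ)) = (volume : Measure ℝ).prod (volume : Measure ℝ) from rfl,
    integral_prod _ hf', integral_prod _ hg']
  have key : ∀ (k : ℝ × ℝ → ℝ) (a : ℝ), ∫ y, U.indicator k (a, y) = ∫ y in {y | (a, y) ∈ U}, k (a, y) := by
    intro k a
    rw [← integral_indicator (s := {y : ℝ | (a, y) ∈ U}) (measurable_prodMk_left hU)]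
    rfl
  apply integral_mono hf'.integral_prod_left hg'.integral_prod_left
  intro a
  simp only [key]
  exact h a

/-- sections of an open lower set -/
lemma section_eq {U : Set (ℝ × ℝ)} (hopen : IsOpen U) (hsub : U ⊆ UH) (hlow : Low U) {H : ℝ} (hH : 0 ≤ H)
    (hb : ∀ x ∈ U, x.2 ≤ H) (a : ℝ) : ∃ h : ℝ, 0 ≤ h ∧ h ≤ H ∧ {y | (a, y) ∈ U} = Ioo 0 h := by
  by_cases hne : ({y | (a, y) ∈ U} : Set ℝ).Nonempty
  · set S : Set ℝ := {y | (a, y) ∈ U} with hS
    have hbdd : BddAbove S := ⟨H, fun y hy => hb (a, y) hy⟩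
    have hSo : IsOpen S := hopen.preimage (by fun_prop : Continuous (fun y : ℝ => (a, y)))
    obtain ⟨y₀, hy₀⟩ := hne
    have h0 : 0 < y₀ := hsub (show (a, y₀) ∈ U from hy₀)
    refine ⟨sSup S, le_trans h0.le (le_csSup hbdd hy₀), csSup_le ⟨y₀, hy₀⟩ (fun y hy => hb (a, y) hy), ?_⟩
    ext y
    constructor
    · intro hy
      refine ⟨hsub (show (a, y) ∈ U from hy), ?_⟩
      obtain ⟨ε, hε, hball⟩ := Metric.isOpen_iff.1 hSo y hy
      have h1 : y + ε / 2 ∈ S := hball (by rw [Metric.mem_ball, Real.dist_eq]; rw [show y + ε / 2 - y = ε / 2 by ring, abs_of_pos (by linarith)]; linarith)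
      have h2 := le_csSup hbdd h1
      linarith
    · rintro ⟨h1, h2⟩
      obtain ⟨y', hy', h3⟩ := exists_lt_of_lt_csSup ⟨y₀, hy₀⟩ h2
      exact hlow (a, y') hy' (a, y) le_rfl h1 h3.le
  · refine ⟨0, le_rfl, hH, ?_⟩
    rw [Set.not_nonempty_iff_eq_empty] at hne
    rw [hne]; simp

lemma F_le {H h : ℝ} (hH : 0 < H) (h0 : 0 ≤ h) (hh : h ≤ H) :
    (H + h) * Real.log (H + h) + (H - h) * Real.log (H - h) - 2 * (H * Real.log H) ≤ 2 * h * Real.log 2 := by
  have hc := Real.convexOn_mul_log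
  set t := h / H with ht
  have ht0 : 0 ≤ t := by positivity
  have ht1 : t ≤ 1 := by rw [ht, div_le_one hH]; exact hh
  have hht : t * H = h := by rw [ht]; field_simp
  have h1 := hc.2 (show H ∈ Ici (0:ℝ) from hH.le) (show 2 * H ∈ Ici (0:ℝ) from (by positivity : (0:ℝ) ≤ 2 * H))
    (show 0 ≤ 1 - t by linarith) ht0 (by ring)
  have h2 := hc.2 (show H ∈ Ici (0:ℝ) from hH.le) (show (0:ℝ) ∈ Ici (0:ℝ) from self_mem_Ici)
    (show 0 ≤ 1 - t by linarith) ht0 (by ring)
  simp only [smul_eq_mul] at h1 h2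
  rw [show (1 - t) * H + t * (2 * H) = H + h by rw [← hht]; ring] at h1
  rw [show (1 - t) * H + t * 0 = H - h by rw [← hht]; ring] at h2
  have h3 : Real.log (2 * H) = Real.log 2 + Real.log H := Real.log_mul (by norm_num) hH.ne'
  rw [h3] at h1
  have h4 : t * (2 * H * (Real.log 2 + Real.log H)) = 2 * h * Real.log 2 + 2 * (t * H) * Real.log H := by
    rw [← hht]; ring
  nlinarith

lemma kap_le {H a y : ℝ} (hH : 0 < H) (h0 : 0 < y) (hh : y < H) :
    kap (0, H) (a, y) * y ≤ 1 / (2 * π * H) * (Real.log (H + y) - Real.log (H - y)) := by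
  unfold kap kk dsq
  simp only
  rw [if_neg (by positivity)]
  set D := (0 - a) ^ 2 + (H - y) ^ 2 with hD
  have hDpos : 0 < (H - y) ^ 2 := by
    have : H - y ≠ 0 := by linarith
    positivity
  have hD1 : (H - y) ^ 2 ≤ D := by rw [hD]; nlinarith [sq_nonneg (0 - a)]
  have hDp : 0 < D := lt_of_lt_of_le hDpos hD1
  have h1 : Real.log (1 + 4 * H * y / D) ≤ 2 * (Real.log (H + y) - Real.log (H - y)) := by
    have e1 : 2 * (Real.log (H + y) - Real.log (H - y)) = Real.log (((H + y) / (H - y)) ^ 2) := by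
      rw [Real.log_pow, Real.log_div (by linarith) (by linarith)]
      push_cast; ring
    rw [e1]
    apply Real.log_le_log (by positivity)
    rw [div_pow]
    have e2 : (H + y) ^ 2 / (H - y) ^ 2 = 1 + 4 * H * y / (H - y) ^ 2 := by
      rw [eq_comm, ← div_self hDpos.ne', ← add_div]
      congr 1
      ring
    rw [e2]
    have : 4 * H * y / D ≤ 4 * H * y / (H - y) ^ 2 := by
      apply div_le_div_of_nonneg_left (by positivity) hDpos hD1
    linarith
  have e3 : 1 / π * (Real.log (1 + 4 * H * y / D) / (4 * H * y)) * y = 1 / (4 * π * H) * Real.log (1 + 4 * H * y / D) := by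
    field_simp
  rw [e3]
  calc 1 / (4 * π * H) * Real.log (1 + 4 * H * y / D) ≤ 1 / (4 * π * H) * (2 * (Real.log (H + y) - Real.log (H - y))) := by
        apply mul_le_mul_of_nonneg_left h1 (by positivity)
    _ = _ := by field_simp; norm_num

lemma int_log {H h : ℝ} (hH : 0 < H) (h0 : 0 ≤ h) (hh : h ≤ H) :
    IntervalIntegrable (fun y => Real.log (H + y) - Real.log (H - y)) volume 0 h ∧
    ∫ y in (0:ℝ)..h, (Real.log (H + y) - Real.log (H - y)) =
      (H + h) * Real.log (H + h) + (H - h) * Real.log (H - h) - 2 * (H * Real.log H) := by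
  have i1 : IntervalIntegrable (fun y => Real.log (H + y)) volume 0 h := by
    have := (intervalIntegral.intervalIntegrable_log' (a := H + 0) (b := H + h)).comp_add_left H
    simpa using this
  have i2 : IntervalIntegrable (fun y => Real.log (H - y)) volume 0 h := by
    have := (intervalIntegral.intervalIntegrable_log' (a := H - 0) (b := H - h)).comp_sub_left H
    simpa using this
  refine ⟨i1.sub i2, ?_⟩
  rw [intervalIntegral.integral_sub i1 i2]
  have e1 : ∫ y in (0:ℝ)..h, Real.log (H + y) = ∫ y in (H + 0)..(H + h), Real.log y :=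
    intervalIntegral.integral_comp_add_left (fun y => Real.log y) H
  have e2 : ∫ y in (0:ℝ)..h, Real.log (H - y) = ∫ y in (H - h)..(H - 0), Real.log y :=
    intervalIntegral.integral_comp_sub_left (fun y => Real.log y) H
  rw [e1, e2, integral_log, integral_log]
  ring

end T12

theorem t_sol (hst : S_steiner) (hco : S_cont) (hte : S_tend) (hmp : S_mp) (hsc : S_scale)
    (htr : S_trans) (hph : S_phibd) (had : S_add) : S_sol := by
  intro A hA hbal hel
  have hF : Fi A := ⟨hA.meas, hA.sub, hA.int⟩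
  obtain ⟨τ, hStA, hsym, hmono⟩ := hst A hA hbal
  have hpos := T12.phi_pos hF hph hmono
  have hE := T12.EE_pos hF hA.pos had hpos
  have hP := hA.pos
  set W : ℝ := 4 * EE A / (3 * PP A) with hW
  have hWpos : 0 < W := by positivity
  -- the super level set
  set V : Set (ℝ × ℝ) := {x | x ∈ UH ∧ W < phi A x} with hV
  have hAV : A =ᵐ[volume] V := by
    have hn := T12.level_null hF hco hmono W
    have hn' : ∀ᵐ x : ℝ × ℝ, ¬ (x ∈ UH ∧ phi A x = W) := by
      rw [ae_iff]
      simpa using hn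
    filter_upwards [hel.1, hel.2, hn'] with x h1 h2 h3
    apply propext
    constructor
    · intro hx
      have hx' : x ∈ A := hx
      refine ⟨hA.sub hx', lt_of_le_of_ne (h1 hx') ?_⟩
      intro h
      exact h3 ⟨hA.sub hx', h.symm⟩
    · intro hx
      have hx' : x ∈ V := hx
      by_contra hxA
      exact absurd hx'.2 (not_lt.2 (h2 hx'.1 hxA))
  have hVopen : IsOpen V := by
    have h1 : ContinuousOn (phi A) UH := (hco A hF).mono (fun x (hx : 0 < x.2) => (show 0 ≤ x.2 from hx.le))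
    exact h1.isOpen_inter_preimage T12.isOpen_UH isOpen_Ioi
  have hphiV : phi V = phi A := (T12.phi_congr hAV).symm
  have hPPV : PP V = PP A := (T12.PP_congr hAV).symm
  have hFV : Fi V := by
    refine ⟨hVopen.measurableSet, fun x hx => hx.1, ?_⟩
    exact (integrableOn_congr_set_ae hAV).1 hA.int
  have hVb : ∃ ρ : ℝ, 0 < ρ ∧ ∀ x ∈ V, x.1 ^ 2 + x.2 ^ 2 < ρ ^ 2 := by
    obtain ⟨ρ, hρ, h⟩ := hte A hF hA.fin W hWpos
    refine ⟨ρ, hρ, fun x hx => ?_⟩
    by_contra hcon
    have := h x (le_of_lt hx.1) (not_lt.1 hcon)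
    exact absurd hx.2 (not_lt.2 this.le)
  -- scaling factor
  obtain ⟨ρ, hρ, hρ2⟩ : ∃ ρ : ℝ, 0 < ρ ∧ ρ ^ 2 = π * W / PP A := by
    refine ⟨√(π * W / PP A), Real.sqrt_pos.2 (by positivity), Real.sq_sqrt (by positivity)⟩
  have hFT := (htr V hFV (-τ)).1
  have hPT : PP (tra (-τ) V) = PP A := by rw [(htr V hFV (-τ)).2.1, hPPV]
  have hphiT : ∀ x : ℝ × ℝ, phi (tra (-τ) V) x = phi A (x.1 + τ, x.2) := by
    intro x
    rw [(htr V hFV (-τ)).2.2.2.2 x, hphiV]
    congr 2
    ring
  have hS := hsc (tra (-τ) V) hFT ρ hρ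
  set U : Set (ℝ × ℝ) := dil ρ (tra (-τ) V) with hU
  have hphiU : ∀ x : ℝ × ℝ, phi U x = ρ * phi A (ρ⁻¹ * x.1 + τ, ρ⁻¹ * x.2) := by
    intro x
    rw [hS.2.2.2.2.2 x, hphiT]
  have hmemU : ∀ x : ℝ × ℝ, x ∈ U ↔ 0 < x.2 ∧ W < phi A (ρ⁻¹ * x.1 + τ, ρ⁻¹ * x.2) := by
    intro x
    have h0 : x ∈ U ↔ ((ρ⁻¹ * x.1 - (-τ), ρ⁻¹ * x.2) ∈ V) := Iff.rfl
    rw [h0, sub_neg_eq_add]
    constructor
    · rintro ⟨h1, h2⟩
      refine ⟨?_, h2⟩
      have h1' : 0 < ρ⁻¹ * x.2 := h1
      exact (pos_iff_pos_of_mul_pos h1').1 (inv_pos.2 hρ)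
    · rintro ⟨h1, h2⟩
      exact ⟨mul_pos (inv_pos.2 hρ) h1, h2⟩
  have hlev : ∀ x ∈ UH, (x ∈ U ↔ ρ * W < phi U x) := by
    intro x hx
    rw [hmemU x, hphiU x]
    constructor
    · rintro ⟨_, h⟩
      exact mul_lt_mul_of_pos_left h hρ
    · intro h
      exact ⟨hx, lt_of_mul_lt_mul_left h hρ.le⟩
  have hUsub : U ⊆ UH := fun x hx => ((hmemU x).1 hx).1
  have hUopen : IsOpen U := by
    have hcontf : Continuous (fun x : ℝ × ℝ => ((ρ⁻¹ * x.1 - (-τ), ρ⁻¹ * x.2) : ℝ × ℝ)) := by fun_prop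
    exact hVopen.preimage hcontf
  have hUbdd : Bornology.IsBounded U := by
    obtain ⟨R, hR, hb⟩ := hVb
    have hsub : U ⊆ Icc (-(ρ * (R + |τ|)), -(ρ * R)) (ρ * (R + |τ|), ρ * R) := by
      intro x hx
      have h0 : ((ρ⁻¹ * x.1 - (-τ), ρ⁻¹ * x.2) : ℝ × ℝ) ∈ V := hx
      have h1 := hb _ h0
      simp only [sub_neg_eq_add] at h1
      have h2 : |ρ⁻¹ * x.1 + τ| < R := abs_lt_of_sq_lt_sq (by nlinarith [sq_nonneg (ρ⁻¹ * x.2)]) hR.le
      have h3 : |ρ⁻¹ * x.2| < R := abs_lt_of_sq_lt_sq (by nlinarith [sq_nonneg (ρ⁻¹ * x.1 + τ)]) hR.le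
      rw [abs_lt] at h2 h3
      have e1 : ρ * (ρ⁻¹ * x.1) = x.1 := by field_simp
      have e2 : ρ * (ρ⁻¹ * x.2) = x.2 := by field_simp
      have t1 := le_abs_self τ
      have t2 := neg_abs_le τ
      simp only [mem_Icc, Prod.le_def]
      refine ⟨⟨?_, ?_⟩, ?_, ?_⟩
      · nlinarith
      · nlinarith
      · nlinarith
      · nlinarith
    exact (Metric.isBounded_Icc _ _).subset hsub
  have hmonoU : ∀ h : ℝ, 0 ≤ h → ∀ a b : ℝ, |a| < |b| → phi U (b, h) < phi U (a, h) := by
    intro h hh a b hab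
    rw [hphiU, hphiU]
    apply mul_lt_mul_of_pos_left _ hρ
    apply hmono _ (by positivity)
    simp only [add_sub_cancel_right, abs_mul]
    exact mul_lt_mul_of_pos_left hab (abs_pos.2 (inv_pos.2 hρ).ne')
  have hsymU : ∀ h : ℝ, 0 ≤ h → ∀ a : ℝ, phi U (-a, h) = phi U (a, h) := by
    intro h hh a
    rw [hphiU, hphiU]
    have := hsym (ρ⁻¹ * h) (by positivity) (ρ⁻¹ * a)
    simp only
    rw [show ρ⁻¹ * -a + τ = τ - ρ⁻¹ * a by ring, show ρ⁻¹ * a + τ = τ + ρ⁻¹ * a by ring, this]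
  have hmonoU' : ∀ h : ℝ, 0 ≤ h → ∀ a b : ℝ, |a| ≤ |b| → phi U (b, h) ≤ phi U (a, h) := by
    intro h hh a b hab
    rcases lt_or_eq_of_le hab with h1 | h1
    · exact (hmonoU h hh a b h1).le
    · rcases abs_eq_abs.1 h1 with h2 | h2
      · rw [h2]
      · rw [h2, hsymU h hh]
  have hmassU : PP U = π * (ρ * W) := by
    rw [hS.2.1, hPT]
    have : ρ ^ 3 = ρ * (ρ ^ 2) := by ring
    rw [this, hρ2]
    field_simp
  have hVne : V.Nonempty := by
    rw [Set.nonempty_iff_ne_empty]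
    intro h
    have h1 : volume V = 0 := by rw [h]; simp
    have h2 : 0 < PP V := by rw [hPPV]; exact hP
    exact T12.vol_ne_zero h2 h1
  have hUne : U.Nonempty := by
    obtain ⟨x, hx⟩ := hVne
    refine ⟨(ρ * (x.1 - τ), ρ * x.2), ?_⟩
    have h0 : (ρ * (x.1 - τ), ρ * x.2) ∈ U ↔ ((ρ⁻¹ * (ρ * (x.1 - τ)) - (-τ), ρ⁻¹ * (ρ * x.2)) ∈ V) := Iff.rfl
    rw [h0, inv_mul_cancel_left₀ hρ.ne', inv_mul_cancel_left₀ hρ.ne']
    simpa using hx
  have hlow : Low U := by
    intro x hx y hy1 hy2 hy3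
    have h1 : phi U x ≤ phi U (x.1, y.2) := by
      rcases lt_or_eq_of_le hy3 with h | h
      · exact hmp U (ρ * W) hUopen hUsub hUbdd hlev x.1 y.2 x.2 hy2.le h
      · rw [h]
    have h2 : phi U (x.1, y.2) ≤ phi U (y.1, y.2) := hmonoU' y.2 hy2.le y.1 x.1 hy1
    have h3 := (hlev x (hUsub hx)).1 hx
    rw [hlev y hy2]
    have h4 : phi U (y.1, y.2) = phi U y := rfl
    linarith
  refine ⟨ρ * W, U, τ, ρ⁻¹, ⟨by positivity, hUopen, hUsub, hUbdd, hUne, hlow, hlev, hmassU, hmonoU⟩,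
    inv_pos.2 hρ, ?_, ?_⟩
  · have hEq : tra τ (dil ρ⁻¹ U) = V := by
      ext x
      have h0 : x ∈ tra τ (dil ρ⁻¹ U) ↔
          ((ρ⁻¹ * (ρ⁻¹⁻¹ * (x.1 - τ)) - (-τ), ρ⁻¹ * (ρ⁻¹⁻¹ * x.2)) ∈ V) := Iff.rfl
      rw [h0, inv_inv, inv_mul_cancel_left₀ hρ.ne', inv_mul_cancel_left₀ hρ.ne']
      simp
    rw [hEq]
    exact hAV
  · have : (ρ * W) ^ 2 = ρ ^ 2 * W ^ 2 := by ring
    rw [this, hρ2, hW]
    field_simp
    ring

theorem t_Tprime (hco : S_cont) (hi : S_int) : S_Tprime := by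
  intro w U hS
  have hw := hS.wpos
  have hFi : Fi U := by
    refine ⟨hS.opn.measurableSet, hS.sub, ?_⟩
    have hc : IsCompact (closure U) := hS.bdd.isCompact_closure
    have : IntegrableOn (fun y : ℝ × ℝ => y.2) (closure U) := continuous_snd.continuousOn.integrableOn_compact hc
    exact this.mono_set subset_closure
  have hUfin : volume U ≠ ⊤ := hS.bdd.measure_lt_top.ne
  -- the height
  obtain ⟨R, hR⟩ := hS.bdd.exists_norm_le
  have hbddA : BddAbove (Prod.snd '' U) := by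
    refine ⟨R, ?_⟩
    rintro _ ⟨x, hx, rfl⟩
    exact le_trans (le_abs_self _) (le_trans (norm_snd_le x) (hR x hx))
  set H := sSup (Prod.snd '' U) with hH
  have hne : (Prod.snd '' U).Nonempty := hS.ne.image _
  have hHle : ∀ x ∈ U, x.2 ≤ H := fun x hx => le_csSup hbddA ⟨x, hx, rfl⟩
  obtain ⟨x₀, hx₀⟩ := hS.ne
  have hHpos : 0 < H := lt_of_lt_of_le (hS.sub hx₀) (hHle x₀ hx₀)
  -- phi at (0,H)
  have hphi : w ≤ phi U (0, H) := by
    by_contra hcon
    push Not at hcon
    have hcw : ContinuousWithinAt (phi U) {x : ℝ × ℝ | 0 ≤ x.2} (0, H) := hco U hFi (0, H) (show (0:ℝ) ≤ H from hHpos.le)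
    have hev := hcw.eventually (gt_mem_nhds hcon) 
    rw [eventually_nhdsWithin_iff, Metric.eventually_nhds_iff] at hev
    obtain ⟨ε, hε, hball⟩ := hev
    obtain ⟨_, ⟨x, hx, rfl⟩, hx2⟩ := exists_lt_of_lt_csSup hne (show H - ε < H by linarith)
    have h1 : ((0:ℝ), x.2) ∈ U := hS.low x hx (0, x.2) (by simp) (show (0:ℝ) < x.2 from hS.sub hx) le_rfl
    have h2 : w < phi U (0, x.2) := (hS.lev _ (hS.sub h1)).1 h1
    have h3 : x.2 ≤ H := hHle x hx
    have h4 := @hball (0, x.2) (by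
      rw [Prod.dist_eq, max_lt_iff]
      simp only [dist_self, Real.dist_eq]
      refine ⟨hε, ?_⟩
      rw [abs_lt]; constructor <;> linarith) (show (0:ℝ) ≤ x.2 from (show (0:ℝ) < x.2 from hS.sub hx).le)
    linarith
  set c := Real.log 2 / (π * H) with hc
  have hcint : ∀ c : ℝ, IntegrableOn (fun _ : ℝ × ℝ => c) U := fun c => integrableOn_const hUfin
  have hphi2 : phi U (0, H) ≤ ∫ x in U, c := by
    apply T12.setIntegral_le_of_sections hS.opn.measurableSet (hi U hFi (0, H) hHpos.le) (hcint c)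
    intro a
    obtain ⟨h, h0, hh, hsec⟩ := T12.section_eq hS.opn hS.sub hS.low hHpos.le hHle a
    rw [hsec]
    obtain ⟨i1, e1⟩ := T12.int_log hHpos h0 hh
    have i2 : IntegrableOn (fun y => 1 / (2 * π * H) * (Real.log (H + y) - Real.log (H - y))) (Ioo 0 h) := by
      have := ((intervalIntegrable_iff_integrableOn_Ioc_of_le h0).1 (i1.const_mul (1 / (2 * π * H))))
      exact this.mono_set Ioo_subset_Ioc_self
    calc ∫ y in Ioo 0 h, kap (0, H) (a, y) * y 
        ≤ ∫ y in Ioo 0 h, 1 / (2 * π * H) * (Real.log (H + y) - Real.log (H - y)) := by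
          apply integral_mono_of_nonneg _ i2
          · filter_upwards [ae_restrict_mem measurableSet_Ioo] with y hy
            exact T12.kap_le hHpos hy.1 (lt_of_lt_of_le hy.2 hh)
          · filter_upwards [ae_restrict_mem measurableSet_Ioo] with y hy
            have hy1 : 0 < y := hy.1
            have hy2 : y < H := lt_of_lt_of_le hy.2 hh
            apply mul_nonneg _ hy1.le
            unfold kap kk dsq
            simp only
            rw [if_neg (by positivity)]
            have : H - y ≠ 0 := by linarith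
            apply mul_nonneg (by positivity)
            apply div_nonneg _ (by positivity)
            apply Real.log_nonneg
            have : 0 ≤ 4 * H * y / ((0 - a) ^ 2 + (H - y) ^ 2) := by positivity
            linarith
      _ = 1 / (2 * π * H) * ((H + h) * Real.log (H + h) + (H - h) * Real.log (H - h) - 2 * (H * Real.log H)) := by
          rw [← integral_Ioc_eq_integral_Ioo, ← intervalIntegral.integral_of_le h0,
            intervalIntegral.integral_const_mul, e1]
      _ ≤ 1 / (2 * π * H) * (2 * h * Real.log 2) := by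
          apply mul_le_mul_of_nonneg_left (T12.F_le hHpos h0 hh) (by positivity)
      _ = ∫ y in Ioo 0 h, c := by
          rw [setIntegral_const, smul_eq_mul, hc, Real.volume_real_Ioo_of_le h0]
          field_simp
          ring
  have hmass : PP U ≤ ∫ x in U, H / 2 := by
    apply T12.setIntegral_le_of_sections hS.opn.measurableSet hFi.int (hcint (H / 2))
    intro a
    obtain ⟨h, h0, hh, hsec⟩ := T12.section_eq hS.opn hS.sub hS.low hHpos.le hHle a
    rw [hsec]
    rw [setIntegral_const, smul_eq_mul, Real.volume_real_Ioo_of_le h0]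
    rw [← integral_Ioc_eq_integral_Ioo, ← intervalIntegral.integral_of_le h0, integral_id]
    nlinarith
  rw [setIntegral_const, smul_eq_mul] at hphi2 hmass
  have har : volume.real U = ar U := rfl
  rw [har] at hphi2 hmass
  rw [hS.mass] at hmass
  have har0 : 0 ≤ ar U := ENNReal.toReal_nonneg
  have hl2 : 0 < Real.log 2 := Real.log_pos (by norm_num)
  have h1 : w ≤ ar U * (Real.log 2 / (π * H)) := le_trans hphi hphi2
  have h2 : w * (π * w) ≤ (ar U * (Real.log 2 / (π * H))) * (ar U * (H / 2)) :=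
    mul_le_mul h1 hmass (by positivity) (by positivity)
  have h3 : (ar U * (Real.log 2 / (π * H))) * (ar U * (H / 2)) = ar U ^ 2 * Real.log 2 / (2 * π) := by
    field_simp
  rw [h3, le_div_iff₀ (by positivity)] at h2
  nlinarith

end SV
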