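import Pool.Agent.Helper779.SV.Final

/-!
# T23: translation between functions and sets, and the final assembly
-/

open MeasureTheory Set Filter Topology
open scoped Real

namespace SV

namespace T23

/-- the reflection in the horizontal axis -/
def rf (x : ℝ × ℝ) : ℝ × ℝ := (x.1, -x.2)

theorem rf_mp : MeasurePreserving rf (volume : Measure (ℝ × ℝ)) volume := by
  have h := (MeasurePreserving.id (volume : Measure ℝ)).prod
    (Measure.measurePreserving_neg (volume : Measure ℝ))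
  exact h

theorem rf_me : MeasurableEmbedding rf :=
  ((MeasurableEquiv.refl ℝ).prodCongr (MeasurableEquiv.neg ℝ)).measurableEmbedding

theorem mirror_eq (A : Set (ℝ × ℝ)) : mirror A = rf ⁻¹' A := rfl

theorem mirror_meas {A : Set (ℝ × ℝ)} (hA : MeasurableSet A) : MeasurableSet (mirror A) := by
  rw [mirror_eq]
  exact rf_mp.measurable hA

theorem vol_mirror {A : Set (ℝ × ℝ)} (hA : MeasurableSet A) :
    volume (mirror A) = volume A := by
  rw [mirror_eq]
  exact rf_mp.measure_preimage hA.nullMeasurableSet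

theorem not_both {A : Set (ℝ × ℝ)} (hA : A ⊆ {x | 0 < x.2}) {x : ℝ × ℝ} (h : x ∈ A) :
    x ∉ mirror A := by
  intro h'
  have h1 : 0 < x.2 := hA h
  have h2 : 0 < -x.2 := hA h'
  linarith

theorem patch_eq_one {A : Set (ℝ × ℝ)} (hA : A ⊆ {x | 0 < x.2}) {x : ℝ × ℝ} :
    patch A x = 1 ↔ x ∈ A := by
  constructor
  · intro h
    by_contra hx
    simp only [patch, indicator_of_notMem hx] at h
    have : 0 ≤ (mirror A).indicator (fun _ => (1 : ℝ)) x :=
      indicator_nonneg (fun _ _ => zero_le_one) _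
    linarith
  · intro h
    simp [patch, indicator_of_mem h, indicator_of_notMem (not_both hA h)]

theorem patch_inj {A B : Set (ℝ × ℝ)} (hA : A ⊆ {x | 0 < x.2}) (hB : B ⊆ {x | 0 < x.2})
    (h : patch A = patch B) : A = B := by
  ext x
  rw [← patch_eq_one hA, ← patch_eq_one hB, h]

theorem ind_congr {A B : Set (ℝ × ℝ)} {x y : ℝ × ℝ} (h : (x ∈ A) = (y ∈ B)) :
    A.indicator (fun _ => (1 : ℝ)) x = B.indicator (fun _ => (1 : ℝ)) y := by
  by_cases hx : x ∈ A
  · have hy : y ∈ B := h ▸ hx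
    rw [indicator_of_mem hx, indicator_of_mem hy]
  · have hy : y ∉ B := h ▸ hx
    rw [indicator_of_notMem hx, indicator_of_notMem hy]

theorem patch_ae {A B : Set (ℝ × ℝ)} (h : A =ᵐ[volume] B) : patch A =ᵐ[volume] patch B := by
  have h1 : mirror A =ᵐ[volume] mirror B := by
    rw [mirror_eq, mirror_eq]
    exact rf_mp.quasiMeasurePreserving.preimage_ae_eq h
  filter_upwards [h, h1] with x hx hx1
  have hx' : (x ∈ A) = (x ∈ B) := hx
  have hx1' : (x ∈ mirror A) = (x ∈ mirror B) := hx1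
  simp only [patch]
  rw [ind_congr hx', ind_congr hx1']

theorem lint_patch {A : Set (ℝ × ℝ)} (hm : MeasurableSet A) (hA : A ⊆ {x | 0 < x.2}) :
    ∫⁻ x : ℝ × ℝ, ENNReal.ofReal |patch A x| = 2 * volume A := by
  have h1 : ∀ x : ℝ × ℝ, ENNReal.ofReal |patch A x| =
      A.indicator (fun _ => (1 : ENNReal)) x + (mirror A).indicator (fun _ => (1 : ENNReal)) x := by
    intro x
    by_cases hx : x ∈ A
    · have hx' := not_both hA hx
      simp [patch, indicator_of_mem hx, indicator_of_notMem hx']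
    · by_cases hx' : x ∈ mirror A
      · simp [patch, indicator_of_notMem hx, indicator_of_mem hx']
      · simp [patch, indicator_of_notMem hx, indicator_of_notMem hx']
  simp_rw [h1]
  rw [lintegral_add_left (measurable_const.indicator hm), lintegral_indicator_const hm,
    lintegral_indicator_const (mirror_meas hm), vol_mirror hm, one_mul, two_mul]

theorem mul_patch {A : Set (ℝ × ℝ)} (x : ℝ × ℝ) :
    x.2 * patch A x = A.indicator (fun y : ℝ × ℝ => y.2) x +
      A.indicator (fun y : ℝ × ℝ => y.2) (rf x) := by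
  have h2 : A.indicator (fun y : ℝ × ℝ => y.2) (rf x) = -(x.2 *
      (mirror A).indicator (fun _ => (1 : ℝ)) x) := by
    by_cases hx : x ∈ mirror A
    · have hx' : rf x ∈ A := hx
      rw [indicator_of_mem hx', indicator_of_mem hx]
      simp [rf]
    · have hx' : rf x ∉ A := hx
      rw [indicator_of_notMem hx', indicator_of_notMem hx]
      simp
  rw [h2, patch]
  by_cases hx : x ∈ A
  · rw [indicator_of_mem hx, indicator_of_mem hx]; ring
  · rw [indicator_of_notMem hx, indicator_of_notMem hx]; ring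

theorem int_patch {A : Set (ℝ × ℝ)} (hm : MeasurableSet A)
    (hi : IntegrableOn (fun y : ℝ × ℝ => y.2) A) :
    ∫ x : ℝ × ℝ, x.2 * patch A x = 2 * PP A := by
  have h1 : Integrable (A.indicator (fun y : ℝ × ℝ => y.2)) := (integrable_indicator_iff hm).2 hi
  have h2 : Integrable (fun x => A.indicator (fun y : ℝ × ℝ => y.2) (rf x)) :=
    rf_mp.integrable_comp_of_integrable h1
  simp_rw [mul_patch]
  rw [integral_add h1 h2, rf_mp.integral_comp rf_me, integral_indicator hm]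
  unfold PP
  ring

theorem integrable_of_patch {A : Set (ℝ × ℝ)} (hm : MeasurableSet A) (hA : A ⊆ {x | 0 < x.2})
    (hi : Integrable (fun x : ℝ × ℝ => x.2 * patch A x)) :
    IntegrableOn (fun y : ℝ × ℝ => y.2) A := by
  have h1 : IntegrableOn (fun x : ℝ × ℝ => x.2 * patch A x) A := hi.integrableOn
  refine h1.congr_fun (fun x hx => ?_) hm
  simp only
  rw [(patch_eq_one hA).2 hx, mul_one]

/-- membership in `KM` for patches -/
theorem mem_KM {μ : ℝ} (hμ : 0 < μ) {A : Set (ℝ × ℝ)} :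
    (MeasurableSet A ∧ A ⊆ {x | 0 < x.2} ∧ patch A ∈ KM μ) ↔
      (Adm A ∧ PP A = μ / 2 ∧ ar A ≤ 1 / 2) := by
  constructor
  · rintro ⟨hm, hA, B, hmB, hB, he, h1, h2⟩
    obtain rfl : A = B := patch_inj hA hB he
    rw [lint_patch hm hA] at h2
    have hfin : volume A ≠ ⊤ := by
      intro h
      rw [h] at h2
      simp at h2
    have hi : Integrable (fun x : ℝ × ℝ => x.2 * patch A x) := by
      by_contra h
      rw [integral_undef h] at h1
      linarith
    have hi' := integrable_of_patch hm hA hi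
    have hP := int_patch hm hi'
    rw [h1] at hP
    refine ⟨⟨hm, hA, hfin, hi', by linarith⟩, by linarith, ?_⟩
    have h3 : (2 * volume A).toReal ≤ 1 := by
      have := ENNReal.toReal_mono (by simp) h2
      simpa using this
    rw [ENNReal.toReal_mul] at h3
    unfold ar
    have h4 : (2 : ENNReal).toReal = 2 := by simp
    rw [h4] at h3
    linarith
  · rintro ⟨hAdm, hP, har⟩
    refine ⟨hAdm.meas, hAdm.sub, A, hAdm.meas, hAdm.sub, rfl, ?_, ?_⟩
    · rw [int_patch hAdm.meas hAdm.int, hP]; ring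
    · rw [lint_patch hAdm.meas hAdm.sub]
      have h1 : (2 * volume A) = ENNReal.ofReal (2 * ar A) := by
        rw [ENNReal.ofReal_mul (by norm_num), ar, ENNReal.ofReal_toReal hAdm.fin]
        simp
      rw [h1]
      have : ENNReal.ofReal (2 * ar A) ≤ ENNReal.ofReal 1 := ENNReal.ofReal_le_ofReal (by linarith)
      simpa using this

theorem Adm.fi {A : Set (ℝ × ℝ)} (h : Adm A) : Fi A := ⟨h.meas, h.sub, h.int⟩

end T23

open T23

theorem t_trl (hKE : S_KE) : S_trl := by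
  intro μ hμ A
  constructor
  · rintro ⟨hm, hA, hK, hmax⟩
    obtain ⟨hAdm, hP, har⟩ := (mem_KM hμ).1 ⟨hm, hA, hK⟩
    refine ⟨hAdm, hP, har, fun B hB hPB harB => ?_⟩
    obtain ⟨-, -, hKB⟩ := (mem_KM hμ).2 ⟨hB, hPB, harB⟩
    have h1 := hmax _ hKB
    rw [(hKE A (Adm.fi hAdm) hAdm.fin).2, (hKE B (Adm.fi hB) hB.fin).2] at h1
    exact h1
  · rintro ⟨hAdm, hP, har, hmax⟩
    obtain ⟨hm, hA, hK⟩ := (mem_KM hμ).2 ⟨hAdm, hP, har⟩
    refine ⟨hm, hA, hK, ?_⟩
    rintro ω' ⟨B, hmB, hB, rfl, h1, h2⟩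
    obtain ⟨hBAdm, hPB, harB⟩ := (mem_KM hμ).1 ⟨hmB, hB, B, hmB, hB, rfl, h1, h2⟩
    rw [(hKE A (Adm.fi hAdm) hAdm.fin).2, (hKE B (Adm.fi hBAdm) hBAdm.fin).2]
    exact hmax B hBAdm hPB harB

namespace T23

theorem Adm_dil (hs : S_scale) {A : Set (ℝ × ℝ)} (h : Adm A) {r : ℝ} (hr : 0 < r) :
    Adm (dil r A) := by
  obtain ⟨h1, h2, -, -, h5, -⟩ := hs A (Adm.fi h) r hr
  refine ⟨h1.meas, h1.sub, fun h6 => h.fin (h5.1 h6), h1.int, ?_⟩
  rw [h2]
  exact mul_pos (pow_pos hr 3) h.pos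

theorem Adm_tra (ht : S_trans) {A : Set (ℝ × ℝ)} (h : Adm A) (τ : ℝ) : Adm (tra τ A) := by
  obtain ⟨h1, h2, -, h4, -⟩ := ht A (Adm.fi h) τ
  refine ⟨h1.meas, h1.sub, ?_, h1.int, ?_⟩
  · rw [h4]; exact h.fin
  · rw [h2]; exact h.pos

theorem ar_tra (ht : S_trans) {A : Set (ℝ × ℝ)} (h : Adm A) (τ : ℝ) : ar (tra τ A) = ar A := by
  obtain ⟨-, -, -, h4, -⟩ := ht A (Adm.fi h) τ
  unfold ar
  rw [h4]

/-- the main family: translated dilations -/
theorem fam (hs : S_scale) (ht : S_trans) {U : Set (ℝ × ℝ)} (hU : JMax U) {r : ℝ} (hr : 0 < r)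
    (τ : ℝ) : JMax (tra τ (dil r U)) ∧ PP (tra τ (dil r U)) = r ^ 3 * PP U ∧
      ar (tra τ (dil r U)) = r ^ 2 * ar U := by
  have hA := hU.1
  have hd := Adm_dil hs hA hr
  obtain ⟨-, h2, h3, h4, -, -⟩ := hs U (Adm.fi hA) r hr
  obtain ⟨-, k2, k3, -, -⟩ := ht (dil r U) (Adm.fi hd) τ
  have hP : PP (tra τ (dil r U)) = r ^ 3 * PP U := by rw [k2, h2]
  have hE : EE (tra τ (dil r U)) = r ^ 4 * EE U := by rw [k3, h3]
  refine ⟨⟨Adm_tra ht hd τ, fun B hB => ?_⟩, hP, ?_⟩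
  · rw [hP, hE]
    have h1 := hU.2 B hB
    have h5 : 0 < r ^ 12 := pow_pos hr 12
    calc EE B ^ 3 * (r ^ 3 * PP U) ^ 4 = r ^ 12 * (EE B ^ 3 * PP U ^ 4) := by ring
      _ ≤ r ^ 12 * (EE U ^ 3 * PP B ^ 4) := mul_le_mul_of_nonneg_left h1 h5.le
      _ = (r ^ 4 * EE U) ^ 3 * PP B ^ 4 := by ring
  · rw [ar_tra ht hd, h4]

theorem JMax.le {A B : Set (ℝ × ℝ)} (hA : JMax A) (hB : Adm B) (hP : PP B = PP A) :
    EE B ≤ EE A := by
  have h1 := hA.2 B hB
  rw [hP] at h1
  have h2 : 0 < PP A ^ 4 := pow_pos hA.1.pos 4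
  have h3 : EE B ^ 3 ≤ EE A ^ 3 := le_of_mul_le_mul_right h1 h2
  exact le_of_not_gt fun h => absurd h3 (not_le.2 (Odd.strictMono_pow (by decide) h))

theorem JMax.of_eq {A B : Set (ℝ × ℝ)} (hA : JMax A) (hB : Adm B) (hP : PP B = PP A)
    (hE : EE B = EE A) : JMax B := by
  refine ⟨hB, fun C hC => ?_⟩
  rw [hP, hE]
  exact hA.2 C hC

theorem rescale_patch (U : Set (ℝ × ℝ)) {r : ℝ} (τ : ℝ) :
    rescale (patch U) r τ = patch (tra τ (dil r U)) := by
  funext x
  have h1 : ((((x.1 - τ) / r, x.2 / r) : ℝ × ℝ) ∈ U) = (x ∈ tra τ (dil r U)) := by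
    apply propext
    simp only [tra, dil, mem_ofPred_eq]
    rw [div_eq_inv_mul, div_eq_inv_mul]
  have h2 : ((((x.1 - τ) / r, x.2 / r) : ℝ × ℝ) ∈ mirror U) = (x ∈ mirror (tra τ (dil r U))) := by
    apply propext
    simp only [mirror, tra, dil, mem_ofPred_eq]
    rw [div_eq_inv_mul, div_eq_inv_mul, mul_neg]
  simp only [rescale, patch]
  rw [ind_congr h1, ind_congr h2]

theorem dil_dil (U : Set (ℝ × ℝ)) (r s : ℝ) : dil r (dil s U) = dil (r * s) U := by
  ext x
  simp only [dil, mem_ofPred_eq, mul_inv]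
  have h1 : s⁻¹ * (r⁻¹ * x.1) = r⁻¹ * s⁻¹ * x.1 := by ring
  have h2 : s⁻¹ * (r⁻¹ * x.2) = r⁻¹ * s⁻¹ * x.2 := by ring
  rw [h1, h2]

end T23

theorem t_final (ha : S_a) (hb : S_b) (htrl : S_trl) (hs : S_scale) (ht : S_trans) : S_final := by
  obtain ⟨w0, U0, hSol, hJ, hw0, huniq⟩ := ha
  have hAdm0 := hJ.1
  have hP0 : 0 < PP U0 := hAdm0.pos
  -- the area is positive
  have har0 : 0 < ar U0 := by
    have h1 : 0 ≤ ar U0 := ENNReal.toReal_nonneg
    rcases h1.eq_or_lt with h | h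
    · exfalso
      have h2 : volume U0 = 0 := by
        rcases (ENNReal.toReal_eq_zero_iff _).1 h.symm with h3 | h3
        · exact h3
        · exact absurd h3 hAdm0.fin
      have h3 : PP U0 = 0 := by
        unfold PP
        exact setIntegral_measure_zero _ h2
      linarith
    · exact h
  -- the scale at which the area is `1/2`
  set rs : ℝ := √(1 / (2 * ar U0)) with hrs
  have hrs_pos : 0 < rs := Real.sqrt_pos.2 (by positivity)
  have hrs2 : rs ^ 2 * ar U0 = 1 / 2 := by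
    rw [hrs, Real.sq_sqrt (by positivity)]
    field_simp
  set Us : Set (ℝ × ℝ) := tra 0 (dil rs U0) with hUs
  obtain ⟨hJs, hPs, hars⟩ := fam hs ht hJ hrs_pos 0
  rw [hrs2] at hars
  set μs : ℝ := 2 * (rs ^ 3 * PP U0) with hμs
  have hμs_pos : 0 < μs := by positivity
  refine ⟨μs, hμs_pos, μs, hμs_pos, patch Us, ?_, ?_, ?_⟩
  · refine ((mem_KM hμs_pos).2 ⟨hJs.1, ?_, hars.le⟩).2.2
    rw [hPs, hμs]; ring
  · intro μ hμ hμle
    -- members of the family
    have key : ∀ r τ : ℝ, 0 < r → r ^ 3 * μs = μ →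
        SMax (μ / 2) (tra τ (dil r Us)) ∧ JMax (tra τ (dil r Us)) ∧
          PP (tra τ (dil r Us)) = μ / 2 := by
      intro r τ hr hrμ
      obtain ⟨h1, h2, h3⟩ := fam hs ht hJs hr τ
      have hP : PP (tra τ (dil r Us)) = μ / 2 := by
        rw [h2, hPs, ← hrμ, hμs]; ring
      have hr1 : r ≤ 1 := by
        by_contra h
        push Not at h
        have h4 : 1 < r ^ 3 := one_lt_pow₀ h (by norm_num)
        nlinarith
      refine ⟨⟨h1.1, hP, ?_, fun B hB hPB _ => JMax.le h1 hB (by rw [hPB, hP])⟩, h1, hP⟩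
      rw [h3, hars]
      have : r ^ 2 ≤ 1 := pow_le_one₀ hr.le hr1
      linarith
    refine ⟨?_, ?_⟩
    · intro r τ hr hrμ
      rw [rescale_patch]
      exact ((htrl μ hμ _).2 (key r τ hr hrμ).1).2.2
    · intro ω hω
      obtain ⟨A, hmA, hA, hωA, -, -⟩ := hω.1
      rw [hωA] at hω
      have hS := (htrl μ hμ A).1 ⟨hmA, hA, hω⟩
      -- compare with a member of the family
      obtain ⟨r1, hr1, hr1μ⟩ : ∃ r : ℝ, 0 < r ∧ r ^ 3 * μs = μ := by
        refine ⟨(μ / μs) ^ ((1 : ℝ) / 3), by positivity, ?_⟩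
        rw [← Real.rpow_natCast, ← Real.rpow_mul (by positivity)]
        norm_num
        field_simp
      obtain ⟨k1, k2, k3⟩ := key r1 0 hr1 hr1μ
      have hE1 : EE (tra 0 (dil r1 Us)) ≤ EE A := hS.2.2.2 _ k1.1 k3 k1.2.2.1
      have hPA : PP A = PP (tra 0 (dil r1 Us)) := by rw [hS.2.1, k3]
      have hE2 : EE A ≤ EE (tra 0 (dil r1 Us)) := JMax.le k2 hS.1 hPA
      have hJA : JMax A := JMax.of_eq k2 hS.1 hPA (le_antisymm hE2 hE1)
      obtain ⟨r, τ, hr, hAe⟩ := huniq A hJA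
      obtain ⟨-, m2, -⟩ := fam hs ht hJ hr τ
      have hPAr : PP A = r ^ 3 * PP U0 := by
        rw [← m2]
        unfold PP
        exact setIntegral_congr_set hAe
      refine ⟨r / rs, τ, by positivity, ?_, ?_⟩
      · rw [hμs, div_pow]
        have h1 : μ = 2 * (r ^ 3 * PP U0) := by
          rw [← hPAr, hS.2.1]; ring
        rw [h1]
        have : rs ^ 3 ≠ 0 := by positivity
        field_simp
      · rw [hωA, rescale_patch]
        have h1 : dil (r / rs) Us = dil r U0 := by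
          have h2 : Us = dil rs U0 := by
            rw [hUs]
            ext x
            simp [tra]
          rw [h2, dil_dil, div_mul_cancel₀ _ hrs_pos.ne']
        rw [h1]
        exact patch_ae hAe
  · intro μ hμ A hmA hA hSM
    have hμ0 : 0 < μ := hμs_pos.trans hμ
    have hS := (htrl μ hμ0 A).1 ⟨hmA, hA, hSM⟩
    by_contra hcon
    push Not at hcon
    refine hb w0 U0 hSol hJ hw0 (μ / 2) A hS hcon ?_
    have h1 : ar A ^ 3 ≤ 1 / 8 := by
      have h2 : 0 ≤ ar A := ENNReal.toReal_nonneg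
      calc ar A ^ 3 ≤ (1 / 2) ^ 3 := pow_le_pow_left₀ h2 hS.2.2.1 3
        _ = 1 / 8 := by norm_num
    have h2 : rs ^ 3 * PP U0 < PP A := by
      rw [hS.2.1]
      rw [hμs] at hμ
      linarith
    have h3 : (rs ^ 3 * PP U0) ^ 2 < PP A ^ 2 :=
      pow_lt_pow_left₀ h2 (by positivity) (by norm_num)
    have h4 : ar U0 ^ 3 * (rs ^ 3 * PP U0) ^ 2 = 1 / 8 * PP U0 ^ 2 := by
      calc ar U0 ^ 3 * (rs ^ 3 * PP U0) ^ 2 = (rs ^ 2 * ar U0) ^ 3 * PP U0 ^ 2 := by ring
        _ = 1 / 8 * PP U0 ^ 2 := by rw [hrs2]; norm_num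
    calc ar A ^ 3 * PP U0 ^ 2 ≤ 1 / 8 * PP U0 ^ 2 :=
          mul_le_mul_of_nonneg_right h1 (by positivity)
      _ = ar U0 ^ 3 * (rs ^ 3 * PP U0) ^ 2 := h4.symm
      _ < ar U0 ^ 3 * PP A ^ 2 := mul_lt_mul_of_pos_left h3 (by positivity)

end SV
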