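import Pool.Agent.Helper779.SV.Final

/-!
# T24: the assembly of `S_a` and `S_b`
-/

open MeasureTheory Set Filter Topology
open scoped Real

namespace SV
namespace T24

lemma phi_congr {A B : Set (ℝ × ℝ)} (h : A =ᵐ[volume] B) : phi A = phi B := by
  funext x
  exact setIntegral_congr_set h

lemma PP_congr {A B : Set (ℝ × ℝ)} (h : A =ᵐ[volume] B) : PP A = PP B :=
  setIntegral_congr_set h

lemma EE_congr {A B : Set (ℝ × ℝ)} (h : A =ᵐ[volume] B) : EE A = EE B := by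
  unfold EE cross
  rw [phi_congr h, setIntegral_congr_set h]

lemma ar_congr {A B : Set (ℝ × ℝ)} (h : A =ᵐ[volume] B) : ar A = ar B := by
  unfold ar
  rw [measure_congr h]

lemma inv {A U : Set (ℝ × ℝ)} (hU : Fi U) (hsc : S_scale) (htr : S_trans) {r τ : ℝ} (hr : 0 < r)
    (h : A =ᵐ[volume] tra τ (dil r U)) :
    PP A = r ^ 3 * PP U ∧ EE A = r ^ 4 * EE U ∧ ar A = r ^ 2 * ar U := by
  have h1 := hsc U hU r hr
  have h2 := htr (dil r U) h1.1 τ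
  refine ⟨?_, ?_, ?_⟩
  · rw [PP_congr h, h2.2.1, h1.2.1]
  · rw [EE_congr h, h2.2.2.1, h1.2.2.1]
  · rw [ar_congr h, ar, h2.2.2.2.1]
    exact h1.2.2.2.1

lemma Sol_Adm {w : ℝ} {U : Set (ℝ × ℝ)} (hS : Sol w U) : Adm U := by
  refine ⟨hS.opn.measurableSet, hS.sub, hS.bdd.measure_lt_top.ne, ?_, ?_⟩
  · have hc : IsCompact (closure U) := hS.bdd.isCompact_closure
    have : IntegrableOn (fun y : ℝ × ℝ => y.2) (closure U) := continuous_snd.continuousOn.integrableOn_compact hc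
    exact this.mono_set subset_closure
  · rw [hS.mass]
    have := hS.wpos
    positivity

lemma Adm_Fi {A : Set (ℝ × ℝ)} (h : Adm A) : Fi A := ⟨h.meas, h.sub, h.int⟩

lemma EE_nonneg {A : Set (ℝ × ℝ)} (h : Fi A) (hadd : S_add) : 0 ≤ EE A := by
  unfold EE
  have := (hadd A A h h).2.2.1
  positivity

lemma ar_pos {A : Set (ℝ × ℝ)} (h : Adm A) : 0 < ar A := by
  unfold ar
  rw [ENNReal.toReal_pos_iff]
  refine ⟨?_, lt_top_iff_ne_top.2 h.fin⟩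
  rw [pos_iff_ne_zero]
  intro h0
  have : PP A = 0 := by
    unfold PP
    rw [Measure.restrict_eq_zero.2 h0]
    simp
  have := h.pos
  linarith

lemma Adm_dil {T : Set (ℝ × ℝ)} (hT : Adm T) (hsc : S_scale) {ρ : ℝ} (hρ : 0 < ρ) : Adm (dil ρ T) := by
  have h := hsc T (Adm_Fi hT) ρ hρ
  refine ⟨h.1.meas, h.1.sub, ?_, h.1.int, ?_⟩
  · intro h0
    exact hT.fin (h.2.2.2.2.1.1 h0)
  · rw [h.2.1]
    have := hT.pos
    positivity

/-- comparison with test sets of smaller relative area -/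
lemma key {p : ℝ} {A T : Set (ℝ × ℝ)} (hA : SMax p A) (hT : Adm T) (hsc : S_scale) (hadd : S_add)
    (hm : ar T ^ 3 * PP A ^ 2 ≤ ar A ^ 3 * PP T ^ 2) :
    EE T ^ 3 * PP A ^ 4 ≤ EE A ^ 3 * PP T ^ 4 := by
  obtain ⟨hAA, hp, har, hmax⟩ := hA
  have hTp := hT.pos
  have hAp := hAA.pos
  obtain ⟨ρ, hρ, hρ3⟩ : ∃ ρ : ℝ, 0 < ρ ∧ ρ ^ 3 = PP A / PP T := by
    refine ⟨(PP A / PP T) ^ ((1:ℝ) / 3), by positivity, ?_⟩
    rw [← Real.rpow_natCast, ← Real.rpow_mul (by positivity)]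
    norm_num
  have h := hsc T (Adm_Fi hT) ρ hρ
  have hP' : PP (dil ρ T) = p := by
    rw [h.2.1, hρ3, ← hp]
    field_simp
  have har' : ar (dil ρ T) ≤ ar A := by
    rw [h.2.2.2.1]
    have h1 : (ρ ^ 2 * ar T) ^ 3 ≤ ar A ^ 3 := by
      have : (ρ ^ 2 * ar T) ^ 3 = (ρ ^ 3) ^ 2 * ar T ^ 3 := by ring
      rw [this, hρ3, div_pow, div_mul_eq_mul_div, div_le_iff₀ (by positivity)]
      linarith
    exact le_of_pow_le_pow_left₀ (by norm_num) ENNReal.toReal_nonneg h1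
  have hE := hmax (dil ρ T) (Adm_dil hT hsc hρ) hP' (le_trans har' har)
  rw [h.2.2.1] at hE
  have hET := EE_nonneg (Adm_Fi hT) hadd
  have h2 : (ρ ^ 4 * EE T) ^ 3 ≤ EE A ^ 3 := pow_le_pow_left₀ (by positivity) hE 3
  have h3 : (ρ ^ 4 * EE T) ^ 3 = (ρ ^ 3) ^ 4 * EE T ^ 3 := by ring
  rw [h3, hρ3, div_pow, div_mul_eq_mul_div, div_le_iff₀ (by positivity)] at h2
  linarith

/-- levels -/
lemma level {w v : ℝ} {A T : Set (ℝ × ℝ)} (hA : Adm A) (hT : Adm T) (hw : 0 < w)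
    (hw2 : w ^ 2 = 64 / 27 * π * EE A ^ 3 / PP A ^ 4)
    (hv : v ^ 2 * PP T ^ 4 ≤ 64 / 27 * π * EE T ^ 3)
    (hcomp : EE T ^ 3 * PP A ^ 4 ≤ EE A ^ 3 * PP T ^ 4) : v ≤ w := by
  have hTp := hT.pos
  have hAp := hA.pos
  rw [eq_div_iff (by positivity)] at hw2
  have h1 : v ^ 2 * (PP T ^ 4 * PP A ^ 4) ≤ w ^ 2 * (PP T ^ 4 * PP A ^ 4) := by
    calc v ^ 2 * (PP T ^ 4 * PP A ^ 4) = (v ^ 2 * PP T ^ 4) * PP A ^ 4 := by ring
      _ ≤ (64 / 27 * π * EE T ^ 3) * PP A ^ 4 := by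
          apply mul_le_mul_of_nonneg_right hv (by positivity)
      _ = 64 / 27 * π * (EE T ^ 3 * PP A ^ 4) := by ring
      _ ≤ 64 / 27 * π * (EE A ^ 3 * PP T ^ 4) := by
          apply mul_le_mul_of_nonneg_left hcomp (by positivity)
      _ = (64 / 27 * π * EE A ^ 3) * PP T ^ 4 := by ring
      _ = (w ^ 2 * PP A ^ 4) * PP T ^ 4 := by rw [hw2]
      _ = _ := by ring
  have h2 : v ^ 2 ≤ w ^ 2 := le_of_mul_le_mul_right h1 (by positivity)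
  exact le_of_sq_le_sq h2 hw.le

end T24

open T24 in
/-- part (a) -/
theorem t_a (hex : S_exist) (hELJ : S_ELJ) (hbal : S_bal) (hsol : S_sol) (hU1 : S_U1)
    (hsc : S_scale) (htr : S_trans) {m w : ℝ} (hw : 2273 / 10000 ≤ w) (hT : S_T m w) : S_a := by
  obtain ⟨T, hTA, hTb, hTm, hTw⟩ := hT
  have gen : ∀ A, JMax A → ∃ w U τ r, Sol w U ∧ 0 < r ∧ A =ᵐ[volume] tra τ (dil r U) ∧ 2273 / 10000 ≤ w := by
    intro A hA
    obtain ⟨w', U, τ, r, hS, hr, hAU, hw2⟩ := hsol A hA.1 (hbal.1 A hA) (hELJ A hA)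
    refine ⟨w', U, τ, r, hS, hr, hAU, le_trans hw ?_⟩
    exact level hA.1 hTA hS.wpos hw2 hTw (hA.2 T hTA)
  obtain ⟨A0, hA0⟩ := hex
  obtain ⟨w0, U0, τ0, r0, hS0, hr0, hA0U, hw0⟩ := gen A0 hA0
  have hinv := inv (Adm_Fi (Sol_Adm hS0)) hsc htr hr0 hA0U
  refine ⟨w0, U0, hS0, ⟨Sol_Adm hS0, ?_⟩, hw0, ?_⟩
  · intro B hB
    have h1 := hA0.2 B hB
    rw [hinv.1, hinv.2.1] at h1
    have h2 : r0 ^ 12 * (EE B ^ 3 * PP U0 ^ 4) ≤ r0 ^ 12 * (EE U0 ^ 3 * PP B ^ 4) := by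
      calc r0 ^ 12 * (EE B ^ 3 * PP U0 ^ 4) = EE B ^ 3 * (r0 ^ 3 * PP U0) ^ 4 := by ring
        _ ≤ (r0 ^ 4 * EE U0) ^ 3 * PP B ^ 4 := h1
        _ = _ := by ring
    exact le_of_mul_le_mul_left h2 (by positivity)
  · intro A hA
    obtain ⟨w', U, τ, r, hS, hr, hAU, hw'⟩ := gen A hA
    obtain ⟨_, hUU⟩ := hU1 w0 U0 w' U hS0 hS (by linarith) (by linarith)
    exact ⟨r, τ, hr, by rw [hUU]; exact hAU⟩

open T24 in
/-- part (b); the levels `a0 ≤ .170`, `a4 ≥ .2245` are chosen by the user -/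
theorem t_b (hELS : S_ELS) (hbal : S_bal) (hsol : S_sol) (hU1 : S_U1) (hTp : S_Tprime) (hlift : S_lift)
    (hsc : S_scale) (htr : S_trans) (hadd : S_add) (hT0 : S_T0)
    {a0 a1 a2 a3 a4 m1 m2 m3 m4 : ℝ} (ha0 : a0 ≤ 170 / 1000) (ha4 : 2245 / 10000 ≤ a4)
    (hl1 : S_low a0 a1 m1) (hl2 : S_low a1 a2 m2) (hl3 : S_low a2 a3 m3) (hl4 : S_low a3 a4 m4)
    (hT1 : S_T m1 a1) (hT2 : S_T m2 a2) (hT3 : S_T m3 a3) (hT4 : S_T m4 a4) : S_b := by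
  intro w0 U0 hS0 hJ0 hw0 p A hA hsep hm
  obtain ⟨w1, U1, τ, r, hS1, hr, hAU, hw2⟩ := hsol A hA.1 (hbal.2 p A hA) (hELS p A hA hsep)
  obtain ⟨eP, eE, eA⟩ := inv (Adm_Fi (Sol_Adm hS1)) hsc htr hr hAU
  have hAp := hA.1.pos
  have hAar := ar_pos hA.1
  have hU1p : 0 < PP U1 := (Sol_Adm hS1).pos
  have hw1 := hS1.wpos
  -- energy of U1
  have hE1 : EE A = r ^ 4 * (3 / 4 * π * w1 ^ 2) := by
    have h1 : EE U1 ^ 3 = (3 / 4 * π * w1 ^ 2) ^ 3 := by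
      rw [eq_div_iff (by positivity), eP, eE, hS1.mass] at hw2
      have h2 : r ^ 12 * (64 / 27 * π * EE U1 ^ 3) = r ^ 12 * (64 / 27 * π * ((3 / 4 * π * w1 ^ 2) ^ 3)) := by
        calc r ^ 12 * (64 / 27 * π * EE U1 ^ 3) = 64 / 27 * π * (r ^ 4 * EE U1) ^ 3 := by ring
          _ = w1 ^ 2 * (r ^ 3 * (π * w1)) ^ 4 := hw2.symm
          _ = _ := by ring
      have h3 := mul_left_cancel₀ (pow_ne_zero 12 hr.ne') h2
      exact mul_left_cancel₀ (by positivity) h3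
    have h4 : EE U1 = 3 / 4 * π * w1 ^ 2 :=
      (pow_left_inj₀ (EE_nonneg (Adm_Fi (Sol_Adm hS1)) hadd) (by positivity) (by norm_num)).1 h1
    rw [eE, h4]
  have hEA : EE A ≤ 3 * Real.log 2 / (8 * π) * ar A ^ 2 := by
    have h1 := hTp w1 U1 hS1
    rw [hE1, eA]
    have h2 : r ^ 4 * (3 / 4 * π * w1 ^ 2) = 3 / (8 * π) * r ^ 4 * (2 * π ^ 2 * w1 ^ 2) := by
      field_simp
      ring
    have h3 : 3 * Real.log 2 / (8 * π) * (r ^ 2 * ar U1) ^ 2 = 3 / (8 * π) * r ^ 4 * (ar U1 ^ 2 * Real.log 2) := by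
      field_simp
    rw [h2, h3]
    exact mul_le_mul_of_nonneg_left h1 (by positivity)
  -- case w1 large
  by_cases hbig : 2245 / 10000 ≤ w1
  · obtain ⟨_, hUU⟩ := hU1 w0 U0 w1 U1 hS0 hS1 (by linarith) hbig
    rw [hUU, eP, eA] at hm
    have : (r ^ 2 * ar U1) ^ 3 * PP U1 ^ 2 = ar U1 ^ 3 * (r ^ 3 * PP U1) ^ 2 := by ring
    linarith
  push Not at hbig
  -- comparison with test sets
  have hcmp : ∀ {m v : ℝ}, S_T m v → v > w1 → ar U1 ^ 3 ≤ m ^ 3 * (π * w1) ^ 2 := by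
    intro m v hT hv
    obtain ⟨T, hTA, hTb, hTm, hTw⟩ := hT
    by_contra hcon
    push Not at hcon
    have hmA : m ^ 3 * PP A ^ 2 ≤ ar A ^ 3 := by
      rw [eP, eA, hS1.mass]
      calc m ^ 3 * (r ^ 3 * (π * w1)) ^ 2 = r ^ 6 * (m ^ 3 * (π * w1) ^ 2) := by ring
        _ ≤ r ^ 6 * (ar U1 ^ 3) := mul_le_mul_of_nonneg_left hcon.le (by positivity)
        _ = _ := by ring
    have hk := key hA hTA hsc hadd (by
      calc ar T ^ 3 * PP A ^ 2 ≤ (m ^ 3 * PP T ^ 2) * PP A ^ 2 := mul_le_mul_of_nonneg_right hTm (by positivity)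
        _ = (m ^ 3 * PP A ^ 2) * PP T ^ 2 := by ring
        _ ≤ ar A ^ 3 * PP T ^ 2 := mul_le_mul_of_nonneg_right hmA (by positivity))
    have := level hA.1 hTA hw1 hw2 hTw hk
    linarith
  -- lower bound .170
  have hlo : 170 / 1000 ≤ w1 := by
    obtain ⟨T, hTA, hTb, hTw, hTE⟩ := hT0
    have hTp' := hTA.pos
    have hTar := ar_pos hTA
    by_cases hmT : ar T ^ 3 * PP A ^ 2 ≤ ar A ^ 3 * PP T ^ 2
    · exact level hA.1 hTA hw1 hw2 hTw (key hA hTA hsc hadd hmT)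
    · exfalso
      push Not at hmT
      -- choose the lifting
      obtain ⟨q, hq, hq2⟩ : ∃ q : ℝ, 0 < q ∧ q ^ 2 = ar T ^ 3 * PP A ^ 2 / ar A ^ 3 :=
        ⟨√(ar T ^ 3 * PP A ^ 2 / ar A ^ 3), Real.sqrt_pos.2 (by positivity), Real.sq_sqrt (by positivity)⟩
      have hq2' : ar A ^ 3 * q ^ 2 = ar T ^ 3 * PP A ^ 2 := by
        rw [hq2]
        field_simp
      have hqP : PP T ≤ q := by
        have : PP T ^ 2 ≤ q ^ 2 := by
          rw [hq2, le_div_iff₀ (by positivity)]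
          linarith
        exact le_of_sq_le_sq this hq.le
      have ht : 0 ≤ (q - PP T) / ar T := div_nonneg (by linarith) hTar.le
      obtain ⟨hLA, hLar, hLP, hLE⟩ := hlift T hTA hTb _ ht
      set L := {x : ℝ × ℝ | (x.1, x.2 - (q - PP T) / ar T) ∈ T} with hL
      have hLP' : PP L = q := by
        rw [hLP]
        field_simp
        ring
      have hk := key hA hLA hsc hadd (by rw [hLar, hLP', hq2'])
      rw [hLP'] at hk
      set κ := 3 * Real.log 2 / (8 * π) with hκ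
      have hκ0 : 0 < κ := by
        have := Real.log_pos (show (1:ℝ) < 2 by norm_num)
        positivity
      have hEL : κ * ar T ^ 2 < EE L := lt_of_lt_of_le hTE hLE
      have h1 : (κ * ar T ^ 2) ^ 3 < EE L ^ 3 := pow_lt_pow_left₀ hEL (by positivity) (by norm_num)
      have hEA3 : EE A ^ 3 ≤ (κ * ar A ^ 2) ^ 3 :=
        pow_le_pow_left₀ (EE_nonneg (Adm_Fi hA.1) hadd) hEA 3
      have h2 : (κ * ar T ^ 2) ^ 3 * PP A ^ 4 < EE L ^ 3 * PP A ^ 4 :=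
        mul_lt_mul_of_pos_right h1 (by positivity)
      have h3 : EE A ^ 3 * q ^ 4 ≤ (κ * ar A ^ 2) ^ 3 * q ^ 4 :=
        mul_le_mul_of_nonneg_right hEA3 (by positivity)
      have h4 : (κ * ar A ^ 2) ^ 3 * q ^ 4 = (κ * ar T ^ 2) ^ 3 * PP A ^ 4 := by
        calc (κ * ar A ^ 2) ^ 3 * q ^ 4 = κ ^ 3 * (ar A ^ 3 * q ^ 2) ^ 2 := by ring
          _ = κ ^ 3 * (ar T ^ 3 * PP A ^ 2) ^ 2 := by rw [hq2']
          _ = _ := by ring
      linarith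
  -- the four intervals
  rcases lt_or_ge w1 a1 with h1 | h1
  · exact hl1 w0 U0 w1 U1 hS0 hS1 hw0 (by linarith) h1 (hcmp hT1 h1)
  rcases lt_or_ge w1 a2 with h2 | h2
  · exact hl2 w0 U0 w1 U1 hS0 hS1 hw0 h1 h2 (hcmp hT2 h2)
  rcases lt_or_ge w1 a3 with h3 | h3
  · exact hl3 w0 U0 w1 U1 hS0 hS1 hw0 h2 h3 (hcmp hT3 h3)
  have h4 : w1 < a4 := lt_of_lt_of_le hbig ha4
  exact hl4 w0 U0 w1 U1 hS0 hS1 hw0 h3 h4 (hcmp hT4 h4)

end SV
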