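import Pool.Agent.Helper779.SV.Asm2
import Pool.Agent.Helper779.SV.T06
import Pool.Agent.Helper779.SV.T07
import Pool.Agent.Helper779.SV.T08
import Pool.Agent.Helper779.SV.T09
import Pool.Agent.Helper779.SV.T10
import Pool.Agent.Helper779.SV.T11
import Pool.Agent.Helper779.SV.T12
import Pool.Agent.Helper779.SV.T23
import Pool.Agent.Helper779.SV.T24

/-!
# Assembly 3: the final theorem
-/

open MeasureTheory Set Filter Topology
open scoped Real

namespace SV

theorem a_bal : S_bal := t_bal t_add (t_pol t_int t_kk t_add)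
theorem a_steiner : S_steiner := t_steiner t_int t_kk t_add
theorem a_box : S_box := t_box t_compact a_PD (t_pol t_int t_kk t_add) t_add t_phibd t_cont
theorem a_unif : S_unif :=
  t_unif t_kk t_int t_phibd t_add a_steiner a_box (t_decay t_kk t_int t_phibd t_add)
theorem a_exist : S_exist := t_exist t_phibd t_add t_scale t_trans a_box a_unif
theorem a_ELJ : S_ELJ := t_ELJ t_int t_cont t_add a_PD
theorem a_ELS : S_ELS := t_ELS t_int t_phibd t_cont t_add t_scale a_PD
theorem a_sol : S_sol :=
  t_sol a_steiner t_cont t_tend (t_mp (t_cyl t_int)) t_scale t_trans t_phibd t_add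

theorem a_a : S_a := t_a a_exist a_ELJ a_bal a_sol a_U1 t_scale t_trans le_rfl a_T5

theorem a_b : S_b :=
  t_b a_ELS a_bal a_sol a_U1 (t_Tprime t_cont t_int) (t_lift t_int t_add) t_scale t_trans t_add a_T0 le_rfl le_rfl
    a_low1 a_low2 a_low3 a_low4 a_T1 a_T2 a_T3 a_T4

theorem a_final : S_final := t_final a_a a_b (t_trl (t_KE t_pair)) t_scale t_trans

end SV
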