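import Pool.Agent.Helper779.SV.Final

/-!
# Kernel-efficient checkers for the numerical certificates

All functions are on `Nat` and use the kernel-accelerated operations directly.
-/

open MeasureTheory Set Filter Topology
open scoped Real

namespace SV.K

/-- forced evaluation: `fc n f = f n` -/
def fc (n : Nat) (f : Nat → Nat) : Nat := Nat.rec (f 0) (fun m _ => f (Nat.succ m)) n
/-- forced evaluation: `fb n f = f n` -/
def fb (n : Nat) (f : Nat → Bool) : Bool := Nat.rec (f 0) (fun m _ => f (Nat.succ m)) n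

/-- `i`-th digit of width `W` bits -/
def dg (D W i : Nat) : Nat := Nat.mod (Nat.shiftRight D (Nat.mul W i)) (Nat.pow 2 W)

def prodN (f : Nat → Nat) (n : Nat) : Nat := Nat.rec 1 (fun m r => Nat.mul (f m) r) n
def sumN (f : Nat → Nat) (n : Nat) : Nat := Nat.rec 0 (fun m r => Nat.add (f m) r) n
def allN (f : Nat → Bool) (n : Nat) : Bool := Nat.rec true (fun m r => cond (f m) r false) n

/-- absolute difference -/
def ad (a b : Nat) : Nat := Nat.add (Nat.sub a b) (Nat.sub b a)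

/-- `|s-2m|^2 + y2` -/
def dd (s y2 m : Nat) : Nat := (fun t => Nat.add (Nat.mul t t) y2) (ad s (Nat.mul 2 m))

/-- cell bounds for `|Z|^2 = d ≥ 4` -/
def hiA (d : Nat) : Nat := Nat.add (Nat.mul d d) 4
def loA (d : Nat) : Nat := Nat.sub (Nat.mul d d) 4
/-- cell bounds times 100, all `d ≥ 1` -/
def hiB (d : Nat) : Nat := cond (Nat.ble 4 d) (Nat.mul 100 (hiA d)) (cond (Nat.ble d 1) 123 371)
def loB (d : Nat) : Nat := cond (Nat.ble 4 d) (Nat.mul 100 (loA d)) (cond (Nat.ble d 1) 117 362)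

/-- product of cell bounds; `n` cells, `s = cj + n - 1`, `y` = |Y| -/
def PhiA (s y n : Nat) : Nat := fc (Nat.mul y y) (fun y2 => prodN (fun m => hiA (dd s y2 m)) n)
def PloA (s y n : Nat) : Nat := fc (Nat.mul y y) (fun y2 => prodN (fun m => loA (dd s y2 m)) n)
/-- times `100^n` -/
def PhiB (s y n : Nat) : Nat :=
  cond (Nat.ble 3 y) (Nat.mul (Nat.pow 100 n) (PhiA s y n)) (fc (Nat.mul y y) (fun y2 => prodN (fun m => hiB (dd s y2 m)) n))
def PloB (s y n : Nat) : Nat :=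
  cond (Nat.ble 3 y) (Nat.mul (Nat.pow 100 n) (PloA s y n)) (fc (Nat.mul y y) (fun y2 => prodN (fun m => loB (dd s y2 m)) n))

/-- `ξ ≤ x / 2^32 → ξ^(2^K) ≤ 2^(lgU K x)` -/
def lgU (K : Nat) : Nat → Nat :=
  Nat.rec (fun x => Nat.sub (Nat.succ (Nat.log2 x)) 32)
    (fun k ih x => fc (Nat.succ (Nat.shiftRight (Nat.mul x x) 32)) (fun y =>
      cond (Nat.ble 8589934592 y) (Nat.add (Nat.pow 2 k) (ih (Nat.succ (Nat.shiftRight y 1)))) (ih y))) K

/-- `2^32 ≤ x`, `x / 2^32 ≤ ξ → 2^(lgL K x) ≤ ξ^(2^K)` -/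
def lgL (K : Nat) : Nat → Nat :=
  Nat.rec (fun _ => 0)
    (fun k ih x => fc (Nat.shiftRight (Nat.mul x x) 32) (fun y =>
      cond (Nat.ble 8589934592 y) (Nat.add (Nat.pow 2 k) (ih (Nat.shiftRight y 1))) (ih y))) K

/-- upper bound for `2^14 log₂ (num/den)`, `0 < den` -/
def LU (num den : Nat) : Nat :=
  fc (Nat.succ (Nat.div (Nat.mul num 4294967296) den)) (fun x0 => fc (Nat.sub (Nat.log2 x0) 32) (fun sh =>
    Nat.add (Nat.mul sh 16384) (lgU 14 (Nat.succ (Nat.shiftRight x0 sh)))))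

/-- lower bound for `2^14 log₂ (num/den)`, `0 < den ≤ num` -/
def LL (num den : Nat) : Nat :=
  fc (Nat.div (Nat.mul num 4294967296) den) (fun x0 => fc (Nat.sub (Nat.log2 x0) 32) (fun sh =>
    Nat.add (Nat.mul sh 16384) (lgL 14 (Nat.shiftRight x0 sh))))

/-- potential upper bound check: `j ≥ 1`: `(1/(4j)) Σ (log hi' - log lo) ≤ vu / F`;
`j = 0`: `Σ cup ≤ vu / F` -/
def pfU (F cj j i n vu : Nat) : Bool :=
  cond (Nat.ble 1 j)
    (Nat.ble (Nat.mul (Nat.mul F 6931471808)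
      (LU (Nat.mul (Nat.pow 100 n) (PhiA (Nat.sub (Nat.add cj n) 1) (Nat.add (Nat.mul 2 i) (Nat.succ (Nat.mul 2 j))) n))
        (PloB (Nat.sub (Nat.add cj n) 1) (ad (Nat.succ (Nat.mul 2 i)) (Nat.mul 2 j)) n)))
      (Nat.mul vu (Nat.mul (Nat.mul 4 j) 163840000000000)))
    (cond (Nat.ble n cj)
      (fb (Nat.succ (Nat.mul 2 i)) (fun Y => fb (Nat.mul Y Y) (fun y2 =>
        Nat.ble (sumN (fun m => fc (dd (Nat.sub (Nat.add cj n) 1) y2 m) (fun d =>
          cond (Nat.ble 5 d)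
            (Nat.add (Nat.succ (Nat.div (Nat.mul (Nat.mul 4 F) Y) d))
              (Nat.succ (Nat.div (Nat.mul 36 F) (Nat.mul 5 (loA d)))))
            (Nat.succ (Nat.div (Nat.mul 2264 F) 1000)))) n) vu)))
      false)

/-- potential lower bound check: `vl / F ≤ ...` -/
def pfL (F cj j i n vl : Nat) : Bool :=
  cond (Nat.ble 1 j)
    (fb (Nat.mul (Nat.pow 100 n) (PloA (Nat.sub (Nat.add cj n) 1) (Nat.add (Nat.mul 2 i) (Nat.succ (Nat.mul 2 j))) n)) (fun A =>
      fb (PhiB (Nat.sub (Nat.add cj n) 1) (ad (Nat.succ (Nat.mul 2 i)) (Nat.mul 2 j)) n) (fun B =>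
        cond (Nat.ble B A) (Nat.ble (Nat.mul vl (Nat.mul (Nat.mul 4 j) 163840000000000))
          (Nat.mul (Nat.mul F 6931471803) (LL A B))) false)))
    (cond (Nat.ble n cj)
      (fb (Nat.succ (Nat.mul 2 i)) (fun Y => fb (Nat.mul Y Y) (fun y2 =>
        Nat.ble vl (sumN (fun m => fc (dd (Nat.sub (Nat.add cj n) 1) y2 m) (fun d =>
          cond (Nat.ble 5 d)
            (Nat.sub (Nat.div (Nat.mul (Nat.mul 4 F) Y) d)
              (Nat.succ (Nat.div (Nat.mul 36 F) (Nat.mul 5 (loA d)))))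
            (Nat.div (Nat.mul 2263 F) 1000))) n))))
      false)

/-- half length of row `j` (`0` for the top vertex) -/
def cN (N C j : Nat) : Nat := cond (Nat.ble N j) 0 (dg C 16 j)

/-- all potentials of the vertex `j`: run lengths `ND` (16 bits), upper bounds `UD`, lower bounds
`LD` (64 bits) -/
def chkPF (RS N C j ND UD LD : Nat) : Bool :=
  fb (cN N C j) (fun cj => fb (Nat.mul 1000 (Nat.mul RS RS)) (fun F =>
    allN (fun i => fb (dg ND 16 i) (fun n =>
      cond (Nat.ble 1 n)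
        (cond (cond (Nat.ble j i) (Nat.beq n (dg C 16 i)) (Nat.ble n (dg C 16 i)))
          (cond (fb (dg UD 64 i) (fun vu => pfU F cj j i n vu))
            (cond (Nat.ble i j) true (fb (dg LD 64 i) (fun vl => pfL F cj j i n vl))) false) false) false)) N))

/-- lower bound for `F u² π κ_s(p_j, (u n, y))`, `y` in row `i < j` -/
def klF (F cj j n i : Nat) : Nat :=
  fc (Nat.mul 4 (Nat.add (Nat.mul j j) (Nat.mul (Nat.succ i) (Nat.succ i)))) (fun h =>
  fc (Nat.add (Nat.mul n n) (Nat.add (Nat.mul cj cj) h)) (fun C =>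
  fc (Nat.mul 2 (Nat.mul n cj)) (fun nc =>
  fc (Nat.add (Nat.div F (Nat.mul 2 (Nat.sub C nc))) (Nat.div F (Nat.mul 2 (Nat.add C nc)))) (fun a =>
  fc (Nat.add (Nat.div F C) (Nat.div (Nat.mul F (Nat.add (Nat.mul 3 (Nat.mul nc nc))
      (Nat.mul 64 (Nat.mul (Nat.mul j j) (Nat.mul i i))))) (Nat.mul 3 (Nat.mul C (Nat.mul C C))))) (fun b =>
  cond (Nat.ble a b) b a)))))

/-- upper bound for `F kk D z` -/
def kU (F D z : Nat) : Nat :=
  Nat.succ (Nat.div (Nat.mul F (Nat.add (Nat.mul 6 D) z)) (Nat.mul D (Nat.add (Nat.mul 6 D) (Nat.mul 4 z))))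

/-- beyond `n` the kernel is at most `λ + πη/y` -/
def cutok (F cj j n i lam e : Nat) : Bool :=
  fb (Nat.mul 2 (Nat.sub j (Nat.succ i))) (fun v => fb (Nat.mul v v) (fun v2 =>
  fb (Nat.add (Nat.mul (Nat.sub n cj) (Nat.sub n cj)) v2) (fun D1 =>
  fb (Nat.add (Nat.mul (Nat.add n cj) (Nat.add n cj)) v2) (fun D2 =>
  fb (Nat.mul 16 (Nat.mul i j)) (fun z =>
  cond (Nat.ble 1 D1) (Nat.ble (Nat.add (kU F D1 z) (kU F D2 z))
    (Nat.mul 2 (Nat.add lam (Nat.div e (Nat.mul 2 (Nat.succ i)))))) false)))))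

/-- `⌈e/(2i)⌉`, `0` for `i = 0` -/
def ce (e i : Nat) : Nat := Nat.div (Nat.sub (Nat.add e (Nat.mul 2 i)) 1) (Nat.mul 2 i)

/-- up to `b` the kernel is at least `λ + πη/y` -/
def safeok (F cj j b i lam e : Nat) : Bool :=
  cond (cond (Nat.ble 1 i) true (Nat.beq e 0)) (Nat.ble (Nat.add lam (ce e i)) (klF F cj j b i)) false

def OFF : Nat := 1208925819614629174706176

/-- admissibility of the cut `n` and the safe point `b`, row `i < j` -/
def flB (F cj ci j i n b lam e : Nat) : Bool :=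
  cond (Nat.ble cj b) (cond (Nat.ble b n) (cond (Nat.ble n ci)
    (cond (cond (Nat.beq n ci) true (cutok F cj j n i lam e))
      (cond (Nat.beq b cj) true (safeok F cj j b i lam e)) false) false) false) false

/-- bound for `(F/u) rowint + OFF`, row `i < j` -/
def rowB (F cj j i n b vu lam e : Nat) : Nat :=
  Nat.sub (Nat.add OFF (Nat.add vu (Nat.mul (Nat.sub n b)
      (Nat.add (Nat.mul (Nat.mul 4 (Nat.succ (Nat.mul 2 i)))
        (Nat.sub (Nat.add lam (ce e i)) (klF F cj j n i))) (cond (Nat.ble 1 i) 0 (Nat.mul 4 e))))))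
    (Nat.add (Nat.mul lam (Nat.mul (Nat.mul 4 n) (Nat.succ (Nat.mul 2 i)))) (Nat.mul (Nat.mul 4 e) n))

/-- impulse of row `i` in units `u³` -/
def Pr (c i : Nat) : Nat := Nat.mul (Nat.mul 4 c) (Nat.succ (Nat.mul 2 i))

/-- bound for `(F/u) rowint + OFF`, row `i ≥ j` -/
def rowA (F N C cj j i UD LD lam e : Nat) : Nat :=
  fc (dg C 16 i) (fun ci => fc (Pr ci i) (fun P =>
  fc (cond (Nat.ble N (Nat.succ i))
      (Nat.div F (Nat.add (Nat.add (Nat.mul cj cj) (Nat.mul 4 (Nat.mul j j)))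
        (Nat.add (Nat.mul ci ci) (Nat.mul 4 (Nat.mul N N)))))
      (Nat.div (dg LD 64 (Nat.succ i)) (Pr (dg C 16 (Nat.succ i)) (Nat.succ i)))) (fun ml =>
  fc (Nat.sub (Nat.add OFF (Nat.add (dg UD 64 i) (Nat.add (Nat.mul (Nat.sub (Nat.add lam (ce e i)) ml) P)
      (cond (Nat.ble 1 i) 0 (Nat.mul (Nat.mul 4 e) ci)))))
      (Nat.add (Nat.mul lam P) (Nat.mul (Nat.mul 4 e) ci))) (fun r1 =>
  cond (Nat.ble i j) r1
    (fc (Nat.add OFF (Nat.sub (Nat.succ (Nat.div (Nat.mul (dg UD 64 (Nat.sub i 1)) P) (Pr (dg C 16 (Nat.sub i 1)) (Nat.sub i 1))))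
      (Nat.mul (Nat.add lam (Nat.div e (Nat.mul 2 (Nat.succ i)))) P))) (fun r2 =>
    cond (Nat.ble r1 r2) r1 r2))))))

/-- `max(0, Σ rows)` in units `u/F` for the vertex `j` -/
def SS (RS N C j ND UD LD BD lam e : Nat) : Nat :=
  fc (cN N C j) (fun cj => fc (Nat.mul 1000 (Nat.mul RS RS)) (fun F =>
    Nat.sub (sumN (fun i => cond (Nat.ble j i) (rowA F N C cj j i UD LD lam e)
      (fc (dg ND 16 i) (fun n => fc (dg BD 16 i) (fun b => fc (dg UD 64 i) (fun vu =>
        rowB F cj j i n b vu lam e))))) N) (Nat.mul N OFF)))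

/-- all rows `i < j` admissible -/
def flags (RS N C j ND BD lam e : Nat) : Bool :=
  fb (cN N C j) (fun cj => fb (Nat.mul 1000 (Nat.mul RS RS)) (fun F =>
    allN (fun i => cond (Nat.ble j i) true
      (fb (dg ND 16 i) (fun n => fb (dg BD 16 i) (fun b => flB F cj (dg C 16 i) j i n b lam e)))) N))

/-- end point check at `θ = t/1000` -/
def endp (RS qn Bn S lam e t : Nat) : Bool :=
  Nat.ble (Nat.succ (Nat.add (Nat.mul S 1000000000000000)
    (Nat.add (Nat.mul (Nat.mul lam (Nat.mul t (Nat.mul t t))) (Nat.mul qn (Nat.mul RS (Nat.mul RS RS))))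
      (Nat.mul (Nat.mul e (Nat.mul RS RS)) (Nat.mul Bn (Nat.mul (Nat.mul t t) 1000))))))
    (Nat.mul t (Nat.mul (Nat.mul qn (Nat.mul RS (Nat.mul RS RS))) 1000000000))

/-- one piece `θ ∈ [t0,t1]/1000` -/
def piece (RS N C qn Bn j ND UD LD t0 t1 lam e BD : Nat) : Bool :=
  cond (flags RS N C j ND BD lam e) (fb (SS RS N C j ND UD LD BD lam e) (fun S =>
    cond (endp RS qn Bn S lam e t0) (endp RS qn Bn S lam e t1) false)) false

/-- the pieces `(t1, lam, e, BD)` -/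
def pieces (RS N C qn Bn j ND UD LD : Nat) : Nat → List (Nat × Nat × Nat × Nat) → Bool
  | t0, [] => Nat.ble 1000 t0
  | t0, (t1, lam, e, BD) :: l =>
      cond (piece RS N C qn Bn j ND UD LD t0 t1 lam e BD) (pieces RS N C qn Bn j ND UD LD t1 l) false

/-- all pieces have `e = 0` -/
def efree : List (Nat × Nat × Nat × Nat) → Bool
  | [] => true
  | (_, _, e, _) :: l => cond (Nat.beq e 0) (efree l) false

/-- starting value of `θ` -/
def startok (RS N C qn j t0 : Nat) : Bool :=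
  cond (Nat.ble N j) (Nat.ble (Nat.succ (Nat.mul t0 RS)) (Nat.mul 1000 N))
    (cond (Nat.beq j 0)
      (fb (Nat.mul 1000 (dg C 16 0)) (fun A => fb (Nat.mul t0 RS) (fun T =>
        fb (Nat.sub (Nat.mul A A) (Nat.mul 4 (Nat.mul T T))) (fun X =>
          Nat.ble (Nat.succ (Nat.mul (Nat.mul 4934850 T) (Nat.mul A (Nat.mul A A)))) (Nat.mul qn (Nat.mul X X))))))
      (Nat.ble (Nat.mul (Nat.mul t0 (Nat.mul t0 t0)) (Nat.mul qn (Nat.mul RS (Nat.mul RS RS))))
        (Nat.mul 4000000000000000 (Nat.mul (dg C 16 j) (Nat.mul j j)))))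

/-- the vertex `j` -/
def vert (RS N C qn Bn j t0 : Nat) (l : List (Nat × Nat × Nat × Nat)) (ND UD LD : Nat) : Bool :=
  cond (startok RS N C qn j t0) (pieces RS N C qn Bn j ND UD LD t0 l) false

/-- shape checks: antitone, positive, geometric conditions of the row lemma, mass condition -/
def shape (RS N C qn : Nat) : Bool :=
  cond (Nat.ble (Nat.succ C) (Nat.pow 2 (Nat.mul 16 N)))
  (cond (allN (fun i => fb (dg C 16 i) (fun ci =>
    cond (Nat.ble 1 ci) (cond (Nat.ble (dg C 16 (Nat.succ i)) ci)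
      (cond (Nat.ble (Nat.mul 4000000 (Nat.mul ci (Nat.mul i i))) (Nat.mul qn (Nat.mul RS (Nat.mul RS RS))))
       (cond (Nat.ble (Nat.mul 64 (Nat.sub N i)) (Nat.mul 20 ci)) true
        (cond (cond (Nat.ble (Nat.mul 6 (Nat.sub N i)) (Nat.mul 2 ci)) (Nat.ble (Nat.mul 2 (Nat.add N i)) (Nat.mul 2 ci)) false) true
          (cond (cond (Nat.beq i 0) (Nat.ble (Nat.mul 2 N) ci) false) true
            (cond (Nat.ble 1 i) (Nat.ble (Nat.mul 34 (Nat.add N i)) (Nat.mul 20 ci)) false)))) false) false) false)) N) true false) false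

end SV.K
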