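import Pool.Agent.Helper779.SV.DS2
import Pool.Agent.Helper779.SV.Chk2

/-! Fan of the staircase S2 and the cells excluding lower solutions. -/

set_option maxRecDepth 100000

namespace SV.K.S2

def XD : Nat := 359549599388028459575830249973162604207383402881272178703180503504857834110190654186809577820381175399512023804423192341548283606469000099328446407738282597683198061356587559484505158940618500099341091221964404885021001646789310719227251963531468526104444455169589800764480731281534668737032542833726181867596
def YD : Nat := 659766324038654680985370869484488686612649071245584780415222181729842071417548190768794621541238511556054610007718270135921456823941441072917384263497171916429910749021249929401881578020619690497057669942557090836235796008948684037289425868469432404047172870478253312939181119854201422614198251609481418834293424128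
def TD : Nat := 13635810279154675262395315741277279651184994661957632
def LD : Nat := 1266400982211027345379879635432053066779856242
theorem fan_ok : fan 28 C 65 XD YD = true := by decide +kernel
theorem cells_ok : lcells 53 170 72946 25636 714000 618800 666100 65 XD YD TD LD 5 = true := by decide +kernel

end SV.K.S2
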