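import Pool.Agent.Helper779.SV.Chk

/-! Confinement certificate N80: RS = 170, N = 80, q = 705200/10^6, B = 0/10^6. -/

namespace SV.K.N80
def C : Nat := 2858793588445756040780817106986235449330566195858751374348139681735384015682309574840008334836569982389666893242544614566688228000413358126980879186007134058517949293599779542033235547700740216937271143535907698733249018034159925459242720259025227127807802561566517027823696267644113629426910000340503591380218328468563956875121434440252288504275082169426025375627124744653135282446
theorem shape_ok : shape 170 80 C 705200 = true := by decide +kernel
end SV.K.N80
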