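import Pool.Agent.Helper779.SV.Chk

/-! Confinement certificate S1: RS = 75, N = 40, q = 534000/10^6, B = 1092620/10^6. -/

namespace SV.K.S1
def C : Nat := 1461993443146570621982683349608175244574967457338164817246683395884470305801968277089437064923807722471655134020978654071089697338948423942151479090420991647923097570750820565971701172732004
theorem shape_ok : shape 75 40 C 534000 = true := by decide +kernel
end SV.K.S1
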