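import Pool.Agent.Helper779.SV.Chk

/-! Confinement certificate S2: RS = 53, N = 28, q = 618800/10^6, B = 1365185/10^6. -/

namespace SV.K.S2
def C : Nat := 44365761316394652251599258031661164449680696586585531572879975804557490520816877262911628194051803078324099980131097883995695415372
theorem shape_ok : shape 53 28 C 618800 = true := by decide +kernel
end SV.K.S2
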