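import Pool.Agent.Helper779.SV.Chk

/-! Confinement certificate S3: RS = 54, N = 28, q = 666000/10^6, B = 1563400/10^6. -/

namespace SV.K.S3
def C : Nat := 44365422853156381766830922136832072266394751625978434438842791148391681585127459505588039152876952933139139288757189665416197111888
theorem shape_ok : shape 54 28 C 666000 = true := by decide +kernel
end SV.K.S3
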