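import Pool.Agent.Helper779.SV.Chk

/-! Confinement certificate S4: RS = 55, N = 28, q = 688600/10^6, B = 1754529/10^6. -/

namespace SV.K.S4
def C : Nat := 44365422855738671047525272370426207445180777065842874855251700512258694971358479668195181300988734789502718114186026749346236923990
theorem shape_ok : shape 55 28 C 688600 = true := by decide +kernel
end SV.K.S4
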