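import Mathlib

/-!
# Touching dipole patches (MP_22dedb_an): basic definitions

Points are `x = (x.1, x.2) : ℝ × ℝ`, `UH` is the upper half plane.
`phi A x` is (stream function of the patch `A`)/(x.2), extended to the axis.
-/

open MeasureTheory Set
open scoped Real

namespace SV

/-- upper half plane -/
def UH : Set (ℝ × ℝ) := {x | 0 < x.2}

/-- squared distance -/
def dsq (x y : ℝ × ℝ) : ℝ := (x.1 - y.1) ^ 2 + (x.2 - y.2) ^ 2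

/-- `kk D z = ∫_0^1 ds/(D+s z)` for `D > 0`, `z ≥ 0` -/
noncomputable def kk (D z : ℝ) : ℝ := if z = 0 then 1 / D else Real.log (1 + z / D) / z

/-- `κ(x,y) = (1/π) ∫_0^1 ds/(|x-y|^2+4 s x₂ y₂)` -/
noncomputable def kap (x y : ℝ × ℝ) : ℝ := (1 / π) * kk (dsq x y) (4 * x.2 * y.2)

/-- `κ` symmetrised in the first coordinate -/
noncomputable def kaps (x y : ℝ × ℝ) : ℝ := (kap x y + kap x (-y.1, y.2)) / 2

/-- `φ_A(x) = ∫_A κ(x,y) y₂ dy` -/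
noncomputable def phi (A : Set (ℝ × ℝ)) (x : ℝ × ℝ) : ℝ := ∫ y in A, kap x y * y.2

/-- impulse of `A` (half of the impulse of `1_A - 1_{A_-}`) -/
noncomputable def PP (A : Set (ℝ × ℝ)) : ℝ := ∫ y in A, y.2

/-- area -/
noncomputable def ar (A : Set (ℝ × ℝ)) : ℝ := (volume A).toReal

/-- `∫_B φ_A dν = ∬_{A×B} G` -/
noncomputable def cross (A B : Set (ℝ × ℝ)) : ℝ := ∫ x in B, phi A x * x.2

/-- energy `½ ∬_{A×A} G` -/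
noncomputable def EE (A : Set (ℝ × ℝ)) : ℝ := (1 / 2) * cross A A

/-- sets of finite impulse -/
structure Fi (A : Set (ℝ × ℝ)) : Prop where
  meas : MeasurableSet A
  sub : A ⊆ UH
  int : IntegrableOn (fun y : ℝ × ℝ => y.2) A

/-- admissible sets -/
structure Adm (A : Set (ℝ × ℝ)) : Prop where
  meas : MeasurableSet A
  sub : A ⊆ UH
  fin : volume A ≠ ⊤
  int : IntegrableOn (fun y : ℝ × ℝ => y.2) A
  pos : 0 < PP A

/-- dilation `r A` -/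
def dil (r : ℝ) (A : Set (ℝ × ℝ)) : Set (ℝ × ℝ) := {x | (r⁻¹ * x.1, r⁻¹ * x.2) ∈ A}

/-- translation of `A` by `(τ,0)` -/
def tra (τ : ℝ) (A : Set (ℝ × ℝ)) : Set (ℝ × ℝ) := {x | (x.1 - τ, x.2) ∈ A}

/-- reflection in the line `x.1 = c` -/
def refl (c : ℝ) (x : ℝ × ℝ) : ℝ × ℝ := (2 * c - x.1, x.2)

/-- points left of `c` in `A` whose mirror image is not in `A` -/
def Dp (c : ℝ) (A : Set (ℝ × ℝ)) : Set (ℝ × ℝ) := {x | x.1 < c ∧ x ∈ A ∧ refl c x ∉ A}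

/-- points left of `c` not in `A` whose mirror image is in `A` -/
def Dm (c : ℝ) (A : Set (ℝ × ℝ)) : Set (ℝ × ℝ) := {x | x.1 < c ∧ x ∉ A ∧ refl c x ∈ A}

/-- polarisation of `A` towards the left of `c` -/
def pol (c : ℝ) (A : Set (ℝ × ℝ)) : Set (ℝ × ℝ) :=
  {x | (x.1 ≤ c ∧ (x ∈ A ∨ refl c x ∈ A)) ∨ (c < x.1 ∧ x ∈ A ∧ refl c x ∈ A)}

/-- polarisation of `A` towards the right of `c` -/
def polr (c : ℝ) (A : Set (ℝ × ℝ)) : Set (ℝ × ℝ) :=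
  {x | (c ≤ x.1 ∧ (x ∈ A ∨ refl c x ∈ A)) ∨ (x.1 < c ∧ x ∈ A ∧ refl c x ∈ A)}

/-- `|D₊(c)||D₋(c)| = 0` for every `c` -/
def Bal (A : Set (ℝ × ℝ)) : Prop := ∀ c : ℝ, volume (Dp c A) = 0 ∨ volume (Dm c A) = 0

/-- a.e. Steiner symmetric about `x.1 = τ` -/
def StA (τ : ℝ) (A : Set (ℝ × ℝ)) : Prop :=
  ∀ c : ℝ, (τ ≤ c → volume (Dm c A) = 0) ∧ (c ≤ τ → volume (Dp c A) = 0)

/-- maximiser of the scale invariant functional `E/P^{4/3}` -/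
def JMax (A : Set (ℝ × ℝ)) : Prop :=
  Adm A ∧ ∀ B, Adm B → EE B ^ 3 * PP A ^ 4 ≤ EE A ^ 3 * PP B ^ 4

/-- maximiser of `E` for given impulse `p` and area at most `1/2` -/
def SMax (p : ℝ) (A : Set (ℝ × ℝ)) : Prop :=
  Adm A ∧ PP A = p ∧ ar A ≤ 1 / 2 ∧ ∀ B, Adm B → PP B = p → ar B ≤ 1 / 2 → EE B ≤ EE A

/-- first order conditions at level `W` -/
def ELc (W : ℝ) (A : Set (ℝ × ℝ)) : Prop :=
  (∀ᵐ x : ℝ × ℝ, x ∈ A → W ≤ phi A x) ∧ (∀ᵐ x : ℝ × ℝ, x ∈ UH → x ∉ A → phi A x ≤ W)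

/-- lower sets, symmetric in the first coordinate -/
def Low (U : Set (ℝ × ℝ)) : Prop :=
  ∀ x ∈ U, ∀ y : ℝ × ℝ, |y.1| ≤ |x.1| → 0 < y.2 → y.2 ≤ x.2 → y ∈ U

/-- normalised touching solutions: level `w`, impulse `π w` -/
structure Sol (w : ℝ) (U : Set (ℝ × ℝ)) : Prop where
  wpos : 0 < w
  opn : IsOpen U
  sub : U ⊆ UH
  bdd : Bornology.IsBounded U
  ne : U.Nonempty
  low : Low U
  lev : ∀ x ∈ UH, (x ∈ U ↔ w < phi U x)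
  mass : PP U = π * w
  mono : ∀ h : ℝ, 0 ≤ h → ∀ a b : ℝ, |a| < |b| → phi U (b, h) < phi U (a, h)

/-- lower bound for `π κ_s` -/
noncomputable def J2 (q y : ℝ × ℝ) : ℝ :=
  1 / (q.1 ^ 2 + q.2 ^ 2 + y.1 ^ 2 + y.2 ^ 2) +
    (4 * q.1 ^ 2 * y.1 ^ 2 + 4 / 3 * (q.2 ^ 2 * y.2 ^ 2)) /
      (q.1 ^ 2 + q.2 ^ 2 + y.1 ^ 2 + y.2 ^ 2) ^ 3

/-- open box -/
def box (L : ℝ) : Set (ℝ × ℝ) := {x | |x.1| < L ∧ 0 < x.2 ∧ x.2 < L}

end SV
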