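import Pool.Agent.Helper779.SV.Defs

/-!
# Statements of the lemmas of the project SV (MP_22dedb_an)

Each lemma is a `def S_... : Prop`; the task is to prove `theorem t_... : S_...`, where earlier
statements may be taken as hypotheses as indicated.
-/

open MeasureTheory Set Filter Topology
open scoped Real

namespace SV

/-! ## A. Kernel -/

/-- A1. elementary facts about `kk` -/
def S_kk : Prop := ∀ D z : ℝ, 0 < D → 0 ≤ z →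
  (kk D z = ∫ s in (0:ℝ)..1, 1 / (D + s * z)) ∧ 0 < kk D z ∧ kk D z ≤ 1 / D ∧ 1 / (D + z) ≤ kk D z ∧
  1 / (D + z / 2) ≤ kk D z ∧ kk D z ≤ (6 * D + z) / (D * (6 * D + 4 * z)) ∧
  ∀ D' z' : ℝ, D ≤ D' → z ≤ z' → kk D' z' ≤ kk D z ∧ (D < D' → kk D' z' < kk D z)

/-- A2. near field bound -/
def S_near : Prop := ∀ x y : ℝ × ℝ, 0 ≤ x.2 → 0 < y.2 → x ≠ y →
  kap x y * y.2 ≤ 1 / (π * √(dsq x y))

/-- A3. integrability of the kernel over sets of finite impulse -/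
def S_int : Prop := ∀ A, Fi A → ∀ x : ℝ × ℝ, 0 ≤ x.2 → IntegrableOn (fun y => kap x y * y.2) A

/-- A4. bounds for `phi` -/
def S_phibd : Prop := ∀ A, Fi A → ∀ x : ℝ × ℝ, 0 ≤ x.2 →
  0 ≤ phi A x ∧ (∀ r : ℝ, 0 < r → phi A x ≤ 2 * r + PP A / (π * r ^ 2)) ∧
  ∀ r R : ℝ, 0 < r → 0 < R → volume A ≠ ⊤ →
    phi A x ≤ 2 * r + ar (A ∩ {y | dsq x y < R ^ 2}) / (π * r) + PP A / (π * R ^ 2)

/-- A5. continuity of `phi` up to the axis -/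
def S_cont : Prop := ∀ A, Fi A → ContinuousOn (phi A) {x : ℝ × ℝ | 0 ≤ x.2}

/-- A6. decay of `phi` for a fixed set -/
def S_tend : Prop := ∀ A, Fi A → volume A ≠ ⊤ → ∀ ε : ℝ, 0 < ε →
  ∃ ρ : ℝ, 0 < ρ ∧ ∀ x : ℝ × ℝ, 0 ≤ x.2 → ρ ^ 2 ≤ x.1 ^ 2 + x.2 ^ 2 → phi A x < ε

/-- A7. scaling -/
def S_scale : Prop := ∀ A, Fi A → ∀ r : ℝ, 0 < r →
  Fi (dil r A) ∧ PP (dil r A) = r ^ 3 * PP A ∧ EE (dil r A) = r ^ 4 * EE A ∧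
  ar (dil r A) = r ^ 2 * ar A ∧ (volume (dil r A) = ⊤ ↔ volume A = ⊤) ∧
  ∀ x : ℝ × ℝ, phi (dil r A) x = r * phi A (r⁻¹ * x.1, r⁻¹ * x.2)

/-- A8. translation -/
def S_trans : Prop := ∀ A, Fi A → ∀ τ : ℝ,
  Fi (tra τ A) ∧ PP (tra τ A) = PP A ∧ EE (tra τ A) = EE A ∧
  volume (tra τ A) = volume A ∧ ∀ x : ℝ × ℝ, phi (tra τ A) x = phi A (x.1 - τ, x.2)

/-- A9. additivity and symmetry -/
def S_add : Prop := ∀ A B, Fi A → Fi B →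
  cross A B = cross B A ∧ IntegrableOn (fun x => phi A x * x.2) B ∧ 0 ≤ cross A B ∧
  (Disjoint A B → Fi (A ∪ B) ∧ PP (A ∪ B) = PP A + PP B ∧
    (∀ x : ℝ × ℝ, 0 ≤ x.2 → phi (A ∪ B) x = phi A x + phi B x) ∧
    EE (A ∪ B) = EE A + EE B + cross A B)

/-- A10. monotonicity -/
def S_mono : Prop := ∀ A B, Fi B → MeasurableSet A → A ⊆ B →
  Fi A ∧ PP A ≤ PP B ∧ (∀ x : ℝ × ℝ, 0 ≤ x.2 → phi A x ≤ phi B x) ∧
  (∀ x : ℝ × ℝ, 0 ≤ x.2 → phi B x - phi A x = ∫ y in B \ A, kap x y * y.2) ∧ EE A ≤ EE B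

/-! ## B. Positive definiteness and energy identity -/

/-- complex Biot-Savart kernel of the pair `x`, `x̄` -/
noncomputable def KK (z x : ℝ × ℝ) : ℂ :=
  ((x.2 / π : ℝ) : ℂ) / ((((z.1 - x.1 : ℝ) : ℂ) - ((z.2 + x.2 : ℝ) : ℂ) * Complex.I) *
    (((z.1 - x.1 : ℝ) : ℂ) - ((z.2 - x.2 : ℝ) : ℂ) * Complex.I)) 

/-- B1. pair identity -/
def S_pair : Prop := ∀ x y : ℝ × ℝ, 0 < x.2 → 0 < y.2 → x ≠ y →
  Integrable (fun z => (KK z x * (starRingEnd ℂ) (KK z y)).re) ∧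
  ∫ z, (KK z x * (starRingEnd ℂ) (KK z y)).re = 2 * (kap x y * x.2 * y.2)

/-- B2. square integrability of the velocity field, absolute version -/
def S_L2 : Prop := ∀ A, Fi A → volume A ≠ ⊤ →
  (∀ᵐ z : ℝ × ℝ, IntegrableOn (fun x => KK z x) A) ∧
  Integrable (fun z : ℝ × ℝ => (∫ x in A, ‖KK z x‖) ^ 2)

/-- B3. cross energy through the velocity fields -/
def S_cross : Prop := ∀ A B, Fi A → Fi B → volume A ≠ ⊤ → volume B ≠ ⊤ →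
  Integrable (fun z : ℝ × ℝ => ((∫ x in A, KK z x) * (starRingEnd ℂ) (∫ x in B, KK z x)).re) ∧
  ∫ z : ℝ × ℝ, ((∫ x in A, KK z x) * (starRingEnd ℂ) (∫ x in B, KK z x)).re = 2 * cross A B

/-- B4. positive definiteness for sets -/
def S_PD : Prop := ∀ A B, Fi A → Fi B → volume A ≠ ⊤ → volume B ≠ ⊤ →
  cross A B ≤ EE A + EE B

/-- B5. positive definiteness for bounded compactly supported densities -/
def S_PDf : Prop := ∀ f : ℝ × ℝ → ℝ, Measurable f → (∃ M : ℝ, ∀ x, |f x| ≤ M) →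
  (∃ ρ : ℝ, ∀ x, f x ≠ 0 → 0 < x.2 ∧ |x.1| ≤ ρ ∧ x.2 ≤ ρ) →
  0 ≤ ∫ x : ℝ × ℝ, ∫ y : ℝ × ℝ, f x * f y * (kap x y * x.2 * y.2)

/-! ## C. First order conditions -/

/-- C1. small subsets of prescribed impulse / area -/
def S_choose : Prop := ∀ D : Set (ℝ × ℝ), MeasurableSet D → D ⊆ UH → volume D ≠ 0 →
  (∃ p₀ : ℝ, 0 < p₀ ∧ ∀ p : ℝ, 0 < p → p ≤ p₀ →
    ∃ D' ⊆ D, MeasurableSet D' ∧ Bornology.IsBounded D' ∧ PP D' = p) ∧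
  (∃ a₀ : ℝ, 0 < a₀ ∧ ∀ a : ℝ, 0 < a → a ≤ a₀ →
    ∃ D' ⊆ D, MeasurableSet D' ∧ Bornology.IsBounded D' ∧ ar D' = a)

/-- C2. E-L for J-maximisers -/
def S_ELJ : Prop := ∀ A, JMax A → ELc (4 * EE A / (3 * PP A)) A

/-- C3. E-L for non separated elements of `S_μ` -/
def S_ELS : Prop := ∀ p A, SMax p A → (∀ δ : ℝ, 0 < δ → volume (A ∩ {x | x.2 < δ}) ≠ 0) →
  ELc (4 * EE A / (3 * PP A)) A

/-! ## D. Reflections -/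

/-- D1. polarisation -/
def S_pol : Prop := ∀ A, Adm A → ∀ c : ℝ,
  (Adm (pol c A) ∧ PP (pol c A) = PP A ∧ volume (pol c A) = volume A ∧ EE A ≤ EE (pol c A) ∧
    (volume (Dp c A) ≠ 0 → volume (Dm c A) ≠ 0 → EE A < EE (pol c A))) ∧
  (Adm (polr c A) ∧ PP (polr c A) = PP A ∧ volume (polr c A) = volume A ∧ EE A ≤ EE (polr c A) ∧
    (volume (Dp c A) ≠ 0 → volume (Dm c A) ≠ 0 → EE A < EE (polr c A)))

/-- D2. maximisers are balanced -/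
def S_bal : Prop := (∀ A, JMax A → Bal A) ∧ (∀ p A, SMax p A → Bal A)

/-- D3. balanced sets are Steiner symmetric about some line and `phi` is strictly monotone -/
def S_steiner : Prop := ∀ A, Adm A → Bal A → ∃ τ : ℝ, StA τ A ∧
  (∀ h : ℝ, 0 ≤ h → ∀ a : ℝ, phi A (τ + a, h) = phi A (τ - a, h)) ∧
  (∀ h : ℝ, 0 ≤ h → ∀ a b : ℝ, |a - τ| < |b - τ| → phi A (b, h) < phi A (a, h))

/-! ## E. Existence of a J-maximiser -/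

/-- E1. compactness of potentials on a box -/
def S_compact : Prop := ∀ L : ℝ, 0 < L → ∀ A : ℕ → Set (ℝ × ℝ),
  (∀ n, MeasurableSet (A n) ∧ A n ⊆ box L) →
  ∃ σ : ℕ → ℕ, StrictMono σ ∧ ∃ f : ℝ × ℝ → ℝ, Continuous f ∧
    TendstoUniformlyOn (fun n => phi (A (σ n))) f atTop (box L)

/-- E2. bathtub: existence of an optimal set -/
def S_bath : Prop := ∀ L : ℝ, 0 < L → ∀ f : ℝ × ℝ → ℝ, Continuous f → ∀ p : ℝ, 0 < p →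
  p ≤ PP (box L) → ∃ A ⊆ box L, MeasurableSet A ∧ PP A = p ∧
    ∀ B ⊆ box L, MeasurableSet B → PP B = p → ∫ x in B, f x * x.2 ≤ ∫ x in A, f x * x.2

/-- E3. bathtub: structure of optimal sets -/
def S_bathstr : Prop := ∀ L : ℝ, 0 < L → ∀ f : ℝ × ℝ → ℝ, ContinuousOn f (box L) →
  (∃ M : ℝ, ∀ x ∈ box L, |f x| ≤ M) → ∀ A ⊆ box L, MeasurableSet A → 0 < PP A →
  (∀ B ⊆ box L, MeasurableSet B → PP B = PP A → ∫ x in B, f x * x.2 ≤ ∫ x in A, f x * x.2) →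
  ∃ W : ℝ, (∀ᵐ x : ℝ × ℝ, x ∈ A → W ≤ f x) ∧ (∀ᵐ x : ℝ × ℝ, x ∈ box L → x ∉ A → f x ≤ W)

/-- maximiser in a box -/
def BMax (L : ℝ) (A : Set (ℝ × ℝ)) : Prop :=
  A ⊆ box L ∧ Adm A ∧ PP A = 1 ∧ ∀ B ⊆ box L, Adm B → PP B = 1 → EE B ≤ EE A

/-- E4. maximisers in boxes exist and are balanced with E-L -/
def S_box : Prop := ∀ L : ℝ, 2 ≤ L → (∃ A, BMax L A) ∧ ∀ A, BMax L A → Bal A ∧
  ∃ W : ℝ, (∀ᵐ x : ℝ × ℝ, x ∈ A → W ≤ phi A x) ∧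
    (∀ᵐ x : ℝ × ℝ, x ∈ box L → x ∉ A → phi A x ≤ W)

/-- E5. uniform decay for Steiner symmetric sets of impulse 1 -/
def S_decay : Prop := ∀ ε : ℝ, 0 < ε → ∃ ρ : ℝ, 0 < ρ ∧ ∀ A τ, Adm A → PP A = 1 → StA τ A →
  ∀ x : ℝ × ℝ, 0 ≤ x.2 → ρ ^ 2 ≤ (x.1 - τ) ^ 2 + x.2 ^ 2 → phi A x < ε

/-- E6. maximisers in boxes are uniformly bounded -/
def S_unif : Prop := ∃ ρ : ℝ, 0 < ρ ∧ ∀ L : ℝ, 2 ≤ L → ∀ A, BMax L A →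
  ∃ τ : ℝ, volume (A \ {x : ℝ × ℝ | |x.1 - τ| < ρ ∧ x.2 < ρ}) = 0

/-- E7. existence -/
def S_exist : Prop := ∃ A, JMax A

/-! ## F. Moving planes -/

/-- F1. cylindrical formula -/
def S_cyl : Prop := ∀ U : Set (ℝ × ℝ), MeasurableSet U → U ⊆ UH → Bornology.IsBounded U →
  ∀ x₁ s : ℝ,
  Integrable (fun v : ℝ × ℝ × ℝ => if 0 < v.2.2 then
      (U.indicator (fun _ => (1:ℝ)) (v.1, √(v.2.1 ^ 2 + v.2.2 ^ 2))) / √(v.2.1 ^ 2 + v.2.2 ^ 2) * v.2.2 /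
        ((x₁ - v.1) ^ 2 + (s - v.2.1) ^ 2 + v.2.2 ^ 2) else 0) ∧
  phi U (x₁, |s|) = 1 / (2 * π) * ∫ v : ℝ × ℝ × ℝ, (if 0 < v.2.2 then
      (U.indicator (fun _ => (1:ℝ)) (v.1, √(v.2.1 ^ 2 + v.2.2 ^ 2))) / √(v.2.1 ^ 2 + v.2.2 ^ 2) * v.2.2 /
        ((x₁ - v.1) ^ 2 + (s - v.2.1) ^ 2 + v.2.2 ^ 2) else 0)

/-- F2. monotonicity in the second variable -/
def S_mp : Prop := ∀ (U : Set (ℝ × ℝ)) (W : ℝ), IsOpen U → U ⊆ UH → Bornology.IsBounded U →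
  (∀ x ∈ UH, (x ∈ U ↔ W < phi U x)) → ∀ x₁ r r' : ℝ, 0 ≤ r → r < r' →
  phi U (x₁, r') ≤ phi U (x₁, r)

/-! ## G. From maximisers to solutions -/

/-- G1. -/
def S_sol : Prop := ∀ A, Adm A → Bal A → ELc (4 * EE A / (3 * PP A)) A →
  ∃ w U τ r, Sol w U ∧ 0 < r ∧ A =ᵐ[volume] tra τ (dil r U) ∧
    w ^ 2 = 64 / 27 * π * EE A ^ 3 / PP A ^ 4

/-! ## H. Facts on solutions -/

/-- H1. -/
def S_Tprime : Prop := ∀ w U, Sol w U → 2 * π ^ 2 * w ^ 2 ≤ ar U ^ 2 * Real.log 2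

/-- H2. inner touching (`U` dilated inside `V`) -/
def S_touch : Prop := ∀ wU U wV V, Sol wU U → Sol wV V → ∃ t : ℝ, 0 < t ∧ dil t U ⊆ V ∧
  (∀ t' : ℝ, t < t' → ¬ dil t' U ⊆ V) ∧
  ∃ q : ℝ × ℝ, q ∈ closure (dil t U) ∧ q ∈ closure V ∧ 0 ≤ q.2 ∧ phi V q - phi (dil t U) q ≤ wV - t * wU ∧
    ∀ y ∈ V, |y.1| ≤ |q.1| ∨ y.2 ≤ q.2

/-- H3. the two-sided touching inequality in one frame -/
def SumIneq (wU : ℝ) (U V : Set (ℝ × ℝ)) (s t : ℝ) : Prop :=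
  dil t U ⊆ V ∧ V ⊆ dil s U ∧ ∃ q q' : ℝ × ℝ, q ∈ closure V ∧ q' ∈ closure V ∧ 0 ≤ q.2 ∧ 0 ≤ q'.2 ∧
    (∀ y ∈ U, |y.1| ≤ |q.1| / s ∨ y.2 ≤ q.2 / s) ∧
    ∫ y in dil s U \ dil t U, (min (kaps q y) (kaps q' y)) * y.2 ≤ (s - t) * wU

/-- H4. -/
def S_sum : Prop := ∀ wU U wV V, Sol wU U → Sol wV V →
  ∃ s t : ℝ, 0 < t ∧ t ≤ s ∧ SumIneq wU U V s t ∧ SumIneq wV V U (1 / t) (1 / s)

/-! ## I. Lower bound for the symmetrised kernel -/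

/-- I1. -/
def S_J2 : Prop := ∀ q y : ℝ × ℝ, 0 ≤ q.2 → 0 < y.2 → q ≠ y → q ≠ (-y.1, y.2) →
  J2 q y ≤ π * kaps q y

/-- I2. minimum over a half ellipse -/
def S_J2v : Prop := ∀ a h : ℝ, 0 < a → 0 < h → ∀ q y : ℝ × ℝ,
  q.1 ^ 2 / a ^ 2 + q.2 ^ 2 / h ^ 2 ≤ 1 → 0 < y.2 →
  min (1 / (y.1 ^ 2 + y.2 ^ 2)) (min (J2 (a, 0) y) (J2 (0, h) y)) ≤ J2 q y

/-- I3. along rays in `y` -/
def S_J2r : Prop := ∀ q y : ℝ × ℝ, 0 < q.1 ^ 2 + q.2 ^ 2 → 0 < y.2 → ∀ ρ : ℝ, 0 ≤ ρ → ρ ≤ 1 →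
  min (1 / (q.1 ^ 2 + q.2 ^ 2)) (J2 q y) ≤ J2 q (ρ * y.1, ρ * y.2)

end SV
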