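import Pool.Agent.Helper779.SV.Stmts

/-!
# Statements, part 2: confinement (N1), fans, test sets
-/

open MeasureTheory Set Filter Topology
open scoped Real

namespace SV

/-! ## J. Confinement to staircases -/

/-- staircase with half cell `u`, `N` rows of height `2u`, half lengths `u * c i` -/
def stair (u : ℝ) (N : ℕ) (c : ℕ → ℕ) : Set (ℝ × ℝ) :=
  {x | 0 < x.2 ∧ ∃ i < N, x.2 ≤ 2 * u * ((i : ℝ) + 1) ∧ |x.1| ≤ u * (c i : ℝ)}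

/-- the vertices -/
noncomputable def vtx (u : ℝ) (N : ℕ) (c : ℕ → ℕ) (j : ℕ) : ℝ × ℝ :=
  if j < N then (u * (c j : ℝ), 2 * u * (j : ℝ)) else (0, 2 * u * (N : ℝ))

/-- J1. touching at a vertex -/
def S_vtouch : Prop := ∀ (u : ℝ) (N : ℕ) (c : ℕ → ℕ), 0 < u → 1 ≤ N →
  (∀ i k, i ≤ k → c k ≤ c i) → (∀ i < N, 1 ≤ c i) → ∀ w U, Sol w U → ¬ U ⊆ stair u N c →
  ∃ θ : ℝ, 0 < θ ∧ θ ≤ 1 ∧ dil θ U ⊆ stair u N c ∧ ∃ j ≤ N, vtx u N c j ∈ closure (dil θ U) ∧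
    θ * w ≤ phi (dil θ U) (vtx u N c j)

/-- upper bound for `π φ_A(p_j) - lam ν(A) - π η |A|` -/
def IsUB (u : ℝ) (N : ℕ) (c : ℕ → ℕ) (j : ℕ) (lam η S : ℝ) : Prop :=
  ∀ A : Set (ℝ × ℝ), IsOpen A → A ⊆ UH → Low A → A ⊆ stair u N c → vtx u N c j ∈ closure A →
    π * phi A (vtx u N c j) ≤ lam * PP A + π * η * ar A + S

/-- J2. confinement theorem -/
def S_N1 : Prop := ∀ (u : ℝ) (N : ℕ) (c : ℕ → ℕ), 0 < u → 1 ≤ N →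
  (∀ i k, i ≤ k → c k ≤ c i) → (∀ i < N, 1 ≤ c i) → ∀ (w B : ℝ) (free : Prop), 0 < w → 0 ≤ B →
  (∀ j ≤ N, (vtx u N c j).1 * (vtx u N c j).2 ^ 2 ≤ π * w) →
  (∀ j ≤ N, ∀ θ : ℝ, 0 < θ → θ ≤ 1 → (vtx u N c j).1 * (vtx u N c j).2 ^ 2 ≤ θ ^ 3 * (π * w) →
    ∃ lam η S : ℝ, 0 ≤ lam ∧ 0 ≤ η ∧ 0 ≤ S ∧ (free → η = 0) ∧ IsUB u N c j lam η S ∧
      S + lam * (θ ^ 3 * (π * w)) + π * η * (B * θ ^ 2) < π * (θ * w)) →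
  ∀ w' U, Sol w' U → w ≤ w' → (free ∨ ar U ^ 3 * w ^ 2 ≤ B ^ 3 * w' ^ 2) → U ⊆ stair u N c

/-- row contribution -/
noncomputable def rowint (p : ℝ × ℝ) (T0 T1 lam η : ℝ) (l : ℝ → ℝ) : ℝ :=
  ∫ y in Ioo T0 T1, ∫ x in Ioo (-(l y)) (l y), (π * kap p (x, y) * y - lam * y - π * η)

/-- `π` times the potential at `p` of the rectangle `|x|<L`, `T0<y<T1` -/
noncomputable def rpot (p : ℝ × ℝ) (L T0 T1 : ℝ) : ℝ :=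
  ∫ y in Ioo T0 T1, ∫ x in Ioo (-L) L, π * kap p (x, y) * y

/-- J3. bound by rows -/
def S_rows : Prop := ∀ (u : ℝ) (N : ℕ) (c : ℕ → ℕ), 0 < u → 1 ≤ N →
  (∀ i k, i ≤ k → c k ≤ c i) → (∀ i < N, 1 ≤ c i) → ∀ (j : ℕ), j ≤ N → ∀ (lam η : ℝ), 0 ≤ lam → 0 ≤ η →
  ∀ r : ℕ → ℝ,
  (∀ i < N, ∀ l : ℝ → ℝ, Measurable l →
    (∀ y, 2 * u * (i : ℝ) < y → y < 2 * u * ((i : ℝ) + 1) →
      0 ≤ l y ∧ l y ≤ u * (c i : ℝ) ∧ (i < j → (vtx u N c j).1 ≤ l y)) →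
    rowint (vtx u N c j) (2 * u * (i : ℝ)) (2 * u * ((i : ℝ) + 1)) lam η l ≤ r i) →
  IsUB u N c j lam η (∑ i ∈ Finset.range N, r i)

/-- geometric condition of the row lemma -/
def RC (p m M : ℝ) : Prop :=
  32 / 10 * m ≤ 2 * p ∨ (3 * m ≤ 2 * p ∧ M ≤ 2 * p) ∨ (m < M ∧ 17 * M ≤ 20 * p)

/-- J4. Row Lemma -/
def S_row : Prop := ∀ p m M : ℝ, 0 < m → m < M → RC p m M → 0 < p →
  ∀ l l' : ℝ, 0 < l → l ≤ l' → l' ≤ p →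
  (1 / l) * ∫ d in (p - l)..(p + l), Real.log ((d ^ 2 + M ^ 2) / (d ^ 2 + m ^ 2)) ≤
  (1 / l') * ∫ d in (p - l')..(p + l'), Real.log ((d ^ 2 + M ^ 2) / (d ^ 2 + m ^ 2))

/-- J4'. Row Lemma on the axis -/
def S_row0 : Prop := ∀ p m : ℝ, 0 < m → m ≤ p →
  ∀ l l' : ℝ, 0 < l → l ≤ l' → l' ≤ p →
  (1 / l) * ∫ d in (p - l)..(p + l), 1 / (d ^ 2 + m ^ 2) ≤
  (1 / l') * ∫ d in (p - l')..(p + l'), 1 / (d ^ 2 + m ^ 2)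

/-- mean of `π κ(p,(·,y))` over `(-L,L)` -/
noncomputable def mk (p : ℝ × ℝ) (L y : ℝ) : ℝ := (1 / (2 * L)) * ∫ x in Ioo (-L) L, π * kap p (x, y)

/-- geometric condition for rows above the vertex `p`, up to height `y` -/
def RC2 (p : ℝ × ℝ) (y : ℝ) : Prop := RC p.1 (y - p.2) (y + p.2) ∨ (p.2 = 0 ∧ y ≤ p.1)

/-- J5. mean kernel: monotone in `L` and in `y` above `p` -/
def S_mk : Prop := ∀ p₁ p₂ L L' y y' : ℝ, 0 ≤ p₂ → p₂ < y → y ≤ y' → 0 < L' → L' ≤ L → L ≤ p₁ →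
  RC2 (p₁, p₂) y → mk (p₁, p₂) L' y' ≤ mk (p₁, p₂) L y

/-- J6. rows above the vertex: with `g = mk - lam - π η / y` and `M = L (T1^2 - T0^2)`, either
`- (E1 y + E0) ≤ g y` on the row and `rpot - lam M - 2 π η L (T1-T0) + E1 M + 2 E0 L (T1-T0) ≤ r`,
or `0 ≤ gh`, `g ≤ gh` on the row and `gh M ≤ r`. -/
def S_above : Prop := ∀ p₁ p₂ L T0 T1 lam η r : ℝ, 0 ≤ p₂ → p₂ ≤ T0 → T0 < T1 → 0 < L → L ≤ p₁ →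
  0 ≤ lam → 0 ≤ η → RC2 (p₁, p₂) T1 →
  ((∃ E1 E0 : ℝ, 0 ≤ E1 ∧ 0 ≤ E0 ∧
      (∀ y, T0 < y → y < T1 → -(E1 * y + E0) ≤ (mk (p₁, p₂) L y - lam) * y - π * η) ∧
      rpot (p₁, p₂) L T0 T1 - lam * (L * (T1 ^ 2 - T0 ^ 2)) - 2 * π * η * L * (T1 - T0)
        + L * (E1 * (T1 ^ 2 - T0 ^ 2) + 2 * E0 * (T1 - T0)) ≤ r) ∨
   (∃ gh : ℝ, 0 ≤ gh ∧ (∀ y, T0 < y → y < T1 → mk (p₁, p₂) L y - lam - π * η / y ≤ gh) ∧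
      gh * (L * (T1 ^ 2 - T0 ^ 2)) ≤ r)) →
  ∀ l : ℝ → ℝ, Measurable l → (∀ y, T0 < y → y < T1 → 0 ≤ l y ∧ l y ≤ L) →
  rowint (p₁, p₂) T0 T1 lam η l ≤ r

/-- J7. rows below the vertex -/
def S_below : Prop := ∀ p₁ p₂ L L' lb T0 T1 lam η kl E1 E0 r : ℝ, 0 ≤ p₁ → 0 ≤ T0 → T0 < T1 → T1 ≤ p₂ →
  0 < L' → p₁ ≤ L' → L' ≤ L → p₁ ≤ lb → lb ≤ L' → 0 ≤ lam → 0 ≤ η →
  (∀ x y, L' < x → x < L → T0 < y → y < T1 → π * kaps (p₁, p₂) (x, y) ≤ lam + π * η / y) →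
  (∀ y, T0 < y → y < T1 → lb < L' → kl ≤ π * kaps (p₁, p₂) (L', y)) →
  (lb = p₁ ∨ ∀ y, T0 < y → y < T1 → lam + π * η / y ≤ π * kaps (p₁, p₂) (lb, y)) →
  (∀ y, T0 < y → y < T1 → (lam + π * η / y - kl) * y ≤ E1 * y + E0) → 0 ≤ E1 → 0 ≤ E0 →
  rpot (p₁, p₂) L' T0 T1 - lam * (L' * (T1 ^ 2 - T0 ^ 2)) - 2 * π * η * L' * (T1 - T0)
    + (L' - lb) * (E1 * (T1 ^ 2 - T0 ^ 2) + 2 * E0 * (T1 - T0)) ≤ r →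
  ∀ l : ℝ → ℝ, Measurable l → (∀ y, T0 < y → y < T1 → p₁ ≤ l y ∧ l y ≤ L) →
  rowint (p₁, p₂) T0 T1 lam η l ≤ r

/-! Pixel potentials: cell with centre `p + u (X,Y')`, half side `u`. -/

/-- lower bound for `exp(2 * mean of log |z|^2)` over the cell `[X-1,X+1]×[Y-1,Y+1]`;
`d = X^2+Y^2` -/
noncomputable def cellLo (X Y : ℤ) : ℝ :=
  if 4 ≤ X ^ 2 + Y ^ 2 then (((X ^ 2 + Y ^ 2) ^ 2 - 4 : ℤ) : ℝ) else if X = 0 ∨ Y = 0 then 117 / 100 else 362 / 100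

/-- upper bound for `exp(2 * mean of log |z|^2)` over the cell -/
noncomputable def cellHi (X Y : ℤ) : ℝ :=
  if 4 ≤ X ^ 2 + Y ^ 2 then (((X ^ 2 + Y ^ 2) ^ 2 + 4 : ℤ) : ℝ) else if X = 0 ∨ Y = 0 then 123 / 100 else 371 / 100

/-- J8. mean of the logarithm over a cell (side 2, centre `(X,Y) ≠ (0,0)` integral) -/
def S_cell : Prop := ∀ X Y : ℤ, (X, Y) ≠ (0, 0) →
  Integrable (fun z : ℝ × ℝ => Real.log (z.1 ^ 2 + z.2 ^ 2)) (volume.restrict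
    (Icc (X - 1 : ℝ) (X + 1) ×ˢ Icc (Y - 1 : ℝ) (Y + 1))) ∧
  2 * Real.log (cellLo X Y) ≤ ∫ z in (Icc (X - 1 : ℝ) (X + 1) ×ˢ Icc (Y - 1 : ℝ) (Y + 1)),
    Real.log (z.1 ^ 2 + z.2 ^ 2) ∧
  ∫ z in (Icc (X - 1 : ℝ) (X + 1) ×ˢ Icc (Y - 1 : ℝ) (Y + 1)),
    Real.log (z.1 ^ 2 + z.2 ^ 2) ≤ 2 * Real.log (cellHi X Y)

/-- J9. row potentials for `p₂ > 0`: centred run of `n = c - 2k` cells of row `i`, seen from the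
vertex `(u cj, 2 u j)`, `j ≥ 1` (parity: cell centres `-n+1+2m`, `m<n`). -/
def S_rpot : Prop := ∀ (u : ℝ) (cj j i n : ℕ), 0 < u → 1 ≤ j → 1 ≤ n →
  rpot (u * (cj : ℝ), 2 * u * (j : ℝ)) (u * (n : ℝ)) (2 * u * (i : ℝ)) (2 * u * ((i : ℝ) + 1)) ≤
    (u / (4 * (j : ℝ))) * ∑ m ∈ Finset.range n, (Real.log (cellHi (-(n : ℤ) + 1 + 2 * m - cj) (2 * i + 1 + 2 * j)) -
      Real.log (cellLo (-(n : ℤ) + 1 + 2 * m - cj) (2 * i + 1 - 2 * j))) ∧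
  (u / (4 * (j : ℝ))) * ∑ m ∈ Finset.range n, (Real.log (cellLo (-(n : ℤ) + 1 + 2 * m - cj) (2 * i + 1 + 2 * j)) -
      Real.log (cellHi (-(n : ℤ) + 1 + 2 * m - cj) (2 * i + 1 - 2 * j))) ≤
  rpot (u * (cj : ℝ), 2 * u * (j : ℝ)) (u * (n : ℝ)) (2 * u * (i : ℝ)) (2 * u * ((i : ℝ) + 1))

/-- J10. row potentials for the vertex on the axis: cell centres relative to `p` are `(X, 2i+1)`,
`X = -n+1+2m-cj`; `d = X^2+Y^2`; the integral of `y/|z|^2` over the cell is `≤ cup`, `≥ clo` -/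
noncomputable def cup (X Y : ℤ) : ℝ :=
  if 5 ≤ X ^ 2 + Y ^ 2 then 4 * ((Y : ℝ) / ((X ^ 2 + Y ^ 2 : ℤ) : ℝ) +
    9 / 5 / (((X ^ 2 + Y ^ 2) ^ 2 - 4 : ℤ) : ℝ)) else 2264 / 1000
noncomputable def clo (X Y : ℤ) : ℝ :=
  if 5 ≤ X ^ 2 + Y ^ 2 then 4 * ((Y : ℝ) / ((X ^ 2 + Y ^ 2 : ℤ) : ℝ) -
    9 / 5 / (((X ^ 2 + Y ^ 2) ^ 2 - 4 : ℤ) : ℝ)) else 2263 / 1000

def S_rpot0 : Prop := ∀ (u : ℝ) (cj i n : ℕ), 0 < u → 1 ≤ n → n ≤ cj →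
  rpot (u * (cj : ℝ), 0) (u * (n : ℝ)) (2 * u * (i : ℝ)) (2 * u * ((i : ℝ) + 1)) ≤
    u * ∑ m ∈ Finset.range n, cup (-(n : ℤ) + 1 + 2 * m - cj) (2 * i + 1) ∧
  u * ∑ m ∈ Finset.range n, clo (-(n : ℤ) + 1 + 2 * m - cj) (2 * i + 1) ≤
  rpot (u * (cj : ℝ), 0) (u * (n : ℝ)) (2 * u * (i : ℝ)) (2 * u * ((i : ℝ) + 1))

/-- J11. small dilations at the top vertex -/
def S_top : Prop := ∀ (A : Set (ℝ × ℝ)) (h : ℝ), 0 < h → IsOpen A → A ⊆ UH → Low A →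
  (∀ x ∈ A, x.2 ≤ h) → Bornology.IsBounded A → π * phi A (0, h) ≤ 4 / h ^ 2 * PP A

/-- J12. small dilations at the axis vertex -/
def S_axis : Prop := ∀ (A : Set (ℝ × ℝ)) (a : ℝ), 0 < a → IsOpen A → A ⊆ UH → Low A →
  (∀ x ∈ A, |x.1| ≤ a) → Bornology.IsBounded A →
  phi A (a, 0) ≤ 1 / 2 * √(2 * PP A / a) + 4 * PP A / (π * a ^ 2)

/-! ## K. Fans -/

/-- sector of the upper half plane between the rays through `(X,Y)` and `(X',Y')`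
(first coordinates nonnegative, counterclockwise; symmetrised) -/
def sect (X Y X' Y' : ℝ) : Set (ℝ × ℝ) :=
  {y | 0 < y.2 ∧ |y.1| * Y ≤ X * y.2 ∧ X' * y.2 < |y.1| * Y'}

/-- K1. impulse of a symmetrised triangle with a vertical edge at `X`, heights `Y<Y'` -/
def S_trv : Prop := ∀ X Y Y' : ℝ, 0 < X → 0 ≤ Y → Y < Y' →
  PP (sect X Y X Y' ∩ {y | |y.1| ≤ X}) = X * (Y' - Y) * (Y + Y') / 3

/-- K2. impulse of a symmetrised triangle with a horizontal edge at height `Y` -/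
def S_trh : Prop := ∀ X X' Y : ℝ, 0 ≤ X' → X' < X → 0 < Y →
  PP (sect X Y X' Y ∩ {y | y.2 ≤ Y}) = 2 / 3 * (X - X') * Y ^ 2

/-- K3. shell integral -/
def S_shell : Prop := ∀ (U : Set (ℝ × ℝ)) (n : ℕ) (C : ℕ → Set (ℝ × ℝ)) (k : ℕ → ℝ → ℝ) (ν : ℕ → ℝ)
  (f : ℝ × ℝ → ℝ) (Λ σ₁ σ₂ : ℝ), IsOpen U → U ⊆ UH → Bornology.IsBounded U → Low U →
  (∀ i, MeasurableSet (C i)) → (∀ i j, i ≠ j → Disjoint (C i) (C j)) → (∀ i, ∀ r : ℝ, 0 < r → dil r (C i) = C i) →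
  (volume (U \ ⋃ i ∈ Finset.range n, C i) = 0) → (∀ i < n, PP (U ∩ C i) ≤ ν i) → 0 < σ₁ → σ₁ ≤ σ₂ → 0 ≤ Λ →
  (∀ i < n, ∀ y ∈ dil σ₂ U ∩ C i, k i σ₂ ≤ f y) → (∀ y ∈ UH, 0 ≤ f y) → Measurable f →
  IntegrableOn (fun y => f y * y.2) (dil σ₂ U \ dil σ₁ U) →
  (σ₂ ^ 3 - σ₁ ^ 3) * (Λ * PP U - ∑ i ∈ Finset.range n, max 0 (Λ - k i σ₂) * ν i) ≤
    ∫ y in dil σ₂ U \ dil σ₁ U, f y * y.2

/-! ## L. Test sets -/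

/-- union of the cells `(x,y)`, i.e. `[x-1,x+1]×[y-1,y+1]` scaled by `u` -/
def cells (u : ℝ) (S : Finset (ℤ × ℤ)) : Set (ℝ × ℝ) :=
  {x | ∃ s ∈ S, u * ((s.1 : ℝ) - 1) < x.1 ∧ x.1 < u * ((s.1 : ℝ) + 1) ∧
    u * ((s.2 : ℝ) - 1) < x.2 ∧ x.2 < u * ((s.2 : ℝ) + 1)}

/-- L1. energy of a union of cells; all first coordinates have the same parity, all second
coordinates are odd and positive, so that distinct cells are disjoint -/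
def S_cells : Prop := ∀ (S : Finset (ℤ × ℤ)) (e : ℤ), S.Nonempty →
  (∀ s ∈ S, s.1 % 2 = e % 2 ∧ s.2 % 2 = 1 ∧ 0 < s.2) →
  Adm (cells 1 S) ∧ ar (cells 1 S) = 4 * S.card ∧ PP (cells 1 S) = 4 * ∑ s ∈ S, (s.2 : ℝ) ∧
  (4 / π) * (∑ s ∈ S, ∑ t ∈ S, if s = t then
      (1 / 2 * Real.log ((2 * (s.2 : ℝ)) ^ 4 - 4) - 1 / 4 * Real.log ((2 * (s.2 : ℝ)) ^ 4) + 1 / 12)
    else
      (1 / 2 * (Real.log ((((s.1 - t.1) ^ 2 + (s.2 + t.2) ^ 2) ^ 2 - 4 : ℤ) : ℝ) -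
         Real.log ((((s.1 - t.1) ^ 2 + (s.2 - t.2) ^ 2) ^ 2 + 4 : ℤ) : ℝ)) -
       1 / 4 * (Real.log ((((s.1 - t.1) ^ 2 + (s.2 + t.2) ^ 2) ^ 2 : ℤ) : ℝ) -
         Real.log ((((s.1 - t.1) ^ 2 + (s.2 - t.2) ^ 2) ^ 2 : ℤ) : ℝ)))) ≤ EE (cells 1 S)

/-- L2. lifting -/
def S_lift : Prop := ∀ A, Adm A → Bornology.IsBounded A → ∀ t : ℝ, 0 ≤ t →
  Adm {x : ℝ × ℝ | (x.1, x.2 - t) ∈ A} ∧ ar {x : ℝ × ℝ | (x.1, x.2 - t) ∈ A} = ar A ∧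
  PP {x : ℝ × ℝ | (x.1, x.2 - t) ∈ A} = PP A + t * ar A ∧
  EE A ≤ EE {x : ℝ × ℝ | (x.1, x.2 - t) ∈ A}

/-! ## M. Numerical conclusions -/

/-- M1. uniqueness above level 0.2245 -/
def S_U1 : Prop := ∀ w0 U0 w1 U1, Sol w0 U0 → Sol w1 U1 → 2245 / 10000 ≤ w0 → 2245 / 10000 ≤ w1 →
  w0 = w1 ∧ U0 = U1

/-- M2. no lower solutions with small area -/
def S_low (wa wb m : ℝ) : Prop := ∀ w0 U0 w1 U1, Sol w0 U0 → Sol w1 U1 → 2273 / 10000 ≤ w0 →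
  wa ≤ w1 → w1 < wb → ar U1 ^ 3 ≤ m ^ 3 * (π * w1) ^ 2 → False

/-- M3. test sets: `m(T) ≤ m` and level at least `w` -/
def S_T (m w : ℝ) : Prop := ∃ T, Adm T ∧ Bornology.IsBounded T ∧ ar T ^ 3 ≤ m ^ 3 * PP T ^ 2 ∧
  w ^ 2 * PP T ^ 4 ≤ 64 / 27 * π * EE T ^ 3

/-- M4. the set `T0` -/
def S_T0 : Prop := ∃ T, Adm T ∧ Bornology.IsBounded T ∧
  (170 / 1000) ^ 2 * PP T ^ 4 ≤ 64 / 27 * π * EE T ^ 3 ∧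
  3 * Real.log 2 / (8 * π) * ar T ^ 2 < EE T

end SV
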