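import Pool.Agent.Helper779.SV.Chk

/-!
# Statements, part 3: soundness of the checkers
-/

open MeasureTheory Set Filter Topology
open scoped Real

namespace SV

/-- row half lengths of the code `C` -/
def cf (C : ℕ) (i : ℕ) : ℕ := K.dg C 16 i

/-- N0. the logarithm bounds -/
def S_LU : Prop := ∀ num den : ℕ, 0 < num → 0 < den →
  Real.log ((num : ℝ) / den) ≤ (K.LU num den : ℝ) / 16384 * Real.log 2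
def S_LL : Prop := ∀ num den : ℕ, 0 < den → den ≤ num →
  (K.LL num den : ℝ) / 16384 * Real.log 2 ≤ Real.log ((num : ℝ) / den)

/-- N1. potentials -/
def S_pfU : Prop := ∀ RS cj j i n vu : ℕ, 0 < RS → 1 ≤ n →
  K.pfU (1000 * (RS * RS)) cj j i n vu = true →
  rpot (1 / (RS : ℝ) * (cj : ℝ), 2 * (1 / (RS : ℝ)) * (j : ℝ)) (1 / (RS : ℝ) * (n : ℝ))
    (2 * (1 / (RS : ℝ)) * (i : ℝ)) (2 * (1 / (RS : ℝ)) * ((i : ℝ) + 1)) ≤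
    1 / (RS : ℝ) * ((vu : ℝ) / (1000 * (RS : ℝ) ^ 2))
def S_pfL : Prop := ∀ RS cj j i n vl : ℕ, 0 < RS → 1 ≤ n →
  K.pfL (1000 * (RS * RS)) cj j i n vl = true →
  1 / (RS : ℝ) * ((vl : ℝ) / (1000 * (RS : ℝ) ^ 2)) ≤
  rpot (1 / (RS : ℝ) * (cj : ℝ), 2 * (1 / (RS : ℝ)) * (j : ℝ)) (1 / (RS : ℝ) * (n : ℝ))
    (2 * (1 / (RS : ℝ)) * (i : ℝ)) (2 * (1 / (RS : ℝ)) * ((i : ℝ) + 1))

/-- the potentials of the vertex `j` are correctly bounded by the data -/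
def PF (RS N C j ND UD LD : ℕ) : Prop := ∀ i < N, 1 ≤ K.dg ND 16 i ∧
  (j ≤ i → K.dg ND 16 i = cf C i) ∧ K.dg ND 16 i ≤ cf C i ∧
  rpot (vtx (1 / (RS : ℝ)) N (cf C) j) (1 / (RS : ℝ) * (K.dg ND 16 i : ℝ))
    (2 * (1 / (RS : ℝ)) * (i : ℝ)) (2 * (1 / (RS : ℝ)) * ((i : ℝ) + 1)) ≤
    1 / (RS : ℝ) * ((K.dg UD 64 i : ℝ) / (1000 * (RS : ℝ) ^ 2)) ∧
  (j < i → 1 / (RS : ℝ) * ((K.dg LD 64 i : ℝ) / (1000 * (RS : ℝ) ^ 2)) ≤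
    rpot (vtx (1 / (RS : ℝ)) N (cf C) j) (1 / (RS : ℝ) * (K.dg ND 16 i : ℝ))
    (2 * (1 / (RS : ℝ)) * (i : ℝ)) (2 * (1 / (RS : ℝ)) * ((i : ℝ) + 1)))

/-- N2. -/
def S_chkPF : Prop := ∀ RS N C j ND UD LD : ℕ, 0 < RS → j ≤ N →
  K.chkPF RS N C j ND UD LD = true → PF RS N C j ND UD LD

/-- shape conditions in real form -/
structure CC (RS N C : ℕ) : Prop where
  rs : 0 < RS
  n : 1 ≤ N
  anti : ∀ i k, i ≤ k → cf C k ≤ cf C i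
  pos : ∀ i < N, 1 ≤ cf C i
  rc : ∀ j < N, RC2 (vtx (1 / (RS : ℝ)) N (cf C) j) (2 * (1 / (RS : ℝ)) * (N : ℝ))

/-- N3. -/
def S_shape : Prop := ∀ RS N C qn : ℕ, 0 < RS → 1 ≤ N → K.shape RS N C qn = true → CC RS N C ∧
  ∀ j ≤ N, (vtx (1 / (RS : ℝ)) N (cf C) j).1 * (vtx (1 / (RS : ℝ)) N (cf C) j).2 ^ 2 ≤ (qn : ℝ) / 1000000

/-- N4. rows above -/
def S_rowA : Prop := ∀ RS N C j ND UD LD i lam e : ℕ, CC RS N C → PF RS N C j ND UD LD → j ≤ i → i < N →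
  ∀ l : ℝ → ℝ, Measurable l →
  (∀ y, 2 * (1 / (RS : ℝ)) * (i : ℝ) < y → y < 2 * (1 / (RS : ℝ)) * ((i : ℝ) + 1) →
    0 ≤ l y ∧ l y ≤ 1 / (RS : ℝ) * (cf C i : ℝ)) →
  rowint (vtx (1 / (RS : ℝ)) N (cf C) j) (2 * (1 / (RS : ℝ)) * (i : ℝ)) (2 * (1 / (RS : ℝ)) * ((i : ℝ) + 1))
    ((lam : ℝ) / 1000) ((e : ℝ) / (1000 * RS * π)) l ≤
    1 / (RS : ℝ) * (((K.rowA (1000 * (RS * RS)) N C (K.cN N C j) j i UD LD lam e : ℝ) - K.OFF) /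
      (1000 * (RS : ℝ) ^ 2))

/-- N5. rows below -/
def S_rowB : Prop := ∀ RS N C j ND UD LD i b lam e : ℕ, CC RS N C → j ≤ N → PF RS N C j ND UD LD → i < j →
  K.flB (1000 * (RS * RS)) (K.cN N C j) (cf C i) j i (K.dg ND 16 i) b lam e = true →
  ∀ l : ℝ → ℝ, Measurable l →
  (∀ y, 2 * (1 / (RS : ℝ)) * (i : ℝ) < y → y < 2 * (1 / (RS : ℝ)) * ((i : ℝ) + 1) →
    (vtx (1 / (RS : ℝ)) N (cf C) j).1 ≤ l y ∧ l y ≤ 1 / (RS : ℝ) * (cf C i : ℝ)) →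
  rowint (vtx (1 / (RS : ℝ)) N (cf C) j) (2 * (1 / (RS : ℝ)) * (i : ℝ)) (2 * (1 / (RS : ℝ)) * ((i : ℝ) + 1))
    ((lam : ℝ) / 1000) ((e : ℝ) / (1000 * RS * π)) l ≤
    1 / (RS : ℝ) * (((K.rowB (1000 * (RS * RS)) (K.cN N C j) j i (K.dg ND 16 i) b (K.dg UD 64 i) lam e : ℝ)
      - K.OFF) / (1000 * (RS : ℝ) ^ 2))

/-- N6. one piece -/
def S_piece : Prop := ∀ RS N C qn Bn j ND UD LD t0 t1 lam e BD : ℕ, CC RS N C → j ≤ N →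
  PF RS N C j ND UD LD → K.piece RS N C qn Bn j ND UD LD t0 t1 lam e BD = true →
  ∀ θ : ℝ, 0 < θ → (t0 : ℝ) / 1000 ≤ θ → θ ≤ (t1 : ℝ) / 1000 →
    ∃ lam' η S : ℝ, 0 ≤ lam' ∧ 0 ≤ η ∧ 0 ≤ S ∧ (e = 0 → η = 0) ∧ IsUB (1 / (RS : ℝ)) N (cf C) j lam' η S ∧
      S + lam' * (θ ^ 3 * ((qn : ℝ) / 1000000)) + π * η * ((Bn : ℝ) / 1000000 * θ ^ 2) <
        θ * ((qn : ℝ) / 1000000)

/-- N7. the certificate theorem; all numbers are `/ 10^6` -/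
def S_cert : Prop := ∀ (RS N C qn Bn : ℕ) (free : Prop), 0 < RS → 1 ≤ N → 0 < qn → K.shape RS N C qn = true →
  (∀ j ≤ N, ∃ (ND UD LD t0 : ℕ) (l : List (ℕ × ℕ × ℕ × ℕ)), K.chkPF RS N C j ND UD LD = true ∧ l ≠ [] ∧
    K.vert RS N C qn Bn j t0 l ND UD LD = true ∧ (free → K.efree l = true)) →
  ∀ w' U, Sol w' U → (qn : ℝ) / 1000000 ≤ π * w' →
    (free ∨ ar U ^ 3 * ((qn : ℝ) / 1000000) ^ 2 ≤ ((Bn : ℝ) / 1000000) ^ 3 * (π * w') ^ 2) →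
    U ⊆ stair (1 / (RS : ℝ)) N (cf C)

end SV
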