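import Pool.Agent.Helper779.SV.Stmts3
import Pool.Agent.Helper779.SV.Chk2

/-!
# Statements, part 4: soundness of the fan and test set checkers
-/

open MeasureTheory Set Filter Topology
open scoped Real

namespace SV

/-! ## U. Fans -/

/-- boundary point `t` of the fan -/
noncomputable def bp (RS XD YD t : ℕ) : ℝ × ℝ :=
  (1 / (RS : ℝ) * (K.dg XD 16 t : ℝ), 1 / (RS : ℝ) * (K.dg YD 16 t : ℝ))

/-- sector `t` -/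
noncomputable def sec (RS XD YD t : ℕ) : Set (ℝ × ℝ) :=
  sect (bp RS XD YD t).1 (bp RS XD YD t).2 (bp RS XD YD (t + 1)).1 (bp RS XD YD (t + 1)).2

/-- `J2` in terms of squares -/
noncomputable def J2s (Q1 Q2 Y1 Y2 : ℝ) : ℝ :=
  1 / (Q1 + Q2 + Y1 + Y2) + (4 * Q1 * Y1 + 4 / 3 * (Q2 * Y2)) / (Q1 + Q2 + Y1 + Y2) ^ 3

/-- lower bound of the kernel at a point with squared coordinates `Y1`, `Y2`, for `q` in the half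
ellipse with squared half axes `A`, `H` -/
noncomputable def kpt (A H Y1 Y2 : ℝ) : ℝ :=
  min (min (1 / A) (1 / (Y1 + Y2))) (min (J2s A 0 Y1 Y2) (J2s 0 H Y1 Y2))

/-- the same on the triangle `t` dilated by `σ` -/
noncomputable def ktr (A H σ : ℝ) (RS XD YD t : ℕ) : ℝ :=
  min (kpt A H ((σ * (bp RS XD YD t).1) ^ 2) ((σ * (bp RS XD YD t).2) ^ 2))
    (kpt A H ((σ * (bp RS XD YD (t + 1)).1) ^ 2) ((σ * (bp RS XD YD (t + 1)).2) ^ 2))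

/-- U1. geometry of the fan -/
def S_fan : Prop := ∀ RS N C T XD YD : ℕ, CC RS N C → K.fan N C T XD YD = true →
  (∀ t, MeasurableSet (sec RS XD YD t)) ∧
  (∀ t < T, ∀ s < T, t ≠ s → Disjoint (sec RS XD YD t) (sec RS XD YD s)) ∧
  (∀ t, ∀ r : ℝ, 0 < r → dil r (sec RS XD YD t) = sec RS XD YD t) ∧
  (∀ x ∈ UH, x.1 ≠ 0 → ∃ t < T, x ∈ sec RS XD YD t) ∧
  ∀ U : Set (ℝ × ℝ), MeasurableSet U → U ⊆ stair (1 / (RS : ℝ)) N (cf C) → ∀ t < T,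
    PP (U ∩ sec RS XD YD t) ≤ (K.nu3 XD YD t : ℝ) / (3 * (RS : ℝ) ^ 3) ∧
    ∀ y ∈ U ∩ sec RS XD YD t, ∃ ρ θ : ℝ, 0 < ρ ∧ ρ ≤ 1 ∧ 0 ≤ θ ∧ θ ≤ 1 ∧
      |y.1| = ρ * ((1 - θ) * (bp RS XD YD t).1 + θ * (bp RS XD YD (t + 1)).1) ∧
      y.2 = ρ * ((1 - θ) * (bp RS XD YD t).2 + θ * (bp RS XD YD (t + 1)).2)

/-- U2. kernel bound on dilated triangles (an edge is horizontal or vertical) -/
def S_ktr : Prop := ∀ (RS N C T XD YD : ℕ) (A H σ : ℝ), CC RS N C → K.fan N C T XD YD = true →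
  0 < H → H ≤ A → 0 < σ → ∀ t < T, ∀ ρ θ : ℝ, 0 < ρ → ρ ≤ σ → 0 ≤ θ → θ ≤ 1 → ∀ q y : ℝ × ℝ,
  q.1 ^ 2 / A + q.2 ^ 2 / H ≤ 1 → 0 < y.2 →
  |y.1| = ρ * ((1 - θ) * (bp RS XD YD t).1 + θ * (bp RS XD YD (t + 1)).1) →
  y.2 = ρ * ((1 - θ) * (bp RS XD YD t).2 + θ * (bp RS XD YD (t + 1)).2) →
  ktr A H σ RS XD YD t ≤ J2 q y

/-- U3. the integer function `kT` -/
def S_kT : Prop := ∀ RS XD YD Ah Hh g t : ℕ, 0 < RS → 0 < Ah → 0 < Hh → 0 < g →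
  0 < K.dg XD 16 t + K.dg YD 16 t → 0 < K.dg XD 16 (t + 1) + K.dg YD 16 (t + 1) →
  (K.kT (1000000000000000 * (RS * RS)) Ah Hh g XD YD t : ℝ) / 10000000 ≤
  ktr ((Ah : ℝ) / 100000000 / (RS : ℝ) ^ 2) ((Hh : ℝ) / 100000000 / (RS : ℝ) ^ 2) ((g : ℝ) / 10000) RS XD YD t

/-- U4. shells: if `U` lies in the staircase and `f` is at least `J2 q` for some `q` of the half
ellipse at every point (e.g. a minimum of two such kernels), then the integral over a shell is bounded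
below by the integer data -/
def S_shellN : Prop := ∀ (RS N C qn An Hn T XD YD g Lam : ℕ) (U : Set (ℝ × ℝ)) (f : ℝ × ℝ → ℝ) (σ₁ σ₂ : ℝ),
  CC RS N C → K.fan N C T XD YD = true → 0 < Hn → Hn ≤ An → 0 < g →
  IsOpen U → U ⊆ UH → Bornology.IsBounded U → Low U →
  U ⊆ stair (1 / (RS : ℝ)) N (cf C) → (qn : ℝ) / 1000000 ≤ PP U → 0 < σ₁ → σ₁ ≤ σ₂ → σ₂ ≤ (g : ℝ) / 10000 →
  (∀ᵐ y : ℝ × ℝ, y ∈ UH → ∃ q : ℝ × ℝ, q.1 ^ 2 / ((An : ℝ) / (RS : ℝ) ^ 2) + q.2 ^ 2 / ((Hn : ℝ) / (RS : ℝ) ^ 2) ≤ 1 ∧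
    J2 q y ≤ f y) → (∀ y ∈ UH, 0 ≤ f y) → Measurable f →
  IntegrableOn (fun y => f y * y.2) (dil σ₂ U \ dil σ₁ U) →
  (σ₂ ^ 3 - σ₁ ^ 3) * (PP U / ((qn : ℝ) / 1000000) *
    ((K.DD RS qn (100000000 * An) (100000000 * Hn) g T XD YD Lam : ℝ) / (30000000000000 * (RS : ℝ) ^ 3))) ≤
    ∫ y in dil σ₂ U \ dil σ₁ U, f y * y.2

/-- U5. the staircase lies in the half ellipse -/
def S_ell : Prop := ∀ RS N C An Hn : ℕ, CC RS N C → K.ellok N C An Hn = true → 0 < Hn ∧ Hn ≤ An ∧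
  ∀ q : ℝ × ℝ, q ∈ closure (stair (1 / (RS : ℝ)) N (cf C)) →
    q.1 ^ 2 / ((An : ℝ) / (RS : ℝ) ^ 2) + q.2 ^ 2 / ((Hn : ℝ) / (RS : ℝ) ^ 2) ≤ 1

/-- U6. uniqueness -/
def S_ufan : Prop := ∀ (RS N C qn An Hn T XD YD GD LD LD' n : ℕ), CC RS N C → 0 < qn →
  K.fan N C T XD YD = true → K.ellok N C An Hn = true → K.dg GD 32 0 = 10000 →
  (∀ k < n, K.ucell RS qn An Hn T XD YD (K.dg GD 32 k) (K.dg GD 32 (k + 1)) (K.dg LD 32 k) (K.dg LD' 32 k) = true) →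
  K.uend RS N C qn (K.dg GD 32 n) = true →
  (∀ w U, Sol w U → (qn : ℝ) / 1000000 ≤ π * w → U ⊆ stair (1 / (RS : ℝ)) N (cf C)) →
  ∀ w0 U0 w1 U1, Sol w0 U0 → Sol w1 U1 → (qn : ℝ) / 1000000 ≤ π * w0 → (qn : ℝ) / 1000000 ≤ π * w1 →
    w0 = w1 ∧ U0 = U1

/-- U7. -/
def S_ucells : Prop := ∀ RS qn An Hn T XD YD GD LD LD' k0 n : ℕ,
  K.ucells RS qn An Hn T XD YD GD LD LD' k0 n = true → ∀ k, k0 ≤ k → k < k0 + n →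
  K.ucell RS qn An Hn T XD YD (K.dg GD 32 k) (K.dg GD 32 (k + 1)) (K.dg LD 32 k) (K.dg LD' 32 k) = true

/-! ## C. Lower solutions -/

/-- C1. upper bound for `∫_{R1} (Λ - k_t)_+ dν`, in the form used: lower bound for kernel integrals -/
def S_KN : Prop := ∀ (RS N C T XD YD Ah Hh Lam : ℕ) (V : Set (ℝ × ℝ)) (f : ℝ × ℝ → ℝ),
  CC RS N C → K.fan N C T XD YD = true → 0 < Hh → Hh ≤ Ah →
  MeasurableSet V → V ⊆ stair (1 / (RS : ℝ)) N (cf C) →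
  (∀ᵐ y : ℝ × ℝ, y ∈ V → ∃ q : ℝ × ℝ, q.1 ^ 2 / ((Ah : ℝ) / 100000000 / (RS : ℝ) ^ 2) +
      q.2 ^ 2 / ((Hh : ℝ) / 100000000 / (RS : ℝ) ^ 2) ≤ 1 ∧ J2 q y ≤ f y) → Measurable f →
  IntegrableOn (fun y => f y * y.2) V →
  (Lam : ℝ) / 10000000 * PP V -
    (K.SK (1000000000000000 * (RS * RS)) Ah Hh T XD YD Lam : ℝ) / (30000000000 * (RS : ℝ) ^ 3) ≤
    ∫ y in V, f y * y.2

/-- C2. -/
def S_lfan : Prop := ∀ (RS0 N0 C0 An Hn RS N C q0 qa qb T XD YD TD LD n : ℕ),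
  CC RS0 N0 C0 → K.ellok N0 C0 An Hn = true → CC RS N C → K.fan N C T XD YD = true →
  0 < q0 → 0 < qa → qa ≤ qb → K.lcells RS RS0 An Hn q0 qa qb T XD YD TD LD n = true →
  ∀ w0 U0 w1 U1, Sol w0 U0 → Sol w1 U1 → U0 ⊆ stair (1 / (RS0 : ℝ)) N0 (cf C0) →
  U1 ⊆ stair (1 / (RS : ℝ)) N (cf C) → (q0 : ℝ) / 1000000 ≤ π * w0 → (qa : ℝ) / 1000000 ≤ π * w1 →
  π * w1 ≤ (qb : ℝ) / 1000000 → False

/-! ## T. Test sets -/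

/-- T1. -/
def S_tset : Prop := ∀ A R : ℕ, K.tpar A R = true → ∃ T : Set (ℝ × ℝ), Adm T ∧ Bornology.IsBounded T ∧
  ar T = 4 * (K.tcnt A R : ℝ) ∧ PP T = 4 * (K.tP A R : ℝ) ∧
  (K.tE A R : ℝ) / 163840000000000 ≤ π * EE T

end SV
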